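import Pool.Agent.W_bd7f91F_h12.Defs

/-! # Adaptive product bound -/

set_option autoImplicit false

open Finset
open scoped Classical

namespace GC

theorem AP_resample {ι α : Type} [Fintype ι] [DecidableEq ι] [Fintype α] (a : ι)
    (H : (ι → α) → ℝ) :
    ∑ f : ι → α, ∑ c : α, H (Function.update f a c) = (Fintype.card α : ℝ) * ∑ f, H f := by
  rw [← Fintype.sum_prod_type' (fun (f : ι → α) (c : α) => H (Function.update f a c))]
  have h1 : ∑ p : (ι → α) × α, H (Function.update p.1 a p.2) = ∑ p : (ι → α) × α, H p.1 := by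
    refine Finset.sum_bij' (fun p _ => (Function.update p.1 a p.2, p.1 a))
      (fun p _ => (Function.update p.1 a p.2, p.1 a)) (fun _ _ => mem_univ _)
      (fun _ _ => mem_univ _) ?_ ?_ ?_
    · rintro ⟨f, c⟩ _
      simp
    · rintro ⟨f, c⟩ _
      simp
    · rintro ⟨f, c⟩ _
      rfl
  rw [h1, Fintype.sum_prod_type_right]
  simp only
  rw [Finset.sum_const, card_univ, nsmul_eq_mul]

/-- ADAPTIVE PRODUCT BOUND.  `F b` does not depend on the coordinates `a ∈ J`, `a ≠ b`, of rank at least `rk b`.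
PROOF. Induction on `|J|`: let `a ∈ J` have maximal rank; all other factors do not depend on the coordinate `a`.
Hence `|α| * ∑_f ∏_J F = ∑_f (∏_(J - a) F b f) ∑_c F a (update f a c) ≤ w a * ∑_f ∏_(J - a) F b f`
(the map `(f, c) ↦ update f a c`: `∑_f ∑_c G (update f a c) = |α| ∑_f G f`). -/
theorem ap_weighted {ι α : Type} [Fintype ι] [DecidableEq ι] [Fintype α] [Nonempty α]
    (J : Finset ι) (rk : ι → ℕ) (F : ι → (ι → α) → ℝ) (w : ι → ℝ)
    (hF : ∀ a ∈ J, ∀ f, 0 ≤ F a f)
    (hdep : ∀ a ∈ J, ∀ b ∈ J, a ≠ b → rk b ≤ rk a → ∀ f c, F b (Function.update f a c) = F b f)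
    (hw : ∀ a ∈ J, ∀ f, ∑ c, F a (Function.update f a c) ≤ w a) :
    (∑ f : ι → α, ∏ a ∈ J, F a f) * (Fintype.card α : ℝ) ^ J.card ≤
      (∏ a ∈ J, w a) * (Fintype.card α : ℝ) ^ (Fintype.card ι) := by
  induction J using Finset.induction_on_max_value rk with
  | empty => simp
  | insert a s ha hmax ih =>
    have hN : (0 : ℝ) < (Fintype.card α : ℝ) := by exact_mod_cast Fintype.card_pos
    have ih' := ih (fun b hb => hF b (mem_insert_of_mem hb))
      (fun b hb c hc => hdep b (mem_insert_of_mem hb) c (mem_insert_of_mem hc))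
      (fun b hb => hw b (mem_insert_of_mem hb))
    have hG : ∀ f c, ∏ b ∈ s, F b (Function.update f a c) = ∏ b ∈ s, F b f := by
      intro f c
      apply Finset.prod_congr rfl
      intro b hb
      exact hdep a (mem_insert_self _ _) b (mem_insert_of_mem hb)
        (fun h => ha (h ▸ hb)) (hmax b hb) f c
    have hG0 : ∀ f, 0 ≤ ∏ b ∈ s, F b f := fun f =>
      Finset.prod_nonneg (fun b hb => hF b (mem_insert_of_mem hb) f)
    have hwa : 0 ≤ w a := by
      obtain ⟨c0⟩ := (inferInstance : Nonempty α)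
      refine le_trans ?_ (hw a (mem_insert_self _ _) (fun _ => c0))
      exact Finset.sum_nonneg (fun c _ => hF a (mem_insert_self _ _) _)
    have key : (Fintype.card α : ℝ) * ∑ f : ι → α, ∏ b ∈ insert a s, F b f ≤
        w a * ∑ f : ι → α, ∏ b ∈ s, F b f := by
      rw [← AP_resample a (fun f => ∏ b ∈ insert a s, F b f), Finset.mul_sum]
      apply Finset.sum_le_sum
      intro f _
      calc ∑ c, ∏ b ∈ insert a s, F b (Function.update f a c) =
            ∑ c, F a (Function.update f a c) * ∏ b ∈ s, F b f := by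
            apply Finset.sum_congr rfl
            intro c _
            rw [Finset.prod_insert ha, hG]
        _ = (∑ c, F a (Function.update f a c)) * ∏ b ∈ s, F b f := by rw [Finset.sum_mul]
        _ ≤ w a * ∏ b ∈ s, F b f :=
            mul_le_mul_of_nonneg_right (hw a (mem_insert_self _ _) f) (hG0 f)
    rw [Finset.card_insert_of_notMem ha, Finset.prod_insert ha, pow_succ]
    calc (∑ f : ι → α, ∏ b ∈ insert a s, F b f) *
          ((Fintype.card α : ℝ) ^ s.card * (Fintype.card α : ℝ)) =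
          ((Fintype.card α : ℝ) * ∑ f : ι → α, ∏ b ∈ insert a s, F b f) *
          (Fintype.card α : ℝ) ^ s.card := by ring
      _ ≤ (w a * ∑ f : ι → α, ∏ b ∈ s, F b f) * (Fintype.card α : ℝ) ^ s.card :=
          mul_le_mul_of_nonneg_right key (by positivity)
      _ = w a * ((∑ f : ι → α, ∏ b ∈ s, F b f) * (Fintype.card α : ℝ) ^ s.card) := by ring
      _ ≤ w a * ((∏ b ∈ s, w b) * (Fintype.card α : ℝ) ^ (Fintype.card ι)) :=
          mul_le_mul_of_nonneg_left ih' hwa
      _ = _ := by ring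

/-- the same for curried functions -/
theorem ap_pos {n k m : ℕ} (hn : 0 < n) (J : Finset (Fin m × Fin k)) (rk : Fin m × Fin k → ℕ)
    (F : Fin m × Fin k → Pos n k m → ℝ) (w : Fin m × Fin k → ℝ)
    (hF : ∀ a ∈ J, ∀ v, 0 ≤ F a v)
    (hdep : ∀ a ∈ J, ∀ b ∈ J, a ≠ b → rk b ≤ rk a → ∀ (v : Pos n k m) (c : Fin n),
      F b (fun e j => if (e, j) = a then c else v e j) = F b v)
    (hw : ∀ a ∈ J, ∀ v : Pos n k m,
      ∑ c : Fin n, F a (fun e j => if (e, j) = a then c else v e j) ≤ w a) :
    (∑ v : Pos n k m, ∏ a ∈ J, F a v) * (n : ℝ) ^ J.card ≤ (∏ a ∈ J, w a) * (n : ℝ) ^ (k * m) := by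
  haveI : Nonempty (Fin n) := ⟨⟨0, hn⟩⟩
  have hup : ∀ (f : Fin m × Fin k → Fin n) (a : Fin m × Fin k) (c : Fin n),
      Function.curry (Function.update f a c) =
        (fun e j => if (e, j) = a then c else Function.curry f e j) := by
    intro f a c
    funext e j
    simp only [Function.curry, Function.update_apply]
  have h := ap_weighted (ι := Fin m × Fin k) (α := Fin n) J rk
    (fun a f => F a (Function.curry f)) w (fun a ha f => hF a ha _)
    (fun a ha b hb hab hr f c => by
      simp only [hup]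
      exact hdep a ha b hb hab hr _ c)
    (fun a ha f => by
      simp only [hup]
      exact hw a ha _)
  have hcard : Fintype.card (Fin m × Fin k) = k * m := by
    rw [Fintype.card_prod, Fintype.card_fin, Fintype.card_fin, mul_comm]
  rw [hcard, Fintype.card_fin] at h
  have hs : ∑ f : Fin m × Fin k → Fin n, ∏ a ∈ J, F a (Function.curry f) =
      ∑ v : Pos n k m, ∏ a ∈ J, F a v :=
    Fintype.sum_equiv (Equiv.curry (Fin m) (Fin k) (Fin n)) _ _ (fun _ => rfl)
  rw [hs] at h
  exact h

end GC
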