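import Pool.Agent.W_bd7f91F_h12.Op

/-! # The actual run: satisfied clauses stay satisfied, blocking happens once -/

set_option autoImplicit false

open Finset
open scoped Classical

namespace GC

variable {n k m : ℕ}

theorem Act_step (Φ : Fml n k m) (η : Asg n) (i : Fin m) :
    arun Φ η (i.val + 1) = if Viol (Φ i) (arun Φ η i.val).1 then
      op (Φ i).1 (stp (Φ i).1 (Free Φ ∅ ∅ i.val (arun Φ η i.val))) (arun Φ η i.val)
      else arun Φ η i.val := by
  have h1 := run_succ Φ ∅ ∅ (fun _ => none) η i
  have h2 : arun Φ η (i.val + 1) = step Φ ∅ ∅ (fun _ => none) i (arun Φ η i.val) := h1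
  rw [h2, step, if_neg (Finset.notMem_empty i)]

/-- A clause satisfied at time `i0` (its insertion) stays satisfied.
PROOF. Induction on `i`. Step `i ≥ e.val`: if clause `i` is satisfied nothing happens (this includes `i = e`).
Otherwise `op` with the stop slot; if it is `some s` the flipped variable `y` is `Free` (`stp_some`), so `e` (if
`e.val < i`) is not critical for `y`, and a satisfied clause which is not critical for `y` is satisfied after the
flip of `y`. -/
theorem sat_stays (Φ : Fml n k m) (η : Asg n) {e : Fin m} {i : ℕ} (hei : e.val ≤ i)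
    (hV : ¬ Viol (Φ e) (arun Φ η e.val).1) : ¬ Viol (Φ e) (arun Φ η i).1 := by
  induction i, hei using Nat.le_induction with
  | base => exact hV
  | succ i hi ih =>
    rcases lt_or_ge i m with him | him
    · have h1 := Act_step Φ η ⟨i, him⟩
      simp only at h1
      rw [h1]
      split_ifs with hvi
      · have hlt : e.val < i := by
          rcases Nat.lt_or_eq_of_le hi with h2 | h2
          · exact h2
          · exfalso
            have h3 : e = ⟨i, him⟩ := Fin.ext h2
            subst h3
            exact hV hvi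
        cases hs : stp (Φ ⟨i, him⟩).1 (Free Φ ∅ ∅ i (arun Φ η i)) with
        | none => exact ih
        | some s =>
          have hf := (stp_some.1 hs).1
          simp only [op]
          rw [if_neg hf.1]
          intro h4
          exact hf.2.2 e hlt (Finset.notMem_empty _) ⟨ih, h4⟩
      · exact ih
    · have h1 : arun Φ η (i + 1) = arun Φ η i := run_succ_ge Φ ∅ ∅ _ η him
      rw [h1]
      exact ih

/-- A clause violated at a time after its insertion has all variables marked.
PROOF. By `sat_stays` it is violated at time `e.val`. If the stop slot is `none` all variables are marked in step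
`e`. If it is `some s`, the variable at slot `s` is free, so unmarked, it is flipped and marked in step `e` and never
changes again (`run_fix`): the slot `s` is true for ever, contradiction. -/
theorem viol_marked (Φ : Fml n k m) (η : Asg n) {e : Fin m} {i : ℕ} (hei : e.val < i)
    (hV : Viol (Φ e) (arun Φ η i).1) (j : Fin k) : (Φ e).1 j ∈ (arun Φ η i).2 := by
  have h0 : Viol (Φ e) (arun Φ η e.val).1 := by
    by_contra hcon
    exact sat_stays Φ η hei.le hcon hV
  have h1 := Act_step Φ η e
  rw [if_pos h0] at h1
  have hm : (arun Φ η (e.val + 1)).2 ⊆ (arun Φ η i).2 := run_marks Φ ∅ ∅ _ η hei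
  cases hs : stp (Φ e).1 (Free Φ ∅ ∅ e.val (arun Φ η e.val)) with
  | none =>
    rw [hs] at h1
    apply hm
    rw [h1]
    exact Finset.mem_union_right _ (Finset.mem_image_of_mem _ (Finset.mem_univ j))
  | some s =>
    exfalso
    rw [hs] at h1
    have hf := (stp_some.1 hs).1
    have h2 : (Φ e).1 s ∈ (arun Φ η (e.val + 1)).2 := by
      rw [h1]
      exact Finset.mem_union_right _ (Finset.mem_image_of_mem _
        (Finset.mem_filter.2 ⟨Finset.mem_univ s, le_refl s⟩))
    have h3 : (arun Φ η i).1 ((Φ e).1 s) = (arun Φ η (e.val + 1)).1 ((Φ e).1 s) :=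
      run_fix Φ ∅ ∅ _ η hei h2
    have h4 : (arun Φ η (e.val + 1)).1 ((Φ e).1 s) = ! (arun Φ η e.val).1 ((Φ e).1 s) := by
      rw [h1]
      simp only [op]
      rw [if_neg hf.1, fl_self]
    have h5 := hV s
    have h6 := h0 s
    rw [h3, h4, h6] at h5
    cases hb : (Φ e).2 s <;> simp [hb] at h5

/-- the final state version -/
theorem fin_viol_marked (Φ : Fml n k m) (η : Asg n) {e : Fin m} (hV : Viol (Φ e) (fin Φ η).1)
    (j : Fin k) : (Φ e).1 j ∈ (fin Φ η).2 := by
  exact viol_marked Φ η e.2 hV j

/-- A newly marked variable for which an earlier clause is critical is not flipped.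
PROOF. `y` is newly marked in step `i`, so clause `i` (`i < m`) is violated and `op` is applied; if `y` changed then
(`op_changed`) it is the variable at the stop slot, which is `Free`, in particular `e` is not critical for it. -/
theorem nc_keep {Φ : Fml n k m} {η : Asg n} {e : Fin m} {i : ℕ} {y : Fin n}
    (h : NewCrit Φ η e i y) : (arun Φ η (i + 1)).1 y = (arun Φ η i).1 y := by
  by_contra hne
  rcases lt_or_ge i m with him | him
  · have h1 := Act_step Φ η ⟨i, him⟩
    simp only at h1
    rw [h1] at hne
    split_ifs at hne with hvi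
    · obtain ⟨_, _, j, hj, hy⟩ := op_changed _ _ _ hne
      have hf := (stp_some.1 hj).1
      rw [← hy] at hf
      exact hf.2.2 e h.lt (Finset.notMem_empty _) h.cr
    · exact hne rfl
  · have h1 : arun Φ η (i + 1) = arun Φ η i := run_succ_ge Φ ∅ ∅ _ η him
    rw [h1] at hne
    exact hne rfl

/-- PROOF. `noncrit_of_viol` (`y` is unmarked at time `i`). -/
theorem nc_noviol {Φ : Fml n k m} {η : Asg n} {e : Fin m} {i : ℕ} {y : Fin n}
    (h : NewCrit Φ η e i y) : ¬ Viol (Φ e) (arun Φ η e.val).1 := by
  intro hV
  exact noncrit_of_viol Φ ∅ ∅ _ η h.lt.le hV h.un h.cr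

/-- Later `e` is critical for no unmarked variable.
PROOF. By `crit_slot` there is a slot `j` of `e` with variable `y`, true at time `i`. By `nc_keep` and `run_fix` it is
true at time `i'`. If `e` is critical for `y'` at time `i'` then `y' = y` (`crit_true`), but `y` is marked. -/
theorem nc_later {Φ : Fml n k m} {η : Asg n} {e : Fin m} {i i' : ℕ} {y y' : Fin n}
    (h : NewCrit Φ η e i y) (hi : i < i') (hy' : y' ∉ (arun Φ η i').2) :
    ¬ Crit (Φ e) (arun Φ η i').1 y' := by
  intro hc
  obtain ⟨j, hj, hj'⟩ := crit_slot h.cr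
  have h1 : (arun Φ η i').1 y = (arun Φ η (i + 1)).1 y := run_fix Φ ∅ ∅ _ η hi h.mkd
  have h2 := nc_keep h
  have h3 : (arun Φ η i').1 ((Φ e).1 j) ≠ (Φ e).2 j := by
    rw [hj, h1, h2]
    exact hj'
  have h4 := crit_true hc j h3
  apply hy'
  rw [← h4, hj]
  exact run_marks Φ ∅ ∅ _ η hi h.mkd

/-- PROOF. `nc_later` for `i ≠ i'`, `crit_unique` for `i = i'`. -/
theorem nc_unique {Φ : Fml n k m} {η : Asg n} {e : Fin m} {i i' : ℕ} {y y' : Fin n}
    (h : NewCrit Φ η e i y) (h' : NewCrit Φ η e i' y') : i = i' ∧ y = y' := by
  rcases lt_trichotomy i i' with hlt | heq | hgt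
  · exact absurd h'.cr (nc_later h hlt h'.un)
  · subst heq
    exact ⟨rfl, crit_unique h.cr h'.cr⟩
  · exact absurd h.cr (nc_later h' hgt h.un)

end GC
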