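import Pool.Agent.W_bd7f91F_h12.AP

/-! # Balls in bins: weighted count of the empty bins -/

set_option autoImplicit false

open Finset
open scoped Classical

namespace GC

theorem BinsL_fiber {α β : Type} [Fintype α] [DecidableEq α] (cr : α → β → Prop) {m : ℕ}
    (z0 : β) (A : Finset α) (S S1 : Finset (Fin m)) (B : Fin m → Finset α)
    (hB : ∀ e ∈ S, B e = A) (hS1 : S1 ⊆ S) :
    (Fintype.piFinset B).filter (fun f => S.filter (fun e => cr (f e) z0) = S1) =
      Fintype.piFinset (fun e => if e ∈ S1 then A.filter (fun c => cr c z0)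
        else if e ∈ S then A.filter (fun c => ¬ cr c z0) else B e) := by
  ext f
  simp only [mem_filter, Fintype.mem_piFinset]
  constructor
  · rintro ⟨hf, hs⟩ e
    by_cases h1 : e ∈ S1
    · rw [if_pos h1, mem_filter]
      have h2 : e ∈ S.filter (fun e => cr (f e) z0) := by rw [hs]; exact h1
      rw [mem_filter] at h2
      refine ⟨?_, h2.2⟩
      rw [← hB e h2.1]
      exact hf e
    · rw [if_neg h1]
      by_cases h2 : e ∈ S
      · rw [if_pos h2, mem_filter]
        refine ⟨?_, fun h3 => h1 ?_⟩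
        · rw [← hB e h2]
          exact hf e
        · rw [← hs, mem_filter]
          exact ⟨h2, h3⟩
      · rw [if_neg h2]
        exact hf e
  · intro hf
    constructor
    · intro e
      have h := hf e
      by_cases h1 : e ∈ S1
      · rw [if_pos h1, mem_filter] at h
        rw [hB e (hS1 h1)]
        exact h.1
      · rw [if_neg h1] at h
        by_cases h2 : e ∈ S
        · rw [if_pos h2, mem_filter] at h
          rw [hB e h2]
          exact h.1
        · rw [if_neg h2] at h
          exact h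
    · ext e
      rw [mem_filter]
      have h := hf e
      constructor
      · rintro ⟨h2, h3⟩
        by_contra h1
        rw [if_neg h1, if_pos h2, mem_filter] at h
        exact h.2 h3
      · intro h1
        rw [if_pos h1, mem_filter] at h
        exact ⟨hS1 h1, h.2⟩

theorem BinsL_prod {α : Type} {m : ℕ} (S S1 : Finset (Fin m)) (hS1 : S1 ⊆ S)
    (A1 A2 : Finset α) (B : Fin m → Finset α) :
    (∏ e, (((if e ∈ S1 then A1 else if e ∈ S then A2 else B e) : Finset α).card : ℝ)) =
      (A1.card : ℝ) ^ S1.card * (A2.card : ℝ) ^ (S.card - S1.card) *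
        ∏ e ∈ Sᶜ, ((B e).card : ℝ) := by
  rw [← Finset.prod_mul_prod_compl S]
  congr 1
  · rw [← Finset.prod_sdiff hS1]
    have h1 : ∀ e ∈ S1, (((if e ∈ S1 then A1 else if e ∈ S then A2 else B e) :
        Finset α).card : ℝ) = A1.card := by
      intro e he
      rw [if_pos he]
    have h2 : ∀ e ∈ S \ S1, (((if e ∈ S1 then A1 else if e ∈ S then A2 else B e) :
        Finset α).card : ℝ) = A2.card := by
      intro e he
      rw [mem_sdiff] at he
      rw [if_neg he.2, if_pos he.1]
    rw [Finset.prod_congr rfl h1, Finset.prod_congr rfl h2, Finset.prod_const, Finset.prod_const,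
      Finset.card_sdiff_of_subset hS1, mul_comm]
  · apply Finset.prod_congr rfl
    intro e he
    rw [mem_compl] at he
    rw [if_neg (fun h => he (hS1 h)), if_neg he]

theorem BinsL_pow (x w y : ℝ) {m : ℕ} (S : Finset (Fin m)) :
    ∑ S1 ∈ S.powerset, (if S1 = ∅ then y else 1) * (x ^ S1.card * w ^ (S.card - S1.card)) =
      (x + w) ^ S.card - (1 - y) * w ^ S.card := by
  have h1 : ∑ S1 ∈ S.powerset, x ^ S1.card * w ^ (S.card - S1.card) = (x + w) ^ S.card := by
    rw [Finset.sum_pow_mul_eq_add_pow]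
  have h2 : ∀ S1 ∈ S.powerset, (if S1 = ∅ then y else 1) * (x ^ S1.card * w ^ (S.card - S1.card)) =
      x ^ S1.card * w ^ (S.card - S1.card) - (if S1 = ∅ then (1 - y) * w ^ S.card else 0) := by
    intro S1 _
    by_cases h : S1 = ∅
    · subst h
      simp
      ring
    · rw [if_neg h, if_neg h, one_mul, sub_zero]
  rw [Finset.sum_congr rfl h2, Finset.sum_sub_distrib, h1, Finset.sum_ite_eq' S.powerset ∅,
    if_pos (Finset.empty_mem_powerset S)]

theorem BinsL_aux {α β : Type} [Fintype α] [DecidableEq α] [Fintype β] [DecidableEq β]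
    (cr : α → β → Prop) (hcr : ∀ c z z', cr c z → cr c z' → z = z') (a : ℕ)
    (ha : ∀ z, (univ.filter (fun c => cr c z)).card ≤ a) (y f0 : ℝ) (hy0 : 0 ≤ y) (hy1 : y ≤ 1)
    (hf0 : 0 ≤ f0) {m : ℕ} (Z : Finset β) :
    ∀ (A : Finset α) (S : Finset (Fin m)) (B : Fin m → Finset α),
    (∀ e ∈ S, B e = A) → (Z.card + 1) * a ≤ A.card →
    f0 ≤ (1 - (a : ℝ) / ((A.card : ℝ) - Z.card * a)) ^ S.card →
    ∑ f ∈ Fintype.piFinset B,
      y ^ (Z.filter (fun z => ∀ e ∈ S, ¬ cr (f e) z)).card ≤
      (∏ e, ((B e).card : ℝ)) * (1 - (1 - y) * f0) ^ Z.card := by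
  induction Z using Finset.induction_on with
  | empty =>
    intro A S B _ _ _
    simp
  | insert z0 Z' hz0 ih =>
    intro A S B hB hA hf
    rw [Finset.card_insert_of_notMem hz0] at hA hf ⊢
    set A1 := A.filter (fun c => cr c z0) with hA1
    set A2 := A.filter (fun c => ¬ cr c z0) with hA2
    have hA12 : A1.card + A2.card = A.card := Finset.card_filter_add_card_filter_not _
    have hA1a : A1.card ≤ a := le_trans (Finset.card_le_card (by
      intro c hc
      rw [hA1, mem_filter] at hc
      rw [mem_filter]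
      exact ⟨mem_univ _, hc.2⟩)) (ha z0)
    have hA2a : (Z'.card + 1) * a ≤ A2.card := by
      have h1 : (Z'.card + 1 + 1) * a = (Z'.card + 1) * a + a := by ring
      omega
    -- real versions
    have hr1 : ((A.card : ℝ)) = A1.card + A2.card := by rw [← hA12]; push_cast; ring
    have hr2 : (A1.card : ℝ) ≤ a := by exact_mod_cast hA1a
    have hr3 : ((Z'.card : ℝ) + 1 + 1) * a ≤ A.card := by exact_mod_cast hA
    have hr4 : ((Z'.card : ℝ) + 1) * a ≤ A2.card := by exact_mod_cast hA2a
    have ha0 : (0 : ℝ) ≤ a := Nat.cast_nonneg a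
    have hZ0 : (0 : ℝ) ≤ Z'.card := Nat.cast_nonneg _
    push_cast at hf
    set u : ℝ := (a : ℝ) / ((A.card : ℝ) - (Z'.card + 1) * a) with hu
    have hu0 : 0 ≤ u := div_nonneg ha0 (by nlinarith)
    have hu1 : u ≤ 1 := by
      rcases eq_or_lt_of_le ha0 with h | h
      · rw [hu, ← h]; simp
      · rw [hu, div_le_one (by nlinarith)]
        nlinarith
    have hbase0 : 0 ≤ 1 - u := by linarith
    have hbase1 : 1 - u ≤ 1 := by linarith
    have hf01 : f0 ≤ 1 := le_trans hf (pow_le_one₀ hbase0 hbase1)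
    have hθ0 : 0 ≤ 1 - (1 - y) * f0 := by nlinarith
    -- the induction hypothesis for the fibres
    have key : ∀ S1 ∈ S.powerset,
        ∑ f ∈ (Fintype.piFinset B).filter (fun f => S.filter (fun e => cr (f e) z0) = S1),
          y ^ ((insert z0 Z').filter (fun z => ∀ e ∈ S, ¬ cr (f e) z)).card ≤
        (if S1 = ∅ then y else 1) * ((A1.card : ℝ) ^ S1.card * (A2.card : ℝ) ^ (S.card - S1.card)) *
          ((∏ e ∈ Sᶜ, ((B e).card : ℝ)) * (1 - (1 - y) * f0) ^ Z'.card) := by
      intro S1 hS1
      rw [mem_powerset] at hS1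
      have hexp : ∀ f ∈ (Fintype.piFinset B).filter
          (fun f => S.filter (fun e => cr (f e) z0) = S1),
          y ^ ((insert z0 Z').filter (fun z => ∀ e ∈ S, ¬ cr (f e) z)).card =
          (if S1 = ∅ then y else 1) *
            y ^ (Z'.filter (fun z => ∀ e ∈ S \ S1, ¬ cr (f e) z)).card := by
        intro f hf'
        rw [mem_filter] at hf'
        have hcrS1 : ∀ e ∈ S1, cr (f e) z0 := by
          intro e he
          rw [← hf'.2, mem_filter] at he
          exact he.2
        have h1 : Z'.filter (fun z => ∀ e ∈ S, ¬ cr (f e) z) =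
            Z'.filter (fun z => ∀ e ∈ S \ S1, ¬ cr (f e) z) := by
          apply Finset.filter_congr
          intro z hz
          constructor
          · intro h e he
            exact h e (mem_sdiff.1 he).1
          · intro h e he hcz
            by_cases h2 : e ∈ S1
            · have h3 := hcr _ _ _ hcz (hcrS1 e h2)
              rw [h3] at hz
              exact hz0 hz
            · exact h e (mem_sdiff.2 ⟨he, h2⟩) hcz
        rw [Finset.filter_insert, h1]
        by_cases h2 : S1 = ∅
        · have h3 : ∀ e ∈ S, ¬ cr (f e) z0 := by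
            intro e he hc
            have h4 : e ∈ S.filter (fun e => cr (f e) z0) := mem_filter.2 ⟨he, hc⟩
            rw [hf'.2, h2] at h4
            exact absurd h4 (Finset.notMem_empty _)
          rw [if_pos h3, if_pos h2, Finset.card_insert_of_notMem
            (fun h => hz0 (mem_filter.1 h).1), pow_succ, mul_comm]
        · have h3 : ¬ ∀ e ∈ S, ¬ cr (f e) z0 := by
            intro h
            obtain ⟨e, he⟩ := Finset.nonempty_iff_ne_empty.2 h2
            exact h e (hS1 he) (hcrS1 e he)
          rw [if_neg h3, if_neg h2, one_mul]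
      rw [Finset.sum_congr rfl hexp, ← Finset.mul_sum, BinsL_fiber cr z0 A S S1 B hB hS1]
      have hih := ih A2 (S \ S1) (fun e => if e ∈ S1 then A1 else if e ∈ S then A2 else B e)
        (by
          intro e he
          rw [mem_sdiff] at he
          show (if e ∈ S1 then A1 else if e ∈ S then A2 else B e) = A2
          rw [if_neg he.2, if_pos he.1]) hA2a (by
          have h1 : (a : ℝ) / ((A2.card : ℝ) - Z'.card * a) ≤ u := by
            rcases eq_or_lt_of_le ha0 with h | h
            · rw [← h]; simpa using hu0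
            · rw [hu]
              apply div_le_div_of_nonneg_left ha0 (by nlinarith)
              nlinarith
          have h2 : (1 - u) ^ S.card ≤ (1 - u) ^ (S \ S1).card :=
            pow_le_pow_of_le_one hbase0 hbase1 (Finset.card_le_card Finset.sdiff_subset)
          have h3 : (1 - u) ^ (S \ S1).card ≤
              (1 - (a : ℝ) / ((A2.card : ℝ) - Z'.card * a)) ^ (S \ S1).card :=
            pow_le_pow_left₀ hbase0 (by linarith) _
          exact le_trans hf (le_trans h2 h3))
      have hy01 : (0 : ℝ) ≤ (if S1 = ∅ then y else 1) := by split_ifs <;> linarith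
      have h5 := mul_le_mul_of_nonneg_left hih hy01
      refine le_trans h5 (le_of_eq ?_)
      rw [BinsL_prod S S1 hS1]
      ring
    have hmaps : ∀ f ∈ Fintype.piFinset B, S.filter (fun e => cr (f e) z0) ∈ S.powerset :=
      fun f _ => mem_powerset.2 (Finset.filter_subset _ _)
    rw [← Finset.sum_fiberwise_of_maps_to hmaps]
    refine le_trans (Finset.sum_le_sum key) ?_
    rw [← Finset.sum_mul, BinsL_pow, ← hr1]
    have hprod : (∏ e, ((B e).card : ℝ)) = (A.card : ℝ) ^ S.card * ∏ e ∈ Sᶜ, ((B e).card : ℝ) := by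
      rw [← Finset.prod_mul_prod_compl S]
      congr 1
      rw [Finset.prod_congr rfl (fun e he => by rw [hB e he]), Finset.prod_const]
    have hpr0 : 0 ≤ ∏ e ∈ Sᶜ, ((B e).card : ℝ) := Finset.prod_nonneg fun _ _ => Nat.cast_nonneg _
    have hpow : f0 * (A.card : ℝ) ^ S.card ≤ (A2.card : ℝ) ^ S.card := by
      have h1 : (1 - u) * A.card ≤ A2.card := by
        rcases eq_or_lt_of_le ha0 with h | h
        · have : (A1.card : ℝ) = 0 := le_antisymm (by rw [h]; exact hr2) (Nat.cast_nonneg _)
          have h2 : u = 0 := by rw [hu, ← h]; simp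
          rw [h2, hr1, this]; linarith
        · have h2 : (a : ℝ) ≤ u * A.card := by
            rw [hu, div_mul_eq_mul_div, le_div_iff₀ (by nlinarith)]
            have h3 : (0 : ℝ) ≤ a * ((Z'.card + 1) * a) := by positivity
            linarith [mul_sub (a : ℝ) (A.card : ℝ) ((Z'.card + 1) * a)]
          rw [sub_mul, one_mul]
          linarith
      calc f0 * (A.card : ℝ) ^ S.card ≤ (1 - u) ^ S.card * (A.card : ℝ) ^ S.card :=
            mul_le_mul_of_nonneg_right hf (pow_nonneg (Nat.cast_nonneg _) _)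
        _ = ((1 - u) * A.card) ^ S.card := (mul_pow _ _ _).symm
        _ ≤ (A2.card : ℝ) ^ S.card :=
            pow_le_pow_left₀ (mul_nonneg hbase0 (Nat.cast_nonneg _)) h1 _
    have hfin : (A.card : ℝ) ^ S.card - (1 - y) * (A2.card : ℝ) ^ S.card ≤
        (A.card : ℝ) ^ S.card * (1 - (1 - y) * f0) := by
      have h1 : 0 ≤ 1 - y := by linarith
      nlinarith [mul_le_mul_of_nonneg_left hpow h1]
    rw [hprod, pow_succ]
    have h9 : 0 ≤ (∏ e ∈ Sᶜ, ((B e).card : ℝ)) * (1 - (1 - y) * f0) ^ Z'.card :=
      mul_nonneg hpr0 (pow_nonneg hθ0 _)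
    calc _ ≤ ((A.card : ℝ) ^ S.card * (1 - (1 - y) * f0)) *
          ((∏ e ∈ Sᶜ, ((B e).card : ℝ)) * (1 - (1 - y) * f0) ^ Z'.card) :=
          mul_le_mul_of_nonneg_right hfin h9
      _ = _ := by ring

/-- BALLS IN BINS.
`α` = possible positions of a ball, `A ⊆ α` allowed ones, `cr c z`: the position `c` is in the bin `z` (at most one bin for each `c`), at most
`a` positions in each bin, `N = |S|` balls; `f0 ≤ (1 - a / (|A| - |Z| a))^N`.
PROOF. Induction on `Z` for all `A`, `S`. `Z = insert z0 Z'`. Split by the set `S1 ⊆ S` of balls in the bin `z0`: the function restricted to `S1`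
takes values in `A1 = {c ∈ A | cr c z0}`, on `S \ S1` in `A \ A1`; for `z ∈ Z'` the bin `z` is empty iff no ball of `S \ S1` is in it (one bin for each
position). By induction (for `A \ A1`, `Z'`, `S \ S1`; `|A \ A1| - |Z'| a ≥ |A| - |Z| a`, `|S \ S1| ≤ |S|`) the sum is at most
`θ^|Z'| ∑_(S1 ⊆ S) (y if S1 = ∅ else 1) |A1|^|S1| (|A| - |A1|)^|S \ S1| = θ^|Z'| (|A|^|S| - (1 - y) (|A| - |A1|)^|S|)`
(`Finset.prod_add` / binomial theorem) and `(1 - |A1| / |A|)^|S| ≥ f0`, so it is at most `θ^|Z'| |A|^|S| (1 - (1 - y) f0)`,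
`θ = 1 - (1 - y) f0`. Use functions `Fin m → α` with the coordinates outside `S` unrestricted in `A`, or functions on the subtype of `S`. -/
theorem bins {α β : Type} [Fintype α] [DecidableEq α] [Fintype β] [DecidableEq β]
    (cr : α → β → Prop) (hcr : ∀ c z z', cr c z → cr c z' → z = z') (a : ℕ)
    (ha : ∀ z, (univ.filter (fun c => cr c z)).card ≤ a) (y f0 : ℝ) (hy0 : 0 ≤ y) (hy1 : y ≤ 1)
    (hf0 : 0 ≤ f0) {m : ℕ} (A : Finset α) (S : Finset (Fin m)) (Z : Finset β)
    (hA : (Z.card + 1) * a ≤ A.card)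
    (hf : f0 ≤ (1 - (a : ℝ) / ((A.card : ℝ) - Z.card * a)) ^ S.card) :
    ∑ f ∈ Fintype.piFinset (fun _ : Fin m => A),
      y ^ (Z.filter (fun z => ∀ e ∈ S, ¬ cr (f e) z)).card ≤
      (A.card : ℝ) ^ m * (1 - (1 - y) * f0) ^ Z.card := by
  have h := BinsL_aux cr hcr a ha y f0 hy0 hy1 hf0 Z A S (fun _ : Fin m => A) (fun _ _ => rfl) hA hf
  rwa [Finset.prod_const, Finset.card_univ, Fintype.card_fin] at h

end GC
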