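import Pool.Agent.W_bd7f91F_h12.Op

/-! # The closure: generation, closedness, bad clauses -/

set_option autoImplicit false

open Finset
open scoped Classical

namespace GC

variable {n k m : ℕ}

theorem dsl_card (hk : 3 ≤ k) (A : Finset (Fin k)) : (dsl A).card = 3 := by
  unfold dsl
  split_ifs with h
  · exact h.choose_spec.2
  · have h1 : univ.filter (fun j : Fin k => j.val < 3) =
        (univ : Finset (Fin 3)).map (Fin.castLEEmb hk) := by
      ext j
      simp only [mem_filter, mem_univ, true_and, mem_map, Fin.castLEEmb_apply]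
      constructor
      · intro hj
        exact ⟨⟨j.val, hj⟩, Fin.ext rfl⟩
      · rintro ⟨i, rfl⟩
        exact i.2
    rw [h1, card_map, card_univ, Fintype.card_fin]

theorem dsl_sub {A : Finset (Fin k)} (h : 3 ≤ A.card) : dsl A ⊆ A := by
  have h1 : ∃ B ⊆ A, B.card = 3 := Finset.exists_subset_card_eq h
  unfold dsl
  rw [dif_pos h1]
  exact h1.choose_spec.1

theorem DD_sub (Φ : Fml n k m) (S : St n) (e : Fin m) : DD Φ S e ⊆ VV (pos Φ) e :=
  image_subset_image (subset_univ _)

theorem DD_card (hk : 3 ≤ k) (Φ : Fml n k m) (S : St n) (e : Fin m) : (DD Φ S e).card ≤ 3 :=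
  card_image_le.trans (dsl_card hk _).le

/-- the designated variables of a clause which is not bad are good -/
theorem DD_good {Φ : Fml n k m} {S : St n} {e : Fin m} (h : ¬ Bad Φ S e) {y : Fin n}
    (hy : y ∈ DD Φ S e) : Good Φ S y := by
  unfold Bad at h
  have h3 : 3 ≤ (gs Φ S e).card := by omega
  unfold DD at hy
  obtain ⟨j, hj, rfl⟩ := mem_image.1 hy
  have h4 := dsl_sub h3 hj
  exact (mem_filter.1 h4).2

theorem ClosA_need_mono {Φ : Fml n k m} {S : St n} {T T' : Finset (Fin m)} (hT : T ⊆ T')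
    {e : Fin m} (h : Need Φ S T e) : Need Φ S T' e := by
  intro j hj
  exact biUnion_subset_biUnion_of_subset_left _ hT (h j hj)

theorem ClosA_TT_sub {Φ : Fml n k m} {S : St n} {T : Finset (Fin m)}
    (hT : ∀ e', Need Φ S T e' → e' ∈ T) : TT Φ S ⊆ T := by
  intro e he
  exact (mem_filter.1 he).2 T hT

/-- the closure is closed (the intersection of all closed sets) -/
theorem TT_closed {Φ : Fml n k m} {S : St n} {e : Fin m} (h : Need Φ S (TT Φ S) e) :
    e ∈ TT Φ S := by
  refine mem_filter.2 ⟨mem_univ _, fun T hT => ?_⟩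
  exact hT e (ClosA_need_mono (ClosA_TT_sub hT) h)

/-- GENERATION of the closure, with an injective rank.
PROOF. Iterate: `T_0 = ∅`; if there is `e ∉ T_i` with `Need Φ S T_i e` add one such `e` (rank `i`). The process stops with a
closed set contained in `TT Φ S` (every closed set contains all `T_i`, as `Need` is monotone), so it ends with `TT Φ S`. Formally:
among all sets `A ⊆ TT Φ S` for which there is `rk` (bounded by `|A|` on `A`, injective on `A`) with the stated property on `A`
take one of maximal size; if `A ≠ TT Φ S` then `A` is not closed (`TT` is the least closed set), add a clause. -/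
theorem TT_gen (Φ : Fml n k m) (S : St n) : ∃ rk : Fin m → ℕ,
    (∀ e ∈ TT Φ S, ∀ e' ∈ TT Φ S, rk e = rk e' → e = e') ∧
    ∀ e ∈ TT Φ S, ∀ j, S.1 ((Φ e).1 j) ≠ (Φ e).2 j →
      ∃ e' ∈ TT Φ S, rk e' < rk e ∧ (Φ e).1 j ∈ DD Φ S e' := by
  let P : Finset (Fin m) → Prop := fun A => A ⊆ TT Φ S ∧ ∃ rk : Fin m → ℕ,
    (∀ e ∈ A, ∀ e' ∈ A, rk e = rk e' → e = e') ∧
    ∀ e ∈ A, ∀ j, S.1 ((Φ e).1 j) ≠ (Φ e).2 j → ∃ e' ∈ A, rk e' < rk e ∧ (Φ e).1 j ∈ DD Φ S e'
  have hne : ((univ : Finset (Finset (Fin m))).filter P).Nonempty := by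
    refine ⟨∅, mem_filter.2 ⟨mem_univ _, empty_subset _, fun _ => 0, ?_, ?_⟩⟩
    · intro e he
      exact absurd he (notMem_empty _)
    · intro e he
      exact absurd he (notMem_empty _)
  obtain ⟨A, hA, hmax⟩ := exists_max_image _ (fun A : Finset (Fin m) => A.card) hne
  obtain ⟨hAT, rk, hinj, hgen⟩ := (mem_filter.1 hA).2
  by_cases hcl : ∀ e', Need Φ S A e' → e' ∈ A
  · have hEq : A = TT Φ S := Subset.antisymm hAT (ClosA_TT_sub hcl)
    rw [← hEq]
    exact ⟨rk, hinj, hgen⟩
  · exfalso
    push Not at hcl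
    obtain ⟨e₀, hneed, he₀⟩ := hcl
    have he₀T : e₀ ∈ TT Φ S := TT_closed (ClosA_need_mono hAT hneed)
    have hP : P (insert e₀ A) := by
      refine ⟨insert_subset he₀T hAT, fun x => if x = e₀ then A.sup rk + 1 else rk x, ?_, ?_⟩
      · intro e he e' he' heq
        have hle : ∀ x ∈ A, rk x ≤ A.sup rk := fun x hx => le_sup hx
        rcases mem_insert.1 he with h1 | h1 <;> rcases mem_insert.1 he' with h2 | h2
        · rw [h1, h2]
        · have h3 : e' ≠ e₀ := fun h => he₀ (h ▸ h2)
          dsimp only at heq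
          rw [if_pos h1, if_neg h3] at heq
          have := hle e' h2
          omega
        · have h3 : e ≠ e₀ := fun h => he₀ (h ▸ h1)
          dsimp only at heq
          rw [if_neg h3, if_pos h2] at heq
          have := hle e h1
          omega
        · have h3 : e ≠ e₀ := fun h => he₀ (h ▸ h1)
          have h4 : e' ≠ e₀ := fun h => he₀ (h ▸ h2)
          dsimp only at heq
          rw [if_neg h3, if_neg h4] at heq
          exact hinj e h1 e' h2 heq
      · intro e he j hj
        have hle : ∀ x ∈ A, rk x ≤ A.sup rk := fun x hx => le_sup hx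
        rcases mem_insert.1 he with h1 | h1
        · subst h1
          obtain ⟨e', he', hD⟩ := mem_biUnion.1 (hneed j hj)
          have h3 : e' ≠ e := fun h => he₀ (h ▸ he')
          refine ⟨e', mem_insert_of_mem he', ?_, hD⟩
          dsimp only
          rw [if_neg h3, if_pos rfl]
          have := hle e' he'
          omega
        · obtain ⟨e', he', hlt, hD⟩ := hgen e h1 j hj
          have h3 : e ≠ e₀ := fun h => he₀ (h ▸ h1)
          have h4 : e' ≠ e₀ := fun h => he₀ (h ▸ he')
          refine ⟨e', mem_insert_of_mem he', ?_, hD⟩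
          dsimp only
          rw [if_neg h3, if_neg h4]
          exact hlt
    have h5 := hmax (insert e₀ A) (mem_filter.2 ⟨mem_univ _, hP⟩)
    rw [card_insert_of_notMem he₀] at h5
    omega

/-- PROOF. Let `T'` be closed; by induction on the rank every `e ∈ T` is in `T'`. -/
theorem gen_sub {Φ : Fml n k m} {S : St n} {T : Finset (Fin m)} (h : Gen Φ S T) :
    T ⊆ TT Φ S := by
  obtain ⟨rk, hrk⟩ := h
  have key : ∀ r : ℕ, ∀ e ∈ T, rk e = r → e ∈ TT Φ S := by
    intro r
    induction r using Nat.strong_induction_on with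
    | _ r ih =>
      intro e he her
      apply TT_closed
      intro j hj
      obtain ⟨e', he', hlt, hD⟩ := hrk e he j hj
      exact mem_biUnion.2 ⟨e', ih (rk e') (her ▸ hlt) e' he' rfl, hD⟩
  intro e he
  exact key (rk e) e he rfl

/-- new rank of `e`: one more than all ranks on `K` -/
theorem gen_insert {Φ : Fml n k m} {S : St n} {K : Finset (Fin m)} {e : Fin m} (h : Gen Φ S K)
    (he : ∀ j, S.1 ((Φ e).1 j) ≠ (Φ e).2 j → ∃ e' ∈ K, (Φ e).1 j ∈ DD Φ S e') :
    Gen Φ S (insert e K) := by
  by_cases heK : e ∈ K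
  · rw [insert_eq_of_mem heK]
    exact h
  · obtain ⟨rk, hrk⟩ := h
    refine ⟨fun x => if x = e then K.sup rk + 1 else rk x, ?_⟩
    intro a ha j hj
    rcases mem_insert.1 ha with h1 | h1
    · subst h1
      obtain ⟨e', he', hD⟩ := he j hj
      have h3 : e' ≠ a := fun h => heK (h ▸ he')
      refine ⟨e', mem_insert_of_mem he', ?_, hD⟩
      dsimp only
      rw [if_neg h3, if_pos rfl]
      have : rk e' ≤ K.sup rk := le_sup he'
      omega
    · obtain ⟨e', he', hlt, hD⟩ := hrk a h1 j hj
      have h3 : a ≠ e := fun h => heK (h ▸ h1)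
      have h4 : e' ≠ e := fun h => heK (h ▸ he')
      refine ⟨e', mem_insert_of_mem he', ?_, hD⟩
      dsimp only
      rw [if_neg h3, if_neg h4]
      exact hlt

/-- union of generated sets (use the minimum of the two ranks, or well-founded induction) -/
theorem gen_union {Φ : Fml n k m} {S : St n} {K K' : Finset (Fin m)} (h : Gen Φ S K)
    (h' : Gen Φ S K') : Gen Φ S (K ∪ K') := by
  obtain ⟨rk, hrk⟩ := h
  obtain ⟨rk', hrk'⟩ := h'
  refine ⟨fun x => if x ∈ K then rk x else K.sup rk + 1 + rk' x, ?_⟩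
  intro a ha j hj
  by_cases haK : a ∈ K
  · obtain ⟨e', he', hlt, hD⟩ := hrk a haK j hj
    refine ⟨e', mem_union_left _ he', ?_, hD⟩
    dsimp only
    rw [if_pos haK, if_pos he']
    exact hlt
  · have haK' : a ∈ K' := (mem_union.1 ha).resolve_left haK
    obtain ⟨e', he', hlt, hD⟩ := hrk' a haK' j hj
    refine ⟨e', mem_union_right _ he', ?_, hD⟩
    dsimp only
    rw [if_neg haK]
    by_cases heK : e' ∈ K
    · rw [if_pos heK]
      have : rk e' ≤ K.sup rk := le_sup heK
      omega
    · rw [if_neg heK]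
      omega

/-- PROOF. The parent `e'` has smaller rank, so `e' ≠ e`, and `DD Φ S e' ⊆ VV e'`. -/
theorem gen_kclosed {Φ : Fml n k m} {S : St n} {K : Finset (Fin m)} (h : Gen Φ S K) :
    KClosed Φ S.1 K := by
  obtain ⟨rk, hrk⟩ := h
  intro e he j hj
  obtain ⟨e', he', hlt, hD⟩ := hrk e he j hj
  have hne : e' ≠ e := by
    rintro rfl
    exact lt_irrefl _ hlt
  exact mem_biUnion.2 ⟨e', mem_erase.2 ⟨hne, he'⟩, DD_sub Φ S e' hD⟩

/-- a violated clause with marked variables is bad (no good slot) -/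
theorem seed_bad {Φ : Fml n k m} {S : St n} (hS : ∀ e, Viol (Φ e) S.1 → ∀ j, (Φ e).1 j ∈ S.2)
    {e : Fin m} (h : Viol (Φ e) S.1) : Bad Φ S e := by
  have h1 : gs Φ S e = ∅ := by
    refine filter_eq_empty_iff.2 ?_
    intro j _ hg
    exact hg.1 (hS e h j)
  unfold Bad
  rw [h1, card_empty]
  omega

/-- PROOF. The element of least rank has no true slot, so it is violated: `seed_bad`. -/
theorem gen_bad {Φ : Fml n k m} {S : St n} (hS : ∀ e, Viol (Φ e) S.1 → ∀ j, (Φ e).1 j ∈ S.2)
    {K : Finset (Fin m)} (h : Gen Φ S K) (hne : K.Nonempty) : (K.filter (Bad Φ S)).Nonempty := by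
  obtain ⟨rk, hrk⟩ := h
  obtain ⟨e, he, hmin⟩ := exists_min_image K rk hne
  refine ⟨e, mem_filter.2 ⟨he, seed_bad hS ?_⟩⟩
  intro j
  by_contra hj
  obtain ⟨e', he', hlt, _⟩ := hrk e he j hj
  exact absurd (hmin e' he') (by omega)

/-- A clause with exactly one true slot has a bad parent.
PROOF. `crit_of_single`: the variable is not good, so by `DD_good` the clause `e'` is bad. -/
theorem parent_bad {Φ : Fml n k m} {S : St n} (hinj : Inj (pos Φ)) {e e' : Fin m} {j : Fin k}
    (hj : S.1 ((Φ e).1 j) ≠ (Φ e).2 j) (h1 : ∀ j', S.1 ((Φ e).1 j') ≠ (Φ e).2 j' → j' = j)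
    (hD : (Φ e).1 j ∈ DD Φ S e') : Bad Φ S e' := by
  by_contra hb
  exact (DD_good hb hD).2 e (crit_of_single (hinj e) j hj h1)

end GC
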