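import Pool.Agent.W_bd7f91F_h12.SkelB

/-! # Components of the closure are small -/

set_option autoImplicit false

open Finset
open scoped Classical

namespace GC

variable {n k m : ℕ}

/-- ONE CONNECTED GENERATED SET.
PROOF. `K` from `skeleton`. If `c2 ≤ |K|` then `(z, K, K)` is a witness, `z` any variable of `K` (`conn_rooted`, `DD_sub`; `K` is nonempty,
`k ≥ 1`; `gen_kclosed`; `K.filter Bad = κ.filter Bad` as `κ.filter Bad ⊆ K ⊆ κ`; `|K| ≤ |κ| ≤ l`; `7 ≤ 8`). So `|K| < c2`. All clauses of `κ`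
touch `insert z (VS K)` (those outside `K` have a true slot in `DD e' ⊆ VS K`), so `|κ| ≤ c3 (|K| + L)` by `E2`. -/
theorem gen_small (hk : 3 ≤ k) {Φ : Fml n k m} {S : St n} {l c1 c2 c3 L : ℕ}
    (hinj : Inj (pos Φ)) (hS : ∀ e, Viol (Φ e) S.1 → ∀ j, (Φ e).1 j ∈ S.2)
    (hE1 : E1 (pos Φ) l) (hE2 : E2 (pos Φ) l c3 L) (hW : NoWit Φ S l c1 c2)
    {κ : Finset (Fin m)} (hG : Gen Φ S κ) (hC : Conn (pos Φ) (DD Φ S) κ) (hl : κ.card ≤ l) :
    κ.card ≤ c3 * (c2 + L) := by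
  obtain ⟨K, hXK, hKκ, hGK, hCK, hcard, hout⟩ := skeleton hk hinj hS hE1 hG hC hl
  obtain ⟨e0, he0⟩ := hCK.1
  have hKl : K.card ≤ l := (card_le_card hKκ).trans hl
  have hz : (pos Φ) e0 ⟨0, by omega⟩ ∈ VS (pos Φ) K :=
    mem_biUnion.2 ⟨e0, he0, mem_image_of_mem _ (mem_univ _)⟩
  have hroot : Rooted (pos Φ) {(pos Φ) e0 ⟨0, by omega⟩} K :=
    conn_rooted (pos Φ) (DD Φ S) (DD_sub Φ S) hCK hz
  have hlt : K.card < c2 := by
    by_contra hcon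
    refine hW ((pos Φ) e0 ⟨0, by omega⟩) K K
      ⟨Subset.refl K, hroot, hKl, ?_, not_lt.1 hcon, ?_, gen_kclosed hGK⟩
    · rw [Finset.sdiff_self, card_empty]
      exact Nat.zero_le _
    · have h1 : κ.filter (Bad Φ S) ⊆ K.filter (Bad Φ S) := by
        intro e he
        exact mem_filter.2 ⟨hXK he, (mem_filter.1 he).2⟩
      have h2 := card_le_card h1
      omega
  have hsub : κ ⊆ tch (pos Φ) (insert ((pos Φ) e0 ⟨0, by omega⟩) (VS (pos Φ) K)) := by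
    intro e he
    refine mem_filter.2 ⟨mem_univ _, ?_⟩
    by_cases heK : e ∈ K
    · have h1 : (pos Φ) e ⟨0, by omega⟩ ∈ VV (pos Φ) e := mem_image_of_mem _ (mem_univ _)
      exact ⟨_, mem_inter.2 ⟨h1, mem_insert_of_mem (mem_biUnion.2 ⟨e, heK, h1⟩)⟩⟩
    · obtain ⟨⟨j, hj⟩, hall⟩ := hout e (mem_sdiff.2 ⟨he, heK⟩)
      obtain ⟨e', he', hD⟩ := hall j hj
      have h1 : (pos Φ) e j ∈ VV (pos Φ) e := mem_image_of_mem _ (mem_univ _)
      exact ⟨_, mem_inter.2 ⟨h1, mem_insert_of_mem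
        (mem_biUnion.2 ⟨e', hXK he', DD_sub Φ S e' hD⟩)⟩⟩
  refine (card_le_card hsub).trans ((hE2 _ K hroot hKl).trans ?_)
  exact Nat.mul_le_mul_left _ (by omega)

/-- the component of a clause of the closure is generated -/
theorem gen_cmp (Φ : Fml n k m) (S : St n) {e : Fin m} (he : e ∈ TT Φ S) :
    Gen Φ S (cmp (pos Φ) (DD Φ S) (TT Φ S) e) := by
  obtain ⟨rk, -, hrk⟩ := TT_gen Φ S
  refine ⟨rk, ?_⟩
  intro a ha j hj
  obtain ⟨e', he', hlt, hD⟩ := hrk a (cmp_sub (pos Φ) (DD Φ S) (TT Φ S) e ha) j hj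
  exact ⟨e', cmp_adj (pos Φ) (DD Φ S) ha he' (Or.inl ⟨j, hD⟩), hlt, hD⟩

end GC
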