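import Pool.Agent.W_bd7f91F_h12.CompA

/-! # Components of the closure are small -/

set_option autoImplicit false

open Finset
open scoped Classical

namespace GC

variable {n k m : ℕ}

/-- a set which contains `e` and is closed under adjacency contains the component -/
theorem CompB_sub (v : Pos n k m) (D : Fin m → Finset (Fin n)) {T B : Finset (Fin m)} {e : Fin m}
    (he : e ∈ B) (hB : ∀ a ∈ B, ∀ b ∈ T, AdjD v D a b → b ∈ B) : cmp v D T e ⊆ B := by
  intro c hc
  have hc' := (Finset.mem_filter.mp hc).2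
  induction hc' with
  | refl => exact he
  | tail h1 h2 ih => exact hB _ (ih (Finset.mem_filter.mpr ⟨h2.1, h1⟩)) _ h2.2.1 h2.2.2

/-- few clauses are adjacent to a given clause -/
theorem CompB_adj (hk : 3 ≤ k) {Φ : Fml n k m} {S : St n} {l c3 L : ℕ}
    (hE2 : E2 (pos Φ) l c3 L) (hl : 1 ≤ l) (e : Fin m) (T : Finset (Fin m)) :
    (T.filter (fun a => AdjD (pos Φ) (DD Φ S) a e)).card ≤ c3 * (1 + L) := by
  have hz : (pos Φ) e ⟨0, by omega⟩ ∈ VV (pos Φ) e := mem_image_of_mem _ (mem_univ _)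
  have hroot : Rooted (pos Φ) {(pos Φ) e ⟨0, by omega⟩} {e} := by
    intro A hA hne
    have hA0 : A = ∅ := by
      rcases Finset.subset_singleton_iff.1 hA with h | h
      · exact h
      · exact absurd h hne
    refine ⟨e, mem_sdiff.2 ⟨mem_singleton_self e, by rw [hA0]; exact notMem_empty e⟩, _,
      mem_inter.2 ⟨hz, mem_union_left _ (mem_singleton_self _)⟩⟩
  have h1 := hE2 _ {e} hroot (by rw [card_singleton]; exact hl)
  rw [card_singleton] at h1
  refine (card_le_card ?_).trans h1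
  intro a ha
  refine mem_filter.2 ⟨mem_univ _, ?_⟩
  have hVS : ∀ y, y ∈ VV (pos Φ) e → y ∈ insert ((pos Φ) e ⟨0, by omega⟩) (VS (pos Φ) {e}) :=
    fun y hy => mem_insert_of_mem (mem_biUnion.2 ⟨e, mem_singleton_self e, hy⟩)
  rcases (mem_filter.1 ha).2 with ⟨j, hj⟩ | ⟨j, hj⟩
  · exact ⟨_, mem_inter.2 ⟨mem_image_of_mem _ (mem_univ j), hVS _ (DD_sub Φ S e hj)⟩⟩
  · exact ⟨_, mem_inter.2 ⟨DD_sub Φ S a hj, hVS _ (mem_image_of_mem _ (mem_univ j))⟩⟩

/-- the induction over the rank -/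
theorem CompB_main (hk : 3 ≤ k) {Φ : Fml n k m} {S : St n} {l c1 c2 c3 L : ℕ}
    (hinj : Inj (pos Φ)) (hS : ∀ e, Viol (Φ e) S.1 → ∀ j, (Φ e).1 j ∈ S.2)
    (hE1 : E1 (pos Φ) l) (hE2 : E2 (pos Φ) l c3 L) (hW : NoWit Φ S l c1 c2)
    (hl : 1 + c3 * (1 + L) * (c3 * (c2 + L)) ≤ l) (rk : Fin m → ℕ)
    (hrk1 : ∀ e ∈ TT Φ S, ∀ e' ∈ TT Φ S, rk e = rk e' → e = e')
    (hrk2 : ∀ e ∈ TT Φ S, ∀ j, S.1 ((Φ e).1 j) ≠ (Φ e).2 j →
      ∃ e' ∈ TT Φ S, rk e' < rk e ∧ (Φ e).1 j ∈ DD Φ S e') (i : ℕ) :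
    ∀ e ∈ (TT Φ S).filter (fun e => rk e < i),
      (cmp (pos Φ) (DD Φ S) ((TT Φ S).filter (fun e => rk e < i)) e).card ≤ c3 * (c2 + L) := by
  induction i with
  | zero =>
    intro e he
    exact absurd (mem_filter.1 he).2 (Nat.not_lt_zero _)
  | succ i ih =>
    intro e he
    set T := (TT Φ S).filter (fun e => rk e < i) with hT
    set T' := (TT Φ S).filter (fun e => rk e < i + 1) with hT'
    by_cases h0 : ∃ e0 ∈ cmp (pos Φ) (DD Φ S) T' e, rk e0 = i
    · obtain ⟨e0, he0, hr0⟩ := h0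
      have he0T : e0 ∈ T' := cmp_sub _ _ _ _ he0
      have hTsub : ∀ b ∈ T', b ≠ e0 → b ∈ T := by
        intro b hb hne
        obtain ⟨hb1, hb2⟩ := mem_filter.1 hb
        refine mem_filter.2 ⟨hb1, ?_⟩
        have h1 : rk b ≠ i := by
          intro h
          exact hne (hrk1 b hb1 e0 (mem_filter.1 he0T).1 (by rw [h, hr0]))
        omega
      have hcmp : cmp (pos Φ) (DD Φ S) T' e0 = cmp (pos Φ) (DD Φ S) T' e :=
        cmp_eq (pos Φ) (DD Φ S) he he0
      rw [← hcmp]
      have hsub : cmp (pos Φ) (DD Φ S) T' e0 ⊆ insert e0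
          ((T.filter (fun a => AdjD (pos Φ) (DD Φ S) a e0)).biUnion
            (fun a => cmp (pos Φ) (DD Φ S) T a)) := by
        apply CompB_sub
        · exact mem_insert_self _ _
        · intro a ha b hb hab
          by_cases hbe : b = e0
          · rw [hbe]
            exact mem_insert_self _ _
          · have hbT := hTsub b hb hbe
            rcases mem_insert.1 ha with h1 | h1
            · subst h1
              exact mem_insert_of_mem (mem_biUnion.2 ⟨b, mem_filter.2 ⟨hbT, ConnL_symm hab⟩,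
                cmp_self _ _ hbT⟩)
            · obtain ⟨a', ha', haa⟩ := mem_biUnion.1 h1
              exact mem_insert_of_mem (mem_biUnion.2 ⟨a', ha', cmp_adj _ _ haa hbT hab⟩)
      have hcard : (cmp (pos Φ) (DD Φ S) T' e0).card ≤ l := by
        refine (card_le_card hsub).trans ((card_insert_le _ _).trans ?_)
        have h1 : ((T.filter (fun a => AdjD (pos Φ) (DD Φ S) a e0)).biUnion
            (fun a => cmp (pos Φ) (DD Φ S) T a)).card ≤
            (T.filter (fun a => AdjD (pos Φ) (DD Φ S) a e0)).card * (c3 * (c2 + L)) :=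
          card_biUnion_le_card_mul _ _ _ (fun a ha => ih a (mem_filter.1 ha).1)
        have h2 := CompB_adj hk (S := S) hE2 (by omega) e0 T
        have h3 := Nat.mul_le_mul_right (c3 * (c2 + L)) h2
        omega
      refine gen_small hk hinj hS hE1 hE2 hW ⟨rk, ?_⟩ (cmp_conn _ _ he0T) hcard
      intro a ha j hj
      have haT := mem_filter.1 (cmp_sub _ _ _ _ ha)
      obtain ⟨e', he', hlt, hD⟩ := hrk2 a haT.1 j hj
      have he'T : e' ∈ T' := mem_filter.2 ⟨he', hlt.trans haT.2⟩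
      exact ⟨e', cmp_adj (pos Φ) (DD Φ S) ha he'T (Or.inl ⟨j, hD⟩), hlt, hD⟩
    · push Not at h0
      have hCT : cmp (pos Φ) (DD Φ S) T' e ⊆ T := by
        intro b hb
        obtain ⟨hb1, hb2⟩ := mem_filter.1 (cmp_sub _ _ _ _ hb)
        refine mem_filter.2 ⟨hb1, ?_⟩
        have := h0 b hb
        omega
      have heC : e ∈ cmp (pos Φ) (DD Φ S) T' e := cmp_self _ _ he
      exact (card_le_card (conn_sub_cmp (pos Φ) (DD Φ S) (cmp_conn _ _ he) hCT heC)).trans
        (ih e (hCT heC))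

/-- COMPONENTS ARE SMALL.
PROOF. `rk` from `TT_gen`, `T i = {e ∈ TT | rk e < i}`. Claim for all `i`: all components `cmp (T i) e`, `e ∈ T i`, have at most
`Lam = c3 (c2 + L)` elements. Step: `T (i + 1) = insert e (T i)` for at most one `e` (injective rank). The component of `e` in `T (i + 1)` is
contained in `{e}` and the union of the components (in `T i`) of the clauses `a ∈ T i` adjacent to `e`; the other components do not change
(a connected set in `T (i + 1)` not containing `e`, or: if the component of `a` in `T (i+1)` does not contain `e` it is the component in `T i`).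
Adjacent clauses touch `VV e`, so there are at most `c3 (1 + L)` of them (`E2` for `H = {e}`, `z` a variable of `e`). So the component of
`e` has at most `1 + c3 (1 + L) Lam ≤ l` elements; it is generated (the parents are in `T i` and adjacent) and connected: `gen_small`. -/
theorem comp_small (hk : 3 ≤ k) {Φ : Fml n k m} {S : St n} {l c1 c2 c3 L : ℕ}
    (hinj : Inj (pos Φ)) (hS : ∀ e, Viol (Φ e) S.1 → ∀ j, (Φ e).1 j ∈ S.2)
    (hE1 : E1 (pos Φ) l) (hE2 : E2 (pos Φ) l c3 L) (hW : NoWit Φ S l c1 c2)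
    (hl : 1 + c3 * (1 + L) * (c3 * (c2 + L)) ≤ l) {e : Fin m} (he : e ∈ TT Φ S) :
    (cmp (pos Φ) (DD Φ S) (TT Φ S) e).card ≤ c3 * (c2 + L) := by
  obtain ⟨rk, hrk1, hrk2⟩ := TT_gen Φ S
  have h1 := CompB_main hk hinj hS hE1 hE2 hW hl rk hrk1 hrk2 ((TT Φ S).sup rk + 1)
  have h2 : (TT Φ S).filter (fun e => rk e < (TT Φ S).sup rk + 1) = TT Φ S := by
    apply filter_true_of_mem
    intro a ha
    have : rk a ≤ (TT Φ S).sup rk := le_sup ha
    omega
  rw [h2] at h1
  exact h1 e he

end GC
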