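import Pool.Agent.W_bd7f91F_h12.CompB

/-! # Components of the closure are small -/

set_option autoImplicit false

open Finset
open scoped Classical

namespace GC

variable {n k m : ℕ}

/-- SKELETON WITH ONE MORE CLAUSE: for `e ∈ TT` there is a connected generated `K ∋ e` in the component of `e`, `|K| ≤ 8 |K.filter Bad|`,
`|K| ≤ c2`, containing all bad clauses of the component, all other clauses of the component touch `VS K`.
PROOF. `κ` = component (`|κ| ≤ c3 (c2 + L) ≤ l`), `K0` from `skeleton`, `|K0| < c2` as in `gen_small`; `K = insert e K0`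
(`gen_insert`, `conn_insert`), `|K| ≤ 7 |X| + 1 ≤ 8 |X|`. -/
theorem skel_at (hk : 3 ≤ k) {Φ : Fml n k m} {S : St n} {l c1 c2 c3 L : ℕ}
    (hinj : Inj (pos Φ)) (hS : ∀ e, Viol (Φ e) S.1 → ∀ j, (Φ e).1 j ∈ S.2)
    (hE1 : E1 (pos Φ) l) (hE2 : E2 (pos Φ) l c3 L) (hW : NoWit Φ S l c1 c2)
    (hl : 1 + c3 * (1 + L) * (c3 * (c2 + L)) ≤ l) (hL : 1 ≤ L) (hc3 : 1 ≤ c3) {e : Fin m}
    (he : e ∈ TT Φ S) :
    ∃ K, e ∈ K ∧ K ⊆ cmp (pos Φ) (DD Φ S) (TT Φ S) e ∧ Gen Φ S K ∧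
      Conn (pos Φ) (DD Φ S) K ∧ K.card ≤ 8 * (K.filter (Bad Φ S)).card ∧ K.card ≤ c2 ∧
      (K.filter (Bad Φ S)).Nonempty ∧
      ∀ e' ∈ cmp (pos Φ) (DD Φ S) (TT Φ S) e, (VV (pos Φ) e' ∩ VS (pos Φ) K).Nonempty := by
  have hκe := cmp_self (pos Φ) (DD Φ S) he
  have hsmall := comp_small hk hinj hS hE1 hE2 hW hl he
  have hG := gen_cmp Φ S he
  have hC := cmp_conn (pos Φ) (DD Φ S) he
  generalize hκdef : cmp (pos Φ) (DD Φ S) (TT Φ S) e = κ at hκe hsmall hG hC ⊢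
  have hκl : κ.card ≤ l := by
    have h1 : 1 ≤ c3 * (1 + L) := Nat.mul_pos hc3 (by omega)
    have h2 : 1 * (c3 * (c2 + L)) ≤ c3 * (1 + L) * (c3 * (c2 + L)) :=
      Nat.mul_le_mul_right _ h1
    rw [one_mul] at h2
    omega
  obtain ⟨K, hXK, hKκ, hGK, hCK, hcard, hout⟩ := skeleton hk hinj hS hE1 hG hC hκl
  have hXne : (κ.filter (Bad Φ S)).Nonempty := gen_bad hS hG ⟨e, hκe⟩
  have hX1 : 1 ≤ (κ.filter (Bad Φ S)).card := hXne.card_pos
  obtain ⟨e0, he0⟩ := hCK.1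
  have hKl : K.card ≤ l := (card_le_card hKκ).trans hκl
  have hz : (pos Φ) e0 ⟨0, by omega⟩ ∈ VS (pos Φ) K :=
    mem_biUnion.2 ⟨e0, he0, mem_image_of_mem _ (mem_univ _)⟩
  have hroot : Rooted (pos Φ) {(pos Φ) e0 ⟨0, by omega⟩} K :=
    conn_rooted (pos Φ) (DD Φ S) (DD_sub Φ S) hCK hz
  have hfil : κ.filter (Bad Φ S) ⊆ K.filter (Bad Φ S) := by
    intro a ha
    exact mem_filter.2 ⟨hXK ha, (mem_filter.1 ha).2⟩
  have hlt : K.card < c2 := by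
    by_contra hcon
    refine hW ((pos Φ) e0 ⟨0, by omega⟩) K K
      ⟨Subset.refl K, hroot, hKl, ?_, not_lt.1 hcon, ?_, gen_kclosed hGK⟩
    · rw [Finset.sdiff_self, card_empty]
      exact Nat.zero_le _
    · have h2 := card_le_card hfil
      omega
  have hfil' : κ.filter (Bad Φ S) ⊆ (insert e K).filter (Bad Φ S) := by
    intro a ha
    exact mem_filter.2 ⟨mem_insert_of_mem (hXK ha), (mem_filter.1 ha).2⟩
  have hcins : (insert e K).card ≤ K.card + 1 := card_insert_le _ _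
  have hc' := card_le_card hfil'
  refine ⟨insert e K, mem_insert_self _ _, insert_subset hκe hKκ, ?_, ?_, by omega, by omega,
    hXne.mono hfil', ?_⟩
  · by_cases heK : e ∈ K
    · rw [insert_eq_of_mem heK]
      exact hGK
    · obtain ⟨-, hall⟩ := hout e (mem_sdiff.2 ⟨hκe, heK⟩)
      refine gen_insert hGK fun j hj => ?_
      obtain ⟨e', he', hD⟩ := hall j hj
      exact ⟨e', hXK he', hD⟩
  · by_cases heK : e ∈ K
    · rw [insert_eq_of_mem heK]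
      exact hCK
    · obtain ⟨⟨j, hj⟩, hall⟩ := hout e (mem_sdiff.2 ⟨hκe, heK⟩)
      obtain ⟨e', he', hD⟩ := hall j hj
      exact conn_insert (pos Φ) (DD Φ S) hCK (hXK he') (Or.inr ⟨j, hD⟩)
  · intro e' he'
    by_cases heK : e' ∈ K
    · have h1 : (pos Φ) e' ⟨0, by omega⟩ ∈ VV (pos Φ) e' := mem_image_of_mem _ (mem_univ _)
      exact ⟨_, mem_inter.2 ⟨h1, mem_biUnion.2 ⟨e', mem_insert_of_mem heK, h1⟩⟩⟩
    · obtain ⟨⟨j, hj⟩, hall⟩ := hout e' (mem_sdiff.2 ⟨he', heK⟩)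
      obtain ⟨a, ha, hD⟩ := hall j hj
      have h1 : (pos Φ) e' j ∈ VV (pos Φ) e' := mem_image_of_mem _ (mem_univ _)
      exact ⟨_, mem_inter.2 ⟨h1, mem_biUnion.2 ⟨a, mem_insert_of_mem (hXK ha),
        DD_sub Φ S a hD⟩⟩⟩

end GC
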