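import Pool.Agent.W_bd7f91F_h12.ConnL

/-! # Connected sets and components -/

set_option autoImplicit false

open Finset
open scoped Classical

namespace GC

variable {n k m : ℕ}

/-- the elements of `K` which can be reached from `e` inside `K` -/
noncomputable def ConnJ_cp {α : Type*} (R : α → α → Prop) (K : Finset α) (e : α) : Finset α :=
  K.filter (fun e' => Relation.ReflTransGen (fun a b => a ∈ K ∧ b ∈ K ∧ R a b) e e')

theorem ConnJ_self {α : Type*} {R : α → α → Prop} {K : Finset α} {e : α} (he : e ∈ K) :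
    e ∈ ConnJ_cp R K e :=
  Finset.mem_filter.2 ⟨he, Relation.ReflTransGen.refl⟩

theorem ConnJ_closed {α : Type*} {R : α → α → Prop} {K : Finset α} {e a b : α}
    (ha : a ∈ ConnJ_cp R K e) (hb : b ∈ K) (hab : R a b) : b ∈ ConnJ_cp R K e := by
  unfold ConnJ_cp at ha ⊢
  rw [Finset.mem_filter] at ha ⊢
  exact ⟨hb, ha.2.tail ⟨ha.1, hb, hab⟩⟩

theorem ConnJ_reach {α : Type*} {R : α → α → Prop} {K C : Finset α} {e e' : α}
    (hC : ∀ a ∈ C, ∀ b ∈ K, R a b → b ∈ C) (he : e ∈ C)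
    (h : Relation.ReflTransGen (fun a b => a ∈ K ∧ b ∈ K ∧ R a b) e e') : e' ∈ C := by
  induction h with
  | refl => exact he
  | tail _ h2 ih => exact hC _ ih _ h2.2.1 h2.2.2

theorem ConnJ_sub {α : Type*} {R : α → α → Prop} {K C : Finset α} {e : α}
    (hC : ∀ a ∈ C, ∀ b ∈ K, R a b → b ∈ C) (he : e ∈ C) : ConnJ_cp R K e ⊆ C := by
  intro e' he'
  unfold ConnJ_cp at he'
  rw [Finset.mem_filter] at he'
  exact ConnJ_reach hC he he'.2

theorem ConnJ_back {α : Type*} {R : α → α → Prop} (hs : ∀ a b, R a b → R b a) {K C : Finset α}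
    {e e' : α} (hC : ∀ a ∈ C, ∀ b ∈ K, R a b → b ∈ C) (he' : e' ∈ ConnJ_cp R K e) (h : e' ∈ C) :
    e ∈ C := by
  unfold ConnJ_cp at he'
  rw [Finset.mem_filter] at he'
  have h2 : Relation.ReflTransGen (fun a b => a ∈ K ∧ b ∈ K ∧ R a b) e' e := by
    have h3 := he'.2
    clear he' h
    induction h3 with
    | refl => exact Relation.ReflTransGen.refl
    | tail _ h4 ih =>
      exact (Relation.ReflTransGen.single ⟨h4.2.1, h4.1, hs _ _ h4.2.2⟩).trans ih
  exact ConnJ_reach hC h h2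

theorem ConnJ_main {α : Type*} [DecidableEq α] {R : α → α → Prop} (hs : ∀ a b, R a b → R b a) (κ : Finset α)
    (hκ : ∀ A ⊆ κ, A.Nonempty → A ≠ κ → ∃ a ∈ A, ∃ b ∈ κ \ A, R a b) :
    ∀ (N : ℕ) (K1 S0 : Finset α), S0.card = N → K1 ⊆ κ → K1.Nonempty →
      (∀ e ∈ κ \ K1, ∃ a ∈ K1, R a e) →
      (∀ A ⊆ K1, A.Nonempty → (∀ a ∈ A, ∀ b ∈ K1, R a b → b ∈ A) → (A ∩ S0).Nonempty) →
      ∃ K, K1 ⊆ K ∧ K ⊆ κ ∧ (K.Nonempty ∧ ∀ A ⊆ K, A.Nonempty → A ≠ K →
        ∃ a ∈ A, ∃ b ∈ K \ A, R a b) ∧ K.card + 2 ≤ K1.card + 2 * S0.card := by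
  intro N
  induction N with
  | zero =>
    intro K1 S0 hS hK1 hne _ hmeet
    obtain ⟨x, hx⟩ := hmeet K1 (Finset.Subset.refl _) hne (fun a _ b hb _ => hb)
    rw [Finset.card_eq_zero.1 hS, Finset.inter_empty] at hx
    exact absurd hx (Finset.notMem_empty x)
  | succ N ih =>
    intro K1 S0 hS hK1 hne hadj hmeet
    by_cases hcon : ∀ A ⊆ K1, A.Nonempty → A ≠ K1 → ∃ a ∈ A, ∃ b ∈ K1 \ A, R a b
    · exact ⟨K1, Finset.Subset.refl _, hK1, ⟨hne, hcon⟩, by omega⟩
    push Not at hcon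
    obtain ⟨A, hAK, hAne, hAK', hAcl⟩ := hcon
    have hAc : ∀ a ∈ A, ∀ b ∈ K1, R a b → b ∈ A := by
      intro a ha b hb hab
      by_contra hbA
      exact hAcl a ha b (Finset.mem_sdiff.2 ⟨hb, hbA⟩) hab
    have hBne : (K1 \ A).Nonempty := by
      rw [Finset.sdiff_nonempty]
      intro h
      exact hAK' (Finset.Subset.antisymm hAK h)
    have hBc : ∀ a ∈ K1 \ A, ∀ b ∈ K1, R a b → b ∈ K1 \ A := by
      intro a ha b hb hab
      rw [Finset.mem_sdiff] at ha ⊢
      exact ⟨hb, fun hbA => ha.2 (hAc b hbA a ha.1 (hs _ _ hab))⟩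
    obtain ⟨b0, hb0⟩ := hBne
    have hplus := hκ (κ.filter (fun e => e ∈ A ∨ (e ∉ K1 ∧ ∃ a ∈ A, R a e)))
      (Finset.filter_subset _ _)
      (by
        obtain ⟨a0, ha0⟩ := hAne
        exact ⟨a0, Finset.mem_filter.2 ⟨hK1 (hAK ha0), Or.inl ha0⟩⟩)
      (by
        intro h
        rw [Finset.mem_sdiff] at hb0
        have h1 : b0 ∈ κ := hK1 hb0.1
        rw [← h, Finset.mem_filter] at h1
        rcases h1.2 with h2 | h2
        · exact hb0.2 h2
        · exact h2.1 hb0.1)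
    obtain ⟨a, ha, b, hb, hab⟩ := hplus
    rw [Finset.mem_filter] at ha
    rw [Finset.mem_sdiff, Finset.mem_filter, not_and, not_or] at hb
    obtain ⟨haκ, ha⟩ := ha
    obtain ⟨hbκ, hb⟩ := hb
    obtain ⟨hbA, hb⟩ := hb hbκ
    have hexa : ∃ a' ∈ A, a = a' ∨ R a' a := by
      rcases ha with h | ⟨_, a', ha', h⟩
      · exact ⟨a, h, Or.inl rfl⟩
      · exact ⟨a', ha', Or.inr h⟩
    have hexb : ∃ b' ∈ K1 \ A, b = b' ∨ R b' b := by
      by_cases hbK : b ∈ K1
      · exact ⟨b, Finset.mem_sdiff.2 ⟨hbK, hbA⟩, Or.inl rfl⟩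
      · obtain ⟨b', hb', h⟩ := hadj b (Finset.mem_sdiff.2 ⟨hbκ, hbK⟩)
        refine ⟨b', Finset.mem_sdiff.2 ⟨hb', fun hbA' => hb ⟨hbK, b', hbA', h⟩⟩, Or.inr h⟩
    obtain ⟨a', ha', haa⟩ := hexa
    obtain ⟨b', hb', hbb⟩ := hexb
    have ha'K : a' ∈ K1 := hAK ha'
    have hb'K : b' ∈ K1 := (Finset.mem_sdiff.1 hb').1
    have hA0 : ConnJ_cp R K1 a' ⊆ A := ConnJ_sub hAc ha'
    have hB0 : ConnJ_cp R K1 b' ⊆ K1 \ A := ConnJ_sub hBc hb'
    obtain ⟨x, hx⟩ := hmeet (ConnJ_cp R K1 a') (Finset.filter_subset _ _)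
      ⟨a', ConnJ_self ha'K⟩ (fun _ h1 _ h2 h3 => ConnJ_closed h1 h2 h3)
    obtain ⟨y, hy⟩ := hmeet (ConnJ_cp R K1 b') (Finset.filter_subset _ _)
      ⟨b', ConnJ_self hb'K⟩ (fun _ h1 _ h2 h3 => ConnJ_closed h1 h2 h3)
    rw [Finset.mem_inter] at hx hy
    have hcardS : (S0.erase x).card = N := by
      rw [Finset.card_erase_of_mem hx.2, hS]
      rfl
    have hsub1 : K1 ⊆ insert a (insert b K1) :=
      (Finset.subset_insert _ _).trans (Finset.subset_insert _ _)
    have haK2 : a ∈ insert a (insert b K1) := Finset.mem_insert_self _ _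
    have hbK2 : b ∈ insert a (insert b K1) :=
      Finset.mem_insert_of_mem (Finset.mem_insert_self _ _)
    obtain ⟨K, h1, h2, h3, h4⟩ := ih (insert a (insert b K1)) (S0.erase x) hcardS
      (by
        intro e he
        rw [Finset.mem_insert, Finset.mem_insert] at he
        rcases he with rfl | rfl | h
        · exact haκ
        · exact hbκ
        · exact hK1 h)
      (hne.mono hsub1)
      (by
        intro e he
        rw [Finset.mem_sdiff] at he
        obtain ⟨c, hc, hce⟩ := hadj e (Finset.mem_sdiff.2 ⟨he.1, fun h => he.2 (hsub1 h)⟩)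
        exact ⟨c, hsub1 hc, hce⟩)
      (by
        intro C hC hCne hCc
        have hCc1 : ∀ c ∈ C, ∀ d ∈ K1, R c d → d ∈ C := fun c hc d hd h =>
          hCc c hc d (hsub1 hd) h
        by_cases hbC : b' ∈ C
        · have h1 : y ∈ C := ConnJ_sub hCc1 hbC hy.1
          refine ⟨y, Finset.mem_inter.2 ⟨h1, Finset.mem_erase.2 ⟨?_, hy.2⟩⟩⟩
          rintro rfl
          exact (Finset.mem_sdiff.1 (hB0 hy.1)).2 (hA0 hx.1)
        · have hb1 : b ∉ C := by
            intro h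
            rcases hbb with h1 | h1
            · exact hbC (h1 ▸ h)
            · exact hbC (hCc b h b' (hsub1 hb'K) (hs _ _ h1))
          have ha1 : a ∉ C := fun h => hb1 (hCc a h b hbK2 hab)
          have ha2 : a' ∉ C := by
            intro h
            rcases haa with h1 | h1
            · exact ha1 (h1 ▸ h)
            · exact ha1 (hCc a' h a haK2 h1)
          have hCK : C ⊆ K1 := by
            intro c hc
            have h1 := hC hc
            rw [Finset.mem_insert, Finset.mem_insert] at h1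
            rcases h1 with rfl | rfl | h
            · exact absurd hc ha1
            · exact absurd hc hb1
            · exact h
          obtain ⟨z, hz⟩ := hmeet C hCK hCne hCc1
          rw [Finset.mem_inter] at hz
          refine ⟨z, Finset.mem_inter.2 ⟨hz.1, Finset.mem_erase.2 ⟨?_, hz.2⟩⟩⟩
          rintro rfl
          exact ha2 (ConnJ_back hs hCc1 hx.1 hz.1))
    refine ⟨K, hsub1.trans h1, h2, h3, ?_⟩
    have h5 : (insert a (insert b K1)).card ≤ K1.card + 2 :=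
      (Finset.card_insert_le _ _).trans (Nat.succ_le_succ (Finset.card_insert_le _ _))
    omega

/-- JOINING COMPONENTS (pure graph lemma).
`κ` is connected, `K1 ⊆ κ`, every element of `κ \ K1` is adjacent to an element of `K1`, every nonempty `A ⊆ K1` without neighbours in
`K1 \ A` meets `S0`. Then there is a connected `K`, `K1 ⊆ K ⊆ κ`, `|K| + 2 ≤ |K1| + 2 |S0|`.
PROOF. Consider the pairs `(K', S')`, `K1 ⊆ K' ⊆ κ`, `S' ⊆ S0`, such that every nonempty `A ⊆ K'` without neighbours in `K' \ A`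
meets `S'`, and `|K'| + 2 |S'| ≤ |K1| + 2 |S0|`; take one with `|S'|` minimal. `S'` is nonempty (take `A = K'`). If `K'` is connected we
are done as `|S'| ≥ 1`. Otherwise there is a proper nonempty `A ⊂ K'` without neighbours in `B = K' \ A`. Let `A⁺` be `A` and all
elements of `κ \ K'` which are adjacent to an element of `A`. `κ` is connected and `A⁺ ≠ κ` (`B` is disjoint from `A⁺`), so
there are adjacent `a ∈ A⁺`, `b ∈ κ \ A⁺`. `a` is in `A` or adjacent to some `a' ∈ A`; `b` is in `B` or (it is adjacent to an element of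
`K1 ⊆ K'`, not in `A`) adjacent to some `b' ∈ B`. Let `A0` be the component of `a'` in `K'` and `B0` the component of `b'` in `K'`
(`a' = a` if `a ∈ A`, `b' = b` if `b ∈ B`); `A0 ⊆ A`, `B0 ⊆ B`. Choose `x ∈ S' ∩ A0` and put `K'' = K' ∪ {a, b}`,
`S'' = S' \ {x}`. Let `C ⊆ K''` be nonempty without neighbours in `K'' \ C`. If `C` meets `A0 ∪ {a, b} ∪ B0` it contains it, so it
meets `S''` in `B0`. Otherwise `C ⊆ K'` has no neighbours in `K' \ C`, so it meets `S'` in an element which is not in `A0`, so not `x`.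
So `(K'', S'')` is admissible, contradiction to minimality. -/
theorem conn_join (v : Pos n k m) (D : Fin m → Finset (Fin n)) (κ K1 S0 : Finset (Fin m))
    (hκ : Conn v D κ) (hK1 : K1 ⊆ κ) (hne : K1.Nonempty) (hS0 : S0 ⊆ K1)
    (hadj : ∀ e ∈ κ \ K1, ∃ a ∈ K1, AdjD v D a e)
    (hmeet : ∀ A ⊆ K1, A.Nonempty → (∀ a ∈ A, ∀ b ∈ K1 \ A, ¬ AdjD v D a b) →
      (A ∩ S0).Nonempty) :
    ∃ K, K1 ⊆ K ∧ K ⊆ κ ∧ Conn v D K ∧ K.card + 2 ≤ K1.card + 2 * S0.card := by
  refine ConnJ_main (R := AdjD v D) (fun a b h => Or.symm h) κ hκ.2 S0.card K1 S0 rfl hK1 hne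
    hadj ?_
  intro A hA hAne hAc
  refine hmeet A hA hAne ?_
  intro a ha b hb hab
  rw [Finset.mem_sdiff] at hb
  exact hb.2 (hAc a ha b hb.1 hab)

end GC
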