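import Pool.Agent.W_bd7f91F_h12.Op

/-! # Connected sets and components -/

set_option autoImplicit false

open Finset
open scoped Classical

namespace GC

variable {n k m : ℕ}

lemma ConnL_symm {v : Pos n k m} {D : Fin m → Finset (Fin n)} {a b : Fin m}
    (h : AdjD v D a b) : AdjD v D b a := Or.symm h

/-- a set is connected if every proper subset containing the base point has a neighbour outside -/
theorem conn_of_base (v : Pos n k m) (D : Fin m → Finset (Fin n)) {K : Finset (Fin m)}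
    {i : Fin m} (hi : i ∈ K)
    (h : ∀ B ⊆ K, i ∈ B → B ≠ K → ∃ a ∈ B, ∃ b ∈ K \ B, AdjD v D a b) : Conn v D K := by
  refine ⟨⟨i, hi⟩, fun A hA hne hAK => ?_⟩
  by_cases hiA : i ∈ A
  · exact h A hA hiA hAK
  · obtain ⟨a, ha, b, hb, hab⟩ := h (K \ A) Finset.sdiff_subset (Finset.mem_sdiff.mpr ⟨hi, hiA⟩)
      (by
        intro h0
        obtain ⟨c, hc⟩ := hne
        have h1 : c ∈ K \ A := by rw [h0]; exact hA hc
        exact (Finset.mem_sdiff.mp h1).2 hc)
    have hb1 := Finset.mem_sdiff.mp hb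
    refine ⟨b, ?_, a, ha, ConnL_symm hab⟩
    by_contra hbA
    exact hb1.2 (Finset.mem_sdiff.mpr ⟨hb1.1, hbA⟩)

theorem cmp_self (v : Pos n k m) (D : Fin m → Finset (Fin n)) {T : Finset (Fin m)} {e : Fin m}
    (he : e ∈ T) : e ∈ cmp v D T e := by
  exact Finset.mem_filter.mpr ⟨he, Relation.ReflTransGen.refl⟩

theorem cmp_sub (v : Pos n k m) (D : Fin m → Finset (Fin n)) (T : Finset (Fin m)) (e : Fin m) :
    cmp v D T e ⊆ T := by
  exact Finset.filter_subset _ _

/-- no adjacency leaves a component -/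
theorem cmp_adj (v : Pos n k m) (D : Fin m → Finset (Fin n)) {T : Finset (Fin m)} {e a b : Fin m}
    (ha : a ∈ cmp v D T e) (hb : b ∈ T) (hab : AdjD v D a b) : b ∈ cmp v D T e := by
  have ha' := Finset.mem_filter.mp ha
  exact Finset.mem_filter.mpr ⟨hb, ha'.2.tail ⟨ha'.1, hb, hab⟩⟩

theorem cmp_eq (v : Pos n k m) (D : Fin m → Finset (Fin n)) {T : Finset (Fin m)} {e a : Fin m}
    (he : e ∈ T) (ha : a ∈ cmp v D T e) : cmp v D T a = cmp v D T e := by
  have ha' := Finset.mem_filter.mp ha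
  have hs : Relation.ReflTransGen (fun a b => a ∈ T ∧ b ∈ T ∧ AdjD v D a b) a e := by
    have h0 := ha'.2
    induction h0 with
    | refl => exact Relation.ReflTransGen.refl
    | tail h1 h2 ih =>
      have h3 := ih (Finset.mem_filter.mpr ⟨h2.1, h1⟩) ⟨h2.1, h1⟩
      exact Relation.ReflTransGen.head ⟨h2.2.1, h2.1, ConnL_symm h2.2.2⟩ h3
  ext c
  constructor
  · intro hc
    have hc' := Finset.mem_filter.mp hc
    exact Finset.mem_filter.mpr ⟨hc'.1, ha'.2.trans hc'.2⟩
  · intro hc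
    have hc' := Finset.mem_filter.mp hc
    exact Finset.mem_filter.mpr ⟨hc'.1, hs.trans hc'.2⟩

theorem cmp_conn (v : Pos n k m) (D : Fin m → Finset (Fin n)) {T : Finset (Fin m)} {e : Fin m}
    (he : e ∈ T) : Conn v D (cmp v D T e) := by
  refine conn_of_base v D (cmp_self v D he) (fun B hB heB hne => ?_)
  by_contra hcon
  push Not at hcon
  apply hne
  refine Finset.Subset.antisymm hB (fun c hc => ?_)
  have hc' := (Finset.mem_filter.mp hc).2
  induction hc' with
  | refl => exact heB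
  | tail h1 h2 ih =>
    rename_i b c'
    have hb : b ∈ cmp v D T e := Finset.mem_filter.mpr ⟨h2.1, h1⟩
    have hbB := ih hb
    by_contra hcB
    exact hcon b hbB c' (Finset.mem_sdiff.mpr ⟨hc, hcB⟩) h2.2.2

/-- a connected subset of `T` containing `e` lies in the component of `e` -/
theorem conn_sub_cmp (v : Pos n k m) (D : Fin m → Finset (Fin n)) {T K : Finset (Fin m)}
    {e : Fin m} (hK : Conn v D K) (hKT : K ⊆ T) (he : e ∈ K) : K ⊆ cmp v D T e := by
  by_contra hcon
  have h1 : K.filter (fun c => c ∈ cmp v D T e) ≠ K := by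
    intro h0
    apply hcon
    intro c hc
    rw [← h0] at hc
    exact (Finset.mem_filter.mp hc).2
  obtain ⟨a, ha, b, hb, hab⟩ := hK.2 _ (Finset.filter_subset _ _)
    ⟨e, Finset.mem_filter.mpr ⟨he, cmp_self v D (hKT he)⟩⟩ h1
  have hb' := Finset.mem_sdiff.mp hb
  apply hb'.2
  exact Finset.mem_filter.mpr ⟨hb'.1, cmp_adj v D (Finset.mem_filter.mp ha).2 (hKT hb'.1) hab⟩

/-- Adding an adjacent element, or the union of two connected sets which are adjacent or meet. -/
theorem conn_insert (v : Pos n k m) (D : Fin m → Finset (Fin n)) {K : Finset (Fin m)}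
    {a e : Fin m} (hK : Conn v D K) (ha : a ∈ K) (hae : AdjD v D a e) :
    Conn v D (insert e K) := by
  refine conn_of_base v D (Finset.mem_insert_of_mem ha) (fun B hB haB hne => ?_)
  by_cases hKB : K ⊆ B
  · refine ⟨a, haB, e, Finset.mem_sdiff.mpr ⟨Finset.mem_insert_self e K, fun heB => ?_⟩, hae⟩
    exact hne (Finset.Subset.antisymm hB (Finset.insert_subset heB hKB))
  · obtain ⟨a', ha', b, hb, hab⟩ := hK.2 (K ∩ B) Finset.inter_subset_left
      ⟨a, Finset.mem_inter.mpr ⟨ha, haB⟩⟩ (fun h0 => hKB (by rw [← h0]; exact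
        Finset.inter_subset_right))
    have hb' := Finset.mem_sdiff.mp hb
    exact ⟨a', (Finset.mem_inter.mp ha').2, b, Finset.mem_sdiff.mpr
      ⟨Finset.mem_insert_of_mem hb'.1, fun hbB => hb'.2 (Finset.mem_inter.mpr ⟨hb'.1, hbB⟩)⟩, hab⟩

/-- PROOF. `A ⊂ K`; if `A = ∅` take the clause containing `z`; otherwise an adjacency `a ∈ A`, `b ∈ K \ A` gives a shared variable
(`D e ⊆ VV v e`). -/
theorem conn_rooted (v : Pos n k m) (D : Fin m → Finset (Fin n)) (hD : ∀ e, D e ⊆ VV v e)
    {K : Finset (Fin m)} (hK : Conn v D K) {z : Fin n} (hz : z ∈ VS v K) :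
    Rooted v {z} K := by
  intro A hA hAK
  rcases A.eq_empty_or_nonempty with hA0 | hA0
  · obtain ⟨b, hb, hzb⟩ := Finset.mem_biUnion.mp hz
    refine ⟨b, Finset.mem_sdiff.mpr ⟨hb, by rw [hA0]; exact Finset.notMem_empty b⟩, z, ?_⟩
    exact Finset.mem_inter.mpr ⟨hzb, Finset.mem_union_left _ (Finset.mem_singleton_self z)⟩
  · obtain ⟨a, ha, b, hb, hab⟩ := hK.2 A hA hA0 hAK
    refine ⟨b, hb, ?_⟩
    rcases hab with ⟨j, hj⟩ | ⟨j, hj⟩
    · refine ⟨v a j, Finset.mem_inter.mpr ⟨hD b hj, Finset.mem_union_right _ ?_⟩⟩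
      exact Finset.mem_biUnion.mpr ⟨a, ha, Finset.mem_image_of_mem _ (Finset.mem_univ j)⟩
    · refine ⟨v b j, Finset.mem_inter.mpr ⟨Finset.mem_image_of_mem _ (Finset.mem_univ j),
        Finset.mem_union_right _ ?_⟩⟩
      exact Finset.mem_biUnion.mpr ⟨a, ha, hD a hj⟩

/-- Rooted sets: monotone in the roots; union with a set all whose clauses are rooted at what is already there. -/
theorem rooted_mono (v : Pos n k m) {Z Z' : Finset (Fin n)} (hZ : Z ⊆ Z') {H : Finset (Fin m)}
    (h : Rooted v Z H) : Rooted v Z' H := by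
  intro A hA hAH
  obtain ⟨b, hb, y, hy⟩ := h A hA hAH
  have hy' := Finset.mem_inter.mp hy
  exact ⟨b, hb, y, Finset.mem_inter.mpr ⟨hy'.1, Finset.union_subset_union_left hZ hy'.2⟩⟩

/-- PROOF. Let `A ⊂ H ∪ K` be proper. If `H ⊄ A` use `Rooted v Z H` for `A ∩ H`. Otherwise use `Rooted v (Z ∪ VS v H) K` for
`A ∩ K` (`VS v H ⊆ VS v A`). -/
theorem rooted_union (v : Pos n k m) {Z : Finset (Fin n)} {H K : Finset (Fin m)}
    (hH : Rooted v Z H) (hK : Rooted v (Z ∪ VS v H) K) : Rooted v Z (H ∪ K) := by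
  intro A hA hne
  by_cases hHA : H ⊆ A
  · have h1 : A ∩ K ≠ K := by
      intro h0
      apply hne
      refine Finset.Subset.antisymm hA (Finset.union_subset hHA ?_)
      rw [← h0]
      exact Finset.inter_subset_left
    obtain ⟨b, hb, y, hy⟩ := hK (A ∩ K) Finset.inter_subset_right h1
    have hb' := Finset.mem_sdiff.mp hb
    have hy' := Finset.mem_inter.mp hy
    refine ⟨b, Finset.mem_sdiff.mpr ⟨Finset.mem_union_right _ hb'.1, fun hbA => hb'.2
      (Finset.mem_inter.mpr ⟨hbA, hb'.1⟩)⟩, y, Finset.mem_inter.mpr ⟨hy'.1, ?_⟩⟩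
    rcases Finset.mem_union.mp hy'.2 with h2 | h2
    · rcases Finset.mem_union.mp h2 with h3 | h3
      · exact Finset.mem_union_left _ h3
      · exact Finset.mem_union_right _ (Finset.biUnion_subset_biUnion_of_subset_left _ hHA h3)
    · exact Finset.mem_union_right _
        (Finset.biUnion_subset_biUnion_of_subset_left _ Finset.inter_subset_left h2)
  · obtain ⟨b, hb, y, hy⟩ := hH (A ∩ H) Finset.inter_subset_right (fun h0 => hHA (by
      rw [← h0]; exact Finset.inter_subset_left))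
    have hb' := Finset.mem_sdiff.mp hb
    have hy' := Finset.mem_inter.mp hy
    refine ⟨b, Finset.mem_sdiff.mpr ⟨Finset.mem_union_left _ hb'.1, fun hbA => hb'.2
      (Finset.mem_inter.mpr ⟨hbA, hb'.1⟩)⟩, y, Finset.mem_inter.mpr ⟨hy'.1, ?_⟩⟩
    rcases Finset.mem_union.mp hy'.2 with h2 | h2
    · exact Finset.mem_union_left _ h2
    · exact Finset.mem_union_right _
        (Finset.biUnion_subset_biUnion_of_subset_left _ Finset.inter_subset_left h2)

end GC
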