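import Mathlib

/-!
# MP_bd7f91_pr, FULL ANSWER TO Q1 (helper12): definitions

Random `k`-SAT, giant `C_k log n` component up to `(1 - o(1)) 2^k ln k / k`; paper proof: proofs row 224.
A clause is a pair (variables at the `k` slots, violating pattern); `x` violates the clause `c` iff
`x (c.1 j) = c.2 j` for all slots `j`.  The slot `j` is TRUE at `x` iff `x (c.1 j) ≠ c.2 j`.
-/

set_option autoImplicit false

open Finset
open scoped Classical

namespace GC

/-- variables at the slots of the clauses -/
abbrev Pos (n k m : ℕ) := Fin m → Fin k → Fin n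
/-- violating patterns -/
abbrev Sgn (k m : ℕ) := Fin m → Fin k → Bool
/-- assignments -/
abbrev Asg (n : ℕ) := Fin n → Bool
/-- states of the run: assignment and set of marked variables -/
abbrev St (n : ℕ) := (Fin n → Bool) × Finset (Fin n)
/-- clauses -/
abbrev Cl (n k : ℕ) := (Fin k → Fin n) × (Fin k → Bool)
/-- formulas -/
abbrev Fml (n k m : ℕ) := Fin m → Cl n k

variable {n k m : ℕ}

/-- the formula with given slots and patterns -/
def mkF (v : Pos n k m) (s : Sgn k m) : Fml n k m := fun e => (v e, s e)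

/-- the slots of a formula -/
def pos (Φ : Fml n k m) : Pos n k m := fun e => (Φ e).1

/-- `x` violates the clause `c` -/
def Viol (c : Cl n k) (x : Asg n) : Prop := ∀ j, x (c.1 j) = c.2 j

/-- flip the variable `y` -/
def fl (x : Asg n) (y : Fin n) : Asg n := Function.update x y (! x y)

/-- the clause `c` is critical for `y` at `x` -/
def Crit (c : Cl n k) (x : Asg n) (y : Fin n) : Prop := ¬ Viol c x ∧ Viol c (fl x y)

/-- the formula has pairwise distinct variables in every clause -/
def Inj (v : Pos n k m) : Prop := ∀ e, Function.Injective (v e)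

/-! ## The run -/

/-- the operation on a clause with variables `u`: `some j`: mark the variables at the slots `≤ j` and flip
the variable at slot `j` if it was not marked; `none`: mark all variables of the clause -/
noncomputable def op (u : Fin k → Fin n) (t : Option (Fin k)) (S : St n) : St n :=
  match t with
  | none => (S.1, S.2 ∪ univ.image u)
  | some j => (if u j ∈ S.2 then S.1 else fl S.1 (u j),
      S.2 ∪ (univ.filter (fun i : Fin k => i ≤ j)).image u)

/-- the variable `y` is free in the state `S` at time `i`, when the clauses of `Q` are removed and the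
variables of `Y` are declared to be blocked -/
def Free (Φ : Fml n k m) (Q : Finset (Fin m)) (Y : Finset (Fin n)) (i : ℕ) (S : St n)
    (y : Fin n) : Prop :=
  y ∉ S.2 ∧ y ∉ Y ∧ ∀ e : Fin m, e.val < i → e ∉ Q → ¬ Crit (Φ e) S.1 y

/-- the set of the free variables -/
noncomputable def FreeF (Φ : Fml n k m) (Q : Finset (Fin m)) (Y : Finset (Fin n)) (i : ℕ)
    (S : St n) : Finset (Fin n) := univ.filter (Free Φ Q Y i S)

/-- the stop slot: the least slot whose variable satisfies `P` -/
noncomputable def stp (u : Fin k → Fin n) (P : Fin n → Prop) : Option (Fin k) :=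
  if h : (univ.filter (fun j : Fin k => P (u j))).Nonempty then
    some ((univ.filter (fun j : Fin k => P (u j))).min' h) else none

/-- one step of the run with removed clauses `Q`, forced blocks `Y`, prescribed operations `ρ` on `Q` -/
noncomputable def step (Φ : Fml n k m) (Q : Finset (Fin m)) (Y : Finset (Fin n))
    (ρ : Fin m → Option (Option (Fin k))) (i : Fin m) (S : St n) : St n :=
  if i ∈ Q then (match ρ i with | none => S | some t => op (Φ i).1 t S)
  else if Viol (Φ i) S.1 then op (Φ i).1 (stp (Φ i).1 (Free Φ Q Y i.val S)) S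
  else S

/-- the run: state before the clause `i` is inserted -/
noncomputable def run (Φ : Fml n k m) (Q : Finset (Fin m)) (Y : Finset (Fin n))
    (ρ : Fin m → Option (Option (Fin k))) (η : Asg n) : ℕ → St n
  | 0 => (η, ∅)
  | i + 1 => if h : i < m then step Φ Q Y ρ ⟨i, h⟩ (run Φ Q Y ρ η i) else run Φ Q Y ρ η i

/-- the actual run -/
noncomputable def arun (Φ : Fml n k m) (η : Asg n) (i : ℕ) : St n :=
  run Φ ∅ ∅ (fun _ => none) η i

/-- the final state -/
noncomputable def fin (Φ : Fml n k m) (η : Asg n) : St n := arun Φ η m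

/-- `y` is newly marked in step `i` of the actual run, and the earlier clause `e` is critical for it -/
structure NewCrit (Φ : Fml n k m) (η : Asg n) (e : Fin m) (i : ℕ) (y : Fin n) : Prop where
  lt : e.val < i
  un : y ∉ (arun Φ η i).2
  mkd : y ∈ (arun Φ η (i + 1)).2
  cr : Crit (Φ e) (arun Φ η i).1 y

/-- roles: `inl none` silent, `inl (some t)` violated when inserted, with stop slot `t`;
`inr j`: blocks the variable at slot `j` -/
abbrev Rl (k : ℕ) := Option (Option (Fin k)) ⊕ Fin k

/-- the clause `e` has the role `r` in the actual run -/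
def IsRole (Φ : Fml n k m) (η : Asg n) (e : Fin m) : Rl k → Prop
  | Sum.inl none => ¬ Viol (Φ e) (arun Φ η e.val).1 ∧ ∀ i y, ¬ NewCrit Φ η e i y
  | Sum.inl (some t) => Viol (Φ e) (arun Φ η e.val).1 ∧
      t = stp (Φ e).1 (Free Φ ∅ ∅ e.val (arun Φ η e.val))
  | Sum.inr j => ∃ i, NewCrit Φ η e i ((Φ e).1 j)

/-- the prescribed operation of a role -/
def rop (r : Rl k) : Option (Option (Fin k)) := Sum.elim id (fun _ => none) r

/-- the forced blocks of the roles `r` on `K` -/
noncomputable def YY (v : Pos n k m) (K : Finset (Fin m)) (r : Fin m → Rl k) : Finset (Fin n) :=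
  univ.filter (fun y => ∃ e ∈ K, ∃ j, r e = Sum.inr j ∧ v e j = y)

/-- the run with `K` removed and roles `r` on `K` -/
noncomputable def krun (Φ : Fml n k m) (K : Finset (Fin m)) (r : Fin m → Rl k) (η : Asg n)
    (i : ℕ) : St n := run Φ K (YY (pos Φ) K r) (fun e => rop (r e)) η i

/-- the free variables of the run with `K` removed -/
noncomputable def kfree (Φ : Fml n k m) (K : Finset (Fin m)) (r : Fin m → Rl k) (η : Asg n)
    (i : ℕ) : Finset (Fin n) := FreeF Φ K (YY (pos Φ) K r) i (krun Φ K r η i)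

/-! ## Variables, rooted sets, events E1, E2, influence sets -/

/-- the variables of a clause -/
noncomputable def VV (v : Pos n k m) (e : Fin m) : Finset (Fin n) := univ.image (v e)

/-- the variables of a set of clauses -/
noncomputable def VS (v : Pos n k m) (K : Finset (Fin m)) : Finset (Fin n) := K.biUnion (VV v)

/-- every clause of `H` is linked inside `H` by shared variables to the set `Z` -/
def Rooted (v : Pos n k m) (Z : Finset (Fin n)) (H : Finset (Fin m)) : Prop :=
  ∀ A ⊆ H, A ≠ H → ∃ b ∈ H \ A, (VV v b ∩ (Z ∪ VS v A)).Nonempty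

/-- the clauses which touch the set `Z` of variables -/
noncomputable def tch (v : Pos n k m) (Z : Finset (Fin n)) : Finset (Fin m) :=
  univ.filter (fun e => (VV v e ∩ Z).Nonempty)

/-- E1: `|V_K| ≥ (k - 1 - 1/16) |K|` for small `K` -/
def E1 (v : Pos n k m) (l : ℕ) : Prop :=
  ∀ K : Finset (Fin m), K.card ≤ l → (16 * k - 17) * K.card ≤ 16 * (VS v K).card

/-- E2: small rooted sets are touched by few clauses -/
def E2 (v : Pos n k m) (l c ll : ℕ) : Prop :=
  ∀ (z : Fin n) (H : Finset (Fin m)), Rooted v {z} H → H.card ≤ l →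
    (tch v (insert z (VS v H))).card ≤ c * (H.card + ll)

/-- one step of the influence process which ignores the clauses of `D` -/
noncomputable def Ustep (v : Pos n k m) (D : Finset (Fin m)) (i : Fin m) (U : Finset (Fin n)) :
    Finset (Fin n) :=
  if i ∈ D then U
  else if (VV v i ∩ U).Nonempty then U ∪ VV v i
  else if h : (univ.filter (fun e : Fin m => e ∉ D ∧ e < i ∧ (VV v e ∩ U).Nonempty ∧
      (VV v i ∩ VV v e).Nonempty)).Nonempty then
    U ∪ VV v i ∪ VV v ((univ.filter (fun e : Fin m => e ∉ D ∧ e < i ∧ (VV v e ∩ U).Nonempty ∧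
      (VV v i ∩ VV v e).Nonempty)).min' h)
  else U

/-- the influence process from the variable `z` (ignoring the clauses of `D`) -/
noncomputable def Uset (v : Pos n k m) (D : Finset (Fin m)) (z : Fin n) : ℕ → Finset (Fin n)
  | 0 => {z}
  | i + 1 => if h : i < m then Ustep v D ⟨i, h⟩ (Uset v D z i) else Uset v D z i

/-- E3: all influence sets are small -/
def E3 (v : Pos n k m) (b : ℕ) : Prop := ∀ z : Fin n, (Uset v ∅ z m).card ≤ b

/-! ## Closure and patch, relative to a (final) state `S` -/

/-- good variables -/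
def Good (Φ : Fml n k m) (S : St n) (y : Fin n) : Prop := y ∉ S.2 ∧ ∀ e, ¬ Crit (Φ e) S.1 y

/-- the good slots of a clause -/
noncomputable def gs (Φ : Fml n k m) (S : St n) (e : Fin m) : Finset (Fin k) :=
  univ.filter (fun j => Good Φ S ((Φ e).1 j))

/-- at most two good slots -/
def Bad (Φ : Fml n k m) (S : St n) (e : Fin m) : Prop := (gs Φ S e).card ≤ 2

/-- three elements of `A` if possible, otherwise the first three slots -/
noncomputable def dsl (A : Finset (Fin k)) : Finset (Fin k) :=
  if h : ∃ B ⊆ A, B.card = 3 then h.choose else univ.filter (fun j : Fin k => j.val < 3)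

/-- the designated variables -/
noncomputable def DD (Φ : Fml n k m) (S : St n) (e : Fin m) : Finset (Fin n) :=
  (dsl (gs Φ S e)).image (Φ e).1

/-- all true slots of `e` have designated variables of `T` -/
def Need (Φ : Fml n k m) (S : St n) (T : Finset (Fin m)) (e : Fin m) : Prop :=
  ∀ j, S.1 ((Φ e).1 j) ≠ (Φ e).2 j → (Φ e).1 j ∈ T.biUnion (DD Φ S)

/-- the closure: the least set `T` which contains every clause `e` with `Need T e` -/
noncomputable def TT (Φ : Fml n k m) (S : St n) : Finset (Fin m) :=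
  univ.filter (fun e => ∀ T : Finset (Fin m), (∀ e', Need Φ S T e' → e' ∈ T) → e ∈ T)

/-- generated sets -/
def Gen (Φ : Fml n k m) (S : St n) (T : Finset (Fin m)) : Prop :=
  ∃ rk : Fin m → ℕ, ∀ e ∈ T, ∀ j, S.1 ((Φ e).1 j) ≠ (Φ e).2 j →
    ∃ e' ∈ T, rk e' < rk e ∧ (Φ e).1 j ∈ DD Φ S e'

/-- adjacency with respect to the designated sets `D` -/
def AdjD (v : Pos n k m) (D : Fin m → Finset (Fin n)) (e e' : Fin m) : Prop :=
  (∃ j, v e j ∈ D e') ∨ (∃ j, v e' j ∈ D e)

/-- connected sets of clauses -/
def Conn (v : Pos n k m) (D : Fin m → Finset (Fin n)) (K : Finset (Fin m)) : Prop :=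
  K.Nonempty ∧ ∀ A ⊆ K, A.Nonempty → A ≠ K → ∃ a ∈ A, ∃ b ∈ K \ A, AdjD v D a b

/-- the component of `e` in `T` -/
noncomputable def cmp (v : Pos n k m) (D : Fin m → Finset (Fin n)) (T : Finset (Fin m))
    (e : Fin m) : Finset (Fin m) :=
  T.filter (fun e' => Relation.ReflTransGen (fun a b => a ∈ T ∧ b ∈ T ∧ AdjD v D a b) e e')

/-- closedness for the sign argument: every true slot of `e ∈ K` has a variable of another clause of `K` -/
def KClosed (Φ : Fml n k m) (x : Asg n) (K : Finset (Fin m)) : Prop :=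
  ∀ e ∈ K, ∀ j, x ((Φ e).1 j) ≠ (Φ e).2 j → (Φ e).1 j ∈ VS (pos Φ) (K.erase e)

/-- the witnesses of event E4 -/
structure Wit (Φ : Fml n k m) (S : St n) (l c1 c2 : ℕ) (z : Fin n) (H K : Finset (Fin m)) :
    Prop where
  sub : K ⊆ H
  rooted : Rooted (pos Φ) {z} H
  cardH : H.card ≤ l
  diff : (H \ K).card ≤ c1
  lo : c2 ≤ K.card
  hi : K.card ≤ 8 * (K.filter (Bad Φ S)).card
  closed : KClosed Φ S.1 K

/-- event E4 -/
def NoWit (Φ : Fml n k m) (S : St n) (l c1 c2 : ℕ) : Prop := ∀ z H K, ¬ Wit Φ S l c1 c2 z H K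

/-- an assignment which satisfies the clauses of `κ` by designated variables -/
noncomputable def acan (Φ : Fml n k m) (D : Fin m → Finset (Fin n)) (κ : Finset (Fin m)) : Asg n :=
  if h : ∃ a : Asg n, ∀ e ∈ κ, ∃ j, (Φ e).1 j ∈ D e ∧ a ((Φ e).1 j) ≠ (Φ e).2 j then h.choose
  else fun _ => false

/-- restriction of the designated sets to `κ` -/
noncomputable def Dr (D : Fin m → Finset (Fin n)) (κ : Finset (Fin m)) : Fin m → Finset (Fin n) :=
  fun e => if e ∈ κ then D e else ∅

/-- the patched assignment -/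
noncomputable def patch (Φ : Fml n k m) (S : St n) : Asg n := fun y =>
  if h : ∃ e ∈ TT Φ S, y ∈ DD Φ S e then
    acan Φ (Dr (DD Φ S) (cmp (pos Φ) (DD Φ S) (TT Φ S) h.choose))
      (cmp (pos Φ) (DD Φ S) (TT Φ S) h.choose) y
  else S.1 y

/-- the variables near `B` -/
noncomputable def NB (v : Pos n k m) (B : Finset (Fin n)) : Finset (Fin n) := B ∪ VS v (tch v B)

/-- the clauses of the closure whose component meets `N` -/
noncomputable def nonfar (Φ : Fml n k m) (S : St n) (N : Finset (Fin n)) : Finset (Fin m) :=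
  (TT Φ S).filter (fun e => (VS (pos Φ) (cmp (pos Φ) (DD Φ S) (TT Φ S) e) ∩ N).Nonempty)

/-! ## Solutions, laws, global event -/

/-- solutions -/
noncomputable def SolF (Φ : Fml n k m) : Finset (Asg n) := univ.filter (fun σ => ∀ e, ¬ Viol (Φ e) σ)

/-- false on the first `t` coordinates, `σ` on the others -/
def etat (t : ℕ) (σ : Asg n) : Asg n := fun u => if u.val < t then false else σ u

/-- GLOB: in all runs with at most `l` removed clauses (whatever they are) and at most `l` forced blocks
there are at all times at least `b` free variables -/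
def Glob (Φ : Fml n k m) (η : Asg n) (l b : ℕ) : Prop :=
  ∀ (Q : Finset (Fin m)) (Y : Finset (Fin n)) (ρ : Fin m → Option (Option (Fin k)))
    (Φ' : Fml n k m), Q.card ≤ l → Y.card ≤ l → (∀ e, e ∉ Q → Φ' e = Φ e) →
    ∀ i, i ≤ m → b ≤ (FreeF Φ' Q Y i (run Φ' Q Y ρ η i)).card

/-- the half of the slots coloured in a clause -/
def Hf (k : ℕ) (b : Bool) : Finset (Fin k) :=
  if b then univ.filter (fun j : Fin k => 2 * j.val < k) else univ.filter (fun j : Fin k => k ≤ 2 * j.val)

/-- a weight which does not depend on the signs of `K` and on the slots of `K` outside the halves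
given by `A`, and has total mass at most one for every formula -/
structure SymW (K A : Finset (Fin m)) (w : Pos n k m → Sgn k m → Asg n → ℝ) : Prop where
  nonneg : ∀ v s σ, 0 ≤ w v s σ
  mass : ∀ v s, ∑ σ, w v s σ ≤ 1
  sym : ∀ (v v' : Pos n k m) (s s' : Sgn k m) (σ : Asg n),
    (∀ e, e ∉ K → v e = v' e ∧ s e = s' e) →
    (∀ e ∈ K, ∀ j ∈ Hf k (decide (e ∈ A)), v e j = v' e j) → w v s σ = w v' s' σ

/-- laws (for every formula a weight on the assignments) dominated by symmetric weights -/
def Dom (μ : Pos n k m → Sgn k m → Asg n → ℝ) : Prop :=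
  (∀ v s σ, 0 ≤ μ v s σ) ∧ ∀ K : Finset (Fin m),
    ∃ w : Finset (Fin m) → Pos n k m → Sgn k m → Asg n → ℝ,
      (∀ A, SymW K A (w A)) ∧
      ∀ v s σ, μ v s σ ≤ 4 ^ K.card * ∑ A ∈ K.powerset, w A v s σ

/-- the uniform law on solutions -/
noncomputable def lawU (v : Pos n k m) (s : Sgn k m) (σ : Asg n) : ℝ :=
  if σ ∈ SolF (mkF v s) then 1 / ((SolF (mkF v s)).card : ℝ) else 0

/-- the uniform law on all assignments -/
noncomputable def lawM (_v : Pos n k m) (_s : Sgn k m) (_σ : Asg n) : ℝ := 1 / 2 ^ n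

/-- overwrite the slots in `P` -/
def ovP (P : Finset (Fin m × Fin k)) (v w : Pos n k m) : Pos n k m :=
  fun e j => if (e, j) ∈ P then w e j else v e j

/-- overwrite the signs of `K` -/
def ovS (K : Finset (Fin m)) (s u : Sgn k m) : Sgn k m := fun e => if e ∈ K then u e else s e

/-- overwrite the clauses in `Q` -/
def ovF (Q : Finset (Fin m)) (Φ Ψ : Fml n k m) : Fml n k m := fun e => if e ∈ Q then Ψ e else Φ e

/-- the number of shared slots of `K` -/
noncomputable def shr (v : Pos n k m) (K : Finset (Fin m)) : ℕ :=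
  ((K ×ˢ (univ : Finset (Fin k))).filter (fun p => v p.1 p.2 ∈ VS v (K.erase p.1))).card

/-- the slot `j` of a clause of role `r` is inspected before the stop slot -/
def insp (r : Rl k) (j : Fin k) : Prop := ∃ t, r = Sum.inl (some t) ∧ ∀ s, t = some s → j < s

/-- the slot `j` is the role slot of the role `r` (blocked variable or stop slot) -/
def rsl (r : Rl k) (j : Fin k) : Prop := r = Sum.inr j ∨ r = Sum.inl (some (some j))

/-- the condition on the private slots `P`: inspected ones are not free at their time, at most `c` of the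
others are free at the end (in the run with `K` removed) -/
def Cond (Φ : Fml n k m) (K : Finset (Fin m)) (r : Fin m → Rl k) (η : Asg n)
    (P : Finset (Fin m × Fin k)) (c : ℕ) : Prop :=
  (∀ p ∈ P, insp (r p.1) p.2 → (Φ p.1).1 p.2 ∉ kfree Φ K r η p.1.val) ∧
  (P.filter (fun p => ¬ insp (r p.1) p.2 ∧ (Φ p.1).1 p.2 ∈ kfree Φ K r η m)).card ≤ c

/-- roles on `K`, closedness of `K` -/
def EvS (Φ : Fml n k m) (η : Asg n) (K : Finset (Fin m)) (r : Fin m → Rl k) : Prop :=
  (∀ e ∈ K, IsRole Φ η e (r e)) ∧ KClosed Φ (fin Φ η).1 K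

/-- the event of the first moment bound -/
structure EvK (Φ : Fml n k m) (η : Asg n) (l b : ℕ) (K X : Finset (Fin m)) : Prop where
  inj : Inj (pos Φ)
  e1 : E1 (pos Φ) l
  glob : Glob Φ η l b
  closed : KClosed Φ (fin Φ η).1 K
  bad : ∀ e ∈ X, Bad Φ (fin Φ η) e

/-- tree data on `H` with `q` roots: parents, own slots, parent slots -/
abbrev TD (q k : ℕ) (H : Finset (Fin m)) :=
  ({e // e ∈ H} → Fin q ⊕ {e // e ∈ H}) × ({e // e ∈ H} → Fin k) × ({e // e ∈ H} → Fin k)

/-- the constraints of the tree data -/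
def TreeC {q : ℕ} (v : Pos n k m) (z : Fin q → Fin n) (H : Finset (Fin m)) (d : TD q k H) : Prop :=
  ∀ e : {e // e ∈ H}, v e.1 (d.2.1 e) = Sum.elim z (fun e' => v e'.1 (d.2.2 e)) (d.1 e)

/-- parents have smaller rank -/
def Acyc {q : ℕ} (H : Finset (Fin m)) (d : TD q k H) : Prop :=
  ∃ rk : {e // e ∈ H} → ℕ, ∀ e e', d.1 e = Sum.inr e' → rk e' < rk e

/-- the private slots: in a clause of `X`, in the uncoloured half, not the role slot, not a tree slot -/
noncomputable def Pset {q : ℕ} (A X : Finset (Fin m)) (r : Fin m → Rl k) (H : Finset (Fin m))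
    (d : TD q k H) : Finset (Fin m × Fin k) :=
  univ.filter (fun p => p.1 ∈ X ∧ p.2 ∉ Hf k (decide (p.1 ∈ A)) ∧ ¬ rsl (r p.1) p.2 ∧
    (∀ e : {e // e ∈ H}, e.1 = p.1 → d.2.1 e ≠ p.2) ∧
    (∀ e e' : {e // e ∈ H}, d.1 e = Sum.inr e' → e'.1 = p.1 → d.2.2 e ≠ p.2))

/-- the length of a stop slot: number of inspected slots before it -/
def len : Option (Fin k) → ℕ
  | none => k
  | some j => j.val

/-- the guided run: the clauses of `Q` are given by `Ψ` and `ρ`, those of `I` have stop slots `t`, all others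
are ignored -/
noncomputable def grun (Φ Ψ : Fml n k m) (Q I : Finset (Fin m)) (ρ : Fin m → Option (Option (Fin k)))
    (t : Fin m → Option (Fin k)) (η : Asg n) (i : ℕ) : St n :=
  run (ovF Q Φ Ψ) univ ∅ (fun e => if e ∈ Q then ρ e else if e ∈ I then some (t e) else none) η i

/-- the first moment bound for sets of given sizes -/
noncomputable def nbd (n k q h r x : ℕ) (g : ℝ) : ℝ :=
  (n : ℝ) ^ q * (((q : ℝ) + h) * k ^ 2 / n) ^ h * (64 * (2 * k + 2) / 2 ^ k) ^ r *
    (k : ℝ) ^ (26 * x) * (1 - g / 2) ^ (x * (k / 2) - 2 * h - x)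

/-- the sum of the first moment bounds for event E4 -/
noncomputable def sumE4 (n k m l c1 c2 : ℕ) (g : ℝ) : ℝ :=
  ∑ h ∈ range (l + 1), ∑ r ∈ range (h + 1), ∑ x ∈ range (r + 1),
    if c2 ≤ r ∧ r ≤ 8 * x ∧ h ≤ r + c1 then (m.choose h : ℝ) * 4 ^ h * nbd n k 1 h r x g else 0

/-- the sum of the first moment bounds for the size of the closure -/
noncomputable def sumWT (n k m l q : ℕ) (g : ℝ) : ℝ :=
  ∑ r ∈ range (l + 1), ∑ x ∈ range (r + 1),
    if q ≤ x ∧ r ≤ 8 * x then (m.choose r : ℝ) * 2 ^ r * nbd n k q r r x g else 0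

/-! ## Parameters -/

/-- about `log n` -/
def ll (n : ℕ) : ℕ := Nat.log 2 n + 1

/-- `g = (ln k)^10 / k` -/
noncomputable def gg (k : ℕ) : ℝ := Real.log k ^ 10 / k

/-- the number of free variables in GLOB -/
noncomputable def bb (n k : ℕ) : ℕ := ⌈gg k * n⌉₊

/-- the bound on the number of clauses: `m k / 2^k ≤ (ln k - 20 ln ln k) n` -/
def HM (n k m : ℕ) : Prop :=
  (m : ℝ) * k ≤ 2 ^ k * (Real.log k - 20 * Real.log (Real.log k)) * n

end GC
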