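import Pool.Agent.W_bd7f91F_h12.Defs
import Pool.Agent.W_MP_bd7f91_h12.SignB

/-! # The two laws are dominated by symmetric weights (sign trick with halves) -/

set_option autoImplicit false

open Finset
open scoped Classical

namespace GC

variable {n k m : ℕ}

/-- PROOF. `w A = lawM` for `A = ∅`, `0` otherwise. -/
theorem dom_M : Dom (lawM : Pos n k m → Sgn k m → Asg n → ℝ) := by
  refine ⟨fun v s σ => by unfold lawM; positivity, fun K => ?_⟩
  refine ⟨fun A => if A = ∅ then lawM else fun _ _ _ => 0, fun A => ?_, fun v s σ => ?_⟩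
  · by_cases hA : A = ∅
    · simp only [hA, if_true]
      refine ⟨fun v s σ => by unfold lawM; positivity, fun v s => ?_, fun v v' s s' σ _ _ => rfl⟩
      unfold lawM
      rw [sum_const, card_univ, nsmul_eq_mul]
      have h1 : Fintype.card (Asg n) = 2 ^ n := by simp [Asg]
      rw [h1]
      push_cast
      rw [mul_one_div, div_self (by positivity)]
    · simp only [hA, if_false]
      exact ⟨fun _ _ _ => le_refl _, fun _ _ => by simp, fun _ _ _ _ _ _ _ => rfl⟩
  · have h0 : (0 : ℝ) ≤ lawM v s σ := by unfold lawM; positivity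
    have h1 : ∑ A ∈ K.powerset, (if A = ∅ then (lawM : Pos n k m → Sgn k m → Asg n → ℝ)
        else fun _ _ _ => 0) v s σ = lawM v s σ := by
      rw [sum_eq_single_of_mem ∅ (empty_mem_powerset K)]
      · simp
      · intro A _ hA
        simp [hA]
    rw [h1]
    have h2 : (1 : ℝ) ≤ 4 ^ K.card := one_le_pow₀ (by norm_num)
    nlinarith

/-- the masked pattern -/
noncomputable def DomL_msk (A : Finset (Fin m)) (e : Fin m) (p : Fin k → Bool) : Fin k → Bool :=
  fun j => if j ∈ Hf k (decide (e ∈ A)) then p j else false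

/-- the symmetrised set of solutions -/
noncomputable def DomL_W (K A : Finset (Fin m)) (R : Fin m → (Fin k → Bool) → Bool)
    (v : Pos n k m) (s : Sgn k m) : Finset (Asg n) :=
  univ.filter (fun σ => (∀ e, e ∉ K → ¬ Viol (v e, s e) σ) ∧
    ∀ e ∈ K, R e (DomL_msk A e (fun j => σ (v e j))) = true)

/-- the symmetric weight -/
noncomputable def DomL_w (K A : Finset (Fin m)) (v : Pos n k m) (s : Sgn k m) (σ : Asg n) : ℝ :=
  (∑ R : Fin m → (Fin k → Bool) → Bool,
    (if σ ∈ DomL_W K A R v s then 1 / ((DomL_W K A R v s).card : ℝ) else 0)) /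
    (Fintype.card (Fin m → (Fin k → Bool) → Bool) : ℝ)

theorem DomL_card_pos :
    0 < (Fintype.card (Fin m → (Fin k → Bool) → Bool) : ℝ) := by
  exact_mod_cast Fintype.card_pos

theorem DomL_W_congr (K A : Finset (Fin m)) (R : Fin m → (Fin k → Bool) → Bool)
    (v v' : Pos n k m) (s s' : Sgn k m)
    (h1 : ∀ e, e ∉ K → v e = v' e ∧ s e = s' e)
    (h2 : ∀ e ∈ K, ∀ j ∈ Hf k (decide (e ∈ A)), v e j = v' e j) :
    DomL_W K A R v s = DomL_W K A R v' s' := by
  ext σ
  simp only [DomL_W, mem_filter, mem_univ, true_and]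
  refine and_congr ?_ ?_
  · refine forall_congr' fun e => ?_
    refine imp_congr_right fun he => ?_
    rw [(h1 e he).1, (h1 e he).2]
  · refine forall_congr' fun e => ?_
    refine imp_congr_right fun he => ?_
    have h3 : DomL_msk A e (fun j => σ (v e j)) = DomL_msk A e (fun j => σ (v' e j)) := by
      funext j
      unfold DomL_msk
      by_cases hj : j ∈ Hf k (decide (e ∈ A))
      · rw [if_pos hj, if_pos hj]
        exact congrArg σ (h2 e he j hj)
      · rw [if_neg hj, if_neg hj]
    rw [h3]

theorem DomL_symW (K A : Finset (Fin m)) :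
    SymW K A (DomL_w (n := n) (k := k) K A) := by
  refine ⟨fun v s σ => ?_, fun v s => ?_, fun v v' s s' σ h1 h2 => ?_⟩
  · unfold DomL_w
    refine div_nonneg (sum_nonneg fun R _ => ?_) DomL_card_pos.le
    split_ifs <;> positivity
  · unfold DomL_w
    rw [← sum_div, div_le_one DomL_card_pos, sum_comm]
    have h1 : ∀ R ∈ (univ : Finset (Fin m → (Fin k → Bool) → Bool)),
        ∑ σ : Asg n, (if σ ∈ DomL_W K A R v s then 1 / ((DomL_W K A R v s).card : ℝ) else 0)
          ≤ 1 := by
      intro R _
      rw [← sum_filter, sum_const, nsmul_eq_mul]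
      have h2 : (univ.filter fun σ => σ ∈ DomL_W K A R v s) = DomL_W K A R v s := by
        ext σ; simp
      rw [h2]
      rcases Nat.eq_zero_or_pos (DomL_W K A R v s).card with h0 | h0
      · rw [h0]; simp
      · rw [mul_one_div, div_self (by exact_mod_cast h0.ne')]
    have h3 := sum_le_card_nsmul _ _ _ h1
    rw [nsmul_eq_mul, mul_one, card_univ] at h3
    exact h3
  · unfold DomL_w
    simp only [DomL_W_congr K A _ v v' s s' h1 h2]

theorem DomL_W_sub (K A : Finset (Fin m)) (R : Fin m → (Fin k → Bool) → Bool)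
    (v : Pos n k m) (s : Sgn k m) (hR : ∀ e ∈ K, R e (DomL_msk A e (s e)) = false) :
    DomL_W K A R v s ⊆ SolF (mkF v s) := by
  intro σ hσ
  simp only [DomL_W, mem_filter, mem_univ, true_and] at hσ
  simp only [SolF, mem_filter, mem_univ, true_and]
  intro e
  by_cases he : e ∈ K
  · intro hv
    have h1 : (fun j => σ (v e j)) = s e := funext fun j => hv j
    have h2 := hσ.2 e he
    rw [h1, hR e he] at h2
    exact Bool.noConfusion h2
  · exact hσ.1 e he

/-- SIGN TRICK WITH HALVES.
PROOF. For `A ⊆ K` and a pattern `p : Fin k → Bool` of clause `e` let `msk A e p j = p j` if `j ∈ Hf k (decide (e ∈ A))`, `false`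
otherwise. For a colouring `R : Fin m → (Fin k → Bool) → Bool` let
`W A R v s = {σ | (∀ e ∉ K, ¬ Viol (v e, s e) σ) ∧ ∀ e ∈ K, R e (msk A e (fun j => σ (v e j))) = true}` and
`w A v s σ = (∑_R (if σ ∈ W A R v s then 1 / |W A R v s| else 0)) / (number of R)`. `W A R v s` does not depend on `s` on `K` and on the
slots of `K` outside the halves, and `∑_σ w A v s σ ≤ 1`: `SymW`.
Domination: let `σ ∈ SolF (mkF v s)` and `A = {e ∈ K | σ (v e j) ≠ s e j for some j in the half Hf k true}`. For `e ∈ K` the two
masked patterns `x e = msk A e (s e)`, `y e = msk A e (σ ∘ v e)` are different (`e ∉ A`: there is a slot with `σ (v e j) ≠ s e j`, it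
is not in the half `Hf k true`, so in `Hf k false`). By `KSat.card_colour` (Pool/Agent/W_MP_bd7f91_h12/SignB.lean) the fraction
`4^(-|K|)` of all `R` satisfies `R e (x e) = false`, `R e (y e) = true` for `e ∈ K`. For such `R`, `σ ∈ W A R v s` and
`W A R v s ⊆ SolF (mkF v s)` (colour `true` implies that the masked pattern is not `x e`, so the clause is satisfied), so
`1 / |SolF| ≤ 1 / |W|`. Hence `lawU v s σ ≤ 4^|K| w A v s σ`. -/
theorem dom_U : Dom (lawU : Pos n k m → Sgn k m → Asg n → ℝ) := by
  refine ⟨fun v s σ => by unfold lawU; split_ifs <;> positivity, fun K => ?_⟩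
  refine ⟨fun A => DomL_w K A, fun A => DomL_symW K A, fun v s σ => ?_⟩
  have hnn : ∀ A : Finset (Fin m), 0 ≤ DomL_w K A v s σ := fun A => (DomL_symW K A).nonneg v s σ
  unfold lawU
  by_cases hσ : σ ∈ SolF (mkF v s)
  swap
  · rw [if_neg hσ]
    exact mul_nonneg (by positivity) (sum_nonneg fun A _ => hnn A)
  rw [if_pos hσ]
  set A : Finset (Fin m) := K.filter (fun e => ∃ j ∈ Hf k true, σ (v e j) ≠ s e j) with hA
  have hAK : A ∈ K.powerset := mem_powerset.2 (filter_subset _ _)
  have hsingle : DomL_w K A v s σ ≤ ∑ B ∈ K.powerset, DomL_w K B v s σ :=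
    single_le_sum (f := fun B => DomL_w K B v s σ) (fun B _ => hnn B) hAK
  refine le_trans ?_ (mul_le_mul_of_nonneg_left hsingle (by positivity))
  -- the two patterns
  have hsol : ∀ e, ¬ Viol (v e, s e) σ := by
    have h := hσ
    simp only [SolF, mem_filter, mem_univ, true_and] at h
    exact h
  have hxy : ∀ e ∈ K, DomL_msk A e (s e) ≠ DomL_msk A e (fun j => σ (v e j)) := by
    intro e he hcon
    by_cases heA : e ∈ A
    · obtain ⟨j, hj, hne⟩ := (mem_filter.1 heA).2
      have h1 := congrFun hcon j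
      unfold DomL_msk at h1
      rw [decide_eq_true heA, if_pos hj, if_pos hj] at h1
      exact hne h1.symm
    · have h2 : ∀ j ∈ Hf k true, σ (v e j) = s e j := by
        intro j hj
        by_contra hne
        exact heA (mem_filter.2 ⟨he, j, hj, hne⟩)
      refine hsol e fun j => ?_
      by_cases hj : j ∈ Hf k true
      · exact h2 j hj
      · have hj' : j ∈ Hf k false := by
          simp only [Hf, if_true, mem_filter, mem_univ, true_and, not_lt] at hj
          simp only [Hf, Bool.false_eq_true, if_false, mem_filter, mem_univ, true_and]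
          exact hj
        have h1 := congrFun hcon j
        unfold DomL_msk at h1
        rw [decide_eq_false heA, if_pos hj', if_pos hj'] at h1
        exact h1.symm
  have hcol := KSat.card_colour K (fun e => DomL_msk A e (s e))
    (fun e => DomL_msk A e (fun j => σ (v e j))) hxy
  set NR : ℝ := (Fintype.card (Fin m → (Fin k → Bool) → Bool) : ℝ) with hNR
  have hNR0 : 0 < NR := DomL_card_pos
  set Cs := (univ.filter (fun R : Fin m → (Fin k → Bool) → Bool =>
      ∀ i ∈ K, R i (DomL_msk A i (s i)) = false ∧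
        R i (DomL_msk A i (fun j => σ (v i j))) = true)) with hCs
  have hcolR : (Cs.card : ℝ) * 4 ^ K.card = NR := by
    rw [hNR, ← hcol]
    push_cast
    rfl
  have hSol0 : 0 < ((SolF (mkF v s)).card : ℝ) := by
    exact_mod_cast card_pos.2 ⟨σ, hσ⟩
  have hlow : (Cs.card : ℝ) * (1 / ((SolF (mkF v s)).card : ℝ)) ≤
      ∑ R : Fin m → (Fin k → Bool) → Bool,
        (if σ ∈ DomL_W K A R v s then 1 / ((DomL_W K A R v s).card : ℝ) else 0) := by
    have h1 : ∑ R ∈ Cs, (1 / ((SolF (mkF v s)).card : ℝ)) ≤ ∑ R ∈ Cs,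
        (if σ ∈ DomL_W K A R v s then 1 / ((DomL_W K A R v s).card : ℝ) else 0) := by
      refine sum_le_sum fun R hR => ?_
      have hR' := (mem_filter.1 hR).2
      have hmem : σ ∈ DomL_W K A R v s := by
        simp only [DomL_W, mem_filter, mem_univ, true_and]
        exact ⟨fun e _ => hsol e, fun e he => (hR' e he).2⟩
      rw [if_pos hmem]
      refine one_div_le_one_div_of_le ?_ ?_
      · exact_mod_cast card_pos.2 ⟨σ, hmem⟩
      · exact_mod_cast card_le_card (DomL_W_sub K A R v s fun e he => (hR' e he).1)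
    rw [sum_const, nsmul_eq_mul] at h1
    refine le_trans h1 (sum_le_sum_of_subset_of_nonneg (subset_univ _) fun R _ _ => ?_)
    split_ifs <;> positivity
  unfold DomL_w
  rw [← hNR, mul_div_assoc', le_div_iff₀ hNR0, ← hcolR]
  calc 1 / ((SolF (mkF v s)).card : ℝ) * ((Cs.card : ℝ) * 4 ^ K.card)
      = 4 ^ K.card * ((Cs.card : ℝ) * (1 / ((SolF (mkF v s)).card : ℝ))) := by ring
    _ ≤ _ := mul_le_mul_of_nonneg_left hlow (by positivity)

end GC
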