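import Pool.Agent.W_bd7f91F_h12.FMb

/-! # Union bounds over the sets `H`, `K`, `X` -/

set_option autoImplicit false

open Finset
open scoped Classical

namespace GC

variable {n k m : ℕ}

theorem E4s_nbd_nonneg (n k q h r x : ℕ) (g : ℝ) (hg1 : g ≤ 1) : 0 ≤ nbd n k q h r x g := by
  unfold nbd
  have h1 : 0 ≤ 1 - g / 2 := by linarith
  positivity

theorem E4s_cnt (K : Finset (Fin m)) (ψ : ℕ → ℝ) :
    ∑ X : Finset (Fin m), (if X ⊆ K then ψ X.card else 0) =
      ∑ x ∈ range (K.card + 1), ((K.card).choose x : ℝ) * ψ x := by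
  rw [← Finset.sum_filter]
  have h : (univ : Finset (Finset (Fin m))).filter (fun X => X ⊆ K) = K.powerset := by
    ext X
    simp
  rw [h, Finset.sum_powerset_apply_card]
  refine Finset.sum_congr rfl fun x _ => ?_
  rw [nsmul_eq_mul]

theorem E4s_cnt_le (K : Finset (Fin m)) (ψ : ℕ → ℝ) (hψ : ∀ x, 0 ≤ ψ x) :
    ∑ X : Finset (Fin m), (if X ⊆ K then ψ X.card else 0) ≤
      ∑ x ∈ range (K.card + 1), 2 ^ K.card * ψ x := by
  rw [E4s_cnt]
  refine Finset.sum_le_sum fun x _ => ?_
  refine mul_le_mul_of_nonneg_right ?_ (hψ x)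
  exact_mod_cast Nat.choose_le_two_pow _ _

theorem E4s_cntl (l : ℕ) (ψ : ℕ → ℝ) (hψ : ∀ x, 0 ≤ ψ x) :
    ∑ X : Finset (Fin m), (if X.card ≤ l then ψ X.card else 0) ≤
      ∑ x ∈ range (l + 1), (m.choose x : ℝ) * ψ x := by
  have h1 := E4s_cnt (m := m) univ (fun x => if x ≤ l then ψ x else 0)
  have h2 : ∑ X : Finset (Fin m), (if X ⊆ (univ : Finset (Fin m)) then
      (fun x => if x ≤ l then ψ x else 0) X.card else 0) =
      ∑ X : Finset (Fin m), (if X.card ≤ l then ψ X.card else 0) := by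
    refine Finset.sum_congr rfl fun X _ => ?_
    rw [if_pos (subset_univ X)]
  rw [← h2, h1, Finset.card_univ, Fintype.card_fin]
  have h3 : ∑ x ∈ range (m + 1), (m.choose x : ℝ) * (if x ≤ l then ψ x else 0) =
      ∑ x ∈ (range (m + 1)).filter (fun x => x ≤ l), (m.choose x : ℝ) * ψ x := by
    rw [Finset.sum_filter]
    refine Finset.sum_congr rfl fun x _ => ?_
    split_ifs <;> simp
  rw [h3]
  refine Finset.sum_le_sum_of_subset_of_nonneg ?_ ?_
  · intro x hx
    rw [mem_filter] at hx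
    rw [mem_range]
    omega
  · intro x _ _
    exact mul_nonneg (Nat.cast_nonneg _) (hψ x)

/-- exchange of sums -/
theorem E4s_exch {ι : Type} [Fintype ι] (μ : Pos n k m → Sgn k m → Asg n → ℝ) (a : ι → ℝ)
    (c : Pos n k m → Sgn k m → Asg n → ι → ℝ) :
    ∑ v : Pos n k m, ∑ s : Sgn k m, ∑ σ : Asg n, μ v s σ * ∑ i, a i * c v s σ i =
      ∑ i, a i * ∑ v : Pos n k m, ∑ s : Sgn k m, ∑ σ : Asg n, μ v s σ * c v s σ i := by
  calc ∑ v : Pos n k m, ∑ s : Sgn k m, ∑ σ : Asg n, μ v s σ * ∑ i, a i * c v s σ i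
      = ∑ v : Pos n k m, ∑ s : Sgn k m, ∑ σ : Asg n, ∑ i, a i * (μ v s σ * c v s σ i) := by
        refine Finset.sum_congr rfl fun v _ => Finset.sum_congr rfl fun s _ =>
          Finset.sum_congr rfl fun σ _ => ?_
        rw [Finset.mul_sum]
        refine Finset.sum_congr rfl fun i _ => ?_
        ring
    _ = ∑ v : Pos n k m, ∑ s : Sgn k m, ∑ i, ∑ σ : Asg n, a i * (μ v s σ * c v s σ i) := by
        refine Finset.sum_congr rfl fun v _ => Finset.sum_congr rfl fun s _ => ?_
        rw [Finset.sum_comm]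
    _ = ∑ v : Pos n k m, ∑ i, ∑ s : Sgn k m, ∑ σ : Asg n, a i * (μ v s σ * c v s σ i) := by
        refine Finset.sum_congr rfl fun v _ => ?_
        rw [Finset.sum_comm]
    _ = ∑ i, ∑ v : Pos n k m, ∑ s : Sgn k m, ∑ σ : Asg n, a i * (μ v s σ * c v s σ i) := by
        rw [Finset.sum_comm]
    _ = _ := by
        refine Finset.sum_congr rfl fun i _ => ?_
        simp only [Finset.mul_sum]

theorem E4s_count3 (l : ℕ) (φ : ℕ → ℕ → ℕ → ℝ) (hφ : ∀ h r x, 0 ≤ φ h r x) :
    ∑ H : Finset (Fin m), (if H.card ≤ l then ∑ K : Finset (Fin m), (if K ⊆ H then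
      ∑ X : Finset (Fin m), (if X ⊆ K then φ H.card K.card X.card else 0) else 0) else 0) ≤
      ∑ h ∈ range (l + 1), ∑ r ∈ range (h + 1), ∑ x ∈ range (r + 1),
        (m.choose h : ℝ) * 4 ^ h * φ h r x := by
  have h1 : ∀ H : Finset (Fin m), ∑ K : Finset (Fin m), (if K ⊆ H then
      ∑ X : Finset (Fin m), (if X ⊆ K then φ H.card K.card X.card else 0) else 0) ≤
      ∑ r ∈ range (H.card + 1), ∑ x ∈ range (r + 1), 4 ^ H.card * φ H.card r x := by
    intro H
    calc ∑ K : Finset (Fin m), (if K ⊆ H then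
          ∑ X : Finset (Fin m), (if X ⊆ K then φ H.card K.card X.card else 0) else 0)
        ≤ ∑ K : Finset (Fin m), (if K ⊆ H then
          (fun r => ∑ x ∈ range (r + 1), 2 ^ H.card * φ H.card r x) K.card else 0) := by
          refine Finset.sum_le_sum fun K _ => ?_
          by_cases hK : K ⊆ H
          · rw [if_pos hK, if_pos hK]
            refine (E4s_cnt_le K (fun x => φ H.card K.card x) (fun x => hφ _ _ x)).trans ?_
            refine Finset.sum_le_sum fun x _ => ?_
            refine mul_le_mul_of_nonneg_right ?_ (hφ _ _ x)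
            exact pow_le_pow_right₀ (by norm_num) (card_le_card hK)
          · rw [if_neg hK, if_neg hK]
      _ ≤ ∑ r ∈ range (H.card + 1), 2 ^ H.card *
          (fun r => ∑ x ∈ range (r + 1), 2 ^ H.card * φ H.card r x) r := by
          refine E4s_cnt_le H (fun r => ∑ x ∈ range (r + 1), 2 ^ H.card * φ H.card r x)
            fun r => ?_
          exact Finset.sum_nonneg fun x _ => mul_nonneg (by positivity) (hφ _ _ x)
      _ = ∑ r ∈ range (H.card + 1), ∑ x ∈ range (r + 1), 4 ^ H.card * φ H.card r x := by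
          refine Finset.sum_congr rfl fun r _ => ?_
          show 2 ^ H.card * (∑ x ∈ range (r + 1), 2 ^ H.card * φ H.card r x) = _
          rw [Finset.mul_sum]
          refine Finset.sum_congr rfl fun x _ => ?_
          rw [← mul_assoc, ← mul_pow]
          norm_num
  calc ∑ H : Finset (Fin m), (if H.card ≤ l then ∑ K : Finset (Fin m), (if K ⊆ H then
        ∑ X : Finset (Fin m), (if X ⊆ K then φ H.card K.card X.card else 0) else 0) else 0)
      ≤ ∑ H : Finset (Fin m), (if H.card ≤ l then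
        (fun h => ∑ r ∈ range (h + 1), ∑ x ∈ range (r + 1), 4 ^ h * φ h r x) H.card else 0) := by
        refine Finset.sum_le_sum fun H _ => ?_
        split_ifs
        · exact h1 H
        · exact le_rfl
    _ ≤ ∑ h ∈ range (l + 1), (m.choose h : ℝ) *
        (fun h => ∑ r ∈ range (h + 1), ∑ x ∈ range (r + 1), 4 ^ h * φ h r x) h := by
        refine E4s_cntl l (fun h => ∑ r ∈ range (h + 1), ∑ x ∈ range (r + 1),
          4 ^ h * φ h r x) fun h => ?_
        exact Finset.sum_nonneg fun r _ => Finset.sum_nonneg fun x _ =>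
          mul_nonneg (by positivity) (hφ _ _ x)
    _ = _ := by
        refine Finset.sum_congr rfl fun h _ => ?_
        show (m.choose h : ℝ) * (∑ r ∈ range (h + 1), ∑ x ∈ range (r + 1), 4 ^ h * φ h r x) = _
        rw [Finset.mul_sum]
        refine Finset.sum_congr rfl fun r _ => ?_
        rw [Finset.mul_sum]
        refine Finset.sum_congr rfl fun x _ => ?_
        ring

theorem E4s_count2 (l : ℕ) (φ : ℕ → ℕ → ℝ) (hφ : ∀ r x, 0 ≤ φ r x) :
    ∑ K : Finset (Fin m), (if K.card ≤ l then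
      ∑ X : Finset (Fin m), (if X ⊆ K then φ K.card X.card else 0) else 0) ≤
      ∑ r ∈ range (l + 1), ∑ x ∈ range (r + 1), (m.choose r : ℝ) * 2 ^ r * φ r x := by
  calc ∑ K : Finset (Fin m), (if K.card ≤ l then
        ∑ X : Finset (Fin m), (if X ⊆ K then φ K.card X.card else 0) else 0)
      ≤ ∑ K : Finset (Fin m), (if K.card ≤ l then
        (fun r => ∑ x ∈ range (r + 1), 2 ^ r * φ r x) K.card else 0) := by
        refine Finset.sum_le_sum fun K _ => ?_
        split_ifs
        · exact E4s_cnt_le K (fun x => φ K.card x) (fun x => hφ _ x)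
        · exact le_rfl
    _ ≤ ∑ r ∈ range (l + 1), (m.choose r : ℝ) *
        (fun r => ∑ x ∈ range (r + 1), 2 ^ r * φ r x) r := by
        refine E4s_cntl l (fun r => ∑ x ∈ range (r + 1), 2 ^ r * φ r x) fun h => ?_
        exact Finset.sum_nonneg fun x _ => mul_nonneg (by positivity) (hφ _ x)
    _ = _ := by
        refine Finset.sum_congr rfl fun r _ => ?_
        show (m.choose r : ℝ) * (∑ x ∈ range (r + 1), 2 ^ r * φ r x) = _
        rw [Finset.mul_sum]
        refine Finset.sum_congr rfl fun x _ => ?_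
        ring

/-- UNION BOUND FOR EVENT E4.
PROOF. If `NoWit` fails take a witness `z, H, K` and `X = K.filter (Bad ..)`; then `z : Fin 1 → Fin n` is counted in
`#{z | Rooted v (univ.image z) H ∧ EvK (mkF v s) (etat t σ) l b K X}`. So the indicator is at most the sum of these numbers over all
`(H, K, X)`, `X ⊆ K ⊆ H`, `|H| ≤ l`, `c2 ≤ |K| ≤ 8 |X|`, `|H \ K| ≤ c1`. Apply `fm` with `q = 1`,
`N = |X| (k / 2) - 2 |H| - |X|`: `|H| ≤ |K| + c1 ≤ 2 |K| ≤ 16 |X|` and `k / 2 ≥ 33`, so `N + 2 |H| + |X| ≤ |X| (k / 2)`.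
There are at most `C(m, h) 2^h 2^h` triples with `|H| = h` (for each pair of sizes `r`, `x`). -/
theorem e4_sum (hn : 0 < n) (hk : 66 ≤ k) (μ : Pos n k m → Sgn k m → Asg n → ℝ) (hμ : Dom μ)
    (t l b c1 c2 : ℕ) (g : ℝ) (hg0 : 0 ≤ g) (hg1 : g ≤ 1) (hb : g * n ≤ b) (hc : c1 ≤ c2) :
    ∑ v : Pos n k m, ∑ s : Sgn k m, ∑ σ : Asg n, μ v s σ *
      (if Inj v ∧ E1 v l ∧ Glob (mkF v s) (etat t σ) l b ∧
        ¬ NoWit (mkF v s) (fin (mkF v s) (etat t σ)) l c1 c2 then (1 : ℝ) else 0) ≤
      sumE4 n k m l c1 c2 g * ((n : ℝ) ^ (k * m) * 2 ^ (k * m)) := by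
  set M : ℝ := (n : ℝ) ^ (k * m) * 2 ^ (k * m) with hM
  have hM0 : 0 ≤ M := by positivity
  -- the coefficients
  set a : Finset (Fin m) × Finset (Fin m) × Finset (Fin m) → ℝ := fun τ =>
    if τ.1.card ≤ l ∧ τ.2.1 ⊆ τ.1 ∧ τ.2.2 ⊆ τ.2.1 ∧
      (c2 ≤ τ.2.1.card ∧ τ.2.1.card ≤ 8 * τ.2.2.card ∧ τ.1.card ≤ τ.2.1.card + c1)
      then 1 else 0 with ha
  set c : Pos n k m → Sgn k m → Asg n →
      Finset (Fin m) × Finset (Fin m) × Finset (Fin m) → ℝ := fun v s σ τ =>
    ((univ.filter (fun z : Fin 1 → Fin n => Rooted v (univ.image z) τ.1 ∧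
        EvK (mkF v s) (etat t σ) l b τ.2.1 τ.2.2)).card : ℝ) with hcdef
  have ha0 : ∀ τ, 0 ≤ a τ := by
    intro τ
    rw [ha]
    dsimp only
    split_ifs
    · exact zero_le_one
    · exact le_rfl
  have hc0 : ∀ v s σ τ, 0 ≤ c v s σ τ := fun v s σ τ => Nat.cast_nonneg _
  have hpt : ∀ v s σ, (if Inj v ∧ E1 v l ∧ Glob (mkF v s) (etat t σ) l b ∧
        ¬ NoWit (mkF v s) (fin (mkF v s) (etat t σ)) l c1 c2 then (1 : ℝ) else 0) ≤
        ∑ τ, a τ * c v s σ τ := by
    intro v s σ
    split_ifs with hcond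
    · obtain ⟨h1, h2, h3, h4⟩ := hcond
      unfold NoWit at h4
      push Not at h4
      obtain ⟨z, H, K, hw⟩ := h4
      set X := K.filter (Bad (mkF v s) (fin (mkF v s) (etat t σ))) with hX
      have hXK : X ⊆ K := filter_subset _ _
      have hcard : H.card ≤ K.card + c1 := by
        have h5 := hw.diff
        have h6 := Finset.card_sdiff_add_card_eq_card hw.sub
        omega
      have hev : EvK (mkF v s) (etat t σ) l b K X :=
        ⟨h1, h2, h3, hw.closed, fun e he => (mem_filter.1 he).2⟩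
      have hrt : Rooted v (univ.image (fun _ : Fin 1 => z)) H := by
        have h7 : (univ.image (fun _ : Fin 1 => z)) = {z} := by
          ext y
          simp [eq_comm]
        rw [h7]
        exact hw.rooted
      have hmem : (fun _ : Fin 1 => z) ∈ univ.filter (fun z : Fin 1 → Fin n =>
          Rooted v (univ.image z) H ∧ EvK (mkF v s) (etat t σ) l b K X) :=
        mem_filter.2 ⟨mem_univ _, hrt, hev⟩
      have h8 : (1 : ℝ) ≤ c v s σ (H, K, X) := by
        rw [hcdef]
        dsimp only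
        exact_mod_cast Finset.card_pos.2 ⟨_, hmem⟩
      have h9 : a (H, K, X) = 1 := by
        rw [ha]
        dsimp only
        rw [if_pos]
        exact ⟨hw.cardH, hw.sub, hXK, hw.lo, hw.hi, hcard⟩
      calc (1 : ℝ) ≤ a (H, K, X) * c v s σ (H, K, X) := by rw [h9, one_mul]; exact h8
        _ ≤ ∑ τ, a τ * c v s σ τ :=
          Finset.single_le_sum (f := fun τ => a τ * c v s σ τ)
            (fun τ _ => mul_nonneg (ha0 τ) (hc0 v s σ τ)) (mem_univ (H, K, X))
    · exact Finset.sum_nonneg fun τ _ => mul_nonneg (ha0 τ) (hc0 v s σ τ)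
  have hfm : ∀ τ, a τ * ∑ v : Pos n k m, ∑ s : Sgn k m, ∑ σ : Asg n, μ v s σ * c v s σ τ ≤
      a τ * (nbd n k 1 τ.1.card τ.2.1.card τ.2.2.card g * M) := by
    intro τ
    by_cases hτ : τ.1.card ≤ l ∧ τ.2.1 ⊆ τ.1 ∧ τ.2.2 ⊆ τ.2.1 ∧
      (c2 ≤ τ.2.1.card ∧ τ.2.1.card ≤ 8 * τ.2.2.card ∧ τ.1.card ≤ τ.2.1.card + c1)
    · refine mul_le_mul_of_nonneg_left ?_ (ha0 τ)
      obtain ⟨h1, h2, h3, h4, h5, h6⟩ := hτ
      have hk2 : 33 ≤ k / 2 := by omega
      have h7 : 2 * τ.1.card + τ.2.2.card ≤ τ.2.2.card * (k / 2) := by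
        calc 2 * τ.1.card + τ.2.2.card ≤ τ.2.2.card * 33 := by omega
          _ ≤ τ.2.2.card * (k / 2) := Nat.mul_le_mul_left _ hk2
      have h8 := fm (q := 1) hn (by omega) μ hμ τ.2.1 τ.2.2 τ.1 t l b g hg0 hg1 hb h3 h2 h1 h5
        (τ.2.2.card * (k / 2) - 2 * τ.1.card - τ.2.2.card) (by omega)
      exact h8
    · have h0 : a τ = 0 := by
        rw [ha]
        dsimp only
        rw [if_neg hτ]
      rw [h0, zero_mul, zero_mul]
  calc ∑ v : Pos n k m, ∑ s : Sgn k m, ∑ σ : Asg n, μ v s σ *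
      (if Inj v ∧ E1 v l ∧ Glob (mkF v s) (etat t σ) l b ∧
        ¬ NoWit (mkF v s) (fin (mkF v s) (etat t σ)) l c1 c2 then (1 : ℝ) else 0)
      ≤ ∑ v : Pos n k m, ∑ s : Sgn k m, ∑ σ : Asg n, μ v s σ * ∑ τ, a τ * c v s σ τ := by
        refine Finset.sum_le_sum fun v _ => Finset.sum_le_sum fun s _ =>
          Finset.sum_le_sum fun σ _ => ?_
        exact mul_le_mul_of_nonneg_left (hpt v s σ) (hμ.1 v s σ)
    _ = ∑ τ, a τ * ∑ v : Pos n k m, ∑ s : Sgn k m, ∑ σ : Asg n, μ v s σ * c v s σ τ :=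
        E4s_exch μ a c
    _ ≤ ∑ τ, a τ * (nbd n k 1 τ.1.card τ.2.1.card τ.2.2.card g * M) :=
        Finset.sum_le_sum fun τ _ => hfm τ
    _ = (∑ τ, a τ * nbd n k 1 τ.1.card τ.2.1.card τ.2.2.card g) * M := by
        rw [Finset.sum_mul]
        refine Finset.sum_congr rfl fun τ _ => ?_
        ring
    _ ≤ sumE4 n k m l c1 c2 g * M := by
        refine mul_le_mul_of_nonneg_right ?_ hM0
        rw [Fintype.sum_prod_type]
        have h1 := E4s_count3 (m := m) l (fun h r x => if c2 ≤ r ∧ r ≤ 8 * x ∧ h ≤ r + c1 then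
          nbd n k 1 h r x g else 0) (by
            intro h r x
            split_ifs
            · exact E4s_nbd_nonneg _ _ _ _ _ _ _ hg1
            · exact le_rfl)
        refine le_trans (le_of_eq ?_) (h1.trans (le_of_eq ?_))
        · refine Finset.sum_congr rfl fun H _ => ?_
          rw [Fintype.sum_prod_type]
          by_cases hH : H.card ≤ l
          · rw [if_pos hH]
            refine Finset.sum_congr rfl fun K _ => ?_
            by_cases hK : K ⊆ H
            · rw [if_pos hK]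
              refine Finset.sum_congr rfl fun X _ => ?_
              rw [ha]
              dsimp only
              by_cases hX : X ⊆ K
              · rw [if_pos hX]
                by_cases h2 : c2 ≤ K.card ∧ K.card ≤ 8 * X.card ∧ H.card ≤ K.card + c1
                · rw [if_pos h2, if_pos ⟨hH, hK, hX, h2⟩, one_mul]
                · rw [if_neg h2, if_neg (fun h3 => h2 h3.2.2.2), zero_mul]
              · rw [if_neg hX, if_neg (fun h3 => hX h3.2.2.1), zero_mul]
            · rw [if_neg hK]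
              refine Finset.sum_eq_zero fun X _ => ?_
              rw [ha]
              dsimp only
              rw [if_neg (fun h3 => hK h3.2.1), zero_mul]
          · rw [if_neg hH]
            refine Finset.sum_eq_zero fun K _ => Finset.sum_eq_zero fun X _ => ?_
            rw [ha]
            dsimp only
            rw [if_neg (fun h3 => hH h3.1), zero_mul]
        · unfold sumE4
          refine Finset.sum_congr rfl fun h _ => Finset.sum_congr rfl fun r _ =>
            Finset.sum_congr rfl fun x _ => ?_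
          split_ifs
          · rfl
          · rw [mul_zero]

/-- UNION BOUND FOR THE SIZE OF THE CLOSURE.
PROOF. As `e4_sum`, with `H = K`, `X = K.filter (Bad ..)`, `q` roots; at most `C(m, r) 2^r` pairs `(K, X)` with `|K| = r`. -/
theorem wt_sum (hn : 0 < n) (hk : 66 ≤ k) (μ : Pos n k m → Sgn k m → Asg n → ℝ) (hμ : Dom μ)
    (t l b q : ℕ) (g : ℝ) (hg0 : 0 ≤ g) (hg1 : g ≤ 1) (hb : g * n ≤ b) :
    ∑ v : Pos n k m, ∑ s : Sgn k m, ∑ σ : Asg n, μ v s σ *
      ((univ.filter (fun z : Fin q → Fin n => ∃ K : Finset (Fin m), Rooted v (univ.image z) K ∧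
        K.card ≤ l ∧ K.card ≤ 8 * (K.filter (Bad (mkF v s) (fin (mkF v s) (etat t σ)))).card ∧
        q ≤ (K.filter (Bad (mkF v s) (fin (mkF v s) (etat t σ)))).card ∧
        EvK (mkF v s) (etat t σ) l b K
          (K.filter (Bad (mkF v s) (fin (mkF v s) (etat t σ)))))).card : ℝ) ≤
      sumWT n k m l q g * ((n : ℝ) ^ (k * m) * 2 ^ (k * m)) := by
  set M : ℝ := (n : ℝ) ^ (k * m) * 2 ^ (k * m) with hM
  have hM0 : 0 ≤ M := by positivity
  set a : Finset (Fin m) × Finset (Fin m) → ℝ := fun τ =>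
    if τ.1.card ≤ l ∧ τ.2 ⊆ τ.1 ∧ (q ≤ τ.2.card ∧ τ.1.card ≤ 8 * τ.2.card)
      then 1 else 0 with ha
  set c : Pos n k m → Sgn k m → Asg n → Finset (Fin m) × Finset (Fin m) → ℝ := fun v s σ τ =>
    ((univ.filter (fun z : Fin q → Fin n => Rooted v (univ.image z) τ.1 ∧
        EvK (mkF v s) (etat t σ) l b τ.1 τ.2)).card : ℝ) with hcdef
  have ha0 : ∀ τ, 0 ≤ a τ := by
    intro τ
    rw [ha]
    dsimp only
    split_ifs
    · exact zero_le_one
    · exact le_rfl
  have hc0 : ∀ v s σ τ, 0 ≤ c v s σ τ := fun v s σ τ => Nat.cast_nonneg _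
  have hpt : ∀ v s σ, ((univ.filter (fun z : Fin q → Fin n => ∃ K : Finset (Fin m),
        Rooted v (univ.image z) K ∧
        K.card ≤ l ∧ K.card ≤ 8 * (K.filter (Bad (mkF v s) (fin (mkF v s) (etat t σ)))).card ∧
        q ≤ (K.filter (Bad (mkF v s) (fin (mkF v s) (etat t σ)))).card ∧
        EvK (mkF v s) (etat t σ) l b K
          (K.filter (Bad (mkF v s) (fin (mkF v s) (etat t σ)))))).card : ℝ) ≤
        ∑ τ, a τ * c v s σ τ := by
    intro v s σ
    set I : Finset (Finset (Fin m) × Finset (Fin m)) := univ.filter (fun τ =>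
      τ.1.card ≤ l ∧ τ.2 ⊆ τ.1 ∧ (q ≤ τ.2.card ∧ τ.1.card ≤ 8 * τ.2.card)) with hI
    have h1 : univ.filter (fun z : Fin q → Fin n => ∃ K : Finset (Fin m),
        Rooted v (univ.image z) K ∧
        K.card ≤ l ∧ K.card ≤ 8 * (K.filter (Bad (mkF v s) (fin (mkF v s) (etat t σ)))).card ∧
        q ≤ (K.filter (Bad (mkF v s) (fin (mkF v s) (etat t σ)))).card ∧
        EvK (mkF v s) (etat t σ) l b K
          (K.filter (Bad (mkF v s) (fin (mkF v s) (etat t σ))))) ⊆
        I.biUnion (fun τ => univ.filter (fun z : Fin q → Fin n =>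
          Rooted v (univ.image z) τ.1 ∧ EvK (mkF v s) (etat t σ) l b τ.1 τ.2)) := by
      intro z hz
      obtain ⟨-, K, h1, h2, h3, h4, h5⟩ := mem_filter.1 hz
      refine mem_biUnion.2 ⟨(K, K.filter (Bad (mkF v s) (fin (mkF v s) (etat t σ)))), ?_, ?_⟩
      · exact mem_filter.2 ⟨mem_univ _, h2, filter_subset _ _, h4, h3⟩
      · exact mem_filter.2 ⟨mem_univ _, h1, h5⟩
    have h2 := (card_le_card h1).trans card_biUnion_le
    have h3 : (∑ τ, a τ * c v s σ τ) = ∑ τ ∈ I, c v s σ τ := by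
      rw [hI, Finset.sum_filter]
      refine Finset.sum_congr rfl fun τ _ => ?_
      rw [ha]
      dsimp only
      split_ifs
      · rw [one_mul]
      · rw [zero_mul]
    rw [h3, hcdef]
    dsimp only
    exact_mod_cast h2
  have hfm : ∀ τ, a τ * ∑ v : Pos n k m, ∑ s : Sgn k m, ∑ σ : Asg n, μ v s σ * c v s σ τ ≤
      a τ * (nbd n k q τ.1.card τ.1.card τ.2.card g * M) := by
    intro τ
    by_cases hτ : τ.1.card ≤ l ∧ τ.2 ⊆ τ.1 ∧ (q ≤ τ.2.card ∧ τ.1.card ≤ 8 * τ.2.card)
    · refine mul_le_mul_of_nonneg_left ?_ (ha0 τ)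
      obtain ⟨h1, h2, h3, h4⟩ := hτ
      have hk2 : 33 ≤ k / 2 := by omega
      have h7 : 2 * τ.1.card + τ.2.card ≤ τ.2.card * (k / 2) := by
        calc 2 * τ.1.card + τ.2.card ≤ τ.2.card * 33 := by omega
          _ ≤ τ.2.card * (k / 2) := Nat.mul_le_mul_left _ hk2
      have h8 := fm (q := q) hn (by omega) μ hμ τ.1 τ.2 τ.1 t l b g hg0 hg1 hb h2
        (Finset.Subset.refl _) h1 h4 (τ.2.card * (k / 2) - 2 * τ.1.card - τ.2.card) (by omega)
      exact h8
    · have h0 : a τ = 0 := by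
        rw [ha]
        dsimp only
        rw [if_neg hτ]
      rw [h0, zero_mul, zero_mul]
  calc ∑ v : Pos n k m, ∑ s : Sgn k m, ∑ σ : Asg n, μ v s σ *
      ((univ.filter (fun z : Fin q → Fin n => ∃ K : Finset (Fin m), Rooted v (univ.image z) K ∧
        K.card ≤ l ∧ K.card ≤ 8 * (K.filter (Bad (mkF v s) (fin (mkF v s) (etat t σ)))).card ∧
        q ≤ (K.filter (Bad (mkF v s) (fin (mkF v s) (etat t σ)))).card ∧
        EvK (mkF v s) (etat t σ) l b K
          (K.filter (Bad (mkF v s) (fin (mkF v s) (etat t σ)))))).card : ℝ)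
      ≤ ∑ v : Pos n k m, ∑ s : Sgn k m, ∑ σ : Asg n, μ v s σ * ∑ τ, a τ * c v s σ τ := by
        refine Finset.sum_le_sum fun v _ => Finset.sum_le_sum fun s _ =>
          Finset.sum_le_sum fun σ _ => ?_
        exact mul_le_mul_of_nonneg_left (hpt v s σ) (hμ.1 v s σ)
    _ = ∑ τ, a τ * ∑ v : Pos n k m, ∑ s : Sgn k m, ∑ σ : Asg n, μ v s σ * c v s σ τ :=
        E4s_exch μ a c
    _ ≤ ∑ τ, a τ * (nbd n k q τ.1.card τ.1.card τ.2.card g * M) :=
        Finset.sum_le_sum fun τ _ => hfm τ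
    _ = (∑ τ, a τ * nbd n k q τ.1.card τ.1.card τ.2.card g) * M := by
        rw [Finset.sum_mul]
        refine Finset.sum_congr rfl fun τ _ => ?_
        ring
    _ ≤ sumWT n k m l q g * M := by
        refine mul_le_mul_of_nonneg_right ?_ hM0
        rw [Fintype.sum_prod_type]
        have h1 := E4s_count2 (m := m) l (fun r x => if q ≤ x ∧ r ≤ 8 * x then
          nbd n k q r r x g else 0) (by
            intro r x
            split_ifs
            · exact E4s_nbd_nonneg _ _ _ _ _ _ _ hg1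
            · exact le_rfl)
        refine le_trans (le_of_eq ?_) (h1.trans (le_of_eq ?_))
        · refine Finset.sum_congr rfl fun K _ => ?_
          by_cases hK : K.card ≤ l
          · rw [if_pos hK]
            refine Finset.sum_congr rfl fun X _ => ?_
            rw [ha]
            dsimp only
            by_cases hX : X ⊆ K
            · rw [if_pos hX]
              by_cases h2 : q ≤ X.card ∧ K.card ≤ 8 * X.card
              · rw [if_pos h2, if_pos ⟨hK, hX, h2⟩, one_mul]
              · rw [if_neg h2, if_neg (fun h3 => h2 h3.2.2), zero_mul]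
            · rw [if_neg hX, if_neg (fun h3 => hX h3.2.1), zero_mul]
          · rw [if_neg hK]
            refine Finset.sum_eq_zero fun X _ => ?_
            rw [ha]
            dsimp only
            rw [if_neg (fun h3 => hK h3.1), zero_mul]
        · unfold sumWT
          refine Finset.sum_congr rfl fun r _ => Finset.sum_congr rfl fun x _ => ?_
          split_ifs
          · rfl
          · rw [mul_zero]

end GC
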