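import Pool.Agent.W_bd7f91F_h12.SignCt

/-! # The event implies the condition on the private slots -/

set_option autoImplicit false

open Finset
open scoped Classical

namespace GC

variable {n k m : ℕ}

/-- Few shared slots.
PROOF. `deg u = #{e ∈ K | u ∈ VV v e}` for `u ∈ VS v K`. Clauses have distinct variables, so `∑ deg u = k |K|`, and the number
of shared slots is `∑_{deg u ≥ 2} deg u ≤ ∑ 2 (deg u - 1) = 2 (k |K| - |VS v K|)`. By `E1`
`16 |VS v K| ≥ (16 k - 17) |K|`, so this is at most `(34/16) |K|`. -/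
theorem shr_le (hk : 2 ≤ k) (v : Pos n k m) (K : Finset (Fin m)) (l : ℕ) (hinj : Inj v)
    (hE : E1 v l) (hK : K.card ≤ l) : shr v K ≤ 3 * K.card := by
  obtain ⟨S, hS⟩ : ∃ S : Finset (Fin m × Fin k), S = K ×ˢ (univ : Finset (Fin k)) := ⟨_, rfl⟩
  obtain ⟨T, hT⟩ : ∃ T : Finset (Fin m × Fin k),
    T = S.filter (fun p => v p.1 p.2 ∈ VS v (K.erase p.1)) := ⟨_, rfl⟩
  have hshr : shr v K = T.card := by
    rw [hT, hS]
    rfl
  have hmapS : ∀ p ∈ S, v p.1 p.2 ∈ VS v K := by
    intro p hp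
    rw [hS, mem_product] at hp
    exact mem_biUnion.2 ⟨p.1, hp.1, mem_image_of_mem _ (mem_univ _)⟩
  have hTS : T ⊆ S := hT ▸ filter_subset _ _
  have hScard : S.card = K.card * k := by
    rw [hS, card_product, card_univ, Fintype.card_fin]
  have h1 : S.card = ∑ u ∈ VS v K, (S.filter (fun p => v p.1 p.2 = u)).card :=
    card_eq_sum_card_fiberwise hmapS
  have h2 : T.card = ∑ u ∈ VS v K, (T.filter (fun p => v p.1 p.2 = u)).card :=
    card_eq_sum_card_fiberwise fun p hp => hmapS p (hTS hp)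
  have key : ∀ u ∈ VS v K, (T.filter (fun p => v p.1 p.2 = u)).card + 2 ≤
      2 * (S.filter (fun p => v p.1 p.2 = u)).card := by
    intro u hu
    have hle : (T.filter (fun p => v p.1 p.2 = u)).card ≤
        (S.filter (fun p => v p.1 p.2 = u)).card := card_le_card (filter_subset_filter _ hTS)
    by_cases hem : (T.filter (fun p => v p.1 p.2 = u)).Nonempty
    · obtain ⟨p, hp⟩ := hem
      rw [mem_filter] at hp
      have hpT := hp.1
      rw [hT, mem_filter] at hpT
      obtain ⟨e', he', hue'⟩ := mem_biUnion.1 hpT.2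
      obtain ⟨j', -, hj'⟩ := mem_image.1 hue'
      have hne : e' ≠ p.1 := (mem_erase.1 he').1
      have h3 : 1 < (S.filter (fun p => v p.1 p.2 = u)).card := by
        rw [one_lt_card]
        refine ⟨p, ?_, (e', j'), ?_, ?_⟩
        · rw [mem_filter]
          exact ⟨hpT.1, hp.2⟩
        · rw [mem_filter, hS, mem_product]
          exact ⟨⟨(mem_erase.1 he').2, mem_univ _⟩, hj'.trans hp.2⟩
        · intro h
          exact hne (congrArg Prod.fst h).symm
      omega
    · rw [not_nonempty_iff_eq_empty] at hem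
      rw [hem, card_empty]
      obtain ⟨e, he, hue⟩ := mem_biUnion.1 hu
      obtain ⟨j, -, hj⟩ := mem_image.1 hue
      have h3 : 0 < (S.filter (fun p => v p.1 p.2 = u)).card := by
        rw [card_pos]
        refine ⟨(e, j), ?_⟩
        rw [mem_filter, hS, mem_product]
        exact ⟨⟨he, mem_univ _⟩, hj⟩
      omega
  have h3 := sum_le_sum key
  rw [sum_add_distrib, ← mul_sum, ← h1, ← h2, sum_const, smul_eq_mul, hScard] at h3
  have h4 := hE K hK
  have h5 : (16 * k - 17) * K.card + 17 * K.card = 16 * (K.card * k) := by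
    have h6 : (16 * k - 17) + 17 = 16 * k := by omega
    calc (16 * k - 17) * K.card + 17 * K.card = ((16 * k - 17) + 17) * K.card := by ring
      _ = 16 * (K.card * k) := by rw [h6]; ring
  rw [hshr]
  omega

/-- PROOF. First part: `insp_not_free`. Second part: let `p ∈ P` be not inspected, `y = (Φ p.1).1 p.2 ∈ kfree .. m`.
If `y` is `Good`, `p.2 ∈ gs Φ (fin Φ η) p.1`: at most two such slots for each of the clauses `p.1 ∈ X`.
Otherwise (`silent_crit`) some `e ∈ K` is critical for `y` at the final assignment; `y` is a variable of `e` (`crit_slot`).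
If `e ≠ p.1` then the slot `p` is shared (`y ∈ VV e`, `e ∈ K.erase p.1`). If `e = p.1`: by `crit_slot` there is a true slot `j`
of `e` with variable `y`, by injectivity `j = p.2`; by `KClosed` the slot is shared. So these slots `p` are among the
shared slots of `K`. -/
theorem ev_cond (Φ : Fml n k m) (η : Asg n) (K X : Finset (Fin m)) (r : Fin m → Rl k)
    (P : Finset (Fin m × Fin k)) (hinj : Inj (pos Φ)) (hS : EvS Φ η K r) (hX : X ⊆ K)
    (hbad : ∀ e ∈ X, Bad Φ (fin Φ η) e) (hP : ∀ p ∈ P, p.1 ∈ X ∧ ¬ rsl (r p.1) p.2) :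
    Cond Φ K r η P (2 * X.card + shr (pos Φ) K) := by
  refine ⟨fun p hp hi => insp_not_free Φ K r η hS.1 (hX (hP p hp).1) hi, ?_⟩
  obtain ⟨G, hG⟩ : ∃ G : Finset (Fin m × Fin k),
    G = X.biUnion (fun e => (gs Φ (fin Φ η) e).image (fun j => (e, j))) := ⟨_, rfl⟩
  obtain ⟨T, hT⟩ : ∃ T : Finset (Fin m × Fin k), T = (K ×ˢ (univ : Finset (Fin k))).filter
    (fun p => (pos Φ) p.1 p.2 ∈ VS (pos Φ) (K.erase p.1)) := ⟨_, rfl⟩
  have hsub : P.filter (fun p => ¬ insp (r p.1) p.2 ∧ (Φ p.1).1 p.2 ∈ kfree Φ K r η m) ⊆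
      G ∪ T := by
    intro p hp
    rw [mem_filter] at hp
    obtain ⟨hpP, -, hfree⟩ := hp
    have hpX := (hP p hpP).1
    rw [mem_union]
    by_cases hg : Good Φ (fin Φ η) ((Φ p.1).1 p.2)
    · left
      rw [hG, mem_biUnion]
      refine ⟨p.1, hpX, mem_image.2 ⟨p.2, ?_, rfl⟩⟩
      exact mem_filter.2 ⟨mem_univ _, hg⟩
    · right
      obtain ⟨e, heK, hcr⟩ := silent_crit Φ K r η hS.1 hfree hg
      obtain ⟨j, hj1, hj2⟩ := crit_slot hcr
      rw [hT, mem_filter, mem_product]
      refine ⟨⟨hX hpX, mem_univ _⟩, ?_⟩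
      by_cases hep : e = p.1
      · subst hep
        have hjp : j = p.2 := hinj p.1 hj1
        have h1 := hS.2 p.1 heK j (by rw [hj1]; exact hj2)
        rw [hj1] at h1
        exact h1
      · exact mem_biUnion.2 ⟨e, mem_erase.2 ⟨hep, heK⟩, mem_image.2 ⟨j, mem_univ _, hj1⟩⟩
  have hGc : G.card ≤ 2 * X.card := by
    rw [hG]
    refine card_biUnion_le.trans ?_
    have h1 : ∀ e ∈ X, ((gs Φ (fin Φ η) e).image (fun j => ((e, j) : Fin m × Fin k))).card ≤ 2 :=
      fun e he => card_image_le.trans (hbad e he)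
    refine (sum_le_sum h1).trans ?_
    rw [sum_const, smul_eq_mul, mul_comm]
  have hTc : T.card = shr (pos Φ) K := by
    rw [hT]
    rfl
  calc _ ≤ (G ∪ T).card := card_le_card hsub
    _ ≤ G.card + T.card := card_union_le _ _
    _ ≤ 2 * X.card + shr (pos Φ) K := by rw [hTc]; omega

end GC
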