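import Pool.Agent.W_bd7f91F_h12.AP

/-! # Trees in rooted sets of clauses -/

set_option autoImplicit false

open Finset
open scoped Classical

namespace GC

variable {n k m : ℕ}

private theorem TreeL_rank {q : ℕ} (v : Pos n k m) (z : Fin q → Fin n) (H : Finset (Fin m))
    (hR : Rooted v (univ.image z) H) : ∃ rk : Fin m → ℕ, ∀ e ∈ H,
      (∃ i j, v e j = z i) ∨ ∃ e' ∈ H, rk e' < rk e ∧ ∃ j j', v e j = v e' j' := by
  obtain ⟨Pr, hPr⟩ : ∃ Pr : Finset (Fin m) → Prop, ∀ A, Pr A ↔
      ∃ rk : Fin m → ℕ, (∀ e ∈ A, rk e ≤ A.card) ∧ ∀ e ∈ A,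
        (∃ i j, v e j = z i) ∨ ∃ e' ∈ A, rk e' < rk e ∧ ∃ j j', v e j = v e' j' :=
    ⟨_, fun _ => Iff.rfl⟩
  have hne : (H.powerset.filter Pr).Nonempty := by
    refine ⟨∅, ?_⟩
    rw [Finset.mem_filter, Finset.mem_powerset, hPr]
    exact ⟨Finset.empty_subset _, fun _ => 0, fun e he => absurd he (Finset.notMem_empty e),
      fun e he => absurd he (Finset.notMem_empty e)⟩
  obtain ⟨A, hA, hmax⟩ := Finset.exists_max_image _ Finset.card hne
  rw [Finset.mem_filter, Finset.mem_powerset, hPr] at hA
  obtain ⟨hAH, rk, hrk, hp⟩ := hA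
  by_cases hAe : A = H
  · subst hAe
    exact ⟨rk, hp⟩
  · exfalso
    obtain ⟨b, hb, y, hy⟩ := hR A hAH hAe
    rw [Finset.mem_sdiff] at hb
    obtain ⟨hbH, hbA⟩ := hb
    rw [Finset.mem_inter] at hy
    obtain ⟨hyb, hyZ⟩ := hy
    obtain ⟨j, -, hj⟩ := Finset.mem_image.1 hyb
    have hmem : insert b A ∈ H.powerset.filter Pr := by
      rw [Finset.mem_filter, Finset.mem_powerset, hPr]
      refine ⟨Finset.insert_subset hbH hAH, Function.update rk b (A.card + 1), ?_, ?_⟩
      · intro c hc
        rw [Finset.card_insert_of_notMem hbA]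
        rcases Finset.mem_insert.1 hc with rfl | hc
        · rw [Function.update_self]
        · have hcb : c ≠ b := fun e => hbA (e ▸ hc)
          rw [Function.update_of_ne hcb]
          exact (hrk c hc).trans (Nat.le_succ _)
      · intro c hc
        rcases Finset.mem_insert.1 hc with rfl | hc
        · rcases Finset.mem_union.1 hyZ with hz | hz
          · obtain ⟨i, -, hi⟩ := Finset.mem_image.1 hz
            exact Or.inl ⟨i, j, by rw [hj, hi]⟩
          · obtain ⟨a, ha, hya⟩ := Finset.mem_biUnion.1 hz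
            obtain ⟨j', -, hj'⟩ := Finset.mem_image.1 hya
            have hab : a ≠ c := fun e => hbA (e ▸ ha)
            refine Or.inr ⟨a, Finset.mem_insert_of_mem ha, ?_, j, j', by rw [hj, hj']⟩
            rw [Function.update_self, Function.update_of_ne hab]
            exact Nat.lt_succ_of_le (hrk a ha)
        · have hcb : c ≠ b := fun e => hbA (e ▸ hc)
          rcases hp c hc with h | ⟨e', he', hlt, h⟩
          · exact Or.inl h
          · have heb : e' ≠ b := fun e => hbA (e ▸ he')
            refine Or.inr ⟨e', Finset.mem_insert_of_mem he', ?_, h⟩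
            rw [Function.update_of_ne hcb, Function.update_of_ne heb]
            exact hlt
    have := hmax _ hmem
    rw [Finset.card_insert_of_notMem hbA] at this
    omega

/-- Every rooted set has tree data.
PROOF. Take a maximal `A ⊆ H` for which there are data on `A` (parents in `A` or roots, ranks decreasing, constraints
satisfied; e.g. functions `π : Fin m → Fin q ⊕ Fin m`, `a b : Fin m → Fin k`, `rk : Fin m → ℕ` with `rk e ≤ |A|` on `A`); `A = ∅` works.
If `A ≠ H`, `Rooted` gives `b ∈ H \ A` which shares a variable with `Z ∪ VS A`: choose the slot of `b`, the root or the clause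
of `A` and its slot, rank `|A| + 1`. Compare `KSat.conn_tree` in Pool/Agent/W_MP_bd7f91_h12/TreeC.lean.
(For the value of `d.2.2 e` when the parent is a root take `d.2.1 e`.) -/
theorem exists_tree {q : ℕ} (v : Pos n k m) (z : Fin q → Fin n) (H : Finset (Fin m))
    (hR : Rooted v (univ.image z) H) : ∃ d : TD q k H, Acyc H d ∧ TreeC v z H d := by
  obtain ⟨rk, hrk⟩ := TreeL_rank v z H hR
  have key : ∀ e : {e // e ∈ H}, ∃ (p : Fin q ⊕ {e // e ∈ H}) (a b : Fin k),
      v e.1 a = Sum.elim z (fun e' => v e'.1 b) p ∧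
        ∀ e', p = Sum.inr e' → rk e'.1 < rk e.1 := by
    intro e
    rcases hrk e.1 e.2 with ⟨i, j, h⟩ | ⟨e', he', hlt, j, j', h⟩
    · exact ⟨Sum.inl i, j, j, h, fun e' h' => by cases h'⟩
    · refine ⟨Sum.inr ⟨e', he'⟩, j, j', h, fun e'' h' => ?_⟩
      have h1 : (⟨e', he'⟩ : {e // e ∈ H}) = e'' := Sum.inr_injective h'
      rw [← h1]
      exact hlt
  choose p a b h1 h2 using key
  exact ⟨(p, a, b), ⟨fun e => rk e.1, fun e e' he => h2 e e' he⟩, fun e => h1 e⟩

theorem tree_card {q : ℕ} (H : Finset (Fin m)) :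
    Fintype.card (TD q k H) = (q + H.card) ^ H.card * (k ^ H.card * k ^ H.card) := by
  simp only [TD, Fintype.card_prod, Fintype.card_fun, Fintype.card_sum, Fintype.card_fin,
    Fintype.card_coe]

/-- the value of the parent of the clause `e` -/
private noncomputable def TreeL_par {q : ℕ} (v : Pos n k m) (z : Fin q → Fin n)
    (H : Finset (Fin m)) (d : TD q k H) (e : {e // e ∈ H}) : Fin n :=
  Sum.elim z (fun e' => v e'.1 (d.2.2 e)) (d.1 e)

/-- the own tree slots -/
private noncomputable def TreeL_J {q : ℕ} (H : Finset (Fin m)) (d : TD q k H) :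
    Finset (Fin m × Fin k) :=
  univ.image fun e : {e // e ∈ H} => (e.1, d.2.1 e)

private theorem TreeL_J_card {q : ℕ} (H : Finset (Fin m)) (d : TD q k H) :
    (TreeL_J H d).card = H.card := by
  unfold TreeL_J
  rw [Finset.card_image_of_injective, Finset.card_univ, Fintype.card_coe]
  intro e e' h
  exact Subtype.ext (congrArg Prod.fst h)

/-- for a fixed `z` -/
private theorem TreeL_count {q : ℕ} (hn : 0 < n) (H : Finset (Fin m)) (d : TD q k H)
    (hd : Acyc H d) (z : Fin q → Fin n) :
    (univ.filter (fun v : Pos n k m => TreeC v z H d)).card * n ^ H.card ≤ n ^ (k * m) := by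
  obtain ⟨rk, hrk⟩ := hd
  -- the indicator functions
  set F : Fin m × Fin k → Pos n k m → ℝ := fun a v =>
    if h : a.1 ∈ H then (if v a.1 a.2 = TreeL_par v z H d ⟨a.1, h⟩ then 1 else 0) else 1 with hFdef
  have hmem : ∀ a ∈ TreeL_J H d, ∃ h : a.1 ∈ H, d.2.1 ⟨a.1, h⟩ = a.2 := by
    intro a ha
    obtain ⟨e, -, he⟩ := Finset.mem_image.1 ha
    subst he
    exact ⟨e.2, rfl⟩
  have hpar : ∀ (e : {e // e ∈ H}) (a : Fin m × Fin k) (ha : a.1 ∈ H), rk e ≤ rk ⟨a.1, ha⟩ →
      ∀ (v : Pos n k m) (c : Fin n),
        TreeL_par (fun e j => if (e, j) = a then c else v e j) z H d e = TreeL_par v z H d e := by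
    intro e a ha hle v c
    unfold TreeL_par
    cases hde : d.1 e with
    | inl i => rfl
    | inr e' =>
      have h1 : rk e' < rk ⟨a.1, ha⟩ := (hrk e e' hde).trans_le hle
      have h2 : (e'.1, d.2.2 e) ≠ a := by
        intro h
        have h3 : e' = ⟨a.1, ha⟩ := Subtype.ext (congrArg Prod.fst h)
        rw [h3] at h1
        exact lt_irrefl _ h1
      simp only [Sum.elim_inr, if_neg h2]
  have h1 := ap_pos (n := n) (k := k) (m := m) hn (TreeL_J H d)
    (fun a => if h : a.1 ∈ H then rk ⟨a.1, h⟩ else 0) F (fun _ => 1)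
    (by
      intro a _ v
      simp only [hFdef]
      split_ifs <;> norm_num)
    (by
      intro a ha b hb hab hle v c
      obtain ⟨ha1, ha2⟩ := hmem a ha
      obtain ⟨hb1, hb2⟩ := hmem b hb
      rw [dif_pos ha1, dif_pos hb1] at hle
      simp only [hFdef, dif_pos hb1]
      rw [hpar ⟨b.1, hb1⟩ a ha1 hle v c]
      have h3 : ((b.1, b.2) : Fin m × Fin k) ≠ a := fun h => hab (by rw [← h])
      simp only [if_neg h3])
    (by
      intro a ha v
      obtain ⟨ha1, ha2⟩ := hmem a ha
      simp only [hFdef, dif_pos ha1]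
      have h3 : ∀ c : Fin n, TreeL_par (fun e j => if (e, j) = a then c else v e j) z H d
          ⟨a.1, ha1⟩ = TreeL_par v z H d ⟨a.1, ha1⟩ := fun c =>
        hpar ⟨a.1, ha1⟩ a ha1 le_rfl v c
      simp only [h3, if_true]
      rw [Finset.sum_ite_eq' univ (TreeL_par v z H d ⟨a.1, ha1⟩) (fun _ => (1 : ℝ))]
      simp)
  rw [TreeL_J_card] at h1
  have h2 : ∑ v : Pos n k m, ∏ a ∈ TreeL_J H d, F a v =
      ((univ.filter (fun v : Pos n k m => TreeC v z H d)).card : ℝ) := by
    rw [Finset.card_filter]
    push_cast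
    refine Finset.sum_congr rfl fun v _ => ?_
    by_cases hv : TreeC v z H d
    · rw [if_pos hv]
      refine Finset.prod_eq_one fun a ha => ?_
      obtain ⟨ha1, ha2⟩ := hmem a ha
      simp only [hFdef, dif_pos ha1]
      rw [if_pos]
      have h3 := hv ⟨a.1, ha1⟩
      rw [ha2] at h3
      exact h3
    · rw [if_neg hv]
      unfold TreeC at hv
      push Not at hv
      obtain ⟨e, he⟩ := hv
      have he' : (e.1, d.2.1 e) ∈ TreeL_J H d :=
        Finset.mem_image.2 ⟨e, Finset.mem_univ e, rfl⟩
      refine Finset.prod_eq_zero he' ?_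
      simp only [hFdef, dif_pos e.2]
      rw [if_neg]
      exact he
  rw [h2, Finset.prod_const_one, one_mul] at h1
  exact_mod_cast h1

/-- PROOF. For fixed `z`: `ap_weighted` for the clauses (`ι = Fin m`, `α = Fin k → Fin n`, `J = H`, the rank of `Acyc`), `F e v` the
indicator of the constraint of `e`: it depends only on `v e` and on `v` of the parent, which has smaller rank; the number of
`c : Fin k → Fin n` with a prescribed value at the slot `d.2.1 e` is `n ^ (k - 1)`. So
`#{v | TreeC} * (n^k)^|H| ≤ (n^(k-1))^|H| (n^k)^m`, i.e. `#{v | TreeC} * n^|H| ≤ n^(k m)` (`0 < k` unless `H = ∅`). -/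
theorem tree_count {q : ℕ} (hn : 0 < n) (H : Finset (Fin m)) (d : TD q k H) (hd : Acyc H d) :
    (univ.filter (fun p : (Fin q → Fin n) × Pos n k m => TreeC p.2 p.1 H d)).card * n ^ H.card ≤
      n ^ q * n ^ (k * m) := by
  have h1 : (univ.filter (fun p : (Fin q → Fin n) × Pos n k m => TreeC p.2 p.1 H d)).card =
      ∑ z : Fin q → Fin n, (univ.filter (fun v : Pos n k m => TreeC v z H d)).card := by
    simp only [Finset.card_filter]
    exact Fintype.sum_prod_type _
  rw [h1, Finset.sum_mul]
  calc ∑ z : Fin q → Fin n, (univ.filter (fun v : Pos n k m => TreeC v z H d)).card * n ^ H.card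
      ≤ ∑ _z : Fin q → Fin n, n ^ (k * m) :=
        Finset.sum_le_sum fun z _ => TreeL_count hn H d hd z
    _ = n ^ q * n ^ (k * m) := by
        rw [Finset.sum_const, Finset.card_univ, Fintype.card_fun, Fintype.card_fin,
          Fintype.card_fin, smul_eq_mul]

private theorem TreeL_half (b : Bool) :
    k / 2 ≤ (univ.filter (fun j : Fin k => j ∉ Hf k b)).card := by
  cases b with
  | true =>
    have h : ∀ i : Fin (k / 2), k - 1 - i.val < k := fun i => by
      have := i.2
      omega
    have h1 : (univ.image fun i : Fin (k / 2) => (⟨k - 1 - i.val, h i⟩ : Fin k)) ⊆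
        univ.filter (fun j : Fin k => j ∉ Hf k true) := by
      intro j hj
      obtain ⟨i, -, rfl⟩ := Finset.mem_image.1 hj
      simp only [Hf, if_true, Finset.mem_filter, Finset.mem_univ, true_and]
      have := i.2
      omega
    refine le_trans (le_of_eq ?_) (Finset.card_le_card h1)
    rw [Finset.card_image_of_injective, Finset.card_univ, Fintype.card_fin]
    intro i i' hii
    have h2 := congrArg Fin.val hii
    simp only at h2
    have := i.2
    have := i'.2
    exact Fin.ext (by omega)
  | false =>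
    have h : ∀ i : Fin (k / 2), i.val < k := fun i => by
      have := i.2
      omega
    have h1 : (univ.image fun i : Fin (k / 2) => (⟨i.val, h i⟩ : Fin k)) ⊆
        univ.filter (fun j : Fin k => j ∉ Hf k false) := by
      intro j hj
      obtain ⟨i, -, rfl⟩ := Finset.mem_image.1 hj
      have hi := i.2
      simp only [Hf, Bool.false_eq_true, if_false, Finset.mem_filter, Finset.mem_univ, true_and]
      omega
    refine le_trans (le_of_eq ?_) (Finset.card_le_card h1)
    rw [Finset.card_image_of_injective, Finset.card_univ, Fintype.card_fin]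
    intro i i' hii
    have h2 := congrArg Fin.val hii
    simp only at h2
    exact Fin.ext h2

private theorem TreeL_rsl {r : Rl k} {j j' : Fin k} (h : rsl r j) (h' : rsl r j') : j = j' := by
  rcases h with h | h <;> rcases h' with h' | h'
  · rw [h] at h'
    exact Sum.inr_injective h'
  · rw [h] at h'
    cases h'
  · rw [h] at h'
    cases h'
  · rw [h] at h'
    exact Option.some_injective _ (Option.some_injective _ (Sum.inl_injective h'))

/-- Size of the set of private slots.
PROOF. The uncoloured half has at least `k / 2` slots; from these remove for every `e ∈ X` at most one role slot, and in total at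
most `|H|` own tree slots (one for each `e ∈ H`) and at most `|H|` parent slots (one for each `e ∈ H`). -/
theorem pset_card {q : ℕ} (A X : Finset (Fin m)) (r : Fin m → Rl k) (H : Finset (Fin m))
    (d : TD q k H) :
    X.card * (k / 2) ≤ (Pset A X r H d).card + X.card + 2 * H.card := by
  set U : Finset (Fin m × Fin k) :=
    univ.filter (fun p => p.1 ∈ X ∧ p.2 ∉ Hf k (decide (p.1 ∈ A))) with hU
  set R1 : Finset (Fin m × Fin k) := univ.filter (fun p => p.1 ∈ X ∧ rsl (r p.1) p.2) with hR1
  set R2 : Finset (Fin m × Fin k) := TreeL_J H d with hR2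
  set R3 : Finset (Fin m × Fin k) := univ.image fun e : {e // e ∈ H} =>
    (Sum.elim (fun _ => e.1) (fun e' : {e // e ∈ H} => e'.1) (d.1 e), d.2.2 e) with hR3
  have hU1 : X.card * (k / 2) ≤ U.card := by
    have h1 : U = X.biUnion fun e =>
        (univ.filter (fun j : Fin k => j ∉ Hf k (decide (e ∈ A)))).image fun j => (e, j) := by
      ext ⟨e, j⟩
      simp only [hU, Finset.mem_filter, Finset.mem_univ, true_and, Finset.mem_biUnion,
        Finset.mem_image, Prod.mk.injEq]
      constructor
      · rintro ⟨h1, h2⟩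
        exact ⟨e, h1, j, h2, rfl, rfl⟩
      · rintro ⟨e', h1, j', h2, rfl, rfl⟩
        exact ⟨h1, h2⟩
    rw [h1, Finset.card_biUnion]
    · rw [← smul_eq_mul, ← Finset.sum_const]
      refine Finset.sum_le_sum fun e _ => ?_
      rw [Finset.card_image_of_injective _ (Prod.mk_right_injective e)]
      exact TreeL_half _
    · intro e _ e' _ hee
      rw [Function.onFun, Finset.disjoint_left]
      rintro ⟨a, b⟩ ha hb
      obtain ⟨j, -, hj⟩ := Finset.mem_image.1 ha
      obtain ⟨j', -, hj'⟩ := Finset.mem_image.1 hb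
      exact hee ((congrArg Prod.fst hj).trans (congrArg Prod.fst hj').symm)
  have hR1c : R1.card ≤ X.card := by
    refine Finset.card_le_card_of_injOn Prod.fst ?_ ?_
    · intro p hp
      exact (Finset.mem_filter.1 (Finset.mem_coe.1 hp)).2.1
    · intro p hp p' hp' h
      have h1 := (Finset.mem_filter.1 (Finset.mem_coe.1 hp)).2.2
      have h2 := (Finset.mem_filter.1 (Finset.mem_coe.1 hp')).2.2
      rw [h] at h1
      exact Prod.ext h (TreeL_rsl h1 h2)
  have hR2c : R2.card ≤ H.card := (TreeL_J_card H d).le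
  have hR3c : R3.card ≤ H.card := by
    refine Finset.card_image_le.trans ?_
    rw [Finset.card_univ, Fintype.card_coe]
  have hsub : U ⊆ Pset A X r H d ∪ (R1 ∪ (R2 ∪ R3)) := by
    intro p hp
    obtain ⟨hp1, hp2⟩ := (Finset.mem_filter.1 hp).2
    by_cases h1 : p ∈ R1
    · exact Finset.mem_union_right _ (Finset.mem_union_left _ h1)
    by_cases h2 : p ∈ R2
    · exact Finset.mem_union_right _ (Finset.mem_union_right _ (Finset.mem_union_left _ h2))
    by_cases h3 : p ∈ R3
    · exact Finset.mem_union_right _ (Finset.mem_union_right _ (Finset.mem_union_right _ h3))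
    refine Finset.mem_union_left _ ?_
    refine Finset.mem_filter.2 ⟨Finset.mem_univ _, hp1, hp2, ?_, ?_, ?_⟩
    · intro h
      exact h1 (Finset.mem_filter.2 ⟨Finset.mem_univ _, hp1, h⟩)
    · intro e he hd
      exact h2 (Finset.mem_image.2 ⟨e, Finset.mem_univ _, Prod.ext he hd⟩)
    · intro e e' hde he hd
      refine h3 (Finset.mem_image.2 ⟨e, Finset.mem_univ _, Prod.ext ?_ hd⟩)
      simp only [hde, Sum.elim_inr]
      exact he
  have h4 := Finset.card_le_card hsub
  have h5 := Finset.card_union_le (Pset A X r H d) (R1 ∪ (R2 ∪ R3))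
  have h6 := Finset.card_union_le R1 (R2 ∪ R3)
  have h7 := Finset.card_union_le R2 R3
  omega

/-- the constraints do not involve the private slots -/
theorem tree_ovP {q : ℕ} (A X : Finset (Fin m)) (r : Fin m → Rl k) (H : Finset (Fin m))
    (d : TD q k H) (v w : Pos n k m) (z : Fin q → Fin n) :
    TreeC (ovP (Pset A X r H d) v w) z H d ↔ TreeC v z H d := by
  have h1 : ∀ e : {e // e ∈ H}, ovP (Pset A X r H d) v w e.1 (d.2.1 e) = v e.1 (d.2.1 e) := by
    intro e
    unfold ovP
    rw [if_neg]
    intro h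
    exact (Finset.mem_filter.1 h).2.2.2.2.1 e rfl rfl
  have h2 : ∀ e : {e // e ∈ H},
      Sum.elim z (fun e' : {e // e ∈ H} => ovP (Pset A X r H d) v w e'.1 (d.2.2 e)) (d.1 e) =
        Sum.elim z (fun e' : {e // e ∈ H} => v e'.1 (d.2.2 e)) (d.1 e) := by
    intro e
    cases hde : d.1 e with
    | inl i => rfl
    | inr e' =>
      simp only [Sum.elim_inr]
      unfold ovP
      rw [if_neg]
      intro h
      exact (Finset.mem_filter.1 h).2.2.2.2.2 e e' hde rfl rfl
  unfold TreeC
  refine forall_congr' fun e => ?_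
  rw [h1 e, h2 e]

end GC
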