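import Pool.Agent.W_bd7f91F_h12.Priv
import Pool.Agent.W_bd7f91F_h12.EvC
import Pool.Agent.W_bd7f91F_h12.TreeL

/-! # First moment bound, inner part -/

set_option autoImplicit false

open Finset
open scoped Classical

namespace GC

variable {n k m : ℕ}

theorem FMa_invol {A : Type*} [Fintype A] (ov : A → A → A) (h : ∀ x y, ov (ov x y) (ov y x) = x)
    (F : A → ℝ) : ∑ x, ∑ y, F (ov x y) = (Fintype.card A : ℝ) * ∑ x, F x := by
  let e : (A × A) ≃ (A × A) :=
    { toFun := fun p => (ov p.1 p.2, ov p.2 p.1)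
      invFun := fun p => (ov p.1 p.2, ov p.2 p.1)
      left_inv := fun p => Prod.ext (h p.1 p.2) (h p.2 p.1)
      right_inv := fun p => Prod.ext (h p.1 p.2) (h p.2 p.1) }
  have h1 : ∑ x, ∑ y, F (ov x y) = ∑ p : A × A, F (e p).1 := by
    rw [Fintype.sum_prod_type]
    rfl
  have h2 : ∑ p : A × A, F (e p).1 = ∑ p : A × A, F p.1 :=
    Equiv.sum_comp e (fun p => F p.1)
  rw [h1, h2, Fintype.sum_prod_type, mul_sum]
  refine sum_congr rfl fun s _ => ?_
  show ∑ _y : A, F s = (Fintype.card A : ℝ) * F s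
  rw [sum_const, card_univ, nsmul_eq_mul]

theorem FMa_ovP_ovP (P : Finset (Fin m × Fin k)) (v w : Pos n k m) :
    ovP P (ovP P v w) (ovP P w v) = v := by
  funext e j
  by_cases h : (e, j) ∈ P <;> simp [ovP, h]

theorem FMa_ovS_ovS (K : Finset (Fin m)) (s u : Sgn k m) :
    ovS K (ovS K s u) (ovS K u s) = s := by
  funext i
  by_cases h : i ∈ K <;> simp [ovS, h]

/-- Resampling.
PROOF. `(v, w) ↦ (ovP P v w, ovP P w v)` and `(s, u) ↦ (ovS K s u, ovS K u s)` are involutions; compare `KSat.sum_ov` in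
Pool/Agent/W_MP_bd7f91_h12/SignB.lean. -/
theorem resample (P : Finset (Fin m × Fin k)) (K : Finset (Fin m))
    (G : Pos n k m → Sgn k m → ℝ) :
    ∑ v, ∑ s, ∑ w, ∑ u, G (ovP P v w) (ovS K s u) =
      (n : ℝ) ^ (k * m) * 2 ^ (k * m) * ∑ v, ∑ s, G v s := by
  have hcP : (Fintype.card (Pos n k m) : ℝ) = (n : ℝ) ^ (k * m) := by
    simp [Pos, pow_mul]
  have hcS : (Fintype.card (Sgn k m) : ℝ) = (2 : ℝ) ^ (k * m) := by
    simp [Sgn, pow_mul]
  have h1 : ∀ v : Pos n k m, ∑ s : Sgn k m, ∑ w : Pos n k m, ∑ u : Sgn k m,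
      G (ovP P v w) (ovS K s u) =
      ∑ w : Pos n k m, (2 : ℝ) ^ (k * m) * ∑ s : Sgn k m, G (ovP P v w) s := by
    intro v
    rw [sum_comm]
    refine sum_congr rfl fun w _ => ?_
    have := FMa_invol (A := Sgn k m) (ovS K) (FMa_ovS_ovS K) (G (ovP P v w))
    rw [this, hcS]
  rw [sum_congr rfl fun v _ => h1 v]
  have := FMa_invol (A := Pos n k m) (ovP P) (FMa_ovP_ovP P)
    (fun v => (2 : ℝ) ^ (k * m) * ∑ s : Sgn k m, G v s)
  rw [this, hcP, ← mul_sum, mul_assoc]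

/-- GLOB gives many free variables in all runs with `K` removed and private slots changed.
PROOF. Apply `Glob` of `mkF (ovP P v w0) (ovS K s u0)` to `Q = K`, `Y = YY _ K r`, `ρ = rop ∘ r`,
`Φ' = mkF (ovP P v w) s`, which agrees with it off `K`. -/
theorem glob_kfree (v w0 : Pos n k m) (s u0 : Sgn k m) (K : Finset (Fin m)) (r : Fin m → Rl k)
    (η : Asg n) (P : Finset (Fin m × Fin k)) (l b : ℕ) (hK : K.card ≤ l)
    (hP : ∀ p ∈ P, p.1 ∈ K)
    (hG : Glob (mkF (ovP P v w0) (ovS K s u0)) η l b) (w : Pos n k m) (i : ℕ) (hi : i ≤ m) :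
    b ≤ (kfree (mkF (ovP P v w) s) K r η i).card := by
  refine hG K (YY (pos (mkF (ovP P v w) s)) K r) (fun e => rop (r e)) (mkF (ovP P v w) s) hK
    ((YY_card _ K r).trans hK) ?_ i hi
  intro e he
  have h1 : ∀ j, (e, j) ∉ P := fun j hj => he (hP _ hj)
  simp only [mkF, ovS, if_neg he]
  congr 1
  funext j
  simp only [ovP, if_neg (h1 j)]

theorem FMa_cond_mono {Φ : Fml n k m} {K : Finset (Fin m)} {r : Fin m → Rl k} {η : Asg n}
    {P : Finset (Fin m × Fin k)} {c c' : ℕ} (h : Cond Φ K r η P c) (hc : c ≤ c') :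
    Cond Φ K r η P c' := ⟨h.1, h.2.trans hc⟩

/-- INNER BOUND.
PROOF. If no pair `(w, u)` satisfies the event the sum is zero. Otherwise `glob_kfree` holds for all `w`. For fixed `w`: if some `u`
satisfies the event then `Cond (mkF (ovP P v w) s) K r η P (26 |X|)` (`ev_cond` for `mkF (ovP P v w) (ovS K s u)`,
`2 |X| + shr ≤ 2 |X| + 3 |K| ≤ 26 |X|` by `shr_le`; `Cond` is monotone in `c`; `cond_sign`), and `shr (ovP P v w) K ≤ 3 |K|`, so the
number of these `u` is at most `2 ^ (3 |K|) 2 ^ (k m) / 2 ^ (k |K|)` (`sign_count`). Sum over `w` with `priv_bound`. -/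
theorem fm_inner (hn : 0 < n) (hk : 2 ≤ k) (v : Pos n k m) (s : Sgn k m) (η : Asg n) (l b : ℕ)
    (K X : Finset (Fin m)) (r : Fin m → Rl k) (P : Finset (Fin m × Fin k)) (g : ℝ) (hg0 : 0 ≤ g)
    (hg1 : g ≤ 1) (hb : g * n ≤ b) (hX : X ⊆ K) (hK : K.card ≤ l) (h8 : K.card ≤ 8 * X.card)
    (hP : ∀ p ∈ P, p.1 ∈ X ∧ ¬ rsl (r p.1) p.2) :
    ∑ w : Pos n k m, ∑ u : Sgn k m,
      (if EvK (mkF (ovP P v w) (ovS K s u)) η l b K X ∧
        (∀ e ∈ K, IsRole (mkF (ovP P v w) (ovS K s u)) η e (r e)) then (1 : ℝ) else 0) ≤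
      ((n : ℝ) ^ (k * m) * 2 ^ (k * m)) * (8 ^ K.card / 2 ^ (k * K.card)) *
        (k : ℝ) ^ (26 * X.card) * (1 - g / 2) ^ P.card := by
  have hg2 : (0 : ℝ) ≤ 1 - g / 2 := by linarith
  by_cases hex : ∃ (w0 : Pos n k m) (u0 : Sgn k m),
      EvK (mkF (ovP P v w0) (ovS K s u0)) η l b K X ∧
        (∀ e ∈ K, IsRole (mkF (ovP P v w0) (ovS K s u0)) η e (r e))
  swap
  · push Not at hex
    have h0 : ∀ w : Pos n k m, ∀ u : Sgn k m,
      (if EvK (mkF (ovP P v w) (ovS K s u)) η l b K X ∧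
        (∀ e ∈ K, IsRole (mkF (ovP P v w) (ovS K s u)) η e (r e)) then (1 : ℝ) else 0) = 0 := by
      intro w u
      rw [if_neg]
      rintro ⟨h1, h2⟩
      obtain ⟨e, he, hne⟩ := hex w u h1
      exact hne (h2 e he)
    rw [sum_congr rfl fun w _ => sum_congr rfl fun u _ => h0 w u]
    simp only [sum_const_zero]
    positivity
  obtain ⟨w0, u0, hEv0, -⟩ := hex
  have hPK : ∀ p ∈ P, p.1 ∈ K := fun p hp => hX (hP p hp).1
  have hG : ∀ w : Pos n k m, ∀ i, i ≤ m → b ≤ (kfree (mkF (ovP P v w) s) K r η i).card :=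
    fun w i hi => glob_kfree v w0 s u0 K r η P l b hK hPK hEv0.glob w i hi
  have hpriv := priv_bound hn hk v s K r η P (26 * X.card) b g hg0 hg1 hb
    (fun p hp => ⟨hPK p hp, (hP p hp).2⟩) hG
  have hw : ∀ w : Pos n k m, ∑ u : Sgn k m,
      (if EvK (mkF (ovP P v w) (ovS K s u)) η l b K X ∧
        (∀ e ∈ K, IsRole (mkF (ovP P v w) (ovS K s u)) η e (r e)) then (1 : ℝ) else 0) ≤
      (if Cond (mkF (ovP P v w) s) K r η P (26 * X.card) then (1 : ℝ) else 0) *
        (8 ^ K.card / 2 ^ (k * K.card) * 2 ^ (k * m)) := by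
    intro w
    by_cases hexu : ∃ u : Sgn k m, EvK (mkF (ovP P v w) (ovS K s u)) η l b K X ∧
        (∀ e ∈ K, IsRole (mkF (ovP P v w) (ovS K s u)) η e (r e))
    swap
    · push Not at hexu
      have h0 : ∀ u : Sgn k m,
        (if EvK (mkF (ovP P v w) (ovS K s u)) η l b K X ∧
          (∀ e ∈ K, IsRole (mkF (ovP P v w) (ovS K s u)) η e (r e)) then (1 : ℝ) else 0) = 0 := by
        intro u
        rw [if_neg]
        rintro ⟨h1, h2⟩
        obtain ⟨e, he, hne⟩ := hexu u h1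
        exact hne (h2 e he)
      rw [sum_congr rfl fun u _ => h0 u, sum_const_zero]
      split_ifs <;> positivity
    obtain ⟨u1, hEv, hrole⟩ := hexu
    have hshr : shr (ovP P v w) K ≤ 3 * K.card :=
      shr_le hk (ovP P v w) K l hEv.inj hEv.e1 hK
    have hS : EvS (mkF (ovP P v w) (ovS K s u1)) η K r := ⟨hrole, hEv.closed⟩
    have hc1 := ev_cond (mkF (ovP P v w) (ovS K s u1)) η K X r P hEv.inj hS hX hEv.bad hP
    have hc2 : Cond (mkF (ovP P v w) (ovS K s u1)) K r η P (26 * X.card) := by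
      refine FMa_cond_mono hc1 ?_
      have : shr (pos (mkF (ovP P v w) (ovS K s u1))) K ≤ 3 * K.card := hshr
      omega
    have hc3 : Cond (mkF (ovP P v w) s) K r η P (26 * X.card) := by
      refine (cond_sign (ovP P v w) (ovS K s u1) s K r η P (26 * X.card) ?_).1 hc2
      intro e he
      simp [ovS, he]
    rw [if_pos hc3, one_mul]
    have hcount := sign_count (ovP P v w) K r η s
    have hsum : ∑ u : Sgn k m,
      (if EvK (mkF (ovP P v w) (ovS K s u)) η l b K X ∧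
        (∀ e ∈ K, IsRole (mkF (ovP P v w) (ovS K s u)) η e (r e)) then (1 : ℝ) else 0) ≤
      ((univ.filter (fun u : Sgn k m => EvS (mkF (ovP P v w) (ovS K s u)) η K r)).card : ℝ) := by
      rw [← Finset.sum_boole]
      refine sum_le_sum fun u _ => ?_
      by_cases hu : EvK (mkF (ovP P v w) (ovS K s u)) η l b K X ∧
        (∀ e ∈ K, IsRole (mkF (ovP P v w) (ovS K s u)) η e (r e))
      · have hEvS : EvS (mkF (ovP P v w) (ovS K s u)) η K r := ⟨hu.2, hu.1.closed⟩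
        rw [if_pos hu, if_pos hEvS]
      · rw [if_neg hu]
        split_ifs <;> norm_num
    refine hsum.trans ?_
    have h2 : (0 : ℝ) < 2 ^ (k * K.card) := by positivity
    have hcount' : ((univ.filter (fun u : Sgn k m =>
        EvS (mkF (ovP P v w) (ovS K s u)) η K r)).card : ℝ) * 2 ^ (k * K.card) ≤
        2 ^ (shr (ovP P v w) K) * 2 ^ (k * m) := by exact_mod_cast hcount
    have h3 : (2 : ℝ) ^ (shr (ovP P v w) K) ≤ 8 ^ K.card := by
      calc (2 : ℝ) ^ (shr (ovP P v w) K) ≤ 2 ^ (3 * K.card) :=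
            pow_le_pow_right₀ (by norm_num) hshr
        _ = 8 ^ K.card := by rw [pow_mul]; norm_num
    have h4 : (2 : ℝ) ^ (shr (ovP P v w) K) * 2 ^ (k * m) ≤ 8 ^ K.card * 2 ^ (k * m) :=
      mul_le_mul_of_nonneg_right h3 (by positivity)
    rw [div_mul_eq_mul_div, le_div_iff₀ h2]
    exact hcount'.trans h4
  refine (sum_le_sum fun w _ => hw w).trans ?_
  rw [← sum_mul, Finset.sum_boole]
  have hnn : (0 : ℝ) ≤ 8 ^ K.card / 2 ^ (k * K.card) * 2 ^ (k * m) := by positivity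
  refine (mul_le_mul_of_nonneg_right hpriv hnn).trans (le_of_eq ?_)
  ring

end GC
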