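import Pool.Agent.W_bd7f91F_h12.FMa

/-! # First moment bound -/

set_option autoImplicit false

open Finset
open scoped Classical

namespace GC

variable {n k m : ℕ}

theorem FMb_sym {w : Pos n k m → Sgn k m → Asg n → ℝ} {K A X : Finset (Fin m)} (hw : SymW K A w)
    (hX : X ⊆ K) {q : ℕ} (r : Fin m → Rl k) (H : Finset (Fin m)) (d : TD q k H)
    (v w' : Pos n k m) (s u : Sgn k m) (σ : Asg n) :
    w (ovP (Pset A X r H d) v w') (ovS K s u) σ = w v s σ := by
  refine hw.sym _ _ _ _ σ ?_ ?_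
  · intro e he
    constructor
    · funext j
      have : (e, j) ∉ Pset A X r H d := by
        intro h
        rw [Pset, mem_filter] at h
        exact he (hX h.2.1)
      simp [ovP, this]
    · simp [ovS, he]
  · intro e he j hj
    have : (e, j) ∉ Pset A X r H d := by
      intro h
      rw [Pset, mem_filter] at h
      exact h.2.2.1 hj
    simp [ovP, this]

/-- FIXED ROLES AND TREE DATA.
PROOF. `P = Pset A X r H d`, `M = n ^ (k m) 2 ^ (k m)`. By `resample` (for `G v s = ∑_σ w v s σ #{z | ..}`), `M` times the left side is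
`∑_v ∑_s ∑_w' ∑_u G (ovP P v w') (ovS K s u)`; `w (ovP ..) (ovS ..) σ = w v s σ` (`SymW.sym`: the slots of `P` are in clauses of
`X ⊆ K` outside the coloured halves) and `TreeC (ovP ..) z H d ↔ TreeC v z H d` (`tree_ovP`). So this is
`∑_v ∑_s #{z | TreeC v z H d} ∑_σ w v s σ * (the left side of fm_inner with η = etat t σ)`, at most
`M * β * ∑_v ∑_s #{z | TreeC v z H d}` with `β = (8^|K| / 2^(k|K|)) k^(26|X|) (1 - g/2)^|P|` (`SymW.mass`, `SymW.nonneg`), and
`tree_count` bounds `∑_v #{z | TreeC}` by `n^q n^(km) / n^|H|`. Finally `(1 - g/2)^|P| ≤ (1 - g/2)^N` as `N ≤ |P|` (`pset_card`). -/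
theorem fm_rd {q : ℕ} (hn : 0 < n) (hk : 2 ≤ k) (w : Pos n k m → Sgn k m → Asg n → ℝ)
    (K A X H : Finset (Fin m)) (hw : SymW K A w) (t l b : ℕ) (g : ℝ) (hg0 : 0 ≤ g) (hg1 : g ≤ 1)
    (hb : g * n ≤ b) (hX : X ⊆ K) (hKH : K ⊆ H) (hH : H.card ≤ l) (h8 : K.card ≤ 8 * X.card)
    (N : ℕ) (hN : N + 2 * H.card + X.card ≤ X.card * (k / 2)) (r : Fin m → Rl k) (d : TD q k H)
    (hd : Acyc H d) :
    ∑ v : Pos n k m, ∑ s : Sgn k m, ∑ σ : Asg n, w v s σ *
      ((univ.filter (fun z : Fin q → Fin n => TreeC v z H d ∧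
        EvK (mkF v s) (etat t σ) l b K X ∧
        (∀ e ∈ K, IsRole (mkF v s) (etat t σ) e (r e)))).card : ℝ) ≤
      (n : ℝ) ^ q / (n : ℝ) ^ H.card * ((8 : ℝ) ^ K.card / 2 ^ (k * K.card)) *
        (k : ℝ) ^ (26 * X.card) * (1 - g / 2) ^ N * ((n : ℝ) ^ (k * m) * 2 ^ (k * m)) := by
  have hnR : (0 : ℝ) < n := by exact_mod_cast hn
  have hg2 : (0 : ℝ) ≤ 1 - g / 2 := by linarith
  have hg3 : 1 - g / 2 ≤ 1 := by linarith
  set P := Pset A X r H d with hPdef
  have hNP : N ≤ P.card := by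
    have := pset_card A X r H d
    rw [← hPdef] at this
    omega
  set M : ℝ := (n : ℝ) ^ (k * m) * 2 ^ (k * m) with hM
  have hMpos : 0 < M := by positivity
  set β : ℝ := (8 ^ K.card / 2 ^ (k * K.card)) * (k : ℝ) ^ (26 * X.card) * (1 - g / 2) ^ P.card
    with hβ
  have hβ0 : 0 ≤ β := by positivity
  let T : Pos n k m → ℝ := fun v => ((univ.filter (fun z : Fin q → Fin n => TreeC v z H d)).card : ℝ)
  have hT0 : ∀ v, 0 ≤ T v := fun v => Nat.cast_nonneg _
  let E : Pos n k m → Sgn k m → Asg n → Prop := fun v s σ =>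
    EvK (mkF v s) (etat t σ) l b K X ∧ (∀ e ∈ K, IsRole (mkF v s) (etat t σ) e (r e))
  let G : Pos n k m → Sgn k m → ℝ := fun v s => ∑ σ : Asg n, w v s σ *
      ((univ.filter (fun z : Fin q → Fin n => TreeC v z H d ∧
        EvK (mkF v s) (etat t σ) l b K X ∧
        (∀ e ∈ K, IsRole (mkF v s) (etat t σ) e (r e)))).card : ℝ)
  have hG1 : ∀ v s, G v s = ∑ σ : Asg n, w v s σ * (T v * (if E v s σ then (1 : ℝ) else 0)) := by
    intro v s
    refine sum_congr rfl fun σ _ => ?_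
    congr 1
    by_cases hE : E v s σ
    · rw [if_pos hE, mul_one]
      show ((univ.filter _).card : ℝ) = ((univ.filter _).card : ℝ)
      congr 2
      ext z
      simp only [mem_filter, mem_univ, true_and]
      exact ⟨fun h => h.1, fun h => ⟨h, hE⟩⟩
    · rw [if_neg hE, mul_zero]
      have : (univ.filter (fun z : Fin q → Fin n => TreeC v z H d ∧
        EvK (mkF v s) (etat t σ) l b K X ∧
        (∀ e ∈ K, IsRole (mkF v s) (etat t σ) e (r e)))) = ∅ := by
        rw [filter_eq_empty_iff]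
        intro z _ h
        exact hE h.2
      rw [this]
      simp
  have hG2 : ∀ v w' s u, G (ovP P v w') (ovS K s u) =
      ∑ σ : Asg n, w v s σ * (T v * (if E (ovP P v w') (ovS K s u) σ then (1 : ℝ) else 0)) := by
    intro v w' s u
    rw [hG1]
    refine sum_congr rfl fun σ _ => ?_
    rw [FMb_sym hw hX r H d v w' s u σ]
    have hTT : T (ovP P v w') = T v := by
      show ((univ.filter _).card : ℝ) = ((univ.filter _).card : ℝ)
      congr 2
      ext z
      simp only [mem_filter, mem_univ, true_and]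
      exact tree_ovP A X r H d v w' z
    rw [hTT]
  have hres := resample P K G
  have hmain : ∑ v, ∑ s, ∑ w', ∑ u, G (ovP P v w') (ovS K s u) ≤
      ∑ v : Pos n k m, ∑ _s : Sgn k m, T v * (M * β) := by
    refine sum_le_sum fun v _ => sum_le_sum fun s _ => ?_
    have h1 : ∑ w', ∑ u, G (ovP P v w') (ovS K s u) =
        ∑ σ : Asg n, w v s σ * (T v * ∑ w' : Pos n k m, ∑ u : Sgn k m,
          (if E (ovP P v w') (ovS K s u) σ then (1 : ℝ) else 0)) := by
      simp_rw [hG2]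
      have : ∀ w' : Pos n k m, ∑ u : Sgn k m, ∑ σ : Asg n, w v s σ *
          (T v * (if E (ovP P v w') (ovS K s u) σ then (1 : ℝ) else 0)) =
          ∑ σ : Asg n, ∑ u : Sgn k m, w v s σ *
          (T v * (if E (ovP P v w') (ovS K s u) σ then (1 : ℝ) else 0)) :=
        fun w' => sum_comm
      rw [sum_congr rfl fun w' _ => this w', sum_comm]
      refine sum_congr rfl fun σ _ => ?_
      simp_rw [mul_sum]
    rw [h1]
    have h2 : ∀ σ : Asg n, w v s σ * (T v * ∑ w' : Pos n k m, ∑ u : Sgn k m,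
          (if E (ovP P v w') (ovS K s u) σ then (1 : ℝ) else 0)) ≤ w v s σ * (T v * (M * β)) := by
      intro σ
      refine mul_le_mul_of_nonneg_left ?_ (hw.nonneg v s σ)
      refine mul_le_mul_of_nonneg_left ?_ (hT0 v)
      have hin := fm_inner hn hk v s (etat t σ) l b K X r P g hg0 hg1 hb hX
        ((card_le_card hKH).trans hH) h8 (by
          intro p hp
          rw [hPdef, Pset, mem_filter] at hp
          exact ⟨hp.2.1, hp.2.2.2.1⟩)
      refine hin.trans (le_of_eq ?_)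
      rw [hM, hβ]
      ring
    refine (sum_le_sum fun σ _ => h2 σ).trans ?_
    rw [← sum_mul]
    have h3 : 0 ≤ T v * (M * β) := mul_nonneg (hT0 v) (mul_nonneg hMpos.le hβ0)
    calc (∑ σ : Asg n, w v s σ) * (T v * (M * β)) ≤ 1 * (T v * (M * β)) :=
          mul_le_mul_of_nonneg_right (hw.mass v s) h3
      _ = T v * (M * β) := one_mul _
  have hTsum : (∑ v : Pos n k m, T v) * (n : ℝ) ^ H.card ≤ (n : ℝ) ^ q * (n : ℝ) ^ (k * m) := by
    have htc := tree_count hn H d hd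
    have h1 : ∑ v : Pos n k m, T v =
        ((univ.filter (fun p : (Fin q → Fin n) × Pos n k m => TreeC p.2 p.1 H d)).card : ℝ) := by
      have h2 : ∀ v : Pos n k m, T v = ∑ z : Fin q → Fin n, (if TreeC v z H d then (1 : ℝ) else 0) := by
        intro v
        rw [Finset.sum_boole]
      rw [sum_congr rfl fun v _ => h2 v, sum_comm, ← Finset.sum_boole, Fintype.sum_prod_type]
    rw [h1]
    exact_mod_cast htc
  have hfin : M * ∑ v, ∑ s, G v s ≤ M * ((n : ℝ) ^ q / (n : ℝ) ^ H.card *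
      ((8 : ℝ) ^ K.card / 2 ^ (k * K.card)) *
        (k : ℝ) ^ (26 * X.card) * (1 - g / 2) ^ N * ((n : ℝ) ^ (k * m) * 2 ^ (k * m))) := by
    rw [← hres]
    refine hmain.trans ?_
    have hcS : (Fintype.card (Sgn k m) : ℝ) = (2 : ℝ) ^ (k * m) := by
      simp [Sgn, pow_mul]
    have h1 : ∑ v : Pos n k m, ∑ _s : Sgn k m, T v * (M * β) =
        2 ^ (k * m) * (∑ v : Pos n k m, T v) * (M * β) := by
      simp_rw [sum_const, card_univ, nsmul_eq_mul, hcS]
      rw [← mul_sum, ← sum_mul]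
      ring
    rw [h1]
    have hT1 : (∑ v : Pos n k m, T v) ≤ (n : ℝ) ^ q * (n : ℝ) ^ (k * m) / (n : ℝ) ^ H.card := by
      rw [le_div_iff₀ (by positivity)]
      exact hTsum
    have hβN : β ≤ (8 ^ K.card / 2 ^ (k * K.card)) * (k : ℝ) ^ (26 * X.card) * (1 - g / 2) ^ N := by
      rw [hβ]
      refine mul_le_mul_of_nonneg_left ?_ (by positivity)
      exact pow_le_pow_of_le_one hg2 hg3 hNP
    calc (2 : ℝ) ^ (k * m) * (∑ v : Pos n k m, T v) * (M * β) ≤
        2 ^ (k * m) * ((n : ℝ) ^ q * (n : ℝ) ^ (k * m) / (n : ℝ) ^ H.card) *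
          (M * ((8 ^ K.card / 2 ^ (k * K.card)) * (k : ℝ) ^ (26 * X.card) * (1 - g / 2) ^ N)) := by
          refine mul_le_mul ?_ ?_ (mul_nonneg hMpos.le hβ0) (by positivity)
          · exact mul_le_mul_of_nonneg_left hT1 (by positivity)
          · exact mul_le_mul_of_nonneg_left hβN hMpos.le
      _ = _ := by ring
  exact le_of_mul_le_mul_left hfin hMpos

/-- SUM OVER ROLES AND TREE DATA.
PROOF. For every `z` counted on the left there are tree data (`exists_tree`) and roles (`exists_role`; take `inl none` off `K`). There are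
`(2 k + 2) ^ |K|` role functions with value `inl none` off `K` and `(q + |H|)^|H| k^|H| k^|H|` tree data (`tree_card`). Sum `fm_rd`. -/
theorem fm_w {q : ℕ} (hn : 0 < n) (hk : 2 ≤ k) (w : Pos n k m → Sgn k m → Asg n → ℝ)
    (K A X H : Finset (Fin m)) (hw : SymW K A w) (t l b : ℕ) (g : ℝ) (hg0 : 0 ≤ g) (hg1 : g ≤ 1)
    (hb : g * n ≤ b) (hX : X ⊆ K) (hKH : K ⊆ H) (hH : H.card ≤ l) (h8 : K.card ≤ 8 * X.card)
    (N : ℕ) (hN : N + 2 * H.card + X.card ≤ X.card * (k / 2)) :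
    ∑ v : Pos n k m, ∑ s : Sgn k m, ∑ σ : Asg n, w v s σ *
      ((univ.filter (fun z : Fin q → Fin n => Rooted v (univ.image z) H ∧
        EvK (mkF v s) (etat t σ) l b K X)).card : ℝ) ≤
      (n : ℝ) ^ q * (((q : ℝ) + H.card) * k ^ 2 / n) ^ H.card *
        (8 * (2 * k + 2) / 2 ^ k) ^ K.card *
        (k : ℝ) ^ (26 * X.card) * (1 - g / 2) ^ N * ((n : ℝ) ^ (k * m) * 2 ^ (k * m)) := by
  have hnR : (0 : ℝ) < n := by exact_mod_cast hn
  have hg2 : (0 : ℝ) ≤ 1 - g / 2 := by linarith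
  let RK : Finset (Fin m → Rl k) :=
    Fintype.piFinset (fun e => if e ∈ K then (univ : Finset (Rl k)) else {Sum.inl none})
  have hRK : RK.card = (2 * k + 2) ^ K.card := by
    rw [Fintype.card_piFinset]
    have h1 : ∀ e : Fin m, (if e ∈ K then (univ : Finset (Rl k)) else {Sum.inl none}).card =
        if e ∈ K then 2 * k + 2 else 1 := by
      intro e
      split_ifs
      · rw [card_univ]
        simp [Rl]
        ring
      · simp
    rw [prod_congr rfl fun e _ => h1 e, prod_ite_mem, univ_inter, prod_const]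
  let DA : Finset (TD q k H) := univ.filter (fun d => Acyc H d)
  have hDA : DA.card ≤ (q + H.card) ^ H.card * (k ^ H.card * k ^ H.card) := by
    rw [← tree_card (m := m) (q := q) (k := k) H, ← card_univ]
    exact card_le_card (filter_subset _ _)
  let c : TD q k H → (Fin m → Rl k) → Pos n k m → Sgn k m → Asg n → ℝ := fun d r v s σ =>
    ((univ.filter (fun z : Fin q → Fin n => TreeC v z H d ∧
        EvK (mkF v s) (etat t σ) l b K X ∧
        (∀ e ∈ K, IsRole (mkF v s) (etat t σ) e (r e)))).card : ℝ)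
  have hcount : ∀ v s σ, ((univ.filter (fun z : Fin q → Fin n => Rooted v (univ.image z) H ∧
        EvK (mkF v s) (etat t σ) l b K X)).card : ℝ) ≤ ∑ d ∈ DA, ∑ r ∈ RK, c d r v s σ := by
    intro v s σ
    have hsub : (univ.filter (fun z : Fin q → Fin n => Rooted v (univ.image z) H ∧
        EvK (mkF v s) (etat t σ) l b K X)) ⊆ DA.biUnion (fun d => RK.biUnion (fun r =>
          univ.filter (fun z : Fin q → Fin n => TreeC v z H d ∧
            EvK (mkF v s) (etat t σ) l b K X ∧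
            (∀ e ∈ K, IsRole (mkF v s) (etat t σ) e (r e))))) := by
      intro z hz
      rw [mem_filter] at hz
      obtain ⟨-, hR, hE⟩ := hz
      obtain ⟨d, hd, hT⟩ := exists_tree v z H hR
      have hr : ∀ e : Fin m, ∃ ρ : Rl k, (e ∈ K → IsRole (mkF v s) (etat t σ) e ρ) ∧
          (e ∉ K → ρ = Sum.inl none) := by
        intro e
        by_cases he : e ∈ K
        · obtain ⟨ρ, hρ⟩ := exists_role (mkF v s) (etat t σ) e
          exact ⟨ρ, fun _ => hρ, fun h => absurd he h⟩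
        · exact ⟨Sum.inl none, fun h => absurd h he, fun _ => rfl⟩
      choose r hr1 hr2 using hr
      rw [mem_biUnion]
      refine ⟨d, by simp [DA, hd], ?_⟩
      rw [mem_biUnion]
      refine ⟨r, ?_, ?_⟩
      · rw [Fintype.mem_piFinset]
        intro e
        by_cases he : e ∈ K
        · simp [he]
        · simp [he, hr2 e he]
      · rw [mem_filter]
        exact ⟨mem_univ _, hT, hE, fun e he => hr1 e he⟩
    have h1 : (univ.filter (fun z : Fin q → Fin n => Rooted v (univ.image z) H ∧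
        EvK (mkF v s) (etat t σ) l b K X)).card ≤ ∑ d ∈ DA, ∑ r ∈ RK,
          (univ.filter (fun z : Fin q → Fin n => TreeC v z H d ∧
            EvK (mkF v s) (etat t σ) l b K X ∧
            (∀ e ∈ K, IsRole (mkF v s) (etat t σ) e (r e)))).card := by
      refine (card_le_card hsub).trans (card_biUnion_le.trans ?_)
      exact sum_le_sum fun d _ => card_biUnion_le
    have h2 : ((∑ d ∈ DA, ∑ r ∈ RK,
          (univ.filter (fun z : Fin q → Fin n => TreeC v z H d ∧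
            EvK (mkF v s) (etat t σ) l b K X ∧
            (∀ e ∈ K, IsRole (mkF v s) (etat t σ) e (r e)))).card : ℕ) : ℝ) =
        ∑ d ∈ DA, ∑ r ∈ RK, c d r v s σ := by
      push_cast
      rfl
    rw [← h2]
    exact_mod_cast h1
  set B : ℝ := (n : ℝ) ^ q / (n : ℝ) ^ H.card * ((8 : ℝ) ^ K.card / 2 ^ (k * K.card)) *
        (k : ℝ) ^ (26 * X.card) * (1 - g / 2) ^ N * ((n : ℝ) ^ (k * m) * 2 ^ (k * m)) with hB
  have hB0 : 0 ≤ B := by positivity
  have hstep : ∑ v : Pos n k m, ∑ s : Sgn k m, ∑ σ : Asg n, w v s σ *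
      ((univ.filter (fun z : Fin q → Fin n => Rooted v (univ.image z) H ∧
        EvK (mkF v s) (etat t σ) l b K X)).card : ℝ) ≤
      ∑ d ∈ DA, ∑ r ∈ RK, ∑ v : Pos n k m, ∑ s : Sgn k m, ∑ σ : Asg n, w v s σ * c d r v s σ := by
    have h1 : ∑ v : Pos n k m, ∑ s : Sgn k m, ∑ σ : Asg n, w v s σ *
      ((univ.filter (fun z : Fin q → Fin n => Rooted v (univ.image z) H ∧
        EvK (mkF v s) (etat t σ) l b K X)).card : ℝ) ≤
        ∑ v : Pos n k m, ∑ s : Sgn k m, ∑ σ : Asg n, ∑ d ∈ DA, ∑ r ∈ RK,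
          w v s σ * c d r v s σ := by
      refine sum_le_sum fun v _ => sum_le_sum fun s _ => sum_le_sum fun σ _ => ?_
      refine (mul_le_mul_of_nonneg_left (hcount v s σ) (hw.nonneg v s σ)).trans (le_of_eq ?_)
      rw [mul_sum]
      exact sum_congr rfl fun d _ => mul_sum _ _ _
    refine h1.trans (le_of_eq ?_)
    have h2 : ∀ v : Pos n k m, ∀ s : Sgn k m, ∑ σ : Asg n, ∑ d ∈ DA, ∑ r ∈ RK,
          w v s σ * c d r v s σ = ∑ d ∈ DA, ∑ r ∈ RK, ∑ σ : Asg n, w v s σ * c d r v s σ := by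
      intro v s
      rw [sum_comm]
      exact sum_congr rfl fun d _ => sum_comm
    have h3 : ∀ v : Pos n k m, ∑ s : Sgn k m, ∑ d ∈ DA, ∑ r ∈ RK, ∑ σ : Asg n,
          w v s σ * c d r v s σ =
          ∑ d ∈ DA, ∑ r ∈ RK, ∑ s : Sgn k m, ∑ σ : Asg n, w v s σ * c d r v s σ := by
      intro v
      rw [sum_comm]
      exact sum_congr rfl fun d _ => sum_comm
    rw [sum_congr rfl fun v _ => sum_congr rfl fun s _ => h2 v s,
      sum_congr rfl fun v _ => h3 v, sum_comm]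
    exact sum_congr rfl fun d _ => sum_comm
  refine hstep.trans ?_
  have hb2 : ∑ d ∈ DA, ∑ r ∈ RK, ∑ v : Pos n k m, ∑ s : Sgn k m, ∑ σ : Asg n,
      w v s σ * c d r v s σ ≤ ∑ _d ∈ DA, ∑ _r ∈ RK, B := by
    refine sum_le_sum fun d hd => sum_le_sum fun r _ => ?_
    exact fm_rd hn hk w K A X H hw t l b g hg0 hg1 hb hX hKH hH h8 N hN r d (mem_filter.1 hd).2
  refine hb2.trans ?_
  rw [sum_const, sum_const, nsmul_eq_mul, nsmul_eq_mul, hRK]
  have hDA' : (DA.card : ℝ) ≤ ((q : ℝ) + H.card) ^ H.card * ((k : ℝ) ^ H.card * (k : ℝ) ^ H.card) := by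
    exact_mod_cast hDA
  refine (mul_le_mul_of_nonneg_right hDA' (by positivity)).trans (le_of_eq ?_)
  rw [hB]
  push_cast
  have hk2 : ((k : ℝ) ^ 2) ^ H.card = (k : ℝ) ^ H.card * (k : ℝ) ^ H.card := by
    rw [← mul_pow, sq]
  rw [div_pow, div_pow, mul_pow, mul_pow, ← pow_mul 2 k, hk2]
  ring

/-- FIRST MOMENT BOUND for dominated laws.
PROOF. `Dom`: `μ ≤ 4^|K| ∑_{A ⊆ K} w A`, `2^|K|` sets `A`; `fm_w`. -/
theorem fm {q : ℕ} (hn : 0 < n) (hk : 2 ≤ k) (μ : Pos n k m → Sgn k m → Asg n → ℝ)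
    (hμ : Dom μ) (K X H : Finset (Fin m)) (t l b : ℕ) (g : ℝ) (hg0 : 0 ≤ g) (hg1 : g ≤ 1)
    (hb : g * n ≤ b) (hX : X ⊆ K) (hKH : K ⊆ H) (hH : H.card ≤ l) (h8 : K.card ≤ 8 * X.card)
    (N : ℕ) (hN : N + 2 * H.card + X.card ≤ X.card * (k / 2)) :
    ∑ v : Pos n k m, ∑ s : Sgn k m, ∑ σ : Asg n, μ v s σ *
      ((univ.filter (fun z : Fin q → Fin n => Rooted v (univ.image z) H ∧
        EvK (mkF v s) (etat t σ) l b K X)).card : ℝ) ≤
      (n : ℝ) ^ q * (((q : ℝ) + H.card) * k ^ 2 / n) ^ H.card *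
        (64 * (2 * k + 2) / 2 ^ k) ^ K.card *
        (k : ℝ) ^ (26 * X.card) * (1 - g / 2) ^ N * ((n : ℝ) ^ (k * m) * 2 ^ (k * m)) := by
  obtain ⟨w, hw, hle⟩ := hμ.2 K
  have hnR : (0 : ℝ) < n := by exact_mod_cast hn
  have hg2 : (0 : ℝ) ≤ 1 - g / 2 := by linarith
  let c : Pos n k m → Sgn k m → Asg n → ℝ := fun v s σ =>
    ((univ.filter (fun z : Fin q → Fin n => Rooted v (univ.image z) H ∧
        EvK (mkF v s) (etat t σ) l b K X)).card : ℝ)
  have hc0 : ∀ v s σ, 0 ≤ c v s σ := fun v s σ => Nat.cast_nonneg _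
  set B : ℝ := (n : ℝ) ^ q * (((q : ℝ) + H.card) * k ^ 2 / n) ^ H.card *
        (8 * (2 * k + 2) / 2 ^ k) ^ K.card *
        (k : ℝ) ^ (26 * X.card) * (1 - g / 2) ^ N * ((n : ℝ) ^ (k * m) * 2 ^ (k * m)) with hB
  have h1 : ∑ v : Pos n k m, ∑ s : Sgn k m, ∑ σ : Asg n, μ v s σ * c v s σ ≤
      ∑ v : Pos n k m, ∑ s : Sgn k m, ∑ σ : Asg n, ∑ A ∈ K.powerset,
        4 ^ K.card * (w A v s σ * c v s σ) := by
    refine sum_le_sum fun v _ => sum_le_sum fun s _ => sum_le_sum fun σ _ => ?_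
    refine (mul_le_mul_of_nonneg_right (hle v s σ) (hc0 v s σ)).trans (le_of_eq ?_)
    rw [mul_assoc, sum_mul, mul_sum]
  have h2 : ∑ v : Pos n k m, ∑ s : Sgn k m, ∑ σ : Asg n, ∑ A ∈ K.powerset,
        (4 : ℝ) ^ K.card * (w A v s σ * c v s σ) =
      ∑ A ∈ K.powerset, 4 ^ K.card * ∑ v : Pos n k m, ∑ s : Sgn k m, ∑ σ : Asg n,
        w A v s σ * c v s σ := by
    have e1 : ∀ v : Pos n k m, ∀ s : Sgn k m, ∑ σ : Asg n, ∑ A ∈ K.powerset,
        (4 : ℝ) ^ K.card * (w A v s σ * c v s σ) =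
        ∑ A ∈ K.powerset, ∑ σ : Asg n, (4 : ℝ) ^ K.card * (w A v s σ * c v s σ) :=
      fun v s => sum_comm
    have e2 : ∀ v : Pos n k m, ∑ s : Sgn k m, ∑ A ∈ K.powerset, ∑ σ : Asg n,
        (4 : ℝ) ^ K.card * (w A v s σ * c v s σ) =
        ∑ A ∈ K.powerset, ∑ s : Sgn k m, ∑ σ : Asg n, (4 : ℝ) ^ K.card * (w A v s σ * c v s σ) :=
      fun v => sum_comm
    rw [sum_congr rfl fun v _ => sum_congr rfl fun s _ => e1 v s,
      sum_congr rfl fun v _ => e2 v, sum_comm]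
    refine sum_congr rfl fun A _ => ?_
    simp_rw [mul_sum]
  refine h1.trans ?_
  rw [h2]
  have h3 : ∑ A ∈ K.powerset, (4 : ℝ) ^ K.card * ∑ v : Pos n k m, ∑ s : Sgn k m, ∑ σ : Asg n,
        w A v s σ * c v s σ ≤ ∑ _A ∈ K.powerset, 4 ^ K.card * B := by
    refine sum_le_sum fun A _ => mul_le_mul_of_nonneg_left ?_ (by positivity)
    exact fm_w hn hk (w A) K A X H (hw A) t l b g hg0 hg1 hb hX hKH hH h8 N hN
  refine h3.trans (le_of_eq ?_)
  rw [sum_const, card_powerset, nsmul_eq_mul, hB]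
  push_cast
  have h4 : (64 * (2 * (k : ℝ) + 2) / 2 ^ k) ^ K.card =
      2 ^ K.card * 4 ^ K.card * (8 * (2 * (k : ℝ) + 2) / 2 ^ k) ^ K.card := by
    rw [← mul_pow, ← mul_pow]
    congr 1
    ring
  rw [h4]
  ring

end GC
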