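import Pool.Agent.W_bd7f91F_h12.Defs

/-! # Events E1 and E2 hold with high probability -/

set_option autoImplicit false

open Finset
open scoped Classical

namespace GC

variable {n k m : ℕ}

theorem GeoA_count (K : Finset (Fin m)) (Z : Finset (Fin n)) :
    (univ.filter (fun v : Pos n k m => VS v K ⊆ Z)).card * n ^ (k * K.card) =
      Z.card ^ (k * K.card) * n ^ (k * m) := by
  have h1 : univ.filter (fun v : Pos n k m => VS v K ⊆ Z) =
      Fintype.piFinset (fun e : Fin m => if e ∈ K then Fintype.piFinset (fun _ : Fin k => Z)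
        else (univ : Finset (Fin k → Fin n))) := by
    ext v
    rw [mem_filter, Fintype.mem_piFinset]
    constructor
    · rintro ⟨-, h⟩ e
      split_ifs with he
      · rw [Fintype.mem_piFinset]
        intro j
        exact h (mem_biUnion.2 ⟨e, he, mem_image.2 ⟨j, mem_univ _, rfl⟩⟩)
      · exact mem_univ _
    · intro h
      refine ⟨mem_univ _, fun y hy => ?_⟩
      obtain ⟨e, he, hy⟩ := mem_biUnion.1 hy
      obtain ⟨j, _, rfl⟩ := mem_image.1 hy
      have h2 := h e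
      rw [if_pos he, Fintype.mem_piFinset] at h2
      exact h2 j
  have h2 : ∀ e : Fin m, (if e ∈ K then Fintype.piFinset (fun _ : Fin k => Z)
        else (univ : Finset (Fin k → Fin n))).card = if e ∈ K then Z.card ^ k else n ^ k := by
    intro e
    split_ifs
    · rw [Fintype.card_piFinset_const]
    · rw [card_univ, Fintype.card_fun, Fintype.card_fin, Fintype.card_fin]
  rw [h1, Fintype.card_piFinset]
  simp only [h2]
  rw [Finset.prod_ite, prod_const, prod_const]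
  have h3 : univ.filter (fun e : Fin m => e ∈ K) = K := by
    ext e
    simp
  have h4 := Finset.card_filter_add_card_filter_not (s := (univ : Finset (Fin m)))
    (fun e => e ∈ K)
  rw [h3, card_univ, Fintype.card_fin] at h4
  rw [h3, ← pow_mul, ← pow_mul, mul_assoc, ← pow_add]
  have h5 : k * (univ.filter (fun e : Fin m => e ∉ K)).card + k * K.card = k * m := by
    rw [← mul_add, add_comm]
    exact congrArg (fun y => k * y) h4
  rw [h5]

/-- PROOF. For a set `Z` of `u` variables, the number of `v` with `VS v K ⊆ Z` is `u^(k |K|) n^(k (m - |K|))`; there are `C(n, u)` sets `Z`;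
`|VS v K| ≤ u` implies `VS v K ⊆ Z` for some `Z` with `|Z| = u` (`u ≤ n`). -/
theorem e1_count (K : Finset (Fin m)) (u : ℕ) (hu : u ≤ n) :
    (univ.filter (fun v : Pos n k m => (VS v K).card ≤ u)).card * n ^ (k * K.card) ≤
      (n.choose u) * u ^ (k * K.card) * n ^ (k * m) := by
  have h1 : univ.filter (fun v : Pos n k m => (VS v K).card ≤ u) ⊆
      (powersetCard u (univ : Finset (Fin n))).biUnion
        (fun Z => univ.filter (fun v : Pos n k m => VS v K ⊆ Z)) := by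
    intro v hv
    obtain ⟨Z, hZ, hZc⟩ := Finset.exists_superset_card_eq (mem_filter.1 hv).2
      (by rw [Fintype.card_fin]; exact hu)
    exact mem_biUnion.2 ⟨Z, mem_powersetCard.2 ⟨subset_univ _, hZc⟩,
      mem_filter.2 ⟨mem_univ _, hZ⟩⟩
  have h2 := (card_le_card h1).trans card_biUnion_le
  calc (univ.filter (fun v : Pos n k m => (VS v K).card ≤ u)).card * n ^ (k * K.card)
      ≤ (∑ Z ∈ powersetCard u (univ : Finset (Fin n)),
          (univ.filter (fun v : Pos n k m => VS v K ⊆ Z)).card) * n ^ (k * K.card) :=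
        Nat.mul_le_mul_right _ h2
    _ = ∑ Z ∈ powersetCard u (univ : Finset (Fin n)), u ^ (k * K.card) * n ^ (k * m) := by
        rw [sum_mul]
        refine sum_congr rfl (fun Z hZ => ?_)
        rw [GeoA_count, (mem_powersetCard.1 hZ).2]
    _ = (n.choose u) * u ^ (k * K.card) * n ^ (k * m) := by
        rw [sum_const, card_powersetCard, card_univ, Fintype.card_fin, smul_eq_mul, mul_assoc]

/-- EVENT E1.
PROOF. `E1` fails for some `K` with `|K| = r ≥ 1`, `r ≤ l`: `|VS v K| ≤ u` with `u` the largest integer with `16 u < (16 k - 17) r`.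
`e1_count` and `C(m, r) ≤ (3 m / r)^r`, `C(n, u) ≤ (3 n / u)^u`: the number of `v` divided by `n^(km)` is at most
`(3 m / r)^r (3 n / u)^u (u / n)^(k r) = (3 m / r)^r 3^u (u / n)^(k r - u)`, and `k r - u > 17 r / 16`, `u ≤ k r`, so it is at most
`(3 m / r)^r 3^(k r) (k r / n)^(17 r / 16) ≤ (3 * 2^k * 3^k * k^2 (r / n)^(1/16))^r`. For `r ≤ (ll n)^3` and `n` large the base is at most
`n^(-1/32)`; sum over `r ≥ 1`: at most `2 n^(-1/32)`. (`u = 0` is impossible for `k ≥ 3`, `r ≥ 1` if `n ≥ 1`, or trivial.) -/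
theorem e1_prob (hk : 3 ≤ k) : ∀ δ : ℝ, 0 < δ → ∃ n0 : ℕ, ∀ n, n0 ≤ n → ∀ m : ℕ,
    (m : ℝ) ≤ 2 ^ k * n →
    ((univ.filter (fun v : Pos n k m => ¬ E1 v ((ll n) ^ 3))).card : ℝ) ≤
      δ * (n : ℝ) ^ (k * m) := by
  intro δ hδ
  obtain ⟨r0, hr0⟩ : ∃ r0 : ℝ, r0 = (2 : ℝ) ^ ((1 : ℝ) / 16) := ⟨_, rfl⟩
  have hr1 : 1 < r0 := by
    rw [hr0]
    exact Real.one_lt_rpow (by norm_num) (by norm_num)
  have hr16 : r0 ^ 16 = 2 := by
    rw [hr0, ← Real.rpow_natCast, ← Real.rpow_mul (by norm_num)]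
    norm_num
  have hlim : Filter.Tendsto (fun t : ℕ => 2 ^ k * ((k : ℝ) * ((t : ℝ) + 1) ^ 3) ^ k / r0 ^ t)
      Filter.atTop (nhds 0) := by
    have h1 := (tendsto_pow_const_div_const_pow_of_one_lt (3 * k) hr1).comp
      (Filter.tendsto_add_atTop_nat 1)
    have h2 := h1.const_mul (2 ^ k * (k : ℝ) ^ k * r0)
    rw [mul_zero] at h2
    refine h2.congr (fun t => ?_)
    have h3 : r0 ^ t ≠ 0 := pow_ne_zero _ (by linarith)
    have h4 : r0 ≠ 0 := by linarith
    simp only [Function.comp]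
    push_cast
    rw [mul_pow, ← pow_mul, pow_succ]
    field_simp
  have hδ' : (0 : ℝ) < min (1 / 2) (δ / 2) := lt_min (by norm_num) (by linarith)
  obtain ⟨t0, ht0⟩ := Filter.eventually_atTop.1 (hlim.eventually (gt_mem_nhds hδ'))
  refine ⟨2 ^ t0, fun n hn m hm => ?_⟩
  obtain ⟨t, ht⟩ : ∃ t, t = Nat.log 2 n := ⟨_, rfl⟩
  have hn0 : n ≠ 0 := by
    have : 0 < 2 ^ t0 := pow_pos (by norm_num) _
    omega
  have htt : t0 ≤ t := by
    rw [ht]
    exact Nat.le_log_of_pow_le (by norm_num) hn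
  have hll : ll n = t + 1 := by
    unfold ll
    rw [ht]
  have hb := ht0 t htt
  obtain ⟨x, hx⟩ : ∃ x : ℝ, x = r0 ^ t := ⟨_, rfl⟩
  have hx1 : 1 ≤ x := by
    rw [hx]
    exact one_le_pow₀ hr1.le
  have hx16 : x ^ 16 ≤ n := by
    rw [hx, ← pow_mul, mul_comm, pow_mul, hr16]
    have h1 : 2 ^ t ≤ n := by
      rw [ht]
      exact Nat.pow_log_le_self 2 hn0
    exact_mod_cast h1
  obtain ⟨l, hl⟩ : ∃ l, l = (ll n) ^ 3 := ⟨_, rfl⟩
  rw [← hl]
  have hl1 : 1 ≤ l := by
    rw [hl, hll]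
    exact Nat.one_le_pow _ _ (by omega)
  have hlr : ((t : ℝ) + 1) ^ 3 = (l : ℝ) := by
    rw [hl, hll]
    push_cast
    rfl
  rw [hlr, ← hx] at hb
  obtain ⟨b, hbdef⟩ : ∃ b : ℝ, b = 2 ^ k * ((k : ℝ) * l) ^ k / x := ⟨_, rfl⟩
  rw [← hbdef] at hb
  have hx0 : 0 < x := by linarith
  have hN0 : (0 : ℝ) < n := by exact_mod_cast Nat.pos_of_ne_zero hn0
  have hb0 : 0 ≤ b := by
    rw [hbdef]
    positivity
  have hb2 : b < 1 / 2 := lt_of_lt_of_le hb (min_le_left _ _)
  have hbδ : b < δ / 2 := lt_of_lt_of_le hb (min_le_right _ _)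
  -- `k l ≤ n`
  have hkl : k * l ≤ n := by
    have h1 : (1 : ℝ) ≤ (k : ℝ) * l := by
      have h2 : 1 ≤ k * l := Nat.one_le_iff_ne_zero.2 (Nat.mul_ne_zero (by omega) (by omega))
      exact_mod_cast h2
    have h2 : (k : ℝ) * l ≤ ((k : ℝ) * l) ^ k := le_self_pow₀ h1 (by omega)
    have h3 : (1 : ℝ) ≤ 2 ^ k := one_le_pow₀ (by norm_num)
    have h4 : 2 ^ k * ((k : ℝ) * l) ^ k < 1 / 2 * x := by
      rw [hbdef, div_lt_iff₀ hx0] at hb2
      exact hb2
    have h5 : x ≤ x ^ 16 := le_self_pow₀ hx1 (by norm_num)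
    have h6 : ((k : ℝ) * l) ^ k ≤ 2 ^ k * ((k : ℝ) * l) ^ k :=
      le_mul_of_one_le_left (by positivity) h3
    have h7 : ((k * l : ℕ) : ℝ) ≤ n := by
      push_cast
      linarith
    exact_mod_cast h7
  -- the union bound
  have hsub : univ.filter (fun v : Pos n k m => ¬ E1 v l) ⊆
      (Ico 1 (l + 1)).biUnion (fun r => (powersetCard r (univ : Finset (Fin m))).biUnion
        (fun K => univ.filter (fun v : Pos n k m =>
          (VS v K).card ≤ ((16 * k - 17) * r - 1) / 16))) := by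
    intro v hv
    have hv2 : ¬ E1 v l := (mem_filter.1 hv).2
    unfold E1 at hv2
    push Not at hv2
    obtain ⟨K, hK1, hK2⟩ := hv2
    refine mem_biUnion.2 ⟨K.card, mem_Ico.2 ⟨?_, by omega⟩, mem_biUnion.2 ⟨K,
      mem_powersetCard.2 ⟨subset_univ _, rfl⟩, mem_filter.2 ⟨mem_univ _, ?_⟩⟩⟩
    · by_contra h
      have h1 : K.card = 0 := by omega
      rw [h1] at hK2
      omega
    · rw [Nat.le_div_iff_mul_le (by norm_num)]
      omega
  have hterm : ∀ r ∈ Ico 1 (l + 1), ∀ K ∈ powersetCard r (univ : Finset (Fin m)),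
      ((univ.filter (fun v : Pos n k m =>
        (VS v K).card ≤ ((16 * k - 17) * r - 1) / 16)).card : ℝ) ≤
        (((k : ℝ) * l) ^ k) ^ r * (n : ℝ) ^ (k * m) / ((n : ℝ) ^ r * x ^ r) := by
    intro r hr K hK
    obtain ⟨hr1, hr2⟩ := mem_Ico.1 hr
    have hKc : K.card = r := (mem_powersetCard.1 hK).2
    obtain ⟨u, hu⟩ : ∃ u, u = ((16 * k - 17) * r - 1) / 16 := ⟨_, rfl⟩
    rw [← hu]
    have hu1 : 16 * u ≤ (16 * k - 17) * r - 1 := by
      rw [hu]
      exact Nat.mul_div_le _ _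
    have hu2 : 16 * u + 17 * r + 1 ≤ 16 * (k * r) := by
      have h1 : (16 * k - 17) * r + 17 * r = 16 * (k * r) := by
        rw [← Nat.add_mul, Nat.sub_add_cancel (by omega)]
        ring
      have h2 : 1 ≤ (16 * k - 17) * r := Nat.one_le_iff_ne_zero.2
        (Nat.mul_ne_zero (by omega) (by omega))
      omega
    obtain ⟨w, hw⟩ : ∃ w, k * r = u + r + w := ⟨k * r - (u + r), by omega⟩
    have hw2 : r ≤ 16 * w := by omega
    have hukr : u ≤ k * r := by omega
    have hkrl : k * r ≤ k * l := Nat.mul_le_mul_left _ (by omega)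
    have hun : u ≤ n := by omega
    have h1 := e1_count (k := k) (n := n) K u hun
    rw [hKc] at h1
    obtain ⟨c, hc⟩ : ∃ c, c = (univ.filter (fun v : Pos n k m => (VS v K).card ≤ u)).card :=
      ⟨_, rfl⟩
    rw [← hc] at h1 ⊢
    have h2 : (c : ℝ) * (n : ℝ) ^ (k * r) ≤
        (n : ℝ) ^ u * ((((k : ℝ) * l) ^ k) ^ r * (n : ℝ) ^ (k * m)) := by
      have h3 : (c : ℝ) * (n : ℝ) ^ (k * r) ≤
          (n.choose u : ℝ) * (u : ℝ) ^ (k * r) * (n : ℝ) ^ (k * m) := by exact_mod_cast h1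
      have h4 : (n.choose u : ℝ) ≤ (n : ℝ) ^ u := by exact_mod_cast Nat.choose_le_pow n u
      have h5 : (u : ℝ) ^ (k * r) ≤ (((k : ℝ) * l) ^ k) ^ r := by
        rw [← pow_mul]
        refine pow_le_pow_left₀ (by positivity) ?_ _
        have h6 : u ≤ k * l := by omega
        exact_mod_cast h6
      calc (c : ℝ) * (n : ℝ) ^ (k * r)
          ≤ (n.choose u : ℝ) * (u : ℝ) ^ (k * r) * (n : ℝ) ^ (k * m) := h3
        _ ≤ (n : ℝ) ^ u * (((k : ℝ) * l) ^ k) ^ r * (n : ℝ) ^ (k * m) := by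
            refine mul_le_mul_of_nonneg_right ?_ (by positivity)
            exact mul_le_mul h4 h5 (by positivity) (by positivity)
        _ = _ := by ring
    have h3 : x ^ r ≤ (n : ℝ) ^ w := by
      calc x ^ r ≤ x ^ (16 * w) := pow_le_pow_right₀ hx1 hw2
        _ = (x ^ 16) ^ w := by rw [pow_mul]
        _ ≤ (n : ℝ) ^ w := pow_le_pow_left₀ (by positivity) hx16 _
    have h4 : (n : ℝ) ^ u * ((c : ℝ) * ((n : ℝ) ^ r * x ^ r)) ≤
        (n : ℝ) ^ u * ((((k : ℝ) * l) ^ k) ^ r * (n : ℝ) ^ (k * m)) := by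
      refine le_trans ?_ h2
      rw [hw, pow_add, pow_add]
      have h5 : (c : ℝ) * ((n : ℝ) ^ r * x ^ r) ≤ (c : ℝ) * ((n : ℝ) ^ r * (n : ℝ) ^ w) :=
        mul_le_mul_of_nonneg_left (mul_le_mul_of_nonneg_left h3 (by positivity))
          (Nat.cast_nonneg _)
      calc (n : ℝ) ^ u * ((c : ℝ) * ((n : ℝ) ^ r * x ^ r))
          ≤ (n : ℝ) ^ u * ((c : ℝ) * ((n : ℝ) ^ r * (n : ℝ) ^ w)) :=
            mul_le_mul_of_nonneg_left h5 (by positivity)
        _ = _ := by ring
    have h5 := le_of_mul_le_mul_left h4 (by positivity)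
    rw [le_div_iff₀ (by positivity)]
    exact h5
  have hsum : ∀ r ∈ Ico 1 (l + 1), ∑ K ∈ powersetCard r (univ : Finset (Fin m)),
      ((univ.filter (fun v : Pos n k m =>
        (VS v K).card ≤ ((16 * k - 17) * r - 1) / 16)).card : ℝ) ≤
        b ^ r * (n : ℝ) ^ (k * m) := by
    intro r hr
    have h1 := Finset.sum_le_card_nsmul _ _ _ (hterm r hr)
    rw [card_powersetCard, card_univ, Fintype.card_fin, nsmul_eq_mul] at h1
    refine h1.trans ?_
    have h2 : (m.choose r : ℝ) ≤ (2 ^ k * (n : ℝ)) ^ r := by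
      have h3 : (m.choose r : ℝ) ≤ (m : ℝ) ^ r := by exact_mod_cast Nat.choose_le_pow m r
      exact h3.trans (pow_le_pow_left₀ (by positivity) hm _)
    calc (m.choose r : ℝ) * ((((k : ℝ) * l) ^ k) ^ r * (n : ℝ) ^ (k * m) /
          ((n : ℝ) ^ r * x ^ r))
        ≤ (2 ^ k * (n : ℝ)) ^ r * ((((k : ℝ) * l) ^ k) ^ r * (n : ℝ) ^ (k * m) /
          ((n : ℝ) ^ r * x ^ r)) := mul_le_mul_of_nonneg_right h2 (by positivity)
      _ = b ^ r * (n : ℝ) ^ (k * m) := by
          rw [hbdef, div_pow, mul_pow, mul_pow (2 ^ k) (((k : ℝ) * l) ^ k)]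
          field_simp
  have hcard : ((univ.filter (fun v : Pos n k m => ¬ E1 v l)).card : ℝ) ≤
      ∑ r ∈ Ico 1 (l + 1), b ^ r * (n : ℝ) ^ (k * m) := by
    have h1 := (card_le_card hsub).trans card_biUnion_le
    have h2 : ((univ.filter (fun v : Pos n k m => ¬ E1 v l)).card : ℝ) ≤
        ∑ r ∈ Ico 1 (l + 1), (((powersetCard r (univ : Finset (Fin m))).biUnion
        (fun K => univ.filter (fun v : Pos n k m =>
          (VS v K).card ≤ ((16 * k - 17) * r - 1) / 16))).card : ℝ) := by exact_mod_cast h1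
    refine h2.trans (sum_le_sum (fun r hr => ?_))
    refine le_trans ?_ (hsum r hr)
    exact_mod_cast (card_biUnion_le (s := powersetCard r (univ : Finset (Fin m)))
      (t := fun K => univ.filter (fun v : Pos n k m =>
          (VS v K).card ≤ ((16 * k - 17) * r - 1) / 16)))
  refine hcard.trans ?_
  rw [← sum_mul]
  refine mul_le_mul_of_nonneg_right ?_ (by positivity)
  have h1 := geom_sum_Ico_le_of_lt_one (m := 1) (n := l + 1) hb0 (by linarith)
  refine h1.trans ?_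
  rw [pow_one, div_le_iff₀ (by linarith)]
  nlinarith

end GC
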