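import Pool.Agent.W_bd7f91F_h12.TreeL

/-! # Events E1 and E2 hold with high probability -/

set_option autoImplicit false

open Finset
open scoped Classical

namespace GC

variable {n k m : ℕ}

theorem GeoB_card (hn : 0 < n) (j : Fin k) (W : Finset (Fin n)) :
    ((univ.filter (fun c : Fin k → Fin n => c j ∈ W)).card : ℝ) =
      W.card * ((n : ℝ) ^ k / n) := by
  have h1 : univ.filter (fun c : Fin k → Fin n => c j ∈ W) =
      Fintype.piFinset (fun i => if i = j then W else univ) := by
    ext c
    simp only [mem_filter, mem_univ, true_and, Fintype.mem_piFinset]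
    constructor
    · intro h i
      split_ifs with hi
      · rw [hi]
        exact h
      · exact mem_univ _
    · intro h
      have h2 := h j
      rwa [if_pos rfl] at h2
  have hk : 0 < k := lt_of_le_of_lt (Nat.zero_le _) j.2
  have h2 : (Fintype.piFinset (fun i : Fin k => if i = j then W else univ)).card =
      W.card * n ^ (k - 1) := by
    rw [Fintype.card_piFinset, ← Finset.mul_prod_erase univ _ (mem_univ j), if_pos rfl]
    congr 1
    have h3 : ∀ i ∈ (univ : Finset (Fin k)).erase j,
        (if i = j then W else (univ : Finset (Fin n))).card = n := by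
      intro i hi
      rw [if_neg (ne_of_mem_erase hi), card_univ, Fintype.card_fin]
    rw [Finset.prod_congr rfl h3, prod_const, card_erase_of_mem (mem_univ j), card_univ,
      Fintype.card_fin]
  rw [h1, h2]
  push_cast
  have hn' : (n : ℝ) ≠ 0 := by exact_mod_cast hn.ne'
  obtain ⟨k', rfl⟩ : ∃ k', k = k' + 1 := ⟨k - 1, by omega⟩
  rw [Nat.add_sub_cancel, pow_succ]
  field_simp

theorem GeoB_VS_update {v : Pos n k m} {a : Fin m} (c : Fin k → Fin n) {H : Finset (Fin m)}
    (ha : a ∉ H) : VS (Function.update v a c) H = VS v H := by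
  unfold VS
  refine Finset.biUnion_congr rfl fun e he => ?_
  have hea : e ≠ a := by
    rintro rfl
    exact ha he
  unfold VV
  rw [Function.update_of_ne hea]

theorem GeoB_VS_card (v : Pos n k m) (H : Finset (Fin m)) : (VS v H).card ≤ k * H.card := by
  rw [mul_comm]
  refine card_biUnion_le_card_mul _ _ _ fun e _ => ?_
  refine card_image_le.trans ?_
  rw [card_univ, Fintype.card_fin]

/-- TOUCHING CLAUSES, one tree and one set of touching clauses.
PROOF. `ap_weighted` for the clauses, `J = H ∪ S'` (`S'` disjoint from `H`): ranks of `Acyc` on `H`, larger ranks on `S'`; factors of `S'`: indicator that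
`VV v e` meets `insert z (VS v H)`, a set of at most `k |H| + 1` variables: `w = k (k |H| + 1) / n * n^k`; factors of `H`: the tree
constraint, `w = n^(k-1)`. -/
theorem touch_count (hn : 0 < n) (z : Fin n) (H S' : Finset (Fin m)) (hHS : Disjoint H S')
    (d : TD 1 k H) (hd : Acyc H d) :
    ((univ.filter (fun v : Pos n k m => TreeC v (fun _ : Fin 1 => z) H d ∧
      ∀ e ∈ S', (VV v e ∩ insert z (VS v H)).Nonempty)).card : ℝ) ≤
      (1 / (n : ℝ)) ^ H.card * ((k : ℝ) * (k * H.card + 1) / n) ^ S'.card * (n : ℝ) ^ (k * m) := by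
  obtain ⟨rk, hrk⟩ := hd
  have hn' : (0 : ℝ) < n := by exact_mod_cast hn
  have : Nonempty (Fin k → Fin n) := ⟨fun _ => ⟨0, hn⟩⟩
  set N : ℝ := (n : ℝ) ^ k with hN
  have hN0 : 0 < N := pow_pos hn' k
  let rk' : Fin m → ℕ := fun a => if h : a ∈ H then rk ⟨a, h⟩ else
    (univ : Finset {e // e ∈ H}).sup rk + 1
  let val : (a : {e // e ∈ H}) → Pos n k m → Fin n := fun a v =>
    Sum.elim (fun _ : Fin 1 => z) (fun e' => v e'.1 (d.2.2 a)) (d.1 a)
  let F : Fin m → Pos n k m → ℝ := fun a v =>
    if h : a ∈ H then (if v a (d.2.1 ⟨a, h⟩) = val ⟨a, h⟩ v then 1 else 0)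
    else (if (VV v a ∩ insert z (VS v H)).Nonempty then 1 else 0)
  let w : Fin m → ℝ := fun a => if a ∈ H then N / n else (k : ℝ) * (k * H.card + 1) / n * N
  have hval : ∀ (b : {e // e ∈ H}) (a : Fin m) (c : Fin k → Fin n) (v : Pos n k m),
      (∀ h : a ∈ H, rk b ≤ rk ⟨a, h⟩) → val b (Function.update v a c) = val b v := by
    intro b a c v hab
    show Sum.elim (fun _ : Fin 1 => z) (fun e' => Function.update v a c e'.1 (d.2.2 b)) (d.1 b) =
      Sum.elim (fun _ : Fin 1 => z) (fun e' => v e'.1 (d.2.2 b)) (d.1 b)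
    cases hp : d.1 b with
    | inl i => rfl
    | inr e' =>
      simp only [Sum.elim_inr]
      have h1 := hrk b e' hp
      have h2 : e'.1 ≠ a := by
        rintro rfl
        have h3 := hab e'.2
        exact absurd h1 (by simpa using h3)
      rw [Function.update_of_ne h2]
  have hF : ∀ a ∈ H ∪ S', ∀ f, 0 ≤ F a f := by
    intro a _ f
    show 0 ≤ (if h : a ∈ H then _ else _ : ℝ)
    split_ifs <;> norm_num
  have hdep : ∀ a ∈ H ∪ S', ∀ b ∈ H ∪ S', a ≠ b → rk' b ≤ rk' a → ∀ (f : Pos n k m) c,
      F b (Function.update f a c) = F b f := by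
    intro a _ b _ hab hle f c
    by_cases hb : b ∈ H
    · have h1 : ∀ h : a ∈ H, rk ⟨b, hb⟩ ≤ rk ⟨a, h⟩ := by
        intro h
        have h2 : rk' b = rk ⟨b, hb⟩ := dif_pos hb
        have h3 : rk' a = rk ⟨a, h⟩ := dif_pos h
        rw [h2, h3] at hle
        exact hle
      have h4 := hval ⟨b, hb⟩ a c f h1
      show (if h : b ∈ H then _ else _ : ℝ) = (if h : b ∈ H then _ else _ : ℝ)
      rw [dif_pos hb, dif_pos hb, h4, Function.update_of_ne hab.symm]
    · have ha : a ∉ H := by
        intro ha
        have h2 : rk' b = (univ : Finset {e // e ∈ H}).sup rk + 1 := dif_neg hb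
        have h3 : rk' a = rk ⟨a, ha⟩ := dif_pos ha
        have h4 : rk ⟨a, ha⟩ ≤ (univ : Finset {e // e ∈ H}).sup rk := le_sup (mem_univ _)
        rw [h2, h3] at hle
        omega
      have h5 : VV (Function.update f a c) b = VV f b := by
        unfold VV
        rw [Function.update_of_ne hab.symm]
      show (if h : b ∈ H then _ else _ : ℝ) = (if h : b ∈ H then _ else _ : ℝ)
      rw [dif_neg hb, dif_neg hb, GeoB_VS_update c ha, h5]
  have hw : ∀ a ∈ H ∪ S', ∀ f : Pos n k m, ∑ c, F a (Function.update f a c) ≤ w a := by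
    intro a _ f
    by_cases ha : a ∈ H
    · have h1 : ∀ c, F a (Function.update f a c) =
          if c (d.2.1 ⟨a, ha⟩) ∈ ({val ⟨a, ha⟩ f} : Finset (Fin n)) then 1 else 0 := by
        intro c
        have h2 := hval ⟨a, ha⟩ a c f (fun _ => le_refl _)
        show (if h : a ∈ H then _ else _ : ℝ) = _
        rw [dif_pos ha, h2, Function.update_self]
        simp only [mem_singleton]
      have h3 : w a = N / n := if_pos ha
      rw [h3, Finset.sum_congr rfl fun c _ => h1 c, Finset.sum_boole, GeoB_card hn,
        card_singleton]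
      simp [hN]
    · have h3 : w a = (k : ℝ) * (k * H.card + 1) / n * N := if_neg ha
      rw [h3]
      have h1 : ∀ c, F a (Function.update f a c) ≤
          ∑ j : Fin k, if c j ∈ insert z (VS f H) then (1 : ℝ) else 0 := by
        intro c
        show (if h : a ∈ H then _ else _ : ℝ) ≤ _
        rw [dif_neg ha, GeoB_VS_update c ha]
        have h4 : VV (Function.update f a c) a = univ.image c := by
          unfold VV
          rw [Function.update_self]
        rw [h4]
        split_ifs with hne
        · obtain ⟨y, hy⟩ := hne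
          obtain ⟨hy1, hy2⟩ := mem_inter.1 hy
          obtain ⟨j, _, rfl⟩ := mem_image.1 hy1
          refine le_trans ?_ (Finset.single_le_sum (f := fun j : Fin k =>
            if c j ∈ insert z (VS f H) then (1 : ℝ) else 0) ?_ (mem_univ j))
          · rw [if_pos hy2]
          · intro i _
            split_ifs <;> norm_num
        · refine Finset.sum_nonneg fun i _ => ?_
          split_ifs <;> norm_num
      refine (Finset.sum_le_sum fun c _ => h1 c).trans ?_
      rw [Finset.sum_comm]
      have h5 : ∀ j : Fin k, (∑ c : Fin k → Fin n,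
          if c j ∈ insert z (VS f H) then (1 : ℝ) else 0) ≤ (k * H.card + 1) * (N / n) := by
        intro j
        rw [Finset.sum_boole, GeoB_card hn]
        refine mul_le_mul_of_nonneg_right ?_ (by positivity)
        have h6 := card_insert_le z (VS f H)
        have h7 := GeoB_VS_card f H
        have h8 : (insert z (VS f H)).card ≤ k * H.card + 1 := by omega
        exact_mod_cast h8
      refine (Finset.sum_le_sum fun j _ => h5 j).trans ?_
      rw [Finset.sum_const, card_univ, Fintype.card_fin, nsmul_eq_mul]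
      apply le_of_eq
      ring
  have key := ap_weighted (H ∪ S') rk' F w hF hdep hw
  have hcard : (Fintype.card (Fin k → Fin n) : ℝ) = N := by
    rw [Fintype.card_fun, Fintype.card_fin, Fintype.card_fin]
    push_cast
    rfl
  rw [hcard, Fintype.card_fin, card_union_of_disjoint hHS, Finset.prod_union hHS] at key
  have hwH : ∏ a ∈ H, w a = (N / n) ^ H.card := by
    rw [Finset.prod_congr rfl fun a ha => (if_pos ha : w a = N / n), prod_const]
  have hwS : ∏ a ∈ S', w a = ((k : ℝ) * (k * H.card + 1) / n * N) ^ S'.card := by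
    rw [Finset.prod_congr rfl fun a ha => (if_neg (fun h => disjoint_left.1 hHS h ha) :
      w a = (k : ℝ) * (k * H.card + 1) / n * N), prod_const]
  rw [hwH, hwS] at key
  have hle : ((univ.filter (fun v : Pos n k m => TreeC v (fun _ : Fin 1 => z) H d ∧
      ∀ e ∈ S', (VV v e ∩ insert z (VS v H)).Nonempty)).card : ℝ) ≤
      ∑ f : Pos n k m, ∏ a ∈ H ∪ S', F a f := by
    rw [← Finset.sum_boole]
    refine Finset.sum_le_sum fun v _ => ?_
    split_ifs with hv
    · refine le_of_eq (Finset.prod_eq_one fun a ha => ?_).symm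
      show (if h : a ∈ H then _ else _ : ℝ) = 1
      by_cases haH : a ∈ H
      · rw [dif_pos haH, if_pos (hv.1 ⟨a, haH⟩)]
      · have haS : a ∈ S' := (mem_union.1 ha).resolve_left haH
        rw [dif_neg haH, if_pos (hv.2 a haS)]
    · exact Finset.prod_nonneg fun a ha => hF a ha v
  refine hle.trans ?_
  have hpos : 0 < N ^ (H.card + S'.card) := pow_pos hN0 _
  refine le_of_mul_le_mul_right (key.trans (le_of_eq ?_)) hpos
  rw [div_pow, mul_pow, pow_add, pow_mul, ← hN, one_div, inv_pow]
  field_simp

end GC
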