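import Pool.Agent.W_bd7f91F_h12.GeoB

/-! # Events E1 and E2 hold with high probability -/

set_option autoImplicit false

open Finset
open scoped Classical

namespace GC

variable {n k m : ℕ}

theorem GeoC_fac (s : ℕ) : (s : ℝ) ^ s ≤ 3 ^ s * (s.factorial : ℝ) := by
  have h1 : (s : ℝ) ^ s / (s.factorial : ℝ) ≤ Real.exp s :=
    Real.pow_div_factorial_le_exp (s : ℝ) (Nat.cast_nonneg s) s
  have h2 : Real.exp s ≤ 3 ^ s := by
    have h3 : Real.exp (1 : ℝ) ≤ 3 := by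
      have := Real.exp_one_lt_d9
      linarith
    calc Real.exp (s : ℝ) = Real.exp 1 ^ s := by
          rw [← Real.exp_nat_mul, mul_one]
      _ ≤ 3 ^ s := pow_le_pow_left₀ (Real.exp_pos _).le h3 s
  have h4 : (0 : ℝ) < (s.factorial : ℝ) := by exact_mod_cast Nat.factorial_pos s
  rw [div_le_iff₀ h4] at h1
  exact h1.trans (mul_le_mul_of_nonneg_right h2 h4.le)

theorem GeoC_fac2 (h : ℕ) : (1 + (h : ℝ)) ^ h ≤ 3 ^ (h + 1) * (h.factorial : ℝ) := by
  have h1 : (1 + (h : ℝ)) ^ h / (h.factorial : ℝ) ≤ Real.exp (1 + (h : ℝ)) :=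
    Real.pow_div_factorial_le_exp (1 + (h : ℝ)) (by positivity) h
  have h2 : Real.exp (1 + (h : ℝ)) ≤ 3 ^ (h + 1) := by
    have h3 : Real.exp (1 : ℝ) ≤ 3 := by
      have := Real.exp_one_lt_d9
      linarith
    calc Real.exp (1 + (h : ℝ)) = Real.exp 1 ^ (h + 1) := by
          rw [← Real.exp_nat_mul, mul_one]
          congr 1
          push_cast
          ring
      _ ≤ 3 ^ (h + 1) := pow_le_pow_left₀ (Real.exp_pos _).le h3 _
  have h4 : (0 : ℝ) < (h.factorial : ℝ) := by exact_mod_cast Nat.factorial_pos h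
  rw [div_le_iff₀ h4] at h1
  exact h1.trans (mul_le_mul_of_nonneg_right h2 h4.le)

theorem GeoC_C (hk : 10 ≤ k) : 24 * 2 ^ k * k ^ 2 ≤ 2 ^ (3 * k) - 1 := by
  have h1 : k ^ 2 ≤ 2 ^ k := by
    have : k ^ 2 < 2 ^ k := by
      induction k, hk using Nat.le_induction with
      | base => norm_num
      | succ j hj ih =>
        have h2 : 2 ^ (j + 1) = 2 * 2 ^ j := by ring
        rw [h2]
        nlinarith
    exact this.le
  have h2 : 2 ^ (3 * k) = 2 ^ k * (2 ^ k * 2 ^ k) := by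
    rw [← pow_add, ← pow_add]
    congr 1
    ring
  have h3 : 1024 ≤ 2 ^ k := by
    calc 1024 = 2 ^ 10 := by norm_num
      _ ≤ 2 ^ k := Nat.pow_le_pow_right (by norm_num) hk
  have h4 : 24 * 2 ^ k * k ^ 2 + 1 ≤ 2 ^ (3 * k) := by
    rw [h2]
    have h5 : 24 * 2 ^ k * k ^ 2 ≤ 24 * 2 ^ k * 2 ^ k := Nat.mul_le_mul_left _ h1
    have h6 : 25 * (2 ^ k * 2 ^ k) ≤ 2 ^ k * (2 ^ k * 2 ^ k) :=
      Nat.mul_le_mul_right _ (by omega)
    have h7 : 1 ≤ 2 ^ k * 2 ^ k := Nat.one_le_iff_ne_zero.mpr (by positivity)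
    nlinarith
  omega

theorem GeoC_num (hk : 10 ≤ k) (hn : 0 < n) (hm : (m : ℝ) ≤ 2 ^ k * n) (L h C : ℕ) (hL : 1 ≤ L)
    (hC : 24 * 2 ^ k * k ^ 2 ≤ C) :
    (m.choose h : ℝ) * ((m.choose (C * (h + L)) : ℝ) * (((1 + (h : ℝ)) ^ h * ((k : ℝ) ^ h * (k : ℝ) ^ h)) *
      ((1 / (n : ℝ)) ^ h * ((k : ℝ) * (k * h + 1) / n) ^ (C * (h + L))))) ≤
      3 * (1 / 8 : ℝ) ^ (2 * L) := by
  have hn' : (0 : ℝ) < (n : ℝ) := by exact_mod_cast hn
  have hk' : (10 : ℝ) ≤ (k : ℝ) := by exact_mod_cast hk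
  have hCr : (24 : ℝ) * 2 ^ k * (k : ℝ) ^ 2 ≤ (C : ℝ) := by exact_mod_cast hC
  have hL' : (1 : ℝ) ≤ (L : ℝ) := by exact_mod_cast hL
  have h2k : (1 : ℝ) ≤ 2 ^ k := one_le_pow₀ (by norm_num)
  set s : ℕ := C * (h + L) with hs
  -- first part
  have hA1 : (m.choose h : ℝ) * ((1 + (h : ℝ)) ^ h * (1 / (n : ℝ)) ^ h) ≤ (2 ^ k) ^ h * 3 ^ (h + 1) := by
    have hf : (0 : ℝ) < (h.factorial : ℝ) := by exact_mod_cast Nat.factorial_pos h
    have e1 : (m.choose h : ℝ) ≤ (m : ℝ) ^ h / (h.factorial : ℝ) := Nat.choose_le_pow_div h m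
    have e2 : (m : ℝ) ^ h ≤ (2 ^ k * n) ^ h := pow_le_pow_left₀ (Nat.cast_nonneg m) hm h
    calc (m.choose h : ℝ) * ((1 + (h : ℝ)) ^ h * (1 / (n : ℝ)) ^ h)
        ≤ ((2 ^ k * n) ^ h / (h.factorial : ℝ)) * ((3 ^ (h + 1) * (h.factorial : ℝ)) * (1 / (n : ℝ)) ^ h) := by
          apply mul_le_mul
          · exact e1.trans (div_le_div_of_nonneg_right e2 hf.le)
          · exact mul_le_mul_of_nonneg_right (GeoC_fac2 h) (by positivity)
          · positivity
          · positivity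
      _ = (2 ^ k) ^ h * 3 ^ (h + 1) := by
          rw [mul_pow, one_div, inv_pow]
          field_simp
  -- second part
  have hA2 : (m.choose s : ℝ) * ((k : ℝ) * (k * h + 1) / n) ^ s ≤ (1 / 8 : ℝ) ^ s := by
    have hf : (0 : ℝ) < (s.factorial : ℝ) := by exact_mod_cast Nat.factorial_pos s
    have e1 : (m.choose s : ℝ) ≤ (m : ℝ) ^ s / (s.factorial : ℝ) := Nat.choose_le_pow_div s m
    have e2 : (m : ℝ) ^ s ≤ (2 ^ k * n) ^ s := pow_le_pow_left₀ (Nat.cast_nonneg m) hm s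
    have e3 : (2 : ℝ) ^ k * (k * (k * h + 1)) ≤ (s : ℝ) / 24 := by
      rw [hs]
      push_cast
      have h1 : (k : ℝ) * (k * h + 1) ≤ (k : ℝ) ^ 2 * (h + L) := by
        have h0 : (0 : ℝ) ≤ (h : ℝ) := Nat.cast_nonneg h
        have h5 : (k : ℝ) ≤ (k : ℝ) ^ 2 := by nlinarith
        have h6 : (k : ℝ) ^ 2 ≤ (k : ℝ) ^ 2 * L := by nlinarith [sq_nonneg (k : ℝ)]
        nlinarith
      have h2 : (2 : ℝ) ^ k * (k * (k * h + 1)) ≤ 2 ^ k * ((k : ℝ) ^ 2 * (h + L)) :=
        mul_le_mul_of_nonneg_left h1 (by positivity)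
      have h3 : (24 : ℝ) * 2 ^ k * (k : ℝ) ^ 2 * (h + L) ≤ C * (h + L) :=
        mul_le_mul_of_nonneg_right hCr (by positivity)
      linarith
    calc (m.choose s : ℝ) * ((k : ℝ) * (k * h + 1) / n) ^ s
        ≤ ((2 ^ k * n) ^ s / (s.factorial : ℝ)) * ((k : ℝ) * (k * h + 1) / n) ^ s := by
          apply mul_le_mul_of_nonneg_right _ (by positivity)
          exact e1.trans (div_le_div_of_nonneg_right e2 hf.le)
      _ = (2 ^ k * (k * (k * h + 1))) ^ s / (s.factorial : ℝ) := by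
          rw [div_mul_eq_mul_div, ← mul_pow]
          congr 2
          field_simp
      _ ≤ ((s : ℝ) / 24) ^ s / (s.factorial : ℝ) := by
          apply div_le_div_of_nonneg_right _ hf.le
          exact pow_le_pow_left₀ (by positivity) e3 s
      _ = (s : ℝ) ^ s / 24 ^ s / (s.factorial : ℝ) := by rw [div_pow]
      _ ≤ (3 ^ s * (s.factorial : ℝ)) / 24 ^ s / (s.factorial : ℝ) := by
          apply div_le_div_of_nonneg_right _ hf.le
          apply div_le_div_of_nonneg_right (GeoC_fac s) (by positivity)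
      _ = (1 / 8 : ℝ) ^ s := by
          have h24 : (24 : ℝ) ^ s = 3 ^ s * 8 ^ s := by
            rw [← mul_pow]
            norm_num
          rw [h24, one_div, inv_pow]
          field_simp
  -- combination
  have hA3 : (1 / 8 : ℝ) ^ s ≤ (1 / 8 : ℝ) ^ (C * h) * (1 / 8 : ℝ) ^ (2 * L) := by
    rw [← pow_add]
    apply pow_le_pow_of_le_one (by norm_num) (by norm_num)
    rw [hs, mul_add]
    have h1 : 1 ≤ 2 ^ k * k ^ 2 := Nat.one_le_iff_ne_zero.mpr (by positivity)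
    have h2 : 2 ≤ C := by nlinarith
    have := Nat.mul_le_mul_right L h2
    omega
  have hA4 : (3 * 2 ^ k * (k : ℝ) ^ 2 * (1 / 8) ^ C) ^ h ≤ 1 := by
    apply pow_le_one₀ (by positivity)
    have h1 : (3 : ℝ) * 2 ^ k * (k : ℝ) ^ 2 ≤ 8 ^ C := by
      have h2 : (C : ℝ) ≤ 8 ^ C := by
        have : C ≤ 8 ^ C := (Nat.lt_pow_self (by norm_num)).le
        exact_mod_cast this
      have h3 : (0 : ℝ) ≤ 2 ^ k * (k : ℝ) ^ 2 := by positivity
      nlinarith
    rw [one_div, inv_pow, ← div_eq_mul_inv, div_le_one (by positivity)]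
    exact h1
  calc (m.choose h : ℝ) * ((m.choose s : ℝ) * (((1 + (h : ℝ)) ^ h * ((k : ℝ) ^ h * (k : ℝ) ^ h)) *
      ((1 / (n : ℝ)) ^ h * ((k : ℝ) * (k * h + 1) / n) ^ s)))
      = ((m.choose h : ℝ) * ((1 + (h : ℝ)) ^ h * (1 / (n : ℝ)) ^ h)) *
        ((m.choose s : ℝ) * ((k : ℝ) * (k * h + 1) / n) ^ s) * ((k : ℝ) ^ h * (k : ℝ) ^ h) := by ring
    _ ≤ ((2 ^ k) ^ h * 3 ^ (h + 1)) * (1 / 8 : ℝ) ^ s * ((k : ℝ) ^ h * (k : ℝ) ^ h) := by
        apply mul_le_mul_of_nonneg_right _ (by positivity)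
        exact mul_le_mul hA1 hA2 (by positivity) (by positivity)
    _ ≤ ((2 ^ k) ^ h * 3 ^ (h + 1)) * ((1 / 8 : ℝ) ^ (C * h) * (1 / 8 : ℝ) ^ (2 * L)) *
        ((k : ℝ) ^ h * (k : ℝ) ^ h) := by
        apply mul_le_mul_of_nonneg_right _ (by positivity)
        exact mul_le_mul_of_nonneg_left hA3 (by positivity)
    _ = 3 * (3 * 2 ^ k * (k : ℝ) ^ 2 * (1 / 8) ^ C) ^ h * (1 / 8 : ℝ) ^ (2 * L) := by
        rw [pow_mul (1 / 8 : ℝ) C h, mul_pow, mul_pow, mul_pow, ← pow_mul (k : ℝ) 2 h, two_mul h, pow_add]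
        ring
    _ ≤ 3 * 1 * (1 / 8 : ℝ) ^ (2 * L) := by
        apply mul_le_mul_of_nonneg_right _ (by positivity)
        exact mul_le_mul_of_nonneg_left hA4 (by norm_num)
    _ = 3 * (1 / 8 : ℝ) ^ (2 * L) := by ring

/-- the event of one tree and one set of touching clauses -/
noncomputable def GeoC_B (z : Fin n) (H S' : Finset (Fin m)) (d : TD 1 k H) : Finset (Pos n k m) :=
  univ.filter (fun v : Pos n k m => TreeC v (fun _ : Fin 1 => z) H d ∧
      ∀ e ∈ S', (VV v e ∩ insert z (VS v H)).Nonempty)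

theorem GeoC_sub (l L c : ℕ) (hc : 1 ≤ c) :
    (univ.filter (fun v : Pos n k m => ¬ E2 v l c L)) ⊆
      (univ : Finset (Fin n)).biUnion (fun z => (range (l + 1)).biUnion (fun h =>
        (powersetCard h (univ : Finset (Fin m))).biUnion (fun H =>
          (powersetCard ((c - 1) * (h + L)) (univ \ H)).biUnion (fun S' =>
            (univ.filter (fun d : TD 1 k H => Acyc H d)).biUnion (fun d => GeoC_B z H S' d))))) := by
  intro v hv
  rw [mem_filter] at hv
  have hv2 := hv.2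
  unfold E2 at hv2
  push Not at hv2
  obtain ⟨z, H, hR, hH, hT⟩ := hv2
  have hR' : Rooted v (univ.image (fun _ : Fin 1 => z)) H := by
    have : (univ.image (fun _ : Fin 1 => z)) = {z} := by
      ext y
      simp [eq_comm]
    rw [this]
    exact hR
  obtain ⟨d, hd, hdT⟩ := exists_tree v (fun _ : Fin 1 => z) H hR'
  set T := tch v (insert z (VS v H)) with hTdef
  have hcard : (c - 1) * (H.card + L) ≤ (T \ H).card := by
    have h1 : T.card ≤ (T \ H).card + H.card := by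
      have := card_le_card_sdiff_add_card (s := T) (t := H)
      exact this
    have h2 : c * (H.card + L) = (c - 1) * (H.card + L) + (H.card + L) := by
      obtain ⟨c', rfl⟩ : ∃ c', c = c' + 1 := ⟨c - 1, by omega⟩
      rw [Nat.add_sub_cancel]
      ring
    omega
  obtain ⟨S', hS'1, hS'2⟩ := exists_subset_card_eq hcard
  rw [mem_biUnion]
  refine ⟨z, mem_univ _, ?_⟩
  rw [mem_biUnion]
  refine ⟨H.card, mem_range.mpr (by omega), ?_⟩
  rw [mem_biUnion]
  refine ⟨H, mem_powersetCard.mpr ⟨subset_univ _, rfl⟩, ?_⟩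
  rw [mem_biUnion]
  refine ⟨S', mem_powersetCard.mpr ⟨?_, hS'2⟩, ?_⟩
  · intro e he
    have := hS'1 he
    rw [mem_sdiff] at this ⊢
    exact ⟨mem_univ _, this.2⟩
  rw [mem_biUnion]
  refine ⟨d, mem_filter.mpr ⟨mem_univ _, hd⟩, ?_⟩
  unfold GeoC_B
  rw [mem_filter]
  refine ⟨mem_univ _, hdT, ?_⟩
  intro e he
  have h1 := hS'1 he
  rw [mem_sdiff] at h1
  have h2 := h1.1
  rw [hTdef] at h2
  unfold tch at h2
  rw [mem_filter] at h2
  exact h2.2

theorem GeoC_card (hn : 0 < n) (l L c : ℕ) (hc : 1 ≤ c) :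
    ((univ.filter (fun v : Pos n k m => ¬ E2 v l c L)).card : ℝ) ≤
      n * ∑ h ∈ range (l + 1), (m.choose h : ℝ) * ((m.choose ((c - 1) * (h + L)) : ℝ) *
        (((1 + (h : ℝ)) ^ h * ((k : ℝ) ^ h * (k : ℝ) ^ h)) *
        ((1 / (n : ℝ)) ^ h * ((k : ℝ) * (k * h + 1) / n) ^ ((c - 1) * (h + L))))) * (n : ℝ) ^ (k * m) := by
  have h1 : ((univ.filter (fun v : Pos n k m => ¬ E2 v l c L)).card : ℝ) ≤
      ∑ z : Fin n, ∑ h ∈ range (l + 1), ∑ H ∈ powersetCard h (univ : Finset (Fin m)),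
        ∑ S' ∈ powersetCard ((c - 1) * (h + L)) (univ \ H),
          ∑ d ∈ univ.filter (fun d : TD 1 k H => Acyc H d), ((GeoC_B z H S' d).card : ℝ) := by
    have h2 := card_le_card (GeoC_sub (n := n) (k := k) (m := m) l L c hc)
    refine (Nat.cast_le.mpr h2).trans ?_
    refine (Nat.cast_le.mpr card_biUnion_le).trans ?_
    rw [Nat.cast_sum]
    refine sum_le_sum (fun z _ => ?_)
    refine (Nat.cast_le.mpr card_biUnion_le).trans ?_
    rw [Nat.cast_sum]
    refine sum_le_sum (fun h _ => ?_)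
    refine (Nat.cast_le.mpr card_biUnion_le).trans ?_
    rw [Nat.cast_sum]
    refine sum_le_sum (fun H _ => ?_)
    refine (Nat.cast_le.mpr card_biUnion_le).trans ?_
    rw [Nat.cast_sum]
    refine sum_le_sum (fun S' _ => ?_)
    refine (Nat.cast_le.mpr card_biUnion_le).trans ?_
    rw [Nat.cast_sum]
  refine h1.trans ?_
  have h3 : ∀ z : Fin n, ∑ h ∈ range (l + 1), ∑ H ∈ powersetCard h (univ : Finset (Fin m)),
        ∑ S' ∈ powersetCard ((c - 1) * (h + L)) (univ \ H),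
          ∑ d ∈ univ.filter (fun d : TD 1 k H => Acyc H d), ((GeoC_B z H S' d).card : ℝ) ≤
      ∑ h ∈ range (l + 1), (m.choose h : ℝ) * ((m.choose ((c - 1) * (h + L)) : ℝ) *
        (((1 + (h : ℝ)) ^ h * ((k : ℝ) ^ h * (k : ℝ) ^ h)) *
        ((1 / (n : ℝ)) ^ h * ((k : ℝ) * (k * h + 1) / n) ^ ((c - 1) * (h + L))))) * (n : ℝ) ^ (k * m) := by
    intro z
    refine sum_le_sum (fun h _ => ?_)
    set s := (c - 1) * (h + L) with hs
    set X : ℝ := (1 / (n : ℝ)) ^ h * ((k : ℝ) * (k * h + 1) / n) ^ s * (n : ℝ) ^ (k * m) with hX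
    have hX0 : 0 ≤ X := by positivity
    set Y : ℝ := ((1 + (h : ℝ)) ^ h * ((k : ℝ) ^ h * (k : ℝ) ^ h)) with hY
    have hY0 : 0 ≤ Y := by positivity
    have h4 : ∀ H ∈ powersetCard h (univ : Finset (Fin m)),
        ∑ S' ∈ powersetCard s (univ \ H),
          ∑ d ∈ univ.filter (fun d : TD 1 k H => Acyc H d), ((GeoC_B z H S' d).card : ℝ) ≤
        (m.choose s : ℝ) * (Y * X) := by
      intro H hH
      rw [mem_powersetCard] at hH
      have h5 : ∀ S' ∈ powersetCard s (univ \ H),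
          ∑ d ∈ univ.filter (fun d : TD 1 k H => Acyc H d), ((GeoC_B z H S' d).card : ℝ) ≤ Y * X := by
        intro S' hS'
        rw [mem_powersetCard] at hS'
        have hdis : Disjoint H S' := by
          rw [disjoint_right]
          intro e he
          have := hS'.1 he
          rw [mem_sdiff] at this
          exact this.2
        have h6 : ∀ d ∈ univ.filter (fun d : TD 1 k H => Acyc H d), ((GeoC_B z H S' d).card : ℝ) ≤ X := by
          intro d hd
          rw [mem_filter] at hd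
          have := touch_count (n := n) (k := k) hn z H S' hdis d hd.2
          rw [hH.2, hS'.2] at this
          exact this
        refine (sum_le_sum h6).trans ?_
        rw [sum_const, nsmul_eq_mul]
        apply mul_le_mul_of_nonneg_right _ hX0
        have h7 : (univ.filter (fun d : TD 1 k H => Acyc H d)).card ≤ Fintype.card (TD 1 k H) := by
          rw [← card_univ]
          exact card_filter_le _ _
        have h8 := tree_card (k := k) (q := 1) H
        rw [hH.2] at h8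
        rw [h8] at h7
        have h9 : ((univ.filter (fun d : TD 1 k H => Acyc H d)).card : ℝ) ≤
            (((1 + h) ^ h * (k ^ h * k ^ h) : ℕ) : ℝ) := by
          exact_mod_cast h7
        refine h9.trans (le_of_eq ?_)
        rw [hY]
        push_cast
        ring
      refine (sum_le_sum h5).trans ?_
      rw [sum_const, nsmul_eq_mul]
      apply mul_le_mul_of_nonneg_right _ (mul_nonneg hY0 hX0)
      rw [card_powersetCard]
      have : (univ \ H).card ≤ m := by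
        have := card_le_card (subset_univ (univ \ H))
        rwa [card_univ, Fintype.card_fin] at this
      exact_mod_cast Nat.choose_le_choose s this
    refine (sum_le_sum h4).trans ?_
    rw [sum_const, nsmul_eq_mul, card_powersetCard, card_univ, Fintype.card_fin]
    apply le_of_eq
    rw [hX]
    ring
  refine (sum_le_sum (fun z _ => h3 z)).trans ?_
  rw [sum_const, nsmul_eq_mul, card_univ, Fintype.card_fin]

/-- EVENT E2.
PROOF. If `E2` fails for `z`, `H`, `|H| = h ≤ l` then at least `s = c (h + ll n) + 1 - h` clauses outside `H` touch `insert z (VS v H)`: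
choose a set `S'` of exactly `s` of them, and tree data `d` (`exists_tree` with `q = 1`). By `touch_count`, `tree_card` the number of `v` divided by
`n^(km)` is at most `n ∑_h C(m, h) ((1 + h) k^2 / n)^h C(m, s) (k (k h + 1) / n)^s ≤
n ∑_h (6 * 2^k k^2)^h (3 m k (k h + 1) / (n s))^s`, and with `c = 2^(3k)` (`k ≥ 10`), `s ≥ (c - 1)(h + ll n)`, the last base is at most
`3 * 2^k k^2 (h + 1) / ((c - 1) (h + ll n)) ≤ 1/8`, and `8^(-s) (6 * 2^k k^2)^h ≤ 2^(- ll n * 3)`; so the sum is at most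
`n (l + 1) / n^3`. -/
theorem e2_prob (hk : 10 ≤ k) : ∃ c3 : ℕ, 1 ≤ c3 ∧ ∀ δ : ℝ, 0 < δ → ∃ n0 : ℕ, ∀ n, n0 ≤ n →
    ∀ m : ℕ, (m : ℝ) ≤ 2 ^ k * n →
    ((univ.filter (fun v : Pos n k m => ¬ E2 v ((ll n) ^ 3) c3 (ll n))).card : ℝ) ≤
      δ * (n : ℝ) ^ (k * m) := by
  refine ⟨2 ^ (3 * k), Nat.one_le_iff_ne_zero.mpr (by positivity), ?_⟩
  intro δ hδ
  refine ⟨⌈6 / δ⌉₊ + 1, ?_⟩
  intro n hn0 m hm
  have hn : 0 < n := by omega
  have hn' : (1 : ℝ) ≤ (n : ℝ) := by exact_mod_cast hn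
  have hδn : 6 ≤ δ * n := by
    have h1 : 6 / δ ≤ (n : ℝ) := by
      refine (Nat.le_ceil (6 / δ)).trans ?_
      have : ⌈6 / δ⌉₊ ≤ n := by omega
      exact_mod_cast this
    rw [div_le_iff₀ hδ] at h1
    linarith
  have hL1 : 1 ≤ ll n := by unfold ll; omega
  have hLn : ll n ≤ n := by
    unfold ll
    have : Nat.log 2 n < n := Nat.log_lt_self 2 (by omega)
    omega
  have hL2 : (n : ℝ) ≤ 2 ^ (ll n) := by
    have : n < 2 ^ (ll n) := Nat.lt_pow_succ_log_self (by norm_num) n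
    exact_mod_cast this.le
  refine (GeoC_card hn ((ll n) ^ 3) (ll n) (2 ^ (3 * k))
    (Nat.one_le_iff_ne_zero.mpr (by positivity))).trans ?_
  rw [← sum_mul, ← mul_assoc]
  apply mul_le_mul_of_nonneg_right _ (by positivity)
  have h1 : ∑ h ∈ range ((ll n) ^ 3 + 1), (m.choose h : ℝ) * ((m.choose ((2 ^ (3 * k) - 1) * (h + ll n)) : ℝ) *
        (((1 + (h : ℝ)) ^ h * ((k : ℝ) ^ h * (k : ℝ) ^ h)) *
        ((1 / (n : ℝ)) ^ h * ((k : ℝ) * (k * h + 1) / n) ^ ((2 ^ (3 * k) - 1) * (h + ll n))))) ≤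
      ∑ h ∈ range ((ll n) ^ 3 + 1), 3 * (1 / 8 : ℝ) ^ (2 * ll n) := by
    refine sum_le_sum (fun h _ => ?_)
    exact GeoC_num hk hn hm (ll n) h (2 ^ (3 * k) - 1) hL1 (GeoC_C hk)
  refine (mul_le_mul_of_nonneg_left h1 (by positivity)).trans ?_
  rw [sum_const, nsmul_eq_mul, card_range]
  have h2 : (1 / 8 : ℝ) ^ (2 * ll n) ≤ 1 / (n : ℝ) ^ 6 := by
    rw [one_div, inv_pow, one_div]
    apply inv_anti₀ (by positivity)
    calc (n : ℝ) ^ 6 ≤ (2 ^ (ll n)) ^ 6 := pow_le_pow_left₀ (by positivity) hL2 6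
      _ = 8 ^ (2 * ll n) := by
          rw [show (8 : ℝ) = 2 ^ 3 by norm_num, ← pow_mul, ← pow_mul]
          congr 1
          ring
  have h3 : (((ll n) ^ 3 + 1 : ℕ) : ℝ) ≤ 2 * (n : ℝ) ^ 3 := by
    have h4 : (ll n) ^ 3 ≤ n ^ 3 := Nat.pow_le_pow_left hLn 3
    have h5 : 1 ≤ n ^ 3 := Nat.one_le_iff_ne_zero.mpr (by positivity)
    have h6 : (ll n) ^ 3 + 1 ≤ 2 * n ^ 3 := by omega
    exact_mod_cast h6
  calc (n : ℝ) * ((((ll n) ^ 3 + 1 : ℕ) : ℝ) * (3 * (1 / 8 : ℝ) ^ (2 * ll n)))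
      ≤ n * ((2 * (n : ℝ) ^ 3) * (3 * (1 / (n : ℝ) ^ 6))) := by
        apply mul_le_mul_of_nonneg_left _ (by positivity)
        apply mul_le_mul h3 _ (by positivity) (by positivity)
        exact mul_le_mul_of_nonneg_left h2 (by norm_num)
    _ = 6 / (n : ℝ) ^ 2 := by
        field_simp
        norm_num
    _ ≤ δ := by
        rw [div_le_iff₀ (by positivity)]
        nlinarith

end GC
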