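import Pool.Agent.W_bd7f91F_h12.Defs

/-! # Events E1 and E2 hold with high probability -/

set_option autoImplicit false

open Finset
open scoped Classical

namespace GC

variable {n k m : ℕ}

theorem GeoD_card_inj (n k : ℕ) :
    (univ.filter (fun u : Fin k → Fin n => Function.Injective u)).card = n.descFactorial k := by
  have h := Fintype.card_embedding_eq (α := Fin k) (β := Fin n)
  rw [Fintype.card_fin, Fintype.card_fin] at h
  rw [← h, ← Fintype.card_subtype]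
  exact Fintype.card_congr (Equiv.subtypeInjectiveEquivEmbedding (Fin k) (Fin n))

theorem GeoD_card (n k m : ℕ) :
    (univ.filter (fun v : Pos n k m => Inj v)).card = (n.descFactorial k) ^ m := by
  have h : univ.filter (fun v : Pos n k m => Inj v) =
      Fintype.piFinset (fun _ : Fin m =>
        univ.filter (fun u : Fin k → Fin n => Function.Injective u)) := by
    ext v
    rw [Finset.mem_filter, Fintype.mem_piFinset]
    constructor
    · intro h a
      exact Finset.mem_filter.2 ⟨Finset.mem_univ _, h.2 a⟩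
    · intro h
      exact ⟨Finset.mem_univ _, fun e => (Finset.mem_filter.1 (h e)).2⟩
  rw [h, Fintype.card_piFinset, Finset.prod_const, GeoD_card_inj, Finset.card_univ,
    Fintype.card_fin]

theorem GeoD_exp {x : ℝ} (h0 : 0 ≤ x) (h1 : x ≤ 1 / 2) : Real.exp (-(2 * x)) ≤ 1 - x := by
  have h2 := Real.add_one_le_exp (2 * x)
  rw [Real.exp_neg]
  have h3 : (Real.exp (2 * x))⁻¹ ≤ (1 + 2 * x)⁻¹ := inv_anti₀ (by linarith) (by linarith)
  refine h3.trans ?_
  rw [inv_le_comm₀ (by linarith) (by linarith), inv_le_iff_one_le_mul₀ (by linarith)]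
  nlinarith

theorem GeoD_desc {n k : ℕ} (hn : 0 < n) (hk : 2 * k ^ 2 ≤ n) :
    (n : ℝ) ^ k * (1 - (k : ℝ) ^ 2 / n) ≤ (n.descFactorial k : ℝ) := by
  have hn' : (0 : ℝ) < n := by exact_mod_cast hn
  have hkn : k ≤ n := by nlinarith
  have h1 : (n - k) ^ k ≤ n.descFactorial k :=
    (Nat.pow_le_pow_left (by omega) k).trans (Nat.pow_sub_le_descFactorial n k)
  have h2 : (((n - k : ℕ) : ℝ)) ^ k ≤ (n.descFactorial k : ℝ) := by exact_mod_cast h1
  refine le_trans ?_ h2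
  rw [Nat.cast_sub hkn]
  have h3 : (n : ℝ) - k = n * (1 + (-(k / n : ℝ))) := by
    field_simp
    ring
  rw [h3, mul_pow]
  apply mul_le_mul_of_nonneg_left _ (by positivity)
  have h4 : (-2 : ℝ) ≤ -(k / n : ℝ) := by
    have : (k : ℝ) / n ≤ 1 := by
      rw [div_le_one hn']
      exact_mod_cast hkn
    linarith
  have h5 := one_add_mul_le_pow h4 k
  refine le_trans (le_of_eq ?_) h5
  ring

/-- MANY INJECTIVE FORMULAS.
PROOF. The number of injective `Fin k → Fin n` is `n (n-1) ... (n-k+1) ≥ n^k (1 - k/n)^k ≥ n^k (1 - k^2/n)`, and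
`(1 - k^2 / n)^m ≥ exp(-2 k^2 m / n) ≥ exp(-2 k^2 2^k)` for `n ≥ 2 k^2`. -/
theorem inj_prob (k : ℕ) : ∃ c : ℝ, 0 < c ∧ ∃ n0 : ℕ, ∀ n, n0 ≤ n → ∀ m : ℕ,
    (m : ℝ) ≤ 2 ^ k * n →
    c * (n : ℝ) ^ (k * m) ≤ ((univ.filter (fun v : Pos n k m => Inj v)).card : ℝ) := by
  refine ⟨Real.exp (-(2 * (k : ℝ) ^ 2 * 2 ^ k)), Real.exp_pos _, max 1 (2 * k ^ 2), ?_⟩
  intro n hn m hm
  have hn1 : 0 < n := lt_of_lt_of_le one_pos ((le_max_left _ _).trans hn)
  have hn2 : 2 * k ^ 2 ≤ n := (le_max_right _ _).trans hn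
  have hn' : (0 : ℝ) < n := by exact_mod_cast hn1
  have hn2' : 2 * (k : ℝ) ^ 2 ≤ n := by exact_mod_cast hn2
  rw [GeoD_card]
  push_cast
  have hx0 : 0 ≤ (k : ℝ) ^ 2 / n := by positivity
  have hx1 : (k : ℝ) ^ 2 / n ≤ 1 / 2 := by
    rw [div_le_div_iff₀ hn' (by norm_num)]
    linarith
  have h1 := GeoD_desc hn1 hn2
  have h2 := GeoD_exp hx0 hx1
  have h3 : Real.exp (-(2 * (k : ℝ) ^ 2 * 2 ^ k)) ≤ (1 - (k : ℝ) ^ 2 / n) ^ m := by
    calc Real.exp (-(2 * (k : ℝ) ^ 2 * 2 ^ k)) ≤ Real.exp (m * (-(2 * ((k : ℝ) ^ 2 / n)))) := by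
          rw [Real.exp_le_exp]
          have h4 : (m : ℝ) / n ≤ 2 ^ k := by
            rw [div_le_iff₀ hn']
            exact hm
          have h5 : (m : ℝ) * (-(2 * ((k : ℝ) ^ 2 / n))) = -(2 * (k : ℝ) ^ 2 * (m / n)) := by
            ring
          rw [h5, neg_le_neg_iff]
          exact mul_le_mul_of_nonneg_left h4 (by positivity)
      _ = (Real.exp (-(2 * ((k : ℝ) ^ 2 / n)))) ^ m := by
          rw [← Real.exp_nat_mul]
      _ ≤ (1 - (k : ℝ) ^ 2 / n) ^ m := pow_le_pow_left₀ (Real.exp_pos _).le h2 m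
  calc Real.exp (-(2 * (k : ℝ) ^ 2 * 2 ^ k)) * (n : ℝ) ^ (k * m)
      ≤ (1 - (k : ℝ) ^ 2 / n) ^ m * (n : ℝ) ^ (k * m) :=
        mul_le_mul_of_nonneg_right h3 (by positivity)
    _ = ((n : ℝ) ^ k * (1 - (k : ℝ) ^ 2 / n)) ^ m := by
        rw [pow_mul, mul_pow]
        ring
    _ ≤ (n.descFactorial k : ℝ) ^ m :=
        pow_le_pow_left₀ (mul_nonneg (by positivity) (by linarith)) h1 m

end GC
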