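import Pool.Agent.W_bd7f91F_h12.NumD

/-! # GLOB in the planted model and in the model M0 -/

set_option autoImplicit false

open Finset
open scoped Classical

namespace GC

theorem GlobP_cl (n k : ℕ) : (univ : Finset (Cl n k)).card = n ^ k * 2 ^ k := by
  rw [Finset.card_univ, Fintype.card_prod, Fintype.card_fun, Fintype.card_fun, Fintype.card_fin,
    Fintype.card_fin, Fintype.card_bool]

theorem GlobP_nv {n k : ℕ} (x : Asg n) :
    (univ.filter (fun c : Cl n k => ¬ Viol c x)).card = (2 ^ k - 1) * n ^ k := by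
  have h1 := Finset.card_filter_add_card_filter_not (s := (univ : Finset (Cl n k)))
    (fun c : Cl n k => Viol c x)
  rw [viol_card, GlobP_cl] at h1
  have h2 : n ^ k * 2 ^ k = n ^ k + (2 ^ k - 1) * n ^ k := by
    have h3 : 1 ≤ 2 ^ k := Nat.one_le_two_pow
    obtain ⟨d, hd⟩ := Nat.exists_eq_add_of_le h3
    rw [hd, Nat.add_sub_cancel_left]
    ring
  omega

/-- sum over the assignments of the counts for fixed assignment -/
theorem GlobP_sum {n k m : ℕ} (P : Asg n → Fml n k m → Prop) (c : ℝ)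
    (h : ∀ σ, ((univ.filter (fun Φ : Fml n k m => P σ Φ)).card : ℝ) ≤ c) :
    ((univ.filter (fun p : Asg n × Fml n k m => P p.1 p.2)).card : ℝ) ≤ 2 ^ n * c := by
  have h1 : (univ.filter (fun p : Asg n × Fml n k m => P p.1 p.2)).card =
      ∑ σ : Asg n, (univ.filter (fun Φ : Fml n k m => P σ Φ)).card := by
    rw [Finset.card_filter, ← Finset.univ_product_univ, Finset.sum_product]
    refine Finset.sum_congr rfl fun σ _ => ?_
    rw [Finset.card_filter]
  rw [h1]
  push_cast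
  refine (Finset.sum_le_sum fun σ _ => h σ).trans (le_of_eq ?_)
  rw [Finset.sum_const, Finset.card_univ, Fintype.card_fun, Fintype.card_fin, Fintype.card_bool,
    nsmul_eq_mul]
  push_cast
  ring

/-- PLANTED MODEL.
PROOF. For fixed `σ`, the formulas with solution `σ` are the functions with values in `A = {c | ¬ Viol c σ}`, `|A| = (2 n)^k - n^k =
(2^k - 1) n^k` (`viol_card`): `glob_A` with `η = etat t σ`. Sum over the `2^n` assignments. -/
theorem glob_planted : ∃ k0 : ℕ, ∀ k, k0 ≤ k → ∃ n0 : ℕ, ∀ n, n0 ≤ n → ∀ m, HM n k m → ∀ t : ℕ,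
    ((univ.filter (fun p : Asg n × Fml n k m => p.1 ∈ SolF p.2 ∧
      ¬ Glob p.2 (etat t p.1) ((ll n) ^ 3) (bb n k))).card : ℝ) ≤
      2 ^ n * (n : ℝ) ^ (k * m) * 2 ^ (k * m) * Real.exp (-(Real.log k ^ 5 * n / (2 * k))) := by
  obtain ⟨k0, hk0⟩ := glob_A
  refine ⟨k0, fun k hk => ?_⟩
  obtain ⟨n0, hn0⟩ := hk0 k hk
  refine ⟨n0, fun n hn m hm t => ?_⟩
  have h1 := GlobP_sum (fun (σ : Asg n) (Φ : Fml n k m) => σ ∈ SolF Φ ∧
      ¬ Glob Φ (etat t σ) ((ll n) ^ 3) (bb n k))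
    ((n : ℝ) ^ (k * m) * 2 ^ (k * m) * Real.exp (-(Real.log k ^ 5 * n / (2 * k)))) (by
      intro σ
      have h2 := hn0 n hn m hm (univ.filter (fun c : Cl n k => ¬ Viol c σ))
        (le_of_eq (GlobP_nv σ).symm) (etat t σ)
      have h3 : (univ.filter (fun Φ : Fml n k m => σ ∈ SolF Φ ∧
          ¬ Glob Φ (etat t σ) ((ll n) ^ 3) (bb n k))) =
          (Fintype.piFinset (fun _ : Fin m => univ.filter (fun c : Cl n k => ¬ Viol c σ))).filter
            (fun Φ : Fml n k m => ¬ Glob Φ (etat t σ) ((ll n) ^ 3) (bb n k)) := by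
        ext Φ
        simp only [SolF, mem_filter, mem_univ, true_and, Fintype.mem_piFinset]
      refine le_trans (le_of_eq ?_) (h2.trans ?_)
      · congr 1
        convert congrArg Finset.card h3
      apply mul_le_mul_of_nonneg_right _ (Real.exp_pos _).le
      have h4 : ((univ.filter (fun c : Cl n k => ¬ Viol c σ)).card : ℝ) ≤ (n : ℝ) ^ k * 2 ^ k := by
        have h5 := Finset.card_filter_le (univ : Finset (Cl n k)) (fun c : Cl n k => ¬ Viol c σ)
        rw [GlobP_cl] at h5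
        exact_mod_cast h5
      calc ((univ.filter (fun c : Cl n k => ¬ Viol c σ)).card : ℝ) ^ m ≤
            ((n : ℝ) ^ k * 2 ^ k) ^ m := pow_le_pow_left₀ (Nat.cast_nonneg _) h4 m
        _ = (n : ℝ) ^ (k * m) * 2 ^ (k * m) := by rw [mul_pow, ← pow_mul, ← pow_mul])
  refine le_trans (le_of_eq ?_) (h1.trans (le_of_eq ?_))
  · congr!
  · ring

/-- MODEL M0. As above with `A = univ`. -/
theorem glob_M : ∃ k0 : ℕ, ∀ k, k0 ≤ k → ∃ n0 : ℕ, ∀ n, n0 ≤ n → ∀ m, HM n k m → ∀ t : ℕ,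
    ((univ.filter (fun p : Asg n × Fml n k m =>
      ¬ Glob p.2 (etat t p.1) ((ll n) ^ 3) (bb n k))).card : ℝ) ≤
      2 ^ n * (n : ℝ) ^ (k * m) * 2 ^ (k * m) * Real.exp (-(Real.log k ^ 5 * n / (2 * k))) := by
  obtain ⟨k0, hk0⟩ := glob_A
  refine ⟨k0, fun k hk => ?_⟩
  obtain ⟨n0, hn0⟩ := hk0 k hk
  refine ⟨n0, fun n hn m hm t => ?_⟩
  have h1 := GlobP_sum (fun (σ : Asg n) (Φ : Fml n k m) =>
      ¬ Glob Φ (etat t σ) ((ll n) ^ 3) (bb n k))
    ((n : ℝ) ^ (k * m) * 2 ^ (k * m) * Real.exp (-(Real.log k ^ 5 * n / (2 * k)))) (by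
      intro σ
      have h2 := hn0 n hn m hm univ (by
        rw [GlobP_cl, mul_comm (n ^ k)]
        exact Nat.mul_le_mul_right _ (Nat.sub_le _ _)) (etat t σ)
      rw [Fintype.piFinset_univ] at h2
      refine le_trans (le_of_eq ?_) (h2.trans ?_)
      · congr!
      apply mul_le_mul_of_nonneg_right _ (Real.exp_pos _).le
      have h4 : ((univ : Finset (Cl n k)).card : ℝ) = (n : ℝ) ^ k * 2 ^ k := by
        rw [GlobP_cl]
        push_cast
        ring
      rw [h4, mul_pow, ← pow_mul, ← pow_mul])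
  refine le_trans (le_of_eq ?_) (h1.trans (le_of_eq ?_))
  · congr!
  · ring

/-- the sets of clauses violated when inserted are small in the model M0.
PROOF. `ld1` with `A = univ`, `Q = ∅`, for all `I` with `w1` elements; `|Cl n k| = (2 n)^k`. -/
theorem viol_M {n k m : ℕ} (hn : 0 < n) (η : Asg n) (w1 : ℕ) :
    ((univ.filter (fun Φ : Fml n k m =>
      w1 ≤ (univ.filter (fun e : Fin m => Viol (Φ e) (arun Φ η e.val).1)).card)).card : ℝ) ≤
      (m.choose w1 : ℝ) / 2 ^ (k * w1) * ((n : ℝ) ^ (k * m) * 2 ^ (k * m)) := by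
  set Ψ : Fml n k m := fun _ => (fun _ => ⟨0, hn⟩, fun _ => false) with hΨ
  have hov : ∀ Φ : Fml n k m, ovF ∅ Φ Ψ = Φ := by
    intro Φ
    funext e
    simp [ovF]
  have hsub : (univ.filter (fun Φ : Fml n k m =>
      w1 ≤ (univ.filter (fun e : Fin m => Viol (Φ e) (arun Φ η e.val).1)).card)) ⊆
      (Finset.powersetCard w1 (univ : Finset (Fin m))).biUnion (fun I =>
        univ.filter (fun Φ : Fml n k m => ∀ e ∈ I, Viol (Φ e) (arun Φ η e.val).1)) := by
    intro Φ hΦ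
    rw [mem_filter] at hΦ
    obtain ⟨I, hI, hI2⟩ := Finset.exists_subset_card_eq hΦ.2
    rw [mem_biUnion]
    refine ⟨I, Finset.mem_powersetCard.2 ⟨Finset.subset_univ _, hI2⟩, ?_⟩
    rw [mem_filter]
    exact ⟨mem_univ _, fun e he => (mem_filter.1 (hI he)).2⟩
  have hone : ∀ I ∈ Finset.powersetCard w1 (univ : Finset (Fin m)),
      ((univ.filter (fun Φ : Fml n k m => ∀ e ∈ I, Viol (Φ e) (arun Φ η e.val).1)).card : ℝ) ≤
      ((n : ℝ) ^ k) ^ w1 * ((n : ℝ) ^ k * 2 ^ k) ^ (m - w1) := by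
    intro I hI
    rw [Finset.mem_powersetCard] at hI
    have h1 := ld1 hn (univ : Finset (Cl n k)) Ψ ∅ ∅ (fun _ => none) η I
      (Finset.disjoint_empty_right I)
    rw [Fintype.piFinset_univ, GlobP_cl, hI.2] at h1
    simp only [hov] at h1
    push_cast at h1
    exact h1
  have hcard : ((univ.filter (fun Φ : Fml n k m =>
      w1 ≤ (univ.filter (fun e : Fin m => Viol (Φ e) (arun Φ η e.val).1)).card)).card : ℝ) ≤
      (m.choose w1 : ℝ) * (((n : ℝ) ^ k) ^ w1 * ((n : ℝ) ^ k * 2 ^ k) ^ (m - w1)) := by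
    have h1 : ((univ.filter (fun Φ : Fml n k m =>
        w1 ≤ (univ.filter (fun e : Fin m => Viol (Φ e) (arun Φ η e.val).1)).card)).card : ℝ) ≤
        ∑ I ∈ Finset.powersetCard w1 (univ : Finset (Fin m)),
          ((univ.filter (fun Φ : Fml n k m => ∀ e ∈ I, Viol (Φ e) (arun Φ η e.val).1)).card : ℝ) := by
      exact_mod_cast (Finset.card_le_card hsub).trans Finset.card_biUnion_le
    refine h1.trans ((Finset.sum_le_sum hone).trans (le_of_eq ?_))
    rw [Finset.sum_const, Finset.card_powersetCard, Finset.card_univ, Fintype.card_fin,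
      nsmul_eq_mul]
  rcases Nat.lt_or_ge m w1 with hlt | hle
  · rw [Nat.choose_eq_zero_of_lt hlt] at hcard ⊢
    simpa using hcard
  · refine hcard.trans (le_of_eq ?_)
    have h2 : (0 : ℝ) < 2 ^ (k * w1) := by positivity
    have h3 : (n : ℝ) ^ (k * m) * 2 ^ (k * m) = (((n : ℝ) ^ k) ^ w1 *
        ((n : ℝ) ^ k * 2 ^ k) ^ (m - w1)) * 2 ^ (k * w1) := by
      obtain ⟨d, rfl⟩ := Nat.exists_eq_add_of_le hle
      rw [Nat.add_sub_cancel_left]
      simp only [mul_add, pow_add, pow_mul, mul_pow]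
      ring
    rw [h3]
    field_simp

end GC
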