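import Pool.Agent.W_bd7f91F_h12.Op

/-! # Influence sets -/

set_option autoImplicit false

open Finset
open scoped Classical

namespace GC

variable {n k m : ℕ}

theorem uset_succ (v : Pos n k m) (D : Finset (Fin m)) (z : Fin n) (i : Fin m) :
    Uset v D z (i.val + 1) = Ustep v D i (Uset v D z i.val) := by
  simp [Uset, i.isLt]

theorem InflA_ustep (v : Pos n k m) (D : Finset (Fin m)) (i : Fin m) (U : Finset (Fin n)) :
    U ⊆ Ustep v D i U := by
  unfold Ustep
  split_ifs
  · exact Finset.Subset.refl _
  · exact Finset.subset_union_left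
  · exact Finset.Subset.trans Finset.subset_union_left Finset.subset_union_left
  · exact Finset.Subset.refl _

theorem InflA_step (v : Pos n k m) (D : Finset (Fin m)) (z : Fin n) (i : ℕ) :
    Uset v D z i ⊆ Uset v D z (i + 1) := by
  by_cases h : i < m
  · have := uset_succ v D z ⟨i, h⟩
    simp only at this
    rw [this]
    exact InflA_ustep v D _ _
  · simp [Uset, h]

theorem uset_mono (v : Pos n k m) (D : Finset (Fin m)) (z : Fin n) {i j : ℕ} (h : i ≤ j) :
    Uset v D z i ⊆ Uset v D z j := by
  induction h with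
  | refl => exact Finset.Subset.refl _
  | step _ ih => exact Finset.Subset.trans ih (InflA_step v D z _)

/-- off the clause the operation does nothing -/
theorem InflA_op_off (u : Fin k → Fin n) (t : Option (Fin k)) (S : St n) {y : Fin n}
    (hy : y ∉ univ.image u) :
    (op u t S).1 y = S.1 y ∧ (y ∈ (op u t S).2 ↔ y ∈ S.2) := by
  cases t with
  | none =>
    refine ⟨rfl, ?_⟩
    simp only [op, Finset.mem_union]
    constructor
    · rintro (h | h)
      · exact h
      · exact absurd h hy
    · exact fun h => Or.inl h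
  | some j =>
    have hyj : y ≠ u j := by
      intro h
      exact hy (by rw [h]; exact Finset.mem_image_of_mem _ (Finset.mem_univ _))
    refine ⟨?_, ?_⟩
    · simp only [op]
      split_ifs
      · rfl
      · exact fl_ne _ hyj
    · simp only [op, Finset.mem_union]
      constructor
      · rintro (h | h)
        · exact h
        · exact absurd (Finset.image_subset_image (Finset.subset_univ _) h) hy
      · exact fun h => Or.inl h

theorem InflA_step_off (Φ : Fml n k m) (i : Fin m) (S : St n) {y : Fin n}
    (hy : y ∉ VV (pos Φ) i) :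
    (step Φ ∅ ∅ (fun _ => none) i S).1 y = S.1 y ∧
      (y ∈ (step Φ ∅ ∅ (fun _ => none) i S).2 ↔ y ∈ S.2) := by
  unfold step
  simp only [Finset.notMem_empty, if_false]
  split_ifs
  · exact InflA_op_off _ _ _ hy
  · exact ⟨rfl, Iff.rfl⟩

theorem InflA_mem_VV (Φ : Fml n k m) (e : Fin m) (j : Fin k) : (Φ e).1 j ∈ VV (pos Φ) e :=
  Finset.mem_image_of_mem _ (Finset.mem_univ _)

theorem InflA_viol (Φ : Fml n k m) (e : Fin m) (x x' : Asg n)
    (h : ∀ y ∈ VV (pos Φ) e, x y = x' y) : Viol (Φ e) x ↔ Viol (Φ e) x' := by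
  unfold Viol
  constructor
  · intro H j
    rw [← h _ (InflA_mem_VV Φ e j)]
    exact H j
  · intro H j
    rw [h _ (InflA_mem_VV Φ e j)]
    exact H j

theorem InflA_crit (Φ : Fml n k m) (e : Fin m) (x x' : Asg n) (y : Fin n)
    (h : y ∈ VV (pos Φ) e → ∀ w ∈ VV (pos Φ) e, x w = x' w) :
    Crit (Φ e) x y ↔ Crit (Φ e) x' y := by
  by_cases hy : y ∈ VV (pos Φ) e
  · have h1 := h hy
    unfold Crit
    rw [InflA_viol Φ e x x' h1, InflA_viol Φ e (fl x y) (fl x' y)]
    intro w hw
    by_cases hwy : w = y
    · subst hwy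
      rw [fl_self, fl_self, h1 _ hw]
    · rw [fl_ne _ hwy, fl_ne _ hwy, h1 _ hw]
  · constructor
    · intro H
      obtain ⟨j, hj, -⟩ := crit_slot H
      exact absurd (by rw [← hj]; exact InflA_mem_VV Φ e j) hy
    · intro H
      obtain ⟨j, hj, -⟩ := crit_slot H
      exact absurd (by rw [← hj]; exact InflA_mem_VV Φ e j) hy

/-- INFLUENCE.
PROOF. Induction on `i`, for the statement that both states agree off `U = Uset v ∅ z i`. Step `i` (`i < m`), `v = pos Φ`. If `VV v i` meets `U` or
some `VV v e`, `e < i`, with `VV v e ∩ U ≠ ∅`, then `VV v i ⊆ Uset (i + 1)`, and the step changes only marks and values of variables of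
clause `i`. Otherwise both states agree on `VV v i`: the clause is violated in both or in none; for `y ∈ VV v i` and `e < i` with
`y ∈ VV v e` the two assignments agree on `VV v e` (it misses `U`), so `Crit (Φ e) _ y` agree (if `y ∉ VV v e` then `Crit` is false:
`crit_slot`), so `Free` agree for the variables of clause `i`, the stop slots agree (`stp_congr`) and the same `op` is applied. -/
theorem influence (Φ : Fml n k m) (z : Fin n) (η η' : Asg n) (h : ∀ y, y ≠ z → η y = η' y)
    (i : ℕ) (y : Fin n) (hy : y ∉ Uset (pos Φ) ∅ z i) :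
    (arun Φ η i).1 y = (arun Φ η' i).1 y ∧ (y ∈ (arun Φ η i).2 ↔ y ∈ (arun Φ η' i).2) := by
  induction i generalizing y with
  | zero =>
    have hyz : y ≠ z := by
      intro hh
      exact hy (by simp [Uset, hh])
    exact ⟨h y hyz, Iff.rfl⟩
  | succ i ih =>
    by_cases hi : i < m
    · have hrun : ∀ ζ : Asg n, arun Φ ζ (i + 1) = step Φ ∅ ∅ (fun _ => none) ⟨i, hi⟩ (arun Φ ζ i) :=
        fun ζ => run_succ Φ ∅ ∅ (fun _ => none) ζ ⟨i, hi⟩
      have hU : Uset (pos Φ) ∅ z (i + 1) = Ustep (pos Φ) ∅ ⟨i, hi⟩ (Uset (pos Φ) ∅ z i) :=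
        uset_succ (pos Φ) ∅ z ⟨i, hi⟩
      rw [hrun, hrun]
      have hyU : y ∉ Uset (pos Φ) ∅ z i := fun hh => hy (InflA_step _ _ _ _ hh)
      set U := Uset (pos Φ) ∅ z i with hUdef
      set S := arun Φ η i with hS
      set S' := arun Φ η' i with hS'
      by_cases hyi : y ∈ VV (pos Φ) ⟨i, hi⟩
      · -- then neither of the first cases
        rw [hU] at hy
        unfold Ustep at hy
        simp only [Finset.notMem_empty, if_false, not_false_eq_true, true_and] at hy
        by_cases hA : (VV (pos Φ) ⟨i, hi⟩ ∩ U).Nonempty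
        · rw [if_pos hA] at hy
          exact absurd (Finset.mem_union_right _ hyi) hy
        rw [if_neg hA] at hy
        by_cases hB : (univ.filter (fun e : Fin m => e < ⟨i, hi⟩ ∧ (VV (pos Φ) e ∩ U).Nonempty ∧
            (VV (pos Φ) ⟨i, hi⟩ ∩ VV (pos Φ) e).Nonempty)).Nonempty
        · rw [dif_pos hB] at hy
          exact absurd (Finset.mem_union_left _ (Finset.mem_union_right _ hyi)) hy
        have hag : ∀ w ∈ VV (pos Φ) ⟨i, hi⟩, w ∉ U := by
          intro w hw hwU
          exact hA ⟨w, Finset.mem_inter.2 ⟨hw, hwU⟩⟩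
        have hage : ∀ e : Fin m, e.val < i → (VV (pos Φ) ⟨i, hi⟩ ∩ VV (pos Φ) e).Nonempty →
            ∀ w ∈ VV (pos Φ) e, w ∉ U := by
          intro e he hne w hw hwU
          exact hB ⟨e, Finset.mem_filter.2 ⟨Finset.mem_univ _, he, ⟨w, Finset.mem_inter.2 ⟨hw, hwU⟩⟩, hne⟩⟩
        have hv : Viol (Φ ⟨i, hi⟩) S.1 ↔ Viol (Φ ⟨i, hi⟩) S'.1 :=
          InflA_viol Φ _ _ _ (fun w hw => (ih w (hag w hw)).1)
        have hstp : stp (Φ ⟨i, hi⟩).1 (Free Φ ∅ ∅ i S) = stp (Φ ⟨i, hi⟩).1 (Free Φ ∅ ∅ i S') := by
          apply stp_congr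
          intro j _
          have hw : (Φ ⟨i, hi⟩).1 j ∈ VV (pos Φ) ⟨i, hi⟩ := InflA_mem_VV Φ _ j
          have h2 := (ih _ (hag _ hw)).2
          have h3 : ∀ e : Fin m, e.val < i →
              (Crit (Φ e) S.1 ((Φ ⟨i, hi⟩).1 j) ↔ Crit (Φ e) S'.1 ((Φ ⟨i, hi⟩).1 j)) := by
            intro e he
            apply InflA_crit
            intro hwe w' hw'
            exact (ih w' (hage e he ⟨_, Finset.mem_inter.2 ⟨hw, hwe⟩⟩ w' hw')).1
          unfold Free
          constructor
          · rintro ⟨a, b, c⟩
            exact ⟨fun hh => a (h2.2 hh), b, fun e he hq hc => c e he hq ((h3 e he).2 hc)⟩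
          · rintro ⟨a, b, c⟩
            exact ⟨fun hh => a (h2.1 hh), b, fun e he hq hc => c e he hq ((h3 e he).1 hc)⟩
        unfold step
        simp only [Finset.notMem_empty, if_false]
        by_cases hvio : Viol (Φ ⟨i, hi⟩) S.1
        · rw [if_pos hvio, if_pos (hv.1 hvio), hstp]
          have hy1 := ih y hyU
          generalize stp (Φ ⟨i, hi⟩).1 (Free Φ ∅ ∅ i S') = t
          cases t with
          | none =>
            refine ⟨hy1.1, ?_⟩
            simp only [op, Finset.mem_union, hy1.2]
          | some j =>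
            have hw : (Φ ⟨i, hi⟩).1 j ∈ VV (pos Φ) ⟨i, hi⟩ := InflA_mem_VV Φ _ j
            have h2 := ih _ (hag _ hw)
            refine ⟨?_, ?_⟩
            · simp only [op]
              by_cases hm : (Φ ⟨i, hi⟩).1 j ∈ S.2
              · rw [if_pos hm, if_pos (h2.2.1 hm)]
                exact hy1.1
              · rw [if_neg hm, if_neg (fun hh => hm (h2.2.2 hh))]
                by_cases hwy : y = (Φ ⟨i, hi⟩).1 j
                · rw [hwy, fl_self, fl_self, h2.1]
                · rw [fl_ne _ hwy, fl_ne _ hwy, hy1.1]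
            · simp only [op, Finset.mem_union, hy1.2]
        · rw [if_neg hvio, if_neg (fun hh => hvio (hv.2 hh))]
          exact ih y hyU
      · have h1 := InflA_step_off Φ ⟨i, hi⟩ S hyi
        have h2 := InflA_step_off Φ ⟨i, hi⟩ S' hyi
        have h3 := ih y hyU
        exact ⟨by rw [h1.1, h2.1, h3.1], by rw [h1.2, h2.2, h3.2]⟩
    · have hrun : ∀ ζ : Asg n, arun Φ ζ (i + 1) = arun Φ ζ i :=
        fun ζ => run_succ_ge Φ ∅ ∅ (fun _ => none) ζ (not_lt.1 hi)
      rw [hrun, hrun]
      exact ih y (fun hh => hy (InflA_step _ _ _ _ hh))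

theorem InflA_VS_insert (v : Pos n k m) (e : Fin m) (G : Finset (Fin m)) :
    VS v (insert e G) = VV v e ∪ VS v G := by
  simp [VS, Finset.biUnion_insert]

theorem InflA_VS_mono (v : Pos n k m) {A B : Finset (Fin m)} (h : A ⊆ B) : VS v A ⊆ VS v B :=
  Finset.biUnion_subset_biUnion_of_subset_left _ h

theorem InflA_rooted_insert (v : Pos n k m) (Z : Finset (Fin n)) (G : Finset (Fin m)) (e : Fin m)
    (hG : Rooted v Z G) (he : (VV v e ∩ (Z ∪ VS v G)).Nonempty) : Rooted v Z (insert e G) := by
  intro A hA hne
  by_cases hGA : G ⊆ A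
  · have heA : e ∉ A := by
      intro hh
      apply hne
      apply Finset.Subset.antisymm hA
      intro x hx
      rcases Finset.mem_insert.1 hx with rfl | hx
      · exact hh
      · exact hGA hx
    refine ⟨e, Finset.mem_sdiff.2 ⟨Finset.mem_insert_self _ _, heA⟩, ?_⟩
    exact he.mono (Finset.inter_subset_inter (Finset.Subset.refl _)
      (Finset.union_subset_union (Finset.Subset.refl _) (InflA_VS_mono v hGA)))
  · obtain ⟨b, hb, hb2⟩ := hG (A ∩ G) Finset.inter_subset_right (by
      intro hh
      apply hGA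
      rw [← hh]
      exact Finset.inter_subset_left)
    rw [Finset.mem_sdiff] at hb
    refine ⟨b, Finset.mem_sdiff.2 ⟨Finset.mem_insert_of_mem hb.1, ?_⟩, ?_⟩
    · intro hh
      exact hb.2 (Finset.mem_inter.2 ⟨hh, hb.1⟩)
    · exact hb2.mono (Finset.inter_subset_inter (Finset.Subset.refl _)
        (Finset.union_subset_union (Finset.Subset.refl _)
          (InflA_VS_mono v Finset.inter_subset_left)))

theorem InflA_gen (v : Pos n k m) (z : Fin n) (i : ℕ) : ∃ G : Finset (Fin m), Rooted v {z} G ∧
    Uset v ∅ z i = insert z (VS v G) ∧ G.card + 2 ≤ 2 * (Uset v ∅ z i).card := by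
  induction i with
  | zero =>
    refine ⟨∅, ?_, ?_, ?_⟩
    · intro A hA hne
      exact absurd (Finset.subset_empty.1 hA) hne
    · simp [Uset, VS]
    · simp [Uset]
  | succ i ih =>
    obtain ⟨G, hG, hU, hc⟩ := ih
    by_cases hi : i < m
    · have hU' : Uset v ∅ z (i + 1) = Ustep v ∅ ⟨i, hi⟩ (Uset v ∅ z i) := uset_succ v ∅ z ⟨i, hi⟩
      set U := Uset v ∅ z i with hUdef
      unfold Ustep at hU'
      simp only [Finset.notMem_empty, if_false, not_false_eq_true, true_and] at hU'
      have hUz : U = {z} ∪ VS v G := by rw [hU]; rfl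
      by_cases hA : (VV v ⟨i, hi⟩ ∩ U).Nonempty
      · rw [if_pos hA] at hU'
        by_cases hsub : VV v ⟨i, hi⟩ ⊆ U
        · refine ⟨G, hG, ?_, ?_⟩
          · rw [hU', Finset.union_eq_left.2 hsub, hU]
          · rw [hU', Finset.union_eq_left.2 hsub]
            exact hc
        · refine ⟨insert ⟨i, hi⟩ G, ?_, ?_, ?_⟩
          · apply InflA_rooted_insert v _ _ _ hG
            rw [← hUz]
            exact hA
          · rw [hU', hU, InflA_VS_insert]
            ext w
            simp only [Finset.mem_union, Finset.mem_insert]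
            tauto
          · rw [hU']
            have h1 : U.card + 1 ≤ (U ∪ VV v ⟨i, hi⟩).card := by
              apply Nat.succ_le_of_lt
              apply Finset.card_lt_card
              rw [Finset.ssubset_iff_subset_ne]
              refine ⟨Finset.subset_union_left, ?_⟩
              intro hh
              apply hsub
              rw [hh]
              exact Finset.subset_union_right
            have h2 : (insert (⟨i, hi⟩ : Fin m) G).card ≤ G.card + 1 := Finset.card_insert_le _ _
            omega
      · rw [if_neg hA] at hU'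
        by_cases hB : (univ.filter (fun e : Fin m => e < ⟨i, hi⟩ ∧ (VV v e ∩ U).Nonempty ∧
            (VV v ⟨i, hi⟩ ∩ VV v e).Nonempty)).Nonempty
        · rw [dif_pos hB] at hU'
          have hmem := Finset.min'_mem _ hB
          set e := (univ.filter (fun e : Fin m => e < ⟨i, hi⟩ ∧ (VV v e ∩ U).Nonempty ∧
            (VV v ⟨i, hi⟩ ∩ VV v e).Nonempty)).min' hB with he
          rw [Finset.mem_filter] at hmem
          obtain ⟨-, hlt, heU, hei⟩ := hmem
          refine ⟨insert ⟨i, hi⟩ (insert e G), ?_, ?_, ?_⟩
          · apply InflA_rooted_insert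
            · apply InflA_rooted_insert v _ _ _ hG
              rw [← hUz]
              exact heU
            · rw [InflA_VS_insert]
              obtain ⟨w, hw⟩ := hei
              rw [Finset.mem_inter] at hw
              exact ⟨w, Finset.mem_inter.2 ⟨hw.1,
                Finset.mem_union_right _ (Finset.mem_union_left _ hw.2)⟩⟩
          · rw [hU', hU, InflA_VS_insert, InflA_VS_insert]
            ext w
            simp only [Finset.mem_union, Finset.mem_insert]
            tauto
          · rw [hU']
            have h1 : U.card + 1 ≤ (U ∪ VV v ⟨i, hi⟩ ∪ VV v e).card := by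
              apply Nat.succ_le_of_lt
              apply Finset.card_lt_card
              rw [Finset.ssubset_iff_subset_ne]
              refine ⟨Finset.Subset.trans Finset.subset_union_left Finset.subset_union_left, ?_⟩
              intro hh
              obtain ⟨w, hw⟩ := hei
              rw [Finset.mem_inter] at hw
              apply hA
              refine ⟨w, Finset.mem_inter.2 ⟨hw.1, ?_⟩⟩
              rw [hh]
              exact Finset.mem_union_left _ (Finset.mem_union_right _ hw.1)
            have h2 : (insert (⟨i, hi⟩ : Fin m) (insert e G)).card ≤ (insert e G).card + 1 :=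
              Finset.card_insert_le _ _
            have h3 : (insert e G).card ≤ G.card + 1 := Finset.card_insert_le _ _
            omega
        · rw [dif_neg hB] at hU'
          exact ⟨G, hG, by rw [hU', hU], by rw [hU']; exact hc⟩
    · have hU' : Uset v ∅ z (i + 1) = Uset v ∅ z i := by simp [Uset, hi]
      exact ⟨G, hG, by rw [hU', hU], by rw [hU']; exact hc⟩

/-- THE GENERATING SET.
PROOF. Induction on `i` for `Uset v ∅ z i`. If in step `i` the set does not grow keep `G`. If `VV v i` meets `U` and `VV v i ⊄ U`: add `i` (one new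
clause, at least one new variable). If the second case applies with the connector `e`: add `e` and `i` (`VV v i` misses `U` and is nonempty:
at least one new variable, two new clauses). `Rooted` is preserved (`VV v e` meets `U`, `VV v i` meets `VV v e`; `U = insert z (VS v G)`).
So `|G| + 2 ≤ 2 |U|` is preserved (start: `G = ∅`, `|U| = 1`). -/
theorem uset_gen (v : Pos n k m) (z : Fin n) : ∃ G : Finset (Fin m), Rooted v {z} G ∧
    Uset v ∅ z m = insert z (VS v G) ∧ G.card + 2 ≤ 2 * (Uset v ∅ z m).card :=
  InflA_gen v z m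

end GC
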