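import Pool.Agent.W_bd7f91F_h12.InflA

/-! # Influence sets -/

set_option autoImplicit false

open Finset
open scoped Classical

namespace GC

variable {n k m : ℕ}

/-- clause `i` is activated in its step -/
def Activ (v : Pos n k m) (z : Fin n) (i : Fin m) : Prop :=
  (VV v i ∩ Uset v ∅ z i.val).Nonempty ∨
    ∃ e : Fin m, e < i ∧ (VV v e ∩ Uset v ∅ z i.val).Nonempty ∧ (VV v i ∩ VV v e).Nonempty

/-- the chain condition: `I l` are the activated clauses, `C l` the connectors, `U0` the set at the beginning -/
def Chain (v : Pos n k m) (U0 : Finset (Fin n)) (a : ℕ) (I : Fin a → Fin m)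
    (C : Fin a → Option (Fin m)) : Prop :=
  ∀ l : Fin a, match C l with
    | none => (VV v (I l) ∩ (U0 ∪ (univ.filter (fun l' : Fin a => l' < l)).biUnion
        (fun l' => VV v (I l') ∪ (C l').elim ∅ (VV v)))).Nonempty
    | some e => (VV v e ∩ (U0 ∪ (univ.filter (fun l' : Fin a => l' < l)).biUnion
        (fun l' => VV v (I l') ∪ (C l').elim ∅ (VV v)))).Nonempty ∧
        (VV v (I l) ∩ VV v e).Nonempty

/-- the clauses of a chain -/
noncomputable def chD {m : ℕ} (a : ℕ) (I : Fin a → Fin m) (C : Fin a → Option (Fin m)) :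
    Finset (Fin m) := univ.filter (fun e => ∃ l, I l = e ∨ C l = some e)

/-- admissible index data of a chain: all clauses different, activated clauses increasing in the slice -/
structure ChIdx {m : ℕ} (i0 i1 a : ℕ) (I : Fin a → Fin m) (C : Fin a → Option (Fin m)) : Prop where
  mono : StrictMono I
  lo : ∀ l, i0 ≤ (I l).val
  hi : ∀ l, (I l).val < i1
  ne : ∀ l l' e, C l = some e → I l' ≠ e
  inj : ∀ l l' e, C l = some e → C l' = some e → l = l'

/-- the possible connectors -/
noncomputable def InflB_F (v : Pos n k m) (D : Finset (Fin m)) (i : Fin m) (U : Finset (Fin n)) :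
    Finset (Fin m) :=
  univ.filter (fun e : Fin m => e ∉ D ∧ e < i ∧ (VV v e ∩ U).Nonempty ∧
    (VV v i ∩ VV v e).Nonempty)

theorem InflB_mem_F (v : Pos n k m) (D : Finset (Fin m)) (i e : Fin m) (U : Finset (Fin n)) :
    e ∈ InflB_F v D i U ↔ e ∉ D ∧ e < i ∧ (VV v e ∩ U).Nonempty ∧
      (VV v i ∩ VV v e).Nonempty := by
  simp [InflB_F]

theorem InflB_step_D (v : Pos n k m) (D : Finset (Fin m)) (i : Fin m) (U : Finset (Fin n))
    (h : i ∈ D) : Ustep v D i U = U := by
  unfold Ustep
  rw [if_pos h]

theorem InflB_step_meet (v : Pos n k m) (D : Finset (Fin m)) (i : Fin m) (U : Finset (Fin n))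
    (h : i ∉ D) (h2 : (VV v i ∩ U).Nonempty) : Ustep v D i U = U ∪ VV v i := by
  unfold Ustep
  rw [if_neg h, if_pos h2]

theorem InflB_step_con (v : Pos n k m) (D : Finset (Fin m)) (i : Fin m) (U : Finset (Fin n))
    (h : i ∉ D) (h2 : ¬ (VV v i ∩ U).Nonempty) (h3 : (InflB_F v D i U).Nonempty) :
    Ustep v D i U = U ∪ VV v i ∪ VV v ((InflB_F v D i U).min' h3) := by
  unfold Ustep
  rw [if_neg h, if_neg h2]
  exact dif_pos h3

theorem InflB_step_no (v : Pos n k m) (D : Finset (Fin m)) (i : Fin m) (U : Finset (Fin n))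
    (h : i ∉ D) (h2 : ¬ (VV v i ∩ U).Nonempty) (h3 : ¬ (InflB_F v D i U).Nonempty) :
    Ustep v D i U = U := by
  unfold Ustep
  rw [if_neg h, if_neg h2]
  exact dif_neg h3

theorem InflB_activ (v : Pos n k m) (z : Fin n) (i : Fin m) : Activ v z i ↔
    (VV v i ∩ Uset v ∅ z i.val).Nonempty ∨ (InflB_F v ∅ i (Uset v ∅ z i.val)).Nonempty := by
  unfold Activ
  refine or_congr Iff.rfl ⟨?_, ?_⟩
  · rintro ⟨e, he⟩
    exact ⟨e, (InflB_mem_F _ _ _ _ _).2 ⟨Finset.notMem_empty _, he⟩⟩
  · rintro ⟨e, he⟩
    exact ⟨e, ((InflB_mem_F _ _ _ _ _).1 he).2⟩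

/-- the connector of a clause -/
noncomputable def InflB_con (v : Pos n k m) (z : Fin n) (i : Fin m) : Option (Fin m) :=
  if (VV v i ∩ Uset v ∅ z i.val).Nonempty then none
  else if h : (InflB_F v ∅ i (Uset v ∅ z i.val)).Nonempty then
    some ((InflB_F v ∅ i (Uset v ∅ z i.val)).min' h) else none

theorem InflB_not (v : Pos n k m) (z : Fin n) (i : Fin m) (h : ¬ Activ v z i) :
    Uset v ∅ z (i.val + 1) = Uset v ∅ z i.val := by
  rw [InflB_activ, not_or] at h
  rw [uset_succ, InflB_step_no v ∅ i _ (Finset.notMem_empty _) h.1 h.2]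

theorem InflB_con_some (v : Pos n k m) (z : Fin n) (i e : Fin m) (h : InflB_con v z i = some e) :
    ¬ (VV v i ∩ Uset v ∅ z i.val).Nonempty ∧ e ∈ InflB_F v ∅ i (Uset v ∅ z i.val) ∧
      (∀ e' ∈ InflB_F v ∅ i (Uset v ∅ z i.val), e ≤ e') ∧
      Uset v ∅ z (i.val + 1) = Uset v ∅ z i.val ∪ VV v i ∪ VV v e := by
  unfold InflB_con at h
  by_cases h1 : (VV v i ∩ Uset v ∅ z i.val).Nonempty
  · rw [if_pos h1] at h
    exact absurd h (by simp)
  rw [if_neg h1] at h
  by_cases h2 : (InflB_F v ∅ i (Uset v ∅ z i.val)).Nonempty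
  · rw [dif_pos h2] at h
    have he := Option.some.inj h
    refine ⟨h1, ?_, ?_, ?_⟩
    · rw [← he]
      exact Finset.min'_mem _ _
    · intro e' he'
      rw [← he]
      exact Finset.min'_le _ _ he'
    · rw [uset_succ, InflB_step_con v ∅ i _ (Finset.notMem_empty _) h1 h2, he]
  · rw [dif_neg h2] at h
    exact absurd h (by simp)

theorem InflB_con_none (v : Pos n k m) (z : Fin n) (i : Fin m) (ha : Activ v z i)
    (h : InflB_con v z i = none) : (VV v i ∩ Uset v ∅ z i.val).Nonempty ∧
      Uset v ∅ z (i.val + 1) = Uset v ∅ z i.val ∪ VV v i := by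
  by_cases h1 : (VV v i ∩ Uset v ∅ z i.val).Nonempty
  · refine ⟨h1, ?_⟩
    rw [uset_succ, InflB_step_meet v ∅ i _ (Finset.notMem_empty _) h1]
  · unfold InflB_con at h
    rw [if_neg h1] at h
    have h2 : (InflB_F v ∅ i (Uset v ∅ z i.val)).Nonempty := by
      rcases (InflB_activ v z i).1 ha with h3 | h3
      · exact absurd h3 h1
      · exact h3
    rw [dif_pos h2] at h
    exact absurd h (by simp)

/-- the set of variables added in an activated step -/
theorem InflB_add (v : Pos n k m) (z : Fin n) (i : Fin m) (ha : Activ v z i) :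
    Uset v ∅ z (i.val + 1) =
      Uset v ∅ z i.val ∪ (VV v i ∪ (InflB_con v z i).elim ∅ (VV v)) := by
  cases hc : InflB_con v z i with
  | none =>
    rw [(InflB_con_none v z i ha hc).2]
    simp
  | some e =>
    rw [(InflB_con_some v z i e hc).2.2.2]
    simp [Finset.union_assoc]

theorem InflB_card_VV (v : Pos n k m) (e : Fin m) : (VV v e).card ≤ k := by
  unfold VV
  refine Finset.card_image_le.trans ?_
  simp

theorem InflB_sub (v : Pos n k m) (z : Fin n) {i0 i : ℕ} (h : i0 ≤ i) :
    Uset v ∅ z i ⊆ Uset v ∅ z i0 ∪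
      (univ.filter (fun j : Fin m => i0 ≤ j.val ∧ j.val < i ∧ Activ v z j)).biUnion
        (fun j => VV v j ∪ (InflB_con v z j).elim ∅ (VV v)) := by
  induction i, h using Nat.le_induction with
  | base => exact Finset.subset_union_left
  | succ i hi ih =>
    have hmono : Uset v ∅ z i0 ∪
        (univ.filter (fun j : Fin m => i0 ≤ j.val ∧ j.val < i ∧ Activ v z j)).biUnion
          (fun j => VV v j ∪ (InflB_con v z j).elim ∅ (VV v)) ⊆ Uset v ∅ z i0 ∪
        (univ.filter (fun j : Fin m => i0 ≤ j.val ∧ j.val < i + 1 ∧ Activ v z j)).biUnion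
          (fun j => VV v j ∪ (InflB_con v z j).elim ∅ (VV v)) := by
      refine Finset.union_subset_union (Finset.Subset.refl _)
        (Finset.biUnion_subset_biUnion_of_subset_left _ ?_)
      intro j hj
      rw [Finset.mem_filter] at hj ⊢
      exact ⟨hj.1, hj.2.1, by omega, hj.2.2.2⟩
    by_cases him : i < m
    · by_cases ha : Activ v z ⟨i, him⟩
      · have h1 := InflB_add v z ⟨i, him⟩ ha
        simp only at h1
        rw [h1]
        refine Finset.union_subset (ih.trans hmono) ?_
        refine Finset.Subset.trans ?_ Finset.subset_union_right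
        intro w hw
        rw [Finset.mem_biUnion]
        refine ⟨⟨i, him⟩, ?_, hw⟩
        rw [Finset.mem_filter]
        exact ⟨Finset.mem_univ _, hi, Nat.lt_succ_self i, ha⟩
      · have h1 := InflB_not v z ⟨i, him⟩ ha
        simp only at h1
        rw [h1]
        exact ih.trans hmono
    · have h1 : Uset v ∅ z (i + 1) = Uset v ∅ z i := by simp [Uset, him]
      rw [h1]
      exact ih.trans hmono

/-- GROWTH. Each activated clause adds at most `2 k` variables; the others add none. -/
theorem uset_growth (v : Pos n k m) (z : Fin n) {i0 i1 : ℕ} (h : i0 ≤ i1) :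
    (Uset v ∅ z i1).card ≤ (Uset v ∅ z i0).card +
      2 * k * (univ.filter (fun i : Fin m => i0 ≤ i.val ∧ i.val < i1 ∧ Activ v z i)).card := by
  refine (Finset.card_le_card (InflB_sub v z h)).trans ((Finset.card_union_le _ _).trans ?_)
  refine Nat.add_le_add_left ?_ _
  rw [mul_comm]
  refine Finset.card_biUnion_le_card_mul _ _ _ fun j _ => ?_
  refine (Finset.card_union_le _ _).trans ?_
  have h1 := InflB_card_VV v j
  have h2 : ((InflB_con v z j).elim ∅ (VV v)).card ≤ k := by
    cases InflB_con v z j with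
    | none => simp
    | some e => exact InflB_card_VV v e
  omega

/-- CHAINS.
PROOF. Let `I` enumerate the first `a` activated clauses of the slice `[i0, i1)` increasingly. For `i = I l` let `C l = none` if `VV v i` meets
`Uset v ∅ z i`, otherwise `some e` with the connector `e` used in `Ustep` (the least one). By induction `Uset v ∅ z i ⊆ U0 ∪ ⋃_(l' < l) ..` with equality
(only activated clauses change the set), `U0 = Uset v ∅ z i0`. `ne`: if `C l = some e` and `e = I l'` then `l' < l` (as `e < I l`), so
`VV v e ⊆ Uset v ∅ z (I l)` and `VV v (I l)` meets it, contradiction to `C l ≠ none`; `inj` in the same way.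
Removal: let `D = chD a I C`. No `e ∈ D` with `e < i0` was activated or a connector in a step `< i0`: otherwise `VV v e ⊆ U0`; such an `e` is a
connector `C l = some e`, and again `VV v (I l)` would meet `Uset v ∅ z (I l)`. So by induction on `i ≤ i0`, `Uset v D z i = Uset v ∅ z i`: a step
`i ∈ D` (`i < i0`) is not activated, so does nothing; in a step `i ∉ D` the set of possible connectors loses only clauses of `D`, which are not
the least one; if step `i` is not activated there is no connector at all. -/
theorem exists_chain (v : Pos n k m) (z : Fin n) {i0 i1 a : ℕ} (hi : i0 ≤ i1)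
    (ha : a ≤ (univ.filter (fun i : Fin m => i0 ≤ i.val ∧ i.val < i1 ∧ Activ v z i)).card) :
    ∃ (I : Fin a → Fin m) (C : Fin a → Option (Fin m)), ChIdx i0 i1 a I C ∧
      Uset v (chD a I C) z i0 = Uset v ∅ z i0 ∧ Chain v (Uset v ∅ z i0) a I C := by
  set S : Finset (Fin m) := univ.filter (fun i : Fin m => i0 ≤ i.val ∧ i.val < i1 ∧ Activ v z i)
    with hS
  set I : Fin a → Fin m := fun l => S.orderEmbOfFin rfl (Fin.castLE ha l) with hI
  set C : Fin a → Option (Fin m) := fun l => InflB_con v z (I l) with hC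
  have hIS : ∀ l, I l ∈ S := fun l => Finset.orderEmbOfFin_mem S rfl _
  have hI1 : ∀ l, i0 ≤ (I l).val ∧ (I l).val < i1 ∧ Activ v z (I l) := fun l =>
    (Finset.mem_filter.1 (hIS l)).2
  have hmono : StrictMono I := by
    intro l l' hl
    refine (S.orderEmbOfFin rfl).strictMono ?_
    exact hl
  have hbefore : ∀ l : Fin a, ∀ j : Fin m, i0 ≤ j.val → j.val < (I l).val → Activ v z j →
      ∃ l' : Fin a, l' < l ∧ I l' = j := by
    intro l j h1 h2 h3
    have hjS : j ∈ S := Finset.mem_filter.2
      ⟨Finset.mem_univ _, h1, h2.trans (hI1 l).2.1, h3⟩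
    have hr : j ∈ Set.range (S.orderEmbOfFin rfl) := by
      rw [Finset.range_orderEmbOfFin]
      exact hjS
    obtain ⟨idx, hidx⟩ := hr
    have hlt : idx < Fin.castLE ha l := by
      rw [← (S.orderEmbOfFin rfl).lt_iff_lt, hidx]
      exact h2
    have hlt' : idx.val < l.val := hlt
    refine ⟨⟨idx.val, hlt'.trans l.isLt⟩, hlt', ?_⟩
    rw [← hidx]
    rfl
  -- a clause whose variables are in the set is not a connector later
  have hno : ∀ l e, C l = some e → ¬ VV v e ⊆ Uset v ∅ z (I l).val := by
    intro l e hle hsub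
    obtain ⟨h1, h2, -, -⟩ := InflB_con_some v z (I l) e hle
    obtain ⟨-, -, -, w, hw⟩ := (InflB_mem_F _ _ _ _ _).1 h2
    rw [Finset.mem_inter] at hw
    exact h1 ⟨w, Finset.mem_inter.2 ⟨hw.1, hsub hw.2⟩⟩
  have hactsub : ∀ (j : Fin m) (i : ℕ), j.val < i → Activ v z j → VV v j ⊆ Uset v ∅ z i := by
    intro j i hji hj
    refine Finset.Subset.trans ?_ (uset_mono v ∅ z (Nat.succ_le_of_lt hji))
    rw [Nat.succ_eq_add_one, InflB_add v z j hj]
    exact Finset.Subset.trans Finset.subset_union_left Finset.subset_union_right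
  have hconsub : ∀ (j e : Fin m) (i : ℕ), j.val < i → InflB_con v z j = some e →
      VV v e ⊆ Uset v ∅ z i := by
    intro j e i hji hj
    refine Finset.Subset.trans ?_ (uset_mono v ∅ z (Nat.succ_le_of_lt hji))
    rw [Nat.succ_eq_add_one, (InflB_con_some v z j e hj).2.2.2]
    exact Finset.subset_union_right
  refine ⟨I, C, ⟨hmono, fun l => (hI1 l).1, fun l => (hI1 l).2.1, ?_, ?_⟩, ?_, ?_⟩
  · intro l l' e hle hl'
    have h2 := ((InflB_mem_F _ _ _ _ _).1 (InflB_con_some v z (I l) e hle).2.1).2.1
    refine hno l e hle ?_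
    rw [← hl']
    refine hactsub (I l') _ ?_ (hI1 l').2.2
    rw [hl']
    exact h2
  · intro l l' e h1 h2
    rcases lt_trichotomy l l' with h | h | h
    · exact absurd (hconsub (I l) e _ (hmono h) h1) (hno l' e h2)
    · exact h
    · exact absurd (hconsub (I l') e _ (hmono h) h2) (hno l e h1)
  · -- removal
    have hD : ∀ e ∈ chD a I C, e.val < i0 → ∃ l, C l = some e := by
      intro e he hei
      obtain ⟨l, hl⟩ := (Finset.mem_filter.1 he).2
      rcases hl with hl | hl
      · exfalso
        have := (hI1 l).1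
        rw [hl] at this
        omega
      · exact ⟨l, hl⟩
    have hDa : ∀ e ∈ chD a I C, e.val < i0 → ¬ Activ v z e := by
      intro e he hei hact
      obtain ⟨l, hl⟩ := hD e he hei
      exact hno l e hl (hactsub e _ (lt_of_lt_of_le hei (hI1 l).1) hact)
    have hDc : ∀ e ∈ chD a I C, ∀ j : Fin m, j.val < i0 → InflB_con v z j ≠ some e := by
      intro e he j hj hcon
      have h2 : e < j := ((InflB_mem_F _ _ _ _ _).1 (InflB_con_some v z j e hcon).2.1).2.1
      have hei : e.val < i0 := lt_trans h2 hj
      obtain ⟨l, hl⟩ := hD e he hei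
      exact hno l e hl (hconsub j e _ (lt_of_lt_of_le hj (hI1 l).1) hcon)
    have key : ∀ i, i ≤ i0 → Uset v (chD a I C) z i = Uset v ∅ z i := by
      intro i
      induction i with
      | zero => intro _; rfl
      | succ i ih =>
        intro hi0
        have ih' := ih (by omega)
        by_cases him : i < m
        · have e1 : Uset v (chD a I C) z (i + 1) =
              Ustep v (chD a I C) ⟨i, him⟩ (Uset v (chD a I C) z i) :=
            uset_succ v (chD a I C) z ⟨i, him⟩
          have e2 : Uset v ∅ z (i + 1) = Ustep v ∅ ⟨i, him⟩ (Uset v ∅ z i) :=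
            uset_succ v ∅ z ⟨i, him⟩
          rw [e1, ih']
          by_cases hiD : (⟨i, him⟩ : Fin m) ∈ chD a I C
          · rw [InflB_step_D _ _ _ _ hiD]
            exact (InflB_not v z ⟨i, him⟩ (hDa _ hiD (by simp only; omega))).symm
          · rw [e2]
            by_cases hmeet : (VV v ⟨i, him⟩ ∩ Uset v ∅ z i).Nonempty
            · rw [InflB_step_meet _ _ _ _ hiD hmeet,
                InflB_step_meet _ _ _ _ (Finset.notMem_empty _) hmeet]
            · have hsub : InflB_F v (chD a I C) ⟨i, him⟩ (Uset v ∅ z i) ⊆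
                  InflB_F v ∅ ⟨i, him⟩ (Uset v ∅ z i) := by
                intro e he
                rw [InflB_mem_F] at he ⊢
                exact ⟨Finset.notMem_empty _, he.2⟩
              by_cases hF : (InflB_F v ∅ ⟨i, him⟩ (Uset v ∅ z i)).Nonempty
              · have hcon : InflB_con v z ⟨i, him⟩ =
                    some ((InflB_F v ∅ ⟨i, him⟩ (Uset v ∅ z i)).min' hF) := by
                  unfold InflB_con
                  rw [if_neg hmeet]
                  exact dif_pos hF
                set es := (InflB_F v ∅ ⟨i, him⟩ (Uset v ∅ z i)).min' hF with hes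
                have hesF : es ∈ InflB_F v ∅ ⟨i, him⟩ (Uset v ∅ z i) := Finset.min'_mem _ _
                have hesD : es ∉ chD a I C := by
                  intro hh
                  exact hDc es hh ⟨i, him⟩ (by simp only; omega) hcon
                have hesF' : es ∈ InflB_F v (chD a I C) ⟨i, him⟩ (Uset v ∅ z i) := by
                  rw [InflB_mem_F] at hesF ⊢
                  exact ⟨hesD, hesF.2⟩
                have hF' : (InflB_F v (chD a I C) ⟨i, him⟩ (Uset v ∅ z i)).Nonempty := ⟨es, hesF'⟩
                have hmin : (InflB_F v (chD a I C) ⟨i, him⟩ (Uset v ∅ z i)).min' hF' = es := by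
                  apply le_antisymm
                  · exact Finset.min'_le _ _ hesF'
                  · exact Finset.min'_le _ _ (hsub (Finset.min'_mem _ _))
                rw [InflB_step_con _ _ _ _ hiD hmeet hF',
                  InflB_step_con _ _ _ _ (Finset.notMem_empty _) hmeet hF, hmin]
              · have hF' : ¬ (InflB_F v (chD a I C) ⟨i, him⟩ (Uset v ∅ z i)).Nonempty :=
                  fun hh => hF (hh.mono hsub)
                rw [InflB_step_no _ _ _ _ hiD hmeet hF',
                  InflB_step_no _ _ _ _ (Finset.notMem_empty _) hmeet hF]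
        · have e1 : ∀ D : Finset (Fin m), Uset v D z (i + 1) = Uset v D z i := by
            intro D
            simp [Uset, him]
          rw [e1, e1, ih']
    exact key i0 le_rfl
  · -- the chain condition
    intro l
    have hU : Uset v ∅ z (I l).val ⊆ Uset v ∅ z i0 ∪
        (univ.filter (fun l' : Fin a => l' < l)).biUnion
          (fun l' => VV v (I l') ∪ (C l').elim ∅ (VV v)) := by
      refine (InflB_sub v z (hI1 l).1).trans (Finset.union_subset_union (Finset.Subset.refl _) ?_)
      intro w hw
      rw [Finset.mem_biUnion] at hw ⊢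
      obtain ⟨j, hj, hjw⟩ := hw
      rw [Finset.mem_filter] at hj
      obtain ⟨l', hl', hIl'⟩ := hbefore l j hj.2.1 hj.2.2.1 hj.2.2.2
      refine ⟨l', Finset.mem_filter.2 ⟨Finset.mem_univ _, hl'⟩, ?_⟩
      simp only [hC]
      rw [hIl']
      exact hjw
    cases hcl : C l with
    | none =>
      simp only
      have h1 := (InflB_con_none v z (I l) (hI1 l).2.2 hcl).1
      exact h1.mono (Finset.inter_subset_inter (Finset.Subset.refl _) hU)
    | some e =>
      simp only
      have h1 := (InflB_mem_F _ _ _ _ _).1 (InflB_con_some v z (I l) e hcl).2.1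
      exact ⟨h1.2.2.1.mono (Finset.inter_subset_inter (Finset.Subset.refl _) hU), h1.2.2.2⟩

/-- the set at the beginning of the slice does not depend on the clauses of `D` -/
theorem uset_congr (v v' : Pos n k m) (D : Finset (Fin m)) (z : Fin n) (i : ℕ)
    (h : ∀ e, e ∉ D → v e = v' e) : Uset v D z i = Uset v' D z i := by
  have hV : ∀ e, e ∉ D → VV v e = VV v' e := by
    intro e he
    unfold VV
    rw [h e he]
  have hstep : ∀ (i : Fin m) (U : Finset (Fin n)), Ustep v D i U = Ustep v' D i U := by
    intro i U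
    by_cases hiD : i ∈ D
    · rw [InflB_step_D _ _ _ _ hiD, InflB_step_D _ _ _ _ hiD]
    · have hF : InflB_F v D i U = InflB_F v' D i U := by
        ext e
        rw [InflB_mem_F, InflB_mem_F]
        constructor
        · rintro ⟨h1, h2, h3, h4⟩
          rw [← hV e h1, ← hV i hiD]
          exact ⟨h1, h2, h3, h4⟩
        · rintro ⟨h1, h2, h3, h4⟩
          rw [hV e h1, hV i hiD]
          exact ⟨h1, h2, h3, h4⟩
      by_cases hmeet : (VV v i ∩ U).Nonempty
      · have hmeet' : (VV v' i ∩ U).Nonempty := by rwa [← hV i hiD]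
        rw [InflB_step_meet _ _ _ _ hiD hmeet, InflB_step_meet _ _ _ _ hiD hmeet', hV i hiD]
      · have hmeet' : ¬ (VV v' i ∩ U).Nonempty := by rwa [← hV i hiD]
        by_cases hne : (InflB_F v D i U).Nonempty
        · have hne' : (InflB_F v' D i U).Nonempty := by rwa [← hF]
          have hmin : (InflB_F v D i U).min' hne = (InflB_F v' D i U).min' hne' := by
            congr 1
          have hmD : (InflB_F v D i U).min' hne ∉ D :=
            ((InflB_mem_F _ _ _ _ _).1 (Finset.min'_mem _ hne)).1
          rw [InflB_step_con _ _ _ _ hiD hmeet hne, InflB_step_con _ _ _ _ hiD hmeet' hne',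
            ← hmin, hV i hiD, hV _ hmD]
        · have hne' : ¬ (InflB_F v' D i U).Nonempty := by rwa [← hF]
          rw [InflB_step_no _ _ _ _ hiD hmeet hne, InflB_step_no _ _ _ _ hiD hmeet' hne']
  induction i with
  | zero => rfl
  | succ i ih =>
    by_cases him : i < m
    · have e1 : Uset v D z (i + 1) = Ustep v D ⟨i, him⟩ (Uset v D z i) :=
        uset_succ v D z ⟨i, him⟩
      have e2 : Uset v' D z (i + 1) = Ustep v' D ⟨i, him⟩ (Uset v' D z i) :=
        uset_succ v' D z ⟨i, him⟩
      rw [e1, e2, ih, hstep]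
    · have e1 : ∀ v : Pos n k m, Uset v D z (i + 1) = Uset v D z i := by
        intro v
        simp [Uset, him]
      rw [e1, e1, ih]

end GC
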