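import Pool.Agent.W_bd7f91F_h12.InflB
import Pool.Agent.W_bd7f91F_h12.AP

/-! # Influence sets are small: one slice -/

set_option autoImplicit false

open Finset
open scoped Classical

namespace GC

variable {n k m : ℕ}

/-- number of clauses (functions `Fin k → Fin n`) which meet a set -/
theorem meet_card (Z : Finset (Fin n)) :
    ((univ.filter (fun c : Fin k → Fin n => ((univ.image c) ∩ Z).Nonempty)).card : ℝ) * n ≤
      (k * Z.card : ℝ) * (n : ℝ) ^ k := by
  have h1 : ∀ (j : Fin k) (z : Fin n),
      (univ.filter (fun c : Fin k → Fin n => c j = z)).card * n ≤ n ^ k := by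
    intro j z
    have h2 : (univ.filter (fun c : Fin k → Fin n => c j = z) ×ˢ
        (univ : Finset (Fin n))).card ≤ (univ : Finset (Fin k → Fin n)).card := by
      apply Finset.card_le_card_of_injOn (fun p => Function.update p.1 j p.2)
      · intro _ _
        simp
      · rintro ⟨c, x⟩ hc ⟨c', x'⟩ hc' h
        have hc1 : c j = z := by
          have := (Finset.mem_product.mp (Finset.mem_coe.mp hc)).1
          exact (Finset.mem_filter.mp this).2
        have hc2 : c' j = z := by
          have := (Finset.mem_product.mp (Finset.mem_coe.mp hc')).1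
          exact (Finset.mem_filter.mp this).2
        have h' : Function.update c j x = Function.update c' j x' := h
        have hx : x = x' := by
          have := congrFun h' j
          simpa using this
        have hcc : c = c' := by
          funext i
          by_cases hij : i = j
          · rw [hij, hc1, hc2]
          · have := congrFun h' i
            simpa [Function.update_of_ne hij] using this
        rw [hx, hcc]
    rw [Finset.card_product] at h2
    simpa using h2
  have h2 : (univ.filter (fun c : Fin k → Fin n => ((univ.image c) ∩ Z).Nonempty)) ⊆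
      ((univ : Finset (Fin k)) ×ˢ Z).biUnion
        (fun p => univ.filter (fun c : Fin k → Fin n => c p.1 = p.2)) := by
    intro c hc
    obtain ⟨y, hy⟩ := (Finset.mem_filter.mp hc).2
    rw [Finset.mem_inter, Finset.mem_image] at hy
    obtain ⟨⟨j, _, hj⟩, hyZ⟩ := hy
    rw [Finset.mem_biUnion]
    exact ⟨(j, y), Finset.mem_product.mpr ⟨Finset.mem_univ _, hyZ⟩,
      Finset.mem_filter.mpr ⟨Finset.mem_univ _, hj⟩⟩
  have h3 : (univ.filter (fun c : Fin k → Fin n => ((univ.image c) ∩ Z).Nonempty)).card * n ≤
      (k * Z.card) * n ^ k := by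
    calc (univ.filter (fun c : Fin k → Fin n => ((univ.image c) ∩ Z).Nonempty)).card * n
        ≤ (∑ p ∈ (univ : Finset (Fin k)) ×ˢ Z,
            (univ.filter (fun c : Fin k → Fin n => c p.1 = p.2)).card) * n :=
          Nat.mul_le_mul_right _ (le_trans (Finset.card_le_card h2) Finset.card_biUnion_le)
      _ = ∑ p ∈ (univ : Finset (Fin k)) ×ˢ Z,
            (univ.filter (fun c : Fin k → Fin n => c p.1 = p.2)).card * n := Finset.sum_mul _ _ _
      _ ≤ ∑ _p ∈ (univ : Finset (Fin k)) ×ˢ Z, n ^ k :=
          Finset.sum_le_sum (fun p _ => h1 p.1 p.2)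
      _ = (k * Z.card) * n ^ k := by
          rw [Finset.sum_const, Finset.card_product, Finset.card_univ, Fintype.card_fin,
            smul_eq_mul]
  exact_mod_cast h3

/-- the set of the variables seen before step `l` -/
noncomputable def InflC_W (v : Pos n k m) (U0 : Finset (Fin n)) (a : ℕ) (I : Fin a → Fin m)
    (C : Fin a → Option (Fin m)) (l : Fin a) : Finset (Fin n) :=
  U0 ∪ (univ.filter (fun l' : Fin a => l' < l)).biUnion
        (fun l' => VV v (I l') ∪ (C l').elim ∅ (VV v))

theorem InflC_VV_card (v : Pos n k m) (e : Fin m) : (VV v e).card ≤ k := by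
  unfold VV
  exact le_trans Finset.card_image_le (by simp)

theorem InflC_W_card (v : Pos n k m) (U0 : Finset (Fin n)) (a : ℕ) (I : Fin a → Fin m)
    (C : Fin a → Option (Fin m)) (l : Fin a) :
    (InflC_W v U0 a I C l).card ≤ U0.card + 2 * k * l.val := by
  unfold InflC_W
  refine le_trans (Finset.card_union_le _ _) ?_
  apply Nat.add_le_add_left
  refine le_trans Finset.card_biUnion_le ?_
  have h1 : ∀ l' ∈ univ.filter (fun l' : Fin a => l' < l),
      (VV v (I l') ∪ (C l').elim ∅ (VV v)).card ≤ 2 * k := by
    intro l' _
    refine le_trans (Finset.card_union_le _ _) ?_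
    have h2 := InflC_VV_card v (I l')
    have h3 : ((C l').elim ∅ (VV v)).card ≤ k := by
      cases C l' with
      | none => simp
      | some e => exact InflC_VV_card v e
    omega
  refine le_trans (Finset.sum_le_card_nsmul _ _ _ h1) ?_
  have h4 : (univ.filter (fun l' : Fin a => l' < l)).card = l.val := by
    have h5 : univ.filter (fun l' : Fin a => l' < l) = Finset.Iio l := by
      ext x
      simp
    rw [h5, Fin.card_Iio]
  rw [h4, smul_eq_mul]
  exact le_of_eq (Nat.mul_comm _ _)

/-- condition for a connector -/
def InflC_A (z : Fin n) (s i0 a : ℕ) (I : Fin a → Fin m) (C : Fin a → Option (Fin m))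
    (l : Fin a) (e : Fin m) (f : Pos n k m) : Prop :=
  (Uset f (chD a I C) z i0).card ≤ s ∧
    (VV f e ∩ InflC_W f (Uset f (chD a I C) z i0) a I C l).Nonempty

/-- condition for an activated clause -/
def InflC_B (z : Fin n) (s i0 a : ℕ) (I : Fin a → Fin m) (C : Fin a → Option (Fin m))
    (l : Fin a) (f : Pos n k m) : Prop :=
  match C l with
  | none => InflC_A z s i0 a I C l (I l) f
  | some e => (VV f (I l) ∩ VV f e).Nonempty

/-- all conditions at the clause `b` -/
def InflC_P (z : Fin n) (s i0 a : ℕ) (I : Fin a → Fin m) (C : Fin a → Option (Fin m))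
    (b : Fin m) (f : Pos n k m) : Prop :=
  (∀ l, C l = some b → InflC_A z s i0 a I C l b f) ∧ (∀ l, I l = b → InflC_B z s i0 a I C l f)

/-- the rank -/
noncomputable def InflC_rk (a : ℕ) (I : Fin a → Fin m) (C : Fin a → Option (Fin m))
    (b : Fin m) : ℕ :=
  (∑ l : Fin a, if C l = some b then 2 * l.val else 0) +
    ∑ l : Fin a, if I l = b then 2 * l.val + 1 else 0

theorem InflC_rk_C {i0 i1 a : ℕ} {I : Fin a → Fin m} {C : Fin a → Option (Fin m)}
    (h : ChIdx i0 i1 a I C) {l : Fin a} {b : Fin m} (hl : C l = some b) :
    InflC_rk a I C b = 2 * l.val := by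
  unfold InflC_rk
  have h1 : (∑ l : Fin a, if C l = some b then 2 * l.val else 0) = 2 * l.val := by
    rw [Finset.sum_eq_single l]
    · rw [if_pos hl]
    · intro l' _ hne
      rw [if_neg]
      intro h2
      exact hne (h.inj l' l b h2 hl)
    · intro h2
      exact absurd (Finset.mem_univ _) h2
  have h2 : (∑ l : Fin a, if I l = b then 2 * l.val + 1 else 0) = 0 := by
    apply Finset.sum_eq_zero
    intro l' _
    rw [if_neg (h.ne l l' b hl)]
  rw [h1, h2, Nat.add_zero]

theorem InflC_rk_I {i0 i1 a : ℕ} {I : Fin a → Fin m} {C : Fin a → Option (Fin m)}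
    (h : ChIdx i0 i1 a I C) (l : Fin a) :
    InflC_rk a I C (I l) = 2 * l.val + 1 := by
  unfold InflC_rk
  have h1 : (∑ l' : Fin a, if C l' = some (I l) then 2 * l'.val else 0) = 0 := by
    apply Finset.sum_eq_zero
    intro l' _
    rw [if_neg]
    intro h2
    exact h.ne l' l (I l) h2 rfl
  have h2 : (∑ l' : Fin a, if I l' = I l then 2 * l'.val + 1 else 0) = 2 * l.val + 1 := by
    rw [Finset.sum_eq_single l]
    · rw [if_pos rfl]
    · intro l' _ hne
      rw [if_neg]
      intro h2
      exact hne (h.mono.injective h2)
    · intro h2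
      exact absurd (Finset.mem_univ _) h2
  rw [h1, h2, Nat.zero_add]

theorem InflC_VV_upd (f : Pos n k m) (a' e : Fin m) (c : Fin k → Fin n) (h : e ≠ a') :
    VV (Function.update f a' c) e = VV f e := by
  unfold VV
  rw [Function.update_of_ne h]

theorem InflC_VV_upd_self (f : Pos n k m) (e : Fin m) (c : Fin k → Fin n) :
    VV (Function.update f e c) e = univ.image c := by
  unfold VV
  rw [Function.update_self]

theorem InflC_W_upd (f : Pos n k m) (a' : Fin m) (c : Fin k → Fin n) (U0 : Finset (Fin n)) (a : ℕ)
    (I : Fin a → Fin m) (C : Fin a → Option (Fin m)) (l : Fin a)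
    (h1 : ∀ l', l' < l → I l' ≠ a') (h2 : ∀ l', l' < l → C l' ≠ some a') :
    InflC_W (Function.update f a' c) U0 a I C l = InflC_W f U0 a I C l := by
  unfold InflC_W
  congr 1
  apply Finset.biUnion_congr rfl
  intro l' hl'
  have hlt : l' < l := (Finset.mem_filter.mp hl').2
  rw [InflC_VV_upd f a' (I l') c (h1 l' hlt)]
  congr 1
  cases hC : C l' with
  | none => rfl
  | some e =>
    have : e ≠ a' := by
      intro h
      apply h2 l' hlt
      rw [hC, h]
    exact InflC_VV_upd f a' e c this

theorem InflC_U_upd (z : Fin n) (i0 : ℕ) (f : Pos n k m) (D : Finset (Fin m)) (a' : Fin m)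
    (c : Fin k → Fin n) (h : a' ∈ D) :
    Uset (Function.update f a' c) D z i0 = Uset f D z i0 := by
  apply uset_congr
  intro e he
  have : e ≠ a' := by
    intro h'
    rw [h'] at he
    exact he h
  rw [Function.update_of_ne this]

theorem InflC_A_upd (z : Fin n) (s i0 a : ℕ) (I : Fin a → Fin m) (C : Fin a → Option (Fin m))
    (l : Fin a) (b : Fin m) (f : Pos n k m) (a' : Fin m) (c : Fin k → Fin n)
    (ha : a' ∈ chD a I C) (hb : b ≠ a')
    (h1 : ∀ l', l' < l → I l' ≠ a') (h2 : ∀ l', l' < l → C l' ≠ some a') :
    InflC_A z s i0 a I C l b (Function.update f a' c) ↔ InflC_A z s i0 a I C l b f := by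
  unfold InflC_A
  rw [InflC_U_upd z i0 f _ a' c ha, InflC_VV_upd f a' b c hb, InflC_W_upd f a' c _ a I C l h1 h2]

theorem InflC_P_upd {z : Fin n} {s i0 i1 a : ℕ} {I : Fin a → Fin m} {C : Fin a → Option (Fin m)}
    (h : ChIdx i0 i1 a I C) (b : Fin m) (f : Pos n k m) (a' : Fin m) (c : Fin k → Fin n)
    (ha : a' ∈ chD a I C) (hb : b ≠ a') (hr : InflC_rk a I C b ≤ InflC_rk a I C a') :
    InflC_P z s i0 a I C b (Function.update f a' c) ↔ InflC_P z s i0 a I C b f := by
  unfold InflC_P
  have hI : ∀ l l' : Fin a, 2 * l.val ≤ InflC_rk a I C a' → l' < l → I l' ≠ a' := by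
    intro l l' h1 h2 h3
    rw [← h3, InflC_rk_I h] at h1
    have : l'.val < l.val := h2
    omega
  have hC : ∀ l l' : Fin a, 2 * l.val ≤ InflC_rk a I C a' → l' < l → C l' ≠ some a' := by
    intro l l' h1 h2 h3
    rw [InflC_rk_C h h3] at h1
    have : l'.val < l.val := h2
    omega
  constructor
  · rintro ⟨hA, hB⟩
    refine ⟨?_, ?_⟩
    · intro l hl
      have hrl : 2 * l.val ≤ InflC_rk a I C a' := by rw [InflC_rk_C h hl] at hr; exact hr
      exact (InflC_A_upd z s i0 a I C l b f a' c ha hb (fun l' => hI l l' hrl)
        (fun l' => hC l l' hrl)).mp (hA l hl)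
    · intro l hl
      have hrl : 2 * l.val + 1 ≤ InflC_rk a I C a' := by
        rw [← hl, InflC_rk_I h] at hr; exact hr
      have hB' := hB l hl
      unfold InflC_B at hB' ⊢
      cases hCl : C l with
      | none =>
        rw [hCl] at hB'
        rw [hl] at hB' ⊢
        exact (InflC_A_upd z s i0 a I C l b f a' c ha hb (fun l' => hI l l' (by omega))
          (fun l' => hC l l' (by omega))).mp hB'
      | some e =>
        rw [hCl] at hB'
        have he : e ≠ a' := by
          intro h3
          rw [h3] at hCl
          rw [InflC_rk_C h hCl] at hrl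
          omega
        simp only [hl] at hB' ⊢
        rw [InflC_VV_upd f a' b c hb, InflC_VV_upd f a' e c he] at hB'
        exact hB'
  · rintro ⟨hA, hB⟩
    refine ⟨?_, ?_⟩
    · intro l hl
      have hrl : 2 * l.val ≤ InflC_rk a I C a' := by rw [InflC_rk_C h hl] at hr; exact hr
      exact (InflC_A_upd z s i0 a I C l b f a' c ha hb (fun l' => hI l l' hrl)
        (fun l' => hC l l' hrl)).mpr (hA l hl)
    · intro l hl
      have hrl : 2 * l.val + 1 ≤ InflC_rk a I C a' := by
        rw [← hl, InflC_rk_I h] at hr; exact hr
      have hB' := hB l hl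
      unfold InflC_B at hB' ⊢
      cases hCl : C l with
      | none =>
        rw [hCl] at hB'
        rw [hl] at hB' ⊢
        exact (InflC_A_upd z s i0 a I C l b f a' c ha hb (fun l' => hI l l' (by omega))
          (fun l' => hC l l' (by omega))).mpr hB'
      | some e =>
        rw [hCl] at hB'
        have he : e ≠ a' := by
          intro h3
          rw [h3] at hCl
          rw [InflC_rk_C h hCl] at hrl
          omega
        simp only [hl] at hB' ⊢
        rw [InflC_VV_upd f a' b c hb, InflC_VV_upd f a' e c he]
        exact hB'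

/-- the weight of a clause -/
noncomputable def InflC_w (n k s a : ℕ) (I : Fin a → Fin m) (C : Fin a → Option (Fin m))
    (b : Fin m) : ℝ :=
  (∏ l : Fin a, if C l = some b then (k : ℝ) * (s + 2 * k * l.val) / n else 1) *
    ∏ l : Fin a, if I l = b then
      (if (C l).isSome then (k : ℝ) ^ 2 / n else (k : ℝ) * (s + 2 * k * l.val) / n) else 1

theorem InflC_w_C {i0 i1 a : ℕ} {I : Fin a → Fin m} {C : Fin a → Option (Fin m)} (s : ℕ)
    (h : ChIdx i0 i1 a I C) {l : Fin a} {b : Fin m} (hl : C l = some b) :
    InflC_w n k s a I C b = (k : ℝ) * (s + 2 * k * l.val) / n := by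
  unfold InflC_w
  have h1 : (∏ l : Fin a, if C l = some b then (k : ℝ) * (s + 2 * k * l.val) / n else 1) =
      (k : ℝ) * (s + 2 * k * l.val) / n := by
    rw [Finset.prod_eq_single l]
    · rw [if_pos hl]
    · intro l' _ hne
      rw [if_neg]
      intro h2
      exact hne (h.inj l' l b h2 hl)
    · intro h2
      exact absurd (Finset.mem_univ _) h2
  have h2 : (∏ l : Fin a, if I l = b then
      (if (C l).isSome then (k : ℝ) ^ 2 / n else (k : ℝ) * (s + 2 * k * l.val) / n) else 1) = 1 := by
    apply Finset.prod_eq_one
    intro l' _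
    rw [if_neg (h.ne l l' b hl)]
  rw [h1, h2, mul_one]

theorem InflC_w_I {i0 i1 a : ℕ} {I : Fin a → Fin m} {C : Fin a → Option (Fin m)} (s : ℕ)
    (h : ChIdx i0 i1 a I C) (l : Fin a) :
    InflC_w n k s a I C (I l) =
      (if (C l).isSome then (k : ℝ) ^ 2 / n else (k : ℝ) * (s + 2 * k * l.val) / n) := by
  unfold InflC_w
  have h1 : (∏ l' : Fin a, if C l' = some (I l) then (k : ℝ) * (s + 2 * k * l'.val) / n else 1) =
      1 := by
    apply Finset.prod_eq_one
    intro l' _
    rw [if_neg]
    intro h2
    exact h.ne l' l (I l) h2 rfl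
  have h2 : (∏ l' : Fin a, if I l' = I l then
      (if (C l').isSome then (k : ℝ) ^ 2 / n else (k : ℝ) * (s + 2 * k * l'.val) / n) else 1) =
      (if (C l).isSome then (k : ℝ) ^ 2 / n else (k : ℝ) * (s + 2 * k * l.val) / n) := by
    rw [Finset.prod_eq_single l]
    · rw [if_pos rfl]
    · intro l' _ hne
      rw [if_neg]
      intro h2
      exact hne (h.mono.injective h2)
    · intro h2
      exact absurd (Finset.mem_univ _) h2
  rw [h1, h2, one_mul]

theorem InflC_w_prod (n k s a : ℕ) (I : Fin a → Fin m) (C : Fin a → Option (Fin m)) :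
    ∏ b ∈ chD a I C, InflC_w n k s a I C b =
      ∏ l : Fin a, ((k : ℝ) * (s + 2 * k * l.val) / n *
        (if (C l).isSome then (k : ℝ) ^ 2 / n else 1)) := by
  unfold InflC_w
  rw [Finset.prod_mul_distrib, Finset.prod_comm, Finset.prod_comm (s := chD a I C)]
  rw [← Finset.prod_mul_distrib]
  apply Finset.prod_congr rfl
  intro l _
  have hI : I l ∈ chD a I C :=
    Finset.mem_filter.mpr ⟨Finset.mem_univ _, l, Or.inl rfl⟩
  have h2 : (∏ b ∈ chD a I C, if I l = b then
      (if (C l).isSome then (k : ℝ) ^ 2 / n else (k : ℝ) * (s + 2 * k * l.val) / n) else 1) =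
      (if (C l).isSome then (k : ℝ) ^ 2 / n else (k : ℝ) * (s + 2 * k * l.val) / n) := by
    rw [Finset.prod_ite_eq, if_pos hI]
  rw [h2]
  cases hC : C l with
  | none =>
    have h1 : (∏ b ∈ chD a I C, if (none : Option (Fin m)) = some b then
        (k : ℝ) * (s + 2 * k * l.val) / n else 1) = 1 := by
      apply Finset.prod_eq_one
      intro b _
      rw [if_neg (by simp)]
    rw [h1]
    simp
  | some e =>
    have he : e ∈ chD a I C :=
      Finset.mem_filter.mpr ⟨Finset.mem_univ _, l, Or.inr hC⟩
    have h1 : (∏ b ∈ chD a I C, if some e = some b then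
        (k : ℝ) * (s + 2 * k * l.val) / n else 1) = (k : ℝ) * (s + 2 * k * l.val) / n := by
      have h3 : ∀ b ∈ chD a I C, (if some e = some b then
        (k : ℝ) * (s + 2 * k * l.val) / n else 1) = if e = b then
        (k : ℝ) * (s + 2 * k * l.val) / n else 1 := by
        intro b _
        simp only [Option.some.injEq]
      rw [Finset.prod_congr rfl h3, Finset.prod_ite_eq, if_pos he]
    rw [h1]
    simp

theorem InflC_sum_A (hn : 0 < n) (z : Fin n) (s i0 a : ℕ) (I : Fin a → Fin m)
    (C : Fin a → Option (Fin m)) (l : Fin a) (b : Fin m) (f : Pos n k m)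
    (hb : b ∈ chD a I C)
    (h1 : ∀ l', l' < l → I l' ≠ b) (h2 : ∀ l', l' < l → C l' ≠ some b) :
    ∑ c : Fin k → Fin n, (if InflC_A z s i0 a I C l b (Function.update f b c) then (1 : ℝ) else 0) ≤
      (k : ℝ) * (s + 2 * k * l.val) / n * (n : ℝ) ^ k := by
  have hn0 : (0 : ℝ) < n := by exact_mod_cast hn
  have key : ∀ c : Fin k → Fin n, InflC_A z s i0 a I C l b (Function.update f b c) ↔
      ((Uset f (chD a I C) z i0).card ≤ s ∧ (univ.image c ∩
        InflC_W f (Uset f (chD a I C) z i0) a I C l).Nonempty) := by
    intro c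
    unfold InflC_A
    rw [InflC_U_upd z i0 f _ b c hb, InflC_VV_upd_self f b c, InflC_W_upd f b c _ a I C l h1 h2]
  by_cases hs : (Uset f (chD a I C) z i0).card ≤ s
  · have h3 : ∑ c : Fin k → Fin n,
        (if InflC_A z s i0 a I C l b (Function.update f b c) then (1 : ℝ) else 0) =
        ((univ.filter (fun c : Fin k → Fin n => (univ.image c ∩
          InflC_W f (Uset f (chD a I C) z i0) a I C l).Nonempty)).card : ℝ) := by
      rw [Finset.sum_boole]
      congr 1
      congr 1
      apply Finset.filter_congr
      intro c _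
      rw [key c]
      tauto
    rw [h3]
    have h4 := meet_card (k := k) (InflC_W f (Uset f (chD a I C) z i0) a I C l)
    have h5 : ((InflC_W f (Uset f (chD a I C) z i0) a I C l).card : ℝ) ≤ s + 2 * k * l.val := by
      have := InflC_W_card f (Uset f (chD a I C) z i0) a I C l
      have h6 : (InflC_W f (Uset f (chD a I C) z i0) a I C l).card ≤ s + 2 * k * l.val := by omega
      exact_mod_cast h6
    have h7 : ((univ.filter (fun c : Fin k → Fin n => (univ.image c ∩
          InflC_W f (Uset f (chD a I C) z i0) a I C l).Nonempty)).card : ℝ) * n ≤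
        (k * (s + 2 * k * l.val) : ℝ) * (n : ℝ) ^ k := by
      refine le_trans h4 ?_
      apply mul_le_mul_of_nonneg_right _ (by positivity)
      exact mul_le_mul_of_nonneg_left h5 (by positivity)
    rw [div_mul_eq_mul_div, le_div_iff₀ hn0]
    exact h7
  · have h3 : ∑ c : Fin k → Fin n,
        (if InflC_A z s i0 a I C l b (Function.update f b c) then (1 : ℝ) else 0) = 0 := by
      apply Finset.sum_eq_zero
      intro c _
      rw [if_neg]
      rw [key c]
      tauto
    rw [h3]
    positivity

/-- PROBABILITY OF A CHAIN.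
PROOF. `ap_weighted` for `ι = Fin m`, `α = Fin k → Fin n`, `J = chD a I C`, ranks `2 l + 1` for `I l`, `2 l` for `C l = some e`. The set
`U0 = Uset v (chD a I C) z i0` does not depend on the clauses of `J` (`uset_congr`). Factor of `e = C l`: indicator that `VV v e` meets
`W_l = U0 ∪ ..` (if `|U0| ≤ s`, otherwise the whole sum has no contribution: multiply all factors by the indicator of `|U0| ≤ s`),
`|W_l| ≤ s + 2 k l`, so `w = k (s + 2 k l) / n * n^k` (`meet_card`); factor of `I l` if `C l = some e`: indicator that it meets `VV v e`,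
`w = k * k / n * n^k`; if `C l = none`: it meets `W_l`. -/
theorem chain_prob (hn : 0 < n) (z : Fin n) (s i0 i1 a : ℕ) (I : Fin a → Fin m)
    (C : Fin a → Option (Fin m)) (hIC : ChIdx i0 i1 a I C) :
    ((univ.filter (fun v : Pos n k m => (Uset v (chD a I C) z i0).card ≤ s ∧
      Chain v (Uset v (chD a I C) z i0) a I C)).card : ℝ) ≤
      (∏ l : Fin a, ((k : ℝ) * (s + 2 * k * l.val) / n *
        (if (C l).isSome then (k : ℝ) ^ 2 / n else 1))) * (n : ℝ) ^ (k * m) := by
  have hn0 : (0 : ℝ) < n := by exact_mod_cast hn
  have : Nonempty (Fin n) := ⟨⟨0, hn⟩⟩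
  have : Nonempty (Fin k → Fin n) := inferInstance
  have hap := ap_weighted (ι := Fin m) (α := Fin k → Fin n) (chD a I C) (InflC_rk a I C)
    (fun b f => if InflC_P z s i0 a I C b f then (1 : ℝ) else 0)
    (fun b => InflC_w n k s a I C b * (n : ℝ) ^ k)
    (by
      intro b _ f
      beta_reduce
      split_ifs
      · exact zero_le_one
      · exact le_rfl)
    (by
      intro a' ha' b _ hab hr f c
      beta_reduce
      have := InflC_P_upd (z := z) (s := s) hIC b f a' c ha' (fun h => hab h.symm) hr
      simp only [this])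
    (by
      intro b hb f
      beta_reduce
      obtain ⟨l, hl⟩ := (Finset.mem_filter.mp hb).2
      rcases hl with hl | hl
      · -- activated clause
        rw [← hl]
        rw [← hl] at hb
        rw [InflC_w_I s hIC l]
        have hlt : ∀ l', l' < l → I l' ≠ I l := by
          intro l' h1 h2
          have := hIC.mono.injective h2
          rw [this] at h1
          exact lt_irrefl _ h1
        have hC' : ∀ l', l' < l → C l' ≠ some (I l) := by
          intro l' _ h2
          exact hIC.ne l' l (I l) h2 rfl
        have hPB : ∀ g : Pos n k m, InflC_P z s i0 a I C (I l) g → InflC_B z s i0 a I C l g :=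
          fun g hg => hg.2 l rfl
        cases hC : C l with
        | none =>
          have h3 : ∀ c : Fin k → Fin n,
              (if InflC_P z s i0 a I C (I l) (Function.update f (I l) c) then (1 : ℝ) else 0) ≤
              (if InflC_A z s i0 a I C l (I l) (Function.update f (I l) c) then (1 : ℝ) else 0) := by
            intro c
            by_cases h4 : InflC_P z s i0 a I C (I l) (Function.update f (I l) c)
            · have h5 := hPB _ h4
              unfold InflC_B at h5
              rw [hC] at h5
              rw [if_pos h4, if_pos h5]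
            · rw [if_neg h4]
              split_ifs
              · exact zero_le_one
              · exact le_rfl
          refine le_trans (Finset.sum_le_sum (fun c _ => h3 c)) ?_
          have := InflC_sum_A hn z s i0 a I C l (I l) f hb hlt hC'
          simpa using this
        | some e =>
          have hne : e ≠ I l := fun h => hIC.ne l l e hC h.symm
          have h3 : ∀ c : Fin k → Fin n,
              (if InflC_P z s i0 a I C (I l) (Function.update f (I l) c) then (1 : ℝ) else 0) ≤
              (if (univ.image c ∩ VV f e).Nonempty then (1 : ℝ) else 0) := by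
            intro c
            by_cases h4 : InflC_P z s i0 a I C (I l) (Function.update f (I l) c)
            · have h5 := hPB _ h4
              unfold InflC_B at h5
              rw [hC] at h5
              simp only [] at h5
              rw [InflC_VV_upd_self, InflC_VV_upd f (I l) e c hne] at h5
              rw [if_pos h4, if_pos h5]
            · rw [if_neg h4]
              split_ifs
              · exact zero_le_one
              · exact le_rfl
          refine le_trans (Finset.sum_le_sum (fun c _ => h3 c)) ?_
          rw [Finset.sum_boole]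
          have h4 := meet_card (k := k) (VV f e)
          have h5 : ((VV f e).card : ℝ) ≤ k := by exact_mod_cast InflC_VV_card f e
          have h7 : ((univ.filter (fun c : Fin k → Fin n => (univ.image c ∩
                VV f e).Nonempty)).card : ℝ) * n ≤ (k * k : ℝ) * (n : ℝ) ^ k := by
            refine le_trans h4 ?_
            apply mul_le_mul_of_nonneg_right _ (by positivity)
            exact mul_le_mul_of_nonneg_left h5 (by positivity)
          simp only [Option.isSome_some, if_true]
          rw [div_mul_eq_mul_div, le_div_iff₀ hn0]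
          calc _ ≤ (k * k : ℝ) * (n : ℝ) ^ k := h7
            _ = _ := by ring
      · -- connector
        rw [InflC_w_C s hIC hl]
        have hlt : ∀ l', l' < l → I l' ≠ b := fun l' _ => hIC.ne l l' b hl
        have hC' : ∀ l', l' < l → C l' ≠ some b := by
          intro l' h1 h2
          have := hIC.inj l' l b h2 hl
          rw [this] at h1
          exact lt_irrefl _ h1
        have h3 : ∀ c : Fin k → Fin n,
            (if InflC_P z s i0 a I C b (Function.update f b c) then (1 : ℝ) else 0) ≤
            (if InflC_A z s i0 a I C l b (Function.update f b c) then (1 : ℝ) else 0) := by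
          intro c
          by_cases h4 : InflC_P z s i0 a I C b (Function.update f b c)
          · rw [if_pos h4, if_pos (h4.1 l hl)]
          · rw [if_neg h4]
            split_ifs
            · exact zero_le_one
            · exact le_rfl
        refine le_trans (Finset.sum_le_sum (fun c _ => h3 c)) ?_
        exact InflC_sum_A hn z s i0 a I C l b f hb hlt hC')
  rw [Finset.prod_mul_distrib, InflC_w_prod, Finset.prod_const, Fintype.card_fun, Fintype.card_fin,
    Fintype.card_fin] at hap
  -- the event
  have hev : ((univ.filter (fun v : Pos n k m => (Uset v (chD a I C) z i0).card ≤ s ∧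
      Chain v (Uset v (chD a I C) z i0) a I C)).card : ℝ) ≤
      ∑ f : Fin m → (Fin k → Fin n), ∏ b ∈ chD a I C,
        (if InflC_P z s i0 a I C b f then (1 : ℝ) else 0) := by
    have h1 : ∀ f : Pos n k m, (if ((Uset f (chD a I C) z i0).card ≤ s ∧
        Chain f (Uset f (chD a I C) z i0) a I C) then (1 : ℝ) else 0) ≤
        ∏ b ∈ chD a I C, (if InflC_P z s i0 a I C b f then (1 : ℝ) else 0) := by
      intro f
      by_cases hf : (Uset f (chD a I C) z i0).card ≤ s ∧ Chain f (Uset f (chD a I C) z i0) a I C
      · rw [if_pos hf]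
        apply le_of_eq
        symm
        apply Finset.prod_eq_one
        intro b _
        rw [if_pos]
        obtain ⟨hs, hch⟩ := hf
        refine ⟨?_, ?_⟩
        · intro l hl
          have h2 := hch l
          rw [hl] at h2
          exact ⟨hs, h2.1⟩
        · intro l hl
          have h2 := hch l
          unfold InflC_B
          cases hC : C l with
          | none =>
            rw [hC] at h2
            exact ⟨hs, h2⟩
          | some e =>
            rw [hC] at h2
            exact h2.2
      · rw [if_neg hf]
        apply Finset.prod_nonneg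
        intro b _
        split_ifs
        · exact zero_le_one
        · exact le_rfl
    have h2 := Finset.sum_le_sum (fun f (_ : f ∈ (univ : Finset (Pos n k m))) => h1 f)
    rw [Finset.sum_boole] at h2
    exact h2
  have hpow : (((n ^ k : ℕ) : ℝ)) ^ m = (n : ℝ) ^ (k * m) := by
    push_cast
    rw [← pow_mul]
  have hpow2 : (0 : ℝ) < (((n ^ k : ℕ) : ℝ)) ^ (chD a I C).card := by
    have : 0 < n ^ k := pow_pos hn k
    positivity
  rw [Fintype.card_fin, hpow] at hap
  refine le_trans hev ?_
  have h8 : (∑ f : Fin m → (Fin k → Fin n), ∏ b ∈ chD a I C,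
        (if InflC_P z s i0 a I C b f then (1 : ℝ) else 0)) *
        (((n ^ k : ℕ) : ℝ)) ^ (chD a I C).card ≤
      ((∏ l : Fin a, ((k : ℝ) * (s + 2 * k * l.val) / n *
        (if (C l).isSome then (k : ℝ) ^ 2 / n else 1))) * (n : ℝ) ^ (k * m)) *
        (((n ^ k : ℕ) : ℝ)) ^ (chD a I C).card := by
    refine le_trans hap ?_
    apply le_of_eq
    push_cast
    ring
  exact le_of_mul_le_mul_right h8 hpow2

end GC
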