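import Pool.Agent.W_bd7f91F_h12.InflC

/-! # Influence sets are small: one slice -/

set_option autoImplicit false

open Finset
open scoped Classical

namespace GC

variable {n k m : ℕ}

/-- number of increasing functions into a slice -/
theorem InflD_card {m : ℕ} (i0 i1 a : ℕ) :
    (univ.filter (fun I : Fin a → Fin m => StrictMono I ∧ (∀ l, i0 ≤ (I l).val) ∧
      ∀ l, (I l).val < i1)).card ≤ (i1 - i0).choose a := by
  have h1 : (Finset.powersetCard a (Finset.Ico i0 i1)).card = (i1 - i0).choose a := by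
    rw [Finset.card_powersetCard, Nat.card_Ico]
  rw [← h1]
  refine Finset.card_le_card_of_injOn (fun I => univ.image (fun l => (I l).val)) ?_ ?_
  · intro I hI
    obtain ⟨-, hmono, hlo, hhi⟩ := Finset.mem_filter.1 (Finset.mem_coe.1 hI)
    refine Finset.mem_coe.2 (Finset.mem_powersetCard.2 ⟨?_, ?_⟩)
    · intro x hx
      obtain ⟨l, -, rfl⟩ := Finset.mem_image.1 hx
      exact Finset.mem_Ico.2 ⟨hlo l, hhi l⟩
    · rw [Finset.card_image_of_injective _ ?_, Finset.card_univ, Fintype.card_fin]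
      intro l l' hl
      exact hmono.injective (Fin.ext hl)
  · intro I hI I' hI' heq
    obtain ⟨-, hmono, -, -⟩ := Finset.mem_filter.1 (Finset.mem_coe.1 hI)
    obtain ⟨-, hmono', -, -⟩ := Finset.mem_filter.1 (Finset.mem_coe.1 hI')
    have h2 : Set.range (fun l => (I l).val) = Set.range (fun l => (I' l).val) := by
      ext x
      have h3 := congrArg (fun A : Finset ℕ => x ∈ A) heq
      simp only [Finset.mem_image, Finset.mem_univ, true_and] at h3
      rw [Set.mem_range, Set.mem_range]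
      exact Iff.of_eq h3
    have h4 : StrictMono (fun l => (I l).val) := fun l l' hl => hmono hl
    have h5 : StrictMono (fun l => (I' l).val) := fun l l' hl => hmono' hl
    have h6 := (h4.range_inj h5).1 h2
    funext l
    exact Fin.ext (congrFun h6 l)

theorem InflD_sum {m : ℕ} (a : ℕ) (c : ℝ) :
    ∑ C : Fin a → Option (Fin m), ∏ l : Fin a, (if (C l).isSome then c else 1) =
      (1 + m * c) ^ a := by
  rw [← Fintype.sum_pow (fun o : Option (Fin m) => if o.isSome then c else (1 : ℝ)) a]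
  congr 1
  rw [Fintype.sum_option]
  simp

/-- ONE SLICE.
PROOF. If `|Uset i0| ≤ s` and `|Uset i1| > s + 2 k a` then at least `a` clauses of the slice are activated (`uset_growth`), so there is a chain
(`exists_chain`). Sum `chain_prob` over all `I` (strictly increasing functions into the slice: `C(i1 - i0, a)`) and all `C : Fin a → Option (Fin m)`:
`∑_C ∏_l (if (C l).isSome then k^2/n else 1) = (1 + m k^2 / n)^a`. -/
theorem slice_prob (hn : 0 < n) (z : Fin n) (s i0 i1 a : ℕ) (hi : i0 ≤ i1) :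
    ((univ.filter (fun v : Pos n k m => (Uset v ∅ z i0).card ≤ s ∧
      s + 2 * k * a < (Uset v ∅ z i1).card)).card : ℝ) ≤
      ((i1 - i0).choose a : ℝ) * (1 + m * (k : ℝ) ^ 2 / n) ^ a *
        (∏ l : Fin a, ((k : ℝ) * (s + 2 * k * l.val) / n)) * (n : ℝ) ^ (k * m) := by
  let S : (Fin a → Fin m) × (Fin a → Option (Fin m)) → Finset (Pos n k m) := fun p =>
    univ.filter (fun v : Pos n k m => (Uset v (chD a p.1 p.2) z i0).card ≤ s ∧
      Chain v (Uset v (chD a p.1 p.2) z i0) a p.1 p.2)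
  let T : Finset ((Fin a → Fin m) × (Fin a → Option (Fin m))) :=
    univ.filter (fun p => ChIdx i0 i1 a p.1 p.2)
  have hsub : univ.filter (fun v : Pos n k m => (Uset v ∅ z i0).card ≤ s ∧
      s + 2 * k * a < (Uset v ∅ z i1).card) ⊆ T.biUnion S := by
    intro v hv
    obtain ⟨-, h1, h2⟩ := mem_filter.1 hv
    have h3 := uset_growth v z hi
    have h4 : a ≤ (univ.filter (fun i : Fin m => i0 ≤ i.val ∧ i.val < i1 ∧ Activ v z i)).card := by
      by_contra hcon
      have h5 : (univ.filter (fun i : Fin m => i0 ≤ i.val ∧ i.val < i1 ∧ Activ v z i)).card ≤ a :=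
        (not_le.1 hcon).le
      have h6 := Nat.mul_le_mul_left (2 * k) h5
      omega
    obtain ⟨I, C, hIC, hU, hCh⟩ := exists_chain v z hi h4
    refine mem_biUnion.2 ⟨(I, C), mem_filter.2 ⟨mem_univ _, hIC⟩,
      mem_filter.2 ⟨mem_univ _, ?_, ?_⟩⟩
    · dsimp only
      rw [hU]
      exact h1
    · dsimp only
      rw [hU]
      exact hCh
  have hcard : ((univ.filter (fun v : Pos n k m => (Uset v ∅ z i0).card ≤ s ∧
      s + 2 * k * a < (Uset v ∅ z i1).card)).card : ℝ) ≤ ∑ p ∈ T, ((S p).card : ℝ) := by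
    have h1 := (card_le_card hsub).trans card_biUnion_le
    exact_mod_cast h1
  let P : ℝ := ∏ l : Fin a, ((k : ℝ) * (s + 2 * k * l.val) / n)
  have hP : 0 ≤ P := prod_nonneg fun l _ => by positivity
  let g : Option (Fin m) → ℝ := fun o => if o.isSome then (k : ℝ) ^ 2 / n else 1
  have hg : ∀ o, 0 ≤ g o := by
    intro o
    dsimp only [g]
    split_ifs <;> positivity
  have hterm : ∀ p ∈ T, ((S p).card : ℝ) ≤ P * (∏ l : Fin a, g (p.2 l)) * (n : ℝ) ^ (k * m) := by
    intro p hp
    have h1 := chain_prob (k := k) hn z s i0 i1 a p.1 p.2 (mem_filter.1 hp).2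
    rw [prod_mul_distrib] at h1
    exact h1
  refine hcard.trans ((sum_le_sum hterm).trans ?_)
  rw [← sum_mul, ← mul_sum]
  have hT : T ⊆ (univ.filter (fun I : Fin a → Fin m => StrictMono I ∧ (∀ l, i0 ≤ (I l).val) ∧
      ∀ l, (I l).val < i1)) ×ˢ (univ : Finset (Fin a → Option (Fin m))) := by
    intro p hp
    have h1 := (mem_filter.1 hp).2
    exact mem_product.2 ⟨mem_filter.2 ⟨mem_univ _, h1.mono, h1.lo, h1.hi⟩, mem_univ _⟩
  have hsum : ∑ p ∈ T, ∏ l : Fin a, g (p.2 l) ≤
      ((i1 - i0).choose a : ℝ) * (1 + m * (k : ℝ) ^ 2 / n) ^ a := by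
    refine (sum_le_sum_of_subset_of_nonneg hT fun p _ _ => prod_nonneg fun l _ => hg _).trans ?_
    rw [sum_product]
    dsimp only
    have h2 : ∑ C : Fin a → Option (Fin m), ∏ l : Fin a, g (C l) =
        (1 + m * (k : ℝ) ^ 2 / n) ^ a := by
      rw [mul_div_assoc]
      exact InflD_sum a ((k : ℝ) ^ 2 / n)
    rw [h2, sum_const, nsmul_eq_mul]
    refine mul_le_mul_of_nonneg_right ?_ (by positivity)
    exact_mod_cast InflD_card i0 i1 a
  have hfin : P * (∑ p ∈ T, ∏ l : Fin a, g (p.2 l)) ≤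
      ((i1 - i0).choose a : ℝ) * (1 + m * (k : ℝ) ^ 2 / n) ^ a * P := by
    rw [mul_comm P]
    exact mul_le_mul_of_nonneg_right hsum hP
  exact mul_le_mul_of_nonneg_right hfin (by positivity)

end GC
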