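import Pool.Agent.W_bd7f91F_h12.Defs

/-! # Influence sets are small: one slice -/

set_option autoImplicit false

open Finset
open scoped Classical

namespace GC

variable {n k m : ℕ}

theorem InflE_k4 (hk : 10 ≤ k) : 144 * k ^ 4 ≤ 8 ^ k := by
  induction k, hk using Nat.le_induction with
  | base => norm_num
  | succ k hk ih =>
    have h1 : (10 * (k + 1)) ^ 4 ≤ (11 * k) ^ 4 := Nat.pow_le_pow_left (by omega) 4
    have h2 : (10 * (k + 1)) ^ 4 = 10000 * (k + 1) ^ 4 := by ring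
    have h3 : (11 * k) ^ 4 = 14641 * k ^ 4 := by ring
    rw [h2, h3] at h1
    rw [pow_succ 8 k]
    omega

theorem InflE_num (hk : 10 ≤ k) :
    9 * (k : ℝ) ^ 2 * (1 + 2 ^ k * (k : ℝ) ^ 2) / 2 ^ (4 * k) ≤ 1 / 8 := by
  have h1 : (144 : ℝ) * (k : ℝ) ^ 4 ≤ 8 ^ k := by exact_mod_cast InflE_k4 hk
  have hk1 : (10 : ℝ) ≤ k := by exact_mod_cast hk
  have h2 : (1 : ℝ) ≤ 2 ^ k := one_le_pow₀ (by norm_num)
  have h3 : (1 : ℝ) ≤ (k : ℝ) ^ 2 := by nlinarith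
  have h4 : (1 : ℝ) ≤ 2 ^ k * (k : ℝ) ^ 2 := by nlinarith
  have h5 : (2 : ℝ) ^ (4 * k) = 2 ^ k * 8 ^ k := by
    rw [← mul_pow, pow_mul]; norm_num
  rw [div_le_iff₀ (by positivity), h5]
  have h6 : 9 * (k : ℝ) ^ 2 * (1 + 2 ^ k * (k : ℝ) ^ 2) ≤
      9 * (k : ℝ) ^ 2 * (2 * (2 ^ k * (k : ℝ) ^ 2)) :=
    mul_le_mul_of_nonneg_left (by linarith) (by positivity)
  have h7 : 9 * (k : ℝ) ^ 2 * (2 * (2 ^ k * (k : ℝ) ^ 2)) =
      1 / 8 * (2 ^ k * (144 * (k : ℝ) ^ 4)) := by ring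
  rw [h7] at h6
  refine h6.trans ?_
  have h8 : (2 : ℝ) ^ k * (144 * (k : ℝ) ^ 4) ≤ 2 ^ k * 8 ^ k :=
    mul_le_mul_of_nonneg_left h1 (by positivity)
  linarith

theorem InflE_choose (w a : ℕ) (ha : 1 ≤ a) : (w.choose a : ℝ) ≤ (3 * w / a) ^ a := by
  have ha0 : (0 : ℝ) < a := by exact_mod_cast ha
  have h1 : (w.choose a : ℝ) ≤ (w : ℝ) ^ a / (a.factorial : ℝ) := Nat.choose_le_pow_div a w
  have h2 : (a : ℝ) ^ a / (a.factorial : ℝ) ≤ Real.exp a :=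
    Real.pow_div_factorial_le_exp (a : ℝ) ha0.le a
  have h3 : Real.exp a ≤ 3 ^ a := by
    rw [← mul_one (a : ℝ), Real.exp_nat_mul]
    exact pow_le_pow_left₀ (Real.exp_pos _).le Real.exp_one_lt_three.le a
  have hf : (0 : ℝ) < (a.factorial : ℝ) := by exact_mod_cast a.factorial_pos
  have h4 : (a : ℝ) ^ a ≤ 3 ^ a * (a.factorial : ℝ) := by
    have := h2.trans h3
    rwa [div_le_iff₀ hf] at this
  refine h1.trans ?_
  rw [div_pow, mul_pow, div_le_div_iff₀ hf (by positivity)]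
  have h5 : (w : ℝ) ^ a * (a : ℝ) ^ a ≤ (w : ℝ) ^ a * (3 ^ a * (a.factorial : ℝ)) :=
    mul_le_mul_of_nonneg_left h4 (by positivity)
  calc (w : ℝ) ^ a * (a : ℝ) ^ a ≤ (w : ℝ) ^ a * (3 ^ a * (a.factorial : ℝ)) := h5
    _ = 3 ^ a * (w : ℝ) ^ a * (a.factorial : ℝ) := by ring

/-- NUMERICAL BOUND for one slice.
PROOF. `∏_l (s + 2 k l) ≤ (3 k a)^a` as `s ≤ a`; `C(w, a) ≤ w^a / a! ≤ (3 w / a)^a`; so the product is at most
`(9 k^2 (1 + 2^k k^2) w / n)^a`, `w = i1 - i0 ≤ n / 2^(4 k)`, and `9 k^2 (1 + 2^k k^2) ≤ 2^(4 k) / 8` for `k ≥ 10`; `8^(-a) ≤ n^(-3)` for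
`a ≥ ll n` (`n < 2^(ll n)`). -/
theorem slice_num (hk : 10 ≤ k) (hn : 0 < n) (hm : (m : ℝ) ≤ 2 ^ k * n) (s i0 i1 a : ℕ)
    (hi : ((i1 - i0 : ℕ) : ℝ) ≤ n / 2 ^ (4 * k)) (hs : s ≤ a) (ha : ll n ≤ a) :
    ((i1 - i0).choose a : ℝ) * (1 + m * (k : ℝ) ^ 2 / n) ^ a *
        (∏ l : Fin a, ((k : ℝ) * (s + 2 * k * l.val) / n)) ≤ 1 / (n : ℝ) ^ 3 := by
  have ha1 : 1 ≤ a := by
    unfold ll at ha
    omega
  generalize i1 - i0 = w at hi ⊢
  have ha0 : (0 : ℝ) < a := by exact_mod_cast ha1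
  have hn0 : (0 : ℝ) < n := by exact_mod_cast hn
  have hk1 : (10 : ℝ) ≤ k := by exact_mod_cast hk
  have hs1 : (s : ℝ) ≤ a := by exact_mod_cast hs
  have h1 := InflE_choose w a ha1
  have h2 : (1 + m * (k : ℝ) ^ 2 / n) ^ a ≤ (1 + 2 ^ k * (k : ℝ) ^ 2) ^ a := by
    refine pow_le_pow_left₀ (by positivity) ?_ a
    have : m * (k : ℝ) ^ 2 / n ≤ 2 ^ k * (k : ℝ) ^ 2 := by
      rw [div_le_iff₀ hn0]
      calc (m : ℝ) * (k : ℝ) ^ 2 ≤ (2 ^ k * n) * (k : ℝ) ^ 2 :=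
            mul_le_mul_of_nonneg_right hm (by positivity)
        _ = 2 ^ k * (k : ℝ) ^ 2 * n := by ring
    linarith
  have h3 : (∏ l : Fin a, ((k : ℝ) * (s + 2 * k * l.val) / n)) ≤ (3 * (k : ℝ) ^ 2 * a / n) ^ a := by
    have h4 : ∀ l : Fin a, (k : ℝ) * (s + 2 * k * l.val) / n ≤ 3 * (k : ℝ) ^ 2 * a / n := by
      intro l
      refine div_le_div_of_nonneg_right ?_ hn0.le
      have hl : (l.val : ℝ) ≤ a := by exact_mod_cast l.2.le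
      have h5 : (s : ℝ) + 2 * k * l.val ≤ 3 * k * a := by
        have h6 : 2 * (k : ℝ) * l.val ≤ 2 * k * a := mul_le_mul_of_nonneg_left hl (by positivity)
        have h7 : (a : ℝ) ≤ k * a := by nlinarith
        linarith
      calc (k : ℝ) * (s + 2 * k * l.val) ≤ k * (3 * k * a) :=
            mul_le_mul_of_nonneg_left h5 (by positivity)
        _ = 3 * (k : ℝ) ^ 2 * a := by ring
    calc (∏ l : Fin a, ((k : ℝ) * (s + 2 * k * l.val) / n))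
        ≤ ∏ _l : Fin a, (3 * (k : ℝ) ^ 2 * a / n) :=
          Finset.prod_le_prod (fun l _ => by positivity) (fun l _ => h4 l)
      _ = (3 * (k : ℝ) ^ 2 * a / n) ^ a := by
          rw [Finset.prod_const, Finset.card_univ, Fintype.card_fin]
  have h4 : ((w.choose a : ℕ) : ℝ) * (1 + m * (k : ℝ) ^ 2 / n) ^ a *
        (∏ l : Fin a, ((k : ℝ) * (s + 2 * k * l.val) / n)) ≤
      (3 * w / a) ^ a * (1 + 2 ^ k * (k : ℝ) ^ 2) ^ a * (3 * (k : ℝ) ^ 2 * a / n) ^ a := by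
    refine mul_le_mul (mul_le_mul h1 h2 (by positivity) (by positivity)) h3 ?_ (by positivity)
    exact Finset.prod_nonneg fun l _ => by positivity
  refine h4.trans ?_
  rw [← mul_pow, ← mul_pow]
  have h5 : 3 * (w : ℝ) / a * (1 + 2 ^ k * (k : ℝ) ^ 2) * (3 * (k : ℝ) ^ 2 * a / n) ≤ 1 / 8 := by
    have h6 : 3 * (w : ℝ) / a * (1 + 2 ^ k * (k : ℝ) ^ 2) * (3 * (k : ℝ) ^ 2 * a / n) =
        9 * (k : ℝ) ^ 2 * (1 + 2 ^ k * (k : ℝ) ^ 2) * (w / n) := by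
      field_simp
      ring
    have h7 : (w : ℝ) / n ≤ 1 / 2 ^ (4 * k) := by
      rw [div_le_iff₀ hn0]
      refine hi.trans (le_of_eq ?_)
      ring
    rw [h6]
    refine (mul_le_mul_of_nonneg_left h7 (by positivity)).trans ?_
    rw [mul_one_div]
    exact InflE_num hk
  refine (pow_le_pow_left₀ (by positivity) h5 a).trans ?_
  have h8 : n ≤ 2 ^ a := by
    have h9 : n < 2 ^ (ll n) := Nat.lt_pow_succ_log_self (by norm_num) n
    exact h9.le.trans (Nat.pow_le_pow_right (by norm_num) ha)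
  have h9 : (n : ℝ) ^ 3 ≤ 8 ^ a := by
    have h10 : (n : ℝ) ≤ 2 ^ a := by exact_mod_cast h8
    calc (n : ℝ) ^ 3 ≤ (2 ^ a) ^ 3 := pow_le_pow_left₀ hn0.le h10 3
      _ = 8 ^ a := by rw [← pow_mul, mul_comm, pow_mul]; norm_num
  rw [one_div_pow]
  exact one_div_le_one_div_of_le (by positivity) h9

end GC
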