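import Pool.Agent.W_bd7f91F_h12.InflD
import Pool.Agent.W_bd7f91F_h12.InflE

/-! # Influence sets are small: one slice -/

set_option autoImplicit false

open Finset
open scoped Classical

namespace GC

variable {n k m : ℕ}

/-- the bounds for the influence sets at the ends of the slices -/
def InflF_s (k L : ℕ) : ℕ → ℕ
  | 0 => 1
  | j + 1 => InflF_s k L j + 2 * k * (InflF_s k L j + L)

theorem InflF_s_eq (k L j : ℕ) : InflF_s k L j + L = (2 * k + 1) ^ j * (1 + L) := by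
  induction j with
  | zero => simp [InflF_s]
  | succ j ih =>
    have h1 : InflF_s k L (j + 1) + L = (2 * k + 1) * (InflF_s k L j + L) := by
      simp only [InflF_s]
      ring
    rw [h1, ih, pow_succ]
    ring

theorem InflF_first (f : ℕ → ℕ) (s : ℕ → ℕ) (h0 : f 0 ≤ s 0) (J : ℕ) (hJ : s J < f J) :
    ∃ j < J, f j ≤ s j ∧ s (j + 1) < f (j + 1) := by
  induction J with
  | zero => exact absurd hJ (not_lt.2 h0)
  | succ J ih =>
    by_cases h : s J < f J
    · obtain ⟨j, hj, h1⟩ := ih h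
      exact ⟨j, by omega, h1⟩
    · exact ⟨J, by omega, not_lt.1 h, hJ⟩

/-- EVENT E3.
PROOF. Slices of width `w = n / 2^(4 k)` (natural number division; `n ≥ 2^(4k)`), `J = 2^(6 k)` slices cover `[0, m)` (`J w ≥ m`). `s 0 = 1`,
`s (j + 1) = s j + 2 k (s j + ll n)`. Then `s j + ll n ≤ (2 k + 1)^j * 2 ll n`. If `|Uset (min (j w) m)| ≤ s j` fails for some `j ≤ J`
take the least such `j ≥ 1`: `slice_prob` with `a = s (j-1) + ll n`, `slice_num`. Union over `j ≤ J` and `z`: at most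
`n J / n^3`. `cU = 2 (2 k + 1)^(2^(6 k))`. -/
theorem e3_prob (hk : 10 ≤ k) : ∃ cU : ℕ, ∀ δ : ℝ, 0 < δ → ∃ n0 : ℕ, ∀ n, n0 ≤ n → ∀ m : ℕ,
    (m : ℝ) ≤ 2 ^ k * n →
    ((univ.filter (fun v : Pos n k m => ¬ E3 v (cU * ll n))).card : ℝ) ≤
      δ * (n : ℝ) ^ (k * m) := by
  refine ⟨2 * (2 * k + 1) ^ (2 ^ (6 * k)), ?_⟩
  intro δ hδ
  obtain ⟨n1, hn1⟩ := exists_nat_gt ((2 ^ (6 * k) : ℝ) / δ)
  refine ⟨max (2 ^ (4 * k)) (max n1 1), ?_⟩
  intro n hn m hm
  have hnW : 2 ^ (4 * k) ≤ n := (le_max_left _ _).trans hn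
  have hnn1 : n1 ≤ n := (le_max_left _ _).trans ((le_max_right _ _).trans hn)
  have hn0 : 1 ≤ n := (le_max_right _ _).trans ((le_max_right _ _).trans hn)
  have hnpos : (0 : ℝ) < n := by exact_mod_cast hn0
  have hn1' : (1 : ℝ) ≤ n := by exact_mod_cast hn0
  set L : ℕ := ll n with hL
  have hL1 : 1 ≤ L := by
    rw [hL]
    unfold ll
    omega
  set J : ℕ := 2 ^ (6 * k) with hJ
  set w : ℕ := n / 2 ^ (4 * k) with hw
  -- the slices cover
  have hWpos : 0 < 2 ^ (4 * k) := by positivity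
  have hw1 : 1 ≤ w := by
    rw [hw]
    exact (Nat.one_le_div_iff hWpos).2 hnW
  have hwle : (w : ℝ) ≤ n / 2 ^ (4 * k) := by
    rw [hw]
    have := @Nat.cast_div_le ℝ _ _ _ n (2 ^ (4 * k))
    push_cast at this
    exact this
  have hwge : n ≤ 2 * 2 ^ (4 * k) * w := by
    have h1 : n < 2 ^ (4 * k) * (w + 1) := by
      rw [hw]
      exact Nat.lt_mul_div_succ n hWpos
    have h2 : 2 ^ (4 * k) * 1 ≤ 2 ^ (4 * k) * w := Nat.mul_le_mul_left _ hw1
    nlinarith
  have hmn : m ≤ 2 ^ k * n := by exact_mod_cast hm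
  have hcov : m ≤ J * w := by
    have h1 : 2 ^ k * n ≤ 2 ^ k * (2 * 2 ^ (4 * k) * w) := Nat.mul_le_mul_left _ hwge
    have h2 : 2 ^ k * (2 * 2 ^ (4 * k) * w) = 2 ^ (5 * k + 1) * w := by
      have : (5 * k + 1) = k + 1 + 4 * k := by ring
      rw [this, pow_add, pow_add]
      ring
    have h3 : 2 ^ (5 * k + 1) * w ≤ J * w := by
      apply Nat.mul_le_mul_right
      rw [hJ]
      exact Nat.pow_le_pow_right (by norm_num) (by omega)
    calc m ≤ 2 ^ k * n := hmn
      _ ≤ 2 ^ k * (2 * 2 ^ (4 * k) * w) := h1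
      _ = 2 ^ (5 * k + 1) * w := h2
      _ ≤ J * w := h3
  have hsJ : InflF_s k L J ≤ 2 * (2 * k + 1) ^ J * L := by
    have h1 := InflF_s_eq k L J
    have h2 : (2 * k + 1) ^ J * (1 + L) ≤ (2 * k + 1) ^ J * (2 * L) :=
      Nat.mul_le_mul_left _ (by omega)
    have h3 : (2 * k + 1) ^ J * (2 * L) = 2 * (2 * k + 1) ^ J * L := by ring
    omega
  let t : ℕ → ℕ := fun j => min (j * w) m
  have ht0 : t 0 = 0 := by
    show min (0 * w) m = 0
    simp
  have htJ : t J = m := by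
    show min (J * w) m = m
    exact min_eq_right hcov
  have htmono : ∀ j, t j ≤ t (j + 1) := by
    intro j
    show min (j * w) m ≤ min ((j + 1) * w) m
    exact min_le_min (Nat.mul_le_mul_right _ (Nat.le_succ j)) le_rfl
  have htdiff : ∀ j, t (j + 1) - t j ≤ w := by
    intro j
    show min ((j + 1) * w) m - min (j * w) m ≤ w
    have h1 : (j + 1) * w = j * w + w := by ring
    rw [h1]
    omega
  have hev : ∀ (z : Fin n) (j : ℕ),
      ((univ.filter (fun v : Pos n k m => (Uset v ∅ z (t j)).card ≤ InflF_s k L j ∧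
        InflF_s k L (j + 1) < (Uset v ∅ z (t (j + 1))).card)).card : ℝ) ≤
      1 / (n : ℝ) ^ 3 * (n : ℝ) ^ (k * m) := by
    intro z j
    have h1 := slice_prob (k := k) (m := m) (by omega : 0 < n) z (InflF_s k L j) (t j) (t (j + 1))
      (InflF_s k L j + L) (htmono j)
    have h2 := slice_num (n := n) (m := m) hk (by omega : 0 < n) hm (InflF_s k L j) (t j)
      (t (j + 1)) (InflF_s k L j + L)
      ((Nat.cast_le.2 (htdiff j)).trans hwle) (by omega) (by omega)
    have h3 : ∀ v : Pos n k m, ((Uset v ∅ z (t j)).card ≤ InflF_s k L j ∧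
        InflF_s k L (j + 1) < (Uset v ∅ z (t (j + 1))).card) ↔
        ((Uset v ∅ z (t j)).card ≤ InflF_s k L j ∧
        InflF_s k L j + 2 * k * (InflF_s k L j + L) < (Uset v ∅ z (t (j + 1))).card) :=
      fun v => Iff.rfl
    simp only [h3]
    refine h1.trans ?_
    exact mul_le_mul_of_nonneg_right h2 (by positivity)
  have hsub : (univ.filter (fun v : Pos n k m => ¬ E3 v (2 * (2 * k + 1) ^ J * L))) ⊆
      (univ : Finset (Fin n)).biUnion (fun z => (range J).biUnion (fun j =>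
        univ.filter (fun v : Pos n k m => (Uset v ∅ z (t j)).card ≤ InflF_s k L j ∧
        InflF_s k L (j + 1) < (Uset v ∅ z (t (j + 1))).card))) := by
    intro v hv
    have hv' := (mem_filter.1 hv).2
    unfold E3 at hv'
    push Not at hv'
    obtain ⟨z, hz⟩ := hv'
    have h1 : InflF_s k L J < (Uset v ∅ z (t J)).card := by
      rw [htJ]
      omega
    obtain ⟨j, hj, h2, h3⟩ := InflF_first (fun j => (Uset v ∅ z (t j)).card) (InflF_s k L)
      (by
        show (Uset v ∅ z (t 0)).card ≤ InflF_s k L 0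
        rw [ht0]
        simp [Uset, InflF_s]) J h1
    exact mem_biUnion.2 ⟨z, mem_univ _, mem_biUnion.2 ⟨j, mem_range.2 hj,
      mem_filter.2 ⟨mem_univ _, h2, h3⟩⟩⟩
  have hcard : ((univ.filter (fun v : Pos n k m => ¬ E3 v (2 * (2 * k + 1) ^ J * L))).card : ℝ) ≤
      ∑ z : Fin n, ∑ j ∈ range J,
        ((univ.filter (fun v : Pos n k m => (Uset v ∅ z (t j)).card ≤ InflF_s k L j ∧
        InflF_s k L (j + 1) < (Uset v ∅ z (t (j + 1))).card)).card : ℝ) := by
    have h1 := (card_le_card hsub).trans (card_biUnion_le.trans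
      (sum_le_sum fun z _ => card_biUnion_le))
    exact_mod_cast h1
  refine hcard.trans ?_
  have hbound : ∑ z : Fin n, ∑ j ∈ range J,
        ((univ.filter (fun v : Pos n k m => (Uset v ∅ z (t j)).card ≤ InflF_s k L j ∧
        InflF_s k L (j + 1) < (Uset v ∅ z (t (j + 1))).card)).card : ℝ) ≤
      ∑ _z : Fin n, ∑ _j ∈ range J, 1 / (n : ℝ) ^ 3 * (n : ℝ) ^ (k * m) :=
    sum_le_sum fun z _ => sum_le_sum fun j _ => hev z j
  refine hbound.trans ?_
  rw [sum_const, sum_const, card_univ, Fintype.card_fin, card_range, nsmul_eq_mul, nsmul_eq_mul]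
  have h1 : (n : ℝ) * ((J : ℝ) * (1 / (n : ℝ) ^ 3 * (n : ℝ) ^ (k * m))) =
      (J : ℝ) / (n : ℝ) ^ 2 * (n : ℝ) ^ (k * m) := by
    field_simp
  rw [h1]
  apply mul_le_mul_of_nonneg_right _ (by positivity)
  have hJr : (J : ℝ) = 2 ^ (6 * k) := by
    rw [hJ]
    push_cast
    ring
  rw [hJr, div_le_iff₀ (by positivity)]
  have h2 : (2 ^ (6 * k) : ℝ) < δ * n := by
    rw [div_lt_iff₀ hδ] at hn1
    have h3 : (n1 : ℝ) ≤ n := by exact_mod_cast hnn1
    calc (2 ^ (6 * k) : ℝ) < n1 * δ := hn1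
      _ ≤ n * δ := mul_le_mul_of_nonneg_right h3 hδ.le
      _ = δ * n := mul_comm _ _
  have h4 : δ * (n : ℝ) ≤ δ * (n : ℝ) ^ 2 := by
    apply mul_le_mul_of_nonneg_left _ hδ.le
    nlinarith
  linarith

end GC
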