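import Pool.Agent.W_bd7f91F_h12.Op

/-! # GLOB: the three counting bounds for fixed interventions -/

set_option autoImplicit false

open Finset
open scoped Classical

namespace GC

variable {n k m : ℕ}

/-- the pattern of a violated clause is determined by the variables -/
private theorem LDa_viol (x : Asg n) (P : (Fin k → Fin n) → Prop) :
    (univ.filter (fun c : Cl n k => Viol c x ∧ P c.1)).card = (univ.filter P).card := by
  refine Finset.card_bij' (fun c _ => c.1) (fun u _ => (u, fun j => x (u j))) ?_ ?_ ?_ ?_
  · intro c hc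
    exact Finset.mem_filter.2 ⟨Finset.mem_univ _, (Finset.mem_filter.1 hc).2.2⟩
  · intro u hu
    exact Finset.mem_filter.2 ⟨Finset.mem_univ _, fun j => rfl, (Finset.mem_filter.1 hu).2⟩
  · intro c hc
    have h1 : ∀ j, x (c.1 j) = c.2 j := (Finset.mem_filter.1 hc).2.1
    exact Prod.ext rfl (funext h1)
  · intro u _
    rfl

theorem viol_card (x : Asg n) : (univ.filter (fun c : Cl n k => Viol c x)).card = n ^ k := by
  have h1 := LDa_viol (k := k) x (fun _ => True)
  simp only [and_true, Finset.filter_true] at h1
  rw [h1, Finset.card_univ, Fintype.card_fun, Fintype.card_fin, Fintype.card_fin]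

private theorem LDa_slot (j : Fin k) (y : Fin n) :
    (univ.filter (fun u : Fin k → Fin n => u j = y)).card = n ^ (k - 1) := by
  have h1 : (univ.filter (fun u : Fin k → Fin n => u j = y)) =
      Fintype.piFinset (fun i => if i = j then {y} else (univ : Finset (Fin n))) := by
    ext u
    rw [Finset.mem_filter, Fintype.mem_piFinset]
    constructor
    · rintro ⟨-, h⟩ i
      by_cases hi : i = j
      · rw [if_pos hi, hi]
        exact Finset.mem_singleton.2 h
      · rw [if_neg hi]
        exact Finset.mem_univ _
    · intro h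
      have h2 := h j
      rw [if_pos rfl] at h2
      exact ⟨Finset.mem_univ _, Finset.mem_singleton.1 h2⟩
  rw [h1, Fintype.card_piFinset]
  have h2 : ∀ i : Fin k, (if i = j then {y} else (univ : Finset (Fin n))).card =
      if i = j then 1 else n := by
    intro i
    split_ifs
    · exact Finset.card_singleton y
    · rw [Finset.card_univ, Fintype.card_fin]
  simp only [h2]
  rw [Finset.prod_ite, Finset.prod_const_one, one_mul, Finset.prod_const]
  congr 1
  rw [Finset.filter_not, Finset.filter_eq', if_pos (Finset.mem_univ j),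
    Finset.card_sdiff_of_subset (Finset.subset_univ _), Finset.card_singleton, Finset.card_univ,
    Fintype.card_fin]

/-- PROOF. `Crit c x y` implies that `y` is at some slot (`crit_slot`: `k n^(k-1)` choices of the variables) and that the pattern is
`fl x y` at the variables. -/
theorem crit_card (x : Asg n) (y : Fin n) :
    (univ.filter (fun c : Cl n k => Crit c x y)).card ≤ k * n ^ (k - 1) := by
  have h1 : (univ.filter (fun c : Cl n k => Crit c x y)).card ≤
      (univ.filter (fun c : Cl n k => Viol c (fl x y) ∧ ∃ j, c.1 j = y)).card := by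
    refine Finset.card_le_card fun c hc => ?_
    have hc' := (Finset.mem_filter.1 hc).2
    refine Finset.mem_filter.2 ⟨Finset.mem_univ _, hc'.2, ?_⟩
    by_contra hcon
    push Not at hcon
    apply hc'.1
    intro j
    have h2 := hc'.2 j
    unfold fl at h2
    rw [Function.update_of_ne (hcon j)] at h2
    exact h2
  refine h1.trans ?_
  have h0 : (univ.filter (fun c : Cl n k => Viol c (fl x y) ∧ ∃ j, c.1 j = y)).card =
      (univ.filter (fun u : Fin k → Fin n => ∃ j, u j = y)).card := by
    convert LDa_viol (fl x y) (fun u : Fin k → Fin n => ∃ j, u j = y)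
  rw [h0]
  have h2 : (univ.filter (fun u : Fin k → Fin n => ∃ j, u j = y)) ⊆
      (univ : Finset (Fin k)).biUnion fun j => univ.filter (fun u : Fin k → Fin n => u j = y) := by
    intro u hu
    obtain ⟨j, hj⟩ := (Finset.mem_filter.1 hu).2
    exact Finset.mem_biUnion.2 ⟨j, Finset.mem_univ _, Finset.mem_filter.2 ⟨Finset.mem_univ _, hj⟩⟩
  refine (Finset.card_le_card h2).trans (Finset.card_biUnion_le.trans ?_)
  simp only [LDa_slot, Finset.sum_const, Finset.card_univ, Fintype.card_fin, smul_eq_mul, le_refl]

/-- violated clauses whose variables at the first `d` slots avoid a set `Z` with at least `b` elements -/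
theorem viol_avoid_card (hn : 0 < n) (x : Asg n) (Z : Finset (Fin n)) (b d : ℕ) (hb : b ≤ Z.card)
    (hd : d ≤ k) :
    ((univ.filter (fun c : Cl n k => Viol c x ∧ ∀ j : Fin k, j.val < d → c.1 j ∉ Z)).card : ℝ) ≤
      (n : ℝ) ^ k * (1 - (b : ℝ) / n) ^ d := by
  have h0 : (univ.filter (fun c : Cl n k => Viol c x ∧ ∀ j : Fin k, j.val < d → c.1 j ∉ Z)).card =
      (univ.filter (fun u : Fin k → Fin n => ∀ j : Fin k, j.val < d → u j ∉ Z)).card := by
    convert LDa_viol x (fun u : Fin k → Fin n => ∀ j : Fin k, j.val < d → u j ∉ Z)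
  rw [h0]
  have h1 : (univ.filter (fun u : Fin k → Fin n => ∀ j : Fin k, j.val < d → u j ∉ Z)) =
      Fintype.piFinset (fun i : Fin k => if i.val < d then Zᶜ else (univ : Finset (Fin n))) := by
    ext u
    rw [Finset.mem_filter, Fintype.mem_piFinset]
    constructor
    · rintro ⟨-, h⟩ i
      by_cases hi : i.val < d
      · rw [if_pos hi]
        exact Finset.mem_compl.2 (h i hi)
      · rw [if_neg hi]
        exact Finset.mem_univ _
    · intro h
      refine ⟨Finset.mem_univ _, fun j hj => ?_⟩
      have h2 := h j
      rw [if_pos hj] at h2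
      exact Finset.mem_compl.1 h2
  rw [h1, Fintype.card_piFinset]
  have hZ : Z.card ≤ n := by
    have := Finset.card_le_univ Z
    rwa [Fintype.card_fin] at this
  have h2 : ∀ i : Fin k, ((if i.val < d then Zᶜ else (univ : Finset (Fin n))).card : ℝ) =
      if i.val < d then ((n : ℝ) - Z.card) else n := by
    intro i
    split_ifs
    · rw [Finset.card_compl, Fintype.card_fin, Nat.cast_sub hZ]
    · rw [Finset.card_univ, Fintype.card_fin]
  push_cast
  simp only [h2]
  have hn' : (0 : ℝ) < n := by exact_mod_cast hn
  have hcd : (univ.filter (fun i : Fin k => i.val < d)).card = d := by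
    rw [Fin.card_filter_val_lt]
    exact Nat.min_eq_right hd
  have hcd' : (univ.filter (fun i : Fin k => ¬ i.val < d)).card = k - d := by
    have h3 := Finset.card_filter_add_card_filter_not (s := (univ : Finset (Fin k)))
      (fun i : Fin k => i.val < d)
    rw [hcd, Finset.card_univ, Fintype.card_fin] at h3
    omega
  rw [Finset.prod_ite, Finset.prod_const, Finset.prod_const, hcd, hcd']
  have hZb : (b : ℝ) ≤ Z.card := by exact_mod_cast hb
  have hZn : (Z.card : ℝ) ≤ n := by exact_mod_cast hZ
  have h4 : ((n : ℝ) - Z.card) ^ d ≤ ((n : ℝ) - b) ^ d :=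
    pow_le_pow_left₀ (by linarith) (by linarith) d
  calc ((n : ℝ) - Z.card) ^ d * (n : ℝ) ^ (k - d)
      ≤ ((n : ℝ) - b) ^ d * (n : ℝ) ^ (k - d) := mul_le_mul_of_nonneg_right h4 (by positivity)
    _ = (n : ℝ) ^ k * (1 - (b : ℝ) / n) ^ d := by
        have h5 : (n : ℝ) - b = n * (1 - (b : ℝ) / n) := by
          field_simp
        have h6 : (n : ℝ) ^ k = (n : ℝ) ^ d * (n : ℝ) ^ (k - d) := by
          rw [← pow_add]
          congr 1
          omega
        rw [h5, mul_pow, h6]
        ring

end GC
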