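import Pool.Agent.W_bd7f91F_h12.LDa
import Pool.Agent.W_bd7f91F_h12.AP

/-! # GLOB: the three counting bounds for fixed interventions -/

set_option autoImplicit false

open Finset
open scoped Classical

namespace GC

variable {n k m : ℕ}

/-- general adaptive bound for formulas with clauses in `A` -/
theorem LDb1_gen (hn : 0 < n) (A : Finset (Cl n k)) (I : Finset (Fin m))
    (P : Fin m → Fml n k m → Prop) [DecidablePred (fun Φ : Fml n k m => ∀ e ∈ I, P e Φ)]
    (w : Fin m → ℝ)
    (hdep : ∀ e ∈ I, ∀ (Φ Φ' : Fml n k m), (∀ a, a ≤ e → Φ a = Φ' a) → (P e Φ ↔ P e Φ'))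
    (hw : ∀ e ∈ I, ∀ Φ : Fml n k m,
      ((univ.filter (fun c : Cl n k => P e (Function.update Φ e c))).card : ℝ) ≤ w e) :
    (((Fintype.piFinset (fun _ : Fin m => A)).filter (fun Φ : Fml n k m =>
      ∀ e ∈ I, P e Φ)).card : ℝ) ≤ (∏ e ∈ I, w e) * (A.card : ℝ) ^ (m - I.card) := by
  haveI : Nonempty (Cl n k) := ⟨(fun _ => ⟨0, hn⟩, fun _ => false)⟩
  set F : Fin m → Fml n k m → ℝ := fun e Φ =>
    if Φ e ∈ A ∧ (e ∈ I → P e Φ) then (1 : ℝ) else 0 with hFdef
  have h := ap_weighted (ι := Fin m) (α := Cl n k) univ (fun e => e.val) F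
    (fun e => if e ∈ I then w e else (A.card : ℝ)) ?_ ?_ ?_
  · rw [card_univ] at h
    have hpos : (0 : ℝ) < (Fintype.card (Cl n k) : ℝ) ^ (Fintype.card (Fin m)) := by
      apply pow_pos
      exact_mod_cast Fintype.card_pos
    have h2 := le_of_mul_le_mul_right h hpos
    have h3 : (∑ Φ : Fml n k m, ∏ e, F e Φ) =
        (((Fintype.piFinset (fun _ : Fin m => A)).filter (fun Φ : Fml n k m =>
          ∀ e ∈ I, P e Φ)).card : ℝ) := by
      have h4 : ∀ Φ : Fml n k m, ∏ e, F e Φ =
          if Φ ∈ (Fintype.piFinset (fun _ : Fin m => A)).filter (fun Φ : Fml n k m =>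
          ∀ e ∈ I, P e Φ) then (1 : ℝ) else 0 := by
        intro Φ
        rw [hFdef]
        simp only
        rw [Finset.prod_ite_zero]
        simp only [Finset.prod_const_one, Finset.mem_filter, Fintype.mem_piFinset, mem_univ,
          true_implies, forall_and]
      rw [Finset.sum_congr rfl (fun Φ _ => h4 Φ), Finset.sum_boole]
      congr 2
      ext Φ
      simp
    rw [h3] at h2
    refine h2.trans (le_of_eq ?_)
    rw [Finset.prod_ite]
    have e1 : univ.filter (fun e => e ∈ I) = I := by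
      ext e
      simp
    have e2 : univ.filter (fun e => e ∉ I) = univ \ I := by
      ext e
      simp
    rw [e1, e2, Finset.prod_const, Finset.card_sdiff_of_subset (Finset.subset_univ _), card_univ,
      Fintype.card_fin]
  · intro e _ Φ
    rw [hFdef]
    simp only
    split_ifs <;> norm_num
  · intro a _ b _ hab hr Φ c
    have hlt : b < a := lt_of_le_of_ne hr (fun h => hab h.symm)
    rw [hFdef]
    simp only
    have e1 : Function.update Φ a c b = Φ b := Function.update_of_ne hlt.ne _ _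
    rw [e1]
    by_cases hb : b ∈ I
    · have := hdep b hb (Function.update Φ a c) Φ
        (fun a' ha' => Function.update_of_ne (lt_of_le_of_lt ha' hlt).ne _ _)
      simp only [this]
    · simp only [hb, false_implies]
  · intro e _ Φ
    rw [hFdef]
    simp only [Function.update_self]
    by_cases he : e ∈ I
    · rw [if_pos he]
      refine le_trans ?_ (hw e he Φ)
      rw [Finset.sum_boole]
      apply Nat.cast_le.2
      apply Finset.card_le_card
      intro c hc
      rw [Finset.mem_filter] at hc ⊢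
      exact ⟨mem_univ _, hc.2.2 he⟩
    · rw [if_neg he, Finset.sum_boole]
      apply Nat.cast_le.2
      apply Finset.card_le_card
      intro c hc
      exact (Finset.mem_filter.1 hc).2.1

theorem LDb1_run (Φ Φ' Ψ : Fml n k m) (Q : Finset (Fin m)) (Y : Finset (Fin n))
    (ρ : Fin m → Option (Option (Fin k))) (η : Asg n) (i : ℕ)
    (h : ∀ a : Fin m, a.val < i → Φ a = Φ' a) :
    run (ovF Q Φ Ψ) Q Y ρ η i = run (ovF Q Φ' Ψ) Q Y ρ η i := by
  apply run_congr
  · intro e he heQ
    unfold ovF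
    rw [if_neg heQ, if_neg heQ]
    exact h e he
  · intro e heQ _ t _ j _
    unfold ovF
    rw [if_pos heQ, if_pos heQ]

theorem LDb1_free (Φ Φ' Ψ : Fml n k m) (Q : Finset (Fin m)) (Y : Finset (Fin n)) (i : ℕ)
    (S : St n) (h : ∀ a : Fin m, a.val < i → Φ a = Φ' a) :
    Free (ovF Q Φ Ψ) Q Y i S = Free (ovF Q Φ' Ψ) Q Y i S := by
  apply free_congr
  intro e he heQ
  unfold ovF
  rw [if_neg heQ, if_neg heQ]
  exact h e he

/-- MANY VIOLATED CLAUSES.
PROOF. `ap_weighted` with `ι = Fin m`, `α = Cl n k`, `J = univ`, rank = index, `F e Φ` = indicator of `Φ e ∈ A`, times the indicator of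
`Viol (Φ e) (run (ovF Q Φ Ψ) Q Y ρ η e.val).1` if `e ∈ I`: it depends only on the clauses with index at most `e` (`run_congr`; the
clauses of `Q` are given by `Ψ`). `w e = n^k` for `e ∈ I` (`viol_card`), `|A|` otherwise. -/
theorem ld1 (hn : 0 < n) (A : Finset (Cl n k)) (Ψ : Fml n k m) (Q : Finset (Fin m))
    (Y : Finset (Fin n)) (ρ : Fin m → Option (Option (Fin k))) (η : Asg n)
    (I : Finset (Fin m)) (hI : Disjoint I Q) :
    (((Fintype.piFinset (fun _ : Fin m => A)).filter (fun Φ : Fml n k m =>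
      ∀ e ∈ I, Viol (Φ e) (run (ovF Q Φ Ψ) Q Y ρ η e.val).1)).card : ℝ) ≤
      ((n : ℝ) ^ k) ^ I.card * (A.card : ℝ) ^ (m - I.card) := by
  have h := LDb1_gen hn A I (fun e Φ => Viol (Φ e) (run (ovF Q Φ Ψ) Q Y ρ η e.val).1)
    (fun _ => (n : ℝ) ^ k) ?_ ?_
  · rw [Finset.prod_const] at h
    exact h
  · intro e _ Φ Φ' hΦ
    rw [LDb1_run Φ Φ' Ψ Q Y ρ η e.val (fun a ha => hΦ a (le_of_lt ha)), hΦ e le_rfl]
  · intro e _ Φ
    simp only [Function.update_self]
    have h1 : ∀ c, run (ovF Q (Function.update Φ e c) Ψ) Q Y ρ η e.val =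
        run (ovF Q Φ Ψ) Q Y ρ η e.val := fun c =>
      LDb1_run _ _ Ψ Q Y ρ η e.val (fun a ha => Function.update_of_ne
        (fun h => absurd ha (by rw [h]; exact lt_irrefl _)) _ _)
    simp only [h1]
    exact_mod_cast (viol_card (k := k) (run (ovF Q Φ Ψ) Q Y ρ η e.val).1).le

/-- LONG INSPECTIONS.
PROOF. As `ld1`, with the additional conditions; `w e = n^k (1 - b/n)^(len (t e))` for `e ∈ I` (`viol_avoid_card` for the set of the
free variables at time `e.val`, which has at least `b` elements: the slots before the stop slot are not free, `stp_some`, `stp_none`;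
`len none = k`). -/
theorem ld2 (hn : 0 < n) (A : Finset (Cl n k)) (Ψ : Fml n k m) (Q : Finset (Fin m))
    (Y : Finset (Fin n)) (ρ : Fin m → Option (Option (Fin k))) (η : Asg n) (b : ℕ) (hb : b ≤ n)
    (I : Finset (Fin m)) (hI : Disjoint I Q) (t : Fin m → Option (Fin k)) :
    (((Fintype.piFinset (fun _ : Fin m => A)).filter (fun Φ : Fml n k m =>
      ∀ e ∈ I, Viol (Φ e) (run (ovF Q Φ Ψ) Q Y ρ η e.val).1 ∧
        b ≤ (FreeF (ovF Q Φ Ψ) Q Y e.val (run (ovF Q Φ Ψ) Q Y ρ η e.val)).card ∧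
        t e = stp (Φ e).1 (Free (ovF Q Φ Ψ) Q Y e.val (run (ovF Q Φ Ψ) Q Y ρ η e.val)))).card :
        ℝ) ≤
      ((n : ℝ) ^ k) ^ I.card * (1 - (b : ℝ) / n) ^ (∑ e ∈ I, len (t e)) *
        (A.card : ℝ) ^ (m - I.card) := by
  have hnr : (0 : ℝ) < n := by exact_mod_cast hn
  have hbn : (0 : ℝ) ≤ 1 - (b : ℝ) / n := by
    rw [sub_nonneg, div_le_one hnr]
    exact_mod_cast hb
  have h := LDb1_gen hn A I (fun e Φ => Viol (Φ e) (run (ovF Q Φ Ψ) Q Y ρ η e.val).1 ∧
        b ≤ (FreeF (ovF Q Φ Ψ) Q Y e.val (run (ovF Q Φ Ψ) Q Y ρ η e.val)).card ∧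
        t e = stp (Φ e).1 (Free (ovF Q Φ Ψ) Q Y e.val (run (ovF Q Φ Ψ) Q Y ρ η e.val)))
    (fun e => (n : ℝ) ^ k * (1 - (b : ℝ) / n) ^ (len (t e))) ?_ ?_
  · rw [Finset.prod_mul_distrib, Finset.prod_const, Finset.prod_pow_eq_pow_sum] at h
    exact h
  · intro e _ Φ Φ' hΦ
    unfold FreeF
    rw [LDb1_run Φ Φ' Ψ Q Y ρ η e.val (fun a ha => hΦ a (le_of_lt ha)), hΦ e le_rfl,
      LDb1_free Φ Φ' Ψ Q Y e.val _ (fun a ha => hΦ a (le_of_lt ha))]
  · intro e _ Φ
    simp only [Function.update_self]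
    have hup : ∀ (c : Cl n k) (a : Fin m), a.val < e.val → Function.update Φ e c a = Φ a :=
      fun c a ha => Function.update_of_ne (fun h => absurd ha (by rw [h]; exact lt_irrefl _)) _ _
    have h1 : ∀ c, run (ovF Q (Function.update Φ e c) Ψ) Q Y ρ η e.val =
        run (ovF Q Φ Ψ) Q Y ρ η e.val := fun c => LDb1_run _ _ Ψ Q Y ρ η e.val (hup c)
    have h2 : ∀ c S, Free (ovF Q (Function.update Φ e c) Ψ) Q Y e.val S =
        Free (ovF Q Φ Ψ) Q Y e.val S := fun c S => LDb1_free _ _ Ψ Q Y e.val S (hup c)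
    unfold FreeF
    simp only [h1, h2]
    set S := run (ovF Q Φ Ψ) Q Y ρ η e.val with hS
    by_cases hbc : b ≤ (univ.filter (Free (ovF Q Φ Ψ) Q Y e.val S)).card
    · have hlen : len (t e) ≤ k := by
        unfold len
        split
        · exact le_rfl
        · rename_i j _
          exact j.2.le
      refine le_trans ?_ (viol_avoid_card hn S.1 (univ.filter (Free (ovF Q Φ Ψ) Q Y e.val S)) b
        (len (t e)) hbc hlen)
      apply Nat.cast_le.2
      apply Finset.card_le_card
      intro c hc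
      rw [Finset.mem_filter] at hc ⊢
      refine ⟨mem_univ _, hc.2.1, ?_⟩
      intro j hj hmem
      have hfree := (Finset.mem_filter.1 hmem).2
      have ht := hc.2.2.2
      cases hcase : t e with
      | none =>
        rw [hcase] at ht
        exact stp_none.1 ht.symm j hfree
      | some s =>
        rw [hcase] at ht hj
        exact (stp_some.1 ht.symm).2 j (by
          unfold len at hj
          exact hj) hfree
    · have : (univ.filter (fun c : Cl n k => Viol c S.1 ∧
          b ≤ (univ.filter (Free (ovF Q Φ Ψ) Q Y e.val S)).card ∧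
          t e = stp c.1 (Free (ovF Q Φ Ψ) Q Y e.val S))) = ∅ := by
        rw [Finset.filter_eq_empty_iff]
        intro c _ hc
        exact hbc hc.2.1
      rw [this, card_empty, Nat.cast_zero]
      positivity

end GC
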