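import Pool.Agent.W_bd7f91F_h12.LDb1
import Pool.Agent.W_bd7f91F_h12.BinsL

/-! # GLOB: the three counting bounds for fixed interventions -/

set_option autoImplicit false

open Finset
open scoped Classical

namespace GC

variable {n k m : ℕ}

/-- the mixture: `Φ` on `I`, `Φ'` off `I` -/
noncomputable def LDc_mix (I : Finset (Fin m)) (Φ Φ' : Fml n k m) : Fml n k m :=
  fun e => if e ∈ I then Φ e else Φ' e

theorem LDc_resample (A : Finset (Cl n k)) (I : Finset (Fin m)) (G : Fml n k m → ℝ) :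
    (∑ Φ ∈ Fintype.piFinset (fun _ : Fin m => A), G Φ) * (A.card : ℝ) ^ m =
      ∑ Φ ∈ Fintype.piFinset (fun _ : Fin m => A), ∑ Φ' ∈ Fintype.piFinset (fun _ : Fin m => A),
        G (LDc_mix I Φ Φ') := by
  set PF := Fintype.piFinset (fun _ : Fin m => A) with hPF
  have hcard : (PF.card : ℝ) = (A.card : ℝ) ^ m := by
    rw [hPF, Fintype.card_piFinset, prod_const, card_univ, Fintype.card_fin]
    push_cast
    rfl
  have h1 : ∑ Φ ∈ PF, ∑ Φ' ∈ PF, G (LDc_mix I Φ Φ') =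
      ∑ p ∈ PF ×ˢ PF, G (LDc_mix I p.1 p.2) := by
    rw [sum_product]
  have h2 : ∑ p ∈ PF ×ˢ PF, G (LDc_mix I p.1 p.2) = ∑ p ∈ PF ×ˢ PF, G p.1 := by
    have hmem : ∀ p ∈ PF ×ˢ PF, (LDc_mix I p.1 p.2, LDc_mix I p.2 p.1) ∈ PF ×ˢ PF := by
      intro p hp
      obtain ⟨ha, hb⟩ := mem_product.1 hp
      rw [hPF, Fintype.mem_piFinset] at ha hb
      refine mem_product.2 ⟨?_, ?_⟩ <;>
      · rw [hPF, Fintype.mem_piFinset]
        intro e
        dsimp only [LDc_mix]
        split_ifs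
        · first | exact ha e | exact hb e
        · first | exact hb e | exact ha e
    refine sum_bij' (fun p _ => (LDc_mix I p.1 p.2, LDc_mix I p.2 p.1))
      (fun p _ => (LDc_mix I p.1 p.2, LDc_mix I p.2 p.1)) hmem hmem ?_ ?_ ?_
    · intro p _
      refine Prod.ext ?_ ?_ <;>
      · funext e
        dsimp only [LDc_mix]
        split_ifs <;> rfl
    · intro p _
      refine Prod.ext ?_ ?_ <;>
      · funext e
        dsimp only [LDc_mix]
        split_ifs <;> rfl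
    · intro p _
      rfl
  rw [h1, h2, sum_product]
  simp only [sum_const, nsmul_eq_mul]
  rw [← mul_sum, hcard, mul_comm]

theorem LDc_grun_congr (Φ Φ' Ψ : Fml n k m) (Q I : Finset (Fin m))
    (ρ : Fin m → Option (Option (Fin k))) (t : Fin m → Option (Fin k)) (η : Asg n) (i : ℕ)
    (h : ∀ e ∈ I, e.val < i → Φ e = Φ' e) :
    grun Φ Ψ Q I ρ t η i = grun Φ' Ψ Q I ρ t η i := by
  unfold grun
  apply run_congr
  · intro e _ he
    exact absurd (mem_univ e) he
  · intro e _ hei t' ht' j _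
    by_cases hQ : e ∈ Q
    · simp only [ovF, hQ, if_true]
    · rw [if_neg hQ] at ht'
      by_cases hI : e ∈ I
      · simp only [ovF, hQ, if_false]
        rw [h e hI hei]
      · rw [if_neg hI] at ht'
        exact absurd ht' (by simp)

theorem LDc_first (hn : 0 < n) (A : Finset (Cl n k)) (I : Finset (Fin m))
    (X : Fin m → Fml n k m → Asg n)
    (hX : ∀ e Φ Φ', (∀ e' : Fin m, e' < e → Φ e' = Φ' e') → X e Φ = X e Φ') :
    (∑ Φ ∈ Fintype.piFinset (fun _ : Fin m => A),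
      if (∀ e ∈ I, Viol (Φ e) (X e Φ)) then (1 : ℝ) else 0) ≤
      ((n : ℝ) ^ k) ^ I.card * (A.card : ℝ) ^ (m - I.card) := by
  haveI : Nonempty (Cl n k) := ⟨(fun _ => ⟨0, hn⟩, fun _ => false)⟩
  let F : Fin m → Fml n k m → ℝ := fun e Φ =>
    if Φ e ∈ A ∧ (e ∈ I → Viol (Φ e) (X e Φ)) then 1 else 0
  let w : Fin m → ℝ := fun e => if e ∈ I then (n : ℝ) ^ k else (A.card : ℝ)
  have hF : ∀ a ∈ (univ : Finset (Fin m)), ∀ f, 0 ≤ F a f := by
    intro a _ f
    show 0 ≤ (if _ then (1 : ℝ) else 0)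
    split_ifs <;> norm_num
  have hdep : ∀ a ∈ (univ : Finset (Fin m)), ∀ b ∈ (univ : Finset (Fin m)), a ≠ b →
      b.val ≤ a.val → ∀ (f : Fml n k m) c, F b (Function.update f a c) = F b f := by
    intro a _ b _ hab hba f c
    have hlt : b < a := lt_of_le_of_ne hba (fun h => hab h.symm)
    have h1 : (Function.update f a c) b = f b := Function.update_of_ne (ne_of_lt hlt) _ _
    have h2 : X b (Function.update f a c) = X b f := by
      apply hX
      intro e' he'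
      exact Function.update_of_ne (ne_of_lt (he'.trans hlt)) _ _
    show (if _ then (1 : ℝ) else 0) = (if _ then (1 : ℝ) else 0)
    rw [h1, h2]
  have hw : ∀ a ∈ (univ : Finset (Fin m)), ∀ f : Fml n k m,
      ∑ c, F a (Function.update f a c) ≤ w a := by
    intro a _ f
    have h2 : ∀ c, X a (Function.update f a c) = X a f := by
      intro c
      apply hX
      intro e' he'
      exact Function.update_of_ne (ne_of_lt he') _ _
    have h3 : ∀ c, F a (Function.update f a c) =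
        if c ∈ A ∧ (a ∈ I → Viol c (X a f)) then (1 : ℝ) else 0 := by
      intro c
      show (if _ then (1 : ℝ) else 0) = _
      rw [h2, Function.update_self]
    simp only [h3]
    rw [← sum_filter, sum_const, nsmul_eq_mul, mul_one]
    show _ ≤ (if a ∈ I then (n : ℝ) ^ k else (A.card : ℝ))
    split_ifs with haI
    · have h4 : (univ.filter (fun c : Cl n k => c ∈ A ∧ (a ∈ I → Viol c (X a f)))).card ≤
          n ^ k := by
        rw [← viol_card (k := k) (X a f)]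
        apply card_le_card
        intro c hc
        exact mem_filter.2 ⟨mem_univ _, (mem_filter.1 hc).2.2 haI⟩
      exact_mod_cast h4
    · have h4 : (univ.filter (fun c : Cl n k => c ∈ A ∧ (a ∈ I → Viol c (X a f)))).card ≤
          A.card := card_le_card (fun c hc => (mem_filter.1 hc).2.1)
      exact_mod_cast h4
  have key := ap_weighted (univ : Finset (Fin m)) (fun e => e.val) F w hF hdep hw
  have hcα : (0 : ℝ) < (Fintype.card (Cl n k) : ℝ) ^ Fintype.card (Fin m) := by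
    have : 0 < Fintype.card (Cl n k) := Fintype.card_pos
    positivity
  rw [card_univ] at key
  have key2 := le_of_mul_le_mul_right key hcα
  have hprod : ∏ a : Fin m, w a = ((n : ℝ) ^ k) ^ I.card * (A.card : ℝ) ^ (m - I.card) := by
    show ∏ a : Fin m, (if a ∈ I then (n : ℝ) ^ k else (A.card : ℝ)) = _
    rw [prod_ite, prod_const, prod_const]
    congr 2
    · congr 1
      ext a
      simp
    · have h5 : (univ.filter (fun a : Fin m => ¬ a ∈ I)) = univ \ I := by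
        ext a
        simp
      rw [h5, card_sdiff_of_subset (subset_univ _), card_univ, Fintype.card_fin]
  rw [← hprod]
  refine le_trans ?_ key2
  have h6 : ∀ Φ ∈ Fintype.piFinset (fun _ : Fin m => A),
      (if (∀ e ∈ I, Viol (Φ e) (X e Φ)) then (1 : ℝ) else 0) = ∏ a : Fin m, F a Φ := by
    intro Φ hΦ
    rw [Fintype.mem_piFinset] at hΦ
    split_ifs with h
    · symm
      apply prod_eq_one
      intro a _
      show (if _ then (1 : ℝ) else 0) = 1
      rw [if_pos ⟨hΦ a, fun haI => h a haI⟩]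
    · push Not at h
      obtain ⟨e, heI, hev⟩ := h
      symm
      apply prod_eq_zero (mem_univ e)
      show (if _ then (1 : ℝ) else 0) = 0
      rw [if_neg]
      rintro ⟨_, h7⟩
      exact hev (h7 heI)
  rw [sum_congr rfl h6]
  exact sum_le_sum_of_subset_of_nonneg (subset_univ _)
    (fun Φ _ _ => prod_nonneg fun a ha => hF a ha Φ)

theorem LDc_second (hn : 0 < n) (hk : 2 ≤ k) (A : Finset (Cl n k)) (Q : Finset (Fin m))
    (Y : Finset (Fin n)) (b l : ℕ)
    (hY : Y.card ≤ l) (hln : n / 2 + l + n / 3 ≤ n)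
    (hA : (n + 1) * (k * n ^ (k - 1)) ≤ A.card) (f0 : ℝ) (hf00 : 0 ≤ f0)
    (hf0 : f0 ≤ (1 - ((k * n ^ (k - 1) : ℕ) : ℝ) / ((A.card : ℝ) - n * (k * n ^ (k - 1) : ℕ))) ^ m)
    (I : Finset (Fin m)) (i : ℕ) (S : St n) :
    (∑ Φ ∈ Fintype.piFinset (fun _ : Fin m => A),
      if (S.2.card ≤ n / 2 ∧ (univ.filter (fun y : Fin n => y ∉ S.2 ∧ y ∉ Y ∧
        ∀ e : Fin m, e.val < i → e ∉ Q → e ∉ I → ¬ Crit (Φ e) S.1 y)).card < b)
      then (1 : ℝ) else 0) ≤
      ((k : ℝ) ^ b * (1 - f0 / 2) ^ (n / 3)) * (A.card : ℝ) ^ m := by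
  have hkpos : (0 : ℝ) < k := by
    have : 0 < k := by omega
    exact_mod_cast this
  have hk2 : (2 : ℝ) ≤ k := by exact_mod_cast hk
  set a : ℕ := k * n ^ (k - 1) with ha
  have hapos : 0 < a := by
    rw [ha]
    exact Nat.mul_pos (by omega) (Nat.pow_pos hn)
  have hapos' : (0 : ℝ) < a := by exact_mod_cast hapos
  have hAr : ((n : ℝ) + 1) * a ≤ A.card := by exact_mod_cast hA
  have hden : (a : ℝ) ≤ (A.card : ℝ) - n * a := by linarith
  have hden0 : (0 : ℝ) < (A.card : ℝ) - n * a := by linarith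
  have hbase1 : (a : ℝ) / ((A.card : ℝ) - n * a) ≤ 1 := by
    rw [div_le_one hden0]
    exact hden
  have hbase0 : 0 ≤ (a : ℝ) / ((A.card : ℝ) - n * a) := by positivity
  have hf1 : f0 ≤ 1 := hf0.trans (pow_le_one₀ (by linarith) (by linarith))
  by_cases hM : S.2.card ≤ n / 2
  swap
  · have h0 : ∀ Φ ∈ Fintype.piFinset (fun _ : Fin m => A),
        (if (S.2.card ≤ n / 2 ∧ (univ.filter (fun y : Fin n => y ∉ S.2 ∧ y ∉ Y ∧
        ∀ e : Fin m, e.val < i → e ∉ Q → e ∉ I → ¬ Crit (Φ e) S.1 y)).card < b)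
        then (1 : ℝ) else 0) = 0 := by
      intro Φ _
      rw [if_neg]
      exact fun h => hM h.1
    rw [sum_congr rfl h0, sum_const_zero]
    have : 0 ≤ 1 - f0 / 2 := by linarith
    positivity
  · set Z : Finset (Fin n) := univ.filter (fun y => y ∉ S.2 ∧ y ∉ Y) with hZ
    set T : Finset (Fin m) := univ.filter (fun e : Fin m => e.val < i ∧ e ∉ Q ∧ e ∉ I) with hT
    have hZn : Z.card ≤ n := by
      have := card_le_univ Z
      rwa [Fintype.card_fin] at this
    have hZge : n / 3 ≤ Z.card := by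
      have h1 : (univ : Finset (Fin n)) ⊆ S.2 ∪ Y ∪ Z := by
        intro y _
        by_cases h2 : y ∈ S.2
        · exact mem_union_left _ (mem_union_left _ h2)
        · by_cases h3 : y ∈ Y
          · exact mem_union_left _ (mem_union_right _ h3)
          · exact mem_union_right _ (mem_filter.2 ⟨mem_univ _, h2, h3⟩)
      have h2 := card_le_card h1
      rw [card_univ, Fintype.card_fin] at h2
      have h3 := card_union_le (S.2 ∪ Y) Z
      have h4 := card_union_le S.2 Y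
      omega
    have hTm : T.card ≤ m := by
      have := card_le_univ T
      rwa [Fintype.card_fin] at this
    have hy0 : (0 : ℝ) ≤ 1 / k := by positivity
    have hypos : (0 : ℝ) < 1 / k := by positivity
    have hy2 : (1 : ℝ) / k ≤ 1 / 2 := one_div_le_one_div_of_le (by norm_num) hk2
    have hy1 : (1 : ℝ) / k ≤ 1 := by linarith
    have hZr : (Z.card : ℝ) ≤ n := by exact_mod_cast hZn
    have hZa : (Z.card : ℝ) * a ≤ n * a := mul_le_mul_of_nonneg_right hZr hapos'.le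
    have hf : f0 ≤ (1 - (a : ℝ) / ((A.card : ℝ) - Z.card * a)) ^ T.card := by
      have h1 : (a : ℝ) / ((A.card : ℝ) - Z.card * a) ≤ (a : ℝ) / ((A.card : ℝ) - n * a) :=
        div_le_div_of_nonneg_left hapos'.le hden0 (by linarith)
      have h2 : 0 ≤ (a : ℝ) / ((A.card : ℝ) - Z.card * a) :=
        div_nonneg hapos'.le (by linarith)
      calc f0 ≤ (1 - (a : ℝ) / ((A.card : ℝ) - n * a)) ^ m := hf0
        _ ≤ (1 - (a : ℝ) / ((A.card : ℝ) - Z.card * a)) ^ m :=
            pow_le_pow_left₀ (by linarith) (by linarith) m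
        _ ≤ (1 - (a : ℝ) / ((A.card : ℝ) - Z.card * a)) ^ T.card :=
            pow_le_pow_of_le_one (by linarith) (by linarith) hTm
    have hAZ : (Z.card + 1) * a ≤ A.card :=
      (Nat.mul_le_mul_right a (by omega)).trans hA
    have hb := bins (fun (c : Cl n k) (z : Fin n) => Crit c S.1 z)
      (fun c z z' h h' => crit_unique h h') a (fun z => crit_card S.1 z) (1 / k) f0 hy0 hy1 hf00
      (m := m) A T Z hAZ hf
    have h1 : ∀ Φ ∈ Fintype.piFinset (fun _ : Fin m => A),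
        (if (S.2.card ≤ n / 2 ∧ (univ.filter (fun y : Fin n => y ∉ S.2 ∧ y ∉ Y ∧
        ∀ e : Fin m, e.val < i → e ∉ Q → e ∉ I → ¬ Crit (Φ e) S.1 y)).card < b)
        then (1 : ℝ) else 0) ≤
        (k : ℝ) ^ b * (1 / k : ℝ) ^ (Z.filter (fun z => ∀ e ∈ T, ¬ Crit (Φ e) S.1 z)).card := by
      intro Φ _
      split_ifs with h
      · have hset : (univ.filter (fun y : Fin n => y ∉ S.2 ∧ y ∉ Y ∧
            ∀ e : Fin m, e.val < i → e ∉ Q → e ∉ I → ¬ Crit (Φ e) S.1 y)) =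
            Z.filter (fun z => ∀ e ∈ T, ¬ Crit (Φ e) S.1 z) := by
          ext y
          simp only [hZ, hT, mem_filter, mem_univ, true_and]
          constructor
          · rintro ⟨h2, h3, h4⟩
            exact ⟨⟨h2, h3⟩, fun e he => h4 e he.1 he.2.1 he.2.2⟩
          · rintro ⟨⟨h2, h3⟩, h4⟩
            exact ⟨h2, h3, fun e h5 h6 h7 => h4 e ⟨h5, h6, h7⟩⟩
        have hlt := h.2
        rw [hset] at hlt
        have h2 : (1 / k : ℝ) ^ b ≤
            (1 / k : ℝ) ^ (Z.filter (fun z => ∀ e ∈ T, ¬ Crit (Φ e) S.1 z)).card :=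
          pow_le_pow_of_le_one hy0 hy1 hlt.le
        have h3 : (k : ℝ) ^ b * (1 / k : ℝ) ^ b = 1 := by
          rw [← mul_pow]
          have : (k : ℝ) * (1 / k) = 1 := by field_simp
          rw [this, one_pow]
        calc (1 : ℝ) = (k : ℝ) ^ b * (1 / k : ℝ) ^ b := h3.symm
          _ ≤ _ := mul_le_mul_of_nonneg_left h2 (by positivity)
      · positivity
    refine (sum_le_sum h1).trans ?_
    rw [← mul_sum]
    have h2 : (1 - (1 - 1 / (k : ℝ)) * f0) ^ Z.card ≤ (1 - f0 / 2) ^ (n / 3) := by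
      have h3 : 0 ≤ 1 - (1 - 1 / (k : ℝ)) * f0 := by nlinarith
      have h4 : 1 - (1 - 1 / (k : ℝ)) * f0 ≤ 1 - f0 / 2 := by nlinarith
      calc (1 - (1 - 1 / (k : ℝ)) * f0) ^ Z.card ≤ (1 - f0 / 2) ^ Z.card :=
            pow_le_pow_left₀ h3 h4 _
        _ ≤ (1 - f0 / 2) ^ (n / 3) :=
            pow_le_pow_of_le_one (by linarith) (by linarith) hZge
    calc (k : ℝ) ^ b * ∑ Φ ∈ Fintype.piFinset (fun _ : Fin m => A),
          (1 / k : ℝ) ^ (Z.filter (fun z => ∀ e ∈ T, ¬ Crit (Φ e) S.1 z)).card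
        ≤ (k : ℝ) ^ b * ((A.card : ℝ) ^ m * (1 - (1 - 1 / (k : ℝ)) * f0) ^ Z.card) :=
          mul_le_mul_of_nonneg_left hb (by positivity)
      _ ≤ (k : ℝ) ^ b * ((A.card : ℝ) ^ m * (1 - f0 / 2) ^ (n / 3)) :=
          mul_le_mul_of_nonneg_left (mul_le_mul_of_nonneg_left h2 (by positivity)) (by positivity)
      _ = ((k : ℝ) ^ b * (1 - f0 / 2) ^ (n / 3)) * (A.card : ℝ) ^ m := by ring

/-- FEW FREE VARIABLES.
PROOF. The guided state at time `i` depends only on `Ψ` on `Q` and on the variables of the clauses of `I` (`run_congr` with `Q = univ`). Resampling the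
clauses outside `I` (`∑_Φ G Φ * |A|^m = ∑_Φ ∑_Φ' G (Φ on I, Φ' off I)` over `piFinset A`): for fixed `Φ`, the sum over `Φ'` of the
indicator of the third condition is at most `k^b |A|^m (1 - (1 - 1/k) f0)^(n/3)`: `bins` with `cr c z = Crit c x z`, `x` the guided
assignment, `a = k n^(k-1)` (`crit_card`), `S = {e | e < i, e ∉ Q, e ∉ I}`, `Z` = the variables which are not marked and not in `Y`
(if `|marked| ≤ n/2`, at least `n/3` of them; take a subset or use that the bound decreases with `|Z|`), `y = 1/k`: fewer than `b` empty bins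
means `y^(number) ≥ y^b`. `1 - (1 - 1/k) f0 ≤ 1 - f0/2`. The sum over `Φ` of the indicator of the first condition is at most
`(n^k)^|I| |A|^(m - |I|)`: `ap_weighted` as in `ld1` (the guided run is a run). -/
theorem ld3 (hn : 0 < n) (hk : 2 ≤ k) (A : Finset (Cl n k)) (Ψ : Fml n k m) (Q : Finset (Fin m))
    (Y : Finset (Fin n)) (ρ : Fin m → Option (Option (Fin k))) (η : Asg n) (b l : ℕ)
    (hY : Y.card ≤ l) (hln : n / 2 + l + n / 3 ≤ n)
    (hA : (n + 1) * (k * n ^ (k - 1)) ≤ A.card) (f0 : ℝ) (hf00 : 0 ≤ f0)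
    (hf0 : f0 ≤ (1 - ((k * n ^ (k - 1) : ℕ) : ℝ) / ((A.card : ℝ) - n * (k * n ^ (k - 1) : ℕ))) ^ m)
    (I : Finset (Fin m)) (hI : Disjoint I Q) (t : Fin m → Option (Fin k)) (i : ℕ)
    (hi : ∀ e ∈ I, e.val < i) :
    (((Fintype.piFinset (fun _ : Fin m => A)).filter (fun Φ : Fml n k m =>
      (∀ e ∈ I, Viol (Φ e) (grun Φ Ψ Q I ρ t η e.val).1) ∧
      (grun Φ Ψ Q I ρ t η i).2.card ≤ n / 2 ∧
      (univ.filter (fun y : Fin n => y ∉ (grun Φ Ψ Q I ρ t η i).2 ∧ y ∉ Y ∧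
        ∀ e : Fin m, e.val < i → e ∉ Q → e ∉ I →
          ¬ Crit (Φ e) (grun Φ Ψ Q I ρ t η i).1 y)).card < b)).card : ℝ) ≤
      ((n : ℝ) ^ k) ^ I.card * (A.card : ℝ) ^ (m - I.card) *
        ((k : ℝ) ^ b * (1 - f0 / 2) ^ (n / 3)) := by
  set PF := Fintype.piFinset (fun _ : Fin m => A) with hPF
  have hapos : 0 < A.card := by
    have h1 : 0 < (n + 1) * (k * n ^ (k - 1)) :=
      Nat.mul_pos (by omega) (Nat.mul_pos (by omega) (Nat.pow_pos hn))
    omega
  have hApos : (0 : ℝ) < (A.card : ℝ) ^ m := by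
    have : (0 : ℝ) < A.card := by exact_mod_cast hapos
    positivity
  set B : ℝ := (k : ℝ) ^ b * (1 - f0 / 2) ^ (n / 3) with hB
  let P1 : Fml n k m → Prop := fun Φ => ∀ e ∈ I, Viol (Φ e) (grun Φ Ψ Q I ρ t η e.val).1
  let P2 : Fml n k m → St n → Prop := fun Φ S => S.2.card ≤ n / 2 ∧
    (univ.filter (fun y : Fin n => y ∉ S.2 ∧ y ∉ Y ∧
        ∀ e : Fin m, e.val < i → e ∉ Q → e ∉ I → ¬ Crit (Φ e) S.1 y)).card < b
  let G : Fml n k m → ℝ := fun Φ =>
    (if P1 Φ then (1 : ℝ) else 0) * (if P2 Φ (grun Φ Ψ Q I ρ t η i) then (1 : ℝ) else 0)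
  have hcount : ((PF.filter (fun Φ : Fml n k m =>
      (∀ e ∈ I, Viol (Φ e) (grun Φ Ψ Q I ρ t η e.val).1) ∧
      (grun Φ Ψ Q I ρ t η i).2.card ≤ n / 2 ∧
      (univ.filter (fun y : Fin n => y ∉ (grun Φ Ψ Q I ρ t η i).2 ∧ y ∉ Y ∧
        ∀ e : Fin m, e.val < i → e ∉ Q → e ∉ I →
          ¬ Crit (Φ e) (grun Φ Ψ Q I ρ t η i).1 y)).card < b)).card : ℝ) = ∑ Φ ∈ PF, G Φ := by
    rw [card_eq_sum_ones, Nat.cast_sum, sum_filter]
    refine sum_congr rfl fun Φ _ => ?_
    show _ = (if P1 Φ then (1 : ℝ) else 0) *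
      (if P2 Φ (grun Φ Ψ Q I ρ t η i) then (1 : ℝ) else 0)
    by_cases h1 : P1 Φ
    · by_cases h2 : P2 Φ (grun Φ Ψ Q I ρ t η i)
      · rw [if_pos h1, if_pos h2, if_pos ⟨h1, h2.1, h2.2⟩]
        norm_num
      · rw [if_pos h1, if_neg h2, if_neg (fun h => h2 ⟨h.2.1, h.2.2⟩)]
        norm_num
    · rw [if_neg h1, if_neg (fun h => h1 h.1)]
      norm_num
  rw [hcount]
  have hG : ∀ Φ Φ', G (LDc_mix I Φ Φ') = (if P1 Φ then (1 : ℝ) else 0) *
      (if P2 Φ' (grun Φ Ψ Q I ρ t η i) then (1 : ℝ) else 0) := by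
    intro Φ Φ'
    have hI1 : ∀ e ∈ I, LDc_mix I Φ Φ' e = Φ e := fun e he => if_pos he
    have hI2 : ∀ e, e ∉ I → LDc_mix I Φ Φ' e = Φ' e := fun e he => if_neg he
    have hgr : ∀ i', grun (LDc_mix I Φ Φ') Ψ Q I ρ t η i' = grun Φ Ψ Q I ρ t η i' :=
      fun i' => LDc_grun_congr _ _ _ _ _ _ _ _ _ (fun e he _ => hI1 e he)
    have h1 : P1 (LDc_mix I Φ Φ') ↔ P1 Φ := by
      show (∀ e ∈ I, Viol (LDc_mix I Φ Φ' e) (grun (LDc_mix I Φ Φ') Ψ Q I ρ t η e.val).1) ↔
        (∀ e ∈ I, Viol (Φ e) (grun Φ Ψ Q I ρ t η e.val).1)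
      refine forall₂_congr fun e he => ?_
      rw [hI1 e he, hgr]
    have h2 : ∀ S, P2 (LDc_mix I Φ Φ') S ↔ P2 Φ' S := by
      intro S
      have hset : (univ.filter (fun y : Fin n => y ∉ S.2 ∧ y ∉ Y ∧
          ∀ e : Fin m, e.val < i → e ∉ Q → e ∉ I → ¬ Crit (LDc_mix I Φ Φ' e) S.1 y)) =
          (univ.filter (fun y : Fin n => y ∉ S.2 ∧ y ∉ Y ∧
          ∀ e : Fin m, e.val < i → e ∉ Q → e ∉ I → ¬ Crit (Φ' e) S.1 y)) := by
        apply filter_congr
        intro y _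
        refine and_congr_right fun _ => and_congr_right fun _ => ?_
        refine forall_congr' fun e => forall_congr' fun _ => forall_congr' fun _ =>
          forall_congr' fun heI => ?_
        rw [hI2 e heI]
      show (S.2.card ≤ n / 2 ∧ (univ.filter (fun y : Fin n => y ∉ S.2 ∧ y ∉ Y ∧
          ∀ e : Fin m, e.val < i → e ∉ Q → e ∉ I → ¬ Crit (LDc_mix I Φ Φ' e) S.1 y)).card < b) ↔
          (S.2.card ≤ n / 2 ∧ (univ.filter (fun y : Fin n => y ∉ S.2 ∧ y ∉ Y ∧
          ∀ e : Fin m, e.val < i → e ∉ Q → e ∉ I → ¬ Crit (Φ' e) S.1 y)).card < b)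
      rw [hset]
    show (if P1 (LDc_mix I Φ Φ') then (1 : ℝ) else 0) *
      (if P2 (LDc_mix I Φ Φ') (grun (LDc_mix I Φ Φ') Ψ Q I ρ t η i) then (1 : ℝ) else 0) = _
    rw [hgr, if_congr h1 rfl rfl, if_congr (h2 _) rfl rfl]
  have hres := LDc_resample A I G
  have hfirst := LDc_first hn A I (fun e Φ => (grun Φ Ψ Q I ρ t η e.val).1) (by
    intro e Φ Φ' h
    exact congrArg Prod.fst (LDc_grun_congr _ _ _ _ _ _ _ _ _ (fun e' _ he' => h e' he')))
  have hB0 : 0 ≤ B := by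
    have h5 := LDc_second hn hk A Q Y b l hY hln hA f0 hf00 hf0 I i ((η, ∅) : St n)
    have h6 : 0 ≤ ∑ Φ ∈ Fintype.piFinset (fun _ : Fin m => A),
      (if (((η, ∅) : St n).2.card ≤ n / 2 ∧ (univ.filter (fun y : Fin n => y ∉ ((η, ∅) : St n).2 ∧
        y ∉ Y ∧ ∀ e : Fin m, e.val < i → e ∉ Q → e ∉ I → ¬ Crit (Φ e) ((η, ∅) : St n).1 y)).card < b)
      then (1 : ℝ) else 0) := by
      apply sum_nonneg
      intro Φ _
      split_ifs <;> norm_num
    exact nonneg_of_mul_nonneg_left (h6.trans h5) hApos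
  have hbound : (∑ Φ ∈ PF, G Φ) * (A.card : ℝ) ^ m ≤
      (((n : ℝ) ^ k) ^ I.card * (A.card : ℝ) ^ (m - I.card) * B) * (A.card : ℝ) ^ m := by
    rw [hres]
    calc ∑ Φ ∈ PF, ∑ Φ' ∈ PF, G (LDc_mix I Φ Φ')
        ≤ ∑ Φ ∈ PF, (if P1 Φ then (1 : ℝ) else 0) * (B * (A.card : ℝ) ^ m) := by
          refine sum_le_sum fun Φ _ => ?_
          have h3 : ∑ Φ' ∈ PF, G (LDc_mix I Φ Φ') = (if P1 Φ then (1 : ℝ) else 0) *
              ∑ Φ' ∈ PF, (if P2 Φ' (grun Φ Ψ Q I ρ t η i) then (1 : ℝ) else 0) := by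
            rw [mul_sum]
            exact sum_congr rfl fun Φ' _ => hG Φ Φ'
          rw [h3]
          apply mul_le_mul_of_nonneg_left
          · exact LDc_second hn hk A Q Y b l hY hln hA f0 hf00 hf0 I i (grun Φ Ψ Q I ρ t η i)
          · split_ifs <;> norm_num
      _ = (∑ Φ ∈ PF, (if P1 Φ then (1 : ℝ) else 0)) * (B * (A.card : ℝ) ^ m) := by
          rw [sum_mul]
      _ ≤ (((n : ℝ) ^ k) ^ I.card * (A.card : ℝ) ^ (m - I.card)) * (B * (A.card : ℝ) ^ m) :=
          mul_le_mul_of_nonneg_right hfirst (mul_nonneg hB0 hApos.le)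
      _ = _ := by ring
  exact le_of_mul_le_mul_right hbound hApos

end GC
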