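import Pool.Agent.W_bd7f91F_h12.Op

/-! # GLOB: deterministic part and union bound -/

set_option autoImplicit false

open Finset
open scoped Classical

namespace GC

variable {n k m : ℕ}

/-- the clauses outside `Q` with index less than `i` which are violated when inserted -/
noncomputable def vset (Φ : Fml n k m) (Q : Finset (Fin m)) (Y : Finset (Fin n))
    (ρ : Fin m → Option (Option (Fin k))) (η : Asg n) (i : ℕ) : Finset (Fin m) :=
  univ.filter (fun e => e.val < i ∧ e ∉ Q ∧ Viol (Φ e) (run Φ Q Y ρ η e.val).1)

/-- PROOF. Induction on `i' ≤ i`: the clauses outside `Q` and `I` are not violated in the run, so do nothing. -/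
theorem grun_eq (Φ Ψ : Fml n k m) (Q : Finset (Fin m)) (Y : Finset (Fin n))
    (ρ : Fin m → Option (Option (Fin k))) (η : Asg n) (i i' : ℕ) (hi : i' ≤ i)
    (t : Fin m → Option (Fin k))
    (ht : ∀ e ∈ vset (ovF Q Φ Ψ) Q Y ρ η i, t e = stp (ovF Q Φ Ψ e).1
      (Free (ovF Q Φ Ψ) Q Y e.val (run (ovF Q Φ Ψ) Q Y ρ η e.val))) :
    grun Φ Ψ Q (vset (ovF Q Φ Ψ) Q Y ρ η i) ρ t η i' = run (ovF Q Φ Ψ) Q Y ρ η i' := by
  induction i' with
  | zero => rfl
  | succ a ih =>
    have ih' := ih (by omega)
    unfold grun at ih' ⊢
    by_cases ham : a < m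
    · have e1 := run_succ (ovF Q Φ Ψ) univ ∅ (fun e => if e ∈ Q then ρ e else
        if e ∈ vset (ovF Q Φ Ψ) Q Y ρ η i then some (t e) else none) η ⟨a, ham⟩
      have e2 := run_succ (ovF Q Φ Ψ) Q Y ρ η ⟨a, ham⟩
      simp only at e1 e2
      rw [e1, e2, ih']
      unfold step
      rw [if_pos (mem_univ _)]
      by_cases hQ : (⟨a, ham⟩ : Fin m) ∈ Q
      · simp only [if_pos hQ]
      · simp only [if_neg hQ]
        by_cases hV : Viol (ovF Q Φ Ψ ⟨a, ham⟩) (run (ovF Q Φ Ψ) Q Y ρ η a).1
        · have hm : (⟨a, ham⟩ : Fin m) ∈ vset (ovF Q Φ Ψ) Q Y ρ η i := by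
            unfold vset
            rw [mem_filter]
            exact ⟨mem_univ _, by simp only; omega, hQ, hV⟩
          rw [if_pos hm, if_pos hV, ht _ hm]
        · have hm : (⟨a, ham⟩ : Fin m) ∉ vset (ovF Q Φ Ψ) Q Y ρ η i := by
            unfold vset
            rw [mem_filter]
            rintro ⟨_, _, _, h⟩
            exact hV h
          rw [if_neg hm, if_neg hV]
    · rw [run_succ_ge _ _ _ _ _ (by omega), run_succ_ge _ _ _ _ _ (by omega), ih']

theorem LDd_op (u : Fin k → Fin n) (t : Option (Fin k)) (S : St n) :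
    (op u t S).2.card ≤ S.2.card + k ∧ (op u t S).2.card ≤ S.2.card + (len t + 1) := by
  cases t with
  | none =>
    have h1 : (S.2 ∪ univ.image u).card ≤ S.2.card + k := by
      refine (card_union_le _ _).trans ?_
      have := card_image_le (s := (univ : Finset (Fin k))) (f := u)
      rw [card_univ, Fintype.card_fin] at this
      omega
    have h2 : (op u none S).2 = S.2 ∪ univ.image u := rfl
    rw [h2]
    refine ⟨h1, ?_⟩
    have h3 : len (none : Option (Fin k)) = k := rfl
    rw [h3]
    omega
  | some j =>
    have h1 : (S.2 ∪ (univ.filter (fun i : Fin k => i ≤ j)).image u).card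
        ≤ S.2.card + (j.val + 1) := by
      refine (card_union_le _ _).trans ?_
      have h4 := card_image_le (s := (univ.filter (fun i : Fin k => i ≤ j))) (f := u)
      have h5 : (univ.filter (fun i : Fin k => i ≤ j)).card ≤ j.val + 1 := by
        have h6 : (univ.filter (fun i : Fin k => i ≤ j)).card ≤ (range (j.val + 1)).card := by
          refine card_le_card_of_injOn (fun i => i.val) ?_ ?_
          · intro i hi
            simp only [coe_filter, mem_univ, true_and, Set.mem_ofPred_eq] at hi
            simp only [coe_range, Set.mem_Iio]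
            have : i.val ≤ j.val := hi
            omega
          · intro a _ b _ hab
            exact Fin.ext hab
        rwa [card_range] at h6
      omega
    have h2 : (op u (some j) S).2 = S.2 ∪ (univ.filter (fun i : Fin k => i ≤ j)).image u := rfl
    have h3 : len (some j) = j.val := rfl
    rw [h2, h3]
    have h7 := j.isLt
    exact ⟨by omega, h1⟩

theorem LDd_aux (Φ : Fml n k m) (Q : Finset (Fin m)) (Y : Finset (Fin n))
    (ρ : Fin m → Option (Option (Fin k))) (η : Asg n) (i : ℕ) :
    (run Φ Q Y ρ η i).2.card ≤ k * (Q.filter (fun e => e.val < i)).card + ∑ e ∈ vset Φ Q Y ρ η i,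
      (len (stp (Φ e).1 (Free Φ Q Y e.val (run Φ Q Y ρ η e.val))) + 1) := by
  induction i with
  | zero =>
    rw [run_zero]
    simp
  | succ i ih =>
    by_cases him : i < m
    · have e2 := run_succ Φ Q Y ρ η ⟨i, him⟩
      simp only at e2
      rw [e2]
      have hQmono : (Q.filter (fun e => e.val < i)) ⊆ (Q.filter (fun e => e.val < i + 1)) := by
        intro e he
        rw [mem_filter] at he ⊢
        exact ⟨he.1, by omega⟩
      have hVmono : vset Φ Q Y ρ η i ⊆ vset Φ Q Y ρ η (i + 1) := by
        intro e he
        unfold vset at he ⊢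
        rw [mem_filter] at he ⊢
        exact ⟨he.1, by omega, he.2.2⟩
      have hQc := Nat.mul_le_mul_left k (card_le_card hQmono)
      have hVc : ∑ e ∈ vset Φ Q Y ρ η i,
          (len (stp (Φ e).1 (Free Φ Q Y e.val (run Φ Q Y ρ η e.val))) + 1) ≤
          ∑ e ∈ vset Φ Q Y ρ η (i + 1),
          (len (stp (Φ e).1 (Free Φ Q Y e.val (run Φ Q Y ρ η e.val))) + 1) :=
        sum_le_sum_of_subset hVmono
      unfold step
      by_cases hQ : (⟨i, him⟩ : Fin m) ∈ Q
      · rw [if_pos hQ]
        have h1 : (Q.filter (fun e => e.val < i)).card + 1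
            ≤ (Q.filter (fun e => e.val < i + 1)).card := by
          have h2 : insert (⟨i, him⟩ : Fin m) (Q.filter (fun e => e.val < i)) ⊆
              (Q.filter (fun e => e.val < i + 1)) := by
            intro e he
            rw [mem_insert] at he
            rcases he with rfl | he
            · rw [mem_filter]
              exact ⟨hQ, by simp⟩
            · exact hQmono he
          have h3 := card_le_card h2
          rw [card_insert_of_notMem (by simp)] at h3
          exact h3
        have h4 := Nat.mul_le_mul_left k h1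
        rw [mul_add, mul_one] at h4
        cases hr : ρ ⟨i, him⟩ with
        | none =>
          simp only
          omega
        | some t =>
          simp only
          have := (LDd_op (Φ ⟨i, him⟩).1 t (run Φ Q Y ρ η i)).1
          omega
      · rw [if_neg hQ]
        by_cases hV : Viol (Φ ⟨i, him⟩) (run Φ Q Y ρ η i).1
        · rw [if_pos hV]
          have hm : (⟨i, him⟩ : Fin m) ∉ vset Φ Q Y ρ η i := by
            unfold vset
            rw [mem_filter]
            simp
          have hm2 : insert (⟨i, him⟩ : Fin m) (vset Φ Q Y ρ η i) ⊆ vset Φ Q Y ρ η (i + 1) := by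
            intro e he
            rw [mem_insert] at he
            rcases he with rfl | he
            · unfold vset
              rw [mem_filter]
              exact ⟨mem_univ _, by simp, hQ, hV⟩
            · exact hVmono he
          have h5 := sum_le_sum_of_subset (f := fun e : Fin m =>
            (len (stp (Φ e).1 (Free Φ Q Y e.val (run Φ Q Y ρ η e.val))) + 1)) hm2
          rw [sum_insert hm] at h5
          have h6 := (LDd_op (Φ ⟨i, him⟩).1 (stp (Φ ⟨i, him⟩).1 (Free Φ Q Y i
            (run Φ Q Y ρ η i))) (run Φ Q Y ρ η i)).2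
          simp only at h5 h6 ⊢
          omega
        · rw [if_neg hV]
          omega
    · rw [run_succ_ge _ _ _ _ _ (by omega)]
      refine ih.trans ?_
      have h1 : (Q.filter (fun e => e.val < i)).card ≤ (Q.filter (fun e => e.val < i + 1)).card := by
        refine card_le_card ?_
        intro e he
        rw [mem_filter] at he ⊢
        exact ⟨he.1, by omega⟩
      have hVmono : vset Φ Q Y ρ η i ⊆ vset Φ Q Y ρ η (i + 1) := by
        intro e he
        unfold vset at he ⊢
        rw [mem_filter] at he ⊢
        exact ⟨he.1, by omega, he.2.2⟩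
      exact Nat.add_le_add (Nat.mul_le_mul_left k h1) (sum_le_sum_of_subset hVmono)

/-- PROOF. Induction on `i`: a clause of `Q` marks at most `k` variables, a violated clause marks at most `len (stop slot) + 1`. -/
theorem marks_card (Φ : Fml n k m) (Q : Finset (Fin m)) (Y : Finset (Fin n))
    (ρ : Fin m → Option (Option (Fin k))) (η : Asg n) (i : ℕ) :
    (run Φ Q Y ρ η i).2.card ≤ k * Q.card + ∑ e ∈ vset Φ Q Y ρ η i,
      (len (stp (Φ e).1 (Free Φ Q Y e.val (run Φ Q Y ρ η e.val))) + 1) := by
  refine (LDd_aux Φ Q Y ρ η i).trans (Nat.add_le_add_right (Nat.mul_le_mul_left k ?_) _)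
  exact card_le_card (filter_subset _ _)

/-- PROOF. A clause violated when inserted is not critical for unmarked variables (`noncrit_of_viol`). -/
theorem free_sup (Φ : Fml n k m) (Q : Finset (Fin m)) (Y : Finset (Fin n))
    (ρ : Fin m → Option (Option (Fin k))) (η : Asg n) (i : ℕ) (y : Fin n)
    (h1 : y ∉ (run Φ Q Y ρ η i).2) (h2 : y ∉ Y)
    (h3 : ∀ e : Fin m, e.val < i → e ∉ Q → e ∉ vset Φ Q Y ρ η i →
      ¬ Crit (Φ e) (run Φ Q Y ρ η i).1 y) : y ∈ FreeF Φ Q Y i (run Φ Q Y ρ η i) := by
  unfold FreeF
  rw [mem_filter]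
  refine ⟨mem_univ _, h1, h2, fun e he hQ => ?_⟩
  by_cases hv : e ∈ vset Φ Q Y ρ η i
  · have hv' := hv
    unfold vset at hv'
    rw [mem_filter] at hv'
    exact noncrit_of_viol Φ Q Y ρ η he.le hv'.2.2.2 h1
  · exact h3 e he hQ hv

end GC
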