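import Pool.Agent.W_bd7f91F_h12.LDc
import Pool.Agent.W_bd7f91F_h12.LDd

/-! # GLOB: deterministic part and union bound -/

set_option autoImplicit false

open Finset
open scoped Classical

namespace GC

variable {n k m : ℕ}

/-- the error bound for fixed interventions -/
noncomputable def ldR (n k m b w0 : ℕ) (f0 : ℝ) : ℝ :=
  (m.choose w0 : ℝ) / (2 ^ k - 1) ^ w0 +
    ∑ w ∈ range w0, (m.choose w : ℝ) * ((k + 1 : ℝ) / (2 ^ k - 1)) ^ w *
      ((m + 1 : ℝ) * ((1 - (b : ℝ) / n) ^ (n / 3) + (k : ℝ) ^ b * (1 - f0 / 2) ^ (n / 3)))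

theorem LDe_pow {a N K : ℝ} (hN : 0 ≤ N) (hK : 0 < K) (h : K * N ≤ a) {w m : ℕ} (hw : w ≤ m) :
    N ^ w * a ^ (m - w) ≤ a ^ m * (1 / K ^ w) := by
  have hKN : 0 ≤ K * N := mul_nonneg hK.le hN
  have ha : 0 ≤ a := hKN.trans h
  have h1 : (K * N) ^ w ≤ a ^ w := pow_le_pow_left₀ hKN h w
  have h2 : a ^ m = a ^ w * a ^ (m - w) := by
    rw [← pow_add]
    congr 1
    omega
  have hKw : 0 < K ^ w := pow_pos hK w
  rw [h2, mul_one_div, le_div_iff₀ hKw]
  calc N ^ w * a ^ (m - w) * K ^ w = (K * N) ^ w * a ^ (m - w) := by rw [mul_pow]; ring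
    _ ≤ a ^ w * a ^ (m - w) := mul_le_mul_of_nonneg_right h1 (pow_nonneg ha _)

theorem LDe_sum_card (w0 : ℕ) (g : ℕ → ℝ) (hg : ∀ w, 0 ≤ g w) (F : Finset (Finset (Fin m)))
    (hF : ∀ I ∈ F, I.card < w0) :
    ∑ I ∈ F, g I.card ≤ ∑ w ∈ range w0, (m.choose w : ℝ) * g w := by
  have hsub : F ⊆ (range w0).biUnion (fun w => powersetCard w (univ : Finset (Fin m))) := by
    intro I hI
    exact mem_biUnion.2 ⟨I.card, mem_range.2 (hF I hI), mem_powersetCard.2 ⟨subset_univ _, rfl⟩⟩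
  refine (sum_le_sum_of_subset_of_nonneg hsub (fun I _ _ => hg _)).trans (le_of_eq ?_)
  rw [sum_biUnion]
  · apply sum_congr rfl
    intro w _
    have h1 : ∀ I ∈ powersetCard w (univ : Finset (Fin m)), g I.card = g w := by
      intro I hI
      rw [(mem_powersetCard.1 hI).2]
    rw [sum_congr rfl h1, sum_const, card_powersetCard, card_univ, Fintype.card_fin, nsmul_eq_mul]
  · intro w _ w' _ hne
    rw [Function.onFun, disjoint_left]
    intro I hI hI'
    exact hne ((mem_powersetCard.1 hI).2.symm.trans (mem_powersetCard.1 hI').2)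

/-- the stop slot functions supported on `I` -/
noncomputable def LDe_TF (k : ℕ) {m : ℕ} (I : Finset (Fin m)) :
    Finset (Fin m → Option (Fin k)) :=
  Fintype.piFinset (fun e => if e ∈ I then (univ : Finset (Option (Fin k))) else {none})

theorem LDe_TF_card (k : ℕ) {m : ℕ} (I : Finset (Fin m)) :
    (LDe_TF k I).card = (k + 1) ^ I.card := by
  unfold LDe_TF
  rw [Fintype.card_piFinset]
  have h1 : ∀ e : Fin m, (if e ∈ I then (univ : Finset (Option (Fin k))) else {none}).card =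
      if e ∈ I then (k + 1) else 1 := by
    intro e
    split_ifs with h
    · rw [card_univ, Fintype.card_option, Fintype.card_fin]
    · rw [card_singleton]
  rw [prod_congr rfl (fun e _ => h1 e), prod_ite, prod_const, prod_const_one, mul_one]
  congr 2
  ext e
  simp

/-- FIXED INTERVENTIONS.
PROOF. Suppose `|FreeF| < b` at some time `≤ m`; let `i` be the least such time, `I = vset i` (for `ovF Q Φ Ψ`), `t` the stop slots.
(a) If `|I| ≥ w0` take `I' ⊆ I` with `|I'| = w0`: event of `ld1`; `C(m, w0)` sets. (b) If `|I| < w0` and more than `n / 2` variables are marked at time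
`i`: `marks_card` gives `∑_I len (t e) ≥ n / 2 - k l - w0 ≥ n / 3`, and `Φ` is in the event of `ld2` for `(I, t)` (times `e.val < i` have
at least `b` free variables). (c) Otherwise `Φ` is in the event of `ld3` for `(I, t, i)` (`grun_eq`, `free_sup`). In (b), (c) sum over
`I` with `|I| = w < w0`, over `t : I → Option (Fin k)` (`(k + 1)^w`, values `none` off `I`) and over `i ≤ m` (`m + 1`). Finally
`(n^k)^w |A|^(m - w) ≤ |A|^m / (2^k - 1)^w` as `|A| ≥ (2^k - 1) n^k`. -/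
theorem ld_fixed (hn : 0 < n) (hk : 2 ≤ k) (A : Finset (Cl n k))
    (hA1 : (2 ^ k - 1) * n ^ k ≤ A.card) (Ψ : Fml n k m) (Q : Finset (Fin m))
    (Y : Finset (Fin n)) (ρ : Fin m → Option (Option (Fin k))) (η : Asg n) (b l w0 : ℕ)
    (hQ : Q.card ≤ l) (hY : Y.card ≤ l) (hln : n / 2 + l + n / 3 ≤ n) (hb : b ≤ n)
    (hln2 : n / 3 + k * l + w0 ≤ n / 2)
    (hA : (n + 1) * (k * n ^ (k - 1)) ≤ A.card) (f0 : ℝ) (hf00 : 0 ≤ f0) (hf01 : f0 ≤ 1)
    (hf0 : f0 ≤ (1 - ((k * n ^ (k - 1) : ℕ) : ℝ) / ((A.card : ℝ) - n * (k * n ^ (k - 1) : ℕ))) ^ m) :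
    (((Fintype.piFinset (fun _ : Fin m => A)).filter (fun Φ : Fml n k m =>
      ∃ i, i ≤ m ∧ (FreeF (ovF Q Φ Ψ) Q Y i (run (ovF Q Φ Ψ) Q Y ρ η i)).card < b)).card : ℝ) ≤
      (A.card : ℝ) ^ m * ldR n k m b w0 f0 := by
  set PA := Fintype.piFinset (fun _ : Fin m => A) with hPA
  set a : ℝ := (A.card : ℝ) with ha
  set N : ℝ := (n : ℝ) ^ k with hN
  set K : ℝ := (2 : ℝ) ^ k - 1 with hK
  have hN0 : 0 ≤ N := by positivity
  have hKpos : 0 < K := by
    have : (1 : ℝ) < 2 ^ k := one_lt_pow₀ (by norm_num) (by omega)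
    linarith
  have hKN : K * N ≤ a := by
    have h1 : (((2 ^ k - 1) * n ^ k : ℕ) : ℝ) ≤ a := Nat.cast_le.2 hA1
    have h2 : (((2 ^ k - 1) * n ^ k : ℕ) : ℝ) = K * N := by
      rw [Nat.cast_mul, Nat.cast_sub Nat.one_le_two_pow]
      push_cast
      rfl
    rwa [h2] at h1
  have ha0 : 0 ≤ a := Nat.cast_nonneg _
  set Sfam : Finset (Finset (Fin m)) := univ.filter (fun I => I.card < w0 ∧ Disjoint I Q)
    with hSfam
  -- the three families of events
  let E1 : Finset (Fin m) → Finset (Fml n k m) := fun I => PA.filter (fun Φ =>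
    ∀ e ∈ I, Viol (Φ e) (run (ovF Q Φ Ψ) Q Y ρ η e.val).1)
  let E2 : Finset (Fin m) → (Fin m → Option (Fin k)) → Finset (Fml n k m) := fun I t =>
    PA.filter (fun Φ => ∀ e ∈ I, Viol (Φ e) (run (ovF Q Φ Ψ) Q Y ρ η e.val).1 ∧
        b ≤ (FreeF (ovF Q Φ Ψ) Q Y e.val (run (ovF Q Φ Ψ) Q Y ρ η e.val)).card ∧
        t e = stp (Φ e).1 (Free (ovF Q Φ Ψ) Q Y e.val (run (ovF Q Φ Ψ) Q Y ρ η e.val)))
  let E3 : Finset (Fin m) → (Fin m → Option (Fin k)) → ℕ → Finset (Fml n k m) := fun I t i =>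
    PA.filter (fun Φ => (∀ e ∈ I, Viol (Φ e) (grun Φ Ψ Q I ρ t η e.val).1) ∧
      (grun Φ Ψ Q I ρ t η i).2.card ≤ n / 2 ∧
      (univ.filter (fun y : Fin n => y ∉ (grun Φ Ψ Q I ρ t η i).2 ∧ y ∉ Y ∧
        ∀ e : Fin m, e.val < i → e ∉ Q → e ∉ I →
          ¬ Crit (Φ e) (grun Φ Ψ Q I ρ t η i).1 y)).card < b)
  let S1 : Finset (Finset (Fin m)) := (powersetCard w0 univ).filter (fun I => Disjoint I Q)
  let T2 : Finset (Fin m) → Finset (Fin m → Option (Fin k)) := fun I =>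
    (LDe_TF k I).filter (fun t => n / 3 ≤ ∑ e ∈ I, len (t e))
  let T3 : Finset (Fin m) → Finset ((Fin m → Option (Fin k)) × ℕ) := fun I =>
    (LDe_TF k I) ×ˢ (range (m + 1)).filter (fun i => ∀ e ∈ I, e.val < i)
  let U1 : Finset (Fml n k m) := S1.biUnion E1
  let U2 : Finset (Fml n k m) := Sfam.biUnion (fun I => (T2 I).biUnion (fun t => E2 I t))
  let U3 : Finset (Fml n k m) := Sfam.biUnion (fun I => (T3 I).biUnion (fun p => E3 I p.1 p.2))
  -- the bad set is covered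
  have hcover : PA.filter (fun Φ : Fml n k m =>
      ∃ i, i ≤ m ∧ (FreeF (ovF Q Φ Ψ) Q Y i (run (ovF Q Φ Ψ) Q Y ρ η i)).card < b) ⊆
      U1 ∪ (U2 ∪ U3) := by
    intro Φ hΦ
    obtain ⟨hΦA, hex⟩ := mem_filter.1 hΦ
    set i := Nat.find hex with hi
    obtain ⟨him, hib⟩ := Nat.find_spec hex
    have hmin : ∀ i' < i, b ≤ (FreeF (ovF Q Φ Ψ) Q Y i' (run (ovF Q Φ Ψ) Q Y ρ η i')).card := by
      intro i' hi'
      have := Nat.find_min hex hi'
      by_contra hc
      push Not at hc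
      exact this ⟨hi'.le.trans him, hc⟩
    set I := vset (ovF Q Φ Ψ) Q Y ρ η i with hI
    have hov : ∀ e, e ∉ Q → ovF Q Φ Ψ e = Φ e := fun e he => if_neg he
    have hIm : ∀ e ∈ I, e.val < i ∧ e ∉ Q ∧ Viol (Φ e) (run (ovF Q Φ Ψ) Q Y ρ η e.val).1 := by
      intro e he
      obtain ⟨_, h1, h2, h3⟩ := mem_filter.1 he
      rw [hov e h2] at h3
      exact ⟨h1, h2, h3⟩
    have hIQ : Disjoint I Q := by
      rw [disjoint_left]
      intro e he
      exact (hIm e he).2.1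
    by_cases hIc : w0 ≤ I.card
    · obtain ⟨I', hI'sub, hI'c⟩ := exists_subset_card_eq hIc
      apply mem_union_left
      refine mem_biUnion.2 ⟨I', mem_filter.2 ⟨mem_powersetCard.2 ⟨subset_univ _, hI'c⟩,
        disjoint_of_subset_left hI'sub hIQ⟩, mem_filter.2 ⟨hΦA, ?_⟩⟩
      intro e he
      exact (hIm e (hI'sub he)).2.2
    · push Not at hIc
      apply mem_union_right
      have hISf : I ∈ Sfam := mem_filter.2 ⟨mem_univ _, hIc, hIQ⟩
      let t : Fin m → Option (Fin k) := fun e => if e ∈ I then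
        stp (Φ e).1 (Free (ovF Q Φ Ψ) Q Y e.val (run (ovF Q Φ Ψ) Q Y ρ η e.val)) else none
      have htI : ∀ e ∈ I, t e =
          stp (Φ e).1 (Free (ovF Q Φ Ψ) Q Y e.val (run (ovF Q Φ Ψ) Q Y ρ η e.val)) :=
        fun e he => if_pos he
      have htTF : t ∈ LDe_TF k I := by
        unfold LDe_TF
        rw [Fintype.mem_piFinset]
        intro e
        split_ifs with h
        · exact mem_univ _
        · exact mem_singleton.2 (if_neg h)
      by_cases hmk : n / 2 < (run (ovF Q Φ Ψ) Q Y ρ η i).2.card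
      · apply mem_union_left
        have hmc := marks_card (ovF Q Φ Ψ) Q Y ρ η i
        have hsum : ∑ e ∈ vset (ovF Q Φ Ψ) Q Y ρ η i,
            (len (stp (ovF Q Φ Ψ e).1 (Free (ovF Q Φ Ψ) Q Y e.val
              (run (ovF Q Φ Ψ) Q Y ρ η e.val))) + 1) = ∑ e ∈ I, len (t e) + I.card := by
          rw [sum_add_distrib, ← card_eq_sum_ones]
          congr 1
          apply sum_congr rfl
          intro e he
          rw [htI e he, hov e (hIm e he).2.1]
        rw [hsum] at hmc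
        have hkQ : k * Q.card ≤ k * l := Nat.mul_le_mul_left _ hQ
        refine mem_biUnion.2 ⟨I, hISf, mem_biUnion.2 ⟨t, mem_filter.2 ⟨htTF, ?_⟩,
          mem_filter.2 ⟨hΦA, ?_⟩⟩⟩
        · omega
        · intro e he
          exact ⟨(hIm e he).2.2, hmin e.val (hIm e he).1, htI e he⟩
      · push Not at hmk
        apply mem_union_right
        have ht' : ∀ e ∈ vset (ovF Q Φ Ψ) Q Y ρ η i, t e = stp (ovF Q Φ Ψ e).1
            (Free (ovF Q Φ Ψ) Q Y e.val (run (ovF Q Φ Ψ) Q Y ρ η e.val)) := by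
          intro e he
          rw [htI e he, hov e (hIm e he).2.1]
        have hgr : ∀ i' ≤ i, grun Φ Ψ Q I ρ t η i' = run (ovF Q Φ Ψ) Q Y ρ η i' := fun i' hi' =>
          grun_eq Φ Ψ Q Y ρ η i i' hi' t ht'
        refine mem_biUnion.2 ⟨I, hISf, mem_biUnion.2 ⟨(t, i), mem_product.2 ⟨htTF,
          mem_filter.2 ⟨mem_range.2 (Nat.lt_succ_of_le him), fun e he => (hIm e he).1⟩⟩,
          mem_filter.2 ⟨hΦA, ?_, ?_, ?_⟩⟩⟩
        · intro e he
          dsimp only
          rw [hgr e.val (hIm e he).1.le]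
          exact (hIm e he).2.2
        · dsimp only
          rw [hgr i le_rfl]
          exact hmk
        · dsimp only
          refine lt_of_le_of_lt (card_le_card ?_) hib
          intro y hy
          obtain ⟨_, h1, h2, h3⟩ := mem_filter.1 hy
          rw [hgr i le_rfl] at h1 h3
          apply free_sup (ovF Q Φ Ψ) Q Y ρ η i y h1 h2
          intro e he heQ heI
          rw [hov e heQ]
          exact h3 e he heQ heI
  -- sizes
  have hcardm : ∀ I : Finset (Fin m), I.card ≤ m := fun I => by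
    have := card_le_univ I
    rwa [Fintype.card_fin] at this
  have hbn0 : 0 ≤ 1 - (b : ℝ) / n := by
    have : (b : ℝ) / n ≤ 1 := by
      rw [div_le_one (by exact_mod_cast hn)]
      exact_mod_cast hb
    linarith
  have hbn1 : 1 - (b : ℝ) / n ≤ 1 := by
    have : 0 ≤ (b : ℝ) / n := by positivity
    linarith
  have hf2 : 0 ≤ 1 - f0 / 2 := by linarith
  set X2 : ℝ := (1 - (b : ℝ) / n) ^ (n / 3) with hX2
  set X3 : ℝ := (k : ℝ) ^ b * (1 - f0 / 2) ^ (n / 3) with hX3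
  have hX20 : 0 ≤ X2 := pow_nonneg hbn0 _
  have hX30 : 0 ≤ X3 := mul_nonneg (pow_nonneg (Nat.cast_nonneg _) _) (pow_nonneg hf2 _)
  have hU1 : (U1.card : ℝ) ≤ a ^ m * ((m.choose w0 : ℝ) / K ^ w0) := by
    have h1 : (U1.card : ℝ) ≤ ∑ I ∈ S1, ((E1 I).card : ℝ) := by
      exact_mod_cast card_biUnion_le
    have h2 : ∀ I ∈ S1, ((E1 I).card : ℝ) ≤ a ^ m * (1 / K ^ w0) := by
      intro I hI
      obtain ⟨hI1, hI2⟩ := mem_filter.1 hI
      have hIc : I.card = w0 := (mem_powersetCard.1 hI1).2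
      have h3 := ld1 hn A Ψ Q Y ρ η I hI2
      have h4 := LDe_pow (m := m) hN0 hKpos hKN (hcardm I)
      rw [← hIc]
      exact h3.trans h4
    refine h1.trans ((sum_le_sum h2).trans ?_)
    rw [sum_const, nsmul_eq_mul]
    have h5 : (S1.card : ℝ) ≤ (m.choose w0 : ℝ) := by
      have : S1.card ≤ (powersetCard w0 (univ : Finset (Fin m))).card :=
        card_le_card (filter_subset _ _)
      rw [card_powersetCard, card_univ, Fintype.card_fin] at this
      exact_mod_cast this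
    have h6 : 0 ≤ a ^ m * (1 / K ^ w0) :=
      mul_nonneg (pow_nonneg ha0 _) (one_div_nonneg.2 (pow_nonneg hKpos.le _))
    calc (S1.card : ℝ) * (a ^ m * (1 / K ^ w0)) ≤ (m.choose w0 : ℝ) * (a ^ m * (1 / K ^ w0)) :=
          mul_le_mul_of_nonneg_right h5 h6
      _ = a ^ m * ((m.choose w0 : ℝ) / K ^ w0) := by ring
  have hU2 : (U2.card : ℝ) ≤ ∑ w ∈ range w0, (m.choose w : ℝ) *
      (a ^ m * (((k : ℝ) + 1) / K) ^ w * X2) := by
    have h1 : (U2.card : ℝ) ≤ ∑ I ∈ Sfam, ∑ t ∈ T2 I, ((E2 I t).card : ℝ) := by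
      have h2 : U2.card ≤ ∑ I ∈ Sfam, ∑ t ∈ T2 I, (E2 I t).card :=
        card_biUnion_le.trans (sum_le_sum fun I _ => card_biUnion_le)
      exact_mod_cast h2
    refine h1.trans (le_trans ?_ (LDe_sum_card w0
      (fun w => a ^ m * (((k : ℝ) + 1) / K) ^ w * X2) ?_ Sfam ?_))
    · apply sum_le_sum
      intro I hI
      obtain ⟨_, hI1, hI2⟩ := mem_filter.1 hI
      have h3 : ∀ t ∈ T2 I, ((E2 I t).card : ℝ) ≤ a ^ m * (1 / K ^ I.card) * X2 := by
        intro t ht
        obtain ⟨_, ht2⟩ := mem_filter.1 ht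
        have h4 := ld2 hn A Ψ Q Y ρ η b hb I hI2 t
        have h5 := LDe_pow (m := m) hN0 hKpos hKN (hcardm I)
        have h6 : (1 - (b : ℝ) / n) ^ (∑ e ∈ I, len (t e)) ≤ X2 :=
          pow_le_pow_of_le_one hbn0 hbn1 ht2
        refine h4.trans ?_
        calc N ^ I.card * (1 - (b : ℝ) / n) ^ (∑ e ∈ I, len (t e)) * a ^ (m - I.card)
            = (N ^ I.card * a ^ (m - I.card)) * (1 - (b : ℝ) / n) ^ (∑ e ∈ I, len (t e)) := by
              ring
          _ ≤ (a ^ m * (1 / K ^ I.card)) * X2 :=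
              mul_le_mul h5 h6 (pow_nonneg hbn0 _) (mul_nonneg (pow_nonneg ha0 _)
                (one_div_nonneg.2 (pow_nonneg hKpos.le _)))
      have h7 : 0 ≤ a ^ m * (1 / K ^ I.card) * X2 := mul_nonneg (mul_nonneg (pow_nonneg ha0 _)
                (one_div_nonneg.2 (pow_nonneg hKpos.le _))) hX20
      refine (sum_le_sum h3).trans ?_
      rw [sum_const, nsmul_eq_mul]
      have h8 : ((T2 I).card : ℝ) ≤ ((k : ℝ) + 1) ^ I.card := by
        have : (T2 I).card ≤ (LDe_TF k I).card := card_le_card (filter_subset _ _)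
        rw [LDe_TF_card] at this
        exact_mod_cast this
      calc ((T2 I).card : ℝ) * (a ^ m * (1 / K ^ I.card) * X2)
          ≤ ((k : ℝ) + 1) ^ I.card * (a ^ m * (1 / K ^ I.card) * X2) :=
            mul_le_mul_of_nonneg_right h8 h7
        _ = a ^ m * (((k : ℝ) + 1) / K) ^ I.card * X2 := by
            rw [div_pow]
            ring
    · intro w
      positivity
    · intro I hI
      exact (mem_filter.1 hI).2.1
  have hU3 : (U3.card : ℝ) ≤ ∑ w ∈ range w0, (m.choose w : ℝ) *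
      (a ^ m * (((k : ℝ) + 1) / K) ^ w * (((m : ℝ) + 1) * X3)) := by
    have h1 : (U3.card : ℝ) ≤ ∑ I ∈ Sfam, ∑ p ∈ T3 I, ((E3 I p.1 p.2).card : ℝ) := by
      have h2 : U3.card ≤ ∑ I ∈ Sfam, ∑ p ∈ T3 I, (E3 I p.1 p.2).card :=
        card_biUnion_le.trans (sum_le_sum fun I _ => card_biUnion_le)
      exact_mod_cast h2
    refine h1.trans (le_trans ?_ (LDe_sum_card w0
      (fun w => a ^ m * (((k : ℝ) + 1) / K) ^ w * (((m : ℝ) + 1) * X3)) ?_ Sfam ?_))
    · apply sum_le_sum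
      intro I hI
      obtain ⟨_, hI1, hI2⟩ := mem_filter.1 hI
      have h3 : ∀ p ∈ T3 I, ((E3 I p.1 p.2).card : ℝ) ≤ a ^ m * (1 / K ^ I.card) * X3 := by
        intro p hp
        obtain ⟨_, hp2⟩ := mem_product.1 hp
        have h4 := ld3 hn hk A Ψ Q Y ρ η b l hY hln hA f0 hf00 hf0 I hI2 p.1 p.2
          (mem_filter.1 hp2).2
        have h5 := LDe_pow (m := m) hN0 hKpos hKN (hcardm I)
        exact h4.trans (mul_le_mul_of_nonneg_right h5 hX30)
      have h7 : 0 ≤ a ^ m * (1 / K ^ I.card) * X3 := mul_nonneg (mul_nonneg (pow_nonneg ha0 _)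
                (one_div_nonneg.2 (pow_nonneg hKpos.le _))) hX30
      refine (sum_le_sum h3).trans ?_
      rw [sum_const, nsmul_eq_mul]
      have h8 : ((T3 I).card : ℝ) ≤ ((k : ℝ) + 1) ^ I.card * ((m : ℝ) + 1) := by
        have h9 : (T3 I).card ≤ (LDe_TF k I).card * (m + 1) := by
          rw [card_product]
          apply Nat.mul_le_mul_left
          refine (card_le_card (filter_subset _ _)).trans ?_
          rw [card_range]
        rw [LDe_TF_card] at h9
        exact_mod_cast h9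
      calc ((T3 I).card : ℝ) * (a ^ m * (1 / K ^ I.card) * X3)
          ≤ (((k : ℝ) + 1) ^ I.card * ((m : ℝ) + 1)) * (a ^ m * (1 / K ^ I.card) * X3) :=
            mul_le_mul_of_nonneg_right h8 h7
        _ = a ^ m * (((k : ℝ) + 1) / K) ^ I.card * (((m : ℝ) + 1) * X3) := by
            rw [div_pow]
            ring
    · intro w
      positivity
    · intro I hI
      exact (mem_filter.1 hI).2.1
  have hall : ((PA.filter (fun Φ : Fml n k m =>
      ∃ i, i ≤ m ∧ (FreeF (ovF Q Φ Ψ) Q Y i (run (ovF Q Φ Ψ) Q Y ρ η i)).card < b)).card : ℝ) ≤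
      (U1.card : ℝ) + ((U2.card : ℝ) + (U3.card : ℝ)) := by
    have h1 := card_le_card hcover
    have h2 := card_union_le U1 (U2 ∪ U3)
    have h3 := card_union_le U2 U3
    have h4 : (PA.filter (fun Φ : Fml n k m =>
      ∃ i, i ≤ m ∧ (FreeF (ovF Q Φ Ψ) Q Y i (run (ovF Q Φ Ψ) Q Y ρ η i)).card < b)).card ≤
      U1.card + (U2.card + U3.card) := by omega
    exact_mod_cast h4
  refine hall.trans ?_
  have hfin : a ^ m * ldR n k m b w0 f0 = a ^ m * ((m.choose w0 : ℝ) / K ^ w0) +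
      ∑ w ∈ range w0, (m.choose w : ℝ) *
        (a ^ m * (((k : ℝ) + 1) / K) ^ w * (((m : ℝ) + 1) * X2 + ((m : ℝ) + 1) * X3)) := by
    unfold ldR
    rw [mul_add, mul_sum]
    congr 1
    apply sum_congr rfl
    intro w _
    ring
  rw [hfin]
  have h23 : (U2.card : ℝ) + (U3.card : ℝ) ≤ ∑ w ∈ range w0, (m.choose w : ℝ) *
        (a ^ m * (((k : ℝ) + 1) / K) ^ w * (((m : ℝ) + 1) * X2 + ((m : ℝ) + 1) * X3)) := by
    refine (add_le_add hU2 hU3).trans ?_
    rw [← sum_add_distrib]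
    apply sum_le_sum
    intro w _
    have h1 : X2 ≤ ((m : ℝ) + 1) * X2 := by
      have : (0 : ℝ) ≤ (m : ℝ) * X2 := mul_nonneg (Nat.cast_nonneg _) hX20
      linarith
    have h2 : 0 ≤ (m.choose w : ℝ) * (a ^ m * (((k : ℝ) + 1) / K) ^ w) := by positivity
    have h3 := mul_le_mul_of_nonneg_left h1 h2
    nlinarith [h3]
  linarith

end GC
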