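import Pool.Agent.W_bd7f91F_h12.LDe

/-! # GLOB: deterministic part and union bound -/

set_option autoImplicit false

open Finset
open scoped Classical

namespace GC

variable {n k m : ℕ}

theorem LDf_run_rho (Φ : Fml n k m) (Q : Finset (Fin m)) (Y : Finset (Fin n))
    (ρ ρ' : Fin m → Option (Option (Fin k))) (η : Asg n) (h : ∀ e ∈ Q, ρ e = ρ' e) (i : ℕ) :
    run Φ Q Y ρ η i = run Φ Q Y ρ' η i := by
  induction i with
  | zero => rfl
  | succ i ih =>
    by_cases hi : i < m
    · have e1 : run Φ Q Y ρ η (i + 1) = step Φ Q Y ρ ⟨i, hi⟩ (run Φ Q Y ρ η i) :=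
        run_succ Φ Q Y ρ η ⟨i, hi⟩
      have e2 : run Φ Q Y ρ' η (i + 1) = step Φ Q Y ρ' ⟨i, hi⟩ (run Φ Q Y ρ' η i) :=
        run_succ Φ Q Y ρ' η ⟨i, hi⟩
      rw [e1, e2, ih]
      unfold step
      by_cases hQ : (⟨i, hi⟩ : Fin m) ∈ Q
      · rw [if_pos hQ, if_pos hQ, h _ hQ]
      · rw [if_neg hQ, if_neg hQ]
    · rw [run_succ_ge Φ Q Y ρ η (not_lt.1 hi), run_succ_ge Φ Q Y ρ' η (not_lt.1 hi), ih]

theorem LDf_card_small (α : Type) [Fintype α] (l : ℕ) :
    ((univ : Finset (Finset α)).filter (fun Q => Q.card ≤ l)).card ≤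
      (Fintype.card α + 1) ^ l := by
  have h1 : ((univ : Finset (Finset α)).filter (fun Q => Q.card ≤ l)) ⊆
      (univ : Finset (Fin l → Option α)).image
        (fun f => univ.filter (fun a => ∃ j, f j = some a)) := by
    intro Q hQ
    rw [mem_filter] at hQ
    rw [mem_image]
    refine ⟨fun j => if h : j.val < Q.card then some (Q.equivFin.symm ⟨j.val, h⟩ : α) else none,
      mem_univ _, ?_⟩
    ext a
    rw [mem_filter]
    constructor
    · rintro ⟨-, j, hj⟩
      beta_reduce at hj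
      by_cases h : j.val < Q.card
      · rw [dif_pos h, Option.some.injEq] at hj
        rw [← hj]
        exact (Q.equivFin.symm ⟨j.val, h⟩).2
      · rw [dif_neg h] at hj
        simp at hj
    · intro ha
      refine ⟨mem_univ _, ⟨(Q.equivFin ⟨a, ha⟩).val, lt_of_lt_of_le (Q.equivFin ⟨a, ha⟩).2 hQ.2⟩, ?_⟩
      beta_reduce
      rw [dif_pos (Q.equivFin ⟨a, ha⟩).2]
      simp
  refine (card_le_card h1).trans (card_image_le.trans ?_)
  rw [card_univ, Fintype.card_fun, Fintype.card_option, Fintype.card_fin]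

theorem LDf_card_pi {α : Type} [Fintype α] (Q : Finset (Fin m)) (c : α) :
    (Fintype.piFinset (fun e : Fin m => if e ∈ Q then (univ : Finset α) else {c})).card =
      Fintype.card α ^ Q.card := by
  rw [Fintype.card_piFinset]
  have h1 : ∀ e : Fin m, (if e ∈ Q then (univ : Finset α) else {c}).card =
      if e ∈ Q then Fintype.card α else 1 := by
    intro e
    split_ifs
    · rw [card_univ]
    · rw [card_singleton]
  simp_rw [h1]
  rw [prod_ite_mem, univ_inter, prod_const]

theorem LDf_ldR_nonneg {n k m b w0 : ℕ} {f0 : ℝ} (hn : 0 < n) (hb : b ≤ n) (hf01 : f0 ≤ 1) :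
    0 ≤ ldR n k m b w0 f0 := by
  have h1 : (0 : ℝ) ≤ 2 ^ k - 1 := by
    have : (1 : ℝ) ≤ 2 ^ k := one_le_pow₀ (by norm_num)
    linarith
  have h2 : (0 : ℝ) ≤ 1 - (b : ℝ) / n := by
    have h3 : (b : ℝ) / n ≤ 1 := by
      rw [div_le_one (by exact_mod_cast hn)]
      exact_mod_cast hb
    linarith
  have h4 : (0 : ℝ) ≤ 1 - f0 / 2 := by linarith
  unfold ldR
  positivity

/-- UNION OVER ALL INTERVENTIONS.
PROOF. If `Glob Φ η l b` fails there are `Q`, `Y`, `ρ`, `Φ'`, `i`; `Φ' = ovF Q Φ Φ'`, and only the variables of the clauses of `Q` and the values of `ρ` on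
`Q` matter: replace `Φ'` by `Ψ` with `Ψ e = (c0, s0)` fixed off `Q` and sign part `s0` on `Q`, and `ρ` by `none` off `Q` (`run_congr`,
`free_congr`). For given `Q` there are `(n^k)^|Q|` such `Ψ`, `(k + 2)^|Q|` such `ρ`; there are at most `(m + 1)^l` sets `Q` and `(n + 1)^l`
sets `Y` with at most `l` elements. -/
theorem ld_glob (hn : 0 < n) (hk : 2 ≤ k) (A : Finset (Cl n k))
    (hA1 : (2 ^ k - 1) * n ^ k ≤ A.card) (η : Asg n) (b l w0 : ℕ)
    (hln : n / 2 + l + n / 3 ≤ n) (hb : b ≤ n) (hln2 : n / 3 + k * l + w0 ≤ n / 2)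
    (hA : (n + 1) * (k * n ^ (k - 1)) ≤ A.card) (f0 : ℝ) (hf00 : 0 ≤ f0) (hf01 : f0 ≤ 1)
    (hf0 : f0 ≤ (1 - ((k * n ^ (k - 1) : ℕ) : ℝ) / ((A.card : ℝ) - n * (k * n ^ (k - 1) : ℕ))) ^ m) :
    (((Fintype.piFinset (fun _ : Fin m => A)).filter (fun Φ : Fml n k m =>
      ¬ Glob Φ η l b)).card : ℝ) ≤
      (A.card : ℝ) ^ m * ((((m : ℝ) + 1) * (n : ℝ) ^ k * (k + 2) * (n + 1)) ^ l *
        ldR n k m b w0 f0) := by
  set X : ℝ := (A.card : ℝ) ^ m * ldR n k m b w0 f0 with hX
  have hX0 : 0 ≤ X := mul_nonneg (by positivity) (LDf_ldR_nonneg hn hb hf01)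
  set c0 : Fin k → Fin n := fun _ => ⟨0, hn⟩ with hc0
  set B : Finset (Fin m) → Finset (Fin n) → (Fin m → Fin k → Fin n) →
      (Fin m → Option (Option (Fin k))) → Finset (Fml n k m) := fun Q Y v ρ =>
    (Fintype.piFinset (fun _ : Fin m => A)).filter (fun Φ : Fml n k m =>
      ∃ i, i ≤ m ∧ (FreeF (ovF Q Φ (fun e => (v e, fun _ => false))) Q Y i
        (run (ovF Q Φ (fun e => (v e, fun _ => false))) Q Y ρ η i)).card < b) with hB
  have hsub : ((Fintype.piFinset (fun _ : Fin m => A)).filter (fun Φ : Fml n k m =>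
      ¬ Glob Φ η l b)) ⊆
      (univ.filter (fun Q : Finset (Fin m) => Q.card ≤ l)).biUnion fun Q =>
        (univ.filter (fun Y : Finset (Fin n) => Y.card ≤ l)).biUnion fun Y =>
          (Fintype.piFinset (fun e : Fin m => if e ∈ Q then (univ : Finset (Fin k → Fin n))
            else {c0})).biUnion fun v =>
            (Fintype.piFinset (fun e : Fin m => if e ∈ Q then
              (univ : Finset (Option (Option (Fin k)))) else {none})).biUnion fun ρ =>
              B Q Y v ρ := by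
    intro Φ hΦ
    rw [mem_filter] at hΦ
    obtain ⟨hΦA, hG⟩ := hΦ
    unfold Glob at hG
    push Not at hG
    obtain ⟨Q, Y, ρ, Φ', hQ, hY, hΦ', i, hi, hlt⟩ := hG
    rw [mem_biUnion]
    refine ⟨Q, by simp [hQ], ?_⟩
    rw [mem_biUnion]
    refine ⟨Y, by simp [hY], ?_⟩
    rw [mem_biUnion]
    refine ⟨fun e => if e ∈ Q then (Φ' e).1 else c0, ?_, ?_⟩
    · rw [Fintype.mem_piFinset]
      intro e
      by_cases he : e ∈ Q
      · rw [if_pos he]
        exact mem_univ _
      · rw [if_neg he, if_neg he]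
        exact mem_singleton_self _
    rw [mem_biUnion]
    refine ⟨fun e => if e ∈ Q then ρ e else none, ?_, ?_⟩
    · rw [Fintype.mem_piFinset]
      intro e
      by_cases he : e ∈ Q
      · rw [if_pos he]
        exact mem_univ _
      · rw [if_neg he, if_neg he]
        exact mem_singleton_self _
    rw [hB, mem_filter]
    refine ⟨hΦA, i, hi, ?_⟩
    have h1 : ∀ e : Fin m, e.val < i → e ∉ Q → Φ' e =
        ovF Q Φ (fun e => ((fun e => if e ∈ Q then (Φ' e).1 else c0) e, fun _ => false)) e := by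
      intro e _ he
      unfold ovF
      rw [if_neg he]
      exact hΦ' e he
    have h2 : run Φ' Q Y ρ η i = run (ovF Q Φ
        (fun e => ((fun e => if e ∈ Q then (Φ' e).1 else c0) e, fun _ => false))) Q Y
        (fun e => if e ∈ Q then ρ e else none) η i := by
      rw [LDf_run_rho Φ' Q Y ρ (fun e => if e ∈ Q then ρ e else none) η
        (fun e he => by rw [if_pos he]) i]
      refine run_congr _ _ Q Y _ η i h1 ?_
      intro e he _ t _ j _
      unfold ovF
      rw [if_pos he]
      show (Φ' e).1 j = (if e ∈ Q then (Φ' e).1 else c0) j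
      rw [if_pos he]
    have h3 : FreeF Φ' Q Y i (run Φ' Q Y ρ η i) = FreeF (ovF Q Φ
        (fun e => ((fun e => if e ∈ Q then (Φ' e).1 else c0) e, fun _ => false))) Q Y i
        (run (ovF Q Φ
        (fun e => ((fun e => if e ∈ Q then (Φ' e).1 else c0) e, fun _ => false))) Q Y
        (fun e => if e ∈ Q then ρ e else none) η i) := by
      rw [← h2]
      unfold FreeF
      rw [free_congr Φ' _ Q Y i _ h1]
    rw [h3] at hlt
    exact hlt
  have hcard1 : (((Fintype.piFinset (fun _ : Fin m => A)).filter (fun Φ : Fml n k m =>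
      ¬ Glob Φ η l b)).card : ℝ) ≤
      ∑ Q ∈ univ.filter (fun Q : Finset (Fin m) => Q.card ≤ l),
        ∑ Y ∈ univ.filter (fun Y : Finset (Fin n) => Y.card ≤ l),
          ∑ v ∈ Fintype.piFinset (fun e : Fin m => if e ∈ Q then (univ : Finset (Fin k → Fin n))
            else {c0}),
            ∑ ρ ∈ Fintype.piFinset (fun e : Fin m => if e ∈ Q then
              (univ : Finset (Option (Option (Fin k)))) else {none}), ((B Q Y v ρ).card : ℝ) := by
    have h1 := card_le_card hsub
    have h2 : ((Fintype.piFinset (fun _ : Fin m => A)).filter (fun Φ : Fml n k m =>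
      ¬ Glob Φ η l b)).card ≤
      ∑ Q ∈ univ.filter (fun Q : Finset (Fin m) => Q.card ≤ l),
        ∑ Y ∈ univ.filter (fun Y : Finset (Fin n) => Y.card ≤ l),
          ∑ v ∈ Fintype.piFinset (fun e : Fin m => if e ∈ Q then (univ : Finset (Fin k → Fin n))
            else {c0}),
            ∑ ρ ∈ Fintype.piFinset (fun e : Fin m => if e ∈ Q then
              (univ : Finset (Option (Option (Fin k)))) else {none}), (B Q Y v ρ).card :=
      h1.trans (card_biUnion_le.trans (sum_le_sum fun Q _ => card_biUnion_le.trans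
        (sum_le_sum fun Y _ => card_biUnion_le.trans (sum_le_sum fun v _ => card_biUnion_le))))
    exact_mod_cast h2
  have hnk : (1 : ℝ) ≤ (n : ℝ) ^ k := one_le_pow₀ (by exact_mod_cast hn)
  have hk2 : (1 : ℝ) ≤ (k : ℝ) + 2 := by
    have : (0 : ℝ) ≤ k := Nat.cast_nonneg k
    linarith
  have hcard2 : ∀ Q ∈ univ.filter (fun Q : Finset (Fin m) => Q.card ≤ l),
      ∀ Y ∈ univ.filter (fun Y : Finset (Fin n) => Y.card ≤ l),
        ∑ v ∈ Fintype.piFinset (fun e : Fin m => if e ∈ Q then (univ : Finset (Fin k → Fin n))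
            else {c0}),
            ∑ ρ ∈ Fintype.piFinset (fun e : Fin m => if e ∈ Q then
              (univ : Finset (Option (Option (Fin k)))) else {none}), ((B Q Y v ρ).card : ℝ) ≤
        ((n : ℝ) ^ k) ^ l * (((k : ℝ) + 2) ^ l * X) := by
    intro Q hQ Y hY
    rw [mem_filter] at hQ hY
    have h1 : ∀ v ∈ Fintype.piFinset (fun e : Fin m => if e ∈ Q then
        (univ : Finset (Fin k → Fin n)) else {c0}),
        ∑ ρ ∈ Fintype.piFinset (fun e : Fin m => if e ∈ Q then
              (univ : Finset (Option (Option (Fin k)))) else {none}), ((B Q Y v ρ).card : ℝ) ≤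
          ((k : ℝ) + 2) ^ l * X := by
      intro v _
      refine (sum_le_card_nsmul _ _ X fun ρ _ => ?_).trans ?_
      · exact ld_fixed hn hk A hA1 (fun e => (v e, fun _ => false)) Q Y ρ η b l w0 hQ.2 hY.2 hln hb
          hln2 hA f0 hf00 hf01 hf0
      · rw [nsmul_eq_mul, LDf_card_pi, Fintype.card_option, Fintype.card_option, Fintype.card_fin]
        refine mul_le_mul_of_nonneg_right ?_ hX0
        push_cast
        have e1 : (k : ℝ) + 1 + 1 = (k : ℝ) + 2 := by ring
        rw [e1]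
        exact pow_le_pow_right₀ hk2 hQ.2
    refine (sum_le_card_nsmul _ _ _ h1).trans ?_
    rw [nsmul_eq_mul, LDf_card_pi, Fintype.card_fun, Fintype.card_fin, Fintype.card_fin]
    refine mul_le_mul_of_nonneg_right ?_ (by positivity)
    push_cast
    exact pow_le_pow_right₀ hnk hQ.2
  have hcard3 : ∀ Q ∈ univ.filter (fun Q : Finset (Fin m) => Q.card ≤ l),
      ∑ Y ∈ univ.filter (fun Y : Finset (Fin n) => Y.card ≤ l),
        ∑ v ∈ Fintype.piFinset (fun e : Fin m => if e ∈ Q then (univ : Finset (Fin k → Fin n))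
            else {c0}),
            ∑ ρ ∈ Fintype.piFinset (fun e : Fin m => if e ∈ Q then
              (univ : Finset (Option (Option (Fin k)))) else {none}), ((B Q Y v ρ).card : ℝ) ≤
        ((n : ℝ) + 1) ^ l * (((n : ℝ) ^ k) ^ l * (((k : ℝ) + 2) ^ l * X)) := by
    intro Q hQ
    refine (sum_le_card_nsmul _ _ _ (hcard2 Q hQ)).trans ?_
    rw [nsmul_eq_mul]
    refine mul_le_mul_of_nonneg_right ?_ (by positivity)
    have h1 := LDf_card_small (Fin n) l
    rw [Fintype.card_fin] at h1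
    exact_mod_cast h1
  refine hcard1.trans ((sum_le_card_nsmul _ _ _ hcard3).trans ?_)
  rw [nsmul_eq_mul]
  have h1 := LDf_card_small (Fin m) l
  rw [Fintype.card_fin] at h1
  have h2 : ((univ.filter (fun Q : Finset (Fin m) => Q.card ≤ l)).card : ℝ) ≤
      ((m : ℝ) + 1) ^ l := by exact_mod_cast h1
  refine (mul_le_mul_of_nonneg_right h2 (by positivity)).trans_eq ?_
  rw [hX]
  simp only [mul_pow]
  ring

end GC
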