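import Pool.Agent.W_bd7f91F_h12.NumE

/-! # Numerical bounds for the first moment sums (pure real analysis) -/

set_option autoImplicit false

open Finset
open scoped Classical

namespace GC

theorem NumF_ll_pos (n : ℕ) : 1 ≤ ll n := by
  unfold ll; omega

theorem NumF_le_two_pow (n : ℕ) : n ≤ 2 ^ ll n := by
  unfold ll
  exact (Nat.lt_pow_succ_log_self (by norm_num) n).le

theorem NumF_le_exp (n : ℕ) : (n : ℝ) ≤ Real.exp (ll n) := by
  have h1 : (n : ℝ) ≤ 2 ^ ll n := by exact_mod_cast NumF_le_two_pow n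
  have h2 : (2 : ℝ) ^ ll n ≤ Real.exp 1 ^ ll n := by
    apply pow_le_pow_left₀ (by norm_num)
    have := Real.add_one_le_exp (1 : ℝ)
    linarith
  rw [← Real.exp_nat_mul, mul_one] at h2
  exact h1.trans h2

theorem NumF_cube (l : ℕ) (hl : 1 ≤ l) : ((l : ℝ) ^ 3 + 1) ≤ Real.exp (4 * l) := by
  have h1 : (1 : ℝ) ≤ l := by exact_mod_cast hl
  have h2 : (l : ℝ) ≤ Real.exp l := by
    have := Real.add_one_le_exp (l : ℝ)
    linarith
  have h3 : (l : ℝ) ^ 3 ≤ Real.exp l ^ 3 := pow_le_pow_left₀ (by positivity) h2 3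
  have h4 : (2 : ℝ) ≤ Real.exp l := by
    have := Real.add_one_le_exp (l : ℝ)
    linarith
  have h5 : Real.exp (4 * l) = Real.exp l ^ 3 * Real.exp l := by
    rw [← Real.exp_nat_mul, ← Real.exp_add]
    congr 1
    push_cast
    ring
  have h6 : (1 : ℝ) ≤ Real.exp l ^ 3 := one_le_pow₀ (by linarith)
  rw [h5]
  nlinarith

theorem NumF_nonneg {g : ℝ} (hg : g ≤ 1) (n k q h r x : ℕ) : 0 ≤ nbd n k q h r x g := by
  unfold nbd
  have : 0 ≤ 1 - g / 2 := by linarith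
  positivity

/-- PROOF. `term_num` with `q = 1`, `h - r ≤ C1 ll n`, `h ≤ r + c1 ≤ 2 r ≤ 16 x` (as `c1 ≤ c2 ≤ r`), `x ≥ r / 8 ≥ C2 ll n / 8`: every term is at most
`n (24 * 2^k k^2)^(C1 ll n) exp(-L^2 C2 ll n / 8)`, at most `n^(-4)` for `C2` large (depending on `k`, `C1`; `n < 2^(ll n) ≤ 2 n`); there are
at most `((ll n)^3 + 1)^3` terms. (For `h = 0`: then `r = x = 0`, excluded by `c2 ≥ 1`.) -/
theorem e4_num : ∃ k0 : ℕ, ∀ k, k0 ≤ k → ∀ C1 : ℕ, ∃ C2 : ℕ, C1 ≤ C2 ∧ ∃ n0 : ℕ, ∀ n, n0 ≤ n →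
    ∀ m, HM n k m →
    sumE4 n k m ((ll n) ^ 3) (C1 * ll n) (C2 * ll n) (gg k) ≤ 1 / (n : ℝ) ^ 2 := by
  obtain ⟨k0, hk0⟩ := term_num
  refine ⟨max k0 3, fun k hk C1 => ?_⟩
  have hkk : k0 ≤ k := le_trans (le_max_left _ _) hk
  have hk3 : 3 ≤ k := le_trans (le_max_right _ _) hk
  have hk3' : (3 : ℝ) ≤ k := by exact_mod_cast hk3
  have hL : 1 ≤ Real.log k := by
    rw [Real.le_log_iff_exp_le (by linarith)]
    have := Real.exp_one_lt_d9
    linarith
  set B : ℝ := 24 * 2 ^ k * (k : ℝ) ^ 2 with hB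
  have hB1 : 1 ≤ B := by
    have h1 : (1 : ℝ) ≤ 2 ^ k := one_le_pow₀ (by norm_num)
    have h2 : (1 : ℝ) ≤ (k : ℝ) ^ 2 := one_le_pow₀ (by linarith)
    have h3 : (1 : ℝ) ≤ 2 ^ k * (k : ℝ) ^ 2 := by nlinarith
    rw [hB]
    nlinarith
  have hB0 : 0 < B := by linarith
  have hlB : 0 ≤ Real.log B := Real.log_nonneg hB1
  set D : ℝ := 8 * (C1 * Real.log B + 15) with hD
  refine ⟨C1 + 1 + ⌈D⌉₊, by omega, 1, fun n hn m hm => ?_⟩
  set C2 := C1 + 1 + ⌈D⌉₊ with hC2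
  have hC2D : D ≤ C2 := by
    have := Nat.le_ceil D
    rw [hC2]
    push_cast
    have h1 : (0 : ℝ) ≤ C1 := Nat.cast_nonneg _
    linarith
  have hl1 : 1 ≤ ll n := NumF_ll_pos n
  have hl1' : (1 : ℝ) ≤ ll n := by exact_mod_cast hl1
  have hn' : (0 : ℝ) < n := by exact_mod_cast hn
  -- every term
  have hterm : ∀ h r x : ℕ, r ≤ h → C2 * ll n ≤ r ∧ r ≤ 8 * x ∧ h ≤ r + C1 * ll n →
      (m.choose h : ℝ) * 4 ^ h * nbd n k 1 h r x (gg k) ≤ Real.exp (-(14 * ll n)) := by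
    intro h r x hrh hc
    obtain ⟨hc1, hc2, hc3⟩ := hc
    have hc12 : C1 * ll n ≤ C2 * ll n := Nat.mul_le_mul_right _ (by omega)
    have hr1 : 1 ≤ r := by
      have : 1 * 1 ≤ C2 * ll n := Nat.mul_le_mul (by omega) hl1
      omega
    have ht := hk0 k hkk n m 1 h r x (by omega) hm (by omega) hrh hc2 (by omega)
    refine ht.trans ?_
    rw [← hB, pow_one]
    have h1 : B ^ (h - r) ≤ B ^ (C1 * ll n) := pow_le_pow_right₀ hB1 (by omega)
    have h2 : B ^ (C1 * ll n) = Real.exp (C1 * ll n * Real.log B) := by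
      rw [← Real.exp_log hB0, ← Real.exp_nat_mul, Real.log_exp]
      push_cast
      ring_nf
    have h3 : (D / 8 : ℝ) * ll n ≤ Real.log k ^ 2 * x := by
      have hx : (C2 : ℝ) * ll n ≤ 8 * x := by exact_mod_cast hc1.trans hc2
      have h31 : D * ll n ≤ 8 * x := by
        have : D * ll n ≤ C2 * ll n := mul_le_mul_of_nonneg_right hC2D (by linarith)
        linarith
      have h32 : (1 : ℝ) ≤ Real.log k ^ 2 := one_le_pow₀ hL
      have h33 : (0 : ℝ) ≤ x := Nat.cast_nonneg _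
      nlinarith
    have h4 : Real.exp (-(Real.log k ^ 2 * x)) ≤ Real.exp (-(D / 8 * ll n)) :=
      Real.exp_le_exp.mpr (by linarith)
    calc (n : ℝ) * B ^ (h - r) * Real.exp (-(Real.log k ^ 2 * x))
        ≤ Real.exp (ll n) * Real.exp (C1 * ll n * Real.log B) * Real.exp (-(D / 8 * ll n)) := by
          rw [← h2]
          gcongr
          exact NumF_le_exp n
      _ = Real.exp (-(14 * ll n)) := by
          rw [← Real.exp_add, ← Real.exp_add]
          congr 1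
          rw [hD]
          ring
  have hcb : ((ll n ^ 3 + 1 : ℕ) : ℝ) ≤ Real.exp (4 * ll n) := by
    have := NumF_cube (ll n) hl1
    push_cast
    exact this
  have hE0 : 0 ≤ Real.exp (-(14 * (ll n : ℝ))) := (Real.exp_pos _).le
  have hsum : sumE4 n k m ((ll n) ^ 3) (C1 * ll n) (C2 * ll n) (gg k) ≤
      ((ll n ^ 3 + 1 : ℕ) : ℝ) * (((ll n ^ 3 + 1 : ℕ) : ℝ) * (((ll n ^ 3 + 1 : ℕ) : ℝ) *
        Real.exp (-(14 * ll n)))) := by
    unfold sumE4
    have e1 : ∀ h ∈ range (ll n ^ 3 + 1), ∑ r ∈ range (h + 1), ∑ x ∈ range (r + 1),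
        (if C2 * ll n ≤ r ∧ r ≤ 8 * x ∧ h ≤ r + C1 * ll n then
          (m.choose h : ℝ) * 4 ^ h * nbd n k 1 h r x (gg k) else 0) ≤
        ((ll n ^ 3 + 1 : ℕ) : ℝ) * (((ll n ^ 3 + 1 : ℕ) : ℝ) * Real.exp (-(14 * ll n))) := by
      intro h hh
      have hh' : h < ll n ^ 3 + 1 := mem_range.mp hh
      have e2 : ∀ r ∈ range (h + 1), ∑ x ∈ range (r + 1),
          (if C2 * ll n ≤ r ∧ r ≤ 8 * x ∧ h ≤ r + C1 * ll n then
            (m.choose h : ℝ) * 4 ^ h * nbd n k 1 h r x (gg k) else 0) ≤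
          ((ll n ^ 3 + 1 : ℕ) : ℝ) * Real.exp (-(14 * ll n)) := by
        intro r hr
        have hr' : r < h + 1 := mem_range.mp hr
        have e3 : ∀ x ∈ range (r + 1),
            (if C2 * ll n ≤ r ∧ r ≤ 8 * x ∧ h ≤ r + C1 * ll n then
              (m.choose h : ℝ) * 4 ^ h * nbd n k 1 h r x (gg k) else 0) ≤
            Real.exp (-(14 * ll n)) := by
          intro x _
          split_ifs with hc
          · exact hterm h r x (by omega) hc
          · exact hE0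
        refine (Finset.sum_le_card_nsmul _ _ _ e3).trans ?_
        rw [card_range, nsmul_eq_mul]
        exact mul_le_mul_of_nonneg_right (by exact_mod_cast (by omega : r + 1 ≤ ll n ^ 3 + 1)) hE0
      refine (Finset.sum_le_card_nsmul _ _ _ e2).trans ?_
      rw [card_range, nsmul_eq_mul]
      exact mul_le_mul_of_nonneg_right (by exact_mod_cast (by omega : h + 1 ≤ ll n ^ 3 + 1))
        (by positivity)
    refine (Finset.sum_le_card_nsmul _ _ _ e1).trans ?_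
    rw [card_range, nsmul_eq_mul]
  refine hsum.trans ?_
  have hn2 : (n : ℝ) ^ 2 ≤ Real.exp (2 * ll n) := by
    have := pow_le_pow_left₀ hn'.le (NumF_le_exp n) 2
    rwa [← Real.exp_nat_mul] at this
  rw [le_div_iff₀ (by positivity)]
  calc ((ll n ^ 3 + 1 : ℕ) : ℝ) * (((ll n ^ 3 + 1 : ℕ) : ℝ) * (((ll n ^ 3 + 1 : ℕ) : ℝ) *
        Real.exp (-(14 * ll n)))) * (n : ℝ) ^ 2
      ≤ Real.exp (4 * ll n) * (Real.exp (4 * ll n) * (Real.exp (4 * ll n) *
        Real.exp (-(14 * ll n)))) * Real.exp (2 * ll n) := by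
        gcongr
    _ = 1 := by
        rw [← Real.exp_add, ← Real.exp_add, ← Real.exp_add, ← Real.exp_add, ← Real.exp_zero]
        congr 1
        ring

/-- PROOF. `term_num` with `h = r` (`2^r ≤ 4^r`), `q = ll n ≤ x ≤ r ≤ 8 x`: every term is at most `n^q exp(-L^2 x) ≤ n^q exp(-L^2 q)`, so the product is at most
`(2 k)^q exp(-L^2 q) ((ll n)^3 + 1)^2`, and `2 k exp(-L^2) ≤ e^(-3)`, `e^(-3 ll n) ≤ n^(-3)`. -/
theorem wt_num : ∃ k0 : ℕ, ∀ k, k0 ≤ k → ∃ n0 : ℕ, ∀ n, n0 ≤ n → ∀ m, HM n k m →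
    (2 * (k : ℝ) / n) ^ (ll n) * sumWT n k m ((ll n) ^ 3) (ll n) (gg k) ≤ 1 / (n : ℝ) := by
  obtain ⟨k0, hk0⟩ := term_num
  obtain ⟨k1, hk1⟩ := gg_bounds
  refine ⟨max (max k0 k1) ⌈Real.exp 4⌉₊, fun k hk => ⟨1, fun n hn m hm => ?_⟩⟩
  have hkk : k0 ≤ k := le_trans (le_trans (le_max_left _ _) (le_max_left _ _)) hk
  have hkk1 : k1 ≤ k := le_trans (le_trans (le_max_right _ _) (le_max_left _ _)) hk
  have hke : Real.exp 4 ≤ k := le_trans (Nat.le_ceil _) (by exact_mod_cast le_trans (le_max_right _ _) hk)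
  have hk0' : (0 : ℝ) < k := lt_of_lt_of_le (Real.exp_pos _) hke
  have hL : 4 ≤ Real.log k := by
    rw [Real.le_log_iff_exp_le hk0']
    exact hke
  have hg1 : gg k ≤ 1 := (hk1 k hkk1).2.1
  have hl1 : 1 ≤ ll n := NumF_ll_pos n
  have hl1' : (1 : ℝ) ≤ ll n := by exact_mod_cast hl1
  have hn' : (0 : ℝ) < n := by exact_mod_cast hn
  set T : ℝ := (n : ℝ) ^ ll n * Real.exp (-(Real.log k ^ 2 * ll n)) with hT
  have hT0 : 0 ≤ T := by positivity
  have hterm : ∀ r x : ℕ, x ≤ r → ll n ≤ x ∧ r ≤ 8 * x →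
      (m.choose r : ℝ) * 2 ^ r * nbd n k (ll n) r r x (gg k) ≤ T := by
    intro r x hxr hc
    obtain ⟨hc1, hc2⟩ := hc
    have ht := hk0 k hkk n m (ll n) r r x (by omega) hm (by omega) le_rfl hc2 (by omega)
    rw [Nat.sub_self, pow_zero, mul_one] at ht
    have hnb : 0 ≤ nbd n k (ll n) r r x (gg k) := NumF_nonneg hg1 _ _ _ _ _ _
    have h24 : (2 : ℝ) ^ r ≤ 4 ^ r := pow_le_pow_left₀ (by norm_num) (by norm_num) r
    calc (m.choose r : ℝ) * 2 ^ r * nbd n k (ll n) r r x (gg k)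
        ≤ (m.choose r : ℝ) * 4 ^ r * nbd n k (ll n) r r x (gg k) := by gcongr
      _ ≤ (n : ℝ) ^ ll n * Real.exp (-(Real.log k ^ 2 * x)) := ht
      _ ≤ T := by
          rw [hT]
          have hxx : (ll n : ℝ) ≤ x := by exact_mod_cast hc1
          have : Real.log k ^ 2 * ll n ≤ Real.log k ^ 2 * x :=
            mul_le_mul_of_nonneg_left hxx (by positivity)
          have h5 : Real.exp (-(Real.log k ^ 2 * x)) ≤ Real.exp (-(Real.log k ^ 2 * ll n)) :=
            Real.exp_le_exp.mpr (by linarith)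
          gcongr
  have hsum : sumWT n k m ((ll n) ^ 3) (ll n) (gg k) ≤
      ((ll n ^ 3 + 1 : ℕ) : ℝ) * (((ll n ^ 3 + 1 : ℕ) : ℝ) * T) := by
    unfold sumWT
    have e2 : ∀ r ∈ range (ll n ^ 3 + 1), ∑ x ∈ range (r + 1),
        (if ll n ≤ x ∧ r ≤ 8 * x then
          (m.choose r : ℝ) * 2 ^ r * nbd n k (ll n) r r x (gg k) else 0) ≤
        ((ll n ^ 3 + 1 : ℕ) : ℝ) * T := by
      intro r hr
      have hr' : r < ll n ^ 3 + 1 := mem_range.mp hr
      have e3 : ∀ x ∈ range (r + 1),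
          (if ll n ≤ x ∧ r ≤ 8 * x then
            (m.choose r : ℝ) * 2 ^ r * nbd n k (ll n) r r x (gg k) else 0) ≤ T := by
        intro x hx
        have hx' : x < r + 1 := mem_range.mp hx
        split_ifs with hc
        · exact hterm r x (by omega) hc
        · exact hT0
      refine (Finset.sum_le_card_nsmul _ _ _ e3).trans ?_
      rw [card_range, nsmul_eq_mul]
      exact mul_le_mul_of_nonneg_right (by exact_mod_cast (by omega : r + 1 ≤ ll n ^ 3 + 1)) hT0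
    refine (Finset.sum_le_card_nsmul _ _ _ e2).trans ?_
    rw [card_range, nsmul_eq_mul]
  have hcb : ((ll n ^ 3 + 1 : ℕ) : ℝ) ≤ Real.exp (4 * ll n) := by
    have := NumF_cube (ll n) hl1
    push_cast
    exact this
  have hmain : (2 * (k : ℝ) / n) ^ (ll n) * T ≤ Real.exp (-(9 * ll n)) := by
    have h1 : (2 * (k : ℝ) / n) ^ (ll n) * (n : ℝ) ^ ll n = (2 * (k : ℝ)) ^ ll n := by
      rw [← mul_pow]
      congr 1
      field_simp
    have h2 : (2 * (k : ℝ)) ^ ll n ≤ Real.exp ((1 + Real.log k) * ll n) := by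
      have h21 : 2 * (k : ℝ) ≤ Real.exp (1 + Real.log k) := by
        rw [Real.exp_add, Real.exp_log hk0']
        have := Real.add_one_le_exp (1 : ℝ)
        nlinarith
      have h22 := pow_le_pow_left₀ (by positivity) h21 (ll n)
      rwa [← Real.exp_nat_mul, mul_comm (ll n : ℝ)] at h22
    calc (2 * (k : ℝ) / n) ^ (ll n) * T
        = (2 * (k : ℝ)) ^ ll n * Real.exp (-(Real.log k ^ 2 * ll n)) := by
          rw [hT, ← mul_assoc, h1]
      _ ≤ Real.exp ((1 + Real.log k) * ll n) * Real.exp (-(Real.log k ^ 2 * ll n)) := by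
          gcongr
      _ = Real.exp ((1 + Real.log k) * ll n + -(Real.log k ^ 2 * ll n)) := by
          rw [← Real.exp_add]
      _ ≤ Real.exp (-(9 * ll n)) := by
          apply Real.exp_le_exp.mpr
          have h6 : (1 + Real.log k - Real.log k ^ 2 + 9) ≤ 0 := by nlinarith
          have h7 : (1 + Real.log k - Real.log k ^ 2 + 9) * ll n ≤ 0 :=
            mul_nonpos_of_nonpos_of_nonneg h6 (by linarith)
          linarith
  rw [le_div_iff₀ hn']
  have hp0 : 0 ≤ (2 * (k : ℝ) / n) ^ (ll n) := by positivity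
  calc (2 * (k : ℝ) / n) ^ (ll n) * sumWT n k m ((ll n) ^ 3) (ll n) (gg k) * n
      ≤ (2 * (k : ℝ) / n) ^ (ll n) * (((ll n ^ 3 + 1 : ℕ) : ℝ) * (((ll n ^ 3 + 1 : ℕ) : ℝ) * T)) * n := by
        gcongr
    _ = ((ll n ^ 3 + 1 : ℕ) : ℝ) * ((ll n ^ 3 + 1 : ℕ) : ℝ) * ((2 * (k : ℝ) / n) ^ (ll n) * T) * n := by
        ring
    _ ≤ Real.exp (4 * ll n) * Real.exp (4 * ll n) * Real.exp (-(9 * ll n)) * Real.exp (ll n) := by
        gcongr
        exact NumF_le_exp n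
    _ = 1 := by
        rw [← Real.exp_add, ← Real.exp_add, ← Real.exp_add, ← Real.exp_zero]
        congr 1
        ring

end GC
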