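import Pool.Agent.W_bd7f91F_h12.NumA

/-! # Numerical bounds for the first moment sums (pure real analysis) -/

set_option autoImplicit false

open Finset
open scoped Classical

namespace GC

lemma NumG_exp_one : Real.exp 1 < 3 := by
  have := Real.exp_one_lt_d9
  linarith

lemma NumG_one_le_log {k : ℕ} (hk : 3 ≤ k) : 1 ≤ Real.log k := by
  have hk' : (3 : ℝ) ≤ k := by exact_mod_cast hk
  rw [Real.le_log_iff_exp_le (by linarith)]
  exact NumG_exp_one.le.trans hk'

/-- FEW FLIPS in the model M0.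
PROOF. `w1 = ⌈12 L n / k⌉`; `C(m, w1) ≤ (3 m / w1)^w1`... use `w1! ≥ (w1/e)^w1`: `C(m,w1) 2^(-k w1) ≤ (e m / (2^k w1))^w1 ≤ (e/12)^w1`. -/
theorem flips_num : ∃ k0 : ℕ, ∀ k, k0 ≤ k → ∀ δ : ℝ, 0 < δ → ∃ n0 : ℕ, ∀ n, n0 ≤ n → ∀ m,
    HM n k m → (m.choose ⌈12 * Real.log k * n / k⌉₊ : ℝ) / 2 ^ (k * ⌈12 * Real.log k * n / k⌉₊) ≤ δ := by
  refine ⟨3, fun k hk δ hδ => ?_⟩
  have hk0 : (0 : ℝ) < k := by
    have : 0 < k := by omega
    exact_mod_cast this
  have hL := NumG_one_le_log hk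
  obtain ⟨N, hN⟩ := exists_pow_lt_of_lt_one hδ (show (1 / 4 : ℝ) < 1 by norm_num)
  refine ⟨⌈(N : ℝ) * k / (12 * Real.log k)⌉₊ + 1, fun n hn m hm => ?_⟩
  have hn0 : 0 < n := by omega
  have hnR : (0 : ℝ) < n := by exact_mod_cast hn0
  set w := ⌈12 * Real.log k * n / k⌉₊ with hw
  have hw1 : 12 * Real.log k * n / k ≤ w := Nat.le_ceil _
  have hpos : 0 < 12 * Real.log k * n / k := by positivity
  have hwpos : (0 : ℝ) < w := lt_of_lt_of_le hpos hw1
  have hNw : N ≤ w := by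
    have h1 : (N : ℝ) * k / (12 * Real.log k) ≤ n := by
      refine (Nat.le_ceil _).trans ?_
      have : ⌈(N : ℝ) * k / (12 * Real.log k)⌉₊ ≤ n := by omega
      exact_mod_cast this
    have h2 : (N : ℝ) ≤ 12 * Real.log k * n / k := by
      rw [div_le_iff₀ (by positivity)] at h1
      rw [le_div_iff₀ hk0]
      linarith
    exact_mod_cast h2.trans hw1
  have hm2 := hm_le2 hk hm
  have hchoose : (m.choose w : ℝ) ≤ (m : ℝ) ^ w / (w.factorial : ℝ) := Nat.choose_le_pow_div w m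
  have hfac : (w : ℝ) ^ w / (w.factorial : ℝ) ≤ Real.exp w :=
    Real.pow_div_factorial_le_exp _ hwpos.le _
  have hfacpos : (0 : ℝ) < (w.factorial : ℝ) := by exact_mod_cast w.factorial_pos
  have h2k : (0 : ℝ) < 2 ^ k := by positivity
  have hmw : (m : ℝ) ≤ 2 ^ k * w / 12 := by
    have h3 : 12 * Real.log k * n ≤ w * k := by
      rw [div_le_iff₀ hk0] at hw1
      exact hw1
    have h4 : (m : ℝ) * k ≤ (2 ^ k * w / 12) * k := by
      calc (m : ℝ) * k ≤ 2 ^ k * Real.log k * n := hm2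
        _ = 2 ^ k / 12 * (12 * Real.log k * n) := by ring
        _ ≤ 2 ^ k / 12 * (w * k) := mul_le_mul_of_nonneg_left h3 (by positivity)
        _ = (2 ^ k * w / 12) * k := by ring
    exact le_of_mul_le_mul_right h4 hk0
  have h5 : (m.choose w : ℝ) ≤ (2 ^ k * w / 12) ^ w / (w.factorial : ℝ) :=
    hchoose.trans (div_le_div_of_nonneg_right (pow_le_pow_left₀ (Nat.cast_nonneg m) hmw w)
      hfacpos.le)
  have h6 : (2 ^ k * (w : ℝ) / 12) ^ w / (w.factorial : ℝ) =
      2 ^ (k * w) * (1 / 12) ^ w * ((w : ℝ) ^ w / (w.factorial : ℝ)) := by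
    rw [pow_mul, show (2 ^ k * (w : ℝ) / 12) = 2 ^ k * (1 / 12) * w by ring, mul_pow, mul_pow]
    ring
  have h7 : Real.exp (w : ℝ) ≤ 3 ^ w := by
    rw [← mul_one (w : ℝ), Real.exp_nat_mul]
    exact pow_le_pow_left₀ (Real.exp_pos 1).le NumG_exp_one.le w
  have h8 : (m.choose w : ℝ) ≤ 2 ^ (k * w) * (1 / 4) ^ w := by
    rw [h6] at h5
    refine h5.trans ?_
    calc 2 ^ (k * w) * (1 / 12) ^ w * ((w : ℝ) ^ w / (w.factorial : ℝ))
        ≤ 2 ^ (k * w) * (1 / 12) ^ w * 3 ^ w :=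
          mul_le_mul_of_nonneg_left (hfac.trans h7) (by positivity)
      _ = 2 ^ (k * w) * (1 / 4) ^ w := by
          rw [mul_assoc, ← mul_pow]
          norm_num
  rw [div_le_iff₀ (by positivity)]
  calc (m.choose w : ℝ) ≤ 2 ^ (k * w) * (1 / 4) ^ w := h8
    _ ≤ 2 ^ (k * w) * (1 / 4) ^ N := mul_le_mul_of_nonneg_left
        (pow_le_pow_of_le_one (by norm_num) (by norm_num) hNw) (by positivity)
    _ ≤ 2 ^ (k * w) * δ := mul_le_mul_of_nonneg_left hN.le (by positivity)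
    _ = δ * 2 ^ (k * w) := mul_comm _ _

/-- BALLS. `∑_(i ≤ D) C(n, i) ≤ x^(-D) (1 + x)^n ≤ x^(-D) e^(x n)` with `x = D / n`, `D = ⌈12 L n / k⌉ + ⌈n / k⌉ ≤ 14 L n / k`: at most
`(e n / D)^D`, increasing in `D ≤ n`: `≤ exp((14 L n/k) (1 + ln k)) `; for `k` large at most `exp(15 L^2 n / k) / 2`. -/
theorem ball_num : ∃ k0 : ℕ, ∀ k, k0 ≤ k → ∃ n0 : ℕ, ∀ n, n0 ≤ n →
    2 * (∑ i ∈ range (⌈12 * Real.log k * n / k⌉₊ + ⌈(n : ℝ) / k⌉₊ + 1), (n.choose i : ℝ)) ≤
      Real.exp (15 * Real.log k ^ 2 * n / k) := by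
  refine ⟨3, fun k hk => ⟨⌈(k : ℝ) * (2 * Real.log k + 1)⌉₊, fun n hn => ?_⟩⟩
  have hk0 : (0 : ℝ) < k := by
    have : 0 < k := by omega
    exact_mod_cast this
  have hk1 : (1 : ℝ) ≤ k := by
    have : 1 ≤ k := by omega
    exact_mod_cast this
  have hL := NumG_one_le_log hk
  set L := Real.log k with hLdef
  have hnR : (k : ℝ) * (2 * L + 1) ≤ n := (Nat.le_ceil _).trans (by exact_mod_cast hn)
  set D := ⌈12 * L * n / k⌉₊ + ⌈(n : ℝ) / k⌉₊ with hD
  have hn0 : (0 : ℝ) ≤ n := Nat.cast_nonneg n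
  have hDle : (D : ℝ) ≤ 12 * L * n / k + n / k + 2 := by
    have h1 := Nat.ceil_lt_add_one (show (0 : ℝ) ≤ 12 * L * n / k by positivity)
    have h2 := Nat.ceil_lt_add_one (show (0 : ℝ) ≤ (n : ℝ) / k by positivity)
    rw [hD]
    push_cast
    linarith
  have hsum : (∑ i ∈ range (D + 1), (n.choose i : ℝ)) ≤ (k : ℝ) ^ D * (1 + 1 / k) ^ n := by
    have hx : (0 : ℝ) ≤ 1 / k := by positivity
    calc (∑ i ∈ range (D + 1), (n.choose i : ℝ))
        ≤ ∑ i ∈ range (D + 1), (k : ℝ) ^ D * ((1 / k) ^ i * (n.choose i : ℝ)) := by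
          refine Finset.sum_le_sum (fun i hi => ?_)
          have hi' : i ≤ D := Nat.lt_succ_iff.mp (Finset.mem_range.mp hi)
          have h1 : (1 : ℝ) ≤ (k : ℝ) ^ D * (1 / k) ^ i := by
            rw [one_div, inv_pow, ← div_eq_mul_inv, one_le_div (by positivity)]
            exact pow_le_pow_right₀ hk1 hi'
          calc (n.choose i : ℝ) = 1 * (n.choose i : ℝ) := (one_mul _).symm
            _ ≤ ((k : ℝ) ^ D * (1 / k) ^ i) * (n.choose i : ℝ) :=
                mul_le_mul_of_nonneg_right h1 (Nat.cast_nonneg _)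
            _ = (k : ℝ) ^ D * ((1 / k) ^ i * (n.choose i : ℝ)) := mul_assoc _ _ _
      _ = (k : ℝ) ^ D * ∑ i ∈ range (D + 1), (1 / k) ^ i * (n.choose i : ℝ) :=
          (Finset.mul_sum _ _ _).symm
      _ ≤ (k : ℝ) ^ D * ∑ i ∈ range (n + 1), (1 / k) ^ i * (n.choose i : ℝ) := by
          refine mul_le_mul_of_nonneg_left ?_ (by positivity)
          rw [← Finset.sum_filter_of_ne (p := fun i => i < n + 1)]
          · refine Finset.sum_le_sum_of_subset_of_nonneg (fun i hi => ?_) (fun i _ _ => by positivity)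
            exact Finset.mem_range.mpr (Finset.mem_filter.mp hi).2
          · intro i _ hne
            by_contra hcon
            apply hne
            rw [Nat.choose_eq_zero_of_lt (by omega)]
            simp
      _ = (k : ℝ) ^ D * (1 + 1 / k) ^ n := by
          rw [add_comm (1 : ℝ), add_pow]
          congr 1
          refine Finset.sum_congr rfl (fun i _ => ?_)
          rw [one_pow, mul_one]
  have hkD : (k : ℝ) ^ D = Real.exp (D * L) := by
    rw [Real.exp_nat_mul, hLdef, Real.exp_log hk0]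
  have hone : (1 + 1 / (k : ℝ)) ^ n ≤ Real.exp (n / k) := by
    have h1 : (1 : ℝ) + 1 / k ≤ Real.exp (1 / k) := by
      have := Real.add_one_le_exp (1 / (k : ℝ))
      linarith
    calc (1 + 1 / (k : ℝ)) ^ n ≤ Real.exp (1 / k) ^ n := pow_le_pow_left₀ (by positivity) h1 n
      _ = Real.exp (n / k) := by
          rw [← Real.exp_nat_mul]
          congr 1
          ring
  have htwo : (2 : ℝ) ≤ Real.exp 1 := by
    have := Real.add_one_le_exp (1 : ℝ)
    linarith
  calc 2 * (∑ i ∈ range (D + 1), (n.choose i : ℝ))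
      ≤ Real.exp 1 * (Real.exp (D * L) * Real.exp (n / k)) := by
        refine mul_le_mul htwo (hsum.trans ?_) (Finset.sum_nonneg fun i _ => Nat.cast_nonneg _)
          (Real.exp_pos 1).le
        rw [hkD]
        exact mul_le_mul_of_nonneg_left hone (Real.exp_pos _).le
    _ = Real.exp (1 + (D * L + n / k)) := by rw [← Real.exp_add, ← Real.exp_add]
    _ ≤ Real.exp (15 * L ^ 2 * n / k) := by
        apply Real.exp_le_exp.mpr
        set t : ℝ := n / k with ht
        have ht1 : 2 * L + 1 ≤ t := by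
          rw [ht, le_div_iff₀ hk0]
          linarith
        have h1 : 12 * L * n / k = 12 * L * t := by rw [ht]; ring
        have h2 : 15 * L ^ 2 * n / k = 15 * L ^ 2 * t := by rw [ht]; ring
        rw [h1] at hDle
        rw [h2]
        have h3 : (D : ℝ) * L ≤ (12 * L * t + t + 2) * L :=
          mul_le_mul_of_nonneg_right hDle (by linarith)
        have h4 : 0 ≤ t := by linarith
        have h5 : L ≤ L ^ 2 := by nlinarith
        have h6 : L * t ≤ L ^ 2 * t := mul_le_mul_of_nonneg_right h5 h4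
        have h7 : 1 * t ≤ L ^ 2 * t := mul_le_mul_of_nonneg_right (by nlinarith) h4
        nlinarith

/-- PROOF. `L^5 / 2 ≥ 15 L^2 + 1` for `k` large. -/
theorem trans_num : ∃ k0 : ℕ, ∀ k, k0 ≤ k → ∀ δ : ℝ, 0 < δ → ∃ n0 : ℕ, ∀ n : ℕ, n0 ≤ n →
    ((n : ℝ) + 1) * Real.exp (15 * Real.log k ^ 2 * n / k) *
      Real.exp (-(Real.log k ^ 5 * n / (2 * k))) ≤ δ := by
  refine ⟨81, fun k hk δ hδ => ⟨⌈4 * (k : ℝ) ^ 2 / δ⌉₊ + 1, fun n hn => ?_⟩⟩
  have hk0 : (0 : ℝ) < k := by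
    have : 0 < k := by omega
    exact_mod_cast this
  have hL : 4 ≤ Real.log k := by
    have h1 : Real.log ((3 : ℕ) : ℝ) * 4 = Real.log ((81 : ℕ) : ℝ) := by
      rw [show ((81 : ℕ) : ℝ) = ((3 : ℕ) : ℝ) ^ 4 by norm_num, Real.log_pow]
      push_cast
      ring
    have h2 := NumG_one_le_log (k := 3) le_rfl
    have h3 : Real.log ((81 : ℕ) : ℝ) ≤ Real.log k :=
      Real.log_le_log (by norm_num) (by exact_mod_cast hk)
    linarith
  set L := Real.log k with hLdef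
  have hn1 : (1 : ℝ) ≤ n := by
    have : 1 ≤ n := by omega
    exact_mod_cast this
  have hnδ : 4 * (k : ℝ) ^ 2 ≤ δ * n := by
    have h1 : 4 * (k : ℝ) ^ 2 / δ ≤ n := by
      refine (Nat.le_ceil _).trans ?_
      have : ⌈4 * (k : ℝ) ^ 2 / δ⌉₊ ≤ n := by omega
      exact_mod_cast this
    rw [div_le_iff₀ hδ] at h1
    linarith
  set t : ℝ := n / k with ht
  have ht0 : 0 ≤ t := by positivity
  have h1 : 15 * L ^ 2 * n / k = 15 * L ^ 2 * t := by rw [ht]; ring
  have h2 : L ^ 5 * n / (2 * k) = L ^ 5 / 2 * t := by rw [ht]; field_simp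
  rw [h1, h2, mul_assoc, ← Real.exp_add]
  have h3 : 15 * L ^ 2 + 1 ≤ L ^ 5 / 2 := by
    have h4 : (4 : ℝ) ^ 3 ≤ L ^ 3 := pow_le_pow_left₀ (by norm_num) hL 3
    have h5 : (4 : ℝ) ^ 2 ≤ L ^ 2 := pow_le_pow_left₀ (by norm_num) hL 2
    have h6 : L ^ 5 = L ^ 3 * L ^ 2 := by ring
    rw [h6]
    nlinarith [mul_le_mul_of_nonneg_right h4 (show (0 : ℝ) ≤ L ^ 2 by positivity)]
  have h7 : 15 * L ^ 2 * t + -(L ^ 5 / 2 * t) ≤ -t := by
    nlinarith [mul_le_mul_of_nonneg_right h3 ht0]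
  have h8 : Real.exp (15 * L ^ 2 * t + -(L ^ 5 / 2 * t)) ≤ Real.exp (-t) :=
    Real.exp_le_exp.mpr h7
  refine (mul_le_mul_of_nonneg_left h8 (by positivity)).trans ?_
  rw [Real.exp_neg, ← div_eq_mul_inv, div_le_iff₀ (Real.exp_pos t)]
  have h9 := Real.quadratic_le_exp_of_nonneg ht0
  have h10 : (n : ℝ) ^ 2 / (2 * k ^ 2) ≤ Real.exp t := by
    have h11 : (n : ℝ) ^ 2 / (2 * k ^ 2) = t ^ 2 / 2 := by
      rw [ht]
      field_simp
    rw [h11]
    linarith
  calc (n : ℝ) + 1 ≤ 2 * n := by linarith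
    _ = 4 * (k : ℝ) ^ 2 * n / (2 * k ^ 2) := by
        field_simp
        ring
    _ ≤ δ * n * n / (2 * k ^ 2) := by
        apply div_le_div_of_nonneg_right _ (by positivity)
        exact mul_le_mul_of_nonneg_right hnδ (by linarith)
    _ = δ * ((n : ℝ) ^ 2 / (2 * k ^ 2)) := by ring
    _ ≤ δ * Real.exp t := mul_le_mul_of_nonneg_left h10 hδ.le

/-- `20 ln ln k / ln k → 0` -/
theorem eps_tendsto :
    Filter.Tendsto (fun k : ℕ => 20 * Real.log (Real.log k) / Real.log k) Filter.atTop (nhds 0) := by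
  have h1 : Filter.Tendsto (fun x : ℝ => Real.log x / x) Filter.atTop (nhds 0) :=
    Real.isLittleO_log_id_atTop.tendsto_div_nhds_zero
  have h2 : Filter.Tendsto (fun k : ℕ => Real.log (k : ℝ)) Filter.atTop Filter.atTop :=
    Real.tendsto_log_atTop.comp tendsto_natCast_atTop_atTop
  have h3 := (h1.comp h2).const_mul (20 : ℝ)
  rw [mul_zero] at h3
  refine h3.congr (fun k => ?_)
  simp only [Function.comp]
  ring

/-- the bound of the problem implies `HM` -/
theorem hm_of {n k m : ℕ} (hk : 3 ≤ k)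
    (h : (m : ℝ) ≤ (1 - 20 * Real.log (Real.log k) / Real.log k) * (2 ^ k / k * Real.log k) * n) :
    HM n k m := by
  have hk0 : (0 : ℝ) < k := by
    have : 0 < k := by omega
    exact_mod_cast this
  have hL := NumG_one_le_log hk
  have hL0 : Real.log k ≠ 0 := by linarith
  have h1 := mul_le_mul_of_nonneg_right h hk0.le
  refine h1.trans (le_of_eq ?_)
  field_simp

/-- `ll n ≤ 3 ln n` for `n ≥ 3` -/
theorem ll_le_log {n : ℕ} (hn : 3 ≤ n) : (ll n : ℝ) ≤ 3 * Real.log n := by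
  have hL := NumG_one_le_log hn
  have h1 : (Nat.log 2 n : ℝ) ≤ Real.logb 2 n := by
    have := Real.natLog_le_logb n 2
    exact_mod_cast this
  have h2 : Real.logb 2 n ≤ 2 * Real.log n := by
    rw [Real.logb, div_le_iff₀ (Real.log_pos (by norm_num))]
    have := Real.log_two_gt_d9
    nlinarith
  rw [ll]
  push_cast
  linarith

end GC
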