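import Pool.Agent.W_bd7f91F_h12.E4s
import Pool.Agent.W_bd7f91F_h12.DomL
import Pool.Agent.W_bd7f91F_h12.NumF
import Pool.Agent.W_bd7f91F_h12.NumG
import Pool.Agent.W_bd7f91F_h12.GlobP

/-! # Uniform law -/

set_option autoImplicit false

open Finset
open scoped Classical

namespace GC

/-- a formula is given by the slots and the patterns -/
def MainA_eqv (n k m : ℕ) : (Pos n k m × Sgn k m) ≃ Fml n k m where
  toFun p := mkF p.1 p.2
  invFun Φ := (pos Φ, fun e => (Φ e).2)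
  left_inv := fun _ => rfl
  right_inv := fun _ => rfl

theorem MainA_sum {n k m : ℕ} (f : Fml n k m → ℝ) :
    ∑ v : Pos n k m, ∑ s : Sgn k m, f (mkF v s) = ∑ Φ : Fml n k m, f Φ := by
  rw [← Fintype.sum_prod_type' (fun (v : Pos n k m) (s : Sgn k m) => f (mkF v s))]
  exact Fintype.sum_equiv (MainA_eqv n k m) _ _ (fun _ => rfl)

theorem MainA_card {n k m : ℕ} (P : Asg n × Fml n k m → Prop) [DecidablePred P] :
    ((univ.filter P).card : ℝ) =
      ∑ v : Pos n k m, ∑ s : Sgn k m, ∑ σ : Asg n, if P (σ, mkF v s) then (1 : ℝ) else 0 := by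
  have h1 : ((univ.filter P).card : ℝ) = ∑ p : Asg n × Fml n k m, if P p then (1 : ℝ) else 0 := by
    rw [Finset.sum_boole]
  rw [h1, Fintype.sum_prod_type_right, ← MainA_sum
    (fun Φ => ∑ σ : Asg n, if P (σ, Φ) then (1 : ℝ) else 0)]

/-- one formula -/
theorem MainA_one {n k m : ℕ} (v : Pos n k m) (s : Sgn k m) (l b c1 c2 : ℕ) (Z0 : ℝ)
    (hZ0 : 0 < Z0) :
    (if Inj v ∧ E1 v l ∧ Z0 ≤ ((SolF (mkF v s)).card : ℝ) then
        (((SolF (mkF v s)).filter (fun σ => ∃ t, t ≤ n ∧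
          ¬ NoWit (mkF v s) (fin (mkF v s) (etat t σ)) l c1 c2)).card : ℝ) /
            ((SolF (mkF v s)).card : ℝ) else 0) ≤
      ∑ t ∈ range (n + 1), ((∑ σ : Asg n, lawU v s σ *
        (if Inj v ∧ E1 v l ∧ Glob (mkF v s) (etat t σ) l b ∧
          ¬ NoWit (mkF v s) (fin (mkF v s) (etat t σ)) l c1 c2 then (1 : ℝ) else 0)) +
        (∑ σ : Asg n, if σ ∈ SolF (mkF v s) ∧ ¬ Glob (mkF v s) (etat t σ) l b then (1 : ℝ)
          else 0) / Z0) := by
  have hlaw : ∀ σ, 0 ≤ lawU v s σ := by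
    intro σ
    unfold lawU
    split_ifs
    · positivity
    · exact le_refl _
  split_ifs with h
  · obtain ⟨h1, h2, h3⟩ := h
    set N : ℝ := ((SolF (mkF v s)).card : ℝ) with hN
    have hNpos : 0 < N := lt_of_lt_of_le hZ0 h3
    have e1 : (((SolF (mkF v s)).filter (fun σ => ∃ t, t ≤ n ∧
          ¬ NoWit (mkF v s) (fin (mkF v s) (etat t σ)) l c1 c2)).card : ℝ) / N ≤
        ∑ t ∈ range (n + 1), ∑ σ : Asg n, lawU v s σ *
          (if ¬ NoWit (mkF v s) (fin (mkF v s) (etat t σ)) l c1 c2 then (1 : ℝ) else 0) := by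
      rw [Finset.sum_comm]
      have e2 : (((SolF (mkF v s)).filter (fun σ => ∃ t, t ≤ n ∧
          ¬ NoWit (mkF v s) (fin (mkF v s) (etat t σ)) l c1 c2)).card : ℝ) / N =
          ∑ σ ∈ (SolF (mkF v s)).filter (fun σ => ∃ t, t ≤ n ∧
          ¬ NoWit (mkF v s) (fin (mkF v s) (etat t σ)) l c1 c2), 1 / N := by
        rw [Finset.sum_const, nsmul_eq_mul]
        ring
      rw [e2]
      refine le_trans (Finset.sum_le_sum (g := fun σ => ∑ t ∈ range (n + 1), lawU v s σ *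
          (if ¬ NoWit (mkF v s) (fin (mkF v s) (etat t σ)) l c1 c2 then (1 : ℝ) else 0)) ?_)
        (Finset.sum_le_sum_of_subset_of_nonneg (Finset.subset_univ _) ?_)
      · intro σ hσ
        obtain ⟨hσ1, t, ht, hW⟩ := Finset.mem_filter.1 hσ
        have hle : lawU v s σ *
          (if ¬ NoWit (mkF v s) (fin (mkF v s) (etat t σ)) l c1 c2 then (1 : ℝ) else 0) ≤
          ∑ t ∈ range (n + 1), lawU v s σ *
          (if ¬ NoWit (mkF v s) (fin (mkF v s) (etat t σ)) l c1 c2 then (1 : ℝ) else 0) := by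
          apply Finset.single_le_sum (f := fun t => lawU v s σ *
          (if ¬ NoWit (mkF v s) (fin (mkF v s) (etat t σ)) l c1 c2 then (1 : ℝ) else 0))
          · intro t' _
            apply mul_nonneg (hlaw σ)
            split_ifs <;> norm_num
          · rw [mem_range]
            omega
        refine le_trans ?_ hle
        rw [if_pos hW, mul_one]
        unfold lawU
        rw [if_pos hσ1]
      · intro σ _ _
        apply Finset.sum_nonneg
        intro t _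
        apply mul_nonneg (hlaw σ)
        split_ifs <;> norm_num
    refine e1.trans ?_
    apply Finset.sum_le_sum
    intro t _
    rw [Finset.sum_div, ← Finset.sum_add_distrib]
    apply Finset.sum_le_sum
    intro σ _
    by_cases hG : Glob (mkF v s) (etat t σ) l b
    · have : (if ¬ NoWit (mkF v s) (fin (mkF v s) (etat t σ)) l c1 c2 then (1 : ℝ) else 0) =
          (if Inj v ∧ E1 v l ∧ Glob (mkF v s) (etat t σ) l b ∧
          ¬ NoWit (mkF v s) (fin (mkF v s) (etat t σ)) l c1 c2 then (1 : ℝ) else 0) := by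
        by_cases hW : NoWit (mkF v s) (fin (mkF v s) (etat t σ)) l c1 c2
        · simp [hW]
        · simp [hW, h1, h2, hG]
      rw [this]
      have h0 : (0 : ℝ) ≤ (if σ ∈ SolF (mkF v s) ∧ ¬ Glob (mkF v s) (etat t σ) l b then (1 : ℝ)
          else 0) / Z0 := by
        apply div_nonneg _ hZ0.le
        split_ifs <;> norm_num
      linarith
    · have h0 : (0 : ℝ) ≤ lawU v s σ *
        (if Inj v ∧ E1 v l ∧ Glob (mkF v s) (etat t σ) l b ∧
          ¬ NoWit (mkF v s) (fin (mkF v s) (etat t σ)) l c1 c2 then (1 : ℝ) else 0) := by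
        apply mul_nonneg (hlaw σ)
        split_ifs <;> norm_num
      have h5 : lawU v s σ *
          (if ¬ NoWit (mkF v s) (fin (mkF v s) (etat t σ)) l c1 c2 then (1 : ℝ) else 0) ≤
          lawU v s σ := by
        have : (if ¬ NoWit (mkF v s) (fin (mkF v s) (etat t σ)) l c1 c2 then (1 : ℝ) else 0) ≤ 1 := by
          split_ifs <;> norm_num
        calc _ ≤ lawU v s σ * 1 := mul_le_mul_of_nonneg_left this (hlaw σ)
          _ = _ := mul_one _
      have h6 : lawU v s σ ≤ (if σ ∈ SolF (mkF v s) ∧ ¬ Glob (mkF v s) (etat t σ) l b then (1 : ℝ)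
          else 0) / Z0 := by
        unfold lawU
        by_cases hσ : σ ∈ SolF (mkF v s)
        · rw [if_pos hσ, if_pos ⟨hσ, hG⟩]
          exact one_div_le_one_div_of_le hZ0 h3
        · rw [if_neg hσ, if_neg (fun hh => hσ hh.1)]
          simp
      linarith
  · apply Finset.sum_nonneg
    intro t _
    apply add_nonneg
    · apply Finset.sum_nonneg
      intro σ _
      apply mul_nonneg (hlaw σ)
      split_ifs <;> norm_num
    · apply div_nonneg _ hZ0.le
      apply Finset.sum_nonneg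
      intro σ _
      split_ifs <;> norm_num

theorem MainA_num (δ : ℝ) (hδ : 0 < δ) : ∃ n0 : ℕ, ∀ n : ℕ, n0 ≤ n →
    ((n : ℝ) + 1) * (1 / (n : ℝ) ^ 2) ≤ δ := by
  obtain ⟨N, hN⟩ := exists_nat_gt (2 / δ)
  refine ⟨max 1 N, fun n hn => ?_⟩
  have h1 : 1 ≤ n := (le_max_left _ _).trans hn
  have h2 : N ≤ n := (le_max_right _ _).trans hn
  have h1' : (1 : ℝ) ≤ n := by exact_mod_cast h1
  have h2' : (N : ℝ) ≤ n := by exact_mod_cast h2
  have h3 : 2 / δ < n := hN.trans_le h2'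
  have h4 : 2 < n * δ := by
    rw [div_lt_iff₀ hδ] at h3
    exact h3
  rw [mul_one_div, div_le_iff₀ (by positivity)]
  nlinarith

/-- UNIFORM LAW, event E4 for all `t`.
PROOF. `∑_(t ≤ n) ∑_(v,s,σ) lawU * [Inj, E1, |SolF| ≥ Z0, ¬ NoWit]`, `Z0 = 2^n exp(-15 L^2 n/k)`. Split by GLOB for `etat t σ`: if it holds,
`e4_sum` with `dom_U`, `e4_num`: at most `1/n^2` for each `t`. If it fails: `lawU ≤ 1/Z0` on the solutions, so the sum is at most
`glob_planted / Z0 ≤ exp(15 L^2 n/k - L^5 n/(2k)) n^(km) 2^(km)`; `trans_num`. -/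
theorem unif_wit : ∃ k0 : ℕ, ∀ k, k0 ≤ k → ∀ C1 : ℕ, ∃ C2 : ℕ, C1 ≤ C2 ∧ ∀ δ : ℝ, 0 < δ →
    ∃ n0 : ℕ, ∀ n, n0 ≤ n → ∀ m, HM n k m →
    ∑ v : Pos n k m, ∑ s : Sgn k m,
      (if Inj v ∧ E1 v ((ll n) ^ 3) ∧
        2 ^ n * Real.exp (-(15 * Real.log k ^ 2 * n / k)) ≤ ((SolF (mkF v s)).card : ℝ) then
        (((SolF (mkF v s)).filter (fun σ => ∃ t, t ≤ n ∧
          ¬ NoWit (mkF v s) (fin (mkF v s) (etat t σ)) ((ll n) ^ 3) (C1 * ll n)
            (C2 * ll n))).card : ℝ) / ((SolF (mkF v s)).card : ℝ) else 0) ≤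
      δ * ((n : ℝ) ^ (k * m) * 2 ^ (k * m)) := by
  obtain ⟨k1, h1⟩ := e4_num
  obtain ⟨k2, h2⟩ := glob_planted
  obtain ⟨k3, h3⟩ := trans_num
  obtain ⟨k4, h4⟩ := gg_bounds
  refine ⟨max 66 (max k1 (max k2 (max k3 k4))), fun k hk C1 => ?_⟩
  have hk66 : 66 ≤ k := by omega
  obtain ⟨C2, hC12, n1, hn1⟩ := h1 k (by omega) C1
  obtain ⟨n2, hn2⟩ := h2 k (by omega)
  obtain ⟨hg0, hg1, hg2⟩ := h4 k (by omega)
  refine ⟨C2, hC12, fun δ hδ => ?_⟩
  obtain ⟨n3, hn3⟩ := h3 k (by omega) (δ / 2) (by positivity)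
  obtain ⟨n4, hn4⟩ := MainA_num (δ / 2) (by positivity)
  refine ⟨max 1 (max n1 (max n2 (max n3 n4))), fun n hn m hm => ?_⟩
  have hnpos : 0 < n := by omega
  have a1 := hn1 n (by omega) m hm
  have a2 := hn2 n (by omega) m hm
  have a3 := hn3 n (by omega)
  have a4 := hn4 n (by omega)
  set M : ℝ := (n : ℝ) ^ (k * m) * 2 ^ (k * m) with hM
  have hMpos : 0 < M := by positivity
  set Z0 : ℝ := 2 ^ n * Real.exp (-(15 * Real.log k ^ 2 * n / k)) with hZ0
  have hZ0pos : 0 < Z0 := by positivity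
  have key : ∀ t, (∑ v : Pos n k m, ∑ s : Sgn k m, ∑ σ : Asg n,
      if σ ∈ SolF (mkF v s) ∧ ¬ Glob (mkF v s) (etat t σ) ((ll n) ^ 3) (bb n k) then (1 : ℝ)
          else 0) ≤ 2 ^ n * M * Real.exp (-(Real.log k ^ 5 * n / (2 * k))) := by
    intro t
    have h5 := a2 t
    rw [MainA_card (fun p : Asg n × Fml n k m => p.1 ∈ SolF p.2 ∧
      ¬ Glob p.2 (etat t p.1) ((ll n) ^ 3) (bb n k))] at h5
    refine h5.trans (le_of_eq ?_)
    rw [hM]
    ring
  calc _ ≤ ∑ v : Pos n k m, ∑ s : Sgn k m, ∑ t ∈ range (n + 1), ((∑ σ : Asg n, lawU v s σ *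
        (if Inj v ∧ E1 v ((ll n) ^ 3) ∧ Glob (mkF v s) (etat t σ) ((ll n) ^ 3) (bb n k) ∧
          ¬ NoWit (mkF v s) (fin (mkF v s) (etat t σ)) ((ll n) ^ 3) (C1 * ll n) (C2 * ll n)
          then (1 : ℝ) else 0)) +
        (∑ σ : Asg n, if σ ∈ SolF (mkF v s) ∧
          ¬ Glob (mkF v s) (etat t σ) ((ll n) ^ 3) (bb n k) then (1 : ℝ) else 0) / Z0) := by
        apply Finset.sum_le_sum
        intro v _
        apply Finset.sum_le_sum
        intro s _
        exact MainA_one v s _ _ _ _ Z0 hZ0pos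
    _ = ∑ t ∈ range (n + 1), ((∑ v : Pos n k m, ∑ s : Sgn k m, ∑ σ : Asg n, lawU v s σ *
        (if Inj v ∧ E1 v ((ll n) ^ 3) ∧ Glob (mkF v s) (etat t σ) ((ll n) ^ 3) (bb n k) ∧
          ¬ NoWit (mkF v s) (fin (mkF v s) (etat t σ)) ((ll n) ^ 3) (C1 * ll n) (C2 * ll n)
          then (1 : ℝ) else 0)) +
        (∑ v : Pos n k m, ∑ s : Sgn k m, ∑ σ : Asg n, if σ ∈ SolF (mkF v s) ∧
          ¬ Glob (mkF v s) (etat t σ) ((ll n) ^ 3) (bb n k) then (1 : ℝ) else 0) / Z0) := by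
        refine (Finset.sum_congr rfl (fun v _ => Finset.sum_comm)).trans ?_
        rw [Finset.sum_comm]
        apply Finset.sum_congr rfl
        intro t _
        simp only [Finset.sum_add_distrib, Finset.sum_div]
    _ ≤ ∑ t ∈ range (n + 1), ((1 / (n : ℝ) ^ 2) * M +
        (2 ^ n * M * Real.exp (-(Real.log k ^ 5 * n / (2 * k)))) / Z0) := by
        apply Finset.sum_le_sum
        intro t _
        apply add_le_add
        · refine (e4_sum hnpos hk66 lawU dom_U t ((ll n) ^ 3) (bb n k) (C1 * ll n) (C2 * ll n)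
            (gg k) hg0.le hg1 (hg2 n).2 (Nat.mul_le_mul_right _ hC12)).trans ?_
          exact mul_le_mul_of_nonneg_right a1 hMpos.le
        · exact div_le_div_of_nonneg_right (key t) hZ0pos.le
    _ = (((n : ℝ) + 1) * (1 / (n : ℝ) ^ 2)) * M +
        (((n : ℝ) + 1) * Real.exp (15 * Real.log k ^ 2 * n / k) *
          Real.exp (-(Real.log k ^ 5 * n / (2 * k)))) * M := by
        rw [Finset.sum_const, card_range, nsmul_eq_mul]
        have hinv : (2 : ℝ) ^ n / Z0 = Real.exp (15 * Real.log k ^ 2 * n / k) := by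
          rw [hZ0, Real.exp_neg]
          have := Real.exp_pos (15 * Real.log k ^ 2 * n / k)
          field_simp
        have : (2 : ℝ) ^ n * M * Real.exp (-(Real.log k ^ 5 * n / (2 * k))) / Z0 =
            (2 ^ n / Z0) * M * Real.exp (-(Real.log k ^ 5 * n / (2 * k))) := by ring
        rw [this, hinv]
        push_cast
        ring
    _ ≤ δ / 2 * M + δ / 2 * M := by
        apply add_le_add
        · exact mul_le_mul_of_nonneg_right a4 hMpos.le
        · exact mul_le_mul_of_nonneg_right a3 hMpos.le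
    _ = δ * M := by ring

end GC
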