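import Pool.Agent.W_bd7f91F_h12.PatchC

/-! # Hall's theorem and the patch -/

set_option autoImplicit false

open Finset
open scoped Classical

namespace GC

variable {n k m : ℕ}

/-- the patches agree at the designated variables of a far clause -/
theorem PatchD_aux (Φ : Fml n k m) (S S' : St n) (B : Finset (Fin n))
    (h : ∀ y, y ∉ B → S.1 y = S'.1 y ∧ (y ∈ S.2 ↔ y ∈ S'.2)) {y : Fin n} {e : Fin m}
    (he : e ∈ TT Φ S) (hy : y ∈ DD Φ S e)
    (h1 : y ∉ (nonfar Φ S (NB (pos Φ) B)).biUnion (DD Φ S))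
    (h2 : y ∉ (nonfar Φ S' (NB (pos Φ) B)).biUnion (DD Φ S')) :
    patch Φ S y = patch Φ S' y := by
  have h' : ∀ y, y ∉ B → S'.1 y = S.1 y ∧ (y ∈ S'.2 ↔ y ∈ S.2) := fun y hy =>
    ⟨(h y hy).1.symm, (h y hy).2.symm⟩
  have hf : ¬ (VS (pos Φ) (cmp (pos Φ) (DD Φ S) (TT Φ S) e) ∩ NB (pos Φ) B).Nonempty := by
    intro hcon
    exact h1 (mem_biUnion.2 ⟨e, mem_filter.2 ⟨he, hcon⟩, hy⟩)
  have hmiss : ∀ a ∈ cmp (pos Φ) (DD Φ S) (TT Φ S) e, ¬ (VV (pos Φ) a ∩ NB (pos Φ) B).Nonempty := by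
    intro a ha hcon
    obtain ⟨u, hu⟩ := hcon
    obtain ⟨hu1, hu2⟩ := mem_inter.1 hu
    exact hf ⟨u, mem_inter.2 ⟨mem_biUnion.2 ⟨a, ha, hu1⟩, hu2⟩⟩
  obtain ⟨hsub, heT'⟩ := far_sub Φ S S' B h he hf
  have hself : e ∈ cmp (pos Φ) (DD Φ S) (TT Φ S) e := cmp_self _ _ he
  have hDe : DD Φ S e = DD Φ S' e := DD_congr Φ S S' B h (hmiss e hself)
  have hy' : y ∈ DD Φ S' e := hDe ▸ hy
  have hf' : ¬ (VS (pos Φ) (cmp (pos Φ) (DD Φ S') (TT Φ S') e) ∩ NB (pos Φ) B).Nonempty := by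
    intro hcon
    exact h2 (mem_biUnion.2 ⟨e, mem_filter.2 ⟨heT', hcon⟩, hy'⟩)
  obtain ⟨hsub', -⟩ := far_sub Φ S' S B h' heT' hf'
  have hκ : cmp (pos Φ) (DD Φ S) (TT Φ S) e = cmp (pos Φ) (DD Φ S') (TT Φ S') e :=
    Subset.antisymm hsub hsub'
  have hDr : Dr (DD Φ S) (cmp (pos Φ) (DD Φ S) (TT Φ S) e) =
      Dr (DD Φ S') (cmp (pos Φ) (DD Φ S') (TT Φ S') e) := by
    rw [← hκ]
    funext a
    unfold Dr
    by_cases ha : a ∈ cmp (pos Φ) (DD Φ S) (TT Φ S) e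
    · rw [if_pos ha, if_pos ha, DD_congr Φ S S' B h (hmiss a ha)]
    · rw [if_neg ha, if_neg ha]
  rw [patch_on Φ S he hy, patch_on Φ S' heT' hy', hDr, hκ]

/-- FAR LEMMA.
PROOF. Let `y` be a variable outside `B`, `(nonfar S).biUnion (DD Φ S)` and `(nonfar S').biUnion (DD Φ S')`; claim: the patches agree at `y`.
If `y ∈ DD Φ S e` with `e ∈ TT Φ S`: `e` is far; by `far_sub` `e ∈ TT Φ S'`, `DD Φ S' e = DD Φ S e` contains `y`, so `e` is not in nonfar `S'`,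
and by `far_sub` in both directions the components of `e` are equal, the sets `DD` agree on it, so `acan` is the same (`patch_on`).
Symmetric if `y ∈ DD Φ S' e`. Otherwise `patch_off` for both, and `y ∉ B`. The number of exceptional `y` is at most
`|B| + 3 |nonfar S| + 3 |nonfar S'|` (`DD_card`). -/
theorem far_dist (hk : 3 ≤ k) (Φ : Fml n k m) (S S' : St n) (B : Finset (Fin n))
    (h : ∀ y, y ∉ B → S.1 y = S'.1 y ∧ (y ∈ S.2 ↔ y ∈ S'.2)) :
    hammingDist (patch Φ S) (patch Φ S') ≤ B.card +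
      3 * (nonfar Φ S (NB (pos Φ) B)).card + 3 * (nonfar Φ S' (NB (pos Φ) B)).card := by
  have h' : ∀ y, y ∉ B → S'.1 y = S.1 y ∧ (y ∈ S'.2 ↔ y ∈ S.2) := fun y hy =>
    ⟨(h y hy).1.symm, (h y hy).2.symm⟩
  have hsub : (univ.filter fun y => patch Φ S y ≠ patch Φ S' y) ⊆
      B ∪ (nonfar Φ S (NB (pos Φ) B)).biUnion (DD Φ S) ∪
        (nonfar Φ S' (NB (pos Φ) B)).biUnion (DD Φ S') := by
    intro y hy
    have hne := (mem_filter.1 hy).2
    by_contra hcon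
    rw [mem_union, mem_union, not_or, not_or] at hcon
    obtain ⟨⟨hB, h1⟩, h2⟩ := hcon
    apply hne
    by_cases ha : y ∈ (TT Φ S).biUnion (DD Φ S)
    · obtain ⟨e, he, hye⟩ := mem_biUnion.1 ha
      exact PatchD_aux Φ S S' B h he hye h1 h2
    · by_cases ha' : y ∈ (TT Φ S').biUnion (DD Φ S')
      · obtain ⟨e, he, hye⟩ := mem_biUnion.1 ha'
        exact (PatchD_aux Φ S' S B h' he hye h2 h1).symm
      · rw [patch_off Φ S ha, patch_off Φ S' ha', (h y hB).1]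
  have hcard : ∀ (S : St n) (T : Finset (Fin m)), (T.biUnion (DD Φ S)).card ≤ 3 * T.card := by
    intro S T
    refine (card_biUnion_le_card_mul _ _ 3 fun e _ => DD_card hk Φ S e).trans ?_
    rw [mul_comm]
  have h3 := (card_le_card hsub).trans ((card_union_le _ _).trans
    (Nat.add_le_add_right (card_union_le _ _) _))
  have h4 := hcard S (nonfar Φ S (NB (pos Φ) B))
  have h5 := hcard S' (nonfar Φ S' (NB (pos Φ) B))
  have h6 : hammingDist (patch Φ S) (patch Φ S') =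
      (univ.filter fun y => patch Φ S y ≠ patch Φ S' y).card := rfl
  rw [h6]
  omega

end GC
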