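import Pool.Agent.W_bd7f91F_h12.NonA
import Pool.Agent.W_bd7f91F_h12.PatchD
import Pool.Agent.W_bd7f91F_h12.InflA
import Pool.Agent.W_bd7f91F_h12.Act

/-! # The path from a solution to the canonical solution -/

set_option autoImplicit false

open Finset
open scoped Classical

namespace GC

variable {n k m : ℕ}

/-- one step of a `D`-path of solutions -/
def StepF (Φ : Fml n k m) (D : ℕ) (a b : Asg n) : Prop :=
  a ∈ SolF Φ ∧ b ∈ SolF Φ ∧ hammingDist a b ≤ D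

theorem etat_zero (σ : Asg n) : etat 0 σ = σ := by
  funext u
  simp [etat]

theorem etat_n (σ : Asg n) : etat n σ = fun _ => false := by
  funext u
  simp [etat, u.2]

/-- ONE STEP.
PROOF. `η = etat t σ`, `η' = etat (t + 1) σ` differ at most at `z = ⟨t, _⟩`. By `influence` the final states agree off `B = Uset (pos Φ) ∅ z m`,
`B = insert z (VS G)` with `G` from `uset_gen`, `|G| ≤ 2 |B| ≤ 2 bU` (`E3`). `far_dist` and `nonfar_small` for both final states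
(`fin_viol_marked`). -/
theorem path_step (hk : 3 ≤ k) {Φ : Fml n k m} {l c1 c2 c3 L bU : ℕ} (hinj : Inj (pos Φ))
    (hE1 : E1 (pos Φ) l) (hE2 : E2 (pos Φ) l c3 L) (hE3 : E3 (pos Φ) bU)
    (hl : 1 + c3 * (1 + L) * (c3 * (c2 + L)) ≤ l) (hL : 1 ≤ L) (hc3 : 1 ≤ c3)
    (hl2 : c1 + 2 * c2 ≤ l) (hc1 : 2 * bU + c3 * (2 * bU + L) ≤ c1) (σ : Asg n) (t : ℕ)
    (ht : t < n) (hW : NoWit Φ (fin Φ (etat t σ)) l c1 c2)
    (hW' : NoWit Φ (fin Φ (etat (t + 1) σ)) l c1 c2) :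
    hammingDist (patch Φ (fin Φ (etat t σ))) (patch Φ (fin Φ (etat (t + 1) σ))) ≤
      bU + 6 * (c3 * (c1 + c2 + L)) := by
  have hη : ∀ y : Fin n, y ≠ ⟨t, ht⟩ → etat t σ y = etat (t + 1) σ y := by
    intro y hy
    have h1 : y.val ≠ t := fun h => hy (Fin.ext h)
    unfold etat
    by_cases h2 : y.val < t
    · rw [if_pos h2, if_pos (by omega)]
    · rw [if_neg h2, if_neg (by omega)]
  obtain ⟨G, hG, hU, hGc⟩ := uset_gen (pos Φ) (⟨t, ht⟩ : Fin n)
  have hcard := hE3 ⟨t, ht⟩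
  have hG2 : G.card ≤ 2 * bU := by omega
  have hGc1 : G.card + c3 * (G.card + L) ≤ c1 := by
    refine le_trans ?_ hc1
    exact Nat.add_le_add hG2 (Nat.mul_le_mul_left c3 (by omega))
  have hag : ∀ y, y ∉ insert (⟨t, ht⟩ : Fin n) (VS (pos Φ) G) →
      (fin Φ (etat t σ)).1 y = (fin Φ (etat (t + 1) σ)).1 y ∧
        (y ∈ (fin Φ (etat t σ)).2 ↔ y ∈ (fin Φ (etat (t + 1) σ)).2) := by
    intro y hy
    rw [← hU] at hy
    exact influence Φ ⟨t, ht⟩ _ _ hη m y hy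
  have h1 := far_dist hk Φ _ _ _ hag
  have h2 := nonfar_small hk hinj (fun e he j => fin_viol_marked Φ (etat t σ) he j) hE1 hE2 hW hl
    hL hc3 hl2 ⟨t, ht⟩ G hG hGc1
  have h3 := nonfar_small hk hinj (fun e he j => fin_viol_marked Φ (etat (t + 1) σ) he j) hE1 hE2
    hW' hl hL hc3 hl2 ⟨t, ht⟩ G hG hGc1
  have h4 : (insert (⟨t, ht⟩ : Fin n) (VS (pos Φ) G)).card ≤ bU := by
    rw [← hU]; exact hcard
  omega

/-- the run from a solution does nothing -/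
theorem fin_of_sol {Φ : Fml n k m} {σ : Asg n} (h : σ ∈ SolF Φ) : fin Φ σ = (σ, ∅) := by
  have hs : ∀ e, ¬ Viol (Φ e) σ := (mem_filter.1 h).2
  have h1 : ∀ i : ℕ, i ≤ m → arun Φ σ i = (σ, ∅) := by
    intro i
    induction i with
    | zero => intro _; rfl
    | succ i ih =>
      intro hi
      have h2 := Act_step Φ σ ⟨i, hi⟩
      have h3 : arun Φ σ i = (σ, ∅) := ih (by omega)
      simp only at h2
      rw [h2, h3, if_neg (hs _)]
  exact h1 m le_rfl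

/-- THE PATH.
PROOF. `p t = patch Φ (fin Φ (etat t σ))`, `t = 0, ..., n`; `p t ∈ SolF Φ` (`patch_sol`, `comp_small`, `c3 (c2 + L) ≤ l`); `p 0 = σ`
(`etat_zero`, `fin_of_sol`, `patch_of_sol`); `p n` = the patch of the run from the false assignment; `path_step`. -/
theorem path (hk : 3 ≤ k) {Φ : Fml n k m} {l c1 c2 c3 L bU : ℕ} (hinj : Inj (pos Φ))
    (hE1 : E1 (pos Φ) l) (hE2 : E2 (pos Φ) l c3 L) (hE3 : E3 (pos Φ) bU)
    (hl : 1 + c3 * (1 + L) * (c3 * (c2 + L)) ≤ l) (hL : 1 ≤ L) (hc3 : 1 ≤ c3)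
    (hl2 : c1 + 2 * c2 ≤ l) (hc1 : 2 * bU + c3 * (2 * bU + L) ≤ c1) (σ : Asg n)
    (hσ : σ ∈ SolF Φ) (hW : ∀ t, t ≤ n → NoWit Φ (fin Φ (etat t σ)) l c1 c2) :
    Relation.ReflTransGen (StepF Φ (bU + 6 * (c3 * (c1 + c2 + L)))) σ
      (patch Φ (fin Φ (fun _ => false))) ∧ patch Φ (fin Φ (fun _ => false)) ∈ SolF Φ := by
  have hcl : c3 * (c2 + L) ≤ l := by
    have h1 : 1 * (c3 * (c2 + L)) ≤ c3 * (1 + L) * (c3 * (c2 + L)) :=
      Nat.mul_le_mul_right _ (by nlinarith)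
    omega
  have hsol : ∀ t, t ≤ n → patch Φ (fin Φ (etat t σ)) ∈ SolF Φ := by
    intro t ht
    refine patch_sol hk Φ _ l hE1 fun e he => ?_
    exact (comp_small hk hinj (fun e he j => fin_viol_marked Φ (etat t σ) he j) hE1 hE2 (hW t ht)
      hl he).trans hcl
  have h0 : patch Φ (fin Φ (etat 0 σ)) = σ := by
    rw [etat_zero, fin_of_sol hσ]
    exact patch_of_sol Φ (σ, ∅) (mem_filter.1 hσ).2
  have hp : ∀ t, t ≤ n → Relation.ReflTransGen (StepF Φ (bU + 6 * (c3 * (c1 + c2 + L)))) σ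
      (patch Φ (fin Φ (etat t σ))) := by
    intro t
    induction t with
    | zero => intro _; rw [h0]
    | succ t ih =>
      intro ht
      refine (ih (by omega)).tail ⟨hsol t (by omega), hsol (t + 1) ht, ?_⟩
      exact path_step hk hinj hE1 hE2 hE3 hl hL hc3 hl2 hc1 σ t (by omega) (hW t (by omega))
        (hW (t + 1) ht)
  have h1 := hp n le_rfl
  have h2 := hsol n le_rfl
  rw [etat_n] at h1 h2
  exact ⟨h1, h2⟩

end GC
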