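import Pool.Agent.W_bd7f91F_h12.ZLc
import Pool.Agent.W_bd7f91F_h12.GeoA
import Pool.Agent.W_bd7f91F_h12.GeoC

/-! # Lower bound for the number of solutions -/

set_option autoImplicit false

open Finset
open scoped Classical

namespace GC

theorem ZLd_card_sign {n k m : ℕ} (P : Pos n k m → Prop) [DecidablePred P]
    [DecidablePred (fun p : Pos n k m × Sgn k m => P p.1)] :
    ((univ.filter (fun p : Pos n k m × Sgn k m => P p.1)).card : ℝ) =
      ((univ.filter P).card : ℝ) * 2 ^ (k * m) := by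
  have h : univ.filter (fun p : Pos n k m × Sgn k m => P p.1) =
      (univ.filter P) ×ˢ (univ : Finset (Sgn k m)) := by
    ext ⟨a, b⟩
    simp
  rw [h, Finset.card_product]
  have h2 : (univ : Finset (Sgn k m)).card = 2 ^ (k * m) := by
    simp [Sgn, ← pow_mul]
  rw [h2]
  push_cast
  ring

/-- Markov's inequality for pairs -/
theorem ZLd_markov {α β : Type} [Fintype α] [Fintype β] (Q : α × β → Prop) [DecidablePred Q]
    (R : β → Prop) [DecidablePred R] (a : ℝ) (ha : 0 < a)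
    (hR : ∀ y, R y → a ≤ ((univ.filter (fun x : α => Q (x, y))).card : ℝ)) (M : ℝ)
    (hM : ((univ.filter Q).card : ℝ) ≤ a * M) : ((univ.filter R).card : ℝ) ≤ M := by
  have h1 : ((univ.filter Q).card : ℝ) =
      ∑ y : β, ((univ.filter (fun x : α => Q (x, y))).card : ℝ) := by
    have e1 : ((univ.filter Q).card : ℝ) = ∑ p : α × β, if Q p then (1 : ℝ) else 0 := by
      rw [Finset.sum_boole]
    rw [e1, Fintype.sum_prod_type_right]
    apply Finset.sum_congr rfl
    intro y _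
    rw [Finset.sum_boole]
  have h2 : ((univ.filter R).card : ℝ) * a ≤ ((univ.filter Q).card : ℝ) := by
    rw [h1]
    calc ((univ.filter R).card : ℝ) * a = ∑ y ∈ univ.filter R, a := by
          rw [Finset.sum_const, nsmul_eq_mul]
      _ ≤ ∑ y ∈ univ.filter R, ((univ.filter (fun x : α => Q (x, y))).card : ℝ) := by
          apply Finset.sum_le_sum
          intro y hy
          exact hR y (Finset.mem_filter.1 hy).2
      _ ≤ _ := Finset.sum_le_sum_of_subset_of_nonneg (Finset.subset_univ _)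
          (fun y _ _ => Nat.cast_nonneg _)
  have h3 : ((univ.filter R).card : ℝ) * a ≤ M * a := by
    calc _ ≤ _ := h2
      _ ≤ a * M := hM
      _ = M * a := mul_comm _ _
  exact le_of_mul_le_mul_right h3 ha

/-- MANY SOLUTIONS.
PROOF. By `fail_M`, `e1_prob`, `e2_prob` (`δ/4` etc.) the number of `(v, s)` with `Inj v` for which fewer than half of all `η` are successful is at most
`δ n^(km) 2^(km)` (Markov). For the others `2^(n-1) ≤ |SolF| * ∑ ..` (`succ_count`), and `ball_num`. -/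
theorem many_sol : ∃ k0 : ℕ, ∀ k, k0 ≤ k → ∀ δ : ℝ, 0 < δ → ∃ n0 : ℕ, ∀ n, n0 ≤ n → ∀ m,
    HM n k m →
    ((univ.filter (fun p : Pos n k m × Sgn k m => Inj p.1 ∧
      ((SolF (mkF p.1 p.2)).card : ℝ) < 2 ^ n * Real.exp (-(15 * Real.log k ^ 2 * n / k)))).card :
      ℝ) ≤ δ * ((n : ℝ) ^ (k * m) * 2 ^ (k * m)) := by
  obtain ⟨k1, h1⟩ := fail_M
  obtain ⟨k2, h2⟩ := ball_num
  refine ⟨max 10 (max k1 k2), fun k hk δ hδ => ?_⟩
  have hk10 : 10 ≤ k := by omega
  have hk3 : 3 ≤ k := by omega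
  obtain ⟨c3, hc3, hE2⟩ := e2_prob hk10
  obtain ⟨C1, C2, hF⟩ := h1 k (by omega) c3 hc3
  obtain ⟨n1, hn1⟩ := e1_prob hk3 (δ / 3) (by positivity)
  obtain ⟨n2, hn2⟩ := hE2 (δ / 3) (by positivity)
  obtain ⟨n3, hn3⟩ := hF (δ / 6) (by positivity)
  obtain ⟨n4, hn4⟩ := h2 k (by omega)
  refine ⟨max n1 (max n2 (max n3 n4)), fun n hn m hm => ?_⟩
  have hmn : (m : ℝ) ≤ 2 ^ k * n := hm_le hk3 hm
  have a1 := hn1 n (by omega) m hmn
  have a2 := hn2 n (by omega) m hmn
  obtain ⟨hl, a3⟩ := hn3 n (by omega) m hm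
  have a4 := hn4 n (by omega)
  set M : ℝ := (n : ℝ) ^ (k * m) * 2 ^ (k * m) with hM
  set B1 := univ.filter (fun p : Pos n k m × Sgn k m => ¬ E1 p.1 ((ll n) ^ 3)) with hB1
  set B2 := univ.filter (fun p : Pos n k m × Sgn k m => ¬ E2 p.1 ((ll n) ^ 3) c3 (ll n)) with hB2
  set B3 := univ.filter (fun p : Pos n k m × Sgn k m => (2 : ℝ) ^ n / 2 ≤
    ((univ.filter (fun η : Asg n => Inj p.1 ∧ E1 p.1 ((ll n) ^ 3) ∧
      E2 p.1 ((ll n) ^ 3) c3 (ll n) ∧
      ¬ Succ n k m (C1 * ll n) (C2 * ll n) c3 p.1 p.2 η)).card : ℝ)) with hB3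
  have c1 : (B1.card : ℝ) ≤ δ / 3 * M := by
    rw [hB1, ZLd_card_sign (fun v => ¬ E1 v ((ll n) ^ 3))]
    calc _ ≤ (δ / 3 * (n : ℝ) ^ (k * m)) * 2 ^ (k * m) := by
          apply mul_le_mul_of_nonneg_right a1 (by positivity)
      _ = δ / 3 * M := by rw [hM]; ring
  have c2 : (B2.card : ℝ) ≤ δ / 3 * M := by
    rw [hB2, ZLd_card_sign (fun v => ¬ E2 v ((ll n) ^ 3) c3 (ll n))]
    calc _ ≤ (δ / 3 * (n : ℝ) ^ (k * m)) * 2 ^ (k * m) := by
          apply mul_le_mul_of_nonneg_right a2 (by positivity)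
      _ = δ / 3 * M := by rw [hM]; ring
  have c3' : (B3.card : ℝ) ≤ δ / 3 * M := by
    rw [hB3]
    apply ZLd_markov (fun p : Asg n × (Pos n k m × Sgn k m) =>
      Inj p.2.1 ∧ E1 p.2.1 ((ll n) ^ 3) ∧ E2 p.2.1 ((ll n) ^ 3) c3 (ll n) ∧
      ¬ Succ n k m (C1 * ll n) (C2 * ll n) c3 p.2.1 p.2.2 p.1) _ ((2 : ℝ) ^ n / 2)
      (by positivity) (fun y hy => hy)
    refine a3.trans (le_of_eq ?_)
    rw [hM]
    ring
  have hsub : univ.filter (fun p : Pos n k m × Sgn k m => Inj p.1 ∧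
      ((SolF (mkF p.1 p.2)).card : ℝ) < 2 ^ n * Real.exp (-(15 * Real.log k ^ 2 * n / k))) ⊆
      B1 ∪ (B2 ∪ B3) := by
    rintro ⟨v, s⟩ hp
    obtain ⟨hinj, hbad⟩ := (Finset.mem_filter.1 hp).2
    by_contra hcon
    rw [Finset.mem_union, Finset.mem_union] at hcon
    push Not at hcon
    obtain ⟨g1, g2, g3⟩ := hcon
    have g1' : E1 v ((ll n) ^ 3) := by
      by_contra h
      exact g1 (Finset.mem_filter.2 ⟨mem_univ _, h⟩)
    have g2' : E2 v ((ll n) ^ 3) c3 (ll n) := by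
      by_contra h
      exact g2 (Finset.mem_filter.2 ⟨mem_univ _, h⟩)
    have g3' : ((univ.filter (fun η : Asg n =>
        ¬ Succ n k m (C1 * ll n) (C2 * ll n) c3 v s η)).card : ℝ) < (2 : ℝ) ^ n / 2 := by
      by_contra h
      push Not at h
      refine g3 (Finset.mem_filter.2 ⟨mem_univ _, h.trans (le_of_eq ?_)⟩)
      congr 2
      apply Finset.filter_congr
      intro η _
      simp [hinj, g1', g2']
    have hsum := Finset.card_filter_add_card_filter_not (s := (univ : Finset (Asg n)))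
      (fun η : Asg n => Succ n k m (C1 * ll n) (C2 * ll n) c3 v s η)
    have hcard : (univ : Finset (Asg n)).card = 2 ^ n := by
      rw [card_univ]
      simp [Asg]
    rw [hcard] at hsum
    have hsum' : ((univ.filter (fun η : Asg n =>
        Succ n k m (C1 * ll n) (C2 * ll n) c3 v s η)).card : ℝ) +
        ((univ.filter (fun η : Asg n =>
        ¬ Succ n k m (C1 * ll n) (C2 * ll n) c3 v s η)).card : ℝ) = 2 ^ n := by
      exact_mod_cast hsum
    have hcount : ((univ.filter (fun η : Asg n =>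
        Succ n k m (C1 * ll n) (C2 * ll n) c3 v s η)).card : ℝ) ≤
        ((SolF (mkF v s)).card : ℝ) *
        ∑ i ∈ range (⌈12 * Real.log k * n / k⌉₊ + ⌈(n : ℝ) / k⌉₊ + 1), (n.choose i : ℝ) := by
      exact_mod_cast succ_count hk3 (C1 * ll n) (C2 * ll n) c3 hc3 hl v s
    have hS : (0 : ℝ) ≤ ((SolF (mkF v s)).card : ℝ) := Nat.cast_nonneg _
    have h5 : (2 : ℝ) ^ n ≤ ((SolF (mkF v s)).card : ℝ) *
        Real.exp (15 * Real.log k ^ 2 * n / k) := by
      calc (2 : ℝ) ^ n ≤ 2 * ((univ.filter (fun η : Asg n =>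
            Succ n k m (C1 * ll n) (C2 * ll n) c3 v s η)).card : ℝ) := by linarith
        _ ≤ 2 * (((SolF (mkF v s)).card : ℝ) *
            ∑ i ∈ range (⌈12 * Real.log k * n / k⌉₊ + ⌈(n : ℝ) / k⌉₊ + 1),
              (n.choose i : ℝ)) := by linarith
        _ = ((SolF (mkF v s)).card : ℝ) *
            (2 * ∑ i ∈ range (⌈12 * Real.log k * n / k⌉₊ + ⌈(n : ℝ) / k⌉₊ + 1),
              (n.choose i : ℝ)) := by ring
        _ ≤ _ := mul_le_mul_of_nonneg_left a4 hS
    have h6 : (2 : ℝ) ^ n * Real.exp (-(15 * Real.log k ^ 2 * n / k)) ≤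
        ((SolF (mkF v s)).card : ℝ) := by
      rw [Real.exp_neg, ← div_eq_mul_inv, div_le_iff₀ (Real.exp_pos _)]
      exact h5
    exact absurd h6 (not_le.2 hbad)
  calc _ ≤ ((B1 ∪ (B2 ∪ B3)).card : ℝ) := by
        exact_mod_cast Finset.card_le_card hsub
    _ ≤ (B1.card : ℝ) + ((B2.card : ℝ) + (B3.card : ℝ)) := by
        have u1 := Finset.card_union_le B1 (B2 ∪ B3)
        have u2 := Finset.card_union_le B2 B3
        exact_mod_cast u1.trans (Nat.add_le_add_left u2 _)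
    _ ≤ δ / 3 * M + (δ / 3 * M + δ / 3 * M) := by
        gcongr
    _ = δ * M := by ring

end GC
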