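import Pool.Agent.W_bd7f91F_h12.MainA
import Pool.Agent.W_bd7f91F_h12.ZLd
import Pool.Agent.W_bd7f91F_h12.PathA
import Pool.Agent.W_bd7f91F_h12.InflF

/-! # Ordered model -/

set_option autoImplicit false

open Finset
open scoped Classical

namespace GC

/-- some solution is joined to at least the fraction `1 - δ` of all solutions by `D`-paths -/
def GoodF {n k m : ℕ} (Φ : Fml n k m) (D : ℕ) (δ : ℝ) : Prop :=
  ∃ ζ ∈ SolF Φ, (1 - δ) * ((SolF Φ).card : ℝ) ≤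
    (((SolF Φ).filter (fun σ => Relation.ReflTransGen (StepF Φ D) σ ζ)).card : ℝ)

theorem MainB_card_sign {n k m : ℕ} (P : Pos n k m → Prop) [DecidablePred P]
    [DecidablePred (fun p : Pos n k m × Sgn k m => P p.1)] :
    ((univ.filter (fun p : Pos n k m × Sgn k m => P p.1)).card : ℝ) =
      ((univ.filter P).card : ℝ) * 2 ^ (k * m) := by
  have h : univ.filter (fun p : Pos n k m × Sgn k m => P p.1) =
      (univ.filter P) ×ˢ (univ : Finset (Sgn k m)) := by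
    ext ⟨a, b⟩
    simp
  rw [h, Finset.card_product]
  have h2 : (univ : Finset (Sgn k m)).card = 2 ^ (k * m) := by
    simp [Sgn, ← pow_mul]
  rw [h2]
  push_cast
  ring

theorem MainB_markov {n k m : ℕ} (A : Pos n k m × Sgn k m → Prop) [DecidablePred A]
    (f : Pos n k m → Sgn k m → ℝ)
    (a : ℝ) (ha : 0 < a) (hf : ∀ v s, 0 ≤ f v s) (hA : ∀ p, A p → a ≤ f p.1 p.2) (M : ℝ)
    (hM : ∑ v, ∑ s, f v s ≤ a * M) : ((univ.filter A).card : ℝ) ≤ M := by
  have h1 : ((univ.filter A).card : ℝ) * a ≤ ∑ v, ∑ s, f v s := by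
    rw [← Finset.sum_product' (univ : Finset (Pos n k m)) (univ : Finset (Sgn k m)) f]
    calc ((univ.filter A).card : ℝ) * a = ∑ p ∈ univ.filter A, a := by
          rw [Finset.sum_const, nsmul_eq_mul]
      _ ≤ ∑ p ∈ univ.filter A, f p.1 p.2 := by
          apply Finset.sum_le_sum
          intro p hp
          exact hA p (Finset.mem_filter.1 hp).2
      _ ≤ ∑ p ∈ (univ : Finset (Pos n k m)) ×ˢ (univ : Finset (Sgn k m)), f p.1 p.2 := by
          apply Finset.sum_le_sum_of_subset_of_nonneg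
          · intro p _
            simp
          · intro p _ _
            exact hf _ _
  have h2 : ((univ.filter A).card : ℝ) * a ≤ M * a := by
    calc ((univ.filter A).card : ℝ) * a ≤ _ := h1
      _ ≤ a * M := hM
      _ = M * a := by ring
  exact le_of_mul_le_mul_right h2 ha

/-- one formula -/
theorem MainB_one {n k m : ℕ} (hk : 3 ≤ k) {v : Pos n k m} {s : Sgn k m} {c3 cU C1 C2 : ℕ}
    (hc3 : 1 ≤ c3) (hC1 : C1 = 2 * cU + c3 * (2 * cU + 1))
    (hl : 1 + c3 * (1 + ll n) * (c3 * (C2 * ll n + ll n)) ≤ (ll n) ^ 3)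
    (hl2 : C1 * ll n + 2 * (C2 * ll n) ≤ (ll n) ^ 3)
    (hinj : Inj v) (h1 : E1 v ((ll n) ^ 3)) (h2 : E2 v ((ll n) ^ 3) c3 (ll n))
    (h3 : E3 v (cU * ll n)) (hne : 0 < (SolF (mkF v s)).card) (δ : ℝ) (hδ : 0 < δ)
    (hW : (((SolF (mkF v s)).filter (fun σ => ∃ t, t ≤ n ∧
          ¬ NoWit (mkF v s) (fin (mkF v s) (etat t σ)) ((ll n) ^ 3) (C1 * ll n)
            (C2 * ll n))).card : ℝ) < δ * ((SolF (mkF v s)).card : ℝ)) :
    GoodF (mkF v s) ((cU + 6 * (c3 * (C1 + C2 + 1))) * ll n) δ := by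
  set Φ := mkF v s with hΦ
  set W := (SolF Φ).filter (fun σ => ∃ t, t ≤ n ∧
          ¬ NoWit Φ (fin Φ (etat t σ)) ((ll n) ^ 3) (C1 * ll n) (C2 * ll n)) with hWdef
  have hpos : pos Φ = v := rfl
  have hll : 1 ≤ ll n := by unfold ll; omega
  have hc1 : 2 * (cU * ll n) + c3 * (2 * (cU * ll n) + ll n) ≤ C1 * ll n := by
    rw [hC1]
    apply le_of_eq
    ring
  have hD : cU * ll n + 6 * (c3 * (C1 * ll n + C2 * ll n + ll n)) =
      (cU + 6 * (c3 * (C1 + C2 + 1))) * ll n := by ring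
  have key : ∀ σ ∈ SolF Φ, σ ∉ W →
      Relation.ReflTransGen (StepF Φ ((cU + 6 * (c3 * (C1 + C2 + 1))) * ll n)) σ
      (patch Φ (fin Φ (fun _ => false))) ∧ patch Φ (fin Φ (fun _ => false)) ∈ SolF Φ := by
    intro σ hσ hσW
    have hNW : ∀ t, t ≤ n → NoWit Φ (fin Φ (etat t σ)) ((ll n) ^ 3) (C1 * ll n) (C2 * ll n) := by
      intro t ht
      by_contra hcon
      exact hσW (Finset.mem_filter.2 ⟨hσ, t, ht, hcon⟩)
    have := path hk (Φ := Φ) (l := (ll n) ^ 3) (c1 := C1 * ll n) (c2 := C2 * ll n) (c3 := c3)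
      (L := ll n) (bU := cU * ll n) hinj h1 h2 h3 hl hll hc3 hl2 hc1 σ hσ hNW
    rw [hD] at this
    exact this
  by_cases hδ1 : 1 ≤ δ
  · obtain ⟨ζ, hζ⟩ := Finset.card_pos.1 hne
    refine ⟨ζ, hζ, ?_⟩
    have : (1 - δ) * ((SolF Φ).card : ℝ) ≤ 0 :=
      mul_nonpos_of_nonpos_of_nonneg (by linarith) (Nat.cast_nonneg _)
    exact this.trans (Nat.cast_nonneg _)
  · push Not at hδ1
    have hWsub : W ⊆ SolF Φ := Finset.filter_subset _ _
    have hcardW : ((SolF Φ \ W).card : ℝ) = (SolF Φ).card - W.card := by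
      rw [Finset.card_sdiff_of_subset hWsub, Nat.cast_sub (Finset.card_le_card hWsub)]
    have hpos' : (0 : ℝ) < (SolF Φ).card := by exact_mod_cast hne
    have hpos2 : (0 : ℝ) < ((SolF Φ \ W).card : ℝ) := by
      rw [hcardW]
      nlinarith
    have hne2 : (SolF Φ \ W).Nonempty := by
      apply Finset.card_pos.1
      exact_mod_cast hpos2
    obtain ⟨σ0, hσ0⟩ := hne2
    rw [Finset.mem_sdiff] at hσ0
    refine ⟨patch Φ (fin Φ (fun _ => false)), (key σ0 hσ0.1 hσ0.2).2, ?_⟩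
    calc (1 - δ) * ((SolF Φ).card : ℝ) ≤ (SolF Φ).card - W.card := by nlinarith
      _ = ((SolF Φ \ W).card : ℝ) := hcardW.symm
      _ ≤ _ := by
        apply Nat.cast_le.2
        apply Finset.card_le_card
        intro σ hσ
        rw [Finset.mem_sdiff] at hσ
        exact Finset.mem_filter.2 ⟨hσ.1, (key σ hσ.1 hσ.2).1⟩

theorem MainB_ll_large (A : ℕ) : ∃ n0 : ℕ, ∀ n, n0 ≤ n → A ≤ ll n := by
  refine ⟨2 ^ A, fun n hn => ?_⟩
  unfold ll
  have h1 : Nat.log 2 (2 ^ A) ≤ Nat.log 2 n := Nat.log_mono_right hn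
  rw [Nat.log_pow (by norm_num)] at h1
  omega

theorem MainB_ll_cond (c3 C1 C2 : ℕ) : ∃ n0 : ℕ, ∀ n, n0 ≤ n →
    1 + c3 * (1 + ll n) * (c3 * (C2 * ll n + ll n)) ≤ (ll n) ^ 3 ∧
    C1 * ll n + 2 * (C2 * ll n) ≤ (ll n) ^ 3 := by
  obtain ⟨n0, hn0⟩ := MainB_ll_large (1 + 2 * c3 * (c3 * (C2 + 1)) + C1 + 2 * C2)
  refine ⟨n0, fun n hn => ?_⟩
  have h := hn0 n hn
  set L := ll n with hL
  have hL1 : 1 ≤ L := by
    have : 1 ≤ 1 + 2 * c3 * (c3 * (C2 + 1)) + C1 + 2 * C2 := by omega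
    omega
  constructor
  · have e1 : c3 * (1 + L) * (c3 * (C2 * L + L)) ≤ 2 * c3 * (c3 * (C2 + 1)) * L ^ 2 := by
      have : 1 + L ≤ 2 * L := by omega
      calc c3 * (1 + L) * (c3 * (C2 * L + L)) ≤ c3 * (2 * L) * (c3 * (C2 * L + L)) := by gcongr
        _ = 2 * c3 * (c3 * (C2 + 1)) * L ^ 2 := by ring
    have e2 : 1 ≤ 1 * L ^ 2 := by
      rw [one_mul]
      exact Nat.one_le_pow _ _ hL1
    calc 1 + c3 * (1 + L) * (c3 * (C2 * L + L)) ≤ 1 * L ^ 2 + 2 * c3 * (c3 * (C2 + 1)) * L ^ 2 :=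
          Nat.add_le_add e2 e1
      _ = (1 + 2 * c3 * (c3 * (C2 + 1))) * L ^ 2 := by ring
      _ ≤ L * L ^ 2 := by
          apply Nat.mul_le_mul_right
          omega
      _ = L ^ 3 := by ring
  · calc C1 * L + 2 * (C2 * L) = (C1 + 2 * C2) * L := by ring
      _ ≤ L * L := by
          apply Nat.mul_le_mul_right
          omega
      _ = 1 * L ^ 2 := by ring
      _ ≤ L * L ^ 2 := by
          apply Nat.mul_le_mul_right
          omega
      _ = L ^ 3 := by ring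

/-- THE THEOREM IN THE ORDERED MODEL.
PROOF. `c3` from `e2_prob`, `cU` from `e3_prob`, `C1 = 2 cU + c3 (2 cU + 1)`, `C2` from `unif_wit`, `D = cU + 6 c3 (C1 + C2 + 1)`. Let `(v, s)` satisfy `Inj`,
`E1`, `E2`, `E3`, `|SolF| ≥ Z0` and let the number of `σ ∈ SolF` with a witness for some `t` be at most `δ |SolF|`: by `path` all other `σ` are
joined to the canonical solution by `(D ll n)`-paths (conditions for `n` large: `1 + c3 (1 + ll)(c3 (C2 ll + ll)) ≤ ll^3`,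
`C1 ll + 2 C2 ll ≤ ll^3`). The exceptional `(v, s)`: `e1_prob`, `e2_prob`, `e3_prob` (times `2^(km)` sign vectors), `many_sol`, and Markov for
`unif_wit` (with `δ^2/8`). -/
theorem ordered_full : ∃ k0 : ℕ, ∀ k, k0 ≤ k → ∃ D : ℕ, ∀ δ : ℝ, 0 < δ → ∃ n0 : ℕ, ∀ n, n0 ≤ n →
    ∀ m, HM n k m →
    ((univ.filter (fun p : Pos n k m × Sgn k m => Inj p.1 ∧
      ¬ GoodF (mkF p.1 p.2) (D * ll n) δ)).card : ℝ) ≤
      δ * ((n : ℝ) ^ (k * m) * 2 ^ (k * m)) := by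
  obtain ⟨kA, hA⟩ := unif_wit
  obtain ⟨kB, hB⟩ := many_sol
  refine ⟨max 10 (max kA kB), fun k hk => ?_⟩
  have hk10 : 10 ≤ k := (le_max_left _ _).trans hk
  have hkA : kA ≤ k := ((le_max_left _ _).trans (le_max_right _ _)).trans hk
  have hkB : kB ≤ k := ((le_max_right _ _).trans (le_max_right _ _)).trans hk
  have hk3 : 3 ≤ k := by omega
  obtain ⟨c3, hc3, hE2⟩ := e2_prob hk10
  obtain ⟨cU, hE3⟩ := e3_prob hk10
  obtain ⟨C2, hC12, hU⟩ := hA k hkA (2 * cU + c3 * (2 * cU + 1))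
  set C1 := 2 * cU + c3 * (2 * cU + 1) with hC1
  refine ⟨cU + 6 * (c3 * (C1 + C2 + 1)), fun δ hδ => ?_⟩
  have hδ5 : 0 < δ / 5 := by positivity
  obtain ⟨n1, hn1⟩ := e1_prob hk3 (δ / 5) hδ5
  obtain ⟨n2, hn2⟩ := hE2 (δ / 5) hδ5
  obtain ⟨n3, hn3⟩ := hE3 (δ / 5) hδ5
  obtain ⟨n4, hn4⟩ := hB k hkB (δ / 5) hδ5
  obtain ⟨n5, hn5⟩ := hU (δ * (δ / 5)) (by positivity)
  obtain ⟨n6, hn6⟩ := MainB_ll_cond c3 C1 C2
  refine ⟨max n1 (max n2 (max n3 (max n4 (max n5 n6)))), fun n hn m hm => ?_⟩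
  have hn1' : n1 ≤ n := by omega
  have hn2' : n2 ≤ n := by omega
  have hn3' : n3 ≤ n := by omega
  have hn4' : n4 ≤ n := by omega
  have hn5' : n5 ≤ n := by omega
  have hn6' : n6 ≤ n := by omega
  have hmn : (m : ℝ) ≤ 2 ^ k * n := hm_le hk3 hm
  obtain ⟨hl, hl2⟩ := hn6 n hn6'
  set M : ℝ := (n : ℝ) ^ (k * m) * 2 ^ (k * m) with hM
  -- the five exceptional sets
  set B1 := univ.filter (fun p : Pos n k m × Sgn k m => ¬ E1 p.1 ((ll n) ^ 3)) with hB1
  set B2 := univ.filter (fun p : Pos n k m × Sgn k m => ¬ E2 p.1 ((ll n) ^ 3) c3 (ll n)) with hB2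
  set B3 := univ.filter (fun p : Pos n k m × Sgn k m => ¬ E3 p.1 (cU * ll n)) with hB3
  set B4 := univ.filter (fun p : Pos n k m × Sgn k m => Inj p.1 ∧
      ((SolF (mkF p.1 p.2)).card : ℝ) < 2 ^ n * Real.exp (-(15 * Real.log k ^ 2 * n / k))) with hB4
  set B5 := univ.filter (fun p : Pos n k m × Sgn k m => (Inj p.1 ∧ E1 p.1 ((ll n) ^ 3) ∧
        2 ^ n * Real.exp (-(15 * Real.log k ^ 2 * n / k)) ≤ ((SolF (mkF p.1 p.2)).card : ℝ)) ∧
        δ * ((SolF (mkF p.1 p.2)).card : ℝ) ≤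
        (((SolF (mkF p.1 p.2)).filter (fun σ => ∃ t, t ≤ n ∧
          ¬ NoWit (mkF p.1 p.2) (fin (mkF p.1 p.2) (etat t σ)) ((ll n) ^ 3) (C1 * ll n)
            (C2 * ll n))).card : ℝ)) with hB5
  have c1 : (B1.card : ℝ) ≤ δ / 5 * M := by
    rw [hB1, MainB_card_sign (fun v => ¬ E1 v ((ll n) ^ 3))]
    calc _ ≤ (δ / 5 * (n : ℝ) ^ (k * m)) * 2 ^ (k * m) := by
          apply mul_le_mul_of_nonneg_right (hn1 n hn1' m hmn) (by positivity)
      _ = δ / 5 * M := by rw [hM]; ring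
  have c2 : (B2.card : ℝ) ≤ δ / 5 * M := by
    rw [hB2, MainB_card_sign (fun v => ¬ E2 v ((ll n) ^ 3) c3 (ll n))]
    calc _ ≤ (δ / 5 * (n : ℝ) ^ (k * m)) * 2 ^ (k * m) := by
          apply mul_le_mul_of_nonneg_right (hn2 n hn2' m hmn) (by positivity)
      _ = δ / 5 * M := by rw [hM]; ring
  have c3' : (B3.card : ℝ) ≤ δ / 5 * M := by
    rw [hB3, MainB_card_sign (fun v => ¬ E3 v (cU * ll n))]
    calc _ ≤ (δ / 5 * (n : ℝ) ^ (k * m)) * 2 ^ (k * m) := by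
          apply mul_le_mul_of_nonneg_right (hn3 n hn3' m hmn) (by positivity)
      _ = δ / 5 * M := by rw [hM]; ring
  have c4 : (B4.card : ℝ) ≤ δ / 5 * M := hn4 n hn4' m hm
  have hexp : (0 : ℝ) < 2 ^ n * Real.exp (-(15 * Real.log k ^ 2 * n / k)) := by positivity
  have c5 : (B5.card : ℝ) ≤ δ / 5 * M := by
    rw [hB5]
    apply MainB_markov _ (fun v s => if Inj v ∧ E1 v ((ll n) ^ 3) ∧
        2 ^ n * Real.exp (-(15 * Real.log k ^ 2 * n / k)) ≤ ((SolF (mkF v s)).card : ℝ) then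
        (((SolF (mkF v s)).filter (fun σ => ∃ t, t ≤ n ∧
          ¬ NoWit (mkF v s) (fin (mkF v s) (etat t σ)) ((ll n) ^ 3) (C1 * ll n)
            (C2 * ll n))).card : ℝ) / ((SolF (mkF v s)).card : ℝ) else 0) δ hδ
    · intro v s
      split_ifs
      · positivity
      · exact le_refl _
    · rintro ⟨v, s⟩ ⟨h1, h2⟩
      rw [if_pos h1, le_div_iff₀ (lt_of_lt_of_le hexp h1.2.2)]
      exact h2
    · calc _ ≤ δ * (δ / 5) * ((n : ℝ) ^ (k * m) * 2 ^ (k * m)) := hn5 n hn5' m hm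
        _ = δ * (δ / 5 * M) := by rw [hM]; ring
  have hsub : univ.filter (fun p : Pos n k m × Sgn k m => Inj p.1 ∧
      ¬ GoodF (mkF p.1 p.2) ((cU + 6 * (c3 * (C1 + C2 + 1))) * ll n) δ) ⊆
      B1 ∪ (B2 ∪ (B3 ∪ (B4 ∪ B5))) := by
    rintro ⟨v, s⟩ hp
    obtain ⟨hinj, hbad⟩ := (Finset.mem_filter.1 hp).2
    by_contra hcon
    rw [Finset.mem_union, Finset.mem_union, Finset.mem_union, Finset.mem_union] at hcon
    push Not at hcon
    obtain ⟨g1, g2, g3, g4, g5⟩ := hcon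
    rw [hB1, Finset.mem_filter] at g1
    rw [hB2, Finset.mem_filter] at g2
    rw [hB3, Finset.mem_filter] at g3
    rw [hB4, Finset.mem_filter] at g4
    rw [hB5, Finset.mem_filter] at g5
    have g1' : E1 v ((ll n) ^ 3) := by
      by_contra h
      exact g1 ⟨mem_univ _, h⟩
    have g2' : E2 v ((ll n) ^ 3) c3 (ll n) := by
      by_contra h
      exact g2 ⟨mem_univ _, h⟩
    have g3' : E3 v (cU * ll n) := by
      by_contra h
      exact g3 ⟨mem_univ _, h⟩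
    have g4' : 2 ^ n * Real.exp (-(15 * Real.log k ^ 2 * n / k)) ≤
        ((SolF (mkF v s)).card : ℝ) := by
      by_contra h
      push Not at h
      exact g4 ⟨mem_univ _, hinj, h⟩
    have g5' : (((SolF (mkF v s)).filter (fun σ => ∃ t, t ≤ n ∧
          ¬ NoWit (mkF v s) (fin (mkF v s) (etat t σ)) ((ll n) ^ 3) (C1 * ll n)
            (C2 * ll n))).card : ℝ) < δ * ((SolF (mkF v s)).card : ℝ) := by
      by_contra h
      push Not at h
      exact g5 ⟨mem_univ _, ⟨hinj, g1', g4'⟩, h⟩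
    have hne : 0 < (SolF (mkF v s)).card := by
      have := lt_of_lt_of_le hexp g4'
      exact_mod_cast this
    exact hbad (MainB_one hk3 hc3 hC1 hl hl2 hinj g1' g2' g3' hne δ hδ g5')
  calc _ ≤ ((B1 ∪ (B2 ∪ (B3 ∪ (B4 ∪ B5)))).card : ℝ) := by
        exact_mod_cast Finset.card_le_card hsub
    _ ≤ (B1.card : ℝ) + ((B2.card : ℝ) + ((B3.card : ℝ) + ((B4.card : ℝ) + (B5.card : ℝ)))) := by
        have u1 := Finset.card_union_le B1 (B2 ∪ (B3 ∪ (B4 ∪ B5)))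
        have u2 := Finset.card_union_le B2 (B3 ∪ (B4 ∪ B5))
        have u3 := Finset.card_union_le B3 (B4 ∪ B5)
        have u4 := Finset.card_union_le B4 B5
        exact_mod_cast u1.trans (Nat.add_le_add_left (u2.trans (Nat.add_le_add_left
          (u3.trans (Nat.add_le_add_left u4 _)) _)) _)
    _ ≤ δ / 5 * M + (δ / 5 * M + (δ / 5 * M + (δ / 5 * M + δ / 5 * M))) := by
        gcongr
    _ = δ * M := by ring

end GC
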