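import Pool.Agent.W_bd7f91F_h12.MainB
import Pool.Agent.W_bd7f91F_h12.GeoD
import Pool.Agent.W_MP_bd7f91_h12.Transfer

/-! # Official model -/

set_option autoImplicit false

open Finset
open scoped Classical

namespace GC

theorem MainC_viol {n k m : ℕ} (G : Fin m → KSat.Emb n k) (s : Fin m → Fin k → Bool) (σ : Asg n) :
    σ ∈ SolF (mkF (KSat.fn G) s) ↔ σ ∈ KSat.Sol (KSat.toF G s) := by
  unfold SolF KSat.Sol
  rw [mem_filter, mem_filter, KSat.toF_sat]
  simp only [mem_univ, true_and]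
  unfold KSat.SatO Viol mkF
  constructor
  · intro h i
    have := h i
    push Not at this
    exact this
  · intro h i
    push Not
    exact h i

theorem MainC_joined {n k m : ℕ} (G : Fin m → KSat.Emb n k) (s : Fin m → Fin k → Bool) (D : ℕ)
    (D' : ℝ) (hD : (D : ℝ) ≤ D') (σ τ : Asg n)
    (h : Relation.ReflTransGen (StepF (mkF (KSat.fn G) s) D) σ τ) :
    KSat.Joined (KSat.toF G s) D' τ σ := by
  unfold KSat.Joined
  induction h using Relation.ReflTransGen.head_induction_on with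
  | refl => exact Relation.ReflTransGen.refl
  | head h1 _ ih =>
    refine ih.tail ?_
    obtain ⟨ha, hb, hd⟩ := h1
    refine ⟨(MainC_viol G s _).1 hb, (MainC_viol G s _).1 ha, ?_⟩
    rw [hammingDist_comm]
    refine le_trans ?_ hD
    exact_mod_cast hd

/-- TRANSFER of one formula.
PROOF. `SolF (mkF (KSat.fn G) s) = KSat.Sol (KSat.toF G s)` (`KSat.toF_sat`), steps as in `KSat.Final_joined`, `KSat.giant_of_good`
(Pool/Agent/W_MP_bd7f91_h12/Final.lean). -/
theorem giant_of_goodF {n k m : ℕ} (G : Fin m → KSat.Emb n k) (s : Fin m → Fin k → Bool) (D : ℕ)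
    (D' ε : ℝ) (hD : (D : ℝ) ≤ D') (h : GoodF (mkF (KSat.fn G) s) D ε) :
    KSat.Giant (KSat.toF G s) D' ε := by
  obtain ⟨ζ, hζ, hc⟩ := h
  have hS : KSat.Sol (KSat.toF G s) = SolF (mkF (KSat.fn G) s) := by
    ext σ
    exact (MainC_viol G s σ).symm
  refine ⟨(KSat.Sol (KSat.toF G s)).filter (KSat.Joined (KSat.toF G s) D' ζ),
    ⟨ζ, by rw [hS]; exact hζ, rfl⟩, ?_⟩
  rw [hS]
  refine hc.trans ?_
  have h1 : ((SolF (mkF (KSat.fn G) s)).filter
      (fun σ => Relation.ReflTransGen (StepF (mkF (KSat.fn G) s) D) σ ζ)).card ≤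
      ((SolF (mkF (KSat.fn G) s)).filter (KSat.Joined (KSat.toF G s) D' ζ)).card := by
    refine card_le_card fun σ hσ => ?_
    rw [mem_filter] at hσ ⊢
    exact ⟨hσ.1, MainC_joined G s D D' hD σ ζ hσ.2⟩
  exact_mod_cast h1

theorem MainC_good_mono {n k m : ℕ} {Φ : Fml n k m} {D : ℕ} {δ δ' : ℝ} (h : GoodF Φ D δ)
    (hδ : δ ≤ δ') : GoodF Φ D δ' := by
  obtain ⟨ζ, hζ, hc⟩ := h
  refine ⟨ζ, hζ, le_trans ?_ hc⟩
  have : (0 : ℝ) ≤ (SolF Φ).card := Nat.cast_nonneg _
  nlinarith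

theorem MainC_inj {n k m : ℕ} (G : Fin m → KSat.Emb n k) : Inj (KSat.fn G) :=
  fun e => (G e).injective

theorem MainC_bad {n k m : ℕ} (P : Fml n k m → Prop)
    [DecidablePred (fun q : (Fin m → KSat.Emb n k) × (Fin m → Fin k → Bool) =>
      P (mkF (KSat.fn q.1) q.2))]
    [DecidablePred (fun p : Pos n k m × Sgn k m => Inj p.1 ∧ P (mkF p.1 p.2))] :
    (univ.filter (fun q : (Fin m → KSat.Emb n k) × (Fin m → Fin k → Bool) =>
      P (mkF (KSat.fn q.1) q.2))).card ≤
    (univ.filter (fun p : Pos n k m × Sgn k m => Inj p.1 ∧ P (mkF p.1 p.2))).card := by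
  apply Finset.card_le_card_of_injOn (fun q => (KSat.fn q.1, q.2))
  · intro q hq
    rw [mem_coe, mem_filter] at hq
    rw [mem_coe, mem_filter]
    exact ⟨mem_univ _, MainC_inj q.1, hq.2⟩
  · rintro ⟨G, s⟩ _ ⟨G', s'⟩ _ h
    rw [Prod.mk.injEq] at h
    obtain ⟨h1, h2⟩ := h
    refine Prod.ext ?_ h2
    funext i
    ext j
    have := congrFun (congrFun h1 i) j
    unfold KSat.fn at this
    rw [this]

theorem MainC_all {n k m : ℕ} :
    (univ.filter (fun v : Pos n k m => Inj v)).card ≤ Fintype.card (KSat.Emb n k) ^ m := by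
  have h1 : Fintype.card (Fin m → KSat.Emb n k) = Fintype.card (KSat.Emb n k) ^ m := by
    rw [Fintype.card_fun, Fintype.card_fin]
  rw [← h1, ← card_univ]
  apply Finset.card_le_card_of_surjOn (fun G => KSat.fn G)
  intro v hv
  rw [mem_coe, mem_filter] at hv
  refine ⟨fun i => ⟨v i, hv.2 i⟩, by simp, rfl⟩

/-- THE THEOREM in the official model.
PROOF. `ordered_full` with `δ' = c δ`, `c` from `inj_prob`; the number of pairs `(G, s)`, `G : Fin m → Emb n k`, is the number of `(v, s)` with `Inj v`, at least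
`c n^(km) 2^(km)`; `KSat.transfer` as in `KSat.giant_main` (Final.lean); `D * ll n ≤ 3 D log n` (`ll_le_log`); `hm_of`. -/
theorem giant_full : ∃ k0 : ℕ, ∀ k, k0 ≤ k → ∃ C : ℝ, ∀ δ : ℝ, 0 < δ → ∃ n0 : ℕ, ∀ n, n0 ≤ n →
    ∀ m : ℕ, (m : ℝ) ≤
      (1 - 20 * Real.log (Real.log k) / Real.log k) * (2 ^ k / k * Real.log k) * n →
    (1 - δ) * (Fintype.card (KSat.Formula n k m) : ℝ) ≤
      ((univ.filter (fun Φ : KSat.Formula n k m =>
        KSat.Giant Φ (C * Real.log n) δ)).card : ℝ) := by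
  obtain ⟨k1, h1⟩ := ordered_full
  refine ⟨max 3 k1, fun k hk => ?_⟩
  have hk3 : 3 ≤ k := (le_max_left _ _).trans hk
  obtain ⟨D, hD⟩ := h1 k ((le_max_right _ _).trans hk)
  refine ⟨3 * D, fun δ hδ => ?_⟩
  obtain ⟨c, hc, n1, hn1⟩ := inj_prob k
  have hδ2 : 0 < δ * min 1 c := mul_pos hδ (lt_min one_pos hc)
  obtain ⟨n2, hn2⟩ := hD (δ * min 1 c) hδ2
  refine ⟨max 3 (max n1 n2), fun n hn m hm => ?_⟩
  have hn3 : 3 ≤ n := (le_max_left _ _).trans hn
  have hn1' : n1 ≤ n := ((le_max_left _ _).trans (le_max_right _ _)).trans hn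
  have hn2' : n2 ≤ n := ((le_max_right _ _).trans (le_max_right _ _)).trans hn
  have hHM : HM n k m := hm_of hk3 hm
  have hmn : (m : ℝ) ≤ 2 ^ k * n := hm_le hk3 hHM
  have hDD : ((D * ll n : ℕ) : ℝ) ≤ 3 * D * Real.log n := by
    push_cast
    have := ll_le_log hn3
    have hD0 : (0 : ℝ) ≤ D := Nat.cast_nonneg _
    nlinarith
  have a1 := hn2 n hn2' m hHM
  have a2 := hn1 n hn1' m hmn
  -- bad pairs
  have hbad : (univ.filter (fun P : (Fin m → KSat.Emb n k) × (Fin m → Fin k → Bool) =>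
      ¬ KSat.Giant (KSat.toF P.1 P.2) (3 * D * Real.log n) δ)).card ≤
      (univ.filter (fun p : Pos n k m × Sgn k m => Inj p.1 ∧
        ¬ GoodF (mkF p.1 p.2) (D * ll n) (δ * min 1 c))).card := by
    refine le_trans ?_ (MainC_bad (fun Φ => ¬ GoodF Φ (D * ll n) (δ * min 1 c)))
    refine card_le_card fun P hP => ?_
    rw [mem_filter] at hP ⊢
    refine ⟨mem_univ _, fun hg => hP.2 ?_⟩
    refine giant_of_goodF P.1 P.2 (D * ll n) _ δ hDD (MainC_good_mono hg ?_)
    calc δ * min 1 c ≤ δ * 1 := by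
          apply mul_le_mul_of_nonneg_left (min_le_left _ _) hδ.le
      _ = δ := mul_one _
  have h3 := KSat.transfer (fun Φ : KSat.Formula n k m => ¬ KSat.Giant Φ (3 * D * Real.log n) δ)
  have h4 := KSat.transfer (fun _ : KSat.Formula n k m => True)
  rw [filter_true, filter_true, card_univ, card_univ, Fintype.card_prod, Fintype.card_fun,
    Fintype.card_fun, Fintype.card_fun, Fintype.card_bool, Fintype.card_fin, Fintype.card_fin,
    ← pow_mul] at h4
  have h5 : ((Fintype.card (KSat.Emb n k) : ℝ) ^ m * 2 ^ (k * m)) =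
      (k.factorial : ℝ) ^ m * (Fintype.card (KSat.Formula n k m) : ℝ) := by
    exact_mod_cast h4
  have h51 : ((univ.filter (fun v : Pos n k m => Inj v)).card : ℝ) ≤
      (Fintype.card (KSat.Emb n k) : ℝ) ^ m := by
    exact_mod_cast (MainC_all (n := n) (k := k) (m := m))
  have h6 : (k.factorial : ℝ) ^ m * ((univ.filter (fun Φ : KSat.Formula n k m =>
      ¬ KSat.Giant Φ (3 * D * Real.log n) δ)).card : ℝ) ≤
      (k.factorial : ℝ) ^ m * (δ * (Fintype.card (KSat.Formula n k m) : ℝ)) := by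
    have h7 : ((k.factorial ^ m * (univ.filter (fun Φ : KSat.Formula n k m =>
        ¬ KSat.Giant Φ (3 * D * Real.log n) δ)).card : ℕ) : ℝ) ≤
        ((univ.filter (fun p : Pos n k m × Sgn k m => Inj p.1 ∧
          ¬ GoodF (mkF p.1 p.2) (D * ll n) (δ * min 1 c))).card : ℝ) := by
      have h8 : k.factorial ^ m * (univ.filter (fun Φ : KSat.Formula n k m =>
          ¬ KSat.Giant Φ (3 * D * Real.log n) δ)).card ≤
          (univ.filter (fun p : Pos n k m × Sgn k m => Inj p.1 ∧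
            ¬ GoodF (mkF p.1 p.2) (D * ll n) (δ * min 1 c))).card := by
        refine le_trans (le_of_eq ?_) hbad
        convert h3.symm using 3
        ext Φ
        simp only [mem_filter, mem_univ, true_and]
      exact_mod_cast h8
    push_cast at h7
    calc _ ≤ _ := h7
      _ ≤ δ * min 1 c * ((n : ℝ) ^ (k * m) * 2 ^ (k * m)) := a1
      _ ≤ δ * c * ((n : ℝ) ^ (k * m) * 2 ^ (k * m)) := by
          apply mul_le_mul_of_nonneg_right _ (by positivity)
          exact mul_le_mul_of_nonneg_left (min_le_right _ _) hδ.le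
      _ = δ * (c * (n : ℝ) ^ (k * m)) * 2 ^ (k * m) := by ring
      _ ≤ δ * ((Fintype.card (KSat.Emb n k) : ℝ) ^ m) * 2 ^ (k * m) := by
          apply mul_le_mul_of_nonneg_right _ (by positivity)
          exact mul_le_mul_of_nonneg_left (a2.trans h51) hδ.le
      _ = δ * ((Fintype.card (KSat.Emb n k) : ℝ) ^ m * 2 ^ (k * m)) := by ring
      _ = (k.factorial : ℝ) ^ m * (δ * (Fintype.card (KSat.Formula n k m) : ℝ)) := by
          rw [h5]
          ring
  have h8 := le_of_mul_le_mul_left h6 (by positivity)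
  have h9 := card_filter_add_card_filter_not (s := (univ : Finset (KSat.Formula n k m)))
    (fun Φ : KSat.Formula n k m => KSat.Giant Φ (3 * D * Real.log n) δ)
  rw [card_univ] at h9
  have h10 : ((univ.filter (fun Φ : KSat.Formula n k m =>
      KSat.Giant Φ (3 * D * Real.log n) δ)).card : ℝ) +
      ((univ.filter (fun Φ : KSat.Formula n k m =>
        ¬ KSat.Giant Φ (3 * D * Real.log n) δ)).card : ℝ) =
      (Fintype.card (KSat.Formula n k m) : ℝ) := by exact_mod_cast h9
  linarith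

end GC
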