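import Pool.Agent.W_bd7f91F_h12.CompC

/-! # Few clauses are in components near the influence set; many tuples if the closure is large -/

set_option autoImplicit false

open Finset
open scoped Classical

namespace GC

variable {n k m : ℕ}

/-- a union of sets, each rooted at an element of `Z`, is rooted at `Z` -/
theorem NonA_rooted_biUnion (v : Pos n k m) {Z : Finset (Fin n)} {A : Finset (Fin m)}
    (K : Fin m → Finset (Fin m)) (h : ∀ e ∈ A, ∃ y ∈ Z, Rooted v {y} (K e)) :
    Rooted v Z (A.biUnion K) := by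
  intro A' hA' hne
  have hss : A' ⊂ A.biUnion K := hA'.ssubset_of_ne hne
  obtain ⟨b0, hb0, hb0'⟩ := exists_of_ssubset hss
  obtain ⟨e, he, hbe⟩ := mem_biUnion.1 hb0
  obtain ⟨y, hy, hR⟩ := h e he
  have h1 : A' ∩ K e ≠ K e := by
    intro h2
    have : b0 ∈ A' ∩ K e := by rw [h2]; exact hbe
    exact hb0' (mem_inter.1 this).1
  obtain ⟨b, hb, x, hx⟩ := hR (A' ∩ K e) inter_subset_right h1
  rw [mem_sdiff] at hb
  refine ⟨b, mem_sdiff.2 ⟨mem_biUnion.2 ⟨e, he, hb.1⟩, ?_⟩, x, ?_⟩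
  · intro hbA
    exact hb.2 (mem_inter.2 ⟨hbA, hb.1⟩)
  · rw [mem_inter] at hx ⊢
    refine ⟨hx.1, ?_⟩
    rcases mem_union.1 hx.2 with h3 | h3
    · rw [mem_singleton] at h3
      subst h3
      exact mem_union_left _ hy
    · apply mem_union_right
      obtain ⟨a, ha, hxa⟩ := mem_biUnion.1 h3
      exact mem_biUnion.2 ⟨a, (mem_inter.1 ha).1, hxa⟩

theorem NonA_gen_empty (Φ : Fml n k m) (S : St n) : Gen Φ S (∅ : Finset (Fin m)) :=
  ⟨fun _ => 0, fun e he => absurd he (notMem_empty e)⟩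

theorem NonA_gen_biUnion {Φ : Fml n k m} {S : St n} (A : Finset (Fin m))
    (K : Fin m → Finset (Fin m)) (h : ∀ e ∈ A, Gen Φ S (K e)) : Gen Φ S (A.biUnion K) := by
  induction A using Finset.induction_on with
  | empty => simpa using NonA_gen_empty Φ S
  | insert a A ha ih =>
    rw [biUnion_insert]
    exact gen_union (h a (mem_insert_self _ _)) (ih fun e he => h e (mem_insert_of_mem he))

/-- sizes of a disjoint union of sets with many bad clauses -/
theorem NonA_card_biUnion {Φ : Fml n k m} {S : St n} (A : Finset (Fin m))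
    (K : Fin m → Finset (Fin m)) (hd : ∀ e ∈ A, ∀ e' ∈ A, e ≠ e' → Disjoint (K e) (K e'))
    (h : ∀ e ∈ A, (K e).card ≤ 8 * ((K e).filter (Bad Φ S)).card) :
    (A.biUnion K).card ≤ 8 * ((A.biUnion K).filter (Bad Φ S)).card := by
  have h1 : (A.biUnion K).card = ∑ e ∈ A, (K e).card := card_biUnion hd
  have h2 : (A.biUnion K).filter (Bad Φ S) = A.biUnion (fun e => (K e).filter (Bad Φ S)) := by
    rw [filter_biUnion]
  have h3 : ((A.biUnion K).filter (Bad Φ S)).card = ∑ e ∈ A, ((K e).filter (Bad Φ S)).card := by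
    rw [h2]
    apply card_biUnion
    intro e he e' he' hne
    exact disjoint_of_subset_left (filter_subset _ _)
      (disjoint_of_subset_right (filter_subset _ _) (hd e he e' he' hne))
  rw [h1, h3, mul_sum]
  exact sum_le_sum h

theorem NonA_wit_pos {Φ : Fml n k m} {S : St n} {l c1 c2 : ℕ} (hW : NoWit Φ S l c1 c2)
    (z : Fin n) : 1 ≤ c2 := by
  by_contra hc
  have hc0 : c2 = 0 := by omega
  subst hc0
  refine hW z ∅ ∅ ⟨Subset.refl _, ?_, by simp, by simp, by simp, by simp, ?_⟩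
  · intro A hA hne
    exact absurd (subset_empty.1 hA) hne
  · intro e he
    exact absurd he (notMem_empty e)

theorem NonA_cmp_disj (v : Pos n k m) (D : Fin m → Finset (Fin n)) {T : Finset (Fin m)}
    {e e' : Fin m} (he : e ∈ T) (he' : e' ∈ T) (h : cmp v D T e ≠ cmp v D T e') :
    Disjoint (cmp v D T e) (cmp v D T e') := by
  rw [disjoint_left]
  intro a ha ha'
  exact h ((cmp_eq v D he ha).symm.trans (cmp_eq v D he' ha'))

/-- NONFAR CLAUSES.
PROOF. `B = insert z (VS G)`, `N = NB B = B ∪ VS (tch B)`. For every clause `e ∈ TT` with `VV e ∩ N ≠ ∅` let `K e` be the set of `skel_at`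
and, if `VV e` does not meet `B`, `f e ∈ tch B` a clause with `VV (f e) ∩ VV e ≠ ∅`. Let `E = tch B`, `|E| ≤ c3 (|G| + L)` (`E2`,
`|G| ≤ c1 ≤ l`), `H0 = G ∪ E`: rooted at `z` (`rooted_union`), `|H0| ≤ c1`. For a set `A` of such clauses `e` put
`K A = ⋃_(e ∈ A) K e`, chosen so that the `e ∈ A` are in different components (one representative `e` for each component which meets
`N`). `K A` is generated (`gen_union`), `|K A| ≤ 8 |(K A).filter Bad|` (the components are disjoint), and `H0 ∪ K A` is rooted at `z`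
(`rooted_union`; `K e` is connected and meets `VS H0 ∪ {z}`: `conn_rooted`, `rooted_mono`). Adding the representatives one at a time, `|K A| < c2`
throughout: otherwise at the first time `c2 ≤ |K A| ≤ 2 c2` (`|K e| ≤ c2`), `|H0 ∪ K A| ≤ c1 + 2 c2 ≤ l`, which is a witness
(`(H \ K).card ≤ |H0| ≤ c1`, `gen_kclosed`). Every clause of a component which meets `N` touches `VS (K e)` for its representative `e`, so the number of nonfar
clauses is at most `|tch (insert z (VS (H0 ∪ K A)))| ≤ c3 (c1 + c2 + L)`. (nonfar: the component meets `N`, i.e. some `e` of the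
component has `VV e ∩ N ≠ ∅`.) -/
theorem nonfar_small (hk : 3 ≤ k) {Φ : Fml n k m} {S : St n} {l c1 c2 c3 L : ℕ}
    (hinj : Inj (pos Φ)) (hS : ∀ e, Viol (Φ e) S.1 → ∀ j, (Φ e).1 j ∈ S.2)
    (hE1 : E1 (pos Φ) l) (hE2 : E2 (pos Φ) l c3 L) (hW : NoWit Φ S l c1 c2)
    (hl : 1 + c3 * (1 + L) * (c3 * (c2 + L)) ≤ l) (hL : 1 ≤ L) (hc3 : 1 ≤ c3)
    (hl2 : c1 + 2 * c2 ≤ l) (z : Fin n) (G : Finset (Fin m)) (hG : Rooted (pos Φ) {z} G)
    (hGc : G.card + c3 * (G.card + L) ≤ c1) :
    (nonfar Φ S (NB (pos Φ) (insert z (VS (pos Φ) G)))).card ≤ c3 * (c1 + c2 + L) := by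
  set B := insert z (VS (pos Φ) G) with hB
  set T := TT Φ S with hT
  set D := DD Φ S with hD
  set E := tch (pos Φ) B with hE
  -- the sets of `skel_at`
  have hsk : ∀ e : Fin m, ∃ K : Finset (Fin m), e ∈ T → (e ∈ K ∧ K ⊆ cmp (pos Φ) D T e ∧
      Gen Φ S K ∧ Conn (pos Φ) D K ∧ K.card ≤ 8 * (K.filter (Bad Φ S)).card ∧ K.card ≤ c2 ∧
      (K.filter (Bad Φ S)).Nonempty ∧
      ∀ e' ∈ cmp (pos Φ) D T e, (VV (pos Φ) e' ∩ VS (pos Φ) K).Nonempty) := by
    intro e
    by_cases he : e ∈ T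
    · obtain ⟨K, hK⟩ := skel_at hk hinj hS hE1 hE2 hW hl hL hc3 he
      exact ⟨K, fun _ => hK⟩
    · exact ⟨∅, fun h => absurd h he⟩
  choose K hK using hsk
  have hc2 : 1 ≤ c2 := NonA_wit_pos hW z
  have hGl : G.card ≤ l := by
    have : G.card ≤ c1 := le_trans (Nat.le_add_right _ _) hGc
    omega
  have hEc : E.card ≤ c3 * (G.card + L) := hE2 z G hG hGl
  have hH0 : (G ∪ E).card ≤ c1 := (card_union_le _ _).trans (by omega)
  -- `G ∪ E` is rooted at `z`
  have hR0 : Rooted (pos Φ) {z} (G ∪ E) := by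
    apply rooted_union _ hG
    intro A hA hne
    obtain ⟨b, hb, hb'⟩ := exists_of_ssubset (hA.ssubset_of_ne hne)
    refine ⟨b, mem_sdiff.2 ⟨hb, hb'⟩, ?_⟩
    obtain ⟨x, hx⟩ := (mem_filter.1 hb).2
    rw [mem_inter] at hx
    refine ⟨x, mem_inter.2 ⟨hx.1, mem_union_left _ ?_⟩⟩
    rcases mem_insert.1 hx.2 with h1 | h1
    · exact mem_union_left _ (mem_singleton.2 h1)
    · exact mem_union_right _ h1
  -- `NB B` is contained in `{z} ∪ VS (G ∪ E)`
  have hNsub : NB (pos Φ) B ⊆ {z} ∪ VS (pos Φ) (G ∪ E) := by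
    intro x hx
    rcases mem_union.1 hx with h1 | h1
    · rcases mem_insert.1 h1 with h2 | h2
      · exact mem_union_left _ (mem_singleton.2 h2)
      · apply mem_union_right
        obtain ⟨a, ha, hxa⟩ := mem_biUnion.1 h2
        exact mem_biUnion.2 ⟨a, mem_union_left _ ha, hxa⟩
    · apply mem_union_right
      obtain ⟨a, ha, hxa⟩ := mem_biUnion.1 h1
      exact mem_biUnion.2 ⟨a, mem_union_right _ ha, hxa⟩
  -- clauses touching `NB B`
  set P := T.filter (fun e => (VV (pos Φ) e ∩ NB (pos Φ) B).Nonempty) with hP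
  have hPT : ∀ e ∈ P, e ∈ T := fun e he => (mem_filter.1 he).1
  -- rootedness of the sets `G ∪ E ∪ K A`
  have hRA : ∀ A ⊆ P, Rooted (pos Φ) {z} ((G ∪ E) ∪ A.biUnion K) := by
    intro A hA
    apply rooted_union _ hR0
    apply NonA_rooted_biUnion
    intro e he
    have heP := hA he
    obtain ⟨y, hy⟩ := (mem_filter.1 heP).2
    rw [mem_inter] at hy
    refine ⟨y, hNsub hy.2, ?_⟩
    obtain ⟨h1, h2, h3, h4, _⟩ := hK e (hPT e heP)
    apply conn_rooted (pos Φ) D (DD_sub Φ S) h4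
    exact mem_biUnion.2 ⟨e, h1, hy.1⟩
  -- the family
  let F : Finset (Finset (Fin m)) := P.powerset.filter (fun A =>
    (∀ e ∈ A, ∀ e' ∈ A, e ≠ e' → cmp (pos Φ) D T e ≠ cmp (pos Φ) D T e') ∧
    (A.biUnion K).card < c2)
  have hFne : F.Nonempty := by
    refine ⟨∅, mem_filter.2 ⟨empty_mem_powerset _, ?_, ?_⟩⟩
    · intro e he
      exact absurd he (notMem_empty e)
    · rw [biUnion_empty, card_empty]
      omega
  obtain ⟨A, hAF, hAmax⟩ := exists_max_image F (fun A => A.card) hFne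
  obtain ⟨hAP, hAd, hAc⟩ := mem_filter.1 hAF
  rw [mem_powerset] at hAP
  have hall : ∀ e ∈ P, ∃ a ∈ A, cmp (pos Φ) D T e = cmp (pos Φ) D T a := by
    intro e he
    by_contra hno
    push Not at hno
    have heA : e ∉ A := fun h => hno e h rfl
    have hA'P : insert e A ⊆ P := insert_subset he hAP
    have hd' : ∀ a ∈ insert e A, ∀ a' ∈ insert e A, a ≠ a' →
        cmp (pos Φ) D T a ≠ cmp (pos Φ) D T a' := by
      intro a ha a' ha' hne
      rcases mem_insert.1 ha with h1 | h1 <;> rcases mem_insert.1 ha' with h2 | h2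
      · exact absurd (h1.trans h2.symm) hne
      · rw [h1]
        exact hno a' h2
      · rw [h2]
        exact (hno a h1).symm
      · exact hAd a h1 a' h2 hne
    have hbig : c2 ≤ ((insert e A).biUnion K).card := by
      by_contra hlt
      push Not at hlt
      have := hAmax (insert e A) (mem_filter.2 ⟨mem_powerset.2 hA'P, hd', hlt⟩)
      rw [card_insert_of_notMem heA] at this
      omega
    have hup : ((insert e A).biUnion K).card ≤ 2 * c2 := by
      rw [biUnion_insert]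
      refine (card_union_le _ _).trans ?_
      have := (hK e (hPT e he)).2.2.2.2.2.1
      omega
    have hdisj : ∀ a ∈ insert e A, ∀ a' ∈ insert e A, a ≠ a' → Disjoint (K a) (K a') := by
      intro a ha a' ha' hne
      have haT := hPT a (hA'P ha)
      have haT' := hPT a' (hA'P ha')
      exact disjoint_of_subset_left (hK a haT).2.1 (disjoint_of_subset_right (hK a' haT').2.1
        (NonA_cmp_disj (pos Φ) D haT haT' (hd' a ha a' ha' hne)))
    refine hW z ((G ∪ E) ∪ (insert e A).biUnion K) ((insert e A).biUnion K) ⟨?_, ?_, ?_, ?_, ?_,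
      ?_, ?_⟩
    · exact subset_union_right
    · exact hRA _ hA'P
    · refine (card_union_le _ _).trans ?_
      omega
    · refine (card_le_card ?_).trans hH0
      intro x hx
      rw [mem_sdiff, mem_union] at hx
      exact hx.1.resolve_right hx.2
    · exact hbig
    · exact NonA_card_biUnion _ K hdisj (fun a ha => (hK a (hPT a (hA'P ha))).2.2.2.2.1)
    · exact gen_kclosed (NonA_gen_biUnion _ K (fun a ha => (hK a (hPT a (hA'P ha))).2.2.1))
  -- the final count
  have hfin := hE2 z ((G ∪ E) ∪ A.biUnion K) (hRA A hAP)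
    ((card_union_le _ _).trans (by omega))
  have hsub : nonfar Φ S (NB (pos Φ) B) ⊆
      tch (pos Φ) (insert z (VS (pos Φ) ((G ∪ E) ∪ A.biUnion K))) := by
    intro e he
    obtain ⟨heT, hmeet⟩ := mem_filter.1 he
    obtain ⟨x, hx⟩ := hmeet
    rw [mem_inter] at hx
    obtain ⟨e1, he1, hxe1⟩ := mem_biUnion.1 hx.1
    have he1T : e1 ∈ T := cmp_sub _ _ _ _ he1
    have he1P : e1 ∈ P := mem_filter.2 ⟨he1T, x, mem_inter.2 ⟨hxe1, hx.2⟩⟩
    obtain ⟨a, haA, hcmp⟩ := hall e1 he1P
    have h2 : cmp (pos Φ) D T e1 = cmp (pos Φ) D T e := cmp_eq _ _ heT he1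
    have h3 : e ∈ cmp (pos Φ) D T a := by
      rw [← hcmp, h2]
      exact cmp_self _ _ heT
    obtain ⟨w, hw⟩ := (hK a (hPT a (hAP haA))).2.2.2.2.2.2.2 e h3
    rw [mem_inter] at hw
    refine mem_filter.2 ⟨mem_univ _, w, mem_inter.2 ⟨hw.1, mem_insert_of_mem ?_⟩⟩
    obtain ⟨b, hb, hwb⟩ := mem_biUnion.1 hw.2
    exact mem_biUnion.2 ⟨b, mem_union_right _ (mem_biUnion.2 ⟨a, haA, hb⟩), hwb⟩
  refine (card_le_card hsub).trans (hfin.trans ?_)
  apply Nat.mul_le_mul_left
  have := card_union_le (G ∪ E) (A.biUnion K)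
  omega

end GC
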