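import Pool.Agent.W_bd7f91F_h12.NonA

/-! # Few clauses are in components near the influence set; many tuples if the closure is large -/

set_option autoImplicit false

open Finset
open scoped Classical

namespace GC

variable {n k m : ℕ}

/-- counting tuples without conflicts -/
theorem NonB_count {α : Type*} [Fintype α] [DecidableEq α] (W : Finset α) (C : α → Finset α)
    (B N : ℕ) (hC : ∀ y, (C y).card ≤ B) : ∀ q : ℕ, q * B + N ≤ W.card →
    N ^ q ≤ (univ.filter (fun z : Fin q → α => (∀ j, z j ∈ W) ∧
      ∀ i j, i < j → z j ∉ C (z i))).card := by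
  intro q
  induction q with
  | zero =>
    intro _
    rw [pow_zero, Nat.one_le_iff_ne_zero, card_ne_zero]
    exact ⟨fun i => i.elim0, mem_filter.2 ⟨mem_univ _, fun j => j.elim0, fun i => i.elim0⟩⟩
  | succ q ih =>
    intro hq
    have hq' : q * B + N ≤ W.card := by
      have : q * B ≤ (q + 1) * B := Nat.mul_le_mul_right _ (Nat.le_succ q)
      omega
    have ih' := ih hq'
    set G := univ.filter (fun z : Fin q → α => (∀ j, z j ∈ W) ∧ ∀ i j, i < j → z j ∉ C (z i))
      with hG
    let P : Finset ((_ : Fin q → α) × α) :=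
      G.sigma (fun z => W \ univ.biUnion (fun i => C (z i)))
    have hP : N ^ (q + 1) ≤ P.card := by
      rw [card_sigma, pow_succ]
      calc N ^ q * N ≤ G.card * N := Nat.mul_le_mul_right _ ih'
        _ = ∑ _z ∈ G, N := by rw [sum_const, smul_eq_mul]
        _ ≤ _ := by
          apply sum_le_sum
          intro z _
          have h1 : (univ.biUnion (fun i => C (z i))).card ≤ q * B := by
            have := card_biUnion_le_card_mul (univ : Finset (Fin q)) (fun i => C (z i)) B
              (fun i _ => hC _)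
            simpa using this
          have h2 := le_card_sdiff (univ.biUnion (fun i => C (z i))) W
          omega
    refine hP.trans ?_
    refine card_le_card_of_injOn (fun p => (Fin.snoc (α := fun _ => α) p.1 p.2 : Fin (q + 1) → α))
      ?_ ?_
    · rintro ⟨z, y⟩ hp
      obtain ⟨h1, h2⟩ := mem_sigma.1 hp
      obtain ⟨_, hzW, hzC⟩ := mem_filter.1 h1
      obtain ⟨hyW, hyC⟩ := mem_sdiff.1 h2
      refine mem_filter.2 ⟨mem_univ _, ?_, ?_⟩
      · intro j
        refine Fin.lastCases ?_ (fun j => ?_) j
        · simpa using hyW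
        · simpa using hzW j
      · intro i j
        refine Fin.lastCases ?_ (fun j => ?_) j
        · refine Fin.lastCases ?_ (fun i => ?_) i
          · intro h
            exact absurd h (lt_irrefl _)
          · intro _ hmem
            apply hyC
            refine mem_biUnion.2 ⟨i, mem_univ _, ?_⟩
            simpa using hmem
        · refine Fin.lastCases ?_ (fun i => ?_) i
          · intro h
            exact absurd h (not_lt.2 (Fin.le_last _))
          · intro h hmem
            apply hzC i j (by simpa using h)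
            simpa using hmem
    · rintro ⟨z, y⟩ _ ⟨z', y'⟩ _ h
      dsimp only at h
      have h1 := Fin.snoc_injective2 (α := fun _ => α) h
      obtain ⟨h2, h3⟩ := h1
      subst h2
      subst h3
      rfl

/-- TUPLES IN DIFFERENT COMPONENTS.
PROOF. `W = (TT Φ S).biUnion (DD Φ S)`. Let `z` be a tuple of elements of `W`, `z j ∈ DD Φ S (e j)`, `e j ∈ TT Φ S` in pairwise different components. With
`K j` from `skel_at` (`z j ∈ DD (e j) ⊆ VV (e j)`, so `K j` is rooted at `{z j}`, `conn_rooted`) the union `K` is rooted at the image of `z`,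
generated, so closed, `|K| ≤ q c2 ≤ l`, `|K| ≤ 8 |K.filter Bad|` and `|K.filter Bad| ≥ q` (disjoint, each has a bad clause). Number of such tuples: choose
`z j` in `W` minus the union of the designated sets of the components of `e i`, `i < j`: at least `|W| - 3 q c3 (c2 + L)` choices for each `j`
(`comp_small`, `DD_card`; different components have disjoint designated variables). -/
theorem many_tuples (hk : 3 ≤ k) {Φ : Fml n k m} {S : St n} {l c1 c2 c3 L q : ℕ}
    (hinj : Inj (pos Φ)) (hS : ∀ e, Viol (Φ e) S.1 → ∀ j, (Φ e).1 j ∈ S.2)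
    (hE1 : E1 (pos Φ) l) (hE2 : E2 (pos Φ) l c3 L) (hW : NoWit Φ S l c1 c2)
    (hl : 1 + c3 * (1 + L) * (c3 * (c2 + L)) ≤ l) (hL : 1 ≤ L) (hc3 : 1 ≤ c3)
    (hq : q * c2 ≤ l) :
    (((TT Φ S).biUnion (DD Φ S)).card - 3 * q * (c3 * (c2 + L))) ^ q ≤
      (univ.filter (fun z : Fin q → Fin n => ∃ K : Finset (Fin m),
        Rooted (pos Φ) (univ.image z) K ∧ K.card ≤ l ∧
        K.card ≤ 8 * (K.filter (Bad Φ S)).card ∧ q ≤ (K.filter (Bad Φ S)).card ∧
        KClosed Φ S.1 K)).card := by
  set T := TT Φ S with hT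
  set D := DD Φ S with hD
  set W := T.biUnion D with hWdef
  set M := c3 * (c2 + L) with hM
  -- the sets of `skel_at`
  have hsk : ∀ e : Fin m, ∃ K : Finset (Fin m), e ∈ T → (e ∈ K ∧ K ⊆ cmp (pos Φ) D T e ∧
      Gen Φ S K ∧ Conn (pos Φ) D K ∧ K.card ≤ 8 * (K.filter (Bad Φ S)).card ∧ K.card ≤ c2 ∧
      (K.filter (Bad Φ S)).Nonempty ∧
      ∀ e' ∈ cmp (pos Φ) D T e, (VV (pos Φ) e' ∩ VS (pos Φ) K).Nonempty) := by
    intro e
    by_cases he : e ∈ T
    · obtain ⟨K, hK⟩ := skel_at hk hinj hS hE1 hE2 hW hl hL hc3 he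
      exact ⟨K, fun _ => hK⟩
    · exact ⟨∅, fun h => absurd h he⟩
  choose K hK using hsk
  by_cases hbig : q * (3 * M) ≤ W.card
  swap
  · have hq1 : q ≠ 0 := by
      rintro rfl
      exact hbig (by simp)
    have h0 : W.card - 3 * q * M = 0 := by
      have : 3 * q * M = q * (3 * M) := by ring
      omega
    rw [h0, zero_pow hq1]
    exact Nat.zero_le _
  · -- the conflict sets
    have hch : ∀ y : Fin n, ∃ C : Finset (Fin n), C.card ≤ 3 * M ∧ ∃ e : Option (Fin m),
        y ∈ W → ∃ e0, e = some e0 ∧ e0 ∈ T ∧ y ∈ D e0 ∧ C = (cmp (pos Φ) D T e0).biUnion D := by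
      intro y
      by_cases hy : y ∈ W
      · obtain ⟨e, heT, hye⟩ := mem_biUnion.1 hy
        refine ⟨(cmp (pos Φ) D T e).biUnion D, ?_, some e, fun _ => ⟨e, rfl, heT, hye, rfl⟩⟩
        have h1 := card_biUnion_le_card_mul (cmp (pos Φ) D T e) D 3
          (fun a _ => DD_card hk Φ S a)
        have h2 := comp_small hk hinj hS hE1 hE2 hW hl heT
        calc _ ≤ (cmp (pos Φ) D T e).card * 3 := h1
          _ ≤ M * 3 := Nat.mul_le_mul_right _ h2
          _ = 3 * M := Nat.mul_comm _ _
      · exact ⟨∅, by simp, none, fun h => absurd h hy⟩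
    choose C hCc eo heo using hch
    have hcount := NonB_count W C (3 * M) (W.card - 3 * q * M) hCc q (by
      have : 3 * q * M = q * (3 * M) := by ring
      omega)
    refine hcount.trans (card_le_card ?_)
    intro z hz
    obtain ⟨_, hzW, hzC⟩ := mem_filter.1 hz
    -- the clauses
    have hcl : ∀ j, ∃ e0, eo (z j) = some e0 ∧ e0 ∈ T ∧ z j ∈ D e0 ∧
        C (z j) = (cmp (pos Φ) D T e0).biUnion D := fun j => heo (z j) (hzW j)
    choose f hf1 hfT hfD hfC using hcl
    have hne : ∀ i j, i < j → cmp (pos Φ) D T (f i) ≠ cmp (pos Φ) D T (f j) := by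
      intro i j hij heq
      apply hzC i j hij
      rw [hfC i, heq]
      exact mem_biUnion.2 ⟨f j, cmp_self _ _ (hfT j), hfD j⟩
    have hne' : ∀ i j, i ≠ j → cmp (pos Φ) D T (f i) ≠ cmp (pos Φ) D T (f j) := by
      intro i j hij
      rcases lt_or_gt_of_ne hij with h | h
      · exact hne i j h
      · exact (hne j i h).symm
    have hfinj : Function.Injective f := by
      intro i j hij
      by_contra hc
      exact hne' i j hc (by rw [hij])
    set A := univ.image f with hA
    have hAcard : A.card = q := by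
      rw [hA, card_image_of_injective _ hfinj, card_univ, Fintype.card_fin]
    have hAT : ∀ e ∈ A, e ∈ T := by
      intro e he
      obtain ⟨j, _, rfl⟩ := mem_image.1 he
      exact hfT j
    have hAdisj : ∀ e ∈ A, ∀ e' ∈ A, e ≠ e' → Disjoint (K e) (K e') := by
      intro e he e' he' hee
      obtain ⟨i, _, rfl⟩ := mem_image.1 he
      obtain ⟨j, _, rfl⟩ := mem_image.1 he'
      have hij : i ≠ j := fun h => hee (by rw [h])
      exact disjoint_of_subset_left (hK _ (hfT i)).2.1 (disjoint_of_subset_right
        (hK _ (hfT j)).2.1 (NonA_cmp_disj (pos Φ) D (hfT i) (hfT j) (hne' i j hij)))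
    refine mem_filter.2 ⟨mem_univ _, A.biUnion K, ?_, ?_, ?_, ?_, ?_⟩
    · apply NonA_rooted_biUnion
      intro e he
      obtain ⟨j, _, rfl⟩ := mem_image.1 he
      refine ⟨z j, mem_image_of_mem _ (mem_univ _), ?_⟩
      obtain ⟨h1, _, _, h4, _⟩ := hK _ (hfT j)
      apply conn_rooted (pos Φ) D (DD_sub Φ S) h4
      exact mem_biUnion.2 ⟨f j, h1, DD_sub Φ S _ (hfD j)⟩
    · have h1 := card_biUnion_le_card_mul A K c2 (fun a ha => (hK a (hAT a ha)).2.2.2.2.2.1)
      rw [hAcard] at h1
      omega
    · exact NonA_card_biUnion A K hAdisj (fun a ha => (hK a (hAT a ha)).2.2.2.2.1)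
    · have h2 : (A.biUnion K).filter (Bad Φ S) = A.biUnion (fun e => (K e).filter (Bad Φ S)) := by
        rw [filter_biUnion]
      have h3 : ((A.biUnion K).filter (Bad Φ S)).card =
          ∑ e ∈ A, ((K e).filter (Bad Φ S)).card := by
        rw [h2]
        apply card_biUnion
        intro e he e' he' hne
        exact disjoint_of_subset_left (filter_subset _ _)
          (disjoint_of_subset_right (filter_subset _ _) (hAdisj e he e' he' hne))
      rw [h3, ← hAcard, card_eq_sum_ones]
      apply sum_le_sum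
      intro a ha
      exact card_pos.2 (hK a (hAT a ha)).2.2.2.2.2.2.1
    · exact gen_kclosed (NonA_gen_biUnion A K (fun a ha => (hK a (hAT a ha)).2.2.1))

end GC
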