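import Pool.Agent.W_bd7f91F_h12.Defs

/-! # Numerical bounds (pure real analysis) -/

set_option autoImplicit false

open Finset
open scoped Classical

namespace GC

theorem NumA_log_pow (N : ℕ) : ∃ k0 : ℕ, ∀ k : ℕ, k0 ≤ k → Real.log k ^ N ≤ k := by
  have h := (Real.isLittleO_pow_log_id_atTop (n := N)).bound (c := 1) one_pos
  have h2 := (tendsto_natCast_atTop_atTop (R := ℝ)).eventually h
  obtain ⟨k0, hk0⟩ := Filter.eventually_atTop.1 h2
  refine ⟨k0, fun k hk => ?_⟩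
  have h3 := hk0 k hk
  rw [one_mul, id, Real.norm_eq_abs, Real.norm_eq_abs] at h3
  exact ((le_abs_self _).trans h3).trans (le_of_eq (abs_of_nonneg (Nat.cast_nonneg k)))

theorem NumA_log_ge {k : ℕ} (hk : 3 ≤ k) : 1 ≤ Real.log k := by
  have hk3 : (3 : ℝ) ≤ k := by exact_mod_cast hk
  rw [Real.le_log_iff_exp_le (by linarith)]
  have := Real.exp_one_lt_d9
  linarith

theorem NumA_log_le {k : ℕ} (hk : 3 ≤ k) : Real.log k ≤ k := by
  have hk3 : (3 : ℝ) ≤ k := by exact_mod_cast hk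
  have := Real.log_le_sub_one_of_pos (x := (k : ℝ)) (by linarith)
  linarith

theorem NumA_pow {k : ℕ} (hk : 20 ≤ k) : 20 * k * (k + 1) ≤ 2 ^ k := by
  induction k, hk using Nat.le_induction with
  | base => norm_num
  | succ k hk ih =>
    rw [pow_succ]
    nlinarith

/-- `m ≤ 2^k n`.  PROOF. `ln k - 20 ln ln k ≤ ln k ≤ k` (`ln ln k ≥ 0` for `k ≥ 3`). -/
theorem hm_le {n k m : ℕ} (hk : 3 ≤ k) (h : HM n k m) : (m : ℝ) ≤ 2 ^ k * n := by
  have hL1 := NumA_log_ge hk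
  have hLk := NumA_log_le hk
  have hlL : 0 ≤ Real.log (Real.log k) := Real.log_nonneg hL1
  have hk3 : (3 : ℝ) ≤ k := by exact_mod_cast hk
  have hn : (0 : ℝ) ≤ n := Nat.cast_nonneg n
  unfold HM at h
  have h1 : (2 : ℝ) ^ k * (Real.log k - 20 * Real.log (Real.log k)) * n ≤ 2 ^ k * k * n := by
    refine mul_le_mul_of_nonneg_right ?_ hn
    refine mul_le_mul_of_nonneg_left ?_ (by positivity)
    linarith
  have h2 : (m : ℝ) * k ≤ (2 ^ k * n) * k := by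
    refine (h.trans h1).trans (le_of_eq ?_)
    ring
  exact le_of_mul_le_mul_right h2 (by linarith)

/-- the better form: `m / n * 2^(-k) ≤ ln k / k` -/
theorem hm_le2 {n k m : ℕ} (hk : 3 ≤ k) (h : HM n k m) :
    (m : ℝ) * k ≤ 2 ^ k * Real.log k * n := by
  have hL1 := NumA_log_ge hk
  have hlL : 0 ≤ Real.log (Real.log k) := Real.log_nonneg hL1
  have hn : (0 : ℝ) ≤ n := Nat.cast_nonneg n
  unfold HM at h
  refine h.trans ?_
  refine mul_le_mul_of_nonneg_right ?_ hn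
  refine mul_le_mul_of_nonneg_left ?_ (by positivity)
  linarith

/-- for `k` large: `0 < g ≤ 1`, and `b ≤ n` for `n` large -/
theorem gg_bounds : ∃ k0 : ℕ, ∀ k, k0 ≤ k → 0 < gg k ∧ gg k ≤ 1 ∧
    (∀ n : ℕ, bb n k ≤ n ∧ gg k * n ≤ bb n k) := by
  obtain ⟨k1, hk1⟩ := NumA_log_pow 10
  refine ⟨max k1 3, fun k hk => ?_⟩
  have h3 : 3 ≤ k := (le_max_right _ _).trans hk
  have hk3 : (3 : ℝ) ≤ k := by exact_mod_cast h3
  have hL1 := NumA_log_ge h3
  have hg0 : 0 < gg k := by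
    unfold gg
    positivity
  have hg1 : gg k ≤ 1 := by
    unfold gg
    rw [div_le_one (by linarith)]
    exact hk1 k ((le_max_left _ _).trans hk)
  refine ⟨hg0, hg1, fun n => ⟨?_, Nat.le_ceil _⟩⟩
  unfold bb
  rw [Nat.ceil_le]
  have hn : (0 : ℝ) ≤ n := Nat.cast_nonneg n
  nlinarith

/-- FEW CRITICAL CLAUSES.
PROOF. `u = k / (n (2^k - 1 - k)) ≤ 1/2`, `(1 - u)^m ≥ exp(-(u + u^2) m)` (`-ln(1-u) ≤ u + u^2` for `u ≤ 1/2`), and
`u m = (k m / (2^k n)) (2^k / (2^k - 1 - k)) ≤ (L - 20 ln L)(1 + 2 (k+1)/2^k)`, `L = ln k`; the correction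
`(L)(2 (k+1)/2^k) + u^2 m ≤ ln 2` for `k` large (and `n ≥ 1`). So `(1 - u)^m ≥ exp(-L + 20 ln L)/2 = L^20 / (2 k)`. -/
theorem f0_num : ∃ k0 : ℕ, ∀ k, k0 ≤ k → ∃ n0 : ℕ, ∀ n, n0 ≤ n → ∀ m, HM n k m →
    Real.log k ^ 20 / (2 * k) ≤ (1 - (k : ℝ) / (n * (2 ^ k - 1 - k))) ^ m ∧
      Real.log k ^ 20 / (2 * k) ≤ 1 := by
  obtain ⟨k1, hk1⟩ := NumA_log_pow 20
  refine ⟨max k1 20, fun k hk => ⟨1, fun n hn m hHM => ?_⟩⟩
  have hk20 : 20 ≤ k := (le_max_right _ _).trans hk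
  have h3 : 3 ≤ k := by omega
  have hkR : (20 : ℝ) ≤ k := by exact_mod_cast hk20
  have hL1 := NumA_log_ge h3
  have hLk := NumA_log_le h3
  have hlL : 0 ≤ Real.log (Real.log k) := Real.log_nonneg hL1
  have hnR : (1 : ℝ) ≤ n := by exact_mod_cast hn
  have hpow : (20 : ℝ) * k * (k + 1) ≤ 2 ^ k := by exact_mod_cast NumA_pow hk20
  have hlast : Real.log k ^ 20 / (2 * k) ≤ 1 := by
    rw [div_le_one (by linarith)]
    have := hk1 k ((le_max_left _ _).trans hk)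
    linarith
  refine ⟨?_, hlast⟩
  unfold HM at hHM
  obtain ⟨L, hL⟩ : ∃ L, Real.log k = L := ⟨_, rfl⟩
  rw [hL] at hHM hL1 hLk hlL ⊢
  obtain ⟨M, hM⟩ : ∃ M : ℝ, (2 : ℝ) ^ k - 1 - k = M := ⟨_, rfl⟩
  rw [hM]
  have hM1 : 10 * (k : ℝ) * (k + 1) ≤ M := by nlinarith
  have hM2 : (2 : ℝ) ^ k ≤ 2 * M := by nlinarith
  have hMpos : 0 < M := by nlinarith
  have hnM : 0 < (n : ℝ) * M := by positivity
  obtain ⟨u, hu⟩ : ∃ u : ℝ, (k : ℝ) / (n * M) = u := ⟨_, rfl⟩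
  rw [hu]
  have hu0 : 0 ≤ u := by
    rw [← hu]
    positivity
  have huM : u ≤ k / M := by
    rw [← hu]
    refine div_le_div_of_nonneg_left (by linarith) hMpos ?_
    nlinarith
  have hkM : (k : ℝ) / M ≤ 1 / 2 := by
    rw [div_le_div_iff₀ hMpos (by norm_num)]
    nlinarith
  have hu2 : u ≤ 1 / 2 := huM.trans hkM
  have hpos : 0 < 1 - u := by linarith
  have hlog : -(u + 2 * u ^ 2) ≤ Real.log (1 - u) := by
    have h1 := Real.one_sub_inv_le_log_of_pos hpos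
    have h2 : (1 - u)⁻¹ ≤ 1 + u + 2 * u ^ 2 := by
      rw [inv_le_iff_one_le_mul₀ hpos]
      have h3 : 0 ≤ u ^ 2 * (1 - 2 * u) := mul_nonneg (sq_nonneg u) (by linarith)
      nlinarith
    linarith
  have hm0 : (0 : ℝ) ≤ m := Nat.cast_nonneg m
  have hmu : (m : ℝ) * u ≤ 2 ^ k * (L - 20 * Real.log L) / M := by
    rw [← hu, ← mul_div_assoc, div_le_div_iff₀ hnM hMpos]
    have h1 := mul_le_mul_of_nonneg_right hHM hMpos.le
    nlinarith
  have hmu1 : (m : ℝ) * u ≤ (L - 20 * Real.log L) + (k + 1) * L / M := by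
    refine hmu.trans ?_
    have h1 : (2 : ℝ) ^ k = M + (k + 1) := by linarith
    rw [h1, add_mul, add_div, mul_div_cancel_left₀ _ hMpos.ne']
    have h2 : ((k : ℝ) + 1) * (L - 20 * Real.log L) / M ≤ (k + 1) * L / M := by
      refine div_le_div_of_nonneg_right ?_ hMpos.le
      refine mul_le_mul_of_nonneg_left ?_ (by linarith)
      linarith
    linarith
  have hmu2 : (m : ℝ) * u ≤ 2 * L := by
    refine hmu.trans ?_
    rw [div_le_iff₀ hMpos]
    have h1 : (2 : ℝ) ^ k * (L - 20 * Real.log L) ≤ 2 ^ k * L :=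
      mul_le_mul_of_nonneg_left (by linarith) (by positivity)
    have h2 : (2 : ℝ) ^ k * L ≤ (2 * M) * L := mul_le_mul_of_nonneg_right hM2 (by linarith)
    nlinarith
  have hsq : (m : ℝ) * (2 * u ^ 2) ≤ 4 * k * L / M := by
    have h1 : (m : ℝ) * (2 * u ^ 2) = 2 * u * (m * u) := by ring
    have h2 : 2 * u * (m * u) ≤ 2 * u * (2 * L) := mul_le_mul_of_nonneg_left hmu2 (by linarith)
    have h3 : 2 * u * (2 * L) ≤ 2 * (k / M) * (2 * L) :=
      mul_le_mul_of_nonneg_right (by linarith) (by linarith)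
    have h4 : 2 * ((k : ℝ) / M) * (2 * L) = 4 * k * L / M := by ring
    linarith
  have hfrac : ((k : ℝ) + 1) * L / M + 4 * k * L / M ≤ 1 / 2 := by
    rw [← add_div, div_le_div_iff₀ hMpos (by norm_num)]
    have h1 : ((k : ℝ) + 1) * L ≤ (k + 1) * k := mul_le_mul_of_nonneg_left hLk (by linarith)
    have h2 : 4 * (k : ℝ) * L ≤ 4 * k * k := mul_le_mul_of_nonneg_left hLk (by linarith)
    nlinarith
  have hlog2 : (1 : ℝ) / 2 ≤ Real.log 2 := by
    have := Real.log_two_gt_d9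
    linarith
  have hmain : -((L - 20 * Real.log L) + Real.log 2) ≤ (m : ℝ) * Real.log (1 - u) := by
    have h1 := mul_le_mul_of_nonneg_left hlog hm0
    have h2 : (m : ℝ) * -(u + 2 * u ^ 2) = -(m * u) - m * (2 * u ^ 2) := by ring
    linarith
  have hexp : (1 - u) ^ m = Real.exp (m * Real.log (1 - u)) := by
    rw [Real.exp_nat_mul, Real.exp_log hpos]
  rw [hexp]
  refine le_trans (le_of_eq ?_) (Real.exp_le_exp.2 hmain)
  have hkpos : (0 : ℝ) < k := by linarith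
  have hLpos : 0 < L := by linarith
  rw [show -((L - 20 * Real.log L) + Real.log 2) = (20 : ℕ) * Real.log L - L - Real.log 2 by
    push_cast; ring, Real.exp_sub, Real.exp_sub, Real.exp_nat_mul, Real.exp_log hLpos,
    Real.exp_log (by norm_num : (0 : ℝ) < 2), ← hL, Real.exp_log hkpos, div_div, mul_comm (k : ℝ) 2]

end GC
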