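import Pool.Agent.W_bd7f91F_h12.NumA
import Pool.Agent.W_bd7f91F_h12.LDe

/-! # Numerical bounds (pure real analysis) -/

set_option autoImplicit false

open Finset
open scoped Classical

namespace GC

/-- powers of `ln k` are small compared with `k` -/
theorem NumC_ev (p : ℕ) {c : ℝ} (hc : 0 < c) :
    ∃ k0 : ℕ, ∀ k : ℕ, k0 ≤ k → Real.log k ^ p ≤ c * k := by
  have h1 : (fun x : ℝ => Real.log x ^ p) =o[Filter.atTop] (id : ℝ → ℝ) :=
    Real.isLittleO_pow_log_id_atTop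
  have h2 := h1.comp_tendsto (tendsto_natCast_atTop_atTop (R := ℝ))
  have h3 := h2.bound hc
  obtain ⟨k0, hk0⟩ := Filter.eventually_atTop.1 h3
  refine ⟨k0, fun k hk => ?_⟩
  have h4 := hk0 k hk
  simp only [Function.comp, id, Real.norm_eq_abs] at h4
  have h5 : |(k : ℝ)| = k := abs_of_nonneg (Nat.cast_nonneg k)
  rw [h5] at h4
  exact (le_abs_self _).trans h4

theorem NumC_ll_le {n : ℕ} (hn : 3 ≤ n) : (ll n : ℝ) ≤ 3 * Real.log n := by
  have hn' : (3 : ℝ) ≤ n := by exact_mod_cast hn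
  have h1 : (Nat.log 2 n : ℝ) ≤ Real.logb 2 n := by
    have := Real.natLog_le_logb n 2
    simpa using this
  have h2 : Real.logb 2 n = Real.log n / Real.log 2 := rfl
  have hl2 : (0.6931471803 : ℝ) < Real.log 2 := Real.log_two_gt_d9
  have h3 : (1 : ℝ) ≤ Real.log n := by
    rw [Real.le_log_iff_exp_le (by linarith)]
    have := Real.exp_one_lt_d9
    linarith
  have h4 : Real.log n / Real.log 2 ≤ 2 * Real.log n := by
    rw [div_le_iff₀ (by linarith)]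
    nlinarith
  have h5 : (ll n : ℝ) = (Nat.log 2 n : ℝ) + 1 := by simp [ll]
  rw [h5]
  linarith [h1.trans (h2 ▸ h4)]

theorem NumC_ll_ev (p : ℕ) {c : ℝ} (hc : 0 < c) :
    ∃ n0 : ℕ, ∀ n : ℕ, n0 ≤ n → (ll n : ℝ) ^ p ≤ c * n := by
  obtain ⟨n0, hn0⟩ := NumC_ev p (show (0 : ℝ) < c / 3 ^ p by positivity)
  refine ⟨max n0 3, fun n hn => ?_⟩
  have h1 := hn0 n (le_trans (le_max_left _ _) hn)
  have h2 := NumC_ll_le (le_trans (le_max_right _ _) hn)
  calc (ll n : ℝ) ^ p ≤ (3 * Real.log n) ^ p := pow_le_pow_left₀ (Nat.cast_nonneg _) h2 _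
    _ = 3 ^ p * Real.log n ^ p := by rw [mul_pow]
    _ ≤ 3 ^ p * (c / 3 ^ p * n) := by gcongr
    _ = c * n := by field_simp

theorem NumC_log_ev (A : ℝ) : ∃ k0 : ℕ, ∀ k : ℕ, k0 ≤ k → A ≤ Real.log k := by
  have h := Real.tendsto_log_atTop.comp (tendsto_natCast_atTop_atTop (R := ℝ))
  have h2 := h.eventually_ge_atTop A
  obtain ⟨k0, hk0⟩ := Filter.eventually_atTop.1 h2
  exact ⟨k0, fun k hk => hk0 k hk⟩

/-- one term of the binomial expansion -/
theorem NumC_choose (m w : ℕ) {y : ℝ} (hy : 0 ≤ y) :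
    (m.choose w : ℝ) * y ^ w ≤ Real.exp (y * m) := by
  have h1 : (1 + y) ^ m ≤ Real.exp (y * m) := by
    have : 1 + y ≤ Real.exp y := by linarith [Real.add_one_le_exp y]
    calc (1 + y) ^ m ≤ (Real.exp y) ^ m := pow_le_pow_left₀ (by linarith) this _
      _ = Real.exp (y * m) := by rw [← Real.exp_nat_mul]; ring_nf
  refine le_trans ?_ h1
  by_cases hw : w ≤ m
  · have h2 : (1 + y) ^ m = ∑ i ∈ range (m + 1), (1 : ℝ) ^ i * y ^ (m - i) * (m.choose i : ℝ) :=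
      add_pow 1 y m
    have h3 : (1 + y) ^ m = ∑ i ∈ range (m + 1), y ^ i * (m.choose i : ℝ) := by
      rw [add_comm, add_pow]
      refine Finset.sum_congr rfl fun i _ => by simp
    rw [h3, mul_comm]
    exact Finset.single_le_sum (f := fun i => y ^ i * (m.choose i : ℝ))
      (fun i _ => by positivity) (Finset.mem_range.2 (Nat.lt_succ_of_le hw))
  · rw [Nat.choose_eq_zero_of_lt (not_le.1 hw)]
    simp only [Nat.cast_zero, zero_mul]
    positivity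

/-- the initial part of the binomial expansion -/
theorem NumC_sum (m w0 : ℕ) {x z : ℝ} (hx : 0 ≤ x) (hz : 0 < z) (hz1 : z ≤ 1) :
    z ^ w0 * ∑ w ∈ range w0, (m.choose w : ℝ) * x ^ w ≤ Real.exp (x * z * m) := by
  have h1 : (1 + x * z) ^ m ≤ Real.exp (x * z * m) := by
    have h0 : 0 ≤ x * z := by positivity
    have : 1 + x * z ≤ Real.exp (x * z) := by linarith [Real.add_one_le_exp (x * z)]
    calc (1 + x * z) ^ m ≤ (Real.exp (x * z)) ^ m := pow_le_pow_left₀ (by linarith) this _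
      _ = Real.exp (x * z * m) := by rw [← Real.exp_nat_mul]; ring_nf
  refine le_trans ?_ h1
  have h3 : (1 + x * z) ^ m = ∑ i ∈ range (m + 1), (x * z) ^ i * (m.choose i : ℝ) := by
    rw [add_comm, add_pow]
    refine Finset.sum_congr rfl fun i _ => by simp
  rw [h3, Finset.mul_sum]
  have h4 : ∑ w ∈ range w0, z ^ w0 * ((m.choose w : ℝ) * x ^ w) ≤
      ∑ w ∈ range w0, (x * z) ^ w * (m.choose w : ℝ) := by
    refine Finset.sum_le_sum fun w hw => ?_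
    have hw' : w ≤ w0 := (Finset.mem_range.1 hw).le
    have h5 : z ^ w0 ≤ z ^ w := pow_le_pow_of_le_one hz.le hz1 hw'
    calc z ^ w0 * ((m.choose w : ℝ) * x ^ w) ≤ z ^ w * ((m.choose w : ℝ) * x ^ w) := by gcongr
      _ = (x * z) ^ w * (m.choose w : ℝ) := by rw [mul_pow]; ring
  refine h4.trans ?_
  -- extend the sum: terms beyond m vanish
  have h6 : ∑ w ∈ range w0, (x * z) ^ w * (m.choose w : ℝ) ≤
      ∑ w ∈ range (max w0 (m + 1)), (x * z) ^ w * (m.choose w : ℝ) :=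
    Finset.sum_le_sum_of_subset_of_nonneg
      (Finset.range_mono (le_max_left _ _)) (fun i _ _ => by positivity)
  refine h6.trans (le_of_eq ?_)
  symm
  refine Finset.sum_subset (Finset.range_mono (le_max_right _ _)) fun i _ hi => ?_
  rw [Nat.choose_eq_zero_of_lt (by simpa using hi)]
  simp

/-- the first term of the error bound -/
theorem NumC_first {n k m w0 : ℕ} (hk : 3 ≤ k) (h : HM n k m)
    (hL : (2 : ℝ) ≤ Real.log k) (hw : Real.log k ^ 5 * n / k ≤ w0) :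
    (m.choose w0 : ℝ) / (2 ^ k - 1) ^ w0 ≤ Real.exp (-(Real.log k ^ 5 * n / k)) := by
  have hk0 : (0 : ℝ) < k := by positivity
  have h2k : (8 : ℝ) ≤ 2 ^ k := by
    calc (8 : ℝ) = 2 ^ 3 := by norm_num
      _ ≤ 2 ^ k := pow_le_pow_right₀ (by norm_num) hk
  have hm := hm_le2 hk h
  set L := Real.log k with hLdef
  have hL4 : (16 : ℝ) ≤ L ^ 4 := by
    calc (16 : ℝ) = 2 ^ 4 := by norm_num
      _ ≤ L ^ 4 := pow_le_pow_left₀ (by norm_num) hL _
  have hy : 0 ≤ L ^ 4 / 2 ^ k := by positivity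
  have h1 := NumC_choose m w0 hy
  have h2 : L ^ 4 / 2 ^ k * m ≤ w0 := by
    refine le_trans ?_ hw
    rw [div_mul_eq_mul_div, div_le_div_iff₀ (by positivity) hk0]
    calc L ^ 4 * m * k = L ^ 4 * (m * k) := by ring
      _ ≤ L ^ 4 * (2 ^ k * L * n) := by gcongr
      _ = L ^ 5 * n * 2 ^ k := by ring
  have h3 : Real.exp 2 ≤ L ^ 4 / 2 ^ k * (2 ^ k - 1) := by
    have e1 : Real.exp 2 = Real.exp 1 * Real.exp 1 := by rw [← Real.exp_add]; norm_num
    have e2 : Real.exp 2 ≤ 8 := by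
      rw [e1]
      have := Real.exp_one_lt_d9
      have h0 := Real.exp_pos 1
      nlinarith
    refine e2.trans ?_
    rw [div_mul_eq_mul_div, le_div_iff₀ (by positivity)]
    nlinarith
  have h4 : (m.choose w0 : ℝ) * Real.exp 2 ^ w0 ≤ Real.exp w0 * (2 ^ k - 1) ^ w0 := by
    calc (m.choose w0 : ℝ) * Real.exp 2 ^ w0
        ≤ (m.choose w0 : ℝ) * (L ^ 4 / 2 ^ k * (2 ^ k - 1)) ^ w0 := by
          gcongr
      _ = ((m.choose w0 : ℝ) * (L ^ 4 / 2 ^ k) ^ w0) * (2 ^ k - 1) ^ w0 := by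
          rw [mul_pow]; ring
      _ ≤ Real.exp (L ^ 4 / 2 ^ k * m) * (2 ^ k - 1) ^ w0 := by
          have : (0 : ℝ) ≤ 2 ^ k - 1 := by linarith
          gcongr
      _ ≤ Real.exp w0 * (2 ^ k - 1) ^ w0 := by
          have : (0 : ℝ) ≤ 2 ^ k - 1 := by linarith
          gcongr
  have h5 : (m.choose w0 : ℝ) / (2 ^ k - 1) ^ w0 ≤ Real.exp (-(w0 : ℝ)) := by
    have hpos : (0 : ℝ) < (2 ^ k - 1) ^ w0 := pow_pos (by linarith) _
    rw [div_le_iff₀ hpos]
    have e3 : Real.exp 2 ^ w0 = Real.exp (w0 * 2) := by rw [← Real.exp_nat_mul]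
    rw [e3] at h4
    have e4 : Real.exp (w0 : ℝ) = Real.exp (w0 * 2) * Real.exp (-(w0 : ℝ)) := by
      rw [← Real.exp_add]; ring_nf
    rw [e4] at h4
    have e5 := Real.exp_pos ((w0 : ℝ) * 2)
    have h6 : Real.exp (w0 * 2) * (m.choose w0 : ℝ) ≤
        Real.exp (w0 * 2) * (Real.exp (-(w0 : ℝ)) * (2 ^ k - 1) ^ w0) := by
      calc Real.exp (w0 * 2) * (m.choose w0 : ℝ) = (m.choose w0 : ℝ) * Real.exp (w0 * 2) := by ring
        _ ≤ _ := h4
        _ = _ := by ring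
    exact le_of_mul_le_mul_left h6 e5
  refine h5.trans (Real.exp_le_exp.2 ?_)
  linarith

/-- the sum over the smaller sets -/
theorem NumC_second {n k m w0 : ℕ} (hk : 3 ≤ k) (h : HM n k m)
    (hL : (2 : ℝ) ≤ Real.log k) (hw : (w0 : ℝ) ≤ Real.log k ^ 5 * n / k + 1) :
    ∑ w ∈ range w0, (m.choose w : ℝ) * ((k + 1 : ℝ) / (2 ^ k - 1)) ^ w ≤
      Real.exp (Real.log k ^ 6 * n / k + Real.log k + 4 * Real.log k * n / k) := by
  have hk0 : (0 : ℝ) < k := by positivity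
  have hk1 : (1 : ℝ) ≤ k := by exact_mod_cast (by omega : 1 ≤ k)
  have h2k : (8 : ℝ) ≤ 2 ^ k := by
    calc (8 : ℝ) = 2 ^ 3 := by norm_num
      _ ≤ 2 ^ k := pow_le_pow_right₀ (by norm_num) hk
  have hm := hm_le2 hk h
  have hkL : (k : ℝ) = Real.exp (Real.log k) := (Real.exp_log hk0).symm
  set L := Real.log k with hLdef
  have hx : (0 : ℝ) ≤ (k + 1 : ℝ) / (2 ^ k - 1) := div_nonneg (by positivity) (by linarith)
  have h1 := NumC_sum m w0 hx (show (0 : ℝ) < 1 / k by positivity)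
    (by rw [div_le_one hk0]; exact hk1)
  set S := ∑ w ∈ range w0, (m.choose w : ℝ) * ((k + 1 : ℝ) / (2 ^ k - 1)) ^ w with hS
  have h2 : (k + 1 : ℝ) / (2 ^ k - 1) * (1 / k) * m ≤ 4 * L * n / k := by
    have e1 : (k + 1 : ℝ) ≤ 2 * k := by linarith
    have e2 : (2 ^ k : ℝ) ≤ 2 * (2 ^ k - 1) := by linarith
    have e3 : (m : ℝ) ≤ 2 ^ k * L * n / k := by rw [le_div_iff₀ hk0]; exact hm
    have e4 : (0 : ℝ) < 2 ^ k - 1 := by linarith
    have e5 : (k + 1 : ℝ) / (2 ^ k - 1) * (1 / k) ≤ 4 / 2 ^ k := by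
      rw [div_mul_div_comm, div_le_div_iff₀ (by positivity) (by positivity)]
      have : (k + 1 : ℝ) * 2 ^ k ≤ (2 * k) * (2 * (2 ^ k - 1)) := by gcongr
      nlinarith
    calc (k + 1 : ℝ) / (2 ^ k - 1) * (1 / k) * m ≤ 4 / 2 ^ k * (2 ^ k * L * n / k) := by
          gcongr
      _ = 4 * L * n / k := by field_simp
  have h3 : Real.exp (L * w0) * ((1 / (k : ℝ)) ^ w0 * S) = S := by
    have : (1 / (k : ℝ)) ^ w0 = Real.exp (-(L * w0)) := by
      rw [Real.exp_neg, mul_comm L, Real.exp_nat_mul, ← hkL, one_div, inv_pow]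
    rw [this, ← mul_assoc, ← Real.exp_add, add_neg_cancel, Real.exp_zero, one_mul]
  rw [← h3]
  calc Real.exp (L * w0) * ((1 / (k : ℝ)) ^ w0 * S)
      ≤ Real.exp (L * w0) * Real.exp ((k + 1 : ℝ) / (2 ^ k - 1) * (1 / k) * m) := by gcongr
    _ = Real.exp (L * w0 + (k + 1 : ℝ) / (2 ^ k - 1) * (1 / k) * m) := by rw [Real.exp_add]
    _ ≤ Real.exp (L ^ 6 * n / k + L + 4 * L * n / k) := by
        rw [Real.exp_le_exp]
        have e6 : L * w0 ≤ L * (L ^ 5 * n / k + 1) := by gcongr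
        have e7 : L * (L ^ 5 * n / k + 1) = L ^ 6 * n / k + L := by ring
        linarith

theorem NumC_third {n k : ℕ} (hn : 12 ≤ n) (hk : 3 ≤ k) (hL : (2 : ℝ) ≤ Real.log k)
    (hg : Real.log k ^ 10 ≤ k) :
    (1 - (bb n k : ℝ) / n) ^ (n / 3) ≤ Real.exp (-(Real.log k ^ 10 * n / (4 * k))) := by
  have hk0 : (0 : ℝ) < k := by positivity
  have hn0 : (0 : ℝ) < n := by positivity
  have hg1 : gg k ≤ 1 := by
    unfold gg
    rw [div_le_one hk0]
    exact hg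
  have hg0 : 0 ≤ gg k := by unfold gg; positivity
  have hbn : (bb n k : ℝ) ≤ n := by
    have : bb n k ≤ n := by
      unfold bb
      rw [Nat.ceil_le]
      nlinarith
    exact_mod_cast this
  have hbg : gg k ≤ (bb n k : ℝ) / n := by
    rw [le_div_iff₀ hn0]
    exact Nat.le_ceil _
  have h1 : 1 - (bb n k : ℝ) / n ≤ Real.exp (-gg k) := by
    have := Real.add_one_le_exp (-gg k)
    linarith
  have h0 : 0 ≤ 1 - (bb n k : ℝ) / n := by
    rw [sub_nonneg, div_le_one hn0]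
    exact hbn
  have hn3 : (n : ℝ) / 4 ≤ ((n / 3 : ℕ) : ℝ) := by
    have : n ≤ 4 * (n / 3) := by omega
    have : (n : ℝ) ≤ 4 * ((n / 3 : ℕ) : ℝ) := by exact_mod_cast this
    linarith
  calc (1 - (bb n k : ℝ) / n) ^ (n / 3) ≤ Real.exp (-gg k) ^ (n / 3) :=
        pow_le_pow_left₀ h0 h1 _
    _ = Real.exp (-(gg k * ((n / 3 : ℕ) : ℝ))) := by
        rw [← Real.exp_nat_mul]; ring_nf
    _ ≤ Real.exp (-(Real.log k ^ 10 * n / (4 * k))) := by
        rw [Real.exp_le_exp, neg_le_neg_iff]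
        calc Real.log k ^ 10 * n / (4 * k) = gg k * (n / 4) := by unfold gg; ring
          _ ≤ gg k * ((n / 3 : ℕ) : ℝ) := by gcongr

theorem NumC_fourth {n k : ℕ} (hn : 12 ≤ n) (hk : 3 ≤ k) (hL : (2 : ℝ) ≤ Real.log k)
    (hg : Real.log k ^ 20 ≤ k) :
    (k : ℝ) ^ (bb n k) * (1 - Real.log k ^ 20 / (2 * k) / 2) ^ (n / 3) ≤
      Real.exp (Real.log k ^ 11 * n / k + Real.log k - Real.log k ^ 20 * n / (16 * k)) := by
  have hk0 : (0 : ℝ) < k := by positivity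
  have hkL : (k : ℝ) = Real.exp (Real.log k) := (Real.exp_log hk0).symm
  have hn3 : (n : ℝ) / 4 ≤ ((n / 3 : ℕ) : ℝ) := by
    have : n ≤ 4 * (n / 3) := by omega
    have : (n : ℝ) ≤ 4 * ((n / 3 : ℕ) : ℝ) := by exact_mod_cast this
    linarith
  have hb : (bb n k : ℝ) ≤ Real.log k ^ 10 * n / k + 1 := by
    have h1 : (bb n k : ℝ) < gg k * n + 1 := Nat.ceil_lt_add_one (by unfold gg; positivity)
    have h2 : gg k * n = Real.log k ^ 10 * n / k := by unfold gg; ring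
    linarith
  set L := Real.log k with hLdef
  have h1 : (k : ℝ) ^ (bb n k) ≤ Real.exp (L ^ 11 * n / k + L) := by
    rw [hkL, ← Real.exp_nat_mul, Real.exp_le_exp, ← hkL]
    calc (bb n k : ℝ) * L ≤ (L ^ 10 * n / k + 1) * L := by gcongr
      _ = L ^ 11 * n / k + L := by ring
  have h2 : (1 - L ^ 20 / (2 * k) / 2) ^ (n / 3) ≤ Real.exp (-(L ^ 20 * n / (16 * k))) := by
    have e1 : L ^ 20 / (2 * k) / 2 = L ^ 20 / (4 * k) := by ring
    have e0 : 0 ≤ 1 - L ^ 20 / (4 * k) := by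
      rw [sub_nonneg, div_le_one (by positivity)]
      linarith
    rw [e1]
    have e2 : 1 - L ^ 20 / (4 * k) ≤ Real.exp (-(L ^ 20 / (4 * k))) := by
      have := Real.add_one_le_exp (-(L ^ 20 / (4 * k)))
      linarith
    calc (1 - L ^ 20 / (4 * k)) ^ (n / 3) ≤ Real.exp (-(L ^ 20 / (4 * k))) ^ (n / 3) :=
          pow_le_pow_left₀ e0 e2 _
      _ = Real.exp (-(L ^ 20 / (4 * k) * ((n / 3 : ℕ) : ℝ))) := by
          rw [← Real.exp_nat_mul]; ring_nf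
      _ ≤ Real.exp (-(L ^ 20 * n / (16 * k))) := by
          rw [Real.exp_le_exp, neg_le_neg_iff]
          calc L ^ 20 * n / (16 * k) = L ^ 20 / (4 * k) * (n / 4) := by ring
            _ ≤ L ^ 20 / (4 * k) * ((n / 3 : ℕ) : ℝ) := by gcongr
  have h0 : 0 ≤ (1 - L ^ 20 / (2 * k) / 2) ^ (n / 3) := by
    have e1 : L ^ 20 / (2 * k) / 2 = L ^ 20 / (4 * k) := by ring
    have e0 : 0 ≤ 1 - L ^ 20 / (4 * k) := by
      rw [sub_nonneg, div_le_one (by positivity)]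
      linarith
    rw [e1]
    positivity
  calc (k : ℝ) ^ (bb n k) * (1 - L ^ 20 / (2 * k) / 2) ^ (n / 3)
      ≤ Real.exp (L ^ 11 * n / k + L) * Real.exp (-(L ^ 20 * n / (16 * k))) :=
        mul_le_mul h1 h2 h0 (Real.exp_pos _).le
    _ = Real.exp (L ^ 11 * n / k + L - L ^ 20 * n / (16 * k)) := by
        rw [← Real.exp_add]; ring_nf

theorem NumC_np (n : ℕ) : (n : ℝ) + 1 ≤ Real.exp (ll n) := by
  have h1 : n + 1 ≤ 2 ^ (ll n) := Nat.lt_pow_succ_log_self (by norm_num) n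
  have h2 : ((n : ℝ) + 1) ≤ 2 ^ (ll n) := by exact_mod_cast h1
  have h3 : (2 : ℝ) ≤ Real.exp 1 := by
    have := Real.add_one_le_exp (1 : ℝ)
    linarith
  calc (n : ℝ) + 1 ≤ 2 ^ (ll n) := h2
    _ ≤ Real.exp 1 ^ (ll n) := pow_le_pow_left₀ (by norm_num) h3 _
    _ = Real.exp (ll n) := by rw [← Real.exp_nat_mul, mul_one]

theorem NumC_mp {n k m : ℕ} (hk : 3 ≤ k) (h : HM n k m) :
    (m : ℝ) + 1 ≤ Real.exp ((k + 1) * ll n) := by
  have h1 := hm_le hk h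
  have h2 := NumC_np n
  have hl : (1 : ℝ) ≤ ll n := by
    have : 1 ≤ ll n := by unfold ll; omega
    exact_mod_cast this
  have h3 : (2 : ℝ) ≤ Real.exp 1 := by
    have := Real.add_one_le_exp (1 : ℝ)
    linarith
  have h4 : (2 : ℝ) ^ k ≤ Real.exp k := by
    calc (2 : ℝ) ^ k ≤ Real.exp 1 ^ k := pow_le_pow_left₀ (by norm_num) h3 _
      _ = Real.exp k := by rw [← Real.exp_nat_mul, mul_one]
  have h5 : (1 : ℝ) ≤ 2 ^ k := one_le_pow₀ (by norm_num)
  calc (m : ℝ) + 1 ≤ 2 ^ k * n + 1 := by linarith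
    _ ≤ 2 ^ k * (n + 1) := by nlinarith
    _ ≤ Real.exp k * Real.exp (ll n) := by gcongr
    _ = Real.exp (k + ll n) := by rw [Real.exp_add]
    _ ≤ Real.exp ((k + 1) * ll n) := by
        rw [Real.exp_le_exp]
        have hk0 : (0 : ℝ) ≤ k := by positivity
        nlinarith

theorem NumC_kp {n k : ℕ} : (k : ℝ) + 2 ≤ Real.exp ((k + 1) * ll n) := by
  have hl : (1 : ℝ) ≤ ll n := by
    have : 1 ≤ ll n := by unfold ll; omega
    exact_mod_cast this
  have h1 := Real.add_one_le_exp ((k : ℝ) + 1)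
  calc (k : ℝ) + 2 = k + 1 + 1 := by ring
    _ ≤ Real.exp (k + 1) := h1
    _ ≤ Real.exp ((k + 1) * ll n) := by
        rw [Real.exp_le_exp]
        have hk0 : (0 : ℝ) ≤ k := by positivity
        nlinarith

theorem NumC_X {n k m : ℕ} (hk : 3 ≤ k) (h : HM n k m) :
    ((m : ℝ) + 1) * (n : ℝ) ^ k * (k + 2) * (n + 1) ≤ Real.exp ((3 * k + 3) * ll n) := by
  have h1 := NumC_mp hk h
  have h2 : (n : ℝ) ^ k ≤ Real.exp (k * ll n) := by
    have := NumC_np n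
    calc (n : ℝ) ^ k ≤ Real.exp (ll n) ^ k := pow_le_pow_left₀ (by positivity) (by linarith) _
      _ = Real.exp (k * ll n) := by rw [← Real.exp_nat_mul]
  have h3 := NumC_kp (n := n) (k := k)
  have h4 := NumC_np n
  calc ((m : ℝ) + 1) * (n : ℝ) ^ k * (k + 2) * (n + 1)
      ≤ Real.exp ((k + 1) * ll n) * Real.exp (k * ll n) * Real.exp ((k + 1) * ll n) *
          Real.exp (ll n) := by gcongr
    _ = Real.exp ((3 * k + 3) * ll n) := by
        rw [← Real.exp_add, ← Real.exp_add, ← Real.exp_add]; ring_nf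

theorem NumC_Y {n k m : ℕ} (hk : 3 ≤ k) (h : HM n k m) :
    1 + ((m : ℝ) + 1) * ((k + 1) * k) ≤ Real.exp ((3 * k + 3) * ll n) := by
  have h1 := NumC_mp hk h
  have h3 := NumC_kp (n := n) (k := k)
  have hk0 : (0 : ℝ) ≤ k := by positivity
  have hm0 : (0 : ℝ) ≤ m := by positivity
  calc 1 + ((m : ℝ) + 1) * ((k + 1) * k) ≤ ((m : ℝ) + 1) * ((k + 2) * (k + 2)) := by nlinarith
    _ ≤ Real.exp ((k + 1) * ll n) * (Real.exp ((k + 1) * ll n) * Real.exp ((k + 1) * ll n)) := by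
        gcongr
    _ = Real.exp ((3 * k + 3) * ll n) := by
        rw [← Real.exp_add, ← Real.exp_add]; ring_nf

/-- the error bound for fixed `k`, `n` -/
theorem NumC_main {n k m w0 : ℕ} (hn : 12 ≤ n) (hk : 3 ≤ k) (h : HM n k m)
    (hL : (2 : ℝ) ≤ Real.log k) (hg : Real.log k ^ 20 ≤ k)
    (hw : Real.log k ^ 5 * n / k ≤ w0) (hw' : (w0 : ℝ) ≤ Real.log k ^ 5 * n / k + 1) :
    ldR n k m (bb n k) w0 (Real.log k ^ 20 / (2 * k)) ≤
      Real.exp ((3 * k + 3) * ll n) * Real.exp (-(Real.log k ^ 5 * n / k)) := by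
  have hk0 : (0 : ℝ) < k := by positivity
  have hn0 : (0 : ℝ) < n := by positivity
  have hkL : (k : ℝ) = Real.exp (Real.log k) := (Real.exp_log hk0).symm
  have hg10 : Real.log k ^ 10 ≤ k := by
    refine le_trans ?_ hg
    exact pow_le_pow_right₀ (by linarith) (by norm_num)
  have f1 := NumC_first hk h hL hw
  have f2 := NumC_second hk h hL hw'
  have f3 := NumC_third hn hk hL hg10
  have f4 := NumC_fourth hn hk hL hg
  have f5 := NumC_Y hk h
  unfold ldR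
  set L := Real.log k with hLdef
  have hL0 : 0 < L := by linarith
  -- the two last terms
  have g4 : (k : ℝ) ^ (bb n k) * (1 - L ^ 20 / (2 * k) / 2) ^ (n / 3) ≤
      k * Real.exp (-(L ^ 10 * n / (4 * k))) := by
    refine f4.trans ?_
    have : (k : ℝ) * Real.exp (-(L ^ 10 * n / (4 * k))) =
        Real.exp (L + -(L ^ 10 * n / (4 * k))) := by rw [Real.exp_add, ← hkL]
    rw [this, Real.exp_le_exp]
    have e1 : L ^ 11 + L ^ 10 / 4 ≤ L ^ 20 / 16 := by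
      have a1 : (512 : ℝ) ≤ L ^ 9 := by
        calc (512 : ℝ) = 2 ^ 9 := by norm_num
          _ ≤ L ^ 9 := pow_le_pow_left₀ (by norm_num) hL _
      have a2 : L ^ 20 = L ^ 11 * L ^ 9 := by ring
      have a3 : L ^ 10 ≤ L ^ 11 := pow_le_pow_right₀ (by linarith) (by norm_num)
      have a4 : 0 ≤ L ^ 11 := by positivity
      nlinarith
    have e2 : L ^ 11 * n / k + L ^ 10 * n / (4 * k) ≤ L ^ 20 * n / (16 * k) := by
      calc L ^ 11 * n / k + L ^ 10 * n / (4 * k) = (L ^ 11 + L ^ 10 / 4) * (n / k) := by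
            field_simp
        _ ≤ (L ^ 20 / 16) * (n / k) := by gcongr
        _ = L ^ 20 * n / (16 * k) := by field_simp
    linarith
  have g5 : (m + 1 : ℝ) * ((1 - (bb n k : ℝ) / n) ^ (n / 3) +
      (k : ℝ) ^ (bb n k) * (1 - L ^ 20 / (2 * k) / 2) ^ (n / 3)) ≤
      (m + 1) * ((k + 1) * Real.exp (-(L ^ 10 * n / (4 * k)))) := by
    have : (0 : ℝ) ≤ m + 1 := by positivity
    refine mul_le_mul_of_nonneg_left ?_ this
    linarith
  set S := ∑ w ∈ range w0, (m.choose w : ℝ) * ((k + 1 : ℝ) / (2 ^ k - 1)) ^ w with hS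
  have h2k : (8 : ℝ) ≤ 2 ^ k := by
    calc (8 : ℝ) = 2 ^ 3 := by norm_num
      _ ≤ 2 ^ k := pow_le_pow_right₀ (by norm_num) hk
  have hS0 : 0 ≤ S := by
    refine Finset.sum_nonneg fun w _ => ?_
    have : (0 : ℝ) ≤ (k + 1 : ℝ) / (2 ^ k - 1) := div_nonneg (by positivity) (by linarith)
    positivity
  have g6 : S * ((m + 1) * ((k + 1) * Real.exp (-(L ^ 10 * n / (4 * k))))) ≤
      ((m : ℝ) + 1) * ((k + 1) * k) * Real.exp (-(L ^ 5 * n / k)) := by
    calc S * ((m + 1) * ((k + 1) * Real.exp (-(L ^ 10 * n / (4 * k)))))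
        ≤ Real.exp (L ^ 6 * n / k + L + 4 * L * n / k) *
          ((m + 1) * ((k + 1) * Real.exp (-(L ^ 10 * n / (4 * k))))) := by gcongr
      _ = ((m : ℝ) + 1) * ((k + 1) * k) * (Real.exp (L ^ 6 * n / k + 4 * L * n / k) *
            Real.exp (-(L ^ 10 * n / (4 * k)))) := by
          have : Real.exp (L ^ 6 * n / k + L + 4 * L * n / k) =
              k * Real.exp (L ^ 6 * n / k + 4 * L * n / k) := by
            have e : L ^ 6 * n / k + L + 4 * L * n / k = L + (L ^ 6 * n / k + 4 * L * n / k) := by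
              ring
            rw [e, Real.exp_add, ← hkL]
          rw [this]; ring
      _ ≤ ((m : ℝ) + 1) * ((k + 1) * k) * Real.exp (-(L ^ 5 * n / k)) := by
          refine mul_le_mul_of_nonneg_left ?_ (by positivity)
          rw [← Real.exp_add, Real.exp_le_exp]
          have e1 : L ^ 6 + 4 * L + L ^ 5 ≤ L ^ 10 / 4 := by
            have a1 : (16 : ℝ) ≤ L ^ 4 := by
              calc (16 : ℝ) = 2 ^ 4 := by norm_num
                _ ≤ L ^ 4 := pow_le_pow_left₀ (by norm_num) hL _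
            have a2 : L ^ 10 = L ^ 6 * L ^ 4 := by ring
            have a3 : L ^ 5 ≤ L ^ 6 := pow_le_pow_right₀ (by linarith) (by norm_num)
            have a5 : (32 : ℝ) ≤ L ^ 5 := by
              calc (32 : ℝ) = 2 ^ 5 := by norm_num
                _ ≤ L ^ 5 := pow_le_pow_left₀ (by norm_num) hL _
            have a6 : L ^ 6 = L * L ^ 5 := by ring
            have a7 : 32 * L ≤ L ^ 6 := by rw [a6]; nlinarith
            nlinarith
          have e2 : L ^ 6 * n / k + 4 * L * n / k + L ^ 5 * n / k ≤ L ^ 10 * n / (4 * k) := by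
            calc L ^ 6 * n / k + 4 * L * n / k + L ^ 5 * n / k
                = (L ^ 6 + 4 * L + L ^ 5) * (n / k) := by field_simp
              _ ≤ (L ^ 10 / 4) * (n / k) := by gcongr
              _ = L ^ 10 * n / (4 * k) := by field_simp
          linarith
  have g7 : ∑ w ∈ range w0, (m.choose w : ℝ) * ((k + 1 : ℝ) / (2 ^ k - 1)) ^ w *
      ((m + 1 : ℝ) * ((1 - (bb n k : ℝ) / n) ^ (n / 3) +
        (k : ℝ) ^ (bb n k) * (1 - L ^ 20 / (2 * k) / 2) ^ (n / 3))) ≤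
      ((m : ℝ) + 1) * ((k + 1) * k) * Real.exp (-(L ^ 5 * n / k)) := by
    rw [← Finset.sum_mul]
    exact (mul_le_mul_of_nonneg_left g5 hS0).trans g6
  calc (m.choose w0 : ℝ) / (2 ^ k - 1) ^ w0 +
      ∑ w ∈ range w0, (m.choose w : ℝ) * ((k + 1 : ℝ) / (2 ^ k - 1)) ^ w *
      ((m + 1 : ℝ) * ((1 - (bb n k : ℝ) / n) ^ (n / 3) +
        (k : ℝ) ^ (bb n k) * (1 - L ^ 20 / (2 * k) / 2) ^ (n / 3)))
      ≤ Real.exp (-(L ^ 5 * n / k)) +
        ((m : ℝ) + 1) * ((k + 1) * k) * Real.exp (-(L ^ 5 * n / k)) := add_le_add f1 g7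
    _ = (1 + ((m : ℝ) + 1) * ((k + 1) * k)) * Real.exp (-(L ^ 5 * n / k)) := by ring
    _ ≤ Real.exp ((3 * k + 3) * ll n) * Real.exp (-(L ^ 5 * n / k)) := by gcongr

/-- NUMERICS OF GLOB.
PROOF. `L = ln k`, `w0 = ⌈L^5 n / k⌉`, `f0 = L^20/(2k)`, `b = ⌈L^10 n / k⌉`, `l = (ll n)^3`.
(1) `C(m, w0)/(2^k-1)^w0 ≤ (3 m / (w0 (2^k - 1)))^w0 ≤ (4 L / (k · L^5 / k))^w0 = (4 / L^4)^w0 ≤ e^(-w0)` (`m ≤ 2^k L n / k`).
(2) for `w < w0`: `C(m, w) ((k+1)/(2^k-1))^w ≤ (3 m (k+1) / (w (2^k-1)))^w`, and `(c/w)^w ≤ e^(c/e)`-type monotonicity: for `w ≤ w0 ≤ c/e` it is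
increasing in `w`, or use `C(m,w) x^w ≤ C(m, w) x^w`, `∑_(w<w0) C(m, w) x^w ≤ y^(-w0) (1 + x y)^m ≤ y^(-w0) e^(x y m)` for
`0 < y ≤ 1`: with `x = (k+1)/(2^k-1)`, `x m ≤ 3 L n`, `y = w0/(3 L n) ≥ L^4/(3k)`: the sum is at most `y^(-w0) e^(w0) ≤ k^(w0) ≤ exp(2 L^6 n / k)`.
(3) `(1 - b/n)^(n/3) ≤ exp(-L^10 (n/3 - 1)/k)` and `k^b (1 - f0/2)^(n/3) ≤ exp(L (L^10 n/k + 1) - L^20 (n/3-1)/(4k))`.
(4) `((m+1) n^k (k+2)(n+1))^l ≤ exp(c_k (ll n)^4) ≤ exp(L^5 n / (8k))` for `n` large. For `k` large (powers of `L`) the total is at most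
`exp(-L^5 n / (2k))`. -/
theorem ld_num : ∃ k0 : ℕ, ∀ k, k0 ≤ k → ∃ n0 : ℕ, ∀ n, n0 ≤ n → ∀ m, HM n k m →
    ∃ w0 : ℕ, n / 3 + k * (ll n) ^ 3 + w0 ≤ n / 2 ∧
      (((m : ℝ) + 1) * (n : ℝ) ^ k * (k + 2) * (n + 1)) ^ ((ll n) ^ 3) *
        ldR n k m (bb n k) w0 (Real.log k ^ 20 / (2 * k)) ≤
      Real.exp (-(Real.log k ^ 5 * n / (2 * k))) := by
  obtain ⟨k1, hk1⟩ := NumC_ev 20 (show (0 : ℝ) < 1 by norm_num)
  obtain ⟨k2, hk2⟩ := NumC_ev 5 (show (0 : ℝ) < 1 / 100 by norm_num)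
  obtain ⟨k3, hk3⟩ := NumC_log_ev 2
  refine ⟨max (max k1 k2) (max k3 3), fun k hk => ?_⟩
  have hkk1 : k1 ≤ k := le_trans (le_trans (le_max_left _ _) (le_max_left _ _)) hk
  have hkk2 : k2 ≤ k := le_trans (le_trans (le_max_right _ _) (le_max_left _ _)) hk
  have hkk3 : k3 ≤ k := le_trans (le_trans (le_max_left _ _) (le_max_right _ _)) hk
  have hkk4 : 3 ≤ k := le_trans (le_trans (le_max_right _ _) (le_max_right _ _)) hk
  have hk0 : (0 : ℝ) < k := by positivity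
  have h20 : Real.log k ^ 20 ≤ k := by simpa using hk1 k hkk1
  have h5 := hk2 k hkk2
  have hL := hk3 k hkk3
  set L := Real.log k with hLdef
  have hL0 : 0 < L := by linarith
  have hL5 : 0 < L ^ 5 := by positivity
  obtain ⟨n1, hn1⟩ := NumC_ll_ev 4 (show (0 : ℝ) < L ^ 5 / (8 * k) / (3 * k + 3) by positivity)
  obtain ⟨n2, hn2⟩ := NumC_ll_ev 3 (show (0 : ℝ) < 1 / (100 * k) by positivity)
  refine ⟨max (max n1 n2) 1000, fun n hn m hm => ?_⟩
  have hnn1 : n1 ≤ n := le_trans (le_trans (le_max_left _ _) (le_max_left _ _)) hn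
  have hnn2 : n2 ≤ n := le_trans (le_trans (le_max_right _ _) (le_max_left _ _)) hn
  have hnn3 : 1000 ≤ n := le_trans (le_max_right _ _) hn
  have hn0 : (0 : ℝ) < n := by positivity
  have q1 := hn1 n hnn1
  have q2 := hn2 n hnn2
  have hn1000 : (1000 : ℝ) ≤ n := by exact_mod_cast hnn3
  have hl1 : (1 : ℝ) ≤ ll n := by
    have : 1 ≤ ll n := by unfold ll; omega
    exact_mod_cast this
  have hx0 : 0 ≤ L ^ 5 * n / k := by positivity
  have hw : L ^ 5 * n / k ≤ (⌈L ^ 5 * n / k⌉₊ : ℝ) := Nat.le_ceil _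
  have hw' : (⌈L ^ 5 * n / k⌉₊ : ℝ) ≤ L ^ 5 * n / k + 1 := (Nat.ceil_lt_add_one hx0).le
  refine ⟨⌈L ^ 5 * n / k⌉₊, ?_, ?_⟩
  · have e1 : ((n / 3 : ℕ) : ℝ) ≤ n / 3 := Nat.cast_div_le
    have e2 : (n : ℝ) ≤ 2 * ((n / 2 : ℕ) : ℝ) + 1 := by
      have : n ≤ 2 * (n / 2) + 1 := by omega
      exact_mod_cast this
    have e3 : (k : ℝ) * (ll n : ℝ) ^ 3 ≤ n / 100 := by
      calc (k : ℝ) * (ll n : ℝ) ^ 3 ≤ k * (1 / (100 * k) * n) := by gcongr
        _ = n / 100 := by field_simp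
    have e4 : L ^ 5 * n / k ≤ n / 100 := by
      rw [div_le_div_iff₀ hk0 (by norm_num)]
      nlinarith
    have e5 : ((n / 3 + k * (ll n) ^ 3 + ⌈L ^ 5 * n / k⌉₊ : ℕ) : ℝ) ≤ ((n / 2 : ℕ) : ℝ) := by
      rw [Nat.cast_add, Nat.cast_add, Nat.cast_mul, Nat.cast_pow]
      linarith
    exact_mod_cast e5
  · have main := NumC_main (by omega) hkk4 hm hL h20 hw hw'
    have hX := NumC_X hkk4 hm
    have hX0 : 0 ≤ ((m : ℝ) + 1) * (n : ℝ) ^ k * (k + 2) * (n + 1) := by positivity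
    have hXl : (((m : ℝ) + 1) * (n : ℝ) ^ k * (k + 2) * (n + 1)) ^ ((ll n) ^ 3) ≤
        Real.exp ((3 * k + 3) * (ll n : ℝ) ^ 4) := by
      calc (((m : ℝ) + 1) * (n : ℝ) ^ k * (k + 2) * (n + 1)) ^ ((ll n) ^ 3)
          ≤ Real.exp ((3 * k + 3) * ll n) ^ ((ll n) ^ 3) := pow_le_pow_left₀ hX0 hX _
        _ = Real.exp ((3 * k + 3) * (ll n : ℝ) ^ 4) := by
            rw [← Real.exp_nat_mul]
            congr 1
            push_cast
            ring
    have q3 : (3 * (k : ℝ) + 3) * (ll n : ℝ) ^ 4 ≤ L ^ 5 * n / (8 * k) := by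
      calc (3 * (k : ℝ) + 3) * (ll n : ℝ) ^ 4
          ≤ (3 * k + 3) * (L ^ 5 / (8 * k) / (3 * k + 3) * n) := by gcongr
        _ = L ^ 5 * n / (8 * k) := by field_simp
    have q4 : (3 * (k : ℝ) + 3) * (ll n : ℝ) ≤ L ^ 5 * n / (8 * k) := by
      refine le_trans ?_ q3
      have : (ll n : ℝ) ≤ (ll n : ℝ) ^ 4 := le_self_pow₀ hl1 (by norm_num)
      gcongr
    calc (((m : ℝ) + 1) * (n : ℝ) ^ k * (k + 2) * (n + 1)) ^ ((ll n) ^ 3) *
        ldR n k m (bb n k) ⌈L ^ 5 * n / k⌉₊ (L ^ 20 / (2 * k))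
        ≤ (((m : ℝ) + 1) * (n : ℝ) ^ k * (k + 2) * (n + 1)) ^ ((ll n) ^ 3) *
          (Real.exp ((3 * k + 3) * ll n) * Real.exp (-(L ^ 5 * n / k))) := by gcongr
      _ ≤ Real.exp ((3 * k + 3) * (ll n : ℝ) ^ 4) *
          (Real.exp ((3 * k + 3) * ll n) * Real.exp (-(L ^ 5 * n / k))) := by gcongr
      _ = Real.exp ((3 * k + 3) * (ll n : ℝ) ^ 4 + ((3 * k + 3) * ll n + -(L ^ 5 * n / k))) := by
          rw [← Real.exp_add, ← Real.exp_add]
      _ ≤ Real.exp (-(L ^ 5 * n / (2 * k))) := by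
          rw [Real.exp_le_exp]
          have z1 : L ^ 5 * n / (8 * k) = L ^ 5 * n / k / 8 := by field_simp
          have z2 : L ^ 5 * n / (2 * k) = L ^ 5 * n / k / 2 := by field_simp
          rw [z1] at q3 q4
          rw [z2]
          linarith

end GC
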