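import Pool.Agent.W_bd7f91F_h12.NumC
import Pool.Agent.W_bd7f91F_h12.LDf

/-! # Numerical bounds (pure real analysis) -/

set_option autoImplicit false

open Finset
open scoped Classical

namespace GC

theorem NumD_pow {k : ℕ} (hk : 3 ≤ k) : 2 * k + 1 ≤ 2 ^ k := by
  induction k, hk using Nat.le_induction with
  | base => norm_num
  | succ k hk ih =>
    rw [pow_succ]
    omega

theorem NumD_base {n k a : ℕ} (hn : 0 < n) (hk : 3 ≤ k) (hA : (2 ^ k - 1) * n ^ k ≤ a) :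
    0 ≤ 1 - (k : ℝ) / (n * (2 ^ k - 1 - k)) ∧
      1 - (k : ℝ) / (n * (2 ^ k - 1 - k)) ≤
        1 - ((k * n ^ (k - 1) : ℕ) : ℝ) / ((a : ℝ) - n * (k * n ^ (k - 1) : ℕ)) := by
  have h1 : (2 : ℝ) * k + 1 ≤ 2 ^ k := by exact_mod_cast NumD_pow hk
  have hn' : (1 : ℝ) ≤ n := by exact_mod_cast hn
  have hk' : (3 : ℝ) ≤ k := by exact_mod_cast hk
  have hc : (k : ℝ) ≤ 2 ^ k - 1 - k := by linarith
  have hc0 : (0 : ℝ) < 2 ^ k - 1 - k := by linarith
  have hd : (k : ℝ) ≤ n * (2 ^ k - 1 - k) := by nlinarith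
  have hd0 : (0 : ℝ) < n * (2 ^ k - 1 - k) := by positivity
  constructor
  · rw [sub_nonneg, div_le_one hd0]
    exact hd
  · have hp : (n : ℝ) ^ k = n ^ (k - 1) * n := by
      rw [← pow_succ]
      congr 1
      omega
    have hpos : (0 : ℝ) < n ^ (k - 1) := by positivity
    have h2k : 1 ≤ 2 ^ k := Nat.one_le_two_pow
    have hA' : ((2 : ℝ) ^ k - 1) * n ^ k ≤ a := by
      have h3 : (((2 ^ k - 1) * n ^ k : ℕ) : ℝ) ≤ a := by exact_mod_cast hA
      rw [Nat.cast_mul, Nat.cast_sub h2k, Nat.cast_pow, Nat.cast_pow] at h3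
      simpa using h3
    have hlow : (2 ^ k - 1 - k) * (n : ℝ) ^ k ≤ (a : ℝ) - n * (k * n ^ (k - 1) : ℕ) := by
      push_cast
      have h4 : (n : ℝ) * (k * n ^ (k - 1)) = k * n ^ k := by
        rw [hp]
        ring
      rw [h4]
      linarith
    have hlow0 : (0 : ℝ) < (2 ^ k - 1 - k) * (n : ℝ) ^ k := by positivity
    have h5 : ((k * n ^ (k - 1) : ℕ) : ℝ) / ((a : ℝ) - n * (k * n ^ (k - 1) : ℕ)) ≤
        (k : ℝ) / (n * (2 ^ k - 1 - k)) := by
      rw [div_le_div_iff₀ (lt_of_lt_of_le hlow0 hlow) hd0]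
      calc ((k * n ^ (k - 1) : ℕ) : ℝ) * (n * (2 ^ k - 1 - k))
          = k * ((2 ^ k - 1 - k) * (n : ℝ) ^ k) := by
            push_cast
            rw [hp]
            ring
        _ ≤ _ := mul_le_mul_of_nonneg_left hlow (by positivity)
    linarith

/-- GLOB for uniform clauses of a large set.
PROOF. `ld_glob` with `w0` from `ld_num`, `f0 = L^20/(2k)` (`f0_num`), `b = bb n k`, `l = (ll n)^3`; the base
`1 - k n^(k-1) / (|A| - n k n^(k-1))` increases with `|A|` and for `|A| = (2^k - 1) n^k` it is `1 - k / (n (2^k - 1 - k))`. The side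
conditions `n/2 + l + n/3 ≤ n`, `(n+1) k n^(k-1) ≤ (2^k - 1) n^k` hold for `n` large. -/
theorem glob_A : ∃ k0 : ℕ, ∀ k, k0 ≤ k → ∃ n0 : ℕ, ∀ n, n0 ≤ n → ∀ m, HM n k m →
    ∀ A : Finset (Cl n k), (2 ^ k - 1) * n ^ k ≤ A.card → ∀ η : Asg n,
    (((Fintype.piFinset (fun _ : Fin m => A)).filter (fun Φ : Fml n k m =>
      ¬ Glob Φ η ((ll n) ^ 3) (bb n k))).card : ℝ) ≤
      (A.card : ℝ) ^ m * Real.exp (-(Real.log k ^ 5 * n / (2 * k))) := by
  obtain ⟨k1, h1⟩ := ld_num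
  obtain ⟨k2, h2⟩ := f0_num
  obtain ⟨k3, h3⟩ := gg_bounds
  refine ⟨max (max k1 k2) (max k3 3), fun k hk => ?_⟩
  have hk1 : k1 ≤ k := le_trans (le_trans (le_max_left _ _) (le_max_left _ _)) hk
  have hk2 : k2 ≤ k := le_trans (le_trans (le_max_right _ _) (le_max_left _ _)) hk
  have hk3 : k3 ≤ k := le_trans (le_trans (le_max_left _ _) (le_max_right _ _)) hk
  have hk4 : 3 ≤ k := le_trans (le_trans (le_max_right _ _) (le_max_right _ _)) hk
  obtain ⟨n1, h1⟩ := h1 k hk1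
  obtain ⟨n2, h2⟩ := h2 k hk2
  obtain ⟨-, -, h3⟩ := h3 k hk3
  refine ⟨max (max n1 n2) 1, fun n hn m hm A hA η => ?_⟩
  have hn1 : n1 ≤ n := le_trans (le_trans (le_max_left _ _) (le_max_left _ _)) hn
  have hn2 : n2 ≤ n := le_trans (le_trans (le_max_right _ _) (le_max_left _ _)) hn
  have hn3 : 0 < n := le_trans (le_max_right _ _) hn
  obtain ⟨w0, hw0, hw1⟩ := h1 n hn1 m hm
  obtain ⟨hf, hf1⟩ := h2 n hn2 m hm
  obtain ⟨hb, -⟩ := h3 n
  have hL : 0 ≤ Real.log k := Real.log_natCast_nonneg k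
  have hf0 : 0 ≤ Real.log k ^ 20 / (2 * (k : ℝ)) := by positivity
  obtain ⟨hb0, hb1⟩ := NumD_base hn3 hk4 hA
  have hln : n / 2 + (ll n) ^ 3 + n / 3 ≤ n := by
    have h5 : (ll n) ^ 3 ≤ k * (ll n) ^ 3 := Nat.le_mul_of_pos_left _ (by omega)
    omega
  have hA2 : (n + 1) * (k * n ^ (k - 1)) ≤ A.card := by
    refine le_trans ?_ hA
    have h6 : n ^ k = n ^ (k - 1) * n := by
      rw [← pow_succ]
      congr 1
      omega
    have h7 := NumD_pow hk4
    have h8 : (n + 1) * k ≤ (2 ^ k - 1) * n := by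
      have h9 : 2 * k ≤ 2 ^ k - 1 := by omega
      calc (n + 1) * k ≤ (n + n) * k := Nat.mul_le_mul_right _ (by omega)
        _ = (2 * k) * n := by ring
        _ ≤ (2 ^ k - 1) * n := Nat.mul_le_mul_right _ h9
    calc (n + 1) * (k * n ^ (k - 1)) = ((n + 1) * k) * n ^ (k - 1) := by ring
      _ ≤ ((2 ^ k - 1) * n) * n ^ (k - 1) := Nat.mul_le_mul_right _ h8
      _ = (2 ^ k - 1) * n ^ k := by
        rw [h6]
        ring
  have key := ld_glob (m := m) hn3 (by omega : 2 ≤ k) A hA η (bb n k) ((ll n) ^ 3) w0 hln hb hw0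
    hA2 (Real.log k ^ 20 / (2 * (k : ℝ))) hf0 hf1
    (hf.trans (pow_le_pow_left₀ hb0 hb1 m))
  exact key.trans (mul_le_mul_of_nonneg_left hw1 (by positivity))

end GC
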