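import Pool.Agent.W_bd7f91F_h12.NumA

/-! # Numerical bounds for the first moment sums (pure real analysis) -/

set_option autoImplicit false

open Finset
open scoped Classical

namespace GC

theorem NumE_aux1 (m h q : ℕ) (hq : q ≤ h) :
    (m.choose h : ℝ) * ((q : ℝ) + h) ^ h ≤ (6 * (m : ℝ)) ^ h := by
  have h1 : (m.choose h : ℝ) ≤ (m : ℝ) ^ h / (h.factorial : ℝ) := Nat.choose_le_pow_div h m
  have h2 : ((q : ℝ) + h) ^ h ≤ (2 * (h : ℝ)) ^ h := by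
    apply pow_le_pow_left₀ (by positivity)
    have : (q : ℝ) ≤ h := by exact_mod_cast hq
    linarith
  have h3 : (h : ℝ) ^ h / (h.factorial : ℝ) ≤ 3 ^ h := by
    have h4 := Real.pow_div_factorial_le_exp (h : ℝ) (by positivity) h
    refine h4.trans ?_
    have h5 : Real.exp (h : ℝ) = Real.exp 1 ^ h := by
      rw [← Real.exp_nat_mul]; simp
    rw [h5]
    apply pow_le_pow_left₀ (Real.exp_pos _).le
    have := Real.exp_one_lt_d9
    linarith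
  have hf : (0 : ℝ) < (h.factorial : ℝ) := by exact_mod_cast Nat.factorial_pos h
  calc (m.choose h : ℝ) * ((q : ℝ) + h) ^ h
      ≤ ((m : ℝ) ^ h / (h.factorial : ℝ)) * (2 * (h : ℝ)) ^ h :=
        mul_le_mul h1 h2 (by positivity) (by positivity)
    _ = (2 * (m : ℝ)) ^ h * ((h : ℝ) ^ h / (h.factorial : ℝ)) := by
        rw [mul_pow, mul_pow]; ring
    _ ≤ (2 * (m : ℝ)) ^ h * 3 ^ h := mul_le_mul_of_nonneg_left h3 (by positivity)
    _ = (6 * (m : ℝ)) ^ h := by rw [← mul_pow]; ring_nf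

theorem NumE_aux2 (k h x : ℕ) (hk : 300 ≤ k) (hh : h ≤ 16 * x) :
    (x : ℝ) * k / 3 ≤ ((x * (k / 2) - 2 * h - x : ℕ) : ℝ) := by
  have h1 : x * k ≤ 3 * (x * (k / 2) - 2 * h - x) := by
    have h2 : k ≤ 2 * (k / 2) + 1 := by omega
    have h3 : x * (k / 2 - 33) ≤ x * (k / 2) - 2 * h - x := by
      rw [Nat.mul_sub]
      omega
    have h4 : k ≤ 3 * (k / 2 - 33) := by omega
    calc x * k ≤ x * (3 * (k / 2 - 33)) := Nat.mul_le_mul_left _ h4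
      _ = 3 * (x * (k / 2 - 33)) := by ring
      _ ≤ _ := Nat.mul_le_mul_left _ h3
  have h5 : ((x * k : ℕ) : ℝ) ≤ ((3 * (x * (k / 2) - 2 * h - x) : ℕ) : ℝ) := by exact_mod_cast h1
  push_cast at h5
  rw [div_le_iff₀ (by norm_num)]
  linarith

theorem NumE_aux3 (L : ℝ) (hL : 3 ≤ L) : 58 * L + L ^ 2 ≤ L ^ 10 / 6 := by
  have h1 : (3 : ℝ) ^ 9 ≤ L ^ 9 := pow_le_pow_left₀ (by norm_num) hL 9
  have h2 : (3 : ℝ) ^ 8 ≤ L ^ 8 := pow_le_pow_left₀ (by norm_num) hL 8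
  have h3 : (3 : ℝ) ^ 9 * L ≤ L ^ 9 * L := mul_le_mul_of_nonneg_right h1 (by linarith)
  have h4 : (3 : ℝ) ^ 8 * L ^ 2 ≤ L ^ 8 * L ^ 2 := mul_le_mul_of_nonneg_right h2 (by positivity)
  have h5 : L ^ 9 * L = L ^ 10 := by ring
  have h6 : L ^ 8 * L ^ 2 = L ^ 10 := by ring
  rw [h5] at h3
  rw [h6] at h4
  nlinarith [sq_nonneg L]

/-- ONE TERM.
PROOF. `C(m, h) ≤ m^h / h! ≤ (3 m / h)^h`, `((q + h)/h)^h ≤ 2^h` as `q ≤ h`; so `C(m,h) ((q+h) k^2/n)^h ≤ (6 (m/n) k^2)^h` and with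
`(m / n) ≤ 2^k L / k` for `r` of the `h` factors and `m / n ≤ 2^k` for the others:
`C(m,h) 4^h ((q+h)k^2/n)^h (64 (2k+2)/2^k)^r ≤ (24 * 2^k k^2)^(h-r) (24 * 64 (2k+2) k L)^r ≤ (24 * 2^k k^2)^(h-r) (8000 k^3)^(8 x)`
(`r ≤ 8 x`, `24 * 64 * (2k+2) k L ≤ 8000 k^3`). As `h ≤ 16 x`, `x (k/2) - 2 h - x ≥ x (k / 3)` in the sense
`≥ x k / 3` for `k ≥ 300`, so `(1 - g/2)^(..) ≤ exp(-g k x / 6) = exp(-L^10 x / 6)`, and
`(8000 k^3)^(8x) k^(26 x) exp(-L^10 x/6) ≤ exp(-(L^2) x)` for `k` large. -/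
theorem term_num : ∃ k0 : ℕ, ∀ k, k0 ≤ k → ∀ n m q h r x : ℕ, 0 < n → HM n k m → q ≤ h → r ≤ h →
    r ≤ 8 * x → h ≤ 16 * x →
    (m.choose h : ℝ) * 4 ^ h * nbd n k q h r x (gg k) ≤
      (n : ℝ) ^ q * (24 * 2 ^ k * (k : ℝ) ^ 2) ^ (h - r) * Real.exp (-(Real.log k ^ 2 * x)) := by
  obtain ⟨k1, hk1⟩ := gg_bounds
  refine ⟨max k1 6144, fun k hk n m q h r x hn hHM hq hr hr8 hh16 => ?_⟩
  have hkk1 : k1 ≤ k := le_trans (le_max_left _ _) hk
  have hk6 : 6144 ≤ k := le_trans (le_max_right _ _) hk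
  obtain ⟨hg0, hg1, -⟩ := hk1 k hkk1
  have hkR : (6144 : ℝ) ≤ (k : ℝ) := by exact_mod_cast hk6
  have hk0 : (0 : ℝ) < (k : ℝ) := by linarith
  have hnR : (0 : ℝ) < (n : ℝ) := by exact_mod_cast hn
  have hm1 : (m : ℝ) ≤ 2 ^ k * n := hm_le (by omega) hHM
  have hm2 : (m : ℝ) * k ≤ 2 ^ k * Real.log k * n := hm_le2 (by omega) hHM
  set L : ℝ := Real.log k with hLdef
  have hL3 : 3 ≤ L := by
    rw [hLdef, Real.le_log_iff_exp_le hk0]
    have h1 : Real.exp 3 = Real.exp 1 ^ 3 := by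
      rw [← Real.exp_nat_mul]; norm_num
    rw [h1]
    have h2 := Real.exp_one_lt_d9
    have h3 : Real.exp 1 ^ 3 ≤ (3 : ℝ) ^ 3 :=
      pow_le_pow_left₀ (Real.exp_pos _).le (by linarith) 3
    linarith
  have hLk : L ≤ k := (Real.log_le_sub_one_of_pos hk0).trans (by linarith)
  -- step A
  have hA : (m.choose h : ℝ) * 4 ^ h * ((((q : ℝ) + h) * k ^ 2 / n) ^ h) ≤
      (24 * (m : ℝ) * k ^ 2 / n) ^ h := by
    have e1 : (m.choose h : ℝ) * 4 ^ h * ((((q : ℝ) + h) * k ^ 2 / n) ^ h) =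
        ((m.choose h : ℝ) * ((q : ℝ) + h) ^ h) * (4 * k ^ 2 / n) ^ h := by
      rw [show ((q : ℝ) + h) * k ^ 2 / n = ((q : ℝ) + h) * (k ^ 2 / n) by ring, mul_pow,
        show (4 : ℝ) * k ^ 2 / n = 4 * (k ^ 2 / n) by ring, mul_pow]
      ring
    rw [e1]
    calc ((m.choose h : ℝ) * ((q : ℝ) + h) ^ h) * (4 * k ^ 2 / n) ^ h
        ≤ (6 * (m : ℝ)) ^ h * (4 * k ^ 2 / n) ^ h :=
          mul_le_mul_of_nonneg_right (NumE_aux1 m h q hq) (by positivity)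
      _ = (24 * (m : ℝ) * k ^ 2 / n) ^ h := by
          rw [← mul_pow]; congr 1; ring
  -- step B
  have hB1 : 24 * (m : ℝ) * k ^ 2 / n ≤ 24 * 2 ^ k * (k : ℝ) ^ 2 := by
    rw [div_le_iff₀ hnR]
    have : (m : ℝ) * (24 * k ^ 2) ≤ (2 ^ k * n) * (24 * k ^ 2) :=
      mul_le_mul_of_nonneg_right hm1 (by positivity)
    nlinarith [this]
  have hB2 : 24 * (m : ℝ) * k ^ 2 / n ≤ 24 * 2 ^ k * L * k := by
    rw [div_le_iff₀ hnR]
    have : ((m : ℝ) * k) * (24 * k) ≤ (2 ^ k * L * n) * (24 * k) :=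
      mul_le_mul_of_nonneg_right hm2 (by positivity)
    nlinarith [this]
  have hB : (24 * (m : ℝ) * k ^ 2 / n) ^ h ≤
      (24 * 2 ^ k * (k : ℝ) ^ 2) ^ (h - r) * (24 * 2 ^ k * L * k) ^ r := by
    have e1 : (24 * (m : ℝ) * k ^ 2 / n) ^ h =
        (24 * (m : ℝ) * k ^ 2 / n) ^ (h - r) * (24 * (m : ℝ) * k ^ 2 / n) ^ r := by
      rw [← pow_add]; congr 1; omega
    rw [e1]
    exact mul_le_mul (pow_le_pow_left₀ (by positivity) hB1 _) (pow_le_pow_left₀ (by positivity) hB2 _)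
      (by positivity) (by positivity)
  -- step C
  have hC : (24 * 2 ^ k * L * k) ^ r * (64 * (2 * k + 2) / 2 ^ k) ^ r ≤ (k : ℝ) ^ (32 * x) := by
    rw [← mul_pow]
    have e1 : (24 * 2 ^ k * L * k) * (64 * (2 * k + 2) / 2 ^ k) = 1536 * (2 * (k : ℝ) + 2) * k * L := by
      have h2k : (2 : ℝ) ^ k ≠ 0 := by positivity
      field_simp
      ring
    rw [e1]
    have e2 : 1536 * (2 * (k : ℝ) + 2) * k * L ≤ (k : ℝ) ^ 4 := by
      have h1 : 1536 * (2 * (k : ℝ) + 2) * k * L ≤ 1536 * (4 * (k : ℝ)) * k * k := by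
        apply mul_le_mul _ hLk (by linarith) (by positivity)
        apply mul_le_mul_of_nonneg_right _ hk0.le
        linarith
      have h2 : 1536 * (4 * (k : ℝ)) * k * k = 6144 * (k : ℝ) ^ 3 := by ring
      have h3 : (k : ℝ) ^ 4 = k * (k : ℝ) ^ 3 := by ring
      rw [h3]
      calc _ ≤ 6144 * (k : ℝ) ^ 3 := by rw [← h2]; exact h1
        _ ≤ k * (k : ℝ) ^ 3 := mul_le_mul_of_nonneg_right hkR (by positivity)
    calc (1536 * (2 * (k : ℝ) + 2) * k * L) ^ r ≤ ((k : ℝ) ^ 4) ^ r :=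
          pow_le_pow_left₀ (by positivity) e2 _
      _ ≤ ((k : ℝ) ^ 4) ^ (8 * x) := pow_le_pow_right₀ (one_le_pow₀ (by linarith)) hr8
      _ = (k : ℝ) ^ (32 * x) := by rw [← pow_mul]; congr 1; ring
  -- step D
  have hD : (1 - gg k / 2) ^ (x * (k / 2) - 2 * h - x) ≤ Real.exp (-(L ^ 10 * x / 6)) := by
    set N := x * (k / 2) - 2 * h - x with hN
    have hN2 : (x : ℝ) * k / 3 ≤ (N : ℝ) := NumE_aux2 k h x (by omega) hh16
    have h1 : 1 - gg k / 2 ≤ Real.exp (-(gg k / 2)) := by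
      have := Real.add_one_le_exp (-(gg k / 2))
      linarith
    calc (1 - gg k / 2) ^ N ≤ (Real.exp (-(gg k / 2))) ^ N :=
          pow_le_pow_left₀ (by linarith) h1 _
      _ = Real.exp (-(gg k / 2 * N)) := by
          rw [← Real.exp_nat_mul]; congr 1; ring
      _ ≤ Real.exp (-(L ^ 10 * x / 6)) := by
          apply Real.exp_le_exp.mpr
          have h2 : gg k / 2 * ((x : ℝ) * k / 3) ≤ gg k / 2 * N :=
            mul_le_mul_of_nonneg_left hN2 (by linarith)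
          have h3 : gg k / 2 * ((x : ℝ) * k / 3) = L ^ 10 * x / 6 := by
            rw [gg, ← hLdef]
            field_simp
            ring
          linarith
  have hE : (k : ℝ) ^ (32 * x) * (k : ℝ) ^ (26 * x) * Real.exp (-(L ^ 10 * x / 6)) ≤
      Real.exp (-(L ^ 2 * x)) := by
    have h1 : (k : ℝ) ^ (32 * x) * (k : ℝ) ^ (26 * x) = Real.exp (58 * L * x) := by
      rw [← pow_add]
      have h2 : (k : ℝ) = Real.exp L := by rw [hLdef, Real.exp_log hk0]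
      conv_lhs => rw [h2]
      rw [← Real.exp_nat_mul]
      congr 1
      push_cast
      ring
    rw [h1, ← Real.exp_add]
    apply Real.exp_le_exp.mpr
    have h3 := NumE_aux3 L hL3
    have h4 : (58 * L + L ^ 2) * (x : ℝ) ≤ (L ^ 10 / 6) * x :=
      mul_le_mul_of_nonneg_right h3 (by positivity)
    nlinarith [h4]
  have hD0 : 0 ≤ (1 - gg k / 2) ^ (x * (k / 2) - 2 * h - x) :=
    pow_nonneg (by linarith) _
  have hABC : (m.choose h : ℝ) * 4 ^ h * ((((q : ℝ) + h) * k ^ 2 / n) ^ h) *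
      (64 * (2 * k + 2) / 2 ^ k) ^ r ≤
      (24 * 2 ^ k * (k : ℝ) ^ 2) ^ (h - r) * (k : ℝ) ^ (32 * x) := by
    calc _ ≤ ((24 * 2 ^ k * (k : ℝ) ^ 2) ^ (h - r) * (24 * 2 ^ k * L * k) ^ r) *
          (64 * (2 * k + 2) / 2 ^ k) ^ r :=
          mul_le_mul_of_nonneg_right (hA.trans hB) (by positivity)
      _ = (24 * 2 ^ k * (k : ℝ) ^ 2) ^ (h - r) *
          ((24 * 2 ^ k * L * k) ^ r * (64 * (2 * k + 2) / 2 ^ k) ^ r) := by ring
      _ ≤ _ := mul_le_mul_of_nonneg_left hC (by positivity)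
  calc (m.choose h : ℝ) * 4 ^ h * nbd n k q h r x (gg k)
      = (n : ℝ) ^ q * (((m.choose h : ℝ) * 4 ^ h * ((((q : ℝ) + h) * k ^ 2 / n) ^ h) *
          (64 * (2 * k + 2) / 2 ^ k) ^ r) * (k : ℝ) ^ (26 * x) *
          (1 - gg k / 2) ^ (x * (k / 2) - 2 * h - x)) := by
        rw [nbd]; ring
    _ ≤ (n : ℝ) ^ q * (((24 * 2 ^ k * (k : ℝ) ^ 2) ^ (h - r) * (k : ℝ) ^ (32 * x)) *
          (k : ℝ) ^ (26 * x) * Real.exp (-(L ^ 10 * x / 6))) := by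
        apply mul_le_mul_of_nonneg_left _ (by positivity)
        apply mul_le_mul _ hD hD0 (by positivity)
        exact mul_le_mul_of_nonneg_right hABC (by positivity)
    _ = (n : ℝ) ^ q * (24 * 2 ^ k * (k : ℝ) ^ 2) ^ (h - r) *
          ((k : ℝ) ^ (32 * x) * (k : ℝ) ^ (26 * x) * Real.exp (-(L ^ 10 * x / 6))) := by ring
    _ ≤ (n : ℝ) ^ q * (24 * 2 ^ k * (k : ℝ) ^ 2) ^ (h - r) * Real.exp (-(L ^ 2 * x)) :=
        mul_le_mul_of_nonneg_left hE (by positivity)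

end GC
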