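import Pool.Agent.W_bd7f91F_h12.Defs

/-! # Basic facts about critical clauses and the run -/

set_option autoImplicit false

open Finset
open scoped Classical

namespace GC

variable {n k m : ℕ}

theorem fl_self (x : Asg n) (y : Fin n) : fl x y y = ! x y := by
  unfold fl
  rw [Function.update_self]

theorem fl_ne (x : Asg n) {y y' : Fin n} (h : y' ≠ y) : fl x y y' = x y' := by
  unfold fl
  rw [Function.update_of_ne h]

/-- PROOF. `¬ Viol c x` gives a slot `j` with `x (c.1 j) ≠ c.2 j`; if `c.1 j ≠ y` then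
`fl x y (c.1 j) = x (c.1 j)`, contradiction to `Viol c (fl x y)`. -/
theorem crit_true {c : Cl n k} {x : Asg n} {y : Fin n} (h : Crit c x y) (j : Fin k)
    (hj : x (c.1 j) ≠ c.2 j) : c.1 j = y := by
  by_contra hne
  exact hj (by rw [← fl_ne x hne]; exact h.2 j)

theorem crit_slot {c : Cl n k} {x : Asg n} {y : Fin n} (h : Crit c x y) :
    ∃ j, c.1 j = y ∧ x y ≠ c.2 j := by
  have h1 := h.1
  unfold Viol at h1
  push Not at h1
  obtain ⟨j, hj⟩ := h1
  have h2 := crit_true h j hj
  exact ⟨j, h2, by rw [← h2]; exact hj⟩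

theorem crit_unique {c : Cl n k} {x : Asg n} {y y' : Fin n} (h : Crit c x y) (h' : Crit c x y') :
    y = y' := by
  obtain ⟨j, hj, hj'⟩ := crit_slot h
  have h1 := crit_true h' j (by rw [hj]; exact hj')
  rw [← hj, h1]

/-- a clause with distinct variables and exactly one true slot is critical for its variable -/
theorem crit_of_single {c : Cl n k} {x : Asg n} (hc : Function.Injective c.1) (j : Fin k)
    (hj : x (c.1 j) ≠ c.2 j) (h : ∀ j', x (c.1 j') ≠ c.2 j' → j' = j) : Crit c x (c.1 j) := by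
  refine ⟨fun hV => hj (hV j), fun i => ?_⟩
  by_cases hij : i = j
  · rw [hij, fl_self]
    revert hj
    cases x (c.1 j) <;> cases c.2 j <;> simp
  · rw [fl_ne x (fun h' => hij (hc h'))]
    by_contra h'
    exact hij (h i h')

theorem op_marks (u : Fin k → Fin n) (t : Option (Fin k)) (S : St n) : S.2 ⊆ (op u t S).2 := by
  cases t with
  | none => exact subset_union_left
  | some j => exact subset_union_left

theorem op_fix (u : Fin k → Fin n) (t : Option (Fin k)) (S : St n) {y : Fin n} (hy : y ∈ S.2) :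
    (op u t S).1 y = S.1 y := by
  cases t with
  | none => rfl
  | some j =>
    show (if u j ∈ S.2 then S.1 else fl S.1 (u j)) y = S.1 y
    split_ifs with h
    · rfl
    · exact fl_ne _ (fun h' => h (h' ▸ hy))

theorem op_changed (u : Fin k → Fin n) (t : Option (Fin k)) (S : St n) {y : Fin n}
    (hy : (op u t S).1 y ≠ S.1 y) : y ∉ S.2 ∧ y ∈ (op u t S).2 ∧ ∃ j, t = some j ∧ y = u j := by
  refine ⟨fun h => hy (op_fix u t S h), ?_⟩
  cases t with
  | none => exact absurd rfl hy
  | some j =>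
    have h1 : y = u j := by
      by_contra hne
      apply hy
      show (if u j ∈ S.2 then S.1 else fl S.1 (u j)) y = S.1 y
      split_ifs with h
      · rfl
      · exact fl_ne _ hne
    refine ⟨?_, j, rfl, h1⟩
    show y ∈ S.2 ∪ (univ.filter (fun i : Fin k => i ≤ j)).image u
    rw [mem_union, mem_image]
    exact Or.inr ⟨j, by simp, h1.symm⟩

/-- the operation uses only the slots up to the stop slot -/
theorem op_congr (u u' : Fin k → Fin n) (t : Option (Fin k)) (S : St n)
    (h : ∀ j, (∀ s, t = some s → j ≤ s) → u j = u' j) : op u t S = op u' t S := by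
  cases t with
  | none =>
    have h1 : u = u' := funext fun j => h j (fun s hs => by simp at hs)
    rw [h1]
  | some j =>
    have h1 : ∀ i, i ≤ j → u i = u' i := fun i hi => h i (fun s hs => by
      rw [Option.some.injEq] at hs
      rw [← hs]
      exact hi)
    have h2 : (univ.filter (fun i : Fin k => i ≤ j)).image u =
        (univ.filter (fun i : Fin k => i ≤ j)).image u' :=
      image_congr fun i hi => h1 i (by simpa using hi)
    show ((if u j ∈ S.2 then S.1 else fl S.1 (u j)),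
      S.2 ∪ (univ.filter (fun i : Fin k => i ≤ j)).image u) =
      ((if u' j ∈ S.2 then S.1 else fl S.1 (u' j)),
      S.2 ∪ (univ.filter (fun i : Fin k => i ≤ j)).image u')
    rw [h2, h1 j le_rfl]

/-- characterisation of the stop slot -/
theorem stp_some {u : Fin k → Fin n} {P : Fin n → Prop} {j : Fin k} :
    stp u P = some j ↔ P (u j) ∧ ∀ i, i < j → ¬ P (u i) := by
  unfold stp
  constructor
  · intro h
    split_ifs at h with h1
    rw [Option.some.injEq] at h
    have h2 := min'_mem _ h1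
    rw [h] at h2
    refine ⟨(mem_filter.1 h2).2, fun i hi hP => ?_⟩
    have h3 := min'_le (univ.filter (fun j : Fin k => P (u j))) i (by simp [hP])
    rw [h] at h3
    exact absurd hi (not_lt.2 h3)
  · rintro ⟨h1, h2⟩
    have h3 : (univ.filter (fun j : Fin k => P (u j))).Nonempty := ⟨j, by simp [h1]⟩
    rw [dif_pos h3, Option.some.injEq]
    apply le_antisymm
    · exact min'_le _ _ (by simp [h1])
    · by_contra h4
      exact h2 _ (not_le.1 h4) (mem_filter.1 (min'_mem _ h3)).2

theorem stp_none {u : Fin k → Fin n} {P : Fin n → Prop} : stp u P = none ↔ ∀ j, ¬ P (u j) := by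
  unfold stp
  constructor
  · intro h j hP
    rw [dif_pos ⟨j, by simp [hP]⟩] at h
    simp at h
  · intro h
    rw [dif_neg]
    rintro ⟨j, hj⟩
    exact h j (mem_filter.1 hj).2

/-- if the predicates agree at all slots up to the stop slot of the first one, the stop slots are equal -/
theorem stp_congr (u : Fin k → Fin n) (P P' : Fin n → Prop)
    (h : ∀ j, (∀ s, stp u P = some s → j ≤ s) → (P (u j) ↔ P' (u j))) : stp u P = stp u P' := by
  rcases hs : stp u P with _ | s
  · symm
    rw [stp_none]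
    intro j hP
    exact stp_none.1 hs j ((h j (fun s h' => by rw [hs] at h'; simp at h')).2 hP)
  · symm
    rw [stp_some]
    have h0 := stp_some.1 hs
    have h1 : ∀ j, j ≤ s → (P (u j) ↔ P' (u j)) := fun j hj => h j (fun s' h' => by
      rw [hs, Option.some.injEq] at h'
      rw [← h']
      exact hj)
    exact ⟨(h1 s le_rfl).1 h0.1, fun i hi hP => h0.2 i hi ((h1 i hi.le).2 hP)⟩

theorem run_zero (Φ : Fml n k m) (Q : Finset (Fin m)) (Y : Finset (Fin n))
    (ρ : Fin m → Option (Option (Fin k))) (η : Asg n) : run Φ Q Y ρ η 0 = (η, ∅) := rfl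

theorem run_succ (Φ : Fml n k m) (Q : Finset (Fin m)) (Y : Finset (Fin n))
    (ρ : Fin m → Option (Option (Fin k))) (η : Asg n) (i : Fin m) :
    run Φ Q Y ρ η (i.val + 1) = step Φ Q Y ρ i (run Φ Q Y ρ η i.val) := by
  show (if h : i.val < m then step Φ Q Y ρ ⟨i.val, h⟩ (run Φ Q Y ρ η i.val)
    else run Φ Q Y ρ η i.val) = _
  rw [dif_pos i.2]

theorem run_succ_ge (Φ : Fml n k m) (Q : Finset (Fin m)) (Y : Finset (Fin n))
    (ρ : Fin m → Option (Option (Fin k))) (η : Asg n) {i : ℕ} (hi : m ≤ i) :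
    run Φ Q Y ρ η (i + 1) = run Φ Q Y ρ η i := by
  show (if h : i < m then step Φ Q Y ρ ⟨i, h⟩ (run Φ Q Y ρ η i)
    else run Φ Q Y ρ η i) = _
  rw [dif_neg (not_lt.2 hi)]

theorem Op_step_marks (Φ : Fml n k m) (Q : Finset (Fin m)) (Y : Finset (Fin n))
    (ρ : Fin m → Option (Option (Fin k))) (i : Fin m) (S : St n) :
    S.2 ⊆ (step Φ Q Y ρ i S).2 := by
  unfold step
  split_ifs
  · cases ρ i with
    | none => exact Subset.refl _
    | some t => exact op_marks _ _ _
  · exact op_marks _ _ _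
  · exact Subset.refl _

theorem Op_step_fix (Φ : Fml n k m) (Q : Finset (Fin m)) (Y : Finset (Fin n))
    (ρ : Fin m → Option (Option (Fin k))) (i : Fin m) (S : St n) {y : Fin n} (hy : y ∈ S.2) :
    (step Φ Q Y ρ i S).1 y = S.1 y := by
  unfold step
  split_ifs
  · cases ρ i with
    | none => rfl
    | some t => exact op_fix _ _ _ hy
  · exact op_fix _ _ _ hy
  · rfl

theorem Op_step_changed (Φ : Fml n k m) (Q : Finset (Fin m)) (Y : Finset (Fin n))
    (ρ : Fin m → Option (Option (Fin k))) (i : Fin m) (S : St n) {y : Fin n}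
    (hy : (step Φ Q Y ρ i S).1 y ≠ S.1 y) : y ∈ (step Φ Q Y ρ i S).2 := by
  unfold step at hy ⊢
  split_ifs at hy ⊢
  · cases h : ρ i with
    | none =>
      rw [h] at hy
      exact absurd rfl hy
    | some t =>
      rw [h] at hy
      exact (op_changed _ _ _ hy).2.1
  · exact (op_changed _ _ _ hy).2.1
  · exact absurd rfl hy

/-- PROOF. Induction on `j`, `op_marks`. -/
theorem run_marks (Φ : Fml n k m) (Q : Finset (Fin m)) (Y : Finset (Fin n))
    (ρ : Fin m → Option (Option (Fin k))) (η : Asg n) {i j : ℕ} (hij : i ≤ j) :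
    (run Φ Q Y ρ η i).2 ⊆ (run Φ Q Y ρ η j).2 := by
  induction j, hij using Nat.le_induction with
  | base => exact Subset.refl _
  | succ j hij ih =>
    refine ih.trans ?_
    by_cases hj : j < m
    · have h1 := run_succ Φ Q Y ρ η ⟨j, hj⟩
      rw [h1]
      exact Op_step_marks _ _ _ _ _ _
    · rw [run_succ_ge Φ Q Y ρ η (not_lt.1 hj)]

theorem run_fix (Φ : Fml n k m) (Q : Finset (Fin m)) (Y : Finset (Fin n))
    (ρ : Fin m → Option (Option (Fin k))) (η : Asg n) {i j : ℕ} (hij : i ≤ j) {y : Fin n}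
    (hy : y ∈ (run Φ Q Y ρ η i).2) : (run Φ Q Y ρ η j).1 y = (run Φ Q Y ρ η i).1 y := by
  induction j, hij using Nat.le_induction with
  | base => rfl
  | succ j hij ih =>
    rw [← ih]
    by_cases hj : j < m
    · have h1 := run_succ Φ Q Y ρ η ⟨j, hj⟩
      rw [h1]
      exact Op_step_fix _ _ _ _ _ _ (run_marks Φ Q Y ρ η hij hy)
    · rw [run_succ_ge Φ Q Y ρ η (not_lt.1 hj)]

theorem run_changed (Φ : Fml n k m) (Q : Finset (Fin m)) (Y : Finset (Fin n))
    (ρ : Fin m → Option (Option (Fin k))) (η : Asg n) {i j : ℕ} (hij : i ≤ j) {y : Fin n}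
    (hy : (run Φ Q Y ρ η j).1 y ≠ (run Φ Q Y ρ η i).1 y) :
    y ∉ (run Φ Q Y ρ η i).2 ∧ y ∈ (run Φ Q Y ρ η j).2 := by
  refine ⟨fun h => hy (run_fix Φ Q Y ρ η hij h), ?_⟩
  induction j, hij using Nat.le_induction with
  | base => exact absurd rfl hy
  | succ j hij ih =>
    by_cases h0 : (run Φ Q Y ρ η j).1 y ≠ (run Φ Q Y ρ η i).1 y
    · exact run_marks Φ Q Y ρ η (Nat.le_succ j) (ih h0)
    · push Not at h0
      by_cases hj : j < m
      · have h1 := run_succ Φ Q Y ρ η ⟨j, hj⟩
        rw [← h0] at hy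
        have h2 : (run Φ Q Y ρ η (j + 1)) = step Φ Q Y ρ ⟨j, hj⟩ (run Φ Q Y ρ η j) := h1
        rw [h2] at hy ⊢
        exact Op_step_changed _ _ _ _ _ _ hy
      · rw [run_succ_ge Φ Q Y ρ η (not_lt.1 hj)] at hy
        exact absurd h0 hy

theorem run_unmarked (Φ : Fml n k m) (Q : Finset (Fin m)) (Y : Finset (Fin n))
    (ρ : Fin m → Option (Option (Fin k))) (η : Asg n) {i : ℕ} {y : Fin n}
    (hy : y ∉ (run Φ Q Y ρ η i).2) : (run Φ Q Y ρ η i).1 y = η y := by
  by_contra h
  exact hy (run_changed Φ Q Y ρ η (Nat.zero_le i) h).2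

theorem free_congr (Φ Φ' : Fml n k m) (Q : Finset (Fin m)) (Y : Finset (Fin n)) (i : ℕ) (S : St n)
    (h1 : ∀ e : Fin m, e.val < i → e ∉ Q → Φ e = Φ' e) : Free Φ Q Y i S = Free Φ' Q Y i S := by
  funext y
  unfold Free
  refine propext (and_congr_right fun _ => and_congr_right fun _ => ?_)
  refine forall_congr' fun e => ?_
  constructor
  · intro h he hQ
    rw [← h1 e he hQ]
    exact h he hQ
  · intro h he hQ
    rw [h1 e he hQ]
    exact h he hQ

/-- The run depends only on the clauses outside `Q` and on the inspected slots of the clauses of `Q` with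
a prescribed operation.  PROOF. Induction on `i`: `op_congr` for `i ∈ Q`, `free_congr` otherwise. -/
theorem run_congr (Φ Φ' : Fml n k m) (Q : Finset (Fin m)) (Y : Finset (Fin n))
    (ρ : Fin m → Option (Option (Fin k))) (η : Asg n) (i : ℕ)
    (h1 : ∀ e : Fin m, e.val < i → e ∉ Q → Φ e = Φ' e)
    (h2 : ∀ e ∈ Q, e.val < i → ∀ t, ρ e = some t → ∀ j, (∀ s, t = some s → j ≤ s) →
      (Φ e).1 j = (Φ' e).1 j) :
    run Φ Q Y ρ η i = run Φ' Q Y ρ η i := by
  induction i with
  | zero => rfl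
  | succ i ih =>
    have ih' := ih (fun e he => h1 e (by omega)) (fun e hQ he => h2 e hQ (by omega))
    by_cases hi : i < m
    · have e1 := run_succ Φ Q Y ρ η ⟨i, hi⟩
      have e2 := run_succ Φ' Q Y ρ η ⟨i, hi⟩
      have e1' : run Φ Q Y ρ η (i + 1) = step Φ Q Y ρ ⟨i, hi⟩ (run Φ Q Y ρ η i) := e1
      have e2' : run Φ' Q Y ρ η (i + 1) = step Φ' Q Y ρ ⟨i, hi⟩ (run Φ' Q Y ρ η i) := e2
      rw [e1', e2', ih']
      unfold step
      by_cases hQ : (⟨i, hi⟩ : Fin m) ∈ Q
      · rw [if_pos hQ, if_pos hQ]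
        cases hρ : ρ ⟨i, hi⟩ with
        | none => rfl
        | some t =>
          exact op_congr _ _ _ _ (h2 ⟨i, hi⟩ hQ (Nat.lt_succ_self i) t hρ)
      · rw [if_neg hQ, if_neg hQ, h1 ⟨i, hi⟩ (Nat.lt_succ_self i) hQ,
          free_congr Φ Φ' Q Y i _ (fun e he hQ => h1 e (by omega) hQ)]
    · rw [run_succ_ge Φ Q Y ρ η (not_lt.1 hi), run_succ_ge Φ' Q Y ρ η (not_lt.1 hi), ih']

/-- A clause `e ∉ Q` which was violated when inserted has only marked true variables later.
PROOF. A true slot at time `i` has changed since time `e.val`: `run_changed`. (Also true for `e ∈ Q`.) -/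
theorem true_marked (Φ : Fml n k m) (Q : Finset (Fin m)) (Y : Finset (Fin n))
    (ρ : Fin m → Option (Option (Fin k))) (η : Asg n) {e : Fin m} {i : ℕ} (hei : e.val ≤ i)
    (hV : Viol (Φ e) (run Φ Q Y ρ η e.val).1) (j : Fin k)
    (hj : (run Φ Q Y ρ η i).1 ((Φ e).1 j) ≠ (Φ e).2 j) :
    (Φ e).1 j ∈ (run Φ Q Y ρ η i).2 := by
  refine (run_changed Φ Q Y ρ η hei ?_).2
  rw [hV j]
  exact hj

/-- PROOF. `crit_slot` and `true_marked`. -/
theorem noncrit_of_viol (Φ : Fml n k m) (Q : Finset (Fin m)) (Y : Finset (Fin n))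
    (ρ : Fin m → Option (Option (Fin k))) (η : Asg n) {e : Fin m} {i : ℕ} (hei : e.val ≤ i)
    (hV : Viol (Φ e) (run Φ Q Y ρ η e.val).1) {y : Fin n} (hy : y ∉ (run Φ Q Y ρ η i).2) :
    ¬ Crit (Φ e) (run Φ Q Y ρ η i).1 y := by
  intro h
  obtain ⟨j, hj, hj'⟩ := crit_slot h
  apply hy
  rw [← hj]
  exact true_marked Φ Q Y ρ η hei hV j (by rw [hj]; exact hj')

end GC
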