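import Pool.Agent.W_bd7f91F_h12.ClosA
import Pool.Agent.W_bd7f91F_h12.ConnL

/-! # Hall's theorem and the patch -/

set_option autoImplicit false

open Finset
open scoped Classical

namespace GC

variable {n k m : ℕ}

/-- PROOF. `VS K ⊆ (K.biUnion DD) ∪ (images of the slots outside dsl)`, so `|VS K| ≤ |K.biUnion DD| + (k - 3) |K|` (`dsl_card`), and
`16 |VS K| ≥ (16 k - 17) |K|`; so `16 |K.biUnion DD| ≥ 31 |K|`. -/
theorem hall_card (hk : 3 ≤ k) (Φ : Fml n k m) (S : St n) (l : ℕ) (hE : E1 (pos Φ) l)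
    {K : Finset (Fin m)} (hK : K.card ≤ l) : K.card ≤ (K.biUnion (DD Φ S)).card := by
  have h1 := hE K hK
  have h2 : VS (pos Φ) K ⊆ K.biUnion (DD Φ S) ∪
      K.biUnion (fun e => ((univ : Finset (Fin k)) \ dsl (gs Φ S e)).image (Φ e).1) := by
    intro y hy
    obtain ⟨e, he, hy⟩ := mem_biUnion.1 hy
    obtain ⟨j, _, rfl⟩ := mem_image.1 hy
    by_cases hj : j ∈ dsl (gs Φ S e)
    · exact mem_union_left _ (mem_biUnion.2 ⟨e, he, mem_image_of_mem _ hj⟩)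
    · exact mem_union_right _ (mem_biUnion.2 ⟨e, he, mem_image_of_mem _
        (mem_sdiff.2 ⟨mem_univ _, hj⟩)⟩)
  have h3 : (K.biUnion (fun e => ((univ : Finset (Fin k)) \ dsl (gs Φ S e)).image (Φ e).1)).card ≤
      K.card * (k - 3) := by
    refine card_biUnion_le_card_mul _ _ _ fun e _ => card_image_le.trans ?_
    rw [card_sdiff_of_subset (subset_univ _), card_univ, Fintype.card_fin, dsl_card hk]
  have h4 := (card_le_card h2).trans (card_union_le _ _)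
  obtain ⟨d, rfl⟩ : ∃ d, k = d + 3 := ⟨k - 3, by omega⟩
  have h5 : 16 * (d + 3) - 17 = 16 * d + 31 := by omega
  have h6 : d + 3 - 3 = d := by omega
  rw [h5] at h1
  rw [h6] at h3
  nlinarith [h1, h3, h4]

/-- PROOF. Hall's theorem (`Finset.all_card_le_biUnion_card_iff_exists_injective` on the subtype of `κ`) gives an injective choice
`f e ∈ DD Φ S e`, `f e = (Φ e).1 (j e)`; let `a (f e) = ! (Φ e).2 (j e)`, `false` elsewhere. -/
theorem exists_assign (hk : 3 ≤ k) (Φ : Fml n k m) (S : St n) (l : ℕ) (hE : E1 (pos Φ) l)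
    {κ : Finset (Fin m)} (hκ : κ.card ≤ l) :
    ∃ a : Asg n, ∀ e ∈ κ, ∃ j, (Φ e).1 j ∈ DD Φ S e ∧ a ((Φ e).1 j) ≠ (Φ e).2 j := by
  have hall : ∀ s : Finset {e // e ∈ κ}, s.card ≤ (s.biUnion (fun e => DD Φ S e.1)).card := by
    intro s
    have h1 : (s.map ⟨Subtype.val, Subtype.val_injective⟩).card ≤ l := by
      refine (card_le_card ?_).trans hκ
      intro e he
      obtain ⟨e', _, rfl⟩ := mem_map.1 he
      exact e'.2
    have h2 := hall_card hk Φ S l hE h1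
    rw [card_map] at h2
    refine h2.trans (card_le_card ?_)
    intro y hy
    obtain ⟨e, he, hy⟩ := mem_biUnion.1 hy
    obtain ⟨e', he', rfl⟩ := mem_map.1 he
    exact mem_biUnion.2 ⟨e', he', hy⟩
  obtain ⟨f, hf, hfD⟩ := (Finset.all_card_le_biUnion_card_iff_exists_injective
    (fun e : {e // e ∈ κ} => DD Φ S e.1)).1 hall
  have hj : ∀ e : {e // e ∈ κ}, ∃ j, (Φ e.1).1 j = f e := by
    intro e
    obtain ⟨j, _, hj⟩ := mem_image.1 (hfD e)
    exact ⟨j, hj⟩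
  choose j hj using hj
  refine ⟨fun y => if h : ∃ e, f e = y then ! (Φ h.choose.1).2 (j h.choose) else false,
    fun e he => ⟨j ⟨e, he⟩, ?_, ?_⟩⟩
  · rw [hj ⟨e, he⟩]
    exact hfD ⟨e, he⟩
  · rw [hj ⟨e, he⟩]
    have h : ∃ e', f e' = f ⟨e, he⟩ := ⟨_, rfl⟩
    have h' : h.choose = ⟨e, he⟩ := hf h.choose_spec
    show (if h : ∃ e', f e' = f ⟨e, he⟩ then ! (Φ h.choose.1).2 (j h.choose) else false) ≠ _
    rw [dif_pos h, h']
    simp

/-- PROOF. `Classical.choose_spec` in `acan`; `Dr D κ e = D e` for `e ∈ κ`. -/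
theorem acan_spec (hk : 3 ≤ k) (Φ : Fml n k m) (S : St n) (l : ℕ) (hE : E1 (pos Φ) l)
    {κ : Finset (Fin m)} (hκ : κ.card ≤ l) :
    ∀ e ∈ κ, ∃ j, (Φ e).1 j ∈ DD Φ S e ∧ acan Φ (Dr (DD Φ S) κ) κ ((Φ e).1 j) ≠ (Φ e).2 j := by
  have h : ∃ a : Asg n, ∀ e ∈ κ, ∃ j, (Φ e).1 j ∈ Dr (DD Φ S) κ e ∧ a ((Φ e).1 j) ≠ (Φ e).2 j := by
    obtain ⟨a, ha⟩ := exists_assign hk Φ S l hE hκ
    refine ⟨a, fun e he => ?_⟩
    obtain ⟨j, h1, h2⟩ := ha e he
    exact ⟨j, by rwa [Dr, if_pos he], h2⟩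
  intro e he
  have h0 : acan Φ (Dr (DD Φ S) κ) κ = h.choose := by
    rw [acan, dif_pos h]
  rw [h0]
  obtain ⟨j, h1, h2⟩ := h.choose_spec e he
  rw [Dr, if_pos he] at h1
  exact ⟨j, h1, h2⟩

end GC
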