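import Pool.Agent.W_bd7f91F_h12.PatchA

/-! # Hall's theorem and the patch -/

set_option autoImplicit false

open Finset
open scoped Classical

namespace GC

variable {n k m : ℕ}

/-- on the designated variables of `e` the patch is given by the component of `e`.
PROOF. If `y ∈ DD e` and `y ∈ DD e'` then `e`, `e'` are adjacent (`DD ⊆ VV`), so the components are equal (`cmp_eq`). -/
theorem patch_on (Φ : Fml n k m) (S : St n) {e : Fin m} (he : e ∈ TT Φ S) {y : Fin n}
    (hy : y ∈ DD Φ S e) :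
    patch Φ S y = acan Φ (Dr (DD Φ S) (cmp (pos Φ) (DD Φ S) (TT Φ S) e))
      (cmp (pos Φ) (DD Φ S) (TT Φ S) e) y := by
  have h : ∃ e ∈ TT Φ S, y ∈ DD Φ S e := ⟨e, he, hy⟩
  have h1 : patch Φ S y = acan Φ (Dr (DD Φ S) (cmp (pos Φ) (DD Φ S) (TT Φ S) h.choose))
      (cmp (pos Φ) (DD Φ S) (TT Φ S) h.choose) y := by
    unfold patch
    rw [dif_pos h]
  obtain ⟨h2, h3⟩ := h.choose_spec
  have hadj : AdjD (pos Φ) (DD Φ S) e h.choose := by
    left
    obtain ⟨j, _, hj⟩ := mem_image.1 (DD_sub Φ S e hy)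
    exact ⟨j, by rw [hj]; exact h3⟩
  have h4 : h.choose ∈ cmp (pos Φ) (DD Φ S) (TT Φ S) e :=
    cmp_adj (pos Φ) (DD Φ S) (cmp_self (pos Φ) (DD Φ S) he) h2 hadj
  rw [h1, cmp_eq (pos Φ) (DD Φ S) he h4]

theorem patch_off (Φ : Fml n k m) (S : St n) {y : Fin n}
    (hy : y ∉ (TT Φ S).biUnion (DD Φ S)) : patch Φ S y = S.1 y := by
  have h : ¬ ∃ e ∈ TT Φ S, y ∈ DD Φ S e := by
    rintro ⟨e, he, hye⟩
    exact hy (mem_biUnion.2 ⟨e, he, hye⟩)
  unfold patch
  rw [dif_neg h]

/-- THE PATCH IS A SOLUTION.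
PROOF. `e ∈ TT`: `acan_spec` for its component and `patch_on`. `e ∉ TT`: by `TT_closed` it has a true slot whose variable is not in
`(TT Φ S).biUnion (DD Φ S)`: `patch_off`. -/
theorem patch_sol (hk : 3 ≤ k) (Φ : Fml n k m) (S : St n) (l : ℕ) (hE : E1 (pos Φ) l)
    (hc : ∀ e ∈ TT Φ S, (cmp (pos Φ) (DD Φ S) (TT Φ S) e).card ≤ l) : patch Φ S ∈ SolF Φ := by
  refine mem_filter.2 ⟨mem_univ _, fun e hV => ?_⟩
  by_cases he : e ∈ TT Φ S
  · obtain ⟨j, hj, hj'⟩ := acan_spec hk Φ S l hE (hc e he) e (cmp_self (pos Φ) (DD Φ S) he)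
    rw [← patch_on Φ S he hj] at hj'
    exact hj' (hV j)
  · have hn : ¬ Need Φ S (TT Φ S) e := fun h => he (TT_closed h)
    unfold Need at hn
    push Not at hn
    obtain ⟨j, hj, hj'⟩ := hn
    have h1 := hV j
    rw [patch_off Φ S hj'] at h1
    exact hj h1

theorem patch_dist (Φ : Fml n k m) (S : St n) :
    hammingDist S.1 (patch Φ S) ≤ ((TT Φ S).biUnion (DD Φ S)).card := by
  unfold hammingDist
  refine card_le_card ?_
  intro y hy
  by_contra hcon
  exact (mem_filter.1 hy).2 (patch_off Φ S hcon).symm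

/-- if no clause is violated the closure is empty and the patch changes nothing -/
theorem patch_of_sol (Φ : Fml n k m) (S : St n) (h : ∀ e, ¬ Viol (Φ e) S.1) :
    patch Φ S = S.1 := by
  have h1 : TT Φ S ⊆ ∅ := by
    refine ClosA_TT_sub ?_
    intro e hN
    exfalso
    refine h e fun j => ?_
    by_contra hj
    have h2 := hN j hj
    rw [biUnion_empty] at h2
    exact notMem_empty _ h2
  funext y
  refine patch_off Φ S ?_
  rw [subset_empty.1 h1, biUnion_empty]
  exact notMem_empty _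

end GC
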