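import Pool.Agent.W_bd7f91F_h12.PatchB

/-! # Hall's theorem and the patch -/

set_option autoImplicit false

open Finset
open scoped Classical

namespace GC

variable {n k m : ℕ}

theorem PatchC_viol_congr {c : Cl n k} {x x' : Asg n} (h : ∀ j, x (c.1 j) = x' (c.1 j)) :
    Viol c x ↔ Viol c x' := by
  unfold Viol
  constructor
  · intro h1 j
    rw [← h j]
    exact h1 j
  · intro h1 j
    rw [h j]
    exact h1 j

theorem PatchC_crit_congr {c : Cl n k} {x x' : Asg n} {y : Fin n}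
    (h : ∀ j, x (c.1 j) = x' (c.1 j)) (hy : x y = x' y) : Crit c x y ↔ Crit c x' y := by
  unfold Crit
  rw [PatchC_viol_congr h]
  have h2 : ∀ j, fl x y (c.1 j) = fl x' y (c.1 j) := by
    intro j
    unfold fl
    by_cases hj : c.1 j = y
    · rw [hj, Function.update_self, Function.update_self, hy]
    · rw [Function.update_of_ne hj, Function.update_of_ne hj]
      exact h j
  rw [PatchC_viol_congr h2]

theorem PatchC_not_crit {c : Cl n k} {x : Asg n} {y : Fin n} (h : ∀ j, c.1 j ≠ y) :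
    ¬ Crit c x y := by
  rintro ⟨h1, h2⟩
  apply h1
  intro j
  have h3 := h2 j
  unfold fl at h3
  rwa [Function.update_of_ne (h j)] at h3

/-- off `NB` good variables are the same.
PROOF. `y ∉ NB B`: `y ∉ B` and no clause containing `y` touches `B`, so both assignments agree on the clauses containing `y`; a clause
not containing `y` is never critical for `y`. -/
theorem good_congr (Φ : Fml n k m) (S S' : St n) (B : Finset (Fin n))
    (h : ∀ y, y ∉ B → S.1 y = S'.1 y ∧ (y ∈ S.2 ↔ y ∈ S'.2)) {y : Fin n}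
    (hy : y ∉ NB (pos Φ) B) : Good Φ S y ↔ Good Φ S' y := by
  have hyB : y ∉ B := fun h1 => hy (mem_union_left _ h1)
  have hcr : ∀ e, Crit (Φ e) S.1 y ↔ Crit (Φ e) S'.1 y := by
    intro e
    by_cases hj : ∃ j, (Φ e).1 j = y
    · obtain ⟨j, hj⟩ := hj
      have hnt : e ∉ tch (pos Φ) B := by
        intro he
        apply hy
        refine mem_union_right _ (mem_biUnion.2 ⟨e, he, ?_⟩)
        exact mem_image.2 ⟨j, mem_univ _, hj⟩
      refine PatchC_crit_congr ?_ (h y hyB).1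
      intro i
      refine (h _ ?_).1
      intro hi
      apply hnt
      refine mem_filter.2 ⟨mem_univ _, (Φ e).1 i, mem_inter.2 ⟨?_, hi⟩⟩
      exact mem_image.2 ⟨i, mem_univ _, rfl⟩
    · push Not at hj
      exact iff_of_false (PatchC_not_crit hj) (PatchC_not_crit hj)
  unfold Good
  rw [(h y hyB).2]
  exact and_congr_right fun _ => forall_congr' fun e => not_congr (hcr e)

theorem DD_congr (Φ : Fml n k m) (S S' : St n) (B : Finset (Fin n))
    (h : ∀ y, y ∉ B → S.1 y = S'.1 y ∧ (y ∈ S.2 ↔ y ∈ S'.2)) {e : Fin m}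
    (he : ¬ (VV (pos Φ) e ∩ NB (pos Φ) B).Nonempty) : DD Φ S e = DD Φ S' e := by
  have h1 : gs Φ S e = gs Φ S' e := by
    unfold gs
    refine filter_congr fun j _ => good_congr Φ S S' B h ?_
    intro hj
    exact he ⟨_, mem_inter.2 ⟨mem_image.2 ⟨j, mem_univ _, rfl⟩, hj⟩⟩
  unfold DD
  rw [h1]

/-- FAR COMPONENTS, inclusion.
PROOF. Let `κ` be the component of `e` in `TT Φ S`, not meeting `NB`. By induction on the rank of `TT_gen` every `a ∈ κ` is in `TT Φ S'`: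
`Need Φ S' (TT Φ S') a` holds, as the true slots of `a` are the same for `S`, `S'` (`VV a` misses `B ⊆ NB`), their variables are in
`DD Φ S a'` with `a' ∈ TT Φ S` of smaller rank, adjacent to `a`, so in `κ`, so in `TT Φ S'`, and `DD Φ S' a' = DD Φ S a'` (`DD_congr`).
`κ` is connected for `DD Φ S` and so for `DD Φ S'`: `conn_sub_cmp`. -/
theorem far_sub (Φ : Fml n k m) (S S' : St n) (B : Finset (Fin n))
    (h : ∀ y, y ∉ B → S.1 y = S'.1 y ∧ (y ∈ S.2 ↔ y ∈ S'.2)) {e : Fin m} (he : e ∈ TT Φ S)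
    (hf : ¬ (VS (pos Φ) (cmp (pos Φ) (DD Φ S) (TT Φ S) e) ∩ NB (pos Φ) B).Nonempty) :
    cmp (pos Φ) (DD Φ S) (TT Φ S) e ⊆ cmp (pos Φ) (DD Φ S') (TT Φ S') e ∧
      e ∈ TT Φ S' := by
  obtain ⟨rk, -, hrk⟩ := TT_gen Φ S
  have heκ := cmp_self (pos Φ) (DD Φ S) he
  have hκT := cmp_sub (pos Φ) (DD Φ S) (TT Φ S) e
  have hconn := cmp_conn (pos Φ) (DD Φ S) he
  have hadj : ∀ a b, a ∈ cmp (pos Φ) (DD Φ S) (TT Φ S) e → b ∈ TT Φ S →
      AdjD (pos Φ) (DD Φ S) a b → b ∈ cmp (pos Φ) (DD Φ S) (TT Φ S) e :=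
    fun a b ha hb hab => cmp_adj (pos Φ) (DD Φ S) ha hb hab
  generalize hκ : cmp (pos Φ) (DD Φ S) (TT Φ S) e = κ at hf heκ hκT hconn hadj ⊢
  -- the variables of the clauses of `κ` are not in `NB`
  have hV : ∀ a ∈ κ, ∀ j, (Φ a).1 j ∉ NB (pos Φ) B := by
    intro a ha j hj
    refine hf ⟨_, mem_inter.2 ⟨mem_biUnion.2 ⟨a, ha, ?_⟩, hj⟩⟩
    exact mem_image.2 ⟨j, mem_univ _, rfl⟩
  have hDD : ∀ a ∈ κ, DD Φ S a = DD Φ S' a := by
    intro a ha
    refine DD_congr Φ S S' B h ?_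
    rintro ⟨y, hy⟩
    obtain ⟨hy1, hy2⟩ := mem_inter.1 hy
    obtain ⟨j, -, rfl⟩ := mem_image.1 hy1
    exact hV a ha j hy2
  have key : ∀ r : ℕ, ∀ a ∈ κ, rk a = r → a ∈ TT Φ S' := by
    intro r
    induction r using Nat.strong_induction_on with
    | _ r ih =>
      intro a ha har
      apply TT_closed
      intro j hj
      have hyB : (Φ a).1 j ∉ B := fun hb => hV a ha j (mem_union_left _ hb)
      rw [← (h _ hyB).1] at hj
      obtain ⟨e', he', hlt, hD⟩ := hrk a (hκT ha) j hj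
      have he'κ : e' ∈ κ := hadj a e' ha he' (Or.inl ⟨j, hD⟩)
      refine mem_biUnion.2 ⟨e', ih (rk e') (har ▸ hlt) e' he'κ rfl, ?_⟩
      rw [← hDD e' he'κ]
      exact hD
  have hκT' : κ ⊆ TT Φ S' := fun a ha => key (rk a) a ha rfl
  refine ⟨?_, hκT' heκ⟩
  refine conn_sub_cmp (pos Φ) (DD Φ S') ⟨hconn.1, ?_⟩ hκT' heκ
  intro A hA hA1 hA2
  obtain ⟨a, ha, b, hb, hab⟩ := hconn.2 A hA hA1 hA2
  refine ⟨a, ha, b, hb, ?_⟩
  have ha' : a ∈ κ := hA ha
  have hb' : b ∈ κ := (mem_sdiff.1 hb).1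
  rcases hab with ⟨j, hj⟩ | ⟨j, hj⟩
  · exact Or.inl ⟨j, hDD b hb' ▸ hj⟩
  · exact Or.inr ⟨j, hDD a ha' ▸ hj⟩

end GC
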