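import Pool.Agent.W_bd7f91F_h12.SignCt
import Pool.Agent.W_bd7f91F_h12.AP

/-! # The private slots -/

set_option autoImplicit false

open Finset
open scoped Classical

namespace GC

variable {n k m : ℕ}

/-- Changing one private slot `a` does not change `kfree` at the times `i ≤ rk a`, where `rk a = a.1` if `a` is inspected
and `rk a = m` otherwise.
PROOF. `a` is not a role slot, so `YY` does not change. `run_congr`: if `a` is inspected, the clause `a.1` does not occur
before time `a.1.val ≥ i`. If it is not inspected and not the role slot, then `rop (r a.1) = some t` implies `t = some s`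
and `s < a.2` (not inspected: `s ≤ a.2`, not role slot: `a.2 ≠ s`), so the slot is not used. Then `free_congr`
(only clauses outside `K`). -/
theorem kfree_update (v : Pos n k m) (s : Sgn k m) (K : Finset (Fin m)) (r : Fin m → Rl k)
    (η : Asg n) (a : Fin m × Fin k) (ha : a.1 ∈ K) (hr : ¬ rsl (r a.1) a.2) (c : Fin n) (i : ℕ)
    (hi : i ≤ m) (hia : insp (r a.1) a.2 → i ≤ a.1.val) :
    kfree (mkF (fun e j => if (e, j) = a then c else v e j) s) K r η i =
      kfree (mkF v s) K r η i := by
  have _hi := hi
  have hY : YY (pos (mkF (fun e j => if (e, j) = a then c else v e j) s)) K r =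
      YY (pos (mkF v s)) K r := by
    unfold YY
    apply Finset.filter_congr
    intro y _
    have key : ∀ e j, r e = Sum.inr j →
        (pos (mkF (fun e j => if (e, j) = a then c else v e j) s)) e j = (pos (mkF v s)) e j := by
      intro e j hej
      show (if (e, j) = a then c else v e j) = v e j
      have hne : (e, j) ≠ a := by
        intro h
        apply hr
        left
        rw [← h]
        exact hej
      rw [if_neg hne]
    constructor
    · rintro ⟨e, he, j, hj, hv⟩
      exact ⟨e, he, j, hj, by rw [← key e j hj]; exact hv⟩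
    · rintro ⟨e, he, j, hj, hv⟩
      exact ⟨e, he, j, hj, by rw [key e j hj]; exact hv⟩
  have hoff : ∀ e : Fin m, e ∉ K →
      (mkF (fun e j => if (e, j) = a then c else v e j) s) e = (mkF v s) e := by
    intro e he
    have : (fun j => if (e, j) = a then c else v e j) = v e := by
      funext j
      have hne : (e, j) ≠ a := by
        intro h
        apply he
        rw [← h] at ha
        exact ha
      rw [if_neg hne]
    show ((fun j => if (e, j) = a then c else v e j), s e) = (v e, s e)
    rw [this]
  have hrun : run (mkF (fun e j => if (e, j) = a then c else v e j) s) K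
      (YY (pos (mkF v s)) K r) (fun e => rop (r e)) η i =
      run (mkF v s) K (YY (pos (mkF v s)) K r) (fun e => rop (r e)) η i := by
    apply run_congr
    · intro e _ he
      exact hoff e he
    · intro e he hei t ht j hj
      show (if (e, j) = a then c else v e j) = v e j
      have hne : (e, j) ≠ a := by
        intro h
        have h1 : a.1 = e := by rw [← h]
        have h2 : a.2 = j := by rw [← h]
        have hre : r e = Sum.inl (some t) := by
          cases hrr : r e with
          | inl x =>
            have : rop (r e) = x := by rw [hrr]; rfl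
            rw [this] at ht
            rw [ht]
          | inr x =>
            have : rop (r e) = none := by rw [hrr]; rfl
            rw [this] at ht
            cases ht
        rw [h1, h2] at hr hia
        by_cases hin : insp (r e) j
        · exact absurd (hia hin) (by omega)
        · apply hin
          refine ⟨t, hre, ?_⟩
          intro s' hs'
          rcases lt_or_eq_of_le (hj s' hs') with h3 | h3
          · exact h3
          · exfalso
            apply hr
            right
            rw [hre, hs', h3]
      rw [if_neg hne]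
  unfold kfree krun
  rw [hY, hrun]
  unfold FreeF
  rw [free_congr _ _ _ _ _ _ (fun e _ he => hoff e he)]

/-- PRIVATE SLOTS.
PROOF. `y = 1 / k`. For `p ∈ P` and `w` put `V w = ovP P v w` and `F p w = 1` if `p` is inspected and
`w p.1 p.2 ∉ kfree (mkF (V w) s) K r η p.1`, `0` if it is inspected and in this set; `F p w = y` if `p` is not inspected and
`w p.1 p.2 ∈ kfree (mkF (V w) s) K r η m`, `1` if it is not inspected and not in this set. Then the indicator of `Cond` is
at most `k ^ c * ∏_P F p w`. `ap_pos` with `J = P`, `rk p = p.1.val` if inspected, `m` otherwise; the hypothesis on the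
dependence is `kfree_update` (`ovP P v` of the changed `w` is `ovP P v w` changed at the same slot); the sum over the value
`c` of the slot `p` is at most `n - f + f y` with `f ≥ b ≥ g n` the number of free variables (`kfree` itself does not change
with `c`), so at most `n (1 - g / 2)` as `y ≤ 1/2`. -/
theorem priv_bound (hn : 0 < n) (hk : 2 ≤ k) (v : Pos n k m) (s : Sgn k m) (K : Finset (Fin m))
    (r : Fin m → Rl k) (η : Asg n) (P : Finset (Fin m × Fin k)) (c b : ℕ) (g : ℝ) (hg0 : 0 ≤ g)
    (hg1 : g ≤ 1) (hb : g * n ≤ b) (hP : ∀ p ∈ P, p.1 ∈ K ∧ ¬ rsl (r p.1) p.2)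
    (hG : ∀ w : Pos n k m, ∀ i, i ≤ m → b ≤ (kfree (mkF (ovP P v w) s) K r η i).card) :
    ((univ.filter (fun w : Pos n k m => Cond (mkF (ovP P v w) s) K r η P c)).card : ℝ) ≤
      (n : ℝ) ^ (k * m) * (k : ℝ) ^ c * (1 - g / 2) ^ P.card := by
  have hk0 : (0 : ℝ) < k := by exact_mod_cast (by omega : 0 < k)
  have hk2 : (2 : ℝ) ≤ k := by exact_mod_cast hk
  have hn0 : (0 : ℝ) < n := by exact_mod_cast hn
  set y : ℝ := 1 / k with hy
  have hy0 : 0 < y := by positivity
  have hy2 : y ≤ 1 / 2 := by
    rw [hy]; exact one_div_le_one_div_of_le (by norm_num) hk2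
  -- rank
  set rk : Fin m × Fin k → ℕ := fun p => if insp (r p.1) p.2 then p.1.val else m with hrk
  have hrkm : ∀ p, rk p ≤ m := by
    intro p
    simp only [hrk]
    split_ifs
    · exact p.1.isLt.le
    · exact le_rfl
  set F : Fin m × Fin k → Pos n k m → ℝ := fun p w =>
    if w p.1 p.2 ∈ kfree (mkF (ovP P v w) s) K r η (rk p) then
      (if insp (r p.1) p.2 then 0 else y) else 1 with hF
  -- updating
  have hov : ∀ (w : Pos n k m) (a : Fin m × Fin k) (d : Fin n), a ∈ P →
      ovP P v (fun e j => if (e, j) = a then d else w e j) =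
        fun e j => if (e, j) = a then d else ovP P v w e j := by
    intro w a d haP
    funext e j
    unfold ovP
    beta_reduce
    by_cases h1 : (e, j) = a
    · rw [if_pos h1, if_pos h1, if_pos (by rw [h1]; exact haP)]
    · rw [if_neg h1, if_neg h1]
  have hkf : ∀ (w : Pos n k m) (a : Fin m × Fin k) (d : Fin n) (i : ℕ), a ∈ P → i ≤ m →
      (insp (r a.1) a.2 → i ≤ a.1.val) →
      kfree (mkF (ovP P v (fun e j => if (e, j) = a then d else w e j)) s) K r η i =
        kfree (mkF (ovP P v w) s) K r η i := by
    intro w a d i haP him hia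
    rw [hov w a d haP]
    exact kfree_update (ovP P v w) s K r η a (hP a haP).1 (hP a haP).2 d i him hia
  have hrki : ∀ a b : Fin m × Fin k, rk b ≤ rk a → insp (r a.1) a.2 → rk b ≤ a.1.val := by
    intro a b' hab hin
    have : rk a = a.1.val := by simp only [hrk]; rw [if_pos hin]
    omega
  have hap := ap_pos (n := n) (k := k) (m := m) hn P rk F (fun _ => (n : ℝ) * (1 - g / 2))
    (by
      intro a _ w
      simp only [hF]
      split_ifs
      · exact le_rfl
      · exact hy0.le
      · exact zero_le_one)
    (by
      intro a haP b' hbP hab hrab w d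
      simp only [hF]
      rw [hkf w a d (rk b') haP (hrkm b') (hrki a b' hrab)]
      have : (b'.1, b'.2) ≠ a := fun h => hab h.symm
      simp only [if_neg this])
    (by
      intro a haP w
      have h1 : ∀ d : Fin n, F a (fun e j => if (e, j) = a then d else w e j) =
          if d ∈ kfree (mkF (ovP P v w) s) K r η (rk a) then
            (if insp (r a.1) a.2 then (0 : ℝ) else y) else 1 := by
        intro d
        simp only [hF]
        rw [hkf w a d (rk a) haP (hrkm a) (hrki a a le_rfl)]
        simp only [if_true]
      rw [Finset.sum_congr rfl (fun d _ => h1 d)]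
      set S := kfree (mkF (ovP P v w) s) K r η (rk a) with hS
      set z : ℝ := if insp (r a.1) a.2 then (0 : ℝ) else y with hz
      have hz0 : z ≤ 1 / 2 := by
        rw [hz]; split_ifs
        · norm_num
        · exact hy2
      have hcard : b ≤ S.card := hG w (rk a) (hrkm a)
      have hSr : g * n ≤ (S.card : ℝ) := le_trans hb (by exact_mod_cast hcard)
      have hsum : ∑ d : Fin n, (if d ∈ S then z else 1) = S.card * z + (n - S.card) := by
        have h2 : ∀ d : Fin n, (if d ∈ S then z else (1 : ℝ)) =
            1 + (if d ∈ S then (z - 1) else 0) := by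
          intro d; split_ifs <;> ring
        rw [Finset.sum_congr rfl (fun d _ => h2 d), Finset.sum_add_distrib,
          Finset.sum_ite_mem]
        simp
        ring
      rw [hsum]
      nlinarith [hSr, hz0, mul_le_mul_of_nonneg_left hz0 (Nat.cast_nonneg (α := ℝ) S.card)])
  -- indicator bound
  have hind : ∀ w : Pos n k m, Cond (mkF (ovP P v w) s) K r η P c →
      1 ≤ (k : ℝ) ^ c * ∏ p ∈ P, F p w := by
    intro w hw
    obtain ⟨hw1, hw2⟩ := hw
    have hval : ∀ p ∈ P, (mkF (ovP P v w) s p.1).1 p.2 = w p.1 p.2 := by
      intro p hp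
      show ovP P v w p.1 p.2 = w p.1 p.2
      unfold ovP
      rw [if_pos hp]
    have hprod : ∏ p ∈ P, F p w =
        y ^ (P.filter (fun p => ¬ insp (r p.1) p.2 ∧ (mkF (ovP P v w) s p.1).1 p.2 ∈
          kfree (mkF (ovP P v w) s) K r η m)).card := by
      rw [← Finset.prod_const, Finset.prod_filter]
      apply Finset.prod_congr rfl
      intro p hp
      simp only [hF]
      rw [hval p hp]
      by_cases hin : insp (r p.1) p.2
      · have h1 := hw1 p hp hin
        rw [hval p hp] at h1
        have h2 : rk p = p.1.val := by simp only [hrk]; rw [if_pos hin]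
        rw [h2, if_neg h1, if_neg (by tauto)]
      · have h2 : rk p = m := by simp only [hrk]; rw [if_neg hin]
        rw [h2]
        by_cases h3 : w p.1 p.2 ∈ kfree (mkF (ovP P v w) s) K r η m
        · rw [if_pos h3, if_neg hin, if_pos ⟨hin, h3⟩]
        · rw [if_neg h3, if_neg (by tauto)]
    rw [hprod]
    have h4 : y ^ c ≤ y ^ (P.filter (fun p => ¬ insp (r p.1) p.2 ∧
        (mkF (ovP P v w) s p.1).1 p.2 ∈ kfree (mkF (ovP P v w) s) K r η m)).card :=
      pow_le_pow_of_le_one hy0.le (by linarith) hw2
    calc (1 : ℝ) = (k : ℝ) ^ c * y ^ c := by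
          rw [← mul_pow, hy, mul_one_div_cancel hk0.ne', one_pow]
      _ ≤ _ := mul_le_mul_of_nonneg_left h4 (by positivity)
  have hFnn : ∀ w : Pos n k m, 0 ≤ ∏ p ∈ P, F p w := by
    intro w
    apply Finset.prod_nonneg
    intro p _
    simp only [hF]
    split_ifs
    · exact le_rfl
    · exact hy0.le
    · exact zero_le_one
  have hcount : ((univ.filter (fun w : Pos n k m => Cond (mkF (ovP P v w) s) K r η P c)).card : ℝ) ≤
      (k : ℝ) ^ c * ∑ w : Pos n k m, ∏ p ∈ P, F p w := by
    rw [Finset.card_eq_sum_ones, Nat.cast_sum, Finset.mul_sum]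
    calc ∑ w ∈ univ.filter (fun w : Pos n k m => Cond (mkF (ovP P v w) s) K r η P c), ((1 : ℕ) : ℝ)
        ≤ ∑ w ∈ univ.filter (fun w : Pos n k m => Cond (mkF (ovP P v w) s) K r η P c),
            (k : ℝ) ^ c * ∏ p ∈ P, F p w := by
          apply Finset.sum_le_sum
          intro w hw
          rw [Nat.cast_one]
          exact hind w (Finset.mem_filter.mp hw).2
      _ ≤ ∑ w : Pos n k m, (k : ℝ) ^ c * ∏ p ∈ P, F p w := by
          apply Finset.sum_le_sum_of_subset_of_nonneg (Finset.filter_subset _ _)
          intro w _ _
          exact mul_nonneg (by positivity) (hFnn w)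
  have hsumF : ∑ w : Pos n k m, ∏ p ∈ P, F p w ≤ (1 - g / 2) ^ P.card * (n : ℝ) ^ (k * m) := by
    have h1 : (∑ w : Pos n k m, ∏ p ∈ P, F p w) * (n : ℝ) ^ P.card ≤
        ((1 - g / 2) ^ P.card * (n : ℝ) ^ (k * m)) * (n : ℝ) ^ P.card := by
      refine le_trans hap ?_
      rw [Finset.prod_const, mul_pow]
      apply le_of_eq
      ring
    exact le_of_mul_le_mul_right h1 (by positivity)
  calc ((univ.filter (fun w : Pos n k m => Cond (mkF (ovP P v w) s) K r η P c)).card : ℝ)
      ≤ (k : ℝ) ^ c * ∑ w : Pos n k m, ∏ p ∈ P, F p w := hcount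
    _ ≤ (k : ℝ) ^ c * ((1 - g / 2) ^ P.card * (n : ℝ) ^ (k * m)) :=
        mul_le_mul_of_nonneg_left hsumF (by positivity)
    _ = _ := by ring

end GC
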