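import Pool.Agent.W_bd7f91F_h12.Act

/-! # Roles and the removal lemma -/

set_option autoImplicit false

open Finset
open scoped Classical

namespace GC

variable {n k m : ℕ}

/-- PROOF. If `e` is violated when inserted: `inl (some (stp ..))`. Otherwise, if there is a `NewCrit e i y`, the
variable `y` is at some slot `j` (`crit_slot`): `inr j`. Otherwise `inl none`. -/
theorem exists_role (Φ : Fml n k m) (η : Asg n) (e : Fin m) : ∃ r : Rl k, IsRole Φ η e r := by
  by_cases hV : Viol (Φ e) (arun Φ η e.val).1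
  · exact ⟨Sum.inl (some (stp (Φ e).1 (Free Φ ∅ ∅ e.val (arun Φ η e.val)))), hV, rfl⟩
  · by_cases h : ∃ i y, NewCrit Φ η e i y
    · obtain ⟨i, y, hi⟩ := h
      obtain ⟨j, hj, -⟩ := crit_slot hi.cr
      refine ⟨Sum.inr j, i, ?_⟩
      rw [hj]
      exact hi
    · exact ⟨Sum.inl none, hV, fun i y hi => h ⟨i, y, hi⟩⟩

/-- PROOF. Every `e ∈ K` contributes at most one variable. -/
theorem YY_card (v : Pos n k m) (K : Finset (Fin m)) (r : Fin m → Rl k) :
    (YY v K r).card ≤ K.card := by
  have h1 : YY v K r ⊆ K.biUnion (fun e =>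
      Sum.elim (fun _ => (∅ : Finset (Fin n))) (fun j => {v e j}) (r e)) := by
    intro y hy
    unfold YY at hy
    rw [Finset.mem_filter] at hy
    obtain ⟨-, e, he, j, hj, hy⟩ := hy
    rw [Finset.mem_biUnion]
    refine ⟨e, he, ?_⟩
    rw [hj, Sum.elim_inr, Finset.mem_singleton]
    exact hy.symm
  refine (Finset.card_le_card h1).trans ?_
  refine (Finset.card_biUnion_le_card_mul K _ 1 ?_).trans (by rw [mul_one])
  intro e _
  rcases r e with t | j
  · simp
  · simp

theorem Role_time {Φ : Fml n k m} {η : Asg n} {e : Fin m} {i i' : ℕ} {y : Fin n}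
    (h : NewCrit Φ η e i' y) (h1 : y ∉ (arun Φ η i).2) (h2 : y ∈ (arun Φ η (i + 1)).2) : i' = i := by
  rcases lt_trichotomy i' i with hlt | heq | hgt
  · exact absurd (run_marks Φ ∅ ∅ (fun _ => none) η (Nat.succ_le_of_lt hlt) h.mkd) h1
  · exact heq
  · exact absurd (run_marks Φ ∅ ∅ (fun _ => none) η (Nat.succ_le_of_lt hgt) h2) h.un

theorem Role_yy {Φ : Fml n k m} {K : Finset (Fin m)} {r : Fin m → Rl k} {η : Asg n}
    (hr : ∀ e ∈ K, IsRole Φ η e (r e)) {e : Fin m} (he : e ∈ K) {i : ℕ} {y : Fin n}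
    (h : NewCrit Φ η e i y) : y ∈ YY (pos Φ) K r := by
  have h1 := hr e he
  have key : ∀ ro : Rl k, r e = ro → IsRole Φ η e ro → y ∈ YY (pos Φ) K r := by
    intro ro hro h2
    rcases ro with t | j
    · rcases t with _ | t
      · exact absurd h (h2.2 i y)
      · exact absurd h2.1 (nc_noviol h)
    · obtain ⟨i', h3⟩ := h2
      have h4 := (nc_unique h3 h).2
      unfold YY
      rw [Finset.mem_filter]
      exact ⟨Finset.mem_univ _, e, he, j, hro, h4⟩
  exact key (r e) rfl h1

theorem Role_yy2 {Φ : Fml n k m} {K : Finset (Fin m)} {r : Fin m → Rl k} {η : Asg n}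
    (hr : ∀ e ∈ K, IsRole Φ η e (r e)) {y : Fin n} (h : y ∈ YY (pos Φ) K r) :
    ∃ e ∈ K, ∃ i, NewCrit Φ η e i y := by
  unfold YY at h
  rw [Finset.mem_filter] at h
  obtain ⟨-, e, he, j, hj, hy⟩ := h
  have h1 := hr e he
  rw [hj] at h1
  obtain ⟨i, hi⟩ := h1
  have h2 : (Φ e).1 j = y := hy
  rw [h2] at hi
  exact ⟨e, he, i, hi⟩

theorem Role_arun_succ (Φ : Fml n k m) (η : Asg n) (i : Fin m) :
    arun Φ η (i.val + 1) = if Viol (Φ i) (arun Φ η i.val).1 then
      op (Φ i).1 (stp (Φ i).1 (Free Φ ∅ ∅ i.val (arun Φ η i.val))) (arun Φ η i.val)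
    else arun Φ η i.val := by
  have h := run_succ Φ ∅ ∅ (fun _ => none) η i
  have h2 : arun Φ η (i.val + 1) = step Φ ∅ ∅ (fun _ => none) i (arun Φ η i.val) := h
  rw [h2]
  unfold step
  rw [if_neg (Finset.notMem_empty i)]

theorem Role_mark {Φ : Fml n k m} {η : Asg n} {i : Fin m}
    (hV : Viol (Φ i) (arun Φ η i.val).1) {j : Fin k}
    (hj : ∀ s, stp (Φ i).1 (Free Φ ∅ ∅ i.val (arun Φ η i.val)) = some s → j ≤ s) :
    (Φ i).1 j ∈ (arun Φ η (i.val + 1)).2 := by
  rw [Role_arun_succ, if_pos hV]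
  rcases h : stp (Φ i).1 (Free Φ ∅ ∅ i.val (arun Φ η i.val)) with _ | s
  · unfold op
    exact Finset.mem_union_right _ (Finset.mem_image_of_mem _ (Finset.mem_univ j))
  · have hjs := hj s h
    unfold op
    exact Finset.mem_union_right _ (Finset.mem_image_of_mem _
      (Finset.mem_filter.2 ⟨Finset.mem_univ j, hjs⟩))

/-- REMOVAL LEMMA.
PROOF. Induction on `i`. Step `i ∈ K`: if `r i = inl (some t)` then clause `i` is violated and `t` is its stop slot, so
both runs apply the same `op`; if `r i = inl none` or `inr j` then clause `i` is satisfied when inserted (`nc_noviol`),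
both runs do nothing. Step `i ∉ K`: same state, same clause; if it is violated, show that the stop slots agree, by
`stp_congr` with `P = Free Φ ∅ ∅ i S`, `P' = Free Φ K (YY ..) i S`: let `y = (Φ i).1 j` with `j` at most the stop slot
of the actual run; if `y` is marked both are false. Otherwise `y` is newly marked in this step of the actual run.
If `Free Φ ∅ ∅ i S y` then `y ∉ YY`: otherwise `y = (Φ e).1 j'`, `e ∈ K`, `NewCrit e i' y`; as `y` is unmarked at
time `i` and marked at time `i + 1` (`run_marks`), `i' = i`, so `e` is critical for `y` at time `i`, contradiction.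
If `Free Φ K YY i S y` and not `Free Φ ∅ ∅ i S y` then some `e ∈ K`, `e < i`, is critical for `y`, so `NewCrit e i y`;
then `r e` is not `inl (some t)` (`nc_noviol`), not `inl none`, so `r e = inr j'` and `NewCrit e i' ((Φ e).1 j')`,
hence `(Φ e).1 j' = y` (`nc_unique`) and `y ∈ YY`, contradiction. -/
theorem removal (Φ : Fml n k m) (K : Finset (Fin m)) (r : Fin m → Rl k) (η : Asg n)
    (hr : ∀ e ∈ K, IsRole Φ η e (r e)) (i : ℕ) : krun Φ K r η i = arun Φ η i := by
  induction i with
  | zero => rfl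
  | succ i ih =>
    by_cases him : i < m
    · have h1 : krun Φ K r η (i + 1) = step Φ K (YY (pos Φ) K r) (fun e => rop (r e)) ⟨i, him⟩
          (krun Φ K r η i) := run_succ Φ K (YY (pos Φ) K r) (fun e => rop (r e)) η ⟨i, him⟩
      have h2 := Role_arun_succ Φ η ⟨i, him⟩
      have h3 : ((⟨i, him⟩ : Fin m) : ℕ) = i := rfl
      rw [h3] at h2
      rw [h1, h2, ih]
      unfold step
      by_cases hK : (⟨i, him⟩ : Fin m) ∈ K
      · rw [if_pos hK]
        have hrole := hr _ hK
        have key : ∀ ro : Rl k, r ⟨i, him⟩ = ro → IsRole Φ η ⟨i, him⟩ ro →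
            (match rop (r ⟨i, him⟩) with
              | none => arun Φ η i
              | some t => op (Φ ⟨i, him⟩).1 t (arun Φ η i)) =
            if Viol (Φ ⟨i, him⟩) (arun Φ η i).1 then
              op (Φ ⟨i, him⟩).1 (stp (Φ ⟨i, him⟩).1 (Free Φ ∅ ∅ i (arun Φ η i))) (arun Φ η i)
            else arun Φ η i := by
          intro ro hro h4
          rw [hro]
          rcases ro with t | j
          · rcases t with _ | t
            · rw [if_neg h4.1]
              rfl
            · have h5 : Viol (Φ ⟨i, him⟩) (arun Φ η i).1 := h4.1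
              have h6 : t = stp (Φ ⟨i, him⟩).1 (Free Φ ∅ ∅ i (arun Φ η i)) := h4.2
              rw [if_pos h5, ← h6]
              rfl
          · obtain ⟨i', h5⟩ := h4
            have h6 : ¬ Viol (Φ ⟨i, him⟩) (arun Φ η i).1 := nc_noviol h5
            rw [if_neg h6]
            rfl
        exact key _ rfl hrole
      · rw [if_neg hK]
        by_cases hV : Viol (Φ ⟨i, him⟩) (arun Φ η i).1
        · rw [if_pos hV, if_pos hV]
          have hst : stp (Φ ⟨i, him⟩).1 (Free Φ ∅ ∅ i (arun Φ η i)) =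
              stp (Φ ⟨i, him⟩).1 (Free Φ K (YY (pos Φ) K r) i (arun Φ η i)) := by
            refine stp_congr _ _ _ ?_
            intro j hj
            by_cases hy : (Φ ⟨i, him⟩).1 j ∈ (arun Φ η i).2
            · exact ⟨fun h => absurd hy h.1, fun h => absurd hy h.1⟩
            · have hmk : (Φ ⟨i, him⟩).1 j ∈ (arun Φ η (i + 1)).2 := Role_mark (i := ⟨i, him⟩) hV hj
              constructor
              · intro hF
                refine ⟨hy, ?_, fun e he _ => hF.2.2 e he (Finset.notMem_empty e)⟩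
                intro hYY
                obtain ⟨e, he, i', hnc⟩ := Role_yy2 hr hYY
                have hii := Role_time hnc hy hmk
                rw [hii] at hnc
                exact hF.2.2 e hnc.lt (Finset.notMem_empty e) hnc.cr
              · intro hF
                refine ⟨hy, Finset.notMem_empty _, ?_⟩
                intro e he _ hc
                by_cases heK : e ∈ K
                · exact hF.2.1 (Role_yy hr heK ⟨he, hy, hmk, hc⟩)
                · exact hF.2.2 e he heK hc
          rw [← hst]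
        · rw [if_neg hV, if_neg hV]
    · have h1 : krun Φ K r η (i + 1) = krun Φ K r η i :=
        run_succ_ge Φ K (YY (pos Φ) K r) (fun e => rop (r e)) η (not_lt.1 him)
      have h2 : arun Φ η (i + 1) = arun Φ η i :=
        run_succ_ge Φ ∅ ∅ (fun _ => none) η (not_lt.1 him)
      rw [h1, h2, ih]

/-- Inspected slots are not free in the run with `K` removed.
PROOF. `t` is the stop slot, so `(Φ e).1 j` is not in `Free Φ ∅ ∅ e.val S` (`stp_some`, `stp_none`), `S` the state at
time `e.val` (`removal`). If it is unmarked then some `e' < e` is critical for it; if `e' ∉ K` it is not free. If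
`e' ∈ K`: the variable is newly marked in step `e` (slots up to the stop slot are marked), so `NewCrit e' e.val y`, so
`r e' = inr j'` with `(Φ e').1 j' = y` as in the proof of `removal`, and `y ∈ YY`. -/
theorem insp_not_free (Φ : Fml n k m) (K : Finset (Fin m)) (r : Fin m → Rl k) (η : Asg n)
    (hr : ∀ e ∈ K, IsRole Φ η e (r e)) {e : Fin m} (he : e ∈ K) {j : Fin k}
    (hj : insp (r e) j) : (Φ e).1 j ∉ kfree Φ K r η e.val := by
  obtain ⟨t, ht, hs⟩ := hj
  have hrole := hr e he
  rw [ht] at hrole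
  obtain ⟨hV, hst⟩ := hrole
  intro hfree
  unfold kfree FreeF at hfree
  rw [Finset.mem_filter, removal Φ K r η hr] at hfree
  obtain ⟨-, hy, hYY, hcr⟩ := hfree
  have hnf : ¬ Free Φ ∅ ∅ e.val (arun Φ η e.val) ((Φ e).1 j) := by
    rcases t with _ | s
    · exact stp_none.1 hst.symm j
    · exact (stp_some.1 hst.symm).2 j (hs s rfl)
  have hmk : (Φ e).1 j ∈ (arun Φ η (e.val + 1)).2 := by
    refine Role_mark hV ?_
    intro s hs'
    rw [← hst] at hs'
    exact (hs s hs').le
  apply hnf
  refine ⟨hy, Finset.notMem_empty _, ?_⟩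
  intro e' he' _ hc
  by_cases heK : e' ∈ K
  · exact hYY (Role_yy hr heK ⟨he', hy, hmk, hc⟩)
  · exact hcr e' he' heK hc

/-- PROOF. `removal`; `y` is unmarked at the end, so some clause `e` is critical for it; `e ∉ K` would contradict
`y ∈ kfree`. -/
theorem silent_crit (Φ : Fml n k m) (K : Finset (Fin m)) (r : Fin m → Rl k) (η : Asg n)
    (hr : ∀ e ∈ K, IsRole Φ η e (r e)) {y : Fin n} (hy : y ∈ kfree Φ K r η m)
    (hg : ¬ Good Φ (fin Φ η) y) : ∃ e ∈ K, Crit (Φ e) (fin Φ η).1 y := by
  unfold kfree FreeF at hy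
  rw [Finset.mem_filter, removal Φ K r η hr] at hy
  obtain ⟨-, hy1, hYY, hcr⟩ := hy
  by_contra hcon
  apply hg
  refine ⟨hy1, ?_⟩
  intro e hc
  by_cases heK : e ∈ K
  · exact hcon ⟨e, heK, hc⟩
  · exact hcr e e.2 heK hc

theorem pat_V {Φ : Fml n k m} {η : Asg n} {e : Fin m} {t : Option (Fin k)}
    (h : IsRole Φ η e (Sum.inl (some t))) (j : Fin k) :
    (Φ e).2 j = (arun Φ η e.val).1 ((Φ e).1 j) := by
  exact (h.1 j).symm

theorem pat_B {Φ : Fml n k m} {η : Asg n} {e : Fin m} {j0 : Fin k}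
    (h : IsRole Φ η e (Sum.inr j0)) :
    ∃ i, (Φ e).1 j0 ∉ (arun Φ η i).2 ∧ (Φ e).1 j0 ∈ (arun Φ η (i + 1)).2 ∧
      ∀ j, (Φ e).2 j = fl (arun Φ η i).1 ((Φ e).1 j0) ((Φ e).1 j) := by
  obtain ⟨i, hi⟩ := h
  exact ⟨i, hi.un, hi.mkd, fun j => (hi.cr.2 j).symm⟩

theorem pat_S {Φ : Fml n k m} {η : Asg n} {K : Finset (Fin m)}
    (hK : KClosed Φ (fin Φ η).1 K) {e : Fin m} (he : e ∈ K) (j : Fin k)
    (hj : (Φ e).1 j ∉ VS (pos Φ) (K.erase e)) : (Φ e).2 j = (fin Φ η).1 ((Φ e).1 j) := by
  by_contra hne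
  exact hj (hK e he j (Ne.symm hne))

end GC
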