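import Pool.Agent.W_bd7f91F_h12.Role

/-! # The signs of the clauses of a closed set are determined by the run with these clauses removed -/

set_option autoImplicit false

open Finset
open scoped Classical

namespace GC

variable {n k m : ℕ}

/-- the run with `K` removed does not depend on the signs of `K` (`run_congr`) -/
theorem krun_sign (v : Pos n k m) (s s' : Sgn k m) (K : Finset (Fin m)) (r : Fin m → Rl k)
    (η : Asg n) (h : ∀ e, e ∉ K → s e = s' e) (i : ℕ) :
    krun (mkF v s) K r η i = krun (mkF v s') K r η i := by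
  unfold krun
  refine run_congr (mkF v s) (mkF v s') K _ _ η i ?_ ?_
  · intro e _ he
    show (v e, s e) = (v e, s' e)
    rw [h e he]
  · intro e _ _ t _ j _
    rfl

theorem kfree_sign (v : Pos n k m) (s s' : Sgn k m) (K : Finset (Fin m)) (r : Fin m → Rl k)
    (η : Asg n) (h : ∀ e, e ∉ K → s e = s' e) (i : ℕ) :
    kfree (mkF v s) K r η i = kfree (mkF v s') K r η i := by
  unfold kfree
  rw [krun_sign v s s' K r η h i]
  unfold FreeF
  have h1 := free_congr (mkF v s) (mkF v s') K (YY (pos (mkF v s)) K r) i
    (krun (mkF v s') K r η i) (by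
      intro e _ he
      show (v e, s e) = (v e, s' e)
      rw [h e he])
  have h2 : YY (pos (mkF v s')) K r = YY (pos (mkF v s)) K r := rfl
  rw [h2]
  ext y
  rw [Finset.mem_filter, Finset.mem_filter, h1]

theorem cond_sign (v : Pos n k m) (s s' : Sgn k m) (K : Finset (Fin m)) (r : Fin m → Rl k)
    (η : Asg n) (P : Finset (Fin m × Fin k)) (c : ℕ) (h : ∀ e, e ∉ K → s e = s' e) :
    Cond (mkF v s) K r η P c ↔ Cond (mkF v s') K r η P c := by
  have h1 : ∀ i, kfree (mkF v s) K r η i = kfree (mkF v s') K r η i :=
    fun i => kfree_sign v s s' K r η h i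
  unfold Cond
  simp only [h1]
  exact Iff.rfl

/-- Two sign vectors with the same roles, equal off `K` and on the shared slots are equal.
PROOF. By `removal` and `krun_sign` the actual runs of both formulas are equal. Let `e ∈ K`.
Role `inl (some t)`: `pat_V`. Role `inr j0`: `pat_B` for both; the index `i` is the same as `(Φ e).1 j0` is newly marked
exactly once (`run_marks`). Role `inl none` and a slot not shared: `pat_S`. -/
theorem sign_inj (v : Pos n k m) (K : Finset (Fin m)) (r : Fin m → Rl k) (η : Asg n)
    (s s' : Sgn k m) (hoff : ∀ e, e ∉ K → s e = s' e) (hs : EvS (mkF v s) η K r)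
    (hs' : EvS (mkF v s') η K r)
    (hsh : ∀ e ∈ K, ∀ j, v e j ∈ VS v (K.erase e) → s e j = s' e j) : s = s' := by
  have ha : ∀ i, arun (mkF v s) η i = arun (mkF v s') η i := by
    intro i
    rw [← removal (mkF v s) K r η hs.1 i, ← removal (mkF v s') K r η hs'.1 i]
    exact krun_sign v s s' K r η hoff i
  have hf : fin (mkF v s) η = fin (mkF v s') η := ha m
  funext e
  by_cases he : e ∈ K
  · funext j
    have h1 := hs.1 e he
    have h2 := hs'.1 e he
    rcases hre : r e with (_ | t) | j0
    · by_cases hj : v e j ∈ VS v (K.erase e)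
      · exact hsh e he j hj
      · have h3 : s e j = (fin (mkF v s) η).1 (v e j) := pat_S hs.2 he j hj
        have h4 : s' e j = (fin (mkF v s') η).1 (v e j) := pat_S hs'.2 he j hj
        rw [h3, h4, hf]
    · rw [hre] at h1 h2
      have h3 : s e j = (arun (mkF v s) η e.val).1 (v e j) := pat_V h1 j
      have h4 : s' e j = (arun (mkF v s') η e.val).1 (v e j) := pat_V h2 j
      rw [h3, h4, ha]
    · rw [hre] at h1 h2
      obtain ⟨i, h3, h4, h5⟩ := pat_B h1
      obtain ⟨i', h3', h4', h5'⟩ := pat_B h2
      rw [← ha] at h3' h4'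
      have hii : i = i' := by
        rcases lt_trichotomy i i' with hlt | heq | hlt
        · exact absurd (run_marks (mkF v s) ∅ ∅ (fun _ => none) η
            (Nat.succ_le_of_lt hlt) h4) h3'
        · exact heq
        · exact absurd (run_marks (mkF v s) ∅ ∅ (fun _ => none) η
            (Nat.succ_le_of_lt hlt) h4') h3
      subst hii
      have h6 : s e j = fl (arun (mkF v s) η i).1 (v e j0) (v e j) := h5 j
      have h7 : s' e j = fl (arun (mkF v s') η i).1 (v e j0) (v e j) := h5' j
      rw [h6, h7, ha]
  · exact hoff e he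

/-- Number of sign vectors.
PROOF. `u ↦ (u restricted to the pairs (e, j) with e ∉ K or (e, j) shared)` is injective on the set (`sign_inj` for
`ovS K s u`, `ovS K s u'`; then `u = u'` on `K`, and `u = u'` off `K` by the restriction); there are
`2 ^ (k m - k |K| + shr)` values. Compare `KSat.sign_zero` in Pool/Agent/W_MP_bd7f91_h12/SignZ.lean. -/
theorem sign_count (v : Pos n k m) (K : Finset (Fin m)) (r : Fin m → Rl k) (η : Asg n)
    (s : Sgn k m) :
    (univ.filter (fun u : Sgn k m => EvS (mkF v (ovS K s u)) η K r)).card * 2 ^ (k * K.card) ≤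
      2 ^ (shr v K) * 2 ^ (k * m) := by
  set T : Finset (Fin m × Fin k) := univ.filter
    (fun p => p.1 ∉ K ∨ v p.1 p.2 ∈ VS v (K.erase p.1)) with hT
  have hTc : T.card + k * K.card = shr v K + k * m := by
    have h1 : T = (univ.filter (fun p : Fin m × Fin k => p.1 ∉ K)) ∪
        ((K ×ˢ (univ : Finset (Fin k))).filter (fun p => v p.1 p.2 ∈ VS v (K.erase p.1))) := by
      ext p
      simp only [hT, Finset.mem_filter, Finset.mem_univ, true_and, Finset.mem_union,
        Finset.mem_product, and_true]
      tauto
    have h2 : Disjoint (univ.filter (fun p : Fin m × Fin k => p.1 ∉ K))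
        ((K ×ˢ (univ : Finset (Fin k))).filter (fun p => v p.1 p.2 ∈ VS v (K.erase p.1))) := by
      rw [Finset.disjoint_left]
      intro p hp hp2
      rw [Finset.mem_filter] at hp hp2
      exact hp.2 (Finset.mem_product.1 hp2.1).1
    have h3 : (univ.filter (fun p : Fin m × Fin k => p.1 ∉ K)).card + k * K.card = k * m := by
      have h4 := Finset.card_filter_add_card_filter_not
        (s := (univ : Finset (Fin m × Fin k))) (fun p => p.1 ∈ K)
      have h5 : univ.filter (fun p : Fin m × Fin k => p.1 ∈ K) =
          K ×ˢ (univ : Finset (Fin k)) := by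
        ext p
        simp
      rw [h5, Finset.card_product, Finset.card_univ, Finset.card_univ, Fintype.card_fin,
        Fintype.card_prod, Fintype.card_fin, Fintype.card_fin] at h4
      rw [mul_comm k K.card, mul_comm k m, ← h4, add_comm]
    rw [h1, Finset.card_union_of_disjoint h2]
    unfold shr
    omega
  have hinj : (univ.filter (fun u : Sgn k m => EvS (mkF v (ovS K s u)) η K r)).card ≤
      (univ : Finset (T → Bool)).card := by
    refine Finset.card_le_card_of_injOn (fun u => fun p : T => u p.1.1 p.1.2)
      (fun u _ => Finset.mem_coe.2 (Finset.mem_univ _)) ?_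
    intro u hu u' hu' huu
    have hu1 : EvS (mkF v (ovS K s u)) η K r := (Finset.mem_filter.1 (Finset.mem_coe.1 hu)).2
    have hu2 : EvS (mkF v (ovS K s u')) η K r := (Finset.mem_filter.1 (Finset.mem_coe.1 hu')).2
    have hval : ∀ (e : Fin m) (j : Fin k), (e ∉ K ∨ v e j ∈ VS v (K.erase e)) →
        u e j = u' e j := by
      intro e j h
      have h1 : (e, j) ∈ T := Finset.mem_filter.2 ⟨Finset.mem_univ _, h⟩
      exact congrFun huu ⟨(e, j), h1⟩
    have h3 := sign_inj v K r η (ovS K s u) (ovS K s u') (by
      intro e he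
      unfold ovS
      rw [if_neg he, if_neg he]) hu1 hu2 (by
      intro e he j hj
      unfold ovS
      rw [if_pos he, if_pos he]
      exact hval e j (Or.inr hj))
    funext e j
    by_cases he : e ∈ K
    · have h4 := congrFun h3 e
      unfold ovS at h4
      rw [if_pos he, if_pos he] at h4
      exact congrFun h4 j
    · exact hval e j (Or.inl he)
  have hcard : (univ : Finset (T → Bool)).card = 2 ^ T.card := by
    rw [Finset.card_univ, Fintype.card_fun, Fintype.card_bool, Fintype.card_coe]
  rw [hcard] at hinj
  calc (univ.filter (fun u : Sgn k m => EvS (mkF v (ovS K s u)) η K r)).card * 2 ^ (k * K.card)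
      ≤ 2 ^ T.card * 2 ^ (k * K.card) := Nat.mul_le_mul_right _ hinj
    _ = 2 ^ (shr v K) * 2 ^ (k * m) := by rw [← pow_add, ← pow_add, hTc]

end GC
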