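import Pool.Agent.W_bd7f91F_h12.ClosA
import Pool.Agent.W_bd7f91F_h12.ConnL

/-! # The skeleton lemma -/

set_option autoImplicit false

open Finset
open scoped Classical

namespace GC

variable {n k m : ℕ}

/-- the true slots of a clause -/
noncomputable def tsl (Φ : Fml n k m) (S : St n) (e : Fin m) : Finset (Fin k) :=
  univ.filter (fun j => S.1 ((Φ e).1 j) ≠ (Φ e).2 j)

/-- Every variable of a generated set occurs at a non-true slot.
PROOF. Induction on the rank: a true slot of `e` has the variable of `DD Φ S e' ⊆ VV e'`, `rk e' < rk e`, so it is the variable at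
some slot of `e'`. Hence `VS K` is the union of the images of the non-true slots. -/
theorem vs_card_le {Φ : Fml n k m} {S : St n} {K : Finset (Fin m)} (h : Gen Φ S K) :
    (VS (pos Φ) K).card + ∑ e ∈ K, (tsl Φ S e).card ≤ k * K.card := by
  obtain ⟨rk, hrk⟩ := h
  have key : ∀ r : ℕ, ∀ e ∈ K, rk e = r → ∀ j, (Φ e).1 j ∈
      K.biUnion (fun e' => (univ \ tsl Φ S e').image (Φ e').1) := by
    intro r
    induction r using Nat.strong_induction_on with
    | _ r ih =>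
      intro e he her j
      by_cases hj : j ∈ tsl Φ S e
      · obtain ⟨e', he', hlt, hD⟩ := hrk e he j (mem_filter.1 hj).2
        obtain ⟨j', _, hj'⟩ := mem_image.1 (DD_sub Φ S e' hD)
        rw [← hj']
        exact ih (rk e') (her ▸ hlt) e' he' rfl j'
      · exact mem_biUnion.2 ⟨e, he, mem_image.2 ⟨j, mem_sdiff.2 ⟨mem_univ _, hj⟩, rfl⟩⟩
  have hsub : VS (pos Φ) K ⊆ K.biUnion (fun e' => (univ \ tsl Φ S e').image (Φ e').1) := by
    intro y hy
    obtain ⟨e, he, hy⟩ := mem_biUnion.1 hy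
    obtain ⟨j, _, rfl⟩ := mem_image.1 hy
    exact key (rk e) e he rfl j
  have h1 : (VS (pos Φ) K).card ≤ ∑ e ∈ K, (univ \ tsl Φ S e).card :=
    (card_le_card hsub).trans (card_biUnion_le.trans (sum_le_sum fun e _ => card_image_le))
  have h2 : ∑ e ∈ K, (univ \ tsl Φ S e).card + ∑ e ∈ K, (tsl Φ S e).card = k * K.card := by
    rw [← sum_add_distrib]
    have h3 : ∀ e ∈ K, (univ \ tsl Φ S e).card + (tsl Φ S e).card = k := by
      intro e _
      rw [card_sdiff_add_card_eq_card (subset_univ _), card_univ, Fintype.card_fin]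
    rw [sum_congr rfl h3, sum_const, smul_eq_mul, mul_comm]
  omega

theorem SkelA_tsl_mem {Φ : Fml n k m} {S : St n} {e : Fin m} {j : Fin k} :
    j ∈ tsl Φ S e ↔ S.1 ((Φ e).1 j) ≠ (Φ e).2 j := by
  simp [tsl]

theorem SkelA_tsl_pos {Φ : Fml n k m} {S : St n}
    (hS : ∀ e, Viol (Φ e) S.1 → ∀ j, (Φ e).1 j ∈ S.2) {e : Fin m} (hb : ¬ Bad Φ S e) :
    (tsl Φ S e).Nonempty := by
  by_contra hne
  rw [not_nonempty_iff_eq_empty] at hne
  apply hb
  apply seed_bad hS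
  intro j
  by_contra hj
  have : j ∈ tsl Φ S e := SkelA_tsl_mem.2 hj
  rw [hne] at this
  exact notMem_empty _ this

/-- the parent of the only true slot of a clause which is not bad is bad -/
theorem SkelA_parent {Φ : Fml n k m} {S : St n} (hinj : Inj (pos Φ)) {e e' : Fin m} {j : Fin k}
    (h1 : (tsl Φ S e).card ≤ 1) (hj : S.1 ((Φ e).1 j) ≠ (Φ e).2 j)
    (hD : (Φ e).1 j ∈ DD Φ S e') : Bad Φ S e' := by
  refine parent_bad hinj hj ?_ hD
  intro j' hj'
  exact card_le_one.1 h1 j' (SkelA_tsl_mem.2 hj') j (SkelA_tsl_mem.2 hj)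

/-- THE CORE SET.
PROOF. `X = κ.filter (Bad Φ S)`, `R2` the clauses of `κ` which are not bad and have at least two true slots. For `e ∈ κ` and a true
slot `j` let `π e j ∈ κ` be a parent (`Gen`). `P` = the set of the parents `π e j`, `e ∈ X ∪ R2`, `j` true, which are not in `X ∪ R2`
(so they are not bad and have exactly one true slot: zero true slots would be violated, hence bad by `seed_bad`).
`K1 = X ∪ R2 ∪ P`. It is generated (same rank): the parent of the only true slot of a clause of `P` is bad (`parent_bad`), so in `X`.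
Count: `l e = |tsl e|`, `s` = number of `e ∈ K1` with `l e = 0` (they are in `X`), `x1 = |X| - s`. By `vs_card_le` and `E1`
(`|K1| ≤ |κ| ≤ l`): `(16 k - 17)|K1| ≤ 16 |VS K1| ≤ 16 k |K1| - 16 ∑ l`, so `16 ∑_(K1) l ≤ 17 |K1|` (here `k ≥ 2`).
`∑_(K1) l ≥ (x1) + 2 |R2| + |P| + (excess of X)`, precisely `∑_(K1) l = ∑_X l + ∑_(R2) l + |P|` and `|P| ≤ ∑_X l + ∑_(R2) l`.
With `a = ∑_X l ≥ x1`, `c = ∑_(R2) l ≥ 2 |R2|`, `K = |K1| = |X| + |R2| + |P|`: `16 (a + c + |P|) ≤ 17 (|X| + |R2| + |P|)`, so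
`16 a + 16 c ≤ 17 |X| + 17 |R2| + |P| ≤ 17 |X| + 17 c / 2 + a + c`, so `15 a + (13/2) c ≤ 17 |X|`, hence
`|R2| + |P| ≤ c / 2 + a + c = a + 3 c / 2 ≤ (3/13) (15 a + 13 c / 2) ≤ (51/13) |X| < 4 |X|`. So `|K1| ≤ 5 |X|`. -/
theorem core_set (hk : 3 ≤ k) {Φ : Fml n k m} {S : St n} {l : ℕ} (hinj : Inj (pos Φ))
    (hS : ∀ e, Viol (Φ e) S.1 → ∀ j, (Φ e).1 j ∈ S.2) (hE : E1 (pos Φ) l) {κ : Finset (Fin m)}
    (hG : Gen Φ S κ) (hl : κ.card ≤ l) :
    ∃ K1, κ.filter (Bad Φ S) ⊆ K1 ∧ K1 ⊆ κ ∧ Gen Φ S K1 ∧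
      K1.card ≤ 5 * (κ.filter (Bad Φ S)).card ∧
      ∀ e ∈ κ \ K1, (∃ j, S.1 ((Φ e).1 j) ≠ (Φ e).2 j) ∧
        ∀ j, S.1 ((Φ e).1 j) ≠ (Φ e).2 j →
          ∃ e' ∈ κ.filter (Bad Φ S), (Φ e).1 j ∈ DD Φ S e' := by
  obtain ⟨rk, hrk⟩ := hG
  set X := κ.filter (Bad Φ S) with hX
  set R := κ.filter (fun e => ¬ Bad Φ S e ∧ 2 ≤ (tsl Φ S e).card) with hR
  let π : Fin m → Fin k → Fin m := fun e j =>
    if h : ∃ e' ∈ κ, rk e' < rk e ∧ (Φ e).1 j ∈ DD Φ S e' then h.choose else e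
  have hπ : ∀ e ∈ κ, ∀ j ∈ tsl Φ S e, π e j ∈ κ ∧ rk (π e j) < rk e ∧
      (Φ e).1 j ∈ DD Φ S (π e j) := by
    intro e he j hj
    have h := hrk e he j (SkelA_tsl_mem.1 hj)
    have h2 : π e j = h.choose := by
      show (if h : ∃ e' ∈ κ, rk e' < rk e ∧ (Φ e).1 j ∈ DD Φ S e' then h.choose else e) = _
      rw [dif_pos h]
    rw [h2]
    exact ⟨h.choose_spec.1, h.choose_spec.2.1, h.choose_spec.2.2⟩
  set P := ((X ∪ R).biUnion (fun e => (tsl Φ S e).image (π e))) \ (X ∪ R) with hP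
  have hXR : X ∪ R ⊆ κ := union_subset (filter_subset _ _) (filter_subset _ _)
  have hPκ : P ⊆ κ := by
    intro e he
    obtain ⟨e', he', he⟩ := mem_biUnion.1 (mem_sdiff.1 he).1
    obtain ⟨j, hj, rfl⟩ := mem_image.1 he
    exact (hπ e' (hXR he') j hj).1
  have hK1 : (X ∪ R) ∪ P ⊆ κ := union_subset hXR hPκ
  have hnot : ∀ e ∈ κ, e ∉ X ∪ R → ¬ Bad Φ S e ∧ (tsl Φ S e).card ≤ 1 := by
    intro e he hne
    rw [mem_union, not_or] at hne
    have hb : ¬ Bad Φ S e := fun hb => hne.1 (mem_filter.2 ⟨he, hb⟩)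
    refine ⟨hb, ?_⟩
    by_contra h2
    exact hne.2 (mem_filter.2 ⟨he, hb, by omega⟩)
  have hpar : ∀ e ∈ κ, e ∉ X ∪ R → ∀ j, S.1 ((Φ e).1 j) ≠ (Φ e).2 j →
      π e j ∈ X ∧ rk (π e j) < rk e ∧ (Φ e).1 j ∈ DD Φ S (π e j) := by
    intro e he hne j hj
    obtain ⟨h1, h2, h3⟩ := hπ e he j (SkelA_tsl_mem.2 hj)
    exact ⟨mem_filter.2 ⟨h1, SkelA_parent hinj (hnot e he hne).2 hj h3⟩, h2, h3⟩
  have hgen : Gen Φ S ((X ∪ R) ∪ P) := by
    refine ⟨rk, ?_⟩
    intro e he j hj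
    by_cases hXRe : e ∈ X ∪ R
    · obtain ⟨h1, h2, h3⟩ := hπ e (hXR hXRe) j (SkelA_tsl_mem.2 hj)
      refine ⟨π e j, ?_, h2, h3⟩
      by_cases h4 : π e j ∈ X ∪ R
      · exact mem_union_left _ h4
      · refine mem_union_right _ (mem_sdiff.2 ⟨mem_biUnion.2 ⟨e, hXRe, ?_⟩, h4⟩)
        exact mem_image.2 ⟨j, SkelA_tsl_mem.2 hj, rfl⟩
    · obtain ⟨h1, h2, h3⟩ := hpar e (hK1 he) hXRe j hj
      exact ⟨π e j, mem_union_left _ (mem_union_left _ h1), h2, h3⟩
  refine ⟨(X ∪ R) ∪ P, ?_, hK1, hgen, ?_, ?_⟩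
  · exact subset_union_left.trans subset_union_left
  · -- counting
    have hdXR : Disjoint X R := by
      rw [disjoint_left]
      intro e h1 h2
      exact (mem_filter.1 h2).2.1 (mem_filter.1 h1).2
    have hdP : Disjoint (X ∪ R) P := disjoint_sdiff
    have hcard : ((X ∪ R) ∪ P).card = X.card + R.card + P.card := by
      rw [card_union_of_disjoint hdP, card_union_of_disjoint hdXR]
    have hsum : ∑ e ∈ (X ∪ R) ∪ P, (tsl Φ S e).card =
        ∑ e ∈ X, (tsl Φ S e).card + ∑ e ∈ R, (tsl Φ S e).card + ∑ e ∈ P, (tsl Φ S e).card := by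
      rw [sum_union hdP, sum_union hdXR]
    have hPsum : ∑ e ∈ P, (tsl Φ S e).card = P.card := by
      rw [card_eq_sum_ones]
      refine sum_congr rfl fun e he => ?_
      have h1 := hnot e (hPκ he) (mem_sdiff.1 he).2
      have h2 := (SkelA_tsl_pos hS h1.1).card_pos
      omega
    have hPle : P.card ≤ ∑ e ∈ X, (tsl Φ S e).card + ∑ e ∈ R, (tsl Φ S e).card := by
      rw [← sum_union hdXR]
      exact (card_le_card sdiff_subset).trans
        (card_biUnion_le.trans (sum_le_sum fun e _ => card_image_le))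
    have hRle : 2 * R.card ≤ ∑ e ∈ R, (tsl Φ S e).card := by
      rw [mul_comm, ← smul_eq_mul, ← sum_const]
      exact sum_le_sum fun e he => (mem_filter.1 he).2.2
    have h1 := vs_card_le hgen
    have h2 := hE ((X ∪ R) ∪ P) ((card_le_card hK1).trans hl)
    rw [hsum, hPsum] at h1
    have h3 : 16 * k * ((X ∪ R) ∪ P).card =
        (16 * k - 17) * ((X ∪ R) ∪ P).card + 17 * ((X ∪ R) ∪ P).card := by
      rw [← add_mul]
      congr 1
      omega
    have h4 : 16 * (k * ((X ∪ R) ∪ P).card) = 16 * k * ((X ∪ R) ∪ P).card := by ring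
    rw [hcard] at h1 h2 h3 h4 ⊢
    generalize ∑ e ∈ X, (tsl Φ S e).card = a at *
    generalize ∑ e ∈ R, (tsl Φ S e).card = c at *
    generalize hA : 16 * k * (X.card + R.card + P.card) = A at *
    generalize hB : (16 * k - 17) * (X.card + R.card + P.card) = B at *
    generalize hC : k * (X.card + R.card + P.card) = C at *
    omega
  · intro e he
    obtain ⟨heκ, hne⟩ := mem_sdiff.1 he
    have hneXR : e ∉ X ∪ R := fun h => hne (mem_union_left _ h)
    obtain ⟨j, hj⟩ := SkelA_tsl_pos hS (hnot e heκ hneXR).1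
    refine ⟨⟨j, SkelA_tsl_mem.1 hj⟩, ?_⟩
    intro j' hj'
    obtain ⟨h1, _, h3⟩ := hpar e heκ hneXR j' hj'
    exact ⟨π e j', h1, h3⟩

end GC
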