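import Pool.Agent.W_bd7f91F_h12.SkelA
import Pool.Agent.W_bd7f91F_h12.ConnJ

/-! # The skeleton lemma -/

set_option autoImplicit false

open Finset
open scoped Classical

namespace GC

variable {n k m : ℕ}

/-- SKELETON LEMMA.
PROOF. `K1` from `core_set`. `K1` is nonempty (`gen_bad`). Apply `conn_join` with `S0 = κ.filter (Bad Φ S)`: every clause of `κ \ K1` is
adjacent to a bad clause of `κ`; if `A ⊆ K1` is nonempty without neighbours in `K1 \ A` then `A` is generated (the parents, which are in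
`K1` by `Gen Φ S K1`, are adjacent), so it contains a bad clause (`gen_bad`). So `|K| + 2 ≤ 5 |X| + 2 |X|`. `K` is generated: the clauses
of `K \ K1` have parents in `X ⊆ K1` (rank: repeat `gen_insert`, or put all of `K \ K1` above `K1`). -/
theorem skeleton (hk : 3 ≤ k) {Φ : Fml n k m} {S : St n} {l : ℕ} (hinj : Inj (pos Φ))
    (hS : ∀ e, Viol (Φ e) S.1 → ∀ j, (Φ e).1 j ∈ S.2) (hE : E1 (pos Φ) l) {κ : Finset (Fin m)}
    (hG : Gen Φ S κ) (hC : Conn (pos Φ) (DD Φ S) κ) (hl : κ.card ≤ l) :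
    ∃ K, κ.filter (Bad Φ S) ⊆ K ∧ K ⊆ κ ∧ Gen Φ S K ∧ Conn (pos Φ) (DD Φ S) K ∧
      K.card ≤ 7 * (κ.filter (Bad Φ S)).card ∧
      ∀ e ∈ κ \ K, (∃ j, S.1 ((Φ e).1 j) ≠ (Φ e).2 j) ∧
        ∀ j, S.1 ((Φ e).1 j) ≠ (Φ e).2 j →
          ∃ e' ∈ κ.filter (Bad Φ S), (Φ e).1 j ∈ DD Φ S e' := by
  obtain ⟨K1, hX, hK1, hG1, hc1, hprop⟩ := core_set hk hinj hS hE hG hl
  have hXne : (κ.filter (Bad Φ S)).Nonempty := gen_bad hS hG hC.1
  have hK1ne : K1.Nonempty := hXne.mono hX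
  obtain ⟨K, h1, h2, h3, h4⟩ := conn_join (pos Φ) (DD Φ S) κ K1 (κ.filter (Bad Φ S)) hC hK1 hK1ne
    hX (by
      intro e he
      obtain ⟨⟨j, hj⟩, hp⟩ := hprop e he
      obtain ⟨e', he', hD⟩ := hp j hj
      exact ⟨e', hX he', Or.inr ⟨j, hD⟩⟩) (by
      intro A hA hAne hno
      obtain ⟨rk, hrk⟩ := hG1
      have hGA : Gen Φ S A := by
        refine ⟨rk, fun e he j hj => ?_⟩
        obtain ⟨e', he', hlt, hD⟩ := hrk e (hA he) j hj
        by_cases heA : e' ∈ A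
        · exact ⟨e', heA, hlt, hD⟩
        · exact absurd (Or.inl ⟨j, hD⟩) (hno e he e' (mem_sdiff.2 ⟨he', heA⟩))
      obtain ⟨e, he⟩ := gen_bad hS hGA hAne
      obtain ⟨he1, he2⟩ := mem_filter.1 he
      exact ⟨e, mem_inter.2 ⟨he1, mem_filter.2 ⟨hK1 (hA he1), he2⟩⟩⟩)
  have hsub : ∀ e, e ∈ κ → e ∉ K → e ∈ κ \ K1 := fun e he heK =>
    mem_sdiff.2 ⟨he, fun h => heK (h1 h)⟩
  refine ⟨K, hX.trans h1, h2, ?_, h3, by omega, ?_⟩
  · obtain ⟨rk, hrk⟩ := hG1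
    refine ⟨fun x => if x ∈ K1 then rk x else K1.sup rk + 1, fun e he j hj => ?_⟩
    by_cases heK : e ∈ K1
    · obtain ⟨e', he', hlt, hD⟩ := hrk e heK j hj
      refine ⟨e', h1 he', ?_, hD⟩
      dsimp only
      rw [if_pos heK, if_pos he']
      exact hlt
    · obtain ⟨-, hp⟩ := hprop e (mem_sdiff.2 ⟨h2 he, heK⟩)
      obtain ⟨e', he', hD⟩ := hp j hj
      refine ⟨e', h1 (hX he'), ?_, hD⟩
      dsimp only
      rw [if_neg heK, if_pos (hX he')]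
      have : rk e' ≤ K1.sup rk := le_sup (hX he')
      omega
  · intro e he
    obtain ⟨he1, he2⟩ := mem_sdiff.1 he
    exact hprop e (hsub e he1 he2)

end GC
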