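import Pool.Agent.W_bd7f91F_h12.Op

/-! # Lower bound for the number of solutions -/

set_option autoImplicit false

open Finset
open scoped Classical

namespace GC

theorem ZLa_op_dist {n k : ℕ} (u : Fin k → Fin n) (t : Option (Fin k)) (S : St n) :
    hammingDist S.1 (op u t S).1 ≤ 1 := by
  cases t with
  | none =>
    show hammingDist S.1 S.1 ≤ 1
    simp
  | some j =>
    show hammingDist S.1 (if u j ∈ S.2 then S.1 else fl S.1 (u j)) ≤ 1
    split_ifs with h
    · simp
    · unfold hammingDist
      have h1 : (univ.filter (fun i => S.1 i ≠ fl S.1 (u j) i)) ⊆ {u j} := by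
        intro i hi
        rw [mem_filter] at hi
        rw [mem_singleton]
        by_contra hne
        exact hi.2 (fl_ne S.1 hne).symm
      calc _ ≤ ({u j} : Finset (Fin n)).card := by
            refine card_le_card ?_
            intro i hi
            apply h1
            simpa using hi
        _ = 1 := card_singleton _

theorem ZLa_run_dist {n k m : ℕ} (Φ : Fml n k m) (η : Asg n) (i : ℕ) (hi : i ≤ m) :
    hammingDist η (arun Φ η i).1 ≤
      (univ.filter (fun e : Fin m => e.val < i ∧ Viol (Φ e) (arun Φ η e.val).1)).card := by
  induction i with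
  | zero =>
    show hammingDist η η ≤ _
    simp
  | succ i ih =>
    have him : i < m := hi
    have ih' := ih him.le
    have hrun : arun Φ η (i + 1) = step Φ ∅ ∅ (fun _ => none) ⟨i, him⟩ (arun Φ η i) := by
      show run Φ ∅ ∅ (fun _ => none) η (i + 1) = _
      rw [run]
      rw [dif_pos him]
      rfl
    by_cases hV : Viol (Φ ⟨i, him⟩) (arun Φ η i).1
    · have h1 : hammingDist (arun Φ η i).1 (arun Φ η (i + 1)).1 ≤ 1 := by
        rw [hrun]
        unfold step
        rw [if_neg (notMem_empty _), if_pos hV]
        exact ZLa_op_dist _ _ _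
      have h2 : (univ.filter (fun e : Fin m => e.val < i ∧ Viol (Φ e) (arun Φ η e.val).1)).card + 1 ≤
          (univ.filter (fun e : Fin m => e.val < i + 1 ∧ Viol (Φ e) (arun Φ η e.val).1)).card := by
        have hn : (⟨i, him⟩ : Fin m) ∉
            (univ.filter (fun e : Fin m => e.val < i ∧ Viol (Φ e) (arun Φ η e.val).1)) := by
          rw [mem_filter]
          rintro ⟨-, h, -⟩
          exact lt_irrefl _ h
        rw [← card_insert_of_notMem hn]
        apply card_le_card
        intro e he
        rw [mem_insert] at he
        rw [mem_filter]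
        rcases he with he | he
        · subst he
          exact ⟨mem_univ _, Nat.lt_succ_self i, hV⟩
        · rw [mem_filter] at he
          exact ⟨mem_univ _, Nat.lt_succ_of_lt he.2.1, he.2.2⟩
      calc hammingDist η (arun Φ η (i + 1)).1
          ≤ hammingDist η (arun Φ η i).1 + hammingDist (arun Φ η i).1 (arun Φ η (i + 1)).1 :=
            hammingDist_triangle _ _ _
        _ ≤ _ := le_trans (Nat.add_le_add ih' h1) h2
    · have h1 : (arun Φ η (i + 1)) = arun Φ η i := by
        rw [hrun]
        unfold step
        rw [if_neg (notMem_empty _), if_neg hV]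
      rw [h1]
      refine le_trans ih' (card_le_card ?_)
      intro e he
      rw [mem_filter] at he ⊢
      exact ⟨mem_univ _, Nat.lt_succ_of_lt he.2.1, he.2.2⟩

/-- flips of the actual run: at most one for each clause violated when inserted -/
theorem run_dist {n k m : ℕ} (Φ : Fml n k m) (η : Asg n) :
    hammingDist η (fin Φ η).1 ≤
      (univ.filter (fun e : Fin m => Viol (Φ e) (arun Φ η e.val).1)).card := by
  refine le_trans (ZLa_run_dist Φ η m le_rfl) (card_le_card ?_)
  intro e he
  rw [mem_filter] at he ⊢
  exact ⟨mem_univ _, he.2.2⟩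

theorem ball_card {n : ℕ} (σ : Asg n) (D : ℕ) :
    (univ.filter (fun η : Asg n => hammingDist η σ ≤ D)).card ≤ ∑ i ∈ range (D + 1), n.choose i := by
  have h1 : (univ.filter (fun η : Asg n => hammingDist η σ ≤ D)).card ≤
      ((range (D + 1)).biUnion (fun i => powersetCard i (univ : Finset (Fin n)))).card := by
    apply card_le_card_of_injOn (fun η => univ.filter (fun i => η i ≠ σ i))
    · intro η hη
      have hη' : hammingDist η σ ≤ D := by simpa using hη
      simp only [coe_biUnion, Set.mem_iUnion, mem_coe, mem_powersetCard, mem_range]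
      refine ⟨hammingDist η σ, Nat.lt_succ_of_le hη', subset_univ _, ?_⟩
      unfold hammingDist
      congr 1
    · intro η _ η' _ h
      have h' : (univ.filter (fun i => η i ≠ σ i)) = univ.filter (fun i => η' i ≠ σ i) := h
      funext i
      have h2 : (i ∈ univ.filter (fun i => η i ≠ σ i)) ↔ (i ∈ univ.filter (fun i => η' i ≠ σ i)) := by
        rw [h']
      rw [mem_filter, mem_filter] at h2
      simp only [mem_univ, true_and] at h2
      revert h2
      cases η i <;> cases η' i <;> cases σ i <;> simp
  refine le_trans h1 (le_trans card_biUnion_le ?_)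
  apply sum_le_sum
  intro i _
  rw [card_powersetCard, card_univ, Fintype.card_fin]

end GC
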