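import Pool.Agent.W_bd7f91F_h12.ZLa
import Pool.Agent.W_bd7f91F_h12.CompB
import Pool.Agent.W_bd7f91F_h12.PatchB
import Pool.Agent.W_bd7f91F_h12.Act

/-! # Lower bound for the number of solutions -/

set_option autoImplicit false

open Finset
open scoped Classical

namespace GC

/-- success of the algorithm in the model M0 -/
structure Succ (n k m : ℕ) (c1 c2 c3 : ℕ) (v : Pos n k m) (s : Sgn k m) (η : Asg n) : Prop where
  inj : Inj v
  e1 : E1 v ((ll n) ^ 3)
  e2 : E2 v ((ll n) ^ 3) c3 (ll n)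
  nowit : NoWit (mkF v s) (fin (mkF v s) η) ((ll n) ^ 3) c1 c2
  flips : (univ.filter (fun e : Fin m => Viol (mkF v s e) (arun (mkF v s) η e.val).1)).card ≤
    ⌈12 * Real.log k * n / k⌉₊
  clos : ((TT (mkF v s) (fin (mkF v s) η)).biUnion (DD (mkF v s) (fin (mkF v s) η))).card ≤
    ⌈(n : ℝ) / k⌉₊

/-- PROOF. The components of the closure are small (`comp_small` for `S = fin Φ η`, `fin_viol_marked`), so the patch is a solution (`patch_sol`) at
distance at most `D` from `η` (`run_dist`, `patch_dist`). So `η ↦ patch` maps the successful `η` to `SolF`, with fibres in balls of radius `D`. -/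
theorem succ_count {n k m : ℕ} (hk : 3 ≤ k) (c1 c2 c3 : ℕ) (hc3 : 1 ≤ c3)
    (hl : 1 + c3 * (1 + ll n) * (c3 * (c2 + ll n)) ≤ (ll n) ^ 3) (v : Pos n k m) (s : Sgn k m) :
    (univ.filter (fun η : Asg n => Succ n k m c1 c2 c3 v s η)).card ≤
      (SolF (mkF v s)).card *
        ∑ i ∈ range (⌈12 * Real.log k * n / k⌉₊ + ⌈(n : ℝ) / k⌉₊ + 1), n.choose i := by
  have hsm : c3 * (c2 + ll n) ≤ (ll n) ^ 3 := by
    have h1 : 1 ≤ c3 * (1 + ll n) := Nat.one_le_iff_ne_zero.2 (by positivity)
    have h2 := Nat.mul_le_mul_right (c3 * (c2 + ll n)) h1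
    rw [one_mul] at h2
    omega
  have hmap : ∀ η ∈ univ.filter (fun η : Asg n => Succ n k m c1 c2 c3 v s η),
      patch (mkF v s) (fin (mkF v s) η) ∈ SolF (mkF v s) := by
    intro η hη
    have hS := (mem_filter.1 hη).2
    refine patch_sol hk _ _ ((ll n) ^ 3) hS.e1 fun e he => ?_
    exact (comp_small hk (Φ := mkF v s) hS.inj (fun e hV j => fin_viol_marked _ η hV j)
      hS.e1 hS.e2 hS.nowit hl he).trans hsm
  rw [mul_comm]
  refine card_le_mul_card_image_of_maps_to hmap _ fun σ _ => ?_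
  refine (card_le_card ?_).trans (ball_card σ _)
  intro η hη
  obtain ⟨hA, hσ⟩ := mem_filter.1 hη
  have hS := (mem_filter.1 hA).2
  refine mem_filter.2 ⟨mem_univ _, ?_⟩
  rw [← hσ]
  refine (hammingDist_triangle η (fin (mkF v s) η).1 _).trans (Nat.add_le_add ?_ ?_)
  · exact (run_dist _ η).trans hS.flips
  · exact (patch_dist _ _).trans hS.clos

end GC
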