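import Pool.Agent.W_bd7f91F_h12.ZLb
import Pool.Agent.W_bd7f91F_h12.GlobP
import Pool.Agent.W_bd7f91F_h12.NumF
import Pool.Agent.W_bd7f91F_h12.NumG
import Pool.Agent.W_bd7f91F_h12.E4s
import Pool.Agent.W_bd7f91F_h12.DomL
import Pool.Agent.W_bd7f91F_h12.NonB
import Pool.Agent.W_bd7f91F_h12.MainA

/-! # Lower bound for the number of solutions -/

set_option autoImplicit false

open Finset
open scoped Classical

namespace GC

theorem ZLc_card {n k m : ℕ} (P : Asg n × (Pos n k m × Sgn k m) → Prop) [DecidablePred P] :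
    ((univ.filter P).card : ℝ) =
      ∑ v : Pos n k m, ∑ s : Sgn k m, ∑ σ : Asg n, if P (σ, (v, s)) then (1 : ℝ) else 0 := by
  have h1 : ((univ.filter P).card : ℝ) =
      ∑ p : Asg n × (Pos n k m × Sgn k m), if P p then (1 : ℝ) else 0 := by
    rw [Finset.sum_boole]
  rw [h1, Fintype.sum_prod_type_right, Fintype.sum_prod_type]

/-- the tuples counted in the first moment bound -/
noncomputable def ZLc_tup {n k m : ℕ} (q l b : ℕ) (v : Pos n k m) (s : Sgn k m) (σ : Asg n) :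
    Finset (Fin q → Fin n) :=
  univ.filter (fun z : Fin q → Fin n => ∃ K : Finset (Fin m), Rooted v (univ.image z) K ∧
        K.card ≤ l ∧ K.card ≤ 8 * (K.filter (Bad (mkF v s) (fin (mkF v s) (etat 0 σ)))).card ∧
        q ≤ (K.filter (Bad (mkF v s) (fin (mkF v s) (etat 0 σ)))).card ∧
        EvK (mkF v s) (etat 0 σ) l b K
          (K.filter (Bad (mkF v s) (fin (mkF v s) (etat 0 σ)))))

/-- one formula and one assignment -/
theorem ZLc_one {n k m : ℕ} (hk : 3 ≤ k) (hn : 0 < n) {c1 c2 c3 b : ℕ} (hc3 : 1 ≤ c3)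
    (hl : 1 + c3 * (1 + ll n) * (c3 * (c2 + ll n)) ≤ (ll n) ^ 3)
    (hq : ll n * c2 ≤ (ll n) ^ 3)
    (hbig : 3 * (ll n : ℝ) * (c3 * (c2 + ll n)) ≤ (n : ℝ) / (2 * k))
    (v : Pos n k m) (s : Sgn k m) (σ : Asg n) :
    (if Inj v ∧ E1 v ((ll n) ^ 3) ∧ E2 v ((ll n) ^ 3) c3 (ll n) ∧
      ¬ Succ n k m c1 c2 c3 v s σ then (1 : ℝ) else 0) ≤
      (if ¬ Glob (mkF v s) (etat 0 σ) ((ll n) ^ 3) b then (1 : ℝ) else 0) +
      (if Inj v ∧ E1 v ((ll n) ^ 3) ∧ Glob (mkF v s) (etat 0 σ) ((ll n) ^ 3) b ∧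
        ¬ NoWit (mkF v s) (fin (mkF v s) (etat 0 σ)) ((ll n) ^ 3) c1 c2 then (1 : ℝ) else 0) +
      (if ⌈12 * Real.log k * n / k⌉₊ ≤
        (univ.filter (fun e : Fin m => Viol (mkF v s e) (arun (mkF v s) σ e.val).1)).card
        then (1 : ℝ) else 0) +
      (2 * (k : ℝ) / n) ^ (ll n) * ((ZLc_tup (ll n) ((ll n) ^ 3) b v s σ).card : ℝ) := by
  have hkpos : (0 : ℝ) < k := by
    have : 0 < k := by omega
    exact_mod_cast this
  have hnpos : (0 : ℝ) < n := by exact_mod_cast hn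
  have e0 : etat 0 σ = σ := by
    funext u
    simp [etat]
  have p1 : (0 : ℝ) ≤ (if ¬ Glob (mkF v s) (etat 0 σ) ((ll n) ^ 3) b then (1 : ℝ) else 0) := by
    split_ifs <;> norm_num
  have p2 : (0 : ℝ) ≤ (if Inj v ∧ E1 v ((ll n) ^ 3) ∧ Glob (mkF v s) (etat 0 σ) ((ll n) ^ 3) b ∧
        ¬ NoWit (mkF v s) (fin (mkF v s) (etat 0 σ)) ((ll n) ^ 3) c1 c2
        then (1 : ℝ) else 0) := by
    split_ifs <;> norm_num
  have p3 : (0 : ℝ) ≤ (if ⌈12 * Real.log k * n / k⌉₊ ≤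
        (univ.filter (fun e : Fin m => Viol (mkF v s e) (arun (mkF v s) σ e.val).1)).card
        then (1 : ℝ) else 0) := by
    split_ifs <;> norm_num
  have p4 : (0 : ℝ) ≤ (2 * (k : ℝ) / n) ^ (ll n) *
      ((ZLc_tup (ll n) ((ll n) ^ 3) b v s σ).card : ℝ) := by
    positivity
  by_cases hbad : Inj v ∧ E1 v ((ll n) ^ 3) ∧ E2 v ((ll n) ^ 3) c3 (ll n) ∧
      ¬ Succ n k m c1 c2 c3 v s σ
  swap
  · rw [if_neg hbad]
    linarith
  rw [if_pos hbad]
  obtain ⟨hinj, hE1, hE2, hF⟩ := hbad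
  by_cases hG : Glob (mkF v s) (etat 0 σ) ((ll n) ^ 3) b
  swap
  · rw [if_pos hG]
    linarith
  by_cases hW : NoWit (mkF v s) (fin (mkF v s) (etat 0 σ)) ((ll n) ^ 3) c1 c2
  swap
  · rw [if_pos (show Inj v ∧ E1 v ((ll n) ^ 3) ∧ Glob (mkF v s) (etat 0 σ) ((ll n) ^ 3) b ∧
        ¬ NoWit (mkF v s) (fin (mkF v s) (etat 0 σ)) ((ll n) ^ 3) c1 c2 from
        ⟨hinj, hE1, hG, hW⟩)]
    linarith
  by_cases hV : ⌈12 * Real.log k * n / k⌉₊ ≤
        (univ.filter (fun e : Fin m => Viol (mkF v s e) (arun (mkF v s) σ e.val).1)).card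
  · rw [if_pos hV]
    linarith
  push Not at hV
  -- the closure is large
  have hW' := hW
  rw [e0] at hW'
  have hcl : ⌈(n : ℝ) / k⌉₊ <
      ((TT (mkF v s) (fin (mkF v s) σ)).biUnion (DD (mkF v s) (fin (mkF v s) σ))).card := by
    by_contra hcon
    push Not at hcon
    exact hF ⟨hinj, hE1, hE2, hW', hV.le, hcon⟩
  have hll : 1 ≤ ll n := by unfold ll; omega
  have hmt := many_tuples (q := ll n) hk (Φ := mkF v s) (S := fin (mkF v s) σ) hinj
    (fun e he j => fin_viol_marked (mkF v s) σ he j) hE1 hE2 hW' hl hll hc3 hq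
  have hsub : (univ.filter (fun z : Fin (ll n) → Fin n => ∃ K : Finset (Fin m),
        Rooted (pos (mkF v s)) (univ.image z) K ∧ K.card ≤ (ll n) ^ 3 ∧
        K.card ≤ 8 * (K.filter (Bad (mkF v s) (fin (mkF v s) σ))).card ∧
        ll n ≤ (K.filter (Bad (mkF v s) (fin (mkF v s) σ))).card ∧
        KClosed (mkF v s) (fin (mkF v s) σ).1 K)) ⊆ ZLc_tup (ll n) ((ll n) ^ 3) b v s σ := by
    intro z hz
    obtain ⟨K, h1, h2, h3, h4, h5⟩ := (Finset.mem_filter.1 hz).2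
    unfold ZLc_tup
    rw [e0]
    refine Finset.mem_filter.2 ⟨mem_univ _, K, h1, h2, h3, h4, ?_⟩
    exact ⟨hinj, hE1, by rw [← e0]; exact hG, h5, fun e he => (Finset.mem_filter.1 he).2⟩
  have hcard := hmt.trans (Finset.card_le_card hsub)
  set W := ((TT (mkF v s) (fin (mkF v s) σ)).biUnion (DD (mkF v s) (fin (mkF v s) σ))).card
    with hWdef
  have hWr : (n : ℝ) / k ≤ W := by
    calc (n : ℝ) / k ≤ (⌈(n : ℝ) / k⌉₊ : ℝ) := Nat.le_ceil _
      _ ≤ W := by exact_mod_cast hcl.le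
  have hsubr : (n : ℝ) / (2 * k) ≤ ((W - 3 * ll n * (c3 * (c2 + ll n)) : ℕ) : ℝ) := by
    have h6 : (W : ℝ) - 3 * ll n * (c3 * (c2 + ll n)) ≤
        ((W - 3 * ll n * (c3 * (c2 + ll n)) : ℕ) : ℝ) := by
      have := Nat.le_sub_of_add_le (le_refl (W - 3 * ll n * (c3 * (c2 + ll n)) +
        3 * ll n * (c3 * (c2 + ll n))))
      have h7 : W ≤ (W - 3 * ll n * (c3 * (c2 + ll n))) + 3 * ll n * (c3 * (c2 + ll n)) := by
        omega
      have h8 : (W : ℝ) ≤ ((W - 3 * ll n * (c3 * (c2 + ll n)) : ℕ) : ℝ) +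
          3 * ll n * (c3 * (c2 + ll n)) := by exact_mod_cast h7
      linarith
    have h9 : (n : ℝ) / k = n / (2 * k) + n / (2 * k) := by
      field_simp
      ring
    linarith
  have hfin : ((n : ℝ) / (2 * k)) ^ (ll n) ≤
      ((ZLc_tup (ll n) ((ll n) ^ 3) b v s σ).card : ℝ) := by
    calc ((n : ℝ) / (2 * k)) ^ (ll n) ≤
          ((W - 3 * ll n * (c3 * (c2 + ll n)) : ℕ) : ℝ) ^ (ll n) :=
          pow_le_pow_left₀ (by positivity) hsubr _
      _ ≤ _ := by exact_mod_cast hcard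
  have h10 : (1 : ℝ) ≤ (2 * (k : ℝ) / n) ^ (ll n) *
      ((ZLc_tup (ll n) ((ll n) ^ 3) b v s σ).card : ℝ) := by
    calc (1 : ℝ) = (2 * (k : ℝ) / n) ^ (ll n) * ((n : ℝ) / (2 * k)) ^ (ll n) := by
          rw [← mul_pow]
          have : 2 * (k : ℝ) / n * (n / (2 * k)) = 1 := by
            field_simp
          rw [this, one_pow]
      _ ≤ _ := mul_le_mul_of_nonneg_left hfin (by positivity)
  linarith

theorem ZLc_ll_large (A : ℕ) : ∃ n0 : ℕ, ∀ n, n0 ≤ n → A ≤ ll n := by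
  refine ⟨2 ^ A, fun n hn => ?_⟩
  unfold ll
  have h1 : Nat.log 2 (2 ^ A) ≤ Nat.log 2 n := Nat.log_mono_right hn
  rw [Nat.log_pow (by norm_num)] at h1
  omega

theorem ZLc_cond (c3 C2 : ℕ) : ∃ n0 : ℕ, ∀ n, n0 ≤ n →
    1 + c3 * (1 + ll n) * (c3 * (C2 * ll n + ll n)) ≤ (ll n) ^ 3 ∧
    ll n * (C2 * ll n) ≤ (ll n) ^ 3 := by
  obtain ⟨n0, hn0⟩ := ZLc_ll_large (1 + 2 * c3 * (c3 * (C2 + 1)) + C2)
  refine ⟨n0, fun n hn => ?_⟩
  have h := hn0 n hn
  set L := ll n with hL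
  have hL1 : 1 ≤ L := by
    have : 1 ≤ 1 + 2 * c3 * (c3 * (C2 + 1)) + C2 := by omega
    omega
  constructor
  · have e1 : c3 * (1 + L) * (c3 * (C2 * L + L)) ≤ 2 * c3 * (c3 * (C2 + 1)) * L ^ 2 := by
      have : 1 + L ≤ 2 * L := by omega
      calc c3 * (1 + L) * (c3 * (C2 * L + L)) ≤ c3 * (2 * L) * (c3 * (C2 * L + L)) := by gcongr
        _ = 2 * c3 * (c3 * (C2 + 1)) * L ^ 2 := by ring
    have e2 : 1 ≤ 1 * L ^ 2 := by
      rw [one_mul]
      exact Nat.one_le_pow _ _ hL1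
    calc 1 + c3 * (1 + L) * (c3 * (C2 * L + L)) ≤ 1 * L ^ 2 + 2 * c3 * (c3 * (C2 + 1)) * L ^ 2 :=
          Nat.add_le_add e2 e1
      _ = (1 + 2 * c3 * (c3 * (C2 + 1))) * L ^ 2 := by ring
      _ ≤ L * L ^ 2 := by
          apply Nat.mul_le_mul_right
          omega
      _ = L ^ 3 := by ring
  · calc L * (C2 * L) = C2 * L ^ 2 := by ring
      _ ≤ L * L ^ 2 := by
          apply Nat.mul_le_mul_right
          omega
      _ = L ^ 3 := by ring

theorem ZLc_sq (A : ℝ) : ∃ n0 : ℕ, ∀ n : ℕ, n0 ≤ n → A * (ll n : ℝ) ^ 2 ≤ n := by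
  -- `(log x + 2)^2 = o(x)`
  have h1 : Filter.Tendsto (fun x : ℝ => x ^ (3 : ℕ) * Real.exp (-x)) Filter.atTop (nhds 0) :=
    Real.tendsto_pow_mul_exp_neg_atTop_nhds_zero 3
  set B : ℝ := max A 1 with hB
  have hBpos : 0 < B := lt_of_lt_of_le one_pos (le_max_right _ _)
  have h2 : ∀ᶠ x : ℝ in Filter.atTop, x ^ (3 : ℕ) * Real.exp (-x) < 1 / (9 * B) := by
    exact h1.eventually (gt_mem_nhds (by positivity))
  have h3 : Filter.Tendsto (fun n : ℕ => Real.log (n : ℝ)) Filter.atTop Filter.atTop :=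
    Real.tendsto_log_atTop.comp tendsto_natCast_atTop_atTop
  have h4 := h3.eventually h2
  have h5 := h3.eventually (Filter.eventually_ge_atTop (1 : ℝ))
  obtain ⟨n0, hn0⟩ := Filter.eventually_atTop.1 (h4.and h5)
  refine ⟨max 3 n0, fun n hn => ?_⟩
  obtain ⟨h6, h7⟩ := hn0 n ((le_max_right _ _).trans hn)
  have hn3 : 3 ≤ n := (le_max_left _ _).trans hn
  have hnpos : (0 : ℝ) < n := by
    have : 0 < n := by omega
    exact_mod_cast this
  have h8 := ll_le_log hn3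
  rw [Real.exp_neg, Real.exp_log hnpos] at h6
  have hx : (0 : ℝ) ≤ (ll n : ℝ) := Nat.cast_nonneg _
  set x := Real.log (n : ℝ) with hxdef
  have h9 : x ^ 2 ≤ x ^ 3 := by
    have : 0 ≤ x ^ 2 := by positivity
    nlinarith
  have h10 : x ^ 3 * (9 * B) < n := by
    have : x ^ 3 * (n : ℝ)⁻¹ < 1 / (9 * B) := h6
    rw [← div_eq_mul_inv, div_lt_div_iff₀ hnpos (by positivity)] at this
    linarith
  calc A * (ll n : ℝ) ^ 2 ≤ B * (ll n : ℝ) ^ 2 :=
        mul_le_mul_of_nonneg_right (le_max_left _ _) (by positivity)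
    _ ≤ B * (3 * x) ^ 2 := by
        apply mul_le_mul_of_nonneg_left _ hBpos.le
        exact pow_le_pow_left₀ hx h8 2
    _ = (9 * B) * x ^ 2 := by ring
    _ ≤ (9 * B) * x ^ 3 := by
        apply mul_le_mul_of_nonneg_left h9 (by positivity)
    _ ≤ n := by linarith

/-- FAILURE IN M0 IS UNLIKELY (given Inj, E1, E2).
PROOF. Law `lawM` (`dom_M`), `t = 0`, `etat 0 η = η`. Failure implies one of: GLOB fails (`glob_M`); GLOB holds and `NoWit` fails (`e4_sum` and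
`e4_num`); more than `⌈12 L n / k⌉` violated clauses (`viol_M` with `w1 = ⌈12 L n/k⌉`, `flips_num`); `NoWit` and GLOB hold and `|W| > ⌈n / k⌉`: then by
`many_tuples` (`q = ll n`) at least `(n / (2 k))^q` tuples are counted in `wt_sum` (`n/k - 3 q c3 (c2 + ll n) ≥ n/(2k)` for `n` large, `c2 = C2 ll n`,
`q c2 ≤ (ll n)^3`), so by Markov the weight is at most `(2k/n)^q sumWT ≤ 1/n` (`wt_num`). -/
theorem fail_M : ∃ k0 : ℕ, ∀ k, k0 ≤ k → ∀ c3 : ℕ, 1 ≤ c3 → ∃ C1 C2 : ℕ, ∀ δ : ℝ, 0 < δ →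
    ∃ n0 : ℕ, ∀ n, n0 ≤ n → ∀ m, HM n k m →
    1 + c3 * (1 + ll n) * (c3 * (C2 * ll n + ll n)) ≤ (ll n) ^ 3 ∧
    ((univ.filter (fun p : Asg n × (Pos n k m × Sgn k m) =>
      Inj p.2.1 ∧ E1 p.2.1 ((ll n) ^ 3) ∧ E2 p.2.1 ((ll n) ^ 3) c3 (ll n) ∧
      ¬ Succ n k m (C1 * ll n) (C2 * ll n) c3 p.2.1 p.2.2 p.1)).card : ℝ) ≤
      δ * (2 ^ n * ((n : ℝ) ^ (k * m) * 2 ^ (k * m))) := by
  obtain ⟨k1, h1⟩ := e4_num
  obtain ⟨k2, h2⟩ := glob_M
  obtain ⟨k3, h3⟩ := trans_num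
  obtain ⟨k4, h4⟩ := gg_bounds
  obtain ⟨k5, h5⟩ := flips_num
  obtain ⟨k6, h6⟩ := wt_num
  refine ⟨max 66 (max k1 (max k2 (max k3 (max k4 (max k5 k6))))), fun k hk c3 hc3 => ?_⟩
  have hk66 : 66 ≤ k := by omega
  have hk3 : 3 ≤ k := by omega
  obtain ⟨C2, hC12, n1, hn1⟩ := h1 k (by omega) 1
  obtain ⟨n2, hn2⟩ := h2 k (by omega)
  obtain ⟨hg0, hg1, hg2⟩ := h4 k (by omega)
  obtain ⟨n6, hn6⟩ := h6 k (by omega)
  refine ⟨1, C2, fun δ hδ => ?_⟩
  obtain ⟨n3, hn3⟩ := h3 k (by omega) (δ / 4) (by positivity)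
  obtain ⟨n4, hn4⟩ := MainA_num (δ / 4) (by positivity)
  obtain ⟨n5, hn5⟩ := h5 k (by omega) (δ / 4) (by positivity)
  obtain ⟨n7, hn7⟩ := ZLc_cond c3 C2
  obtain ⟨n8, hn8⟩ := ZLc_sq (6 * k * (c3 * (C2 + 1)))
  obtain ⟨n9, hn9⟩ := exists_nat_gt (4 / δ)
  refine ⟨max 1 (max n1 (max n2 (max n3 (max n4 (max n5 (max n6 (max n7 (max n8 n9)))))))),
    fun n hn m hm => ?_⟩
  have hnpos : 0 < n := by omega
  have hnr : (0 : ℝ) < n := by exact_mod_cast hnpos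
  have hkr : (0 : ℝ) < k := by
    have : 0 < k := by omega
    exact_mod_cast this
  have a1 := hn1 n (by omega) m hm
  have a2 := hn2 n (by omega) m hm 0
  have a3 := hn3 n (by omega)
  have a4 := hn4 n (by omega)
  have a5 := hn5 n (by omega) m hm
  have a6 := hn6 n (by omega) m hm
  obtain ⟨hl, hq⟩ := hn7 n (by omega)
  have a8 := hn8 n (by omega)
  refine ⟨hl, ?_⟩
  set M : ℝ := (n : ℝ) ^ (k * m) * 2 ^ (k * m) with hM
  have hMpos : 0 < M := by positivity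
  have hbig : 3 * (ll n : ℝ) * (c3 * ((C2 * ll n : ℕ) + ll n)) ≤ (n : ℝ) / (2 * k) := by
    rw [le_div_iff₀ (by positivity)]
    push_cast
    calc 3 * (ll n : ℝ) * (c3 * (C2 * ll n + ll n)) * (2 * k) =
          6 * k * (c3 * (C2 + 1)) * (ll n : ℝ) ^ 2 := by ring
      _ ≤ n := a8
  rw [ZLc_card (fun p : Asg n × (Pos n k m × Sgn k m) =>
      Inj p.2.1 ∧ E1 p.2.1 ((ll n) ^ 3) ∧ E2 p.2.1 ((ll n) ^ 3) c3 (ll n) ∧
      ¬ Succ n k m (1 * ll n) (C2 * ll n) c3 p.2.1 p.2.2 p.1)]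
  -- the four sums
  have s1 : (∑ v : Pos n k m, ∑ s : Sgn k m, ∑ σ : Asg n,
      if ¬ Glob (mkF v s) (etat 0 σ) ((ll n) ^ 3) (bb n k) then (1 : ℝ) else 0) ≤
      δ / 4 * (2 ^ n * M) := by
    have h7 := a2
    rw [MainA_card (fun p : Asg n × Fml n k m =>
      ¬ Glob p.2 (etat 0 p.1) ((ll n) ^ 3) (bb n k))] at h7
    have h8 : Real.exp (-(Real.log k ^ 5 * n / (2 * k))) ≤ δ / 4 := by
      refine le_trans ?_ a3
      have h9 : (1 : ℝ) ≤ ((n : ℝ) + 1) * Real.exp (15 * Real.log k ^ 2 * n / k) := by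
        have h10 : (1 : ℝ) ≤ Real.exp (15 * Real.log k ^ 2 * n / k) :=
          Real.one_le_exp (by positivity)
        nlinarith
      calc _ = 1 * Real.exp (-(Real.log k ^ 5 * n / (2 * k))) := (one_mul _).symm
        _ ≤ _ := mul_le_mul_of_nonneg_right h9 (Real.exp_pos _).le
    calc _ ≤ 2 ^ n * (n : ℝ) ^ (k * m) * 2 ^ (k * m) *
          Real.exp (-(Real.log k ^ 5 * n / (2 * k))) := h7
      _ = (2 ^ n * M) * Real.exp (-(Real.log k ^ 5 * n / (2 * k))) := by rw [hM]; ring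
      _ ≤ (2 ^ n * M) * (δ / 4) := mul_le_mul_of_nonneg_left h8 (by positivity)
      _ = δ / 4 * (2 ^ n * M) := mul_comm _ _
  have hlawM : ∀ (v : Pos n k m) (s : Sgn k m) (σ : Asg n) (x : ℝ),
      x = 2 ^ n * (lawM v s σ * x) := by
    intro v s σ x
    unfold lawM
    have : (2 : ℝ) ^ n ≠ 0 := by positivity
    field_simp
  have s2 : (∑ v : Pos n k m, ∑ s : Sgn k m, ∑ σ : Asg n,
      if Inj v ∧ E1 v ((ll n) ^ 3) ∧ Glob (mkF v s) (etat 0 σ) ((ll n) ^ 3) (bb n k) ∧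
        ¬ NoWit (mkF v s) (fin (mkF v s) (etat 0 σ)) ((ll n) ^ 3) (1 * ll n) (C2 * ll n)
        then (1 : ℝ) else 0) ≤ δ / 4 * (2 ^ n * M) := by
    have h7 := e4_sum (m := m) hnpos hk66 lawM dom_M 0 ((ll n) ^ 3) (bb n k) (1 * ll n)
      (C2 * ll n) (gg k) hg0.le hg1 (hg2 n).2 (Nat.mul_le_mul_right _ hC12)
    have h8 : (1 : ℝ) / (n : ℝ) ^ 2 ≤ δ / 4 := by
      refine le_trans ?_ a4
      have : (0 : ℝ) ≤ 1 / (n : ℝ) ^ 2 := by positivity
      nlinarith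
    calc _ = 2 ^ n * ∑ v : Pos n k m, ∑ s : Sgn k m, ∑ σ : Asg n, lawM v s σ *
          (if Inj v ∧ E1 v ((ll n) ^ 3) ∧ Glob (mkF v s) (etat 0 σ) ((ll n) ^ 3) (bb n k) ∧
          ¬ NoWit (mkF v s) (fin (mkF v s) (etat 0 σ)) ((ll n) ^ 3) (1 * ll n) (C2 * ll n)
          then (1 : ℝ) else 0) := by
          simp only [Finset.mul_sum]
          apply Finset.sum_congr rfl
          intro v _
          apply Finset.sum_congr rfl
          intro s _
          apply Finset.sum_congr rfl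
          intro σ _
          exact hlawM v s σ _
      _ ≤ 2 ^ n * (sumE4 n k m ((ll n) ^ 3) (1 * ll n) (C2 * ll n) (gg k) * M) :=
          mul_le_mul_of_nonneg_left h7 (by positivity)
      _ ≤ 2 ^ n * ((1 / (n : ℝ) ^ 2) * M) := by
          apply mul_le_mul_of_nonneg_left _ (by positivity)
          exact mul_le_mul_of_nonneg_right a1 hMpos.le
      _ ≤ 2 ^ n * ((δ / 4) * M) := by
          apply mul_le_mul_of_nonneg_left _ (by positivity)
          exact mul_le_mul_of_nonneg_right h8 hMpos.le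
      _ = δ / 4 * (2 ^ n * M) := by ring
  have s3 : (∑ v : Pos n k m, ∑ s : Sgn k m, ∑ σ : Asg n,
      if ⌈12 * Real.log k * n / k⌉₊ ≤
        (univ.filter (fun e : Fin m => Viol (mkF v s e) (arun (mkF v s) σ e.val).1)).card
        then (1 : ℝ) else 0) ≤ δ / 4 * (2 ^ n * M) := by
    have h7 : (∑ v : Pos n k m, ∑ s : Sgn k m, ∑ σ : Asg n,
        if ⌈12 * Real.log k * n / k⌉₊ ≤
        (univ.filter (fun e : Fin m => Viol (mkF v s e) (arun (mkF v s) σ e.val).1)).card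
        then (1 : ℝ) else 0) = ∑ σ : Asg n, ((univ.filter (fun Φ : Fml n k m =>
          ⌈12 * Real.log k * n / k⌉₊ ≤
        (univ.filter (fun e : Fin m => Viol (Φ e) (arun Φ σ e.val).1)).card)).card : ℝ) := by
      rw [MainA_sum (fun Φ : Fml n k m => ∑ σ : Asg n, if ⌈12 * Real.log k * n / k⌉₊ ≤
        (univ.filter (fun e : Fin m => Viol (Φ e) (arun Φ σ e.val).1)).card
        then (1 : ℝ) else 0), Finset.sum_comm]
      apply Finset.sum_congr rfl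
      intro σ _
      rw [Finset.sum_boole]
    rw [h7]
    calc _ ≤ ∑ σ : Asg n, ((m.choose ⌈12 * Real.log k * n / k⌉₊ : ℝ) /
          2 ^ (k * ⌈12 * Real.log k * n / k⌉₊) * ((n : ℝ) ^ (k * m) * 2 ^ (k * m))) := by
          apply Finset.sum_le_sum
          intro σ _
          exact viol_M hnpos σ _
      _ ≤ ∑ σ : Asg n, (δ / 4 * M) := by
          apply Finset.sum_le_sum
          intro σ _
          exact mul_le_mul_of_nonneg_right a5 hMpos.le
      _ = δ / 4 * (2 ^ n * M) := by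
          rw [Finset.sum_const, card_univ, nsmul_eq_mul]
          have : Fintype.card (Asg n) = 2 ^ n := by simp [Asg]
          rw [this]
          push_cast
          ring
  have s4 : (∑ v : Pos n k m, ∑ s : Sgn k m, ∑ σ : Asg n,
      (2 * (k : ℝ) / n) ^ (ll n) *
        ((ZLc_tup (ll n) ((ll n) ^ 3) (bb n k) v s σ).card : ℝ)) ≤ δ / 4 * (2 ^ n * M) := by
    have h7 := wt_sum (m := m) hnpos hk66 lawM dom_M 0 ((ll n) ^ 3) (bb n k) (ll n)
      (gg k) hg0.le hg1 (hg2 n).2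
    have h8 : (1 : ℝ) / (n : ℝ) ≤ δ / 4 := by
      have h9 : (n9 : ℝ) ≤ n := by
        have : n9 ≤ n := by omega
        exact_mod_cast this
      have h10 : 4 / δ < n := hn9.trans_le h9
      rw [div_lt_iff₀ hδ] at h10
      rw [div_le_iff₀ hnr]
      linarith
    calc _ = (2 * (k : ℝ) / n) ^ (ll n) * (2 ^ n *
          ∑ v : Pos n k m, ∑ s : Sgn k m, ∑ σ : Asg n, lawM v s σ *
          ((ZLc_tup (ll n) ((ll n) ^ 3) (bb n k) v s σ).card : ℝ)) := by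
          simp only [Finset.mul_sum]
          apply Finset.sum_congr rfl
          intro v _
          apply Finset.sum_congr rfl
          intro s _
          apply Finset.sum_congr rfl
          intro σ _
          rw [← hlawM v s σ _]
      _ ≤ (2 * (k : ℝ) / n) ^ (ll n) * (2 ^ n *
          (sumWT n k m ((ll n) ^ 3) (ll n) (gg k) * M)) := by
          apply mul_le_mul_of_nonneg_left _ (by positivity)
          apply mul_le_mul_of_nonneg_left _ (by positivity)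
          exact h7
      _ = 2 ^ n * (((2 * (k : ℝ) / n) ^ (ll n) *
          sumWT n k m ((ll n) ^ 3) (ll n) (gg k)) * M) := by ring
      _ ≤ 2 ^ n * ((1 / (n : ℝ)) * M) := by
          apply mul_le_mul_of_nonneg_left _ (by positivity)
          exact mul_le_mul_of_nonneg_right a6 hMpos.le
      _ ≤ 2 ^ n * ((δ / 4) * M) := by
          apply mul_le_mul_of_nonneg_left _ (by positivity)
          exact mul_le_mul_of_nonneg_right h8 hMpos.le
      _ = δ / 4 * (2 ^ n * M) := by ring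
  calc _ ≤ ∑ v : Pos n k m, ∑ s : Sgn k m, ∑ σ : Asg n,
      ((if ¬ Glob (mkF v s) (etat 0 σ) ((ll n) ^ 3) (bb n k) then (1 : ℝ) else 0) +
      (if Inj v ∧ E1 v ((ll n) ^ 3) ∧ Glob (mkF v s) (etat 0 σ) ((ll n) ^ 3) (bb n k) ∧
        ¬ NoWit (mkF v s) (fin (mkF v s) (etat 0 σ)) ((ll n) ^ 3) (1 * ll n) (C2 * ll n)
        then (1 : ℝ) else 0) +
      (if ⌈12 * Real.log k * n / k⌉₊ ≤
        (univ.filter (fun e : Fin m => Viol (mkF v s e) (arun (mkF v s) σ e.val).1)).card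
        then (1 : ℝ) else 0) +
      (2 * (k : ℝ) / n) ^ (ll n) *
        ((ZLc_tup (ll n) ((ll n) ^ 3) (bb n k) v s σ).card : ℝ)) := by
        apply Finset.sum_le_sum
        intro v _
        apply Finset.sum_le_sum
        intro s _
        apply Finset.sum_le_sum
        intro σ _
        exact ZLc_one hk3 hnpos hc3 hl hq hbig v s σ
    _ ≤ δ / 4 * (2 ^ n * M) + δ / 4 * (2 ^ n * M) + δ / 4 * (2 ^ n * M) +
        δ / 4 * (2 ^ n * M) := by
        simp only [Finset.sum_add_distrib]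
        exact add_le_add (add_le_add (add_le_add s1 s2) s3) s4
    _ = δ * (2 ^ n * M) := by ring

end GC
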